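import Pool.Agent.Lib.SV.Hol85

/-! Holomorphic maps of several variables are analytic; Cauchy estimates and Taylor series. -/

open Set Metric
open scoped Nat Topology

namespace Pool.Agent.Lib.RA

open Pool.Agent.Lib.SV

/-- Holomorphic maps on open subsets of finite-dimensional spaces are analytic. On a ball where
the map is bounded one has the Cauchy estimates, and the Taylor series converges. -/
def St_AN : Prop := ∀ (E F : Type) [NormedAddCommGroup E] [NormedSpace ℂ E] [FiniteDimensional ℂ E]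
  [NormedAddCommGroup F] [NormedSpace ℂ F] [CompleteSpace F] (f : E → F),
  (∀ U, IsOpen U → DifferentiableOn ℂ f U → AnalyticOnNhd ℂ f U) ∧
  ∀ (x : E) (R : ℝ), 0 < R → DifferentiableOn ℂ f (ball x R) →
    (∀ M, (∀ z ∈ ball x R, ‖f z‖ ≤ M) → ∀ k, ‖iteratedFDeriv ℂ k f x‖ ≤ M * k ! * (6 / R) ^ k) ∧
    ∀ y, ‖y‖ < R → HasSum (fun k => ((k ! : ℂ)⁻¹) • iteratedFDeriv ℂ k f x fun _ => y) (f (x + y))

namespace ANB

variable {E F : Type*} [NormedAddCommGroup E] [NormedSpace ℂ E] [FiniteDimensional ℂ E]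
  [NormedAddCommGroup F] [NormedSpace ℂ F] [CompleteSpace F] {f : E → F}

lemma pow_le_fact (j : ℕ) : (j : ℝ) ^ j ≤ j ! * 3 ^ j := by
  have h3 := Real.pow_div_factorial_le_exp (j : ℝ) (Nat.cast_nonneg j) j
  rw [div_le_iff₀ (by positivity)] at h3
  have h4 : Real.exp j ≤ 3 ^ j := by
    rw [← Real.exp_one_pow]
    exact pow_le_pow_left₀ (Real.exp_pos 1).le (Real.exp_one_lt_three.le) j
  calc _ ≤ Real.exp j * j ! := h3
    _ ≤ 3 ^ j * j ! := by gcongr
    _ = _ := mul_comm _ _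

lemma diff_iter {U : Set E} (hU : IsOpen U) (hf : DifferentiableOn ℂ f U) (k : ℕ) :
    DifferentiableOn ℂ (iteratedFDeriv ℂ k f) U := fun z hz =>
  (((H85.contDiffOn_nat hU (k + 1) hf).contDiffAt (hU.mem_nhds hz)).differentiableAt_iteratedFDeriv
    (by exact_mod_cast k.lt_succ_self)).differentiableWithinAt

/-- The Cauchy estimates. -/
theorem cauchy {x : E} {R M : ℝ} (hR : 0 < R) (hf : DifferentiableOn ℂ f (ball x R))
    (hM : ∀ z ∈ ball x R, ‖f z‖ ≤ M) (j : ℕ) :
    ‖iteratedFDeriv ℂ j f x‖ ≤ M * j ! * (6 / R) ^ j := by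
  have hM0 : 0 ≤ M := (norm_nonneg _).trans (hM x (mem_ball_self hR))
  rcases Nat.eq_zero_or_pos j with rfl | hj
  · simpa using hM x (mem_ball_self hR)
  have hj' : (0 : ℝ) < j := by exact_mod_cast hj
  set h : ℝ := R / j with hh
  have h1 : 0 < h := div_pos hR hj'
  have key : ∀ (i : ℕ) (z : E), ball z (i * h) ⊆ ball x R → z ∈ ball x R →
      ‖iteratedFDeriv ℂ i f z‖ ≤ M * (2 / h) ^ i := by
    intro i
    induction i with
    | zero => intro z _ hz; simpa using hM z hz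
    | succ i ih =>
      intro z hb hz
      have hi : (0 : ℝ) ≤ i * h := by positivity
      have hb1 : ball z h ⊆ ball x R := (ball_subset_ball (by push_cast; linarith)).trans hb
      rw [← norm_fderiv_iteratedFDeriv]
      refine (H85.norm_fderiv_le h1 ((diff_iter isOpen_ball hf i).mono hb1)
        (M := M * (2 / h) ^ i) fun w hw => ih w ?_ (hb1 hw)).trans_eq (by ring)
      exact (ball_subset_ball' (by push_cast; linarith [mem_ball.1 hw])).trans hb
  have e : (j : ℝ) * h = R := by rw [hh]; field_simp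
  refine (key j x (by rw [e]) (mem_ball_self hR)).trans ?_
  have e2 : 2 / h = j * (2 / R) := by rw [hh]; field_simp
  have e3 : 6 / R = 3 * (2 / R) := by ring
  rw [e2, e3, mul_pow, mul_pow, mul_assoc, ← mul_assoc (j ! : ℝ)]
  gcongr
  exact pow_le_fact j

lemma iter_line {U : Set E} (hU : IsOpen U) (hf : DifferentiableOn ℂ f U) {x : E} (hx : x ∈ U)
    (y : E) (n : ℕ) :
    iteratedDeriv n (fun t : ℂ => f (x + t • y)) 0 = iteratedFDeriv ℂ n f x fun _ => y := by
  set g := ContinuousLinearMap.toSpanSingleton ℂ y with hg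
  have hV : IsOpen ((fun z => x + z) ⁻¹' U) := hU.preimage (by fun_prop)
  have hW : IsOpen (g ⁻¹' ((fun z => x + z) ⁻¹' U)) := hV.preimage g.continuous
  have h0 : g 0 ∈ (fun z => x + z) ⁻¹' U := by simpa using hx
  have hc : ContDiffOn ℂ n (fun z => f (x + z)) ((fun z => x + z) ⁻¹' U) :=
    (H85.contDiffOn_nat hU n hf).comp (contDiff_const.add contDiff_id).contDiffOn fun _ h => h
  have h := g.iteratedFDerivWithin_comp_right hc hV.uniqueDiffOn hW.uniqueDiffOn h0 le_rfl
  rw [iteratedFDerivWithin_of_isOpen n hW h0, iteratedFDerivWithin_of_isOpen n hV h0] at h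
  rw [iteratedDeriv_eq_iteratedFDeriv]
  refine (congrArg (fun m => m fun _ : Fin n => (1 : ℂ)) h).trans ?_
  simp [iteratedFDeriv_comp_add_left, hg]

/-- The Taylor series converges on the ball. -/
theorem taylor {x : E} {R : ℝ} (hf : DifferentiableOn ℂ f (ball x R)) {y : E} (hy : ‖y‖ < R) :
    HasSum (fun k => ((k ! : ℂ)⁻¹) • iteratedFDeriv ℂ k f x fun _ => y) (f (x + y)) := by
  have hR : 0 < R := (norm_nonneg y).trans_lt hy
  obtain ⟨r, hr1, hr⟩ : ∃ r : ℝ, 1 < r ∧ r * ‖y‖ < R := by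
    have h : ∀ᶠ r in 𝓝 (1 : ℝ), r * ‖y‖ < R :=
      (by fun_prop : Continuous fun r : ℝ => r * ‖y‖).continuousAt.eventually_lt
        continuousAt_const (by simpa using hy)
    obtain ⟨r, h1, h2⟩ := ((frequently_gt_nhds (1 : ℝ)).and_eventually h).exists
    exact ⟨r, h1, h2⟩
  have hd : DifferentiableOn ℂ (fun t : ℂ => f (x + t • y)) (ball 0 r) := by
    refine hf.comp (by fun_prop) fun t ht => ?_
    rw [mem_ball_zero_iff] at ht
    rw [mem_ball, dist_eq_norm, add_sub_cancel_left, norm_smul]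
    exact (mul_le_mul_of_nonneg_right ht.le (norm_nonneg _)).trans_lt hr
  have h := Complex.hasSum_taylorSeries_on_ball hd (z := 1) (by simpa using hr1)
  simpa [iter_line isOpen_ball hf (mem_ball_self hR)] using h

/-- Holomorphic maps are analytic. -/
theorem analyticOnNhd {U : Set E} (hU : IsOpen U) (hf : DifferentiableOn ℂ f U) :
    AnalyticOnNhd ℂ f U := by
  intro x hx
  have h1 : ∀ᶠ z in 𝓝 x, dist (f z) (f x) < 1 :=
    Metric.tendsto_nhds.1 (hf.continuousOn.continuousAt (hU.mem_nhds hx)) 1 one_pos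
  obtain ⟨R, hR, hb⟩ := Metric.mem_nhds_iff.1 (h1.and (hU.mem_nhds hx))
  have hf' : DifferentiableOn ℂ f (ball x R) := hf.mono fun z hz => (hb hz).2
  have hM : ∀ z ∈ ball x R, ‖f z‖ ≤ ‖f x‖ + 1 := fun z hz => by
    have h2 := (hb hz).1
    rw [dist_eq_norm] at h2
    linarith [norm_sub_norm_le (f z) (f x)]
  let p : FormalMultilinearSeries ℂ E F := fun n => ((n ! : ℂ)⁻¹) • iteratedFDeriv ℂ n f x
  let r : NNReal := ⟨R / 6, by positivity⟩
  have hr : (r : ENNReal) ≤ p.radius := by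
    refine p.le_radius_of_bound (‖f x‖ + 1) fun n => ?_
    change ‖((n ! : ℂ)⁻¹) • iteratedFDeriv ℂ n f x‖ * (R / 6) ^ n ≤ _
    rw [norm_smul, norm_inv, Complex.norm_natCast]
    calc _ ≤ (n ! : ℝ)⁻¹ * ((‖f x‖ + 1) * n ! * (6 / R) ^ n) * (R / 6) ^ n := by
          gcongr; exact cauchy hR hf' hM n
      _ = ‖f x‖ + 1 := by rw [div_pow, div_pow]; field_simp
  refine ⟨p, r, hr, ENNReal.coe_pos.2 (by change (0 : ℝ) < R / 6; positivity), fun {y} hy => ?_⟩
  have hy' : ‖y‖ < R / 6 := by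
    rw [Metric.eball_coe, mem_ball_zero_iff] at hy; exact hy
  simpa [p] using taylor hf' (y := y) (by linarith)

theorem analyticAt {x : E} (hf : ∀ᶠ z in 𝓝 x, DifferentiableAt ℂ f z) : AnalyticAt ℂ f x := by
  obtain ⟨O, h1, hO, hx⟩ := _root_.eventually_nhds_iff.1 hf
  exact analyticOnNhd hO (fun z hz => (h1 z hz).differentiableWithinAt) x hx

end ANB

theorem st_AN : St_AN := fun _ _ _ _ _ _ _ _ _ =>
  ⟨fun _ hU hf => ANB.analyticOnNhd hU hf,
    fun _ _ hR hf => ⟨fun _ hM => ANB.cauchy hR hf hM, fun _ hy => ANB.taylor hf hy⟩⟩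

end Pool.Agent.Lib.RA
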