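import Pool.Agent.Lib.RA.Defs
import Pool.Agent.Lib.RA.T_AN
import Pool.Agent.Lib.HS32.MAll

/-! Project ra1: pointwise notions on the manifold, from one chart to all charts. -/

open scoped Classical Topology ContDiff ComplexOrder Matrix
open Set MeasureTheory Complex Metric Filter

set_option linter.unusedVariables false

noncomputable section

namespace Pool.Agent.Lib.RA

open Pool.Agent.Lib.SV (E nsq)
open Pool.Agent.Lib.HS32

namespace KA

section euc

variable {n : ℕ} {z : E n} {f : E n → ℂ}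

theorem an_of_hol {F : Type} [NormedAddCommGroup F] [NormedSpace ℂ F] [CompleteSpace F]
    {H : E n → F} (h : HolN H z) : AnalyticAt ℝ H z := (ANB.analyticAt h).restrictScalars

theorem cd_of_an {F : Type} [NormedAddCommGroup F] [NormedSpace ℝ F] [CompleteSpace F]
    {g : E n → F} (h : AnalyticAt ℝ g z) : ContDiffAt ℝ ∞ g z := h.contDiffAt

theorem an_fd {F : Type} [NormedAddCommGroup F] [NormedSpace ℝ F] [CompleteSpace F] {g : E n → F}
    (h : AnalyticAt ℝ g z) (v : E n) : AnalyticAt ℝ (fun w => fderiv ℝ g w v) z :=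
  ((ContinuousLinearMap.apply ℝ F v).analyticAt _).comp h.fderiv

theorem an_dz (h : AnalyticAt ℝ f z) (j : Fin n) : AnalyticAt ℝ (dz j f) z :=
  ((an_fd h _).sub (analyticAt_const.mul (an_fd h _))).mul analyticAt_const

theorem an_dzb (h : AnalyticAt ℝ f z) (j : Fin n) : AnalyticAt ℝ (dzb j f) z :=
  ((an_fd h _).add (analyticAt_const.mul (an_fd h _))).mul analyticAt_const

theorem an_hess (h : AnalyticAt ℝ f z) (i j : Fin n) : AnalyticAt ℝ (fun w => hess f w i j) z :=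
  an_dzb (an_dz h j) i

theorem an_ofReal {u : E n → ℝ} (h : AnalyticAt ℝ u z) : AnalyticAt ℝ (fun w => (u w : ℂ)) z :=
  (ofRealCLM.analyticAt _).comp h

theorem an_hr {u : E n → ℝ} (h : AnalyticAt ℝ u z) (i j : Fin n) :
    AnalyticAt ℝ (fun w => hr u w i j) z := an_hess (an_ofReal h) i j

/-- The identity theorem on a ball. -/
theorem eq_ball {F : Type} [NormedAddCommGroup F] [NormedSpace ℝ F] [CompleteSpace F]
    {g g' : E n → F} {c z' : E n} {R : ℝ} (h : ∀ w ∈ ball c R, AnalyticAt ℝ g w)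
    (h' : ∀ w ∈ ball c R, AnalyticAt ℝ g' w) (hz : z ∈ ball c R) (e : g =ᶠ[𝓝 z] g')
    (hz' : z' ∈ ball c R) : g z' = g' z' :=
  AnalyticOnNhd.eqOn_of_preconnected_of_eventuallyEq h h' (convex_ball c R).isPreconnected hz e hz'

theorem hr_ball {u u' : E n → ℝ} {c z' : E n} {R : ℝ} (h : ∀ w ∈ ball c R, AnalyticAt ℝ u w)
    (h' : ∀ w ∈ ball c R, AnalyticAt ℝ u' w) (hz : z ∈ ball c R)
    (e : ∀ᶠ w in 𝓝 z, hr u w = hr u' w) (hz' : z' ∈ ball c R) : hr u z' = hr u' z' := by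
  ext i j
  exact eq_ball (fun w hw => an_hr (h w hw) i j) (fun w hw => an_hr (h' w hw) i j) hz
    (e.mono fun w hw => by simp only [hw]) hz'

theorem hr_congr {u u' : E n → ℝ} (e : u =ᶠ[𝓝 z] u') : hr u z = hr u' z :=
  hess_congr (e.mono fun w hw => by simp only [hw])

theorem holN_congr {F : Type} [NormedAddCommGroup F] [NormedSpace ℂ F] {H H' : E n → F}
    (h : HolN H z) (e : H' =ᶠ[𝓝 z] H) : HolN H' z := by
  filter_upwards [h, e.eventuallyEq_nhds] with w h1 h2 using h1.congr_of_eventuallyEq h2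

theorem holN_comp {m : ℕ} {F : Type} [NormedAddCommGroup F] [NormedSpace ℂ F] {K : E m → F}
    {H : E n → E m} (hK : HolN K (H z)) (h : HolN H z) : HolN (K ∘ H) z := by
  filter_upwards [h, h.self_of_nhds.continuousAt.eventually hK] with w h1 h2 using h2.comp w h1

theorem holN_of_on {F : Type} [NormedAddCommGroup F] [NormedSpace ℂ F] {H : E n → F}
    {O : Set (E n)} (hO : IsOpen O) (h : DifferentiableOn ℂ H O) (hz : z ∈ O) : HolN H z := by
  filter_upwards [hO.mem_nhds hz] with w hw using h.differentiableAt (hO.mem_nhds hw)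

end euc

variable {n : ℕ} {M : Mf n} {e e' : M.Ch} {x : M.X} {z : E n}

theorem ev_iff {p : M.X → Prop} (hx : x ∈ e.source) :
    (∀ᶠ y in 𝓝 x, p y) ↔ ∀ᶠ w in 𝓝 (e x), p (e.symm w) := (e.eventually_nhds' p hx).symm

theorem ev_iff' {p : M.X → Prop} (hz : z ∈ e.target) :
    (∀ᶠ y in 𝓝 (e.symm z), p y) ↔ ∀ᶠ w in 𝓝 z, p (e.symm w) := by
  rw [ev_iff (e.map_target hz), e.right_inv hz]

theorem eq_chart {F : Type} {f g : M.X → F} (h : f =ᶠ[𝓝 x] g) (hx : x ∈ e.source) :
    f ∘ e.symm =ᶠ[𝓝 (e x)] g ∘ e.symm := (ev_iff hx).1 h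

theorem at_tgt {p : M.Ch → E n → Prop} (he : e ∈ M.C) (hz : z ∈ e.target)
    (h : At M (e.symm z) p) : p e z := by
  have := h e he (e.map_target hz)
  rwa [e.right_inv hz] at this

theorem at_ch {p : M.Ch → E n → Prop} (h : At M x p) : p (M.ch x) (M.ch x x) :=
  h _ (Mf.ch_mem x) (Mf.mem_ch x)

theorem at_of_all {p : M.Ch → E n → Prop} (h : M.All p) (x : M.X) : At M x p :=
  fun e he hx => Mf.AllOn.at h he hx

theorem all_of_at {p : M.Ch → E n → Prop} (h : ∀ x, At M x p) : M.All p :=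
  fun e he z hz => at_tgt he hz (h _)

theorem at_ev {p : M.Ch → E n → Prop} (h : ∀ᶠ y in 𝓝 x, At M y p) (he : e ∈ M.C)
    (hx : x ∈ e.source) : ∀ᶠ w in 𝓝 (e x), p e w := by
  filter_upwards [(ev_iff hx).1 h, e.open_target.mem_nhds (e.map_source hx)] with w h1 h2
  exact at_tgt he h2 h1

theorem hol_tr (he : e ∈ M.C) (he' : e' ∈ M.C) (hx : x ∈ e.source) (hx' : x ∈ e'.source) :
    HolN (e ∘ e'.symm) (e' x) := ((mTR n M).2.1 e he e' he' x hx hx').1

theorem det_J (he : e ∈ M.C) (he' : e' ∈ M.C) (hx : x ∈ e.source) (hx' : x ∈ e'.source) :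
    (M.J e e' x).det ≠ 0 := ((mTR n M).2.1 e he e' he' x hx hx').2.1

theorem tr_pt (hx' : x ∈ e'.source) : (e ∘ e'.symm) (e' x) = e x := by
  simp only [Function.comp, e'.left_inv hx']

theorem comp_ev {F : Type} (f : M.X → F) (hx : x ∈ e.source) (hx' : x ∈ e'.source) :
    f ∘ e'.symm =ᶠ[𝓝 (e' x)] (f ∘ e.symm) ∘ (e ∘ e'.symm) := by
  filter_upwards [(ev_iff hx').1 (e.open_source.eventually_mem hx)] with w hw
  simp only [Function.comp, e.left_inv hw]

section hol

variable {F : Type} [NormedAddCommGroup F] [NormedSpace ℂ F] {f g : M.X → F}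

theorem holAt_of (he : e ∈ M.C) (hx : x ∈ e.source) (h : HolN (f ∘ e.symm) (e x)) :
    HolAt M f x := fun e' he' hx' =>
  holN_congr (holN_comp (by rwa [tr_pt hx']) (hol_tr he he' hx hx')) (comp_ev f hx hx')

theorem holAt_of' (he : e ∈ M.C) (hz : z ∈ e.target) (h : HolN (f ∘ e.symm) z) :
    HolAt M f (e.symm z) := holAt_of he (e.map_target hz) (by rwa [e.right_inv hz])

theorem holAt_ev (h : HolAt M f x) : ∀ᶠ y in 𝓝 x, HolAt M f y := by
  rw [ev_iff (Mf.mem_ch x)]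
  filter_upwards [(at_ch h).eventually_nhds, (M.ch x).open_target.mem_nhds (Mf.ch_tgt x)]
    with w h1 h2 using holAt_of' (Mf.ch_mem x) h2 h1

theorem holAt_congr (h : HolAt M f x) (q : g =ᶠ[𝓝 x] f) : HolAt M g x := fun e he hx =>
  holN_congr (h e he hx) (eq_chart q hx)

theorem holAt_cont (h : HolAt M f x) : ContinuousAt f x := by
  have a := ((at_ch h).self_of_nhds.continuousAt).comp ((M.ch x).continuousAt (Mf.mem_ch x))
  refine a.congr ?_
  filter_upwards [(M.ch x).open_source.mem_nhds (Mf.mem_ch x)] with y hy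
  simp [(M.ch x).left_inv hy]

theorem holAt_comp {m : ℕ} {H : M.X → E m} {K : E m → F} (hK : HolN K (H x)) (h : HolAt M H x) :
    HolAt M (K ∘ H) x := fun e he hx =>
  holN_comp (K := K) (H := H ∘ e.symm) (by simpa only [Function.comp, e.left_inv hx] using hK)
    (h e he hx)

end hol

section real

variable {F : Type} [NormedAddCommGroup F] [NormedSpace ℝ F] {f g : M.X → F}

theorem anAt_of (he : e ∈ M.C) (hx : x ∈ e.source) (h : AnalyticAt ℝ (f ∘ e.symm) (e x)) :
    AnAt M f x := fun e' he' hx' =>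
  (AnalyticAt.comp (by rwa [tr_pt hx']) (an_of_hol (hol_tr he he' hx hx'))).congr
    (comp_ev f hx hx').symm

theorem anAt_of' (he : e ∈ M.C) (hz : z ∈ e.target) (h : AnalyticAt ℝ (f ∘ e.symm) z) :
    AnAt M f (e.symm z) := anAt_of he (e.map_target hz) (by rwa [e.right_inv hz])

theorem anAt_ev [CompleteSpace F] (h : AnAt M f x) : ∀ᶠ y in 𝓝 x, AnAt M f y := by
  rw [ev_iff (Mf.mem_ch x)]
  filter_upwards [(at_ch h).eventually_analyticAt, (M.ch x).open_target.mem_nhds (Mf.ch_tgt x)]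
    with w h1 h2 using anAt_of' (Mf.ch_mem x) h2 h1

theorem anAt_congr (h : AnAt M f x) (q : g =ᶠ[𝓝 x] f) : AnAt M g x := fun e he hx =>
  (h e he hx).congr (eq_chart q hx).symm

theorem anAt_comp {F' : Type} [NormedAddCommGroup F'] [NormedSpace ℝ F'] {K : F → F'}
    (hK : AnalyticAt ℝ K (f x)) (h : AnAt M f x) : AnAt M (K ∘ f) x := fun e he hx =>
  AnalyticAt.comp (g := K) (f := f ∘ e.symm)
    (by simpa only [Function.comp, e.left_inv hx] using hK) (h e he hx)

theorem smAt_of (he : e ∈ M.C) (hx : x ∈ e.source) (h : ContDiffAt ℝ ∞ (f ∘ e.symm) (e x)) :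
    SmAt M f x := fun e' he' hx' => ((mTR n M).2.2.2.1 F f).2.1 e he e' he' x hx hx' h

theorem smAt_of' (he : e ∈ M.C) (hz : z ∈ e.target) (h : ContDiffAt ℝ ∞ (f ∘ e.symm) z) :
    SmAt M f (e.symm z) := smAt_of he (e.map_target hz) (by rwa [e.right_inv hz])

theorem smAt_congr (h : SmAt M f x) (q : g =ᶠ[𝓝 x] f) : SmAt M g x := fun e he hx =>
  (h e he hx).congr_of_eventuallyEq (eq_chart q hx)

theorem smAt_of_an [CompleteSpace F] (h : AnAt M f x) : SmAt M f x := fun e he hx =>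
  (h e he hx).contDiffAt

theorem smAt_of_sm (h : M.Sm f) (x : M.X) : SmAt M f x := at_of_all h x

theorem sm_of_smAt (h : ∀ x, SmAt M f x) : M.Sm f := all_of_at h

theorem smAt_cont (h : SmAt M f x) : ContinuousAt f x := by
  have a := ((at_ch h).continuousAt).comp ((M.ch x).continuousAt (Mf.mem_ch x))
  refine a.congr ?_
  filter_upwards [(M.ch x).open_source.mem_nhds (Mf.mem_ch x)] with y hy
  simp [(M.ch x).left_inv hy]

theorem smAt_comp {F' : Type} [NormedAddCommGroup F'] [NormedSpace ℝ F'] {K : F → F'}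
    (hK : ContDiffAt ℝ ∞ K (f x)) (h : SmAt M f x) : SmAt M (K ∘ f) x := fun e he hx =>
  ContDiffAt.comp (g := K) (f := f ∘ e.symm) _
    (by simpa only [Function.comp, e.left_inv hx] using hK) (h e he hx)

end real

theorem anAt_of_hol {F : Type} [NormedAddCommGroup F] [NormedSpace ℂ F] [CompleteSpace F]
    {f : M.X → F} (h : HolAt M f x) : AnAt M f x := fun e he hx => an_of_hol (h e he hx)

theorem hs_eq (u : M.X → ℝ) (e : M.Ch) : M.hs u e = hr (u ∘ e.symm) := rfl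

theorem hw_eq (φ : M.Fam ℝ) (e : M.Ch) : M.hw φ e = hr (φ e) := rfl

theorem hs_congr {u u' : M.X → ℝ} (q : u =ᶠ[𝓝 x] u') : EqAt M (M.hs u) (M.hs u') x :=
  fun e he hx => hr_congr (eq_chart q hx)

theorem hs_cmp {u : M.X → ℝ} (h : SmAt M u x) (he : e ∈ M.C) (he' : e' ∈ M.C) (hx : x ∈ e.source)
    (hx' : x ∈ e'.source) :
    M.hs u e' (e' x) = (M.J e e' x)ᴴ * M.hs u e (e x) * M.J e e' x := by
  have a := (mCHN n _ _ (hol_tr he he' hx hx')).2.2.2.2.2.2.2.2.2.2.2 (M.lc u e)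
    (by rw [tr_pt hx']; exact cd_ofReal (h e he hx))
  rw [tr_pt hx'] at a
  exact (hess_congr (comp_ev (fun y => (u y : ℂ)) hx hx')).trans a

theorem hw_cmp {a : ℝ} {φ : M.Fam ℝ} (h : M.Wt a φ) (he : e ∈ M.C) (he' : e' ∈ M.C)
    (hx : x ∈ e.source) (hx' : x ∈ e'.source) :
    M.hw φ e' (e' x) = (M.J e e' x)ᴴ * M.hw φ e (e x) * M.J e e' x :=
  ((mHES n M).2.2.2.1 a φ h).cmp e he e' he' x hx hx'

/-- Equality of the Hessian of a function and a tensor, from one chart. -/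
theorem eqAt_hs {u : M.X → ℝ} {T : M.Fam (Mat n)} (h : SmAt M u x) (hT : M.Ten T) (he : e ∈ M.C)
    (hx : x ∈ e.source) (q : M.hs u e (e x) = T e (e x)) : EqAt M (M.hs u) T x :=
  fun e' he' hx' => by
    beta_reduce
    rw [hs_cmp h he he' hx hx', hT.cmp e he e' he' x hx hx', q]

theorem rank_conj {A J : Mat n} (h : J.det ≠ 0) : (Jᴴ * A * J).rank = A.rank := by
  rw [Matrix.rank_mul_eq_left_of_isUnit_det _ _ h.isUnit,
    Matrix.rank_mul_eq_right_of_isUnit_det _ _
      (by rw [Matrix.det_conjTranspose]; exact (star_ne_zero.2 h).isUnit)]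

theorem rank_ev {T : M.Fam (Mat n)} (hT : M.Ten T) (he : e ∈ M.C) (hx : x ∈ e.source) :
    (M.ev T x).rank = (T e (e x)).rank := by
  rw [Mf.ev, hT.cmp e he _ (Mf.ch_mem x) x hx (Mf.mem_ch x),
    rank_conj (det_J he (Mf.ch_mem x) hx (Mf.mem_ch x))]

theorem ten_hw {a : ℝ} {φ : M.Fam ℝ} (h : M.Wt a φ) : M.Ten (M.hw φ) :=
  ((mHES n M).2.2.2.1 a φ h).toTen

theorem subm_of {r : ℕ} {H : M.X → E r} (h : HolAt M H x) (he : e ∈ M.C) (hx : x ∈ e.source)
    (s : Function.Surjective (fderiv ℂ (H ∘ e.symm) (e x))) : Subm M H x := fun e' he' hx' => by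
  have a : fderiv ℂ (H ∘ e.symm) (e x) =
      (fderiv ℂ (H ∘ e'.symm) (e' x)).comp (fderiv ℂ (e' ∘ e.symm) (e x)) := by
    rw [(comp_ev H hx' hx).fderiv_eq, fderiv_comp _ (by rw [tr_pt hx]; exact (h e' he' hx').self_of_nhds)
      (hol_tr he' he hx' hx).self_of_nhds, tr_pt hx]
  rw [a] at s
  exact Function.Surjective.of_comp s

end KA

end Pool.Agent.Lib.RA
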