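import Pool.Agent.Lib.RA.PDefs
import Pool.Agent.Lib.SV.Hol85

/-! Rules of the polarised calculus. -/

open scoped Classical Topology ContDiff ComplexOrder Matrix
open Set Complex Metric Filter

set_option linter.unusedVariables false
set_option linter.unusedSectionVars false

noncomputable section

namespace Pool.Agent.Lib.RA

open Pool.Agent.Lib.SV (E)
open Pool.Agent.Lib.SV
open Pool.Agent.Lib.HS32

/-- Holomorphic near a point, on any complex normed space. -/
abbrev Hn {V W : Type} [NormedAddCommGroup V] [NormedSpace ℂ V] [NormedAddCommGroup W]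
    [NormedSpace ℂ W] (f : V → W) (x : V) : Prop := ∀ᶠ y in 𝓝 x, DifferentiableAt ℂ f y

namespace PK

section gen

variable {V W : Type} [NormedAddCommGroup V] [NormedSpace ℂ V] [NormedAddCommGroup W]
  [NormedSpace ℂ W] {f g : V → W} {x : V} {O : Set V}

theorem hn_at (h : Hn f x) : DifferentiableAt ℂ f x := h.self_of_nhds

theorem hn_ev (h : Hn f x) : ∀ᶠ y in 𝓝 x, Hn f y := h.eventually_nhds

theorem hn_of_on (hO : IsOpen O) (h : DifferentiableOn ℂ f O) (hx : x ∈ O) : Hn f x := by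
  filter_upwards [hO.mem_nhds hx] with y hy using h.differentiableAt (hO.mem_nhds hy)

theorem on_of_hn (h : ∀ x ∈ O, Hn f x) : DifferentiableOn ℂ f O :=
  fun x hx => (hn_at (h x hx)).differentiableWithinAt

theorem hn_congr (h : Hn f x) (e : f =ᶠ[𝓝 x] g) : Hn g x := by
  filter_upwards [h, e.eventuallyEq_nhds] with y h1 h2 using h1.congr_of_eventuallyEq h2.symm

theorem hn_comp {U : Type} [NormedAddCommGroup U] [NormedSpace ℂ U] {k : U → V} {u : U}
    (h : Hn f (k u)) (hk : Hn k u) : Hn (fun y => f (k y)) u := by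
  filter_upwards [hk, (hn_at hk).continuousAt.eventually h] with y h1 h2 using h2.comp y h1

theorem hn_ball (h : Hn f x) (hO : O ∈ 𝓝 x) :
    ∃ ε > 0, ball x ε ⊆ O ∧ DifferentiableOn ℂ f (ball x ε) := by
  obtain ⟨ε, hε, hb⟩ := Metric.mem_nhds_iff.1 (inter_mem h hO)
  exact ⟨ε, hε, fun y hy => (hb hy).2, fun y hy => (hb hy).1.differentiableWithinAt⟩

variable [FiniteDimensional ℂ V] [CompleteSpace W]

theorem hn_cd (h : Hn f x) : ContDiffAt ℂ ∞ f x := by
  obtain ⟨ε, hε, -, hd⟩ := hn_ball h univ_mem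
  exact (H85.contDiffOn_top isOpen_ball hd).contDiffAt (ball_mem_nhds x hε)

theorem hn_fderiv (h : Hn f x) : Hn (fderiv ℂ f) x := by
  obtain ⟨ε, hε, -, hd⟩ := hn_ball h univ_mem
  exact hn_of_on isOpen_ball (H85.differentiableOn_fderiv isOpen_ball hd) (mem_ball_self hε)

theorem hn_fd (h : Hn f x) (v : V) : Hn (fun y => fderiv ℂ f y v) x := by
  filter_upwards [hn_fderiv h] with y hy using hy.clm_apply (differentiableAt_const v)

theorem fd_symm (h : Hn f x) (v w : V) :
    fderiv ℂ (fun y => fderiv ℂ f y v) x w = fderiv ℂ (fun y => fderiv ℂ f y w) x v := by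
  have hd := hn_at (hn_fderiv h)
  have e : ∀ v w, fderiv ℂ (fun y => fderiv ℂ f y v) x w = fderiv ℂ (fderiv ℂ f) x w v :=
    fun v w => by
      rw [fderiv_clm_apply hd (differentiableAt_const v)]
      simp
  rw [e, e]
  exact ((H85.contDiffAt_nat h 2).isSymmSndFDerivAt (by simp)).eq w v

end gen

variable {n : ℕ} {F F' : E n × E n → ℂ} {y : E n × E n} {z u c : E n} {R : ℝ}

@[simp] theorem dg_fst (z : E n) : (dg z).1 = z := rfl

@[simp] theorem dg_snd (z : E n) : (dg z).2 = star z := rfl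

@[simp] theorem sw_dg (z : E n) : sw (dg z) = dg z := by simp [sw, dg]

@[simp] theorem sw_sw (y : E n × E n) : sw (sw y) = y := by simp [sw]

theorem sw_mk (z u : E n) : sw (z, u) = (star u, star z) := rfl

theorem cj_cj (F : E n × E n → ℂ) : cj (cj F) = F := by
  funext y; simp [cj]

theorem cj_dg (F : E n × E n → ℂ) (z : E n) : cj F (dg z) = star (F (dg z)) := by simp [cj]

theorem star_mem_ball : star z ∈ ball (star c) R ↔ z ∈ ball c R := by
  rw [mem_ball, mem_ball, dist_eq_norm, dist_eq_norm, ← star_sub, norm_star]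

theorem star_mem_ball' : star u ∈ ball c R ↔ u ∈ ball (star c) R := by
  rw [← star_mem_ball, star_star]

theorem mem_ball_dg : y ∈ ball (dg c) R ↔ y.1 ∈ ball c R ∧ y.2 ∈ ball (star c) R := by
  rw [dg, ← ball_prod_same]; rfl

theorem mk_mem_ball : (z, u) ∈ ball (dg c) R ↔ z ∈ ball c R ∧ u ∈ ball (star c) R := mem_ball_dg

theorem dg_mem_ball : dg z ∈ ball (dg c) R ↔ z ∈ ball c R := by
  rw [mem_ball_dg, dg_fst, dg_snd, star_mem_ball, and_self]

theorem sw_mem_ball : sw y ∈ ball (dg c) R ↔ y ∈ ball (dg c) R := by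
  rw [mem_ball_dg, mem_ball_dg, and_comm]
  exact and_congr star_mem_ball star_mem_ball'

theorem cont_dg : Continuous (dg : E n → E n × E n) := continuous_id.prodMk continuous_star

theorem cont_sw : Continuous (sw : E n × E n → E n × E n) :=
  (continuous_star.comp continuous_snd).prodMk (continuous_star.comp continuous_fst)

theorem tendsto_dg (z : E n) : Tendsto dg (𝓝 z) (𝓝 (dg z)) := cont_dg.tendsto z

theorem tendsto_sw (y : E n × E n) : Tendsto sw (𝓝 y) (𝓝 (sw y)) := cont_sw.tendsto y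

theorem tendsto_sw_dg (z : E n) : Tendsto sw (𝓝 (dg z)) (𝓝 (dg z)) := by
  simpa using tendsto_sw (dg z)

theorem clm_apply (L : E n →L[ℂ] ℂ) (v : E n) : L v = (fun j => L (Pi.single j 1)) ⬝ᵥ v := by
  conv_lhs => rw [pi_eq_sum_univ' v]
  simp only [map_sum, map_smul, smul_eq_mul, dotProduct]
  exact Finset.sum_congr rfl fun j _ => mul_comm _ _

theorem fd_z (F : E n × E n → ℂ) (y : E n × E n) (v : E n) :
    fderiv ℂ F y (v, 0) = pz F y ⬝ᵥ v :=
  clm_apply ((fderiv ℂ F y).comp (ContinuousLinearMap.inl ℂ _ _)) v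

theorem fd_u (F : E n × E n → ℂ) (y : E n × E n) (w : E n) :
    fderiv ℂ F y (0, w) = pu F y ⬝ᵥ w :=
  clm_apply ((fderiv ℂ F y).comp (ContinuousLinearMap.inr ℂ _ _)) w

theorem fd_zu (F : E n × E n → ℂ) (y : E n × E n) (v w : E n) :
    fderiv ℂ F y (v, w) = pz F y ⬝ᵥ v + pu F y ⬝ᵥ w := by
  rw [← fd_z, ← fd_u, ← map_add]; simp

theorem hn_pz (h : Hn F y) (j : Fin n) : Hn (fun x => pz F x j) y := hn_fd h _

theorem hn_pu (h : Hn F y) (i : Fin n) : Hn (fun x => pu F x i) y := hn_fd h _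

theorem hn_Gm (h : Hn F y) (i j : Fin n) : Hn (fun x => Gm F x i j) y := hn_pu (hn_pz h j) i

theorem hn_pi {V : Type} [NormedAddCommGroup V] [NormedSpace ℂ V] {m : ℕ} {f : V → E m} {x : V} :
    Hn f x ↔ ∀ j, Hn (fun y => f y j) x := by
  simp only [Hn, differentiableAt_pi, eventually_all]

theorem hn_pzv (h : Hn F y) : Hn (pz F) y := hn_pi.2 (hn_pz h)

theorem hn_puv (h : Hn F y) : Hn (pu F) y := hn_pi.2 (hn_pu h)

/-- The mixed derivatives commute. -/
theorem pz_pu (h : Hn F y) (i j : Fin n) : pz (fun x => pu F x i) y j = Gm F y i j :=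
  fd_symm h _ _

theorem pu_pz (F : E n × E n → ℂ) (y : E n × E n) (i j : Fin n) :
    pu (fun x => pz F x j) y i = Gm F y i j := rfl

theorem pz_congr (e : F =ᶠ[𝓝 y] F') : pz F y = pz F' y := by
  funext j; simp only [pz, e.fderiv_eq]

theorem pu_congr (e : F =ᶠ[𝓝 y] F') : pu F y = pu F' y := by
  funext j; simp only [pu, e.fderiv_eq]

theorem pz_congr_ev (e : F =ᶠ[𝓝 y] F') : pz F =ᶠ[𝓝 y] pz F' :=
  e.eventuallyEq_nhds.mono fun _ h => pz_congr h

theorem pu_congr_ev (e : F =ᶠ[𝓝 y] F') : pu F =ᶠ[𝓝 y] pu F' :=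
  e.eventuallyEq_nhds.mono fun _ h => pu_congr h

theorem Gm_congr (e : F =ᶠ[𝓝 y] F') : Gm F y = Gm F' y := by
  ext i j
  exact congrFun (pu_congr ((pz_congr_ev e).mono fun x hx => congrFun hx j)) i

theorem hasF_z (h : DifferentiableAt ℂ F (z, u)) :
    HasFDerivAt (fun z => F (z, u)) ((fderiv ℂ F (z, u)).comp (ContinuousLinearMap.inl ℂ _ _)) z :=
  h.hasFDerivAt.comp z (hasFDerivAt_prodMk_left z u)

theorem hasF_u (h : DifferentiableAt ℂ F (z, u)) :
    HasFDerivAt (fun u => F (z, u)) ((fderiv ℂ F (z, u)).comp (ContinuousLinearMap.inr ℂ _ _)) u :=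
  h.hasFDerivAt.comp u (hasFDerivAt_prodMk_right z u)

/-- Derivative of a slice in `z`. -/
theorem slice_z (h : DifferentiableAt ℂ F (z, u)) (v : E n) :
    fderiv ℂ (fun z => F (z, u)) z v = pz F (z, u) ⬝ᵥ v := by
  rw [(hasF_z h).fderiv, ← fd_z]; rfl

/-- Derivative of a slice in `u`. -/
theorem slice_u (h : DifferentiableAt ℂ F (z, u)) (w : E n) :
    fderiv ℂ (fun u => F (z, u)) u w = pu F (z, u) ⬝ᵥ w := by
  rw [(hasF_u h).fderiv, ← fd_u]; rfl

theorem pz_slice (h : DifferentiableAt ℂ F (z, u)) (j : Fin n) :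
    pz F (z, u) j = fderiv ℂ (fun z => F (z, u)) z (Pi.single j 1) := by
  rw [slice_z h]; simp

theorem pu_slice (h : DifferentiableAt ℂ F (z, u)) (i : Fin n) :
    pu F (z, u) i = fderiv ℂ (fun u => F (z, u)) u (Pi.single i 1) := by
  rw [slice_u h]; simp

/-- The conjugation of `E n` as a real linear map. -/
def stL (n : ℕ) : E n →L[ℝ] E n := (starL' ℝ : E n ≃L[ℝ] E n)

@[simp] theorem stL_apply (z : E n) : stL n z = star z := rfl

/-- The diagonal embedding as a real linear map. -/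
def dgL (n : ℕ) : E n →L[ℝ] E n × E n := (ContinuousLinearMap.id ℝ _).prod (stL n)

@[simp] theorem dgL_apply (z : E n) : dgL n z = dg z := rfl

theorem cd_dg (h : Hn F (dg z)) : ContDiffAt ℝ ∞ (fun w => F (dg w)) z :=
  ((hn_cd h).restrict_scalars ℝ).comp z (dgL n).contDiff.contDiffAt

theorem fd_dg (h : DifferentiableAt ℂ F (dg z)) (v : E n) :
    fderiv ℝ (fun w => F (dg w)) z v = pz F (dg z) ⬝ᵥ v + pu F (dg z) ⬝ᵥ star v := by
  have := ((h.hasFDerivAt.restrictScalars ℝ).comp z (dgL n).hasFDerivAt).fderiv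
  rw [show (fun w => F (dg w)) = F ∘ dg from rfl, this, ← fd_zu]
  rfl

theorem star_single (j : Fin n) (a : ℂ) : star (Pi.single j a : E n) = Pi.single j (star a) := by
  funext i
  by_cases h : i = j
  · subst h; simp
  · simp [h]

theorem dz_dg (h : DifferentiableAt ℂ F (dg z)) (j : Fin n) :
    dz j (fun w => F (dg w)) z = pz F (dg z) j := by
  simp only [dz, fd_dg h, star_single, dotProduct_single, star_one, mul_one, star_def, conj_I]
  linear_combination (pu F (dg z) j - pz F (dg z) j) / 2 * I_mul_I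

theorem dzb_dg (h : DifferentiableAt ℂ F (dg z)) (i : Fin n) :
    dzb i (fun w => F (dg w)) z = pu F (dg z) i := by
  simp only [dzb, fd_dg h, star_single, dotProduct_single, star_one, mul_one, star_def, conj_I]
  linear_combination (pz F (dg z) i - pu F (dg z) i) / 2 * I_mul_I

theorem hess_dg (h : Hn F (dg z)) : hess (fun w => F (dg w)) z = Gm F (dg z) := by
  ext i j
  have e : dz j (fun w => F (dg w)) =ᶠ[𝓝 z] fun w => pz F (dg w) j :=
    ((tendsto_dg z).eventually h).mono fun w hw => dz_dg hw j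
  rw [hess, Matrix.of_apply, dzb_congr e]
  exact dzb_dg (F := fun x => pz F x j) (hn_at (hn_pz h j)) i

/-- Conjugating source and target keeps complex differentiability. -/
theorem hasF_cj (h : DifferentiableAt ℂ F (sw y)) :
    ∃ L : E n × E n →L[ℂ] ℂ, HasFDerivAt (cj F) L y ∧
      ∀ v, L v = star (fderiv ℂ F (sw y) (sw v)) := by
  let S : E n × E n →L[ℝ] E n × E n :=
    ((stL n).comp (ContinuousLinearMap.snd ℝ _ _)).prod
      ((stL n).comp (ContinuousLinearMap.fst ℝ _ _))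
  have h1 := (conjCLE : ℂ →L[ℝ] ℂ).hasFDerivAt.comp y
    ((h.hasFDerivAt.restrictScalars ℝ).comp y (S.hasFDerivAt (x := y)))
  let L0 : E n × E n →ₗ[ℂ] ℂ :=
    { toFun := fun v => star (fderiv ℂ F (sw y) (sw v))
      map_add' := fun a b => by
        rw [← star_add, ← map_add]
        simp [sw]
      map_smul' := fun a b => by
        have : sw (a • b) = star a • sw b := by simp [sw]
        rw [this, map_smul]
        simp }
  refine ⟨LinearMap.toContinuousLinearMap L0, ?_, fun v => rfl⟩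
  exact hasFDerivAt_of_restrictScalars ℝ h1 (by ext v <;> rfl)

theorem diff_cj (h : DifferentiableAt ℂ F (sw y)) : DifferentiableAt ℂ (cj F) y :=
  (hasF_cj h).choose_spec.1.differentiableAt

theorem hn_cj (h : Hn F (sw y)) : Hn (cj F) y :=
  ((tendsto_sw y).eventually h).mono fun _ hx => diff_cj hx

theorem on_cj (h : DifferentiableOn ℂ F (ball (dg c) R)) :
    DifferentiableOn ℂ (cj F) (ball (dg c) R) :=
  on_of_hn fun _ hx => hn_cj (hn_of_on isOpen_ball h (sw_mem_ball.2 hx))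

theorem pz_cj (h : DifferentiableAt ℂ F (sw y)) : pz (cj F) y = star (pu F (sw y)) := by
  obtain ⟨L, hL, e⟩ := hasF_cj h
  funext j
  rw [pz, hL.fderiv, e, sw_mk (Pi.single j 1), star_single, star_zero, star_one]
  rfl

theorem pu_cj (h : DifferentiableAt ℂ F (sw y)) : pu (cj F) y = star (pz F (sw y)) := by
  obtain ⟨L, hL, e⟩ := hasF_cj h
  funext j
  rw [pu, hL.fderiv, e, sw_mk 0, star_single, star_zero, star_one]
  rfl

theorem Gm_cj (h : Hn F (sw y)) : Gm (cj F) y = (Gm F (sw y))ᴴ := by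
  ext i j
  have e : (fun x => pz (cj F) x j) =ᶠ[𝓝 y] cj fun x => pu F x j :=
    ((tendsto_sw y).eventually h).mono fun x hx => congrFun (pz_cj hx) j
  rw [← pu_pz, pu_congr e, pu_cj (hn_at (hn_pu h j)), Pi.star_apply, pz_pu h]
  rfl

/-- Conjugate of a vector valued map of one block of variables. -/
theorem diff_star_star {m : ℕ} {V : E n → E m} (h : DifferentiableAt ℂ V (star u)) :
    DifferentiableAt ℂ (fun u => star (V (star u))) u := by
  refine differentiableAt_pi.2 fun j => ?_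
  have h1 : DifferentiableAt ℂ (fun x : E n × E n => V x.1 j) (sw (u, u)) :=
    DifferentiableAt.comp (g := fun z => V z j) (f := Prod.fst) (sw (u, u))
      (differentiableAt_pi.1 h j) differentiableAt_fst
  exact (hasF_u (diff_cj h1)).differentiableAt

theorem hn_star_star {m : ℕ} {V : E n → E m} (h : Hn V (star u)) :
    Hn (fun u => star (V (star u))) u :=
  ((continuous_star.tendsto u).eventually h).mono fun _ hx => diff_star_star hx

/-- A holomorphic germ that vanishes on the diagonal vanishes. -/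
theorem id2_loc (h : Hn F (dg z)) (h0 : ∀ᶠ w in 𝓝 z, F (dg w) = 0) : F =ᶠ[𝓝 (dg z)] 0 := by
  obtain ⟨ε, hε, hb⟩ := Metric.mem_nhds_iff.1 h0
  obtain ⟨ρ, hρ, hρ', hd⟩ := hn_ball h (ball_mem_nhds (dg z) hε)
  have hρε : ∀ w ∈ ball z ρ, F (dg w) = 0 := fun w hw =>
    hb (dg_mem_ball.1 (hρ' (dg_mem_ball.2 hw)))
  filter_upwards [ball_mem_nhds (dg z) hρ] with x hx
  set a : E n := (2 : ℂ)⁻¹ • (x.1 + star x.2) with ha
  set b : E n := (2 * I)⁻¹ • (x.1 - star x.2) with hb'
  set L : ℂ → E n × E n := fun t => dg a + t • dg b with hL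
  have hI : (2 * I : ℂ) ≠ 0 := by simp
  have hL1 : L I = x := by
    refine Prod.ext (funext fun j => ?_) (funext fun j => ?_)
    · simp [hL, ha, hb']
      field_simp
      rw [I_sq]
      ring
    · simp [hL, ha, hb']
      field_simp
      rw [I_sq]
      ring
  have hL2 : L (-I) = sw x := by
    refine Prod.ext (funext fun j => ?_) (funext fun j => ?_)
    · simp [hL, ha, hb', sw]
      field_simp
      rw [I_sq]
      ring
    · simp [hL, ha, hb', sw]
      field_simp
      rw [I_sq]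
      ring
  have hLd : Differentiable ℂ L := by fun_prop
  have hU : IsOpen (L ⁻¹' ball (dg z) ρ) := isOpen_ball.preimage hLd.continuous
  have hc : Convex ℝ (L ⁻¹' ball (dg z) ρ) := by
    intro s hs t ht p q hp hq hpq
    have := convex_ball (dg z) ρ hs ht hp hq hpq
    convert this using 1
    have e : L (p • s + q • t) = p • L s + q • L t := by
      simp only [hL, smul_add, add_smul, smul_assoc]
      rw [add_add_add_comm, ← add_smul, hpq, one_smul]
    rw [mem_preimage, e]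
  have hI1 : I ∈ L ⁻¹' ball (dg z) ρ := by rw [mem_preimage, hL1]; exact hx
  have hI2 : -I ∈ L ⁻¹' ball (dg z) ρ := by rw [mem_preimage, hL2]; exact sw_mem_ball.2 hx
  have h00 : (0 : ℂ) ∈ L ⁻¹' ball (dg z) ρ := by
    have := hc hI1 hI2 (by norm_num : (0 : ℝ) ≤ 1 / 2) (by norm_num : (0 : ℝ) ≤ 1 / 2) (by norm_num)
    simpa using this
  have han : AnalyticOnNhd ℂ (fun t => F (L t)) (L ⁻¹' ball (dg z) ρ) :=
    (hd.comp hLd.differentiableOn fun t ht => ht).analyticOnNhd hU
  have hfr : ∃ᶠ t in 𝓝[≠] (0 : ℂ), F (L t) = 0 := by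
    have t1 : Tendsto (fun s : ℝ => (s : ℂ)) (𝓝[≠] 0) (𝓝[≠] 0) := by
      refine tendsto_nhdsWithin_iff.2 ⟨?_, ?_⟩
      · exact (by simpa using continuous_ofReal.tendsto 0 :
          Tendsto (fun s : ℝ => (s : ℂ)) (𝓝 0) (𝓝 0)).mono_left nhdsWithin_le_nhds
      · filter_upwards [self_mem_nhdsWithin] with s hs using by simpa using hs
    refine t1.frequently (Eventually.frequently ?_)
    filter_upwards [(t1.mono_right nhdsWithin_le_nhds).eventually (hU.mem_nhds h00)] with s hs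
    have e : L s = dg (a + (s : ℂ) • b) := by simp [hL, dg]
    rw [e] at hs ⊢
    exact hρε _ (dg_mem_ball.1 hs)
  have := han.eqOn_zero_of_preconnected_of_frequently_eq_zero hc.isPreconnected h00 hfr hI1
  simpa [hL1] using this

theorem id2_eq (h : Hn F (dg z)) (h' : Hn F' (dg z)) (h0 : ∀ᶠ w in 𝓝 z, F (dg w) = F' (dg w)) :
    F =ᶠ[𝓝 (dg z)] F' := by
  have := id2_loc (F := fun x => F x - F' x) ((h.and h').mono fun x hx => hx.1.sub hx.2)
    (h0.mono fun w hw => sub_eq_zero.2 hw)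
  exact this.mono fun x hx => sub_eq_zero.1 hx

/-- Identity theorem on a convex open set. -/
theorem eqOn_convex {V W : Type} [NormedAddCommGroup V] [NormedSpace ℂ V] [NormedAddCommGroup W]
    [NormedSpace ℂ W] [CompleteSpace W] {f g : V → W} {O : Set V} {x : V} (hO : IsOpen O)
    (hc : Convex ℝ O) (hf : DifferentiableOn ℂ f O) (hg : DifferentiableOn ℂ g O) (hx : x ∈ O)
    (e : f =ᶠ[𝓝 x] g) : EqOn f g O := fun y hy =>
  sub_eq_zero.1 (H85.eq_zero_of_convex hO hc (hf.sub hg) hx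
    (e.mono fun _ h => sub_eq_zero.2 h) hy)

theorem id2_ball (h : DifferentiableOn ℂ F (ball (dg c) R))
    (h' : DifferentiableOn ℂ F' (ball (dg c) R)) (hz : z ∈ ball c R)
    (h0 : ∀ᶠ w in 𝓝 z, F (dg w) = F' (dg w)) : EqOn F F' (ball (dg c) R) :=
  eqOn_convex isOpen_ball (convex_ball _ _) h h' (dg_mem_ball.2 hz)
    (id2_eq (hn_of_on isOpen_ball h (dg_mem_ball.2 hz))
      (hn_of_on isOpen_ball h' (dg_mem_ball.2 hz)) h0)

/-- Real on the diagonal means invariant under the conjugate transpose. -/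
theorem cj_eq_loc (h : Hn F (dg z)) (h0 : ∀ᶠ w in 𝓝 z, (F (dg w)).im = 0) :
    cj F =ᶠ[𝓝 (dg z)] F :=
  id2_eq (hn_cj (by simpa using h)) h (h0.mono fun w hw => by
    rw [cj_dg]; exact conj_eq_iff_im.2 hw)

theorem cj_eq_ball (h : DifferentiableOn ℂ F (ball (dg c) R)) (hz : z ∈ ball c R)
    (h0 : ∀ᶠ w in 𝓝 z, (F (dg w)).im = 0) : EqOn (cj F) F (ball (dg c) R) :=
  id2_ball (on_cj h) h hz (h0.mono fun w hw => by rw [cj_dg]; exact conj_eq_iff_im.2 hw)

theorem im_dg_of_cj (h : cj F (dg z) = F (dg z)) : (F (dg z)).im = 0 := by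
  rw [cj_dg] at h; exact conj_eq_iff_im.1 h

theorem Gm_sw (h : Hn F (sw y)) (e : cj F =ᶠ[𝓝 y] F) : Gm F y = (Gm F (sw y))ᴴ := by
  rw [← Gm_cj h, Gm_congr e]

theorem pz_sw (h : DifferentiableAt ℂ F (sw y)) (e : cj F =ᶠ[𝓝 y] F) :
    pz F y = star (pu F (sw y)) := by rw [← pz_cj h, pz_congr e]

theorem pu_sw (h : DifferentiableAt ℂ F (sw y)) (e : cj F =ᶠ[𝓝 y] F) :
    pu F y = star (pz F (sw y)) := by rw [← pu_cj h, pu_congr e]

end PK

end Pool.Agent.Lib.RA
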