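import Pool.Agent.Lib.RA.Blue0
import Pool.Agent.Lib.RA.T_PK
import Pool.Agent.Lib.RA.T_AN

/-! Project ra1, row PZ: calculus of polarisations. -/

open scoped Classical Topology ContDiff ComplexOrder Matrix
open Set MeasureTheory Complex Metric Filter

set_option linter.unusedVariables false

noncomputable section

namespace Pool.Agent.Lib.RA

open Pool.Agent.Lib.SV (E nsq)
open Pool.Agent.Lib.HS32 Pool.Agent.Lib.PN

namespace PZ38

/-- The rank is at most `r` exactly when all generalised minors of size `r + 1` vanish. -/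
theorem rank_le_iff {n r : ℕ} (A : Mat n) :
    A.rank ≤ r ↔ ∀ (P : Matrix (Fin (r + 1)) (Fin n) ℂ) (Q : Matrix (Fin n) (Fin (r + 1)) ℂ),
      (P * A * Q).det = 0 := by
  constructor
  · intro h P Q
    by_contra h0
    have h1 := Matrix.rank_of_isUnit _ ((Matrix.isUnit_iff_isUnit_det _).2 (isUnit_iff_ne_zero.2 h0))
    have h2 : (P * A * Q).rank ≤ A.rank :=
      (Matrix.rank_mul_le_left _ _).trans (Matrix.rank_mul_le_right _ _)
    rw [Fintype.card_fin] at h1
    omega
  · intro h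
    by_contra hr
    have hr' : r + 1 ≤ A.rank := by omega
    obtain ⟨V, U, e, -, -, hE⟩ := Matrix.exists_rank_normal_form A
    let f : Fin (r + 1) → Fin n := fun i => e.symm (Sum.inl (Fin.castLE hr' i))
    have h1 := h (V.submatrix f id) (U.submatrix id f)
    have h2 : V.submatrix f id * A * U.submatrix id f = (V * A * U).submatrix f f := by
      ext i l
      simp [Matrix.mul_apply]
    have h3 : (V * A * U).submatrix f f = 1 := by
      rw [hE]
      ext i l
      simp [f, Matrix.one_apply, Fin.castLE_inj]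
    rw [h2, h3, Matrix.det_one] at h1
    exact one_ne_zero h1

theorem diffOn_det {V : Type} [NormedAddCommGroup V] [NormedSpace ℂ V] {m : ℕ} {A : V → Mat m}
    {O : Set V} (h : ∀ i l, DifferentiableOn ℂ (fun w => A w i l) O) :
    DifferentiableOn ℂ (fun w => (A w).det) O := by
  simp only [Matrix.det_apply']
  refine DifferentiableOn.fun_sum fun σ _ => (differentiableOn_const _).mul ?_
  have : ∀ s : Finset (Fin m), DifferentiableOn ℂ (fun w => ∏ i ∈ s, A w (σ i) i) O := by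
    intro s
    induction s using Finset.induction_on with
    | empty => simp
    | insert a s ha ih => simp only [Finset.prod_insert ha]; exact (h _ _).mul ih
  exact this _

variable {n : ℕ} {Φ : E n × E n → ℂ} {c : E n} {R : ℝ}

theorem an_dg {z : E n} (h : Hn Φ (dg z)) : AnalyticAt ℝ (Φ ∘ dg) z :=
  ((ANB.analyticAt h).restrictScalars (𝕜 := ℝ)).comp ((PK.dgL n).analyticAt z)

theorem fd_pu {w : E n × E n} (h : Hn Φ w) (v : E n) :
    fderiv ℂ (pu Φ) w (v, 0) = Gm Φ w *ᵥ v := by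
  funext i
  have e := fderiv_pi (𝕜 := ℂ) (φ := fun i x => pu Φ x i) (x := w)
    fun i => PK.hn_at (PK.hn_pu h i)
  have e2 : fderiv ℂ (pu Φ) w (v, 0) i = fderiv ℂ (fun x => pu Φ x i) w (v, 0) := by
    rw [show pu Φ = fun x i => pu Φ x i from rfl, e]; rfl
  rw [e2, PK.fd_z]
  exact Finset.sum_congr rfl fun l _ => by rw [PK.pz_pu h]

theorem fd_pz {w : E n × E n} (h : Hn Φ w) (v : E n) :
    fderiv ℂ (pz Φ) w (0, v) = v ᵥ* Gm Φ w := by
  funext l
  have e := fderiv_pi (𝕜 := ℂ) (φ := fun i x => pz Φ x i) (x := w)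
    fun i => PK.hn_at (PK.hn_pz h i)
  have e2 : fderiv ℂ (pz Φ) w (0, v) l = fderiv ℂ (fun x => pz Φ x l) w (0, v) := by
    rw [show pz Φ = fun x i => pz Φ x i from rfl, e]; rfl
  rw [e2, PK.fd_u]
  exact Finset.sum_congr rfl fun i _ => mul_comm _ _

theorem rank_prop (h : DifferentiableOn ℂ Φ (ball (dg c) R)) {r : ℕ} {z : E n}
    (hz : z ∈ ball c R) (h0 : ∀ᶠ z' in 𝓝 z, (Gm Φ (dg z')).rank ≤ r) {w : E n × E n}
    (hw : w ∈ ball (dg c) R) : (Gm Φ w).rank ≤ r := by
  refine (rank_le_iff _).2 fun P Q => ?_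
  have hG : ∀ i l, DifferentiableOn ℂ (fun w => Gm Φ w i l) (ball (dg c) R) := fun i l =>
    PK.on_of_hn fun x hx => PK.hn_Gm (PK.hn_of_on isOpen_ball h hx) i l
  have hd : DifferentiableOn ℂ (fun w => (P * Gm Φ w * Q).det) (ball (dg c) R) := by
    refine diffOn_det fun i l => ?_
    simp only [Matrix.mul_apply]
    exact DifferentiableOn.fun_sum fun a _ =>
      (DifferentiableOn.fun_sum fun b _ => (hG b a).const_mul _).mul_const _
  exact PK.id2_ball (F' := fun _ => 0) hd (differentiableOn_const _) hz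
    (h0.mono fun z' hz' => (rank_le_iff _).1 hz' P Q) hw

end PZ38

open PZ38 in
theorem st_PZ : St_PZ := by
  intro n Φ c R h
  have hn : ∀ w ∈ ball (dg c) R, Hn Φ w := fun w hw => PK.hn_of_on isOpen_ball h hw
  have hd : ∀ z ∈ ball c R, Hn Φ (dg z) := fun z hz => hn _ (PK.dg_mem_ball.2 hz)
  refine ⟨⟨PK.on_of_hn fun w hw => PK.hn_pzv (hn w hw), PK.on_of_hn fun w hw => PK.hn_puv (hn w hw),
    fun i l => PK.on_of_hn fun w hw => PK.hn_Gm (hn w hw) i l, fun w hw v v' =>
      ⟨PK.fd_zu _ _ _ _, fd_pu (hn w hw) v, fd_pz (hn w hw) v, fun i l =>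
        ⟨PK.fd_symm (hn w hw) _ _, PK.fd_symm (hn w hw) _ _⟩⟩, fun z hz =>
      ⟨an_dg (hd z hz), PK.hess_dg (hd z hz), fun i =>
        ⟨PK.dz_dg (PK.hn_at (hd z hz)) i, PK.dzb_dg (PK.hn_at (hd z hz)) i⟩⟩⟩,
    fun f hf z hz => ?_, fun hi => ⟨⟨h, fun z hz => ?_⟩, fun w hw => ?_⟩,
    fun r z hz h0 w hw => rank_prop h hz h0 hw⟩
  · have e : (fun w => (f w : ℂ)) =ᶠ[𝓝 z] fun w => Φ (dg w) := by
      filter_upwards [isOpen_ball.mem_nhds hz] with w hw using (hf.eq w hw).symm
    have e1 : ∀ i, dz i (fun w => (f w : ℂ)) =ᶠ[𝓝 z] dz i fun w => Φ (dg w) := fun i =>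
      e.eventuallyEq_nhds.mono fun w hw => by simp only [dz, hw.fderiv_eq]
    refine ⟨?_, ?_, ?_, ?_⟩
    · have : AnalyticAt ℝ (fun w => reCLM ((Φ ∘ dg) w)) z :=
        (reCLM.analyticAt _).comp (an_dg (hd z hz))
      refine this.congr (e.mono fun w hw => ?_)
      show (Φ (dg w)).re = f w
      rw [← show (f w : ℂ) = Φ (dg w) from hw, ofReal_re]
    · rw [← PK.hess_dg (hd z hz)]
      ext i l
      simp only [hr, hess, Matrix.of_apply, dzb, (e1 l).fderiv_eq]
    · funext i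
      rw [← PK.dz_dg (PK.hn_at (hd z hz)) i]
      exact (e1 i).self_of_nhds
    · funext i
      rw [← PK.dzb_dg (PK.hn_at (hd z hz)) i]
      simp only [dbv, dzb, e.fderiv_eq]
  · exact Complex.ext rfl (by rw [hi z hz, ofReal_im])
  · have hc : c ∈ ball c R := mem_ball_self (pos_of_mem_ball hw)
    have hE : EqOn (cj Φ) Φ (ball (dg c) R) := PK.cj_eq_ball h hc (by
      filter_upwards [isOpen_ball.mem_nhds hc] with z hz using hi z hz)
    have hs : sw w ∈ ball (dg c) R := PK.sw_mem_ball.2 hw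
    have hev : cj Φ =ᶠ[𝓝 (sw w)] Φ := hE.eventuallyEq_of_mem (isOpen_ball.mem_nhds hs)
    have hw' : Hn Φ (sw (sw w)) := by rw [PK.sw_sw]; exact hn w hw
    refine ⟨?_, ?_, ?_⟩
    · show Φ (sw w) = _
      rw [← hE hs, cj, PK.sw_sw]
    · show pz Φ (sw w) = _
      rw [PK.pz_sw (PK.hn_at hw') hev, PK.sw_sw]
    · show Gm Φ (sw w) = _
      rw [PK.Gm_sw hw' hev, PK.sw_sw]

end Pool.Agent.Lib.RA
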