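import Pool.Agent.Lib.RA.Blue0
import Pool.Agent.Lib.HS32.MAll

/-! Project ra1: the formula of Green on an open set and on branches. -/

open scoped Classical Topology ContDiff ComplexOrder Matrix
open Set MeasureTheory Complex Metric Filter

set_option linter.unusedVariables false

noncomputable section

namespace Pool.Agent.Lib.RA

open Pool.Agent.Lib.SV (E nsq)
open Pool.Agent.Lib.HS32 Pool.Agent.Lib.HS32.Mf

namespace G55

variable {n : ℕ}

/-- The field whose divergence is the integrand. -/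
def fl (A : E n → Mat n) (u w : E n → ℂ) (z : E n) : E n := w z • (A z *ᵥ fun i => dzb i u z)

theorem fl_apply (A : E n → Mat n) (u w : E n → ℂ) (z : E n) (j : Fin n) :
    fl A u w z j = w z * ∑ i, A z j i * dzb i u z := rfl

theorem fl_sm {A : E n → Mat n} {u w : E n → ℂ} {z : E n} (hA : SmM A z)
    (hu : ContDiffAt ℝ ∞ u z) (hw : ContDiffAt ℝ ∞ w z) : ContDiffAt ℝ ∞ (fl A u w) z := by
  refine contDiffAt_pi.2 fun j => ?_
  simp only [fl_apply]
  exact hw.mul (ContDiffAt.sum fun i _ => (hA j i).mul (cd_dzb hu i))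

theorem fl_dv {A : E n → Mat n} {u w : E n → ℂ} {z : E n} (hA : SmM A z)
    (h0 : ∀ a, ∑ l, dM l A z l a = 0) (hu : ContDiffAt ℝ ∞ u z) (hw : ContDiffAt ℝ ∞ w z) :
    dv (fl A u w) z = (A z * (dd u w z + w z • hess u z)).trace := by
  have h1 : ∀ j, dz j (fun y => fl A u w y j) z =
      ∑ i, A z j i * (dzb i u z * dz j w z + w z * dzb i (dz j u) z) +
        w z * ∑ i, dM j A z j i * dzb i u z := by
    intro j
    simp only [fl_apply]
    rw [dz_mul (cd_diff hw) (cd_diff (ContDiffAt.sum fun i _ => (hA j i).mul (cd_dzb hu i))),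
      dz_sum fun i _ => cd_diff ((hA j i).mul (cd_dzb hu i))]
    simp only [Finset.mul_sum]
    rw [← Finset.sum_add_distrib, ← Finset.sum_add_distrib]
    refine Finset.sum_congr rfl fun i _ => ?_
    rw [dz_mul (cd_diff (hA j i)) (cd_diff (cd_dzb hu i)), dz_dzb hu]
    have : dM j A z j i = dz j (fun y => A y j i) z := rfl
    rw [this]; ring
  unfold dv
  simp only [h1]
  rw [Finset.sum_add_distrib, ← Finset.mul_sum, Finset.sum_comm (f := fun j i =>
    dM j A z j i * dzb i u z)]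
  simp only [← Finset.sum_mul, h0, zero_mul, Finset.sum_const_zero, mul_zero, add_zero]
  simp only [Matrix.trace, Matrix.diag_apply, Matrix.mul_apply, Matrix.add_apply,
    Matrix.smul_apply, dd, hess, Matrix.of_apply, smul_eq_mul]

theorem dd_zero_right {u w : E n → ℂ} {z : E n} (h : w =ᶠ[𝓝 z] fun _ => 0) : dd u w z = 0 := by
  ext i j
  simp only [dd, Matrix.of_apply, dz_congr h, dz_const, mul_zero, Matrix.zero_apply]

theorem dd_zero_left {u w : E n → ℂ} {z : E n} (h : w =ᶠ[𝓝 z] fun _ => 0) : dd w u z = 0 := by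
  ext i j
  simp only [dd, Matrix.of_apply, dzb_congr h, dzb_const, zero_mul, Matrix.zero_apply]

theorem hess_zero {w : E n → ℂ} {z : E n} (h : w =ᶠ[𝓝 z] fun _ => 0) : hess w z = 0 := by
  rw [hess_congr h]; exact BLAP.hess_const 0

variable {M : Mf n}

theorem ev_ch {F : Type} {f g : M.X → F} {x : M.X} {e : M.Ch} (hx : x ∈ e.source)
    (h : f =ᶠ[𝓝 x] g) : f ∘ e.symm =ᶠ[𝓝 (e x)] g ∘ e.symm := by
  have := e.continuousAt_symm (e.map_source hx)
  unfold ContinuousAt at this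
  rw [e.left_inv hx] at this
  exact this.eventually h

theorem smAt_cont {F : Type} [NormedAddCommGroup F] [NormedSpace ℝ F] {f : M.X → F} {x : M.X}
    (h : SmAt M f x) : ContinuousAt f x := by
  obtain ⟨e, he, hx⟩ := M.cov x
  have a := ((h e he hx).continuousAt).comp (e.continuousAt hx)
  refine a.congr ?_
  filter_upwards [e.open_source.mem_nhds hx] with y hy
  simp [e.left_inv hy]

theorem off {F : Type} [Zero F] {w : M.X → F} {O : Set M.X} (h : tsupport w ⊆ O) {x : M.X}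
    (hx : x ∉ O) : w =ᶠ[𝓝 x] fun _ => 0 :=
  notMem_tsupport_iff_eventuallyEq.1 fun h' => hx (h h')

theorem vden {O : Set M.X} {A : M.Fam (Mat n)} (hA : DenOn M O A) {u w : M.X → ℂ}
    (h : ∀ x ∈ O, SmAt M u x ∧ SmAt M w x) (hs : tsupport w ⊆ O) :
    M.VDen fun e => fl (A e) (u ∘ e.symm) (w ∘ e.symm) := by
  refine ⟨allOn_of_source fun e he x hx => ?_, fun e he e' he' x hx hx' => ?_⟩
  · by_cases hO : x ∈ O
    · exact fl_sm (hA.sm x hO e he hx) ((h x hO).1 e he hx) ((h x hO).2 e he hx)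
    · refine (contDiffAt_const (c := (0 : E n))).congr_of_eventuallyEq ?_
      filter_upwards [ev_ch hx (off hs hO)] with z hz
      simp only [fl, hz, Function.comp_apply, zero_smul]
  · by_cases hO : x ∈ O
    · obtain ⟨hH, -, -, hev, -⟩ := (mTR n M).2.1 e he e' he' x hx hx'
      have hψ : (e ∘ e'.symm) (e' x) = e x := by simp [e'.left_inv hx']
      have hch := (mCHN n _ _ hH).2.2.2.2.2.2.2.2.2.1 (u ∘ e.symm)
        (by rw [hψ]; exact cd_diff ((h x hO).1 e he hx))
      have heq : (u ∘ e'.symm) =ᶠ[𝓝 (e' x)] (u ∘ e.symm) ∘ (e ∘ e'.symm) := by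
        filter_upwards [hev] with y hy
        simp only [Function.comp_apply, hy.2.2.2.2.1]
      have hb : (fun i => dzb i (u ∘ e'.symm) (e' x)) =
          (M.J e e' x)ᴴ *ᵥ fun a => dzb a (u ∘ e.symm) (e x) := by
        funext i
        rw [dzb_congr heq, (hch i).2, hψ]
        simp only [Matrix.mulVec, dotProduct, Matrix.conjTranspose_apply, Mf.J]
        exact Finset.sum_congr rfl fun a _ => mul_comm _ _
      simp only [fl]
      rw [hb, Matrix.mulVec_smul, Matrix.mulVec_mulVec, Matrix.mulVec_mulVec,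
        hA.cmp e he e' he' x hx hx' hO, Matrix.smul_mulVec, smul_comm]
      simp only [Function.comp_apply, e.left_inv hx, e'.left_inv hx']
    · have h0 : w x = 0 := (off hs hO).self_of_nhds
      simp only [fl, Function.comp_apply, e.left_inv hx, e'.left_inv hx', h0, zero_smul,
        Matrix.mulVec_zero, smul_zero]

theorem key {O : Set M.X} {A : M.Fam (Mat n)} (hA : DenOn M O A) {u w : M.X → ℂ}
    (h : ∀ x ∈ O, SmAt M u x ∧ SmAt M w x) (hs : tsupport w ⊆ O) {e : M.Ch} (he : e ∈ M.C)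
    {x : M.X} (hx : x ∈ e.source) :
    dv (fl (A e) (u ∘ e.symm) (w ∘ e.symm)) (e x) = (A e (e x) * (dd (u ∘ e.symm) (w ∘ e.symm) (e x) +
      w (e.symm (e x)) • hess (u ∘ e.symm) (e x))).trace := by
  by_cases hO : x ∈ O
  · exact fl_dv (hA.sm x hO e he hx) (hA.div x hO e he hx) ((h x hO).1 e he hx)
      ((h x hO).2 e he hx)
  · have h1 := ev_ch hx (off hs hO)
    have h2 : fl (A e) (u ∘ e.symm) (w ∘ e.symm) =ᶠ[𝓝 (e x)] fun _ => 0 := by
      filter_upwards [h1] with z hz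
      simp only [fl, hz, Function.comp_apply, zero_smul]
    have h3 : w (e.symm (e x)) = 0 := h1.self_of_nhds
    rw [BDIV.dv_congr h2, BDIV.dv_zero, dd_zero_right h1, h3]
    simp

theorem glob [hM : M.Cpt] {G : M.Fam (Mat n)} (hG : M.Met G) {O : Set M.X} {A : M.Fam (Mat n)}
    (hA : DenOn M O A) {u w : M.X → ℂ} (h : ∀ x ∈ O, SmAt M u x ∧ SmAt M w x)
    (hs : tsupport w ⊆ O) :
    Continuous (grn M G A u w) ∧ ∫ x, grn M G A u w x ∂M.mu G = 0 ∧ ∀ x, At M x fun e z =>
      grn M G A u w x =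
      (A e z * (dd (u ∘ e.symm) (w ∘ e.symm) z + w x • hess (u ∘ e.symm) z)).trace / (G e z).det := by
  obtain ⟨hI, hS, hZ⟩ := (mDIV n M G hG).2.1 _ (vden hA h hs)
  have hev : grn M G A u w =
      M.ev fun e z => dv (fl (A e) (u ∘ e.symm) (w ∘ e.symm)) z / (G e z).det := by
    funext x
    simp only [grn, Mf.ev]
    rw [key hA h hs (ch_mem x) (mem_ch x)]
  rw [hev]
  refine ⟨hS.continuous, hZ hM, fun x e he hx => ?_⟩
  rw [hI.rep.at he hx, key hA h hs he hx, e.left_inv hx]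

theorem grn_congr {G A : M.Fam (Mat n)} {u w w' : M.X → ℂ} {x : M.X} (h : w =ᶠ[𝓝 x] w') :
    grn M G A u w x = grn M G A u w' x := by
  simp only [grn, Mf.ev, ch_symm]
  rw [dd_congr EventuallyEq.rfl (ev_ch (mem_ch x) h), h.self_of_nhds]

theorem smAt_mul {χ : M.X → ℝ} (hχ : M.Sm χ) {w : M.X → ℂ} {x : M.X} (h : SmAt M w x) :
    SmAt M (fun y => (χ y : ℂ) * w y) x := fun e he hx =>
  (cd_ofReal (hχ e he _ (e.map_source hx))).mul (h e he hx)

theorem ts_mul {χ : M.X → ℝ} {w : M.X → ℂ} : tsupport (fun y => (χ y : ℂ) * w y) ⊆ tsupport χ := by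
  refine closure_mono fun y hy => ?_
  intro h0
  exact hy (by simp [h0])

theorem loc [hM : M.Cpt] {G : M.Fam (Mat n)} (hG : M.Met G) {O : Set M.X} (hO : IsOpen O)
    {A : M.Fam (Mat n)} (hA : DenOn M O A) {u w : M.X → ℂ} (h : ∀ x ∈ O, SmAt M u x ∧ SmAt M w x)
    {x : M.X} (hx : x ∈ O) :
    ContinuousAt (grn M G A u w) x ∧ At M x fun e z => grn M G A u w x =
      (A e z * (dd (u ∘ e.symm) (w ∘ e.symm) z + w x • hess (u ∘ e.symm) z)).trace / (G e z).det := by
  obtain ⟨χ, h1, -, h2, h3⟩ := (mCOV n M).2.2.2.2.2 {x} O isClosed_singleton hO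
    (singleton_subset_iff.2 hx)
  rw [nhdsSet_singleton] at h2
  have h4 : w =ᶠ[𝓝 x] fun y => (χ y : ℂ) * w y := by
    filter_upwards [h2] with y hy
    simp [hy]
  obtain ⟨g1, -, g2⟩ := glob hG hA (u := u) (w := fun y => (χ y : ℂ) * w y)
    (fun y hy => ⟨(h y hy).1, smAt_mul h1 (h y hy).2⟩) (ts_mul.trans h3)
  refine ⟨g1.continuousAt.congr ?_, fun e he hxe => ?_⟩
  · filter_upwards [h4.eventuallyEq_nhds] with y hy
    exact (grn_congr hy).symm
  · beta_reduce
    rw [grn_congr h4, g2 x e he hxe, dd_congr EventuallyEq.rfl (ev_ch hxe h4), h2.self_of_nhds,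
      ofReal_one, one_mul]

theorem re_grn (G A : M.Fam (Mat n)) (u w : M.X → ℝ) (x : M.X) :
    (grn M G A (fun y => u y) (fun y => w y) x).re =
      pa M G A (M.ds u w) x + w x * pa M G A (M.hs u) x := by
  simp only [grn, pa, Mf.ev, ch_symm, Matrix.mul_add, Matrix.trace_add, Matrix.mul_smul,
    Matrix.trace_smul, smul_eq_mul, add_div, mul_div_assoc, add_re, re_ofReal_mul]
  rfl

theorem re_div {a d : ℂ} (h : (d.re : ℂ) = d) : (a / d).re = a.re / d.re := by
  rw [← h, div_ofReal_re, ofReal_re]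

theorem pa_dd {G : M.Fam (Mat n)} (hG : M.Met G) (A : M.Fam (Mat n)) {u : M.X → ℝ} (w : M.X → ℝ)
    {x : M.X} (hu : SmAt M u x) : pa M G A (M.ds u w) x =
      BLAP.q (M.ev A x) (star fun i => dz i (M.lc u (M.ch x)) (M.ch x x))
        (star fun i => dz i (M.lc w (M.ch x)) (M.ch x x)) / (M.ev G x).det.re := by
  unfold pa
  rw [re_div (herm_det (hG.ev_pos x).1)]
  congr 1
  exact BLAP.tr_dd (M.ev A x) (hu _ (ch_mem x) (mem_ch x))

theorem smAt_c {u : M.X → ℝ} {x : M.X} (hu : SmAt M u x) : SmAt M (fun y => (u y : ℂ)) x :=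
  fun e he hx => cd_ofReal (hu e he hx)

theorem lc_ev {u w : M.X → ℝ} {x : M.X} (h : u =ᶠ[𝓝 x] w) :
    M.lc u (M.ch x) =ᶠ[𝓝 (M.ch x x)] M.lc w (M.ch x) := by
  filter_upwards [ev_ch (mem_ch x) h] with z hz
  exact congrArg (fun t : ℝ => (t : ℂ)) hz

theorem lc_zero {w : M.X → ℝ} {x : M.X} (h : w =ᶠ[𝓝 x] fun _ => 0) :
    M.lc w (M.ch x) =ᶠ[𝓝 (M.ch x x)] fun _ => 0 := by
  filter_upwards [lc_ev h] with z hz
  rw [hz]; simp [Mf.lc]

theorem pa_hs_zero (G A : M.Fam (Mat n)) {w : M.X → ℝ} {x : M.X} (h : w =ᶠ[𝓝 x] fun _ => 0) :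
    pa M G A (M.hs w) x = 0 := by
  have : M.ev (M.hs w) x = 0 := hess_zero (lc_zero h)
  simp [pa, this]

theorem pa_ds_zero (G A : M.Fam (Mat n)) (u : M.X → ℝ) {w : M.X → ℝ} {x : M.X}
    (h : w =ᶠ[𝓝 x] fun _ => 0) : pa M G A (M.ds u w) x = 0 ∧ pa M G A (M.ds w u) x = 0 := by
  have h1 : M.ev (M.ds u w) x = 0 := dd_zero_right (lc_zero h)
  have h2 : M.ev (M.ds w u) x = 0 := dd_zero_left (lc_zero h)
  simp [pa, h1, h2]

theorem pa_ds_one (G A : M.Fam (Mat n)) (u : M.X → ℝ) (x : M.X) :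
    pa M G A (M.ds u fun _ => 1) x = 0 := by
  have h1 : M.ev (M.ds u fun _ => 1) x = 0 := BLAP.dd_const_right _
  simp [pa, h1]

theorem pa_ds_congr (G A : M.Fam (Mat n)) (w : M.X → ℝ) {u u' : M.X → ℝ} {x : M.X}
    (h : u =ᶠ[𝓝 x] u') : pa M G A (M.ds w u) x = pa M G A (M.ds w u') x := by
  have h1 : M.ev (M.ds w u) x = M.ev (M.ds w u') x := dd_congr EventuallyEq.rfl (lc_ev h)
  simp only [pa, h1]

theorem ts_c {w : M.X → ℝ} : tsupport (fun y => (w y : ℂ)) ⊆ tsupport w := by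
  refine closure_mono fun y hy => ?_
  intro h0
  exact hy (by simp [h0])

theorem hs_cont [hM : M.Cpt] {G : M.Fam (Mat n)} (hG : M.Met G) {O : Set M.X} (hO : IsOpen O)
    {A : M.Fam (Mat n)} (hA : DenOn M O A) {u : M.X → ℝ} (h : ∀ x ∈ O, SmAt M u x)
    {x : M.X} (hx : x ∈ O) : ContinuousAt (pa M G A (M.hs u)) x := by
  have h1 := (loc hG hO hA (u := fun y => u y) (w := fun y => ((1 : ℝ) : ℂ))
    (fun y hy => ⟨smAt_c (h y hy), fun e he hx => contDiffAt_const⟩) hx).1
  have h2 : pa M G A (M.hs u) =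
      fun y => (grn M G A (fun y => u y) (fun y => ((1 : ℝ) : ℂ)) y).re := by
    funext y
    rw [re_grn G A u (fun _ => 1) y, pa_ds_one]
    ring
  rw [h2]
  exact continuous_re.continuousAt.comp h1

theorem half [hM : M.Cpt] {G : M.Fam (Mat n)} (hG : M.Met G) {O : Set M.X} (hO : IsOpen O)
    {A : M.Fam (Mat n)} (hA : DenOn M O A) {u w : M.X → ℝ}
    (h : ∀ x ∈ O, SmAt M u x ∧ SmAt M w x) (hs : tsupport w ⊆ O) :
    Integrable (fun x => w x * pa M G A (M.hs u) x) (M.mu G) ∧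
      Integrable (pa M G A (M.ds u w)) (M.mu G) ∧
      ∫ x, w x * pa M G A (M.hs u) x ∂M.mu G = -∫ x, pa M G A (M.ds u w) x ∂M.mu G := by
  have hint := (mMU n M G hG).2.2.2.2.1
  obtain ⟨g1, g2, -⟩ := glob hG hA (u := fun y => u y) (w := fun y => w y)
    (fun y hy => ⟨smAt_c (h y hy).1, smAt_c (h y hy).2⟩) (ts_c.trans hs)
  have c1 : Continuous fun x => w x * pa M G A (M.hs u) x := by
    refine continuous_iff_continuousAt.2 fun x => ?_
    by_cases hx : x ∈ O
    · exact (smAt_cont (h x hx).2).mul (hs_cont hG hO hA (fun y hy => (h y hy).1) hx)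
    · refine (continuousAt_const (y := (0 : ℝ))).congr ?_
      filter_upwards [off hs hx] with y hy
      rw [hy, zero_mul]
  have e1 : pa M G A (M.ds u w) = fun x =>
      (grn M G A (fun y => u y) (fun y => w y) x).re - w x * pa M G A (M.hs u) x := by
    funext x
    rw [re_grn]; ring
  have i1 := hint ℝ _ c1
  have i2 : Integrable (fun x => (grn M G A (fun y => u y) (fun y => w y) x).re) (M.mu G) :=
    hint ℝ _ (continuous_re.comp g1)
  have h1 := integral_re (hint ℂ _ g1)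
  rw [g2, map_zero] at h1
  refine ⟨i1, ?_, ?_⟩
  · rw [e1]; exact i2.sub i1
  · rw [e1]
    beta_reduce
    rw [integral_sub i2 i1]
    have : ∫ x, (grn M G A (fun y => u y) (fun y => w y) x).re ∂M.mu G = 0 := h1
    rw [this]; ring

theorem ds_comm {G : M.Fam (Mat n)} (hG : M.Met G) {O : Set M.X} {A : M.Fam (Mat n)}
    (hA : DenOn M O A) {u w : M.X → ℝ} {x : M.X} (hx : x ∈ O) (hu : SmAt M u x)
    (hw : SmAt M w x) : pa M G A (M.ds u w) x = pa M G A (M.ds w u) x := by
  rw [pa_dd hG A w hu, pa_dd hG A u hw,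
    BLAP.q_comm (P := M.ev A x) (hA.herm x hx _ (ch_mem x) (mem_ch x))]

theorem io_zero {k j : ℕ} : io j (0 : Fin k → ℝ) = 0 := by
  funext i
  refine Fin.addCases (fun a => ?_) (fun a => ?_) i <;> simp [io, cx]

theorem io_sub {k j : ℕ} (a b : Fin k → ℝ) : io j (a - b) = io j a - io j b := by
  funext i
  refine Fin.addCases (fun a => ?_) (fun a => ?_) i <;> simp [io, cx]

theorem tr_refl {k j : ℕ} {X : Type} [TopologicalSpace X] (H : X → E (k + j)) (x : X) :
    Tr H H x := ⟨0, Eventually.of_forall fun y => by rw [io_zero, smul_zero, add_zero]⟩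

theorem tr_eucl {k j : ℕ} {X : Type} [TopologicalSpace X] {H H' H'' : X → E (k + j)} {x : X}
    (h : Tr H H'' x) (h' : Tr H' H'' x) : Tr H H' x := by
  obtain ⟨a, ha⟩ := h
  obtain ⟨b, hb⟩ := h'
  refine ⟨a - b, ?_⟩
  filter_upwards [ha, hb] with y h1 h2
  rw [io_sub, smul_sub, ← add_sub_assoc, ← h1, h2, add_sub_cancel_right]

theorem tr_symm {k j : ℕ} {X : Type} [TopologicalSpace X] {H H' : X → E (k + j)} {x : X}
    (h : Tr H H' x) : Tr H' H x := tr_eucl (tr_refl _ _) h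

theorem classes {m : ℕ} (p : Fin m → Prop) (R : Fin m → Fin m → Prop) (r : Fin m → ℂ)
    (h1 : ∀ i, R i i) (h2 : ∀ i i' i'', R i i'' → R i' i'' → R i i') (h0 : ∀ i, ¬ p i → r i = 0)
    (h : ∀ i₀, p i₀ → ∑ i ∈ Finset.univ.filter fun i => p i ∧ R i i₀, r i = 0) :
    ∑ i, r i = 0 := by
  let g : Fin m → Finset (Fin m) := fun i₀ => Finset.univ.filter fun i => p i ∧ R i i₀
  rw [← Finset.sum_subset (Finset.filter_subset p Finset.univ)
    (fun i _ hi => h0 i fun hp => hi (Finset.mem_filter.2 ⟨Finset.mem_univ _, hp⟩)),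
    ← Finset.sum_fiberwise_of_maps_to (s := Finset.univ.filter p)
      (t := (Finset.univ.filter p).image g) (g := g) fun i hi => Finset.mem_image_of_mem g hi]
  refine Finset.sum_eq_zero fun S hS => ?_
  obtain ⟨i₀, hi, rfl⟩ := Finset.mem_image.1 hS
  rw [← h i₀ (Finset.mem_filter.1 hi).2]
  refine Finset.sum_congr ?_ fun _ _ => rfl
  ext i
  simp only [Finset.mem_filter, Finset.mem_univ, true_and]
  refine and_congr_right fun hp => ⟨fun e => ?_, fun hr => ?_⟩
  · have : i ∈ g i := Finset.mem_filter.2 ⟨Finset.mem_univ _, hp, h1 i⟩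
    rw [e] at this
    exact (Finset.mem_filter.1 this).2.2
  · ext i'
    simp only [g, Finset.mem_filter, Finset.mem_univ, true_and]
    exact and_congr_right fun _ =>
      ⟨fun a => h2 _ _ _ a (h2 _ _ _ (h1 _) hr), fun a => h2 _ _ _ a hr⟩

/-- The remainder. -/
def rem (G A : M.Fam (Mat n)) (u w : M.X → ℂ) (χ : M.X → ℝ) (x : M.X) : ℂ :=
  w x * (M.ev A x * dd (u ∘ (M.ch x).symm) (M.lc χ (M.ch x)) (M.ch x x)).trace / (M.ev G x).det

theorem grn_mul (G A : M.Fam (Mat n)) (u : M.X → ℂ) {w : M.X → ℂ} {χ : M.X → ℝ} (hχ : M.Sm χ)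
    {x : M.X} (hw : SmAt M w x) : grn M G A u (fun y => (χ y : ℂ) * w y) x =
      (χ x : ℂ) * grn M G A u w x + rem G A u w χ x := by
  have h1 : dd (u ∘ (M.ch x).symm) ((fun y => (χ y : ℂ) * w y) ∘ (M.ch x).symm) (M.ch x x) =
      (χ x : ℂ) • dd (u ∘ (M.ch x).symm) (w ∘ (M.ch x).symm) (M.ch x x) +
        w x • dd (u ∘ (M.ch x).symm) (M.lc χ (M.ch x)) (M.ch x x) := by
    ext i j
    have := dz_mul (j := j) (cd_diff (AllOn.ch hχ.lc x)) (cd_diff (hw _ (ch_mem x) (mem_ch x)))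
    simp only [Mf.lc, Function.comp_apply, ch_symm] at this
    simp only [dd, Matrix.of_apply, Matrix.add_apply, Matrix.smul_apply, smul_eq_mul]
    have e : ((fun y => (χ y : ℂ) * w y) ∘ (M.ch x).symm) =
        fun z => (χ ((M.ch x).symm z) : ℂ) * w ((M.ch x).symm z) := rfl
    rw [e, this]
    ring
  simp only [grn, rem, Mf.ev, ch_symm, h1, Matrix.mul_add, Matrix.trace_add, Matrix.mul_smul,
    Matrix.trace_smul, smul_eq_mul]
  ring

end G55

open G55

theorem st_GIBP : St_GIBP := by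
  intro n M hM G A O hG hO hA
  have hint := (mMU n M G hG).2.2.2.2.1
  refine ⟨fun u w h => ⟨fun x hx => loc hG hO hA h hx, fun hs => ?_⟩,
    fun u w h => ⟨fun x hx => ⟨re_grn G A u w x, ds_comm hG hA hx (h x hx).1 (h x hx).2,
      fun hp => ?_⟩, fun hs => ?_⟩⟩
  · obtain ⟨g1, g2, -⟩ := glob hG hA h hs
    exact ⟨hint ℂ _ g1, g2⟩
  · have hp' := hp _ (ch_mem x) (mem_ch x)
    have hd := pd_det_re (hG.ev_pos x)
    rw [pa_dd hG A u (h x hx).1, pa_dd hG A w (h x hx).1, pa_dd hG A w (h x hx).2]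
    refine ⟨div_nonneg (BLAP.q_nonneg hp' _) hd.le, ?_⟩
    rw [div_pow, div_mul_div_comm, ← sq]
    exact div_le_div_of_nonneg_right (BLAP.q_cs hp' _ _) (sq_nonneg _)
  · obtain ⟨i1, i2, e1⟩ := half hG hO hA h hs
    obtain ⟨χ, h1, -, h2, h3⟩ := (mCOV n M).2.2.2.2.2 (tsupport w) O (isClosed_tsupport w) hO hs
    have h4 : tsupport (fun y => χ y * u y) ⊆ O := (tsupport_mul_subset_left).trans h3
    obtain ⟨j1, -, e2⟩ := half hG hO hA (u := w) (w := fun y => χ y * u y)
      (fun y hy => ⟨(h y hy).2, fun e he hx =>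
        (h1 e he _ (e.map_source hx)).mul ((h y hy).1 e he hx)⟩) h4
    have h5 : ∀ x ∈ tsupport w, (fun y => χ y * u y) =ᶠ[𝓝 x] u := fun x hx => by
      filter_upwards [(eventually_nhdsSet_iff_forall.1 h2) x hx] with y hy
      rw [hy, one_mul]
    have a1 : (fun x => χ x * u x * pa M G A (M.hs w) x) = fun x => u x * pa M G A (M.hs w) x := by
      funext x
      by_cases hx : x ∈ tsupport w
      · rw [show χ x * u x = u x from (h5 x hx).self_of_nhds]
      · rw [pa_hs_zero G A (off Subset.rfl hx), mul_zero, mul_zero]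
    have a2 : pa M G A (M.ds w fun y => χ y * u y) = pa M G A (M.ds u w) := by
      funext x
      by_cases hx : x ∈ tsupport w
      · rw [pa_ds_congr G A w (h5 x hx), ds_comm hG hA (hs hx) (h x (hs hx)).1 (h x (hs hx)).2]
      · rw [(pa_ds_zero G A _ (off Subset.rfl hx)).2, (pa_ds_zero G A _ (off Subset.rfl hx)).1]
    rw [a1] at j1 e2
    rw [a2] at e2
    exact ⟨i1, i2, j1, e1, e1.trans e2.symm⟩

theorem st_BR : St_BR := by
  intro n k j m N M hM G Q K K' O H χ A u w hG hT hA hs hc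
  have hint := (mMU n M G hG).2.2.2.2.1
  have c1 : ∀ i, Continuous fun x => (χ i x : ℂ) * grn M G (A i) (u i) (w i) x := fun i => by
    refine continuous_iff_continuousAt.2 fun x => ?_
    by_cases hx : x ∈ O i
    · exact (continuous_ofReal.comp (hT.sm i).continuous).continuousAt.mul
        (loc hG (hT.op i) (hA i) (fun y hy => ⟨(hs i y hy).1, (hs i y hy).2.1⟩) hx).1
    · refine (continuousAt_const (y := (0 : ℂ))).congr ?_
      filter_upwards [off (hT.supp i) hx] with y hy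
      rw [hy, ofReal_zero, zero_mul]
  have g := fun i => glob hG (hA i) (u := u i) (w := fun y => (χ i y : ℂ) * w i y)
    (fun y hy => ⟨(hs i y hy).1, smAt_mul (hT.sm i) (hs i y hy).2.1⟩) (ts_mul.trans (hT.supp i))
  refine ⟨fun i => hint ℂ _ (c1 i), ?_⟩
  have r0 : ∀ x i, x ∉ O i → rem G (A i) (u i) (w i) (χ i) x = 0 := fun x i hx => by
    simp only [rem, dd_zero_right (lc_zero (off (hT.supp i) hx)),
      Matrix.trace_zero, mul_zero, zero_div]
  have e1 : ∀ x i, grn M G (A i) (u i) (fun y => (χ i y : ℂ) * w i y) x =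
      (χ i x : ℂ) * grn M G (A i) (u i) (w i) x + rem G (A i) (u i) (w i) (χ i) x := fun x i => by
    by_cases hx : x ∈ O i
    · exact grn_mul G (A i) (u i) (hT.sm i) (hs i x hx).2.1
    · have h1 : (fun y => (χ i y : ℂ) * w i y) =ᶠ[𝓝 x] fun _ => 0 :=
        off (ts_mul.trans (hT.supp i)) hx
      have h2 : χ i x = 0 := (off (hT.supp i) hx).self_of_nhds
      rw [r0 x i hx, h2, grn_congr h1]
      simp only [grn, Mf.ev, dd_zero_right (ev_ch (mem_ch x) (EventuallyEq.refl _ fun _ => 0))]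
      simp
  have e2 : ∀ x, ∑ i, rem G (A i) (u i) (w i) (χ i) x = 0 := fun x => by
    refine classes (fun i => x ∈ O i) (fun i i' => Tr (H i) (H i') x) _ (fun i => tr_refl _ _)
      (fun i i' i'' => tr_eucl) (r0 x) fun i₀ h₀ => ?_
    have e3 : ∀ i ∈ Finset.univ.filter fun i => x ∈ O i ∧ Tr (H i) (H i₀) x,
        rem G (A i) (u i) (w i) (χ i) x = rem G (A i₀) (u i₀) (w i₀) (χ i) x := fun i hi => by
      obtain ⟨-, h1, h2⟩ := Finset.mem_filter.1 hi
      obtain ⟨a1, a2, b, a3⟩ := hc i i₀ x h1 h₀ h2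
      have a4 : M.ev (A i) x = M.ev (A i₀) x := a1 _ (ch_mem x) (mem_ch x)
      have a5 : dd (u i₀ ∘ (M.ch x).symm) (M.lc (χ i) (M.ch x)) (M.ch x x) =
          dd (u i ∘ (M.ch x).symm) (M.lc (χ i) (M.ch x)) (M.ch x x) := by
        rw [dd_congr (ev_ch (g := fun y => u i y + b) (mem_ch x) a3) EventuallyEq.rfl]
        ext a c
        have := dzb_add (j := a) (cd_diff ((hs i x h1).1 _ (ch_mem x) (mem_ch x)))
          (differentiableAt_const b)
        simp only [dzb_const, add_zero] at this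
        simp only [dd, Matrix.of_apply]
        exact congrArg (· * _) this
      simp only [rem, a2, a4, a5]
    rw [Finset.sum_congr rfl e3]
    by_cases hw : w i₀ x = 0
    · simp [rem, hw]
    have h1 := hT.all (H i₀) x (hT.q i₀ x h₀).1 ((hs i₀ x h₀).2.2 hw)
    have h2 : ∑ i ∈ Finset.univ.filter fun i => x ∈ O i ∧ Tr (H i) (H i₀) x,
        dd (u i₀ ∘ (M.ch x).symm) (M.lc (χ i) (M.ch x)) (M.ch x x) = 0 := by
      ext a c
      simp only [Matrix.sum_apply, dd, Matrix.of_apply, Matrix.zero_apply, ← Finset.mul_sum]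
      rw [← dz_sum fun i _ => cd_diff (AllOn.ch (hT.sm i).lc x), dz_congr (g := fun _ => 1),
        dz_const, mul_zero]
      filter_upwards [ev_ch (g := fun _ => 1) (mem_ch x) h1] with z hz
      simp only [Mf.lc, ← ofReal_sum]
      exact_mod_cast hz
    simp only [rem, ← Finset.sum_div, ← Finset.mul_sum, ← Matrix.trace_sum, h2,
      Matrix.trace_zero, mul_zero, zero_div]
  rw [← integral_finsetSum _ fun i _ => hint ℂ _ (c1 i)]
  have e4 : (fun x => ∑ i, (χ i x : ℂ) * grn M G (A i) (u i) (w i) x) =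
      fun x => ∑ i, grn M G (A i) (u i) (fun y => (χ i y : ℂ) * w i y) x := by
    funext x
    simp only [e1, Finset.sum_add_distrib, e2, add_zero]
  rw [e4, integral_finsetSum _ fun i _ => hint ℂ _ (g i).1]
  exact Finset.sum_eq_zero fun i _ => (g i).2.1

end Pool.Agent.Lib.RA
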