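import Pool.Agent.Lib.RA.Blue0
import Pool.Agent.Lib.HS32.MAll
import Pool.Agent.Lib.HS32.MKit

/-! Project ra1: the top coefficients on the manifold. -/

open scoped Classical Topology ContDiff ComplexOrder Matrix
open Set Complex Filter Matrix

noncomputable section

namespace Pool.Agent.Lib.RA

open Pool.Agent.Lib.SV (E)
open Pool.Agent.Lib.HS32

namespace BTop

variable {n : ℕ} {M : Mf n} {O : Set M.X} {x : M.X} {e e' : M.Ch}

theorem at_ev {p : M.X → M.Ch → E n → Prop} (hO : IsOpen O) (h : ∀ y ∈ O, At M y (p y))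
    (hx : x ∈ O) (he : e ∈ M.C) (hs : x ∈ e.source) : ∀ᶠ w in 𝓝 (e x), p (e.symm w) e w := by
  have h1 : ∀ᶠ w in 𝓝 (e x), e.symm w ∈ O :=
    (e.continuousAt_symm (e.map_source hs)).eventually_mem (by rw [e.left_inv hs]; exact hO.mem_nhds hx)
  filter_upwards [h1, e.open_target.mem_nhds (e.map_source hs)] with w hw hw'
  have := h _ hw e he (e.map_target hw')
  rwa [e.right_inv hw'] at this

theorem smAt_of {f : M.X → ℝ} {Φ : M.Fam ℝ} (hO : IsOpen O)
    (h : ∀ y ∈ O, At M y fun e z => f y = Φ e z)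
    (hs : ∀ y ∈ O, At M y fun e z => ContDiffAt ℝ ∞ (Φ e) z) (hx : x ∈ O) : SmAt M f x :=
  fun _ he hs' => (hs x hx _ he hs').congr_of_eventuallyEq (at_ev hO h hx he hs')

theorem nsq (J : Mat n) : (normSq J.det : ℂ) = Jᴴ.det * J.det := by
  rw [det_conjTranspose, normSq_eq_conj_mul_self]; rfl

theorem adj_den (J A : Mat n) :
    J * (J.adjugate * A * (J.adjugate)ᴴ) * Jᴴ = (normSq J.det : ℂ) • A := by
  rw [adjugate_conjTranspose, ← Matrix.mul_assoc, ← Matrix.mul_assoc, mul_adjugate,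
    Matrix.mul_assoc, adjugate_mul, nsq]
  simp only [Matrix.smul_mul, Matrix.mul_smul, Matrix.one_mul, Matrix.mul_one, smul_smul]

theorem comp_ev {F : Type} (f : M.X → F) (he : e ∈ M.C) (he' : e' ∈ M.C) (hx : x ∈ e.source)
    (hx' : x ∈ e'.source) : f ∘ e'.symm =ᶠ[𝓝 (e' x)] (f ∘ e.symm) ∘ (e ∘ e'.symm) :=
  ((mTR n M).2.1 e he e' he' x hx hx').2.2.2.1.mono fun w hw => by
    simp only [Function.comp_apply, hw.2.2.2.2.1]

end BTop

open BTop RA28

theorem st_TOP (hC : St_CH2) : St_TOP := fun n r j M G O hG hO => by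
  have hJ := (mTR n M).2.1
  have hi : ∀ {e' : M.Ch} {x : M.X} (e : M.Ch), x ∈ e'.source → (e ∘ e'.symm) (e' x) = e x :=
    fun e hx => by rw [Function.comp_apply, OpenPartialHomeomorph.left_inv _ hx]
  refine ⟨fun β hβ hh => ?_, fun H P hH hP => ⟨⟨fun x hx e he hs => ?_, fun e he e' he' x hs hs' hx
    => ?_⟩, fun x hx e he hs => ⟨hP.conjTranspose_mul_mul_same _, ?_, ?_⟩⟩, fun g hg => ?_,
    fun A T hA hT => ?_⟩
  · have e1 : ∀ x ∈ O, At M x fun e z => tD M j G β x = topA j (G e z) (β e z) :=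
      fun x hx e he hs => by
        have h0 := Mf.ch_mem (M := M) x
        have h1 := Mf.mem_ch (M := M) x
        simp only [tD, Mf.ev]
        rw [hG.cmp e he _ h0 x hs h1, hβ.cmp e he _ h0 x hs h1 hx,
          topA_conj _ _ _ (hJ e he _ h0 x hs h1).2.1]
    refine ⟨⟨fun x hx e he hs => sm_topS (hG.sm.at he hs) (hβ.sm x hx e he hs),
      fun e he e' he' x hs hs' hx => ?_,
      fun x hx e he hs => herm_topS (hG.herm.at he hs) (hh x hx e he hs).1,
      fun x hx e he hs => div_topS (hG.sm.at he hs) (hβ.sm x hx e he hs) (hG.cl.at he hs)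
        (hh x hx e he hs).2⟩,
      ⟨fun x hx e he hs => (hβ.sm x hx e he hs).adjugate, fun e he e' he' x hs hs' hx => ?_,
      fun x hx e he hs => ?_,
      fun x hx e he hs => (mCOF n _ _ (hβ.sm x hx e he hs)).2.2.2.1 (hh x hx e he hs).2⟩,
      fun x hx => ⟨smAt_of hO e1 (fun y hy e he hs => cd_topA (hG.sm.at he hs)
        (hβ.sm y hy e he hs) (hG.toMet.det_ne.at he hs)) hx, e1 x hx⟩⟩
    · simp only [tA]
      rw [hG.cmp e he e' he' x hs hs', hβ.cmp e he e' he' x hs hs' hx, topS_conj, adj_den]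
    · rw [hβ.cmp e he e' he' x hs hs' hx, adjugate_mul_distrib, adjugate_mul_distrib,
        ← adjugate_conjTranspose, ← Matrix.mul_assoc (M.J e e' x).adjugate, adj_den]
    · beta_reduce
      rw [IsHermitian, adjugate_conjTranspose, (hh x hx e he hs).1.eq]
  · exact ((hC n r _ _ (hH x hx e he hs)).2.2.2.1 P).1
  · have h1 := (hC n n _ _ (hJ e he e' he' x hs hs').1).2.2.2.2.1 r (H ∘ e.symm)
      (by rw [hi e hs']; exact hH x hx e he hs)
    have h2 : jr (H ∘ e'.symm) (e' x) = jr (H ∘ e.symm) (e x) * M.J e e' x := by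
      rw [hi e hs'] at h1
      rw [← show jr (e ∘ e'.symm) (e' x) = M.J e e' x from rfl, ← h1]
      simp only [jr, (comp_ev H he he' hs hs').fderiv_eq]
    simp only [pb, h2, conjTranspose_mul, Matrix.mul_assoc]
  · exact ((hC n r _ _ (hH x hx e he hs)).2.2.2.1 P).2
  · exact (rank_mul_le_left _ _).trans (rank_mul_le_right _ _)
  · have hs1 : ∀ g : M.X → ℝ, (∀ x ∈ O, SmAt M g x) →
        ∀ x ∈ O, At M x fun e z => ContDiffAt ℝ ∞ (M.lc g e) z :=
      fun g hg x hx e he hs => cd_ofReal (hg x hx e he hs)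
    refine ⟨⟨fun x hx e he hs => smM_hess (hs1 g hg x hx e he hs),
      fun e he e' he' x hs hs' hx => ?_⟩, fun g' hg' => ⟨fun x hx e he hs =>
        smM_dd (hs1 g hg x hx e he hs) (hs1 g' hg' x hx e he hs),
        fun e he e' he' x hs hs' hx => ?_⟩⟩
    · have h1 := (mCHN n _ _ (hJ e he e' he' x hs hs').1).2.2.2.2.2.2.2.2.2.2.2 (M.lc g e)
        (by rw [hi e hs']; exact hs1 g hg x hx e he hs)
      rw [hi e hs'] at h1
      exact (hess_congr (comp_ev (fun y => (g y : ℂ)) he he' hs hs')).trans h1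
    · have h1 := (mCHN n _ _ (hJ e he e' he' x hs hs').1).2.2.2.2.2.2.2.2.2.2.1 (M.lc g e)
        (M.lc g' e) (by rw [hi e hs']; exact cd_diff (hs1 g hg x hx e he hs))
        (by rw [hi e hs']; exact cd_diff (hs1 g' hg' x hx e he hs))
      rw [hi e hs'] at h1
      exact (dd_congr (comp_ev (fun y => (g y : ℂ)) he he' hs hs')
        (comp_ev (fun y => (g' y : ℂ)) he he' hs hs')).trans h1
  · have e1 : ∀ x ∈ O, At M x fun e z =>
        pa M G A T x = ((A e z * T e z).trace / (G e z).det).re := fun x hx e he hs => by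
      have h0 := Mf.ch_mem (M := M) x
      have h1 := Mf.mem_ch (M := M) x
      have h2 := (hJ e he _ h0 x hs h1).2.1
      have h3 : (M.J e (M.ch x) x)ᴴ.det ≠ 0 := by rw [det_conjTranspose]; exact star_ne_zero.mpr h2
      simp only [pa, Mf.ev]
      rw [hG.cmp e he _ h0 x hs h1, hT.cmp e he _ h0 x hs h1 hx, ← Matrix.mul_assoc, trace_mul_comm,
        ← Matrix.mul_assoc, ← Matrix.mul_assoc, hA.cmp e he _ h0 x hs h1 hx,
        Matrix.smul_mul, trace_smul, nsq, det_mul, det_mul, smul_eq_mul, mul_right_comm _ (G e _).det,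
        mul_div_mul_left _ _ (mul_ne_zero h3 h2)]
    exact fun x hx => ⟨smAt_of hO e1 (fun y hy e he hs => cd_re
      (f := fun w => (A e w * T e w).trace * ((G e w).det)⁻¹)
      (((hA.sm y hy e he hs).mul (hT.sm y hy e he hs)).trace.mul
        ((hG.sm.at he hs).det.inv (hG.toMet.det_ne.at he hs)))) hx, e1 x hx⟩

end Pool.Agent.Lib.RA
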