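import Pool.Agent.Lib.HS32.MAll

/-! The inequality of Glaeser. -/

open scoped Topology ContDiff ComplexOrder Matrix
open Set Metric Complex

noncomputable section

namespace Pool.Agent.Lib.RA

open Pool.Agent.Lib.SV (E)
open Pool.Agent.Lib.HS32

/-- The gradient of a smooth non-negative function on a compact manifold. -/
def St_GLA : Prop := ∀ (n : ℕ) (M : Mf n) [M.Cpt] (G : M.Fam (Mat n)) (a : M.X → ℝ), M.Met G →
  M.Sm a → (∀ x, 0 ≤ a x) → ∃ C : ℝ, 0 < C ∧ (∀ x, M.gr G a a x ≤ C * a x) ∧
    M.All fun e z => ((C * a (e.symm z)) • G e z - M.ds a a e z).PosSemidef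

/-- The inequality on a compact subset of an open set of a finite dimensional space. -/
theorem glaeser {V : Type*} [NormedAddCommGroup V] [NormedSpace ℝ V] [FiniteDimensional ℝ V]
    {U K : Set V} (hU : IsOpen U) (hK : IsCompact K) (hs : K ⊆ U) {a : V → ℝ}
    (ha : ∀ z ∈ U, ContDiffAt ℝ 2 a z) (h0 : ∀ z ∈ U, 0 ≤ a z) :
    ∃ C : ℝ, 0 < C ∧ ∀ z ∈ K, ‖fderiv ℝ a z‖ ^ 2 ≤ C * a z := by
  have := FiniteDimensional.proper_real V
  obtain ⟨δ, hδ, h1⟩ := hK.exists_cthickening_subset_open hU hs
  have hK' : IsCompact (cthickening δ K) := hK.cthickening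
  have d1 : ∀ z ∈ U, ContDiffAt ℝ 1 (fderiv ℝ a) z := fun z hz =>
    (ha z hz).fderiv_right (by norm_num)
  obtain ⟨B, hB⟩ := hK'.exists_bound_of_continuousOn (f := fderiv ℝ (fderiv ℝ a)) fun z hz =>
    ((d1 z (h1 hz)).fderiv_right (m := 0) (by norm_num)).continuousAt.continuousWithinAt
  obtain ⟨L, hL⟩ := hK.exists_bound_of_continuousOn (f := fderiv ℝ a) fun z hz =>
    (d1 z (hs hz)).continuousAt.continuousWithinAt
  set s : ℝ := min (δ / (|L| + 1)) (1 / (2 * (|B| + 1))) with hsd
  have s0 : 0 < s := by positivity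
  have s1 : s * (|L| + 1) ≤ δ := (le_div_iff₀ (by positivity)).1 (min_le_left _ _)
  have s2 : s * (2 * (|B| + 1)) ≤ 1 := (le_div_iff₀ (by positivity)).1 (min_le_right _ _)
  refine ⟨2 / s, by positivity, fun z hz => ?_⟩
  have key : ∀ v : V, ‖v‖ ≤ 1 → fderiv ℝ a z v ^ 2 ≤ 2 / s * a z := by
    intro v hv
    set g := fderiv ℝ a z v with hg
    have g1 : |g| ≤ |L| := ((fderiv ℝ a z).le_opNorm v).trans (by
      have := hL z hz
      have := le_abs_self L
      nlinarith [norm_nonneg (fderiv ℝ a z), norm_nonneg v])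
    set r := s * |g| with hr
    have r0 : 0 ≤ r := by positivity
    have r1 : closedBall z r ⊆ cthickening δ K :=
      (closedBall_subset_closedBall (by nlinarith [abs_nonneg g])).trans
        (closedBall_subset_cthickening hz δ)
    have hm : z - (s * g) • v ∈ closedBall z r := by
      rw [mem_closedBall, dist_eq_norm, sub_sub_cancel_left, norm_neg, norm_smul, Real.norm_eq_abs,
        abs_mul, abs_of_pos s0]
      nlinarith [norm_nonneg v]
    have b1 : ∀ w ∈ closedBall z r, ‖fderiv ℝ a w - fderiv ℝ a z‖ ≤ |B| * r := fun w hw =>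
      ((convex_closedBall z r).norm_image_sub_le_of_norm_fderiv_le
        (fun x hx => (d1 x (h1 (r1 hx))).differentiableAt one_ne_zero)
        (fun x hx => (hB x (r1 hx)).trans (le_abs_self B)) (mem_closedBall_self r0) hw).trans
        (mul_le_mul_of_nonneg_left (mem_closedBall_iff_norm.1 hw) (abs_nonneg B))
    have b2 := (convex_closedBall z r).norm_image_sub_le_of_norm_fderiv_le'
      (fun x hx => (ha x (h1 (r1 hx))).differentiableAt two_ne_zero) b1 (mem_closedBall_self r0) hm
    have b3 := mul_le_mul_of_nonneg_left (mem_closedBall_iff_norm.1 hm)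
      (mul_nonneg (abs_nonneg B) r0)
    have b4 := (le_abs_self _).trans (b2.trans b3)
    rw [sub_sub_cancel_left, map_neg, map_smul, smul_eq_mul, ← hg] at b4
    have b5 := h0 _ (h1 (r1 hm))
    have b6 : |B| * r * r = |B| * s * (s * g ^ 2) := by rw [hr, ← sq_abs g]; ring
    have b7 : |B| * s * (s * g ^ 2) ≤ 1 / 2 * (s * g ^ 2) :=
      mul_le_mul_of_nonneg_right (by nlinarith) (by positivity)
    rw [div_mul_eq_mul_div, le_div_iff₀ s0]
    nlinarith
  have h2 : 0 ≤ 2 / s * a z := mul_nonneg (by positivity) (h0 z (hs hz))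
  rw [← Real.le_sqrt (norm_nonneg _) h2]
  exact ContinuousLinearMap.opNorm_le_of_unit_norm (Real.sqrt_nonneg _) fun v hv =>
    Real.abs_le_sqrt (key v hv.le)

theorem st_GLA : St_GLA := by
  intro n M _ G a hG ha h0
  obtain ⟨V, -⟩ := (mCOV n M).2.2.1
  have hd := ((mHES n M).2.2.1 a ha).1
  obtain ⟨C, C0, hC⟩ := BBD.glob M V
    (fun e z D => ((D * a (e.symm z)) • G e z - M.ds a a e z).PosSemidef) fun e he K hK hs => by
      obtain ⟨c, c0, hc⟩ := BBD.low hK (fun z hz => hG.sm e he z (hs hz))
        fun z hz => hG.pos e he z (hs hz)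
      obtain ⟨L, L0, hL⟩ := glaeser e.open_target hK hs (a := a ∘ e.symm)
        (fun z hz => cd_le (ha e he z hz) 2) fun z _ => h0 _
      refine ⟨L / c, by positivity, fun D hD z hz => ?_⟩
      have h1 := BBD.psd (hG.herm e he z (hs hz)) (hd.herm e he z (hs hz))
        (s := D * a (e.symm z)) (t := -1) fun v => by
          have hr := cd_diff (ha e he z (hs hz))
          have hr' := cd_diff (cd_ofReal (ha e he z (hs hz)))
          set w : ℂ := ∑ j, dz j (M.lc a e) z * v j with hw
          have e1 : nq (M.ds a a e z) v = normSq w := by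
            have e2 : ∀ j, dzb j (M.lc a e) z = star (dz j (M.lc a e) z) := fun j =>
              (star_dz_ofReal hr').symm
            rw [← ofReal_re (normSq w), normSq_eq_conj_mul_self, hw, nq]
            simp only [Mf.ds, dd, dotProduct, Matrix.mulVec, Matrix.of_apply, e2, map_sum, map_mul,
              Finset.sum_mul, Finset.mul_sum, Pi.star_apply, RCLike.star_def]
            rw [Finset.sum_comm]
            congr 1
            exact Finset.sum_congr rfl fun i _ => Finset.sum_congr rfl fun j _ => by ring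
          have e3 : ∀ u : E n, fderiv ℝ (a ∘ e.symm) z u =
              2 * (∑ j, dz j (M.lc a e) z * u j).re := fun u => by
            have h2 := congrArg re (fderiv_eq_sum (fun w => ((a ∘ e.symm) w : ℂ)) z u)
            rw [fderiv_ofReal hr, ofReal_re] at h2
            simp only [← star_dz_ofReal hr', ← star_mul', Finset.sum_add_distrib, ← star_sum,
              add_re] at h2
            rw [h2, two_mul, RCLike.star_def, conj_re]
            rfl
          have e4 := e3 v
          have e5 := e3 (I • v)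
          have e6 : ∑ j, dz j (M.lc a e) z * (I • v) j = I * w := by
            rw [hw, Finset.mul_sum]
            exact Finset.sum_congr rfl fun j _ => by rw [Pi.smul_apply, smul_eq_mul]; ring
          rw [e6] at e5
          rw [← hw] at e4
          have b1 := (fderiv ℝ (a ∘ e.symm) z).le_opNorm v
          have b2 := (fderiv ℝ (a ∘ e.symm) z).le_opNorm (I • v)
          rw [norm_smul, norm_I, one_mul, e5] at b2
          rw [e4] at b1
          have b3 := pow_le_pow_left₀ (norm_nonneg _) b1 2
          have b4 := pow_le_pow_left₀ (norm_nonneg _) b2 2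
          rw [Real.norm_eq_abs, sq_abs, mul_pow, mul_pow] at b3 b4
          have b5 := mul_le_mul_of_nonneg_right (hL z hz) (sq_nonneg ‖v‖)
          have b6 := mul_le_mul_of_nonneg_left (hc z hz v)
            (mul_nonneg ((div_pos L0 c0).le.trans hD) (h0 (e.symm z)))
          have b7 := mul_le_mul_of_nonneg_right ((div_le_iff₀ c0).1 hD)
            (mul_nonneg (h0 (e.symm z)) (sq_nonneg ‖v‖))
          have b8 := mul_nonneg (sq_nonneg ‖fderiv ℝ (a ∘ e.symm) z‖) (sq_nonneg ‖v‖)
          rw [e1, normSq_apply]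
          simp only [mul_re, I_re, I_im, Function.comp] at b3 b4 b5 b8
          nlinarith
      rwa [neg_one_smul, ← sub_eq_add_neg] at h1
  have key : M.All fun e z => ((C * a (e.symm z)) • G e z - M.ds a a e z).PosSemidef := by
    intro e he z hz
    obtain ⟨e', he', hx, h1⟩ := hC (e.symm z)
    have e1 := hG.cmp e' he' e he _ hx (e.map_target hz)
    have e2 := hd.cmp e' he' e he _ hx (e.map_target hz)
    beta_reduce at e1 e2
    rw [e.right_inv hz] at e1 e2
    have k1 := h1.conjTranspose_mul_mul_same (M.J e' e (e.symm z))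
    rw [e'.left_inv hx] at k1
    simpa only [Matrix.mul_sub, Matrix.sub_mul, Matrix.mul_smul, Matrix.smul_mul, ← e1, ← e2]
      using k1
  refine ⟨(n + 1) * C, by positivity, fun x => ?_, fun e he z hz => ?_⟩
  · have h1 := hG.tr_mono (S := M.ds a a) (T := fun e z => (C * a (e.symm z)) • G e z) key x
    rw [Mf.tr_fsmul (fun x => C * a x), hG.tr_self] at h1
    have := mul_nonneg C0.le (h0 x)
    exact h1.trans (by nlinarith)
  · have h1 := (key e he z hz).add (Mf.psd_rsmul (hG.pos e he z hz).posSemidef
      (c := n * C * a (e.symm z)) (mul_nonneg (by positivity) (h0 _)))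
    convert h1 using 1
    module

end Pool.Agent.Lib.RA
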