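import Pool.Agent.Lib.HS32.B_COF
import Pool.Agent.Lib.HS32.EKit
import Pool.Agent.Lib.HS76.Diag

/-! Top coefficients of `det (G + t B)` and of `adjugate (G + t B)` as finite differences. -/

open scoped Classical Topology ContDiff ComplexOrder Matrix
open Matrix Finset Polynomial

noncomputable section

namespace Pool.Agent.Lib.RA28

open Pool.Agent.Lib.SV (E)
open Pool.Agent.Lib.HS32

variable {n : ℕ}

/-- Weights of the `j`-th finite difference divided by `j !`. -/
def fw (j m : ℕ) : ℂ := (-1) ^ (j - m) * (j.choose m : ℂ) / (j.factorial : ℂ)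

/-- Coefficient of `t ^ j` in `det (G + t B)` when the rank of `B` is at most `j`. -/
def topD (j : ℕ) (G B : Mat n) : ℂ := ∑ m ∈ range (j + 1), fw j m * (G + (m : ℂ) • B).det

/-- Coefficient of `t ^ j` in `adjugate (G + t B)` when the rank of `B` is at most `j`. -/
def topS (j : ℕ) (G B : Mat n) : Mat n :=
  ∑ m ∈ range (j + 1), fw j m • (G + (m : ℂ) • B).adjugate

/-- The scalar `a_j`. -/
def topA (j : ℕ) (G B : Mat n) : ℝ := (topD j G B / G.det).re

/-- The completed form. -/
def til (j : ℕ) (G B : Mat n) : Mat n := B + (G.det)⁻¹ • (G * topS j G B * G)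

theorem fd_poly (j : ℕ) (P : ℂ[X]) (h : P.natDegree ≤ j) :
    ∑ m ∈ range (j + 1), fw j m * P.eval (m : ℂ) = P.coeff j := by
  have hf : (j.factorial : ℂ) ≠ 0 := by exact_mod_cast j.factorial_ne_zero
  have h1 := fwdDiff_iter_eq_sum_shift (h := (1 : ℂ)) P.eval j 0
  have h2 : ∑ m ∈ range (j + 1), fw j m * P.eval (m : ℂ) =
      (fwdDiff (1 : ℂ))^[j] P.eval 0 / (j.factorial : ℂ) := by
    rw [h1, Finset.sum_div]
    refine Finset.sum_congr rfl fun m _ => ?_
    simp only [fw, zsmul_eq_mul, zero_add, nsmul_eq_mul, mul_one]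
    push_cast
    ring
  rw [h2]
  rcases h.lt_or_eq with h | h
  · rw [Polynomial.fwdDiff_iter_eq_zero_of_degree_lt h, coeff_eq_zero_of_natDegree_lt h]; simp
  · subst h
    rw [Polynomial.fwdDiff_iter_degree_eq_factorial]
    simp only [Pi.smul_apply, Pi.natCast_apply, smul_eq_mul, leadingCoeff]
    field_simp

/-- The polynomial `∏ (1 + d k X)`. -/
def pp {ι : Type} (s : Finset ι) (d : ι → ℂ) : ℂ[X] :=
  ∏ k ∈ s.filter (fun k => d k ≠ 0), (C (d k) * X + 1)

theorem pp_eval {ι : Type} (s : Finset ι) (d : ι → ℂ) (t : ℂ) :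
    (pp s d).eval t = ∏ k ∈ s, (1 + t * d k) := by
  rw [pp, eval_prod, Finset.prod_filter]
  refine Finset.prod_congr rfl fun k _ => ?_
  by_cases h : d k = 0
  · simp [h]
  · simp [h]; ring

theorem lin_deg (c : ℂ) : (C c * X + 1 : ℂ[X]).natDegree ≤ 1 := by
  compute_degree

theorem pp_deg {ι : Type} (s : Finset ι) (d : ι → ℂ) :
    (pp s d).natDegree ≤ (s.filter (fun k => d k ≠ 0)).card := by
  refine (natDegree_prod_le _ _).trans ?_
  simpa using Finset.sum_le_card_nsmul _ _ 1 fun k _ => lin_deg (d k)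

theorem pp_coeff {ι : Type} (s : Finset ι) (d : ι → ℂ) {j : ℕ}
    (h : (s.filter (fun k => d k ≠ 0)).card ≤ j) :
    (pp s d).coeff j = if (s.filter (fun k => d k ≠ 0)).card = j then
      ∏ k ∈ s.filter (fun k => d k ≠ 0), d k else 0 := by
  split_ifs with h1
  · have := coeff_prod_of_natDegree_le (s := s.filter (fun k => d k ≠ 0))
      (fun k => (C (d k) * X + 1 : ℂ[X])) 1 fun k _ => lin_deg (d k)
    rw [mul_one, h1] at this
    rw [pp, this]
    refine Finset.prod_congr rfl fun k _ => by simp [coeff_one]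
  · exact coeff_eq_zero_of_natDegree_lt ((pp_deg s d).trans_lt (lt_of_le_of_ne h h1))

theorem fd_prod {ι : Type} (s : Finset ι) (d : ι → ℂ) {j : ℕ}
    (h : (s.filter (fun k => d k ≠ 0)).card ≤ j) :
    ∑ m ∈ range (j + 1), fw j m * ∏ k ∈ s, (1 + (m : ℂ) * d k) =
      if (s.filter (fun k => d k ≠ 0)).card = j then
        ∏ k ∈ s.filter (fun k => d k ≠ 0), d k else 0 := by
  rw [← pp_coeff s d h, ← fd_poly j _ ((pp_deg s d).trans h)]
  simp only [pp_eval]

theorem fd_prod_mul {ι : Type} (s : Finset ι) (d : ι → ℂ) {j : ℕ}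
    (h : (s.filter (fun k => d k ≠ 0)).card ≤ j) :
    ∑ m ∈ range (j + 1 + 1), (fw (j + 1) m * m) * ∏ k ∈ s, (1 + (m : ℂ) * d k) =
      ∑ m ∈ range (j + 1), fw j m * ∏ k ∈ s, (1 + (m : ℂ) * d k) := by
  have h1 : (X * pp s d).natDegree ≤ j + 1 := by
    refine natDegree_mul_le.trans ?_
    have := (pp_deg s d).trans h
    have h2 : (X : ℂ[X]).natDegree ≤ 1 := natDegree_X_le
    omega
  have h2 := fd_poly (j + 1) _ h1
  rw [coeff_X_mul, ← fd_poly j _ ((pp_deg s d).trans h)] at h2
  simp only [eval_mul, eval_X, pp_eval] at h2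
  rw [← h2]
  exact Finset.sum_congr rfl fun m _ => by ring

/-- An `G`-orthonormal eigenbasis of `B`. -/
structure Fr (G B W : Mat n) (d : Fin n → ℝ) : Prop where
  h1 : Wᴴ * G * W = 1
  h2 : Wᴴ * B * W = diagonal fun i => (d i : ℂ)
  hd : ∀ i, 0 ≤ d i

theorem exists_fr {G B : Mat n} (hG : G.PosDef) (hB : B.PosSemidef) : ∃ W d, Fr G B W d := by
  obtain ⟨W, d, h1, h2⟩ := HS76.simul_diag hG hB.1
  refine ⟨W, d, h1, h2, fun i => ?_⟩
  have := hB.conjTranspose_mul_mul_same W
  rw [h2, posSemidef_diagonal_iff] at this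
  exact_mod_cast this i

/-- The product of the non-zero eigenvalues when there are `j` of them. -/
def aa (j : ℕ) (d : Fin n → ℝ) : ℝ :=
  if (univ.filter fun k => d k ≠ 0).card = j then ∏ k ∈ univ.filter (fun k => d k ≠ 0), d k else 0

/-- The indicator of the kernel directions. -/
def kz (d : Fin n → ℝ) (i : Fin n) : ℂ := if d i = 0 then 1 else 0

theorem filt (s : Finset (Fin n)) (d : Fin n → ℝ) :
    s.filter (fun k => (d k : ℂ) ≠ 0) = s.filter (fun k => d k ≠ 0) := by
  simp

theorem card_er {j : ℕ} {d : Fin n → ℝ} (hj : (univ.filter fun k => d k ≠ 0).card ≤ j) (l : Fin n) :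
    ((univ.erase l).filter (fun k => d k ≠ 0)).card ≤ j := by
  rw [filter_erase]; exact card_erase_le.trans hj

theorem aa_kz {j : ℕ} {d : Fin n → ℝ} (hj : (univ.filter fun k => d k ≠ 0).card ≤ j) (l : Fin n) :
    ((if ((univ.erase l).filter (fun k => d k ≠ 0)).card = j then
      ∏ k ∈ (univ.erase l).filter (fun k => d k ≠ 0), d k else 0 : ℝ) : ℂ) = aa j d * kz d l := by
  rw [filter_erase, kz, aa]
  by_cases e : d l = 0
  · rw [erase_eq_of_notMem (by simp [e]), if_pos e, mul_one]
  · have : ((univ.filter fun k => d k ≠ 0).erase l).card < j :=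
      (card_erase_lt_of_mem (by simp [e])).trans_le hj
    rw [if_neg this.ne, if_neg e, mul_zero, Complex.ofReal_zero]

theorem psd_up (W : Mat n) (f : Fin n → ℝ) (hf : ∀ i, 0 ≤ f i) :
    (W * diagonal (fun i => (f i : ℂ)) * Wᴴ).PosSemidef :=
  (posSemidef_diagonal_iff.mpr fun i => by exact_mod_cast hf i).mul_mul_conjTranspose_same W

theorem kz_mul (d : Fin n → ℝ) : diagonal (kz d) * diagonal (fun i => (d i : ℂ)) = 0 := by
  rw [diagonal_mul_diagonal, ← diagonal_zero]
  congr 1; funext i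
  by_cases e : d i = 0 <;> simp [kz, e]

theorem mul_kz (d : Fin n → ℝ) : diagonal (fun i => (d i : ℂ)) * diagonal (kz d) = 0 := by
  rw [diagonal_mul_diagonal, ← diagonal_zero]
  congr 1; funext i
  by_cases e : d i = 0 <;> simp [kz, e]

theorem prod_gap {ι : Type} (s : Finset ι) (d : ι → ℝ) (hd : ∀ k, 0 ≤ d k) {ε : ℝ} (h0 : 0 ≤ ε)
    (h1 : ε ≤ 1) : ∏ k ∈ s, d k ≤ ∏ k ∈ s, (ε + d k) ∧ ∏ k ∈ s, (ε + d k) ≤ ∏ k ∈ s, (1 + d k) ∧
      ∏ k ∈ s, (ε + d k) - ∏ k ∈ s, d k ≤ ε * ∏ k ∈ s, (1 + d k) := by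
  refine ⟨prod_le_prod (fun k _ => hd k) fun k _ => by linarith,
    prod_le_prod (fun k _ => by linarith [hd k]) fun k _ => by linarith, ?_⟩
  induction s using Finset.induction_on with
  | empty => simpa using h0
  | insert a s ha ih =>
    rw [prod_insert ha, prod_insert ha, prod_insert ha]
    have h2 : ∏ k ∈ s, (ε + d k) ≤ ∏ k ∈ s, (1 + d k) :=
      prod_le_prod (fun k _ => by linarith [hd k]) fun k _ => by linarith
    nlinarith [mul_le_mul_of_nonneg_left ih (hd a), mul_le_mul_of_nonneg_left h2 h0]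

theorem prod_split {ι : Type} (s : Finset ι) (d : ι → ℝ) (ε : ℝ) :
    ∏ k ∈ s, (ε + d k) = ε ^ (s.card - (s.filter fun k => d k ≠ 0).card) *
      ∏ k ∈ s.filter (fun k => d k ≠ 0), (ε + d k) := by
  rw [← prod_filter_mul_prod_filter_not s (fun k => d k ≠ 0), mul_comm]
  congr 1
  rw [prod_congr rfl (g := fun _ => ε) fun k hk => by simp [not_not.mp (mem_filter.mp hk).2],
    prod_const]
  congr 1
  have := card_filter_add_card_filter_not (s := s) (fun k => d k ≠ 0)
  omega

theorem prod_sub_le {ι : Type} [Fintype ι] (s : Finset ι) (d : ι → ℝ) (hd : ∀ k, 0 ≤ d k) :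
    ∏ k ∈ s, (1 + d k) ≤ ∏ k, (1 + d k) :=
  prod_le_prod_of_subset_of_one_le (subset_univ s) (fun k _ => by linarith [hd k])
    fun k _ _ => by linarith [hd k]

theorem exp_prod {ι : Type} [Fintype ι] (s : Finset ι) (d : ι → ℝ) (hd : ∀ k, 0 ≤ d k) {ε : ℝ}
    (h0 : 0 < ε) (h1 : ε ≤ 1) {j : ℕ} (hc : (s.filter fun k => d k ≠ 0).card ≤ j)
    (hj : j ≤ s.card) : ∃ r, 0 ≤ r ∧ r ≤ ∏ k, (1 + d k) ∧ ∏ k ∈ s, (ε + d k) = ε ^ (s.card - j) *
      ((if (s.filter fun k => d k ≠ 0).card = j then ∏ k ∈ s.filter (fun k => d k ≠ 0), d k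
        else 0) + ε * r) := by
  obtain ⟨g1, g2, g3⟩ := prod_gap (s.filter fun k => d k ≠ 0) d hd h0.le h1
  have g4 := prod_sub_le (s.filter fun k => d k ≠ 0) d hd
  have g5 : 0 ≤ ∏ k ∈ s.filter (fun k => d k ≠ 0), d k := prod_nonneg fun k _ => hd k
  rw [prod_split s d ε]
  split_ifs with e
  · refine ⟨(∏ k ∈ s.filter (fun k => d k ≠ 0), (ε + d k) -
      ∏ k ∈ s.filter (fun k => d k ≠ 0), d k) / ε, div_nonneg (by linarith) h0.le, ?_, ?_⟩
    · rw [div_le_iff₀ h0]; nlinarith
    · rw [e]; congr 1; field_simp; ring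
  · obtain ⟨t, ht⟩ : ∃ t, j = (s.filter fun k => d k ≠ 0).card + 1 + t := 
      ⟨j - (s.filter fun k => d k ≠ 0).card - 1, by omega⟩
    refine ⟨ε ^ t * ∏ k ∈ s.filter (fun k => d k ≠ 0), (ε + d k),
      mul_nonneg (pow_nonneg h0.le _) (by linarith), ?_, ?_⟩
    · have := pow_le_one₀ (n := t) h0.le h1
      nlinarith [pow_nonneg h0.le t]
    · rw [show s.card - (s.filter fun k => d k ≠ 0).card = (s.card - j) + 1 + t by omega]
      ring

namespace Fr

variable {G B W : Mat n} {d : Fin n → ℝ} (h : Fr G B W d)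
include h

theorem wv : W * (Wᴴ * G) = 1 := mul_eq_one_comm.mp h.h1

theorem vw : G * W * Wᴴ = 1 := by
  have := h.h1
  rw [Matrix.mul_assoc] at this
  exact mul_eq_one_comm.mp this

theorem unit : IsUnit W := IsUnit.of_mul_eq_one _ h.wv

theorem dets : Wᴴ.det * G.det * W.det = 1 := by rw [← det_mul, ← det_mul, h.h1, det_one]

theorem det_ne : G.det ≠ 0 := fun e => by simpa [e] using h.dets

theorem inv : G⁻¹ = W * Wᴴ := inv_eq_right_inv (by rw [← Matrix.mul_assoc, h.vw])

/-- A matrix is recovered from its matrix in the frame. -/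
theorem back (A : Mat n) : A = G * W * (Wᴴ * A * W) * (Wᴴ * G) := by
  calc A = (G * W * Wᴴ) * A * (W * (Wᴴ * G)) := by rw [h.vw, h.wv, Matrix.one_mul, Matrix.mul_one]
    _ = _ := by simp only [Matrix.mul_assoc]

theorem comb (a s : ℂ) : Wᴴ * (a • G + s • B) * W = diagonal fun i => a + s * (d i : ℂ) := by
  rw [Matrix.mul_add, Matrix.add_mul, Matrix.mul_smul, Matrix.mul_smul, Matrix.smul_mul,
    Matrix.smul_mul, h.h1, h.h2]
  ext i j
  by_cases e : i = j <;> simp [e, one_apply]

theorem det_comb (a s : ℂ) : (a • G + s • B).det = G.det * ∏ i, (a + s * (d i : ℂ)) := by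
  have := congrArg Matrix.det (h.comb a s)
  rw [det_mul, det_mul, det_diagonal] at this
  rw [← this]
  linear_combination (-(a • G + s • B).det) * h.dets

theorem adj_comb (a s : ℂ) : (a • G + s • B).adjugate =
    G.det • (W * diagonal (fun l => ∏ k ∈ univ.erase l, (a + s * (d k : ℂ))) * Wᴴ) := by
  have e1 : (Wᴴ * G).adjugate = (Wᴴ * G).det • W := by
    calc (Wᴴ * G).adjugate = (Wᴴ * G).adjugate * (Wᴴ * G * W) := by rw [h.h1, Matrix.mul_one]
      _ = _ := by rw [← Matrix.mul_assoc, adjugate_mul, Matrix.smul_mul, Matrix.one_mul]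
  have e2 : (G * W).adjugate = (G * W).det • Wᴴ := by
    calc (G * W).adjugate = (Wᴴ * G * W) * (G * W).adjugate := by rw [h.h1, Matrix.one_mul]
      _ = _ := by
        rw [Matrix.mul_assoc Wᴴ, Matrix.mul_assoc, mul_adjugate, Matrix.mul_smul, Matrix.mul_one]
  rw [h.back (a • G + s • B), h.comb, adjugate_mul_distrib, adjugate_mul_distrib (G * W), e1, e2,
    adjugate_diagonal, Matrix.smul_mul, Matrix.mul_smul, Matrix.mul_smul, smul_smul, det_mul,
    det_mul, Matrix.mul_assoc]
  congr 1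
  linear_combination G.det * h.dets

theorem sum_adj (c : ℕ → ℂ) (N : ℕ) : ∑ m ∈ range N, c m • (G + (m : ℂ) • B).adjugate =
    G.det • (W * diagonal
      (fun l => ∑ m ∈ range N, c m * ∏ k ∈ univ.erase l, (1 + (m : ℂ) * (d k : ℂ))) * Wᴴ) := by
  have e : diagonal (fun l => ∑ m ∈ range N, c m * ∏ k ∈ univ.erase l, (1 + (m : ℂ) * (d k : ℂ))) =
      ∑ m ∈ range N, c m • diagonal (fun l => ∏ k ∈ univ.erase l, (1 + (m : ℂ) * (d k : ℂ))) := by
    ext a b
    by_cases e : a = b <;> simp [e, Matrix.sum_apply]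
  rw [e, Matrix.mul_sum, Matrix.sum_mul, Finset.smul_sum]
  refine Finset.sum_congr rfl fun m _ => ?_
  have := h.adj_comb 1 m
  rw [one_smul] at this
  rw [this, Matrix.mul_smul, Matrix.smul_mul, smul_comm]

theorem rank : B.rank = (univ.filter fun k => d k ≠ 0).card := by
  have hW := (isUnit_iff_isUnit_det _).mp h.unit
  have hW' : IsUnit Wᴴ.det := by rw [det_conjTranspose]; exact hW.star
  have := congrArg Matrix.rank h.h2
  rw [rank_mul_eq_left_of_isUnit_det _ _ hW, rank_mul_eq_right_of_isUnit_det _ _ hW',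
    rank_diagonal, Fintype.card_subtype, filt] at this
  exact this

theorem topD_eq {j : ℕ} (hj : B.rank ≤ j) : topD j G B = (aa j d : ℂ) * G.det := by
  rw [h.rank] at hj
  have e : ∀ m : ℕ, (G + (m : ℂ) • B).det = G.det * ∏ i, (1 + (m : ℂ) * (d i : ℂ)) := fun m => by
    simpa using h.det_comb 1 m
  have := fd_prod univ (fun k => (d k : ℂ)) (j := j) (by rwa [filt])
  rw [filt] at this
  simp only [topD, e]
  calc _ = (∑ m ∈ range (j + 1), fw j m * ∏ i, (1 + (m : ℂ) * (d i : ℂ))) * G.det := by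
        rw [Finset.sum_mul]; exact Finset.sum_congr rfl fun m _ => by ring
    _ = _ := by rw [this, aa]; split_ifs <;> simp

theorem topA_eq {j : ℕ} (hj : B.rank ≤ j) : topA j G B = aa j d := by
  rw [topA, h.topD_eq hj, mul_div_assoc, div_self h.det_ne, mul_one, Complex.ofReal_re]

theorem topS_eq {j : ℕ} (hj : B.rank ≤ j) :
    topS j G B = ((aa j d : ℂ) * G.det) • (W * diagonal (kz d) * Wᴴ) := by
  rw [h.rank] at hj
  have e : diagonal (fun l => ∑ m ∈ range (j + 1),
      fw j m * ∏ k ∈ univ.erase l, (1 + (m : ℂ) * (d k : ℂ))) = (aa j d : ℂ) • diagonal (kz d) := by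
    rw [← diagonal_smul]
    congr 1
    funext l
    rw [fd_prod _ (fun k => (d k : ℂ)) (by rw [filt]; exact card_er hj l), filt, Pi.smul_apply,
      smul_eq_mul, ← aa_kz hj l]
    split_ifs <;> simp
  rw [topS, h.sum_adj, e, Matrix.mul_smul, Matrix.smul_mul, smul_smul, mul_comm]

theorem aa_nonneg (j : ℕ) : 0 ≤ aa j d := by
  unfold aa
  split_ifs
  · exact prod_nonneg fun k _ => h.hd k
  · exact le_rfl

theorem aa_pos (j : ℕ) : 0 < aa j d ↔ B.rank = j := by
  rw [h.rank, aa]
  split_ifs with e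
  · simp only [e, iff_true]
    exact prod_pos fun k hk => lt_of_le_of_ne (h.hd k) (mem_filter.mp hk).2.symm
  · simp [e]

theorem aa_le (j : ℕ) : aa j d ≤ ∏ k, (1 + d k) := by
  have h0 : ∀ k, 0 ≤ 1 + d k := fun k => by linarith [h.hd k]
  unfold aa
  split_ifs
  · rw [prod_filter]
    refine prod_le_prod (fun k _ => ?_) fun k _ => ?_
    · split_ifs
      · exact h.hd k
      · exact zero_le_one
    · split_ifs <;> linarith [h.hd k]
  · exact prod_nonneg fun k _ => h0 k

theorem psd_down {A : Mat n} (f : Fin n → ℝ) (e : Wᴴ * A * W = diagonal fun i => (f i : ℂ)) :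
    A.PosSemidef ↔ ∀ i, 0 ≤ f i := by
  rw [← h.unit.posSemidef_star_left_conjugate_iff, star_eq_conjTranspose, e,
    posSemidef_diagonal_iff]
  exact forall_congr' fun i => by norm_cast

theorem pd_down {A : Mat n} (f : Fin n → ℝ) (e : Wᴴ * A * W = diagonal fun i => (f i : ℂ)) :
    A.PosDef ↔ ∀ i, 0 < f i := by
  rw [← h.unit.posDef_star_left_conjugate_iff, star_eq_conjTranspose, e, posDef_diagonal_iff]
  exact forall_congr' fun i => by norm_cast

theorem beta_w : B * W = G * W * diagonal fun i => (d i : ℂ) := by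
  rw [← h.h2]
  calc B * W = G * W * Wᴴ * (B * W) := by rw [h.vw, Matrix.one_mul]
    _ = _ := by simp only [Matrix.mul_assoc]

theorem w_beta : Wᴴ * B = (diagonal fun i => (d i : ℂ)) * (Wᴴ * G) := by
  rw [← h.h2]
  calc Wᴴ * B = Wᴴ * B * (W * (Wᴴ * G)) := by rw [h.wv, Matrix.mul_one]
    _ = _ := by simp only [Matrix.mul_assoc]

theorem til_eq {j : ℕ} (hj : B.rank ≤ j) : Wᴴ * til j G B * W =
    diagonal fun i => ((if d i = 0 then aa j d else d i : ℝ) : ℂ) := by
  have e : Wᴴ * (G * (W * diagonal (kz d) * Wᴴ) * G) * W = diagonal (kz d) := by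
    calc _ = (Wᴴ * G * W) * diagonal (kz d) * (Wᴴ * G * W) := by simp only [Matrix.mul_assoc]
      _ = _ := by rw [h.h1, Matrix.one_mul, Matrix.mul_one]
  rw [til, h.topS_eq hj, Matrix.mul_smul, Matrix.smul_mul, smul_smul, Matrix.mul_add,
    Matrix.add_mul, h.h2, Matrix.mul_smul, Matrix.smul_mul, e,
    show (G.det)⁻¹ * ((aa j d : ℂ) * G.det) = aa j d by field_simp [h.det_ne]]
  ext a b
  by_cases e : a = b
  · subst e
    by_cases e : d a = 0 <;> simp [kz, e]
  · simp [e]

theorem prod_one : ((G + B).det / G.det).re = ∏ k, (1 + d k) := by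
  have := h.det_comb 1 1
  simp only [one_smul, one_mul] at this
  rw [this, mul_div_cancel_left₀ _ h.det_ne]
  norm_cast

theorem det_one_one : (G + B).det = G.det * ((∏ k, (1 + d k) : ℝ) : ℂ) := by
  have := h.det_comb 1 1
  simp only [one_smul, one_mul] at this
  rw [this]; push_cast; rfl

theorem tr_top {j : ℕ} (hj : B.rank ≤ j) (T : Mat n) : (topS j G B * T).trace =
    topD j G B * ∑ i, star (kz d i • fun a => W a i) ⬝ᵥ T *ᵥ (kz d i • fun a => W a i) := by
  rw [h.topS_eq hj, h.topD_eq hj, Matrix.smul_mul, trace_smul, smul_eq_mul, Matrix.mul_assoc,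
    Matrix.mul_assoc, trace_mul_comm, Matrix.mul_assoc]
  congr 1
  refine Finset.sum_congr rfl fun i _ => ?_
  rw [diag_apply, diagonal_mul]
  by_cases e : d i = 0
  · simp [kz, e, Matrix.mul_apply, dotProduct, mulVec, Finset.mul_sum, Finset.sum_mul, mul_assoc]
    exact Finset.sum_comm
  · simp [kz, e]

theorem ker_col (i : Fin n) : B *ᵥ (kz d i • fun a => W a i) = 0 := by
  by_cases e : d i = 0
  · funext b
    have := congrFun (congrFun h.beta_w b) i
    rw [mul_diagonal, e] at this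
    simpa [kz, e, Matrix.mul_apply, mulVec, dotProduct] using this
  · simp [kz, e]

theorem ker_span {u : E n} (hu : B *ᵥ u = 0) :
    u = ∑ i, ((Wᴴ * G) *ᵥ u) i • (kz d i • fun a => W a i) := by
  have e1 : (diagonal fun i => (d i : ℂ)) *ᵥ ((Wᴴ * G) *ᵥ u) = 0 := by
    rw [mulVec_mulVec, ← h.w_beta, ← mulVec_mulVec, hu, mulVec_zero]
  have e2 : u = W *ᵥ ((Wᴴ * G) *ᵥ u) := by rw [mulVec_mulVec, h.wv, one_mulVec]
  generalize (Wᴴ * G) *ᵥ u = c at e1 e2
  funext b
  rw [e2, Finset.sum_apply, mulVec, dotProduct]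
  refine Finset.sum_congr rfl fun i _ => ?_
  have := congrFun e1 i
  rw [mulVec_diagonal] at this
  by_cases e : d i = 0
  · simp [kz, e, mul_comm]
  · have : c i = 0 := by simpa [e] using this
    simp [this]

end Fr

/-- The pointwise facts. -/
structure Top (j : ℕ) (G B : Mat n) : Prop where
  dA : topD j G B = (topA j G B : ℂ) * G.det
  nonneg : 0 ≤ topA j G B
  pos : 0 < topA j G B ↔ B.rank = j
  psd : (topS j G B).PosSemidef
  sb : topS j G B * B = 0
  bs : B * topS j G B = 0
  le : (topD j G B • G⁻¹ - topS j G B).PosSemidef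
  tr : (topS j G B * G).trace = ((n - j : ℕ) : ℂ) * topD j G B
  mono : ∀ T : Mat n, (T - B).PosSemidef → topA j G B ≤ ((G + T).det / G.det).re
  ker : ∃ v : Fin n → E n, (∀ i, B *ᵥ v i = 0) ∧
    (∀ u : E n, B *ᵥ u = 0 → ∃ c : Fin n → ℂ, u = ∑ i, c i • v i) ∧
    ∀ T : Mat n, (topS j G B * T).trace = topD j G B * ∑ i, star (v i) ⬝ᵥ T *ᵥ v i
  tpsd : (til j G B).PosSemidef
  tlow : ∀ K : ℝ, 1 ≤ K → ((K : ℂ) • G - B).PosSemidef →
    (((K ^ j : ℝ) : ℂ) • til j G B - (topA j G B : ℂ) • G).PosSemidef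
  tpd : B.rank = j → (til j G B).PosDef ∧ B * (til j G B)⁻¹ * B = B
  adj : j < n → ∀ ε : ℝ, 0 < ε → ε ≤ 1 → ∃ R : Mat n, R.PosSemidef ∧
    ((G + B).det • G⁻¹ - R).PosSemidef ∧
    (B + (ε : ℂ) • G).adjugate = (ε : ℂ) ^ (n - 1 - j) • (topS j G B + (ε : ℂ) • R)
  det : ∀ ε : ℝ, 0 < ε → ε ≤ 1 → (B + (ε : ℂ) • G).det.re ≤ ε ^ (n - j) * (G + B).det.re
  one : ∀ w : E n, star w ⬝ᵥ topS j G B *ᵥ w = topD (j + 1) G (B + vecMulVec w (star w))

theorem up_sub (W : Mat n) (c : ℂ) (f : Fin n → ℂ) :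
    c • (W * Wᴴ) - W * diagonal f * Wᴴ = W * diagonal (fun i => c - f i) * Wᴴ := by
  have : diagonal (fun i => c - f i) = c • (1 : Mat n) - diagonal f := by
    ext a b
    by_cases e : a = b <;> simp [e, one_apply]
  rw [this, Matrix.mul_sub, Matrix.sub_mul, Matrix.mul_smul, Matrix.smul_mul, Matrix.mul_one]

theorem up_smul (W : Mat n) (c : ℂ) (f : Fin n → ℂ) :
    c • (W * diagonal f * Wᴴ) = W * diagonal (fun i => c * f i) * Wᴴ := by
  rw [← Matrix.smul_mul, ← Matrix.mul_smul, ← diagonal_smul]; rfl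

theorem det_rank_one {A : Mat n} (hA : A.det ≠ 0) (u v : E n) :
    (A + vecMulVec u v).det = A.det + v ⬝ᵥ A.adjugate *ᵥ u := by
  have hu : IsUnit A.det := hA.isUnit
  have e : A + vecMulVec u v = A * (1 + replicateCol Unit (A⁻¹ *ᵥ u) * replicateRow Unit v) := by
    rw [Matrix.mul_add, Matrix.mul_one, ← vecMulVec_eq, mul_vecMulVec, mulVec_mulVec,
      mul_nonsing_inv _ hu, one_mulVec]
  rw [e, det_mul, det_one_add_replicateCol_mul_replicateRow, Matrix.inv_def, smul_mulVec,
    dotProduct_smul, Ring.inverse_eq_inv', smul_eq_mul]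
  field_simp

theorem top {j : ℕ} {G B : Mat n} (hG : G.PosDef) (hB : B.PosSemidef) (hj : B.rank ≤ j) :
    Top j G B := by
  obtain ⟨W, d, h⟩ := exists_fr hG hB
  have hA := h.topA_eq hj
  have hD := h.topD_eq hj
  have hS := h.topS_eq hj
  have ha := h.aa_nonneg j
  have hg : 0 < G.det.re := HS76.det_re_pos hG
  have hr : G.det = (G.det.re : ℂ) := by
    have := hG.det_pos
    exact Complex.ext rfl (by simpa using (Complex.lt_def.mp this).2.symm)
  have hc : (univ.filter fun k => d k ≠ 0).card ≤ j := h.rank ▸ hj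
  have hk : ∀ i, kz d i = ((if d i = 0 then 1 else 0 : ℝ) : ℂ) := fun i => by
    unfold kz; split_ifs <;> simp
  refine ⟨by rw [hA, hD], hA ▸ ha, hA ▸ h.aa_pos j, ?_, ?_, ?_, ?_, ?_, ?_, ?_, ?_, ?_, ?_, ?_, ?_,
    ?_⟩
  · rw [hS, up_smul, hr]
    simp only [hk, ← Complex.ofReal_mul]
    exact psd_up W _ fun i => by positivity
  · rw [hS, Matrix.smul_mul, Matrix.mul_assoc, h.w_beta, ← Matrix.mul_assoc,
      Matrix.mul_assoc W, kz_mul, Matrix.mul_zero, Matrix.zero_mul, smul_zero]
  · rw [hS, Matrix.mul_smul, ← Matrix.mul_assoc, ← Matrix.mul_assoc, h.beta_w,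
      Matrix.mul_assoc (G * W), mul_kz, Matrix.mul_zero, Matrix.zero_mul, smul_zero]
  · rw [hS, hD, h.inv, up_smul, up_sub, hr]
    simp only [hk, ← Complex.ofReal_mul, ← Complex.ofReal_sub]
    refine psd_up W _ fun i => ?_
    have := mul_nonneg ha hg.le
    split_ifs <;> linarith
  · rw [hS, hD, Matrix.smul_mul, trace_smul, Matrix.mul_assoc, trace_mul_cycle, h.h1,
      Matrix.one_mul, trace_diagonal, smul_eq_mul]
    by_cases e : (univ.filter fun k => d k ≠ 0).card = j
    · have h1 := card_filter_add_card_filter_not (s := (univ : Finset (Fin n))) (fun k => d k ≠ 0)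
      simp only [not_not, card_univ, Fintype.card_fin, e] at h1
      have h2 : ∑ i, kz d i = ((n - j : ℕ) : ℂ) := by
        rw [show n - j = (univ.filter fun k => d k = 0).card by omega]
        simp [kz]
      rw [h2, mul_comm]
    · simp [aa, e]
  · intro T hT
    have h1 := HS76.det_mono (B := G + T) (hG.add_posSemidef hB) (by simpa using hT)
    rw [hA, hr, Complex.div_ofReal_re, le_div_iff₀ hg]
    refine le_trans ?_ h1
    rw [h.det_one_one, Complex.re_mul_ofReal, mul_comm]
    exact mul_le_mul_of_nonneg_left (h.aa_le j) hg.le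
  · exact ⟨_, h.ker_col, fun u hu => ⟨_, h.ker_span hu⟩, h.tr_top hj⟩
  · refine (h.psd_down _ (h.til_eq hj)).mpr fun i => ?_
    split_ifs
    · exact ha
    · exact h.hd i
  · intro K hK hKB
    have hd : ∀ i, d i ≤ K := by
      have := (h.psd_down (fun i => K - d i) (A := (K : ℂ) • G - B) (by
        have := h.comb K (-1)
        simpa [sub_eq_add_neg] using this)).mp hKB
      exact fun i => by linarith [this i]
    have hp : 1 ≤ K ^ j := one_le_pow₀ hK
    refine (h.psd_down (fun i => K ^ j * (if d i = 0 then aa j d else d i) - aa j d) ?_).mpr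
      fun i => ?_
    · rw [Matrix.mul_sub, Matrix.sub_mul, Matrix.mul_smul, Matrix.mul_smul, Matrix.smul_mul,
        Matrix.smul_mul, h.til_eq hj, h.h1, hA]
      ext a b
      by_cases e : a = b
      · subst e
        by_cases e : d a = 0 <;> simp [e]
      · simp [e]
    · split_ifs with e
      · nlinarith
      · have h0 := h.hd i
        unfold aa
        split_ifs with e2
        · rw [← mul_prod_erase _ _ (a := i) (by simp [e])]
          have h4 : ∏ k ∈ (univ.filter fun k => d k ≠ 0).erase i, d k ≤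
              K ^ ((univ.filter fun k => d k ≠ 0).erase i).card := by
            rw [← prod_const]; exact prod_le_prod (fun k _ => h.hd k) fun k _ => hd k
          have h5 := pow_le_pow_right₀ hK
            (card_erase_le.trans e2.le : ((univ.filter fun k => d k ≠ 0).erase i).card ≤ j)
          nlinarith
        · rw [sub_zero]; positivity
  · intro hr'
    have hp := (h.aa_pos j).mpr hr'
    have hq : ∀ i, 0 < (if d i = 0 then aa j d else d i) := fun i => by
      split_ifs with e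
      · exact hp
      · exact lt_of_le_of_ne (h.hd i) (Ne.symm e)
    refine ⟨(h.pd_down _ (h.til_eq hj)).mpr hq, ?_⟩
    have hi : (til j G B)⁻¹ =
        W * diagonal (fun i => (((if d i = 0 then aa j d else d i : ℝ) : ℂ))⁻¹) * Wᴴ := by
      apply inv_eq_right_inv
      calc _ = G * W * (Wᴴ * til j G B * W) * (Wᴴ * G * W) *
            diagonal (fun i => (((if d i = 0 then aa j d else d i : ℝ) : ℂ))⁻¹) * Wᴴ := by
            conv_lhs => rw [h.back (til j G B)]
            simp only [Matrix.mul_assoc]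
        _ = 1 := by
            rw [h.til_eq hj, h.h1, Matrix.mul_one, Matrix.mul_assoc (G * W), diagonal_mul_diagonal,
              show (diagonal fun i => ((if d i = 0 then aa j d else d i : ℝ) : ℂ) *
                (((if d i = 0 then aa j d else d i : ℝ) : ℂ))⁻¹) = (1 : Mat n) from ?_,
              Matrix.mul_one, h.vw]
            rw [← diagonal_one]
            congr 1; funext i
            exact mul_inv_cancel₀ (by exact_mod_cast (hq i).ne')
    rw [hi, ← Matrix.mul_assoc, ← Matrix.mul_assoc, h.beta_w, Matrix.mul_assoc, h.w_beta]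
    conv_rhs => rw [h.back B, h.h2]
    rw [← Matrix.mul_assoc, Matrix.mul_assoc (G * W), Matrix.mul_assoc (G * W),
      diagonal_mul_diagonal, diagonal_mul_diagonal]
    congr 3
    funext i
    by_cases e : d i = 0
    · simp [e]
    · have : (d i : ℂ) ≠ 0 := by exact_mod_cast e
      simp only [if_neg e]; field_simp
  · intro hn ε h0 h1
    have hx := fun l => exp_prod (univ.erase l) d h.hd h0 h1 (card_er hc l)
      (by rw [card_erase_of_mem (mem_univ l), card_univ, Fintype.card_fin]; omega)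
    choose r r0 r1 r2 using hx
    refine ⟨G.det • (W * diagonal (fun i => (r i : ℂ)) * Wᴴ), ?_, ?_, ?_⟩
    · rw [up_smul, hr]
      simp only [← Complex.ofReal_mul]
      exact psd_up W _ fun i => mul_nonneg hg.le (r0 i)
    · rw [h.det_one_one, h.inv, up_smul, up_sub, hr]
      simp only [← Complex.ofReal_mul, ← Complex.ofReal_sub]
      exact psd_up W _ fun i => by nlinarith [r1 i]
    · have := h.adj_comb ε 1
      rw [one_smul, add_comm] at this
      rw [this, hS, up_smul, up_smul, up_smul, up_smul, ← Matrix.add_mul, ← Matrix.mul_add,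
        diagonal_add, up_smul]
      congr 3
      funext l
      have e := congrArg (fun x : ℝ => (x : ℂ)) (r2 l)
      simp only [card_erase_of_mem (mem_univ l), card_univ, Fintype.card_fin, Complex.ofReal_mul,
        Complex.ofReal_add, aa_kz hc l, Complex.ofReal_prod, Complex.ofReal_pow] at e
      simp only [one_mul]
      rw [e]; ring
  · intro ε h0 h1
    have := h.det_comb ε 1
    rw [one_smul, add_comm] at this
    have e : ∏ i, ((ε : ℂ) + 1 * (d i : ℂ)) = ((∏ i, (ε + d i) : ℝ) : ℂ) := by push_cast; simp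
    rw [this, e, h.det_one_one, Complex.re_mul_ofReal, Complex.re_mul_ofReal, mul_left_comm,
      prod_split univ d ε, card_univ, Fintype.card_fin]
    refine mul_le_mul_of_nonneg_left ?_ hg.le
    obtain ⟨g1, g2, -⟩ := prod_gap (univ.filter fun k => d k ≠ 0) d h.hd h0.le h1
    exact mul_le_mul (pow_le_pow_of_le_one h0.le h1 (by omega)) (g2.trans (prod_sub_le _ d h.hd))
      ((prod_nonneg fun k _ => h.hd k).trans g1) (pow_nonneg h0.le _)
  · intro w
    have e : ∀ m : ℕ, (G + (m : ℂ) • (B + vecMulVec w (star w))).det = (G + (m : ℂ) • B).det +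
        m * (star w ⬝ᵥ (G + (m : ℂ) • B).adjugate *ᵥ w) := fun m => by
      have hm : (G + (m : ℂ) • B).PosDef := hG.add_posSemidef (hB.smul (by exact_mod_cast m.zero_le))
      rw [smul_add, ← add_assoc, ← smul_vecMulVec, det_rank_one hm.det_pos.ne', mulVec_smul,
        dotProduct_smul, smul_eq_mul]
    have e0 : topD (j + 1) G B = 0 := by
      rw [h.topD_eq (hj.trans j.le_succ), aa, if_neg (by omega)]; simp
    have e1 : ∑ m ∈ range (j + 1 + 1), (fw (j + 1) m * m) • (G + (m : ℂ) • B).adjugate =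
        topS j G B := by
      rw [topS, h.sum_adj, h.sum_adj]
      congr 4
      funext l
      exact fd_prod_mul _ (fun k => (d k : ℂ)) (by rw [filt]; exact card_er hc l)
    rw [topD] at e0 ⊢
    simp only [e, mul_add, Finset.sum_add_distrib, e0, zero_add, ← e1, Matrix.sum_mulVec,
      dotProduct_sum, smul_mulVec, dotProduct_smul, smul_eq_mul, mul_assoc]

/-- Change of basis. -/
theorem topD_conj (j : ℕ) (G B J : Mat n) :
    topD j (Jᴴ * G * J) (Jᴴ * B * J) = Jᴴ.det * topD j G B * J.det := by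
  simp only [topD, Finset.mul_sum, Finset.sum_mul]
  refine Finset.sum_congr rfl fun m _ => ?_
  rw [← Matrix.smul_mul, ← Matrix.mul_smul, ← Matrix.add_mul, ← Matrix.mul_add, det_mul, det_mul]
  ring

theorem topS_conj (j : ℕ) (G B J : Mat n) :
    topS j (Jᴴ * G * J) (Jᴴ * B * J) = J.adjugate * topS j G B * (J.adjugate)ᴴ := by
  simp only [topS, Matrix.mul_sum, Matrix.sum_mul]
  refine Finset.sum_congr rfl fun m _ => ?_
  rw [← Matrix.smul_mul, ← Matrix.mul_smul, ← Matrix.add_mul, ← Matrix.mul_add,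
    adjugate_mul_distrib, adjugate_mul_distrib, adjugate_conjTranspose, Matrix.mul_smul,
    Matrix.smul_mul, Matrix.mul_assoc]

theorem topA_conj (j : ℕ) (G B : Mat n) {J : Mat n} (hJ : J.det ≠ 0) :
    topA j (Jᴴ * G * J) (Jᴴ * B * J) = topA j G B := by
  have : Jᴴ.det ≠ 0 := by rw [det_conjTranspose]; exact star_ne_zero.mpr hJ
  rw [topA, topA, topD_conj, det_mul, det_mul, mul_div_mul_right _ _ hJ, mul_div_mul_left _ _ this]

theorem til_conj (j : ℕ) (G B : Mat n) {J : Mat n} (hJ : J.det ≠ 0) :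
    til j (Jᴴ * G * J) (Jᴴ * B * J) = Jᴴ * til j G B * J := by
  have h0 : Jᴴ.det ≠ 0 := by rw [det_conjTranspose]; exact star_ne_zero.mpr hJ
  have e : Jᴴ * G * J * (J.adjugate * topS j G B * (J.adjugate)ᴴ) * (Jᴴ * G * J) =
      (J.det * Jᴴ.det) • (Jᴴ * (G * topS j G B * G) * J) := by
    calc _ = Jᴴ * G * (J * J.adjugate) * topS j G B * (Jᴴ.adjugate * Jᴴ) * G * J := by
          rw [adjugate_conjTranspose]; simp only [Matrix.mul_assoc]
      _ = _ := by
          rw [mul_adjugate, adjugate_mul]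
          simp only [Matrix.mul_smul, Matrix.smul_mul, Matrix.mul_one, Matrix.mul_assoc, smul_smul,
            mul_comm]
  rw [til, til, topS_conj, e, smul_smul, Matrix.mul_add, Matrix.add_mul, Matrix.mul_smul,
    Matrix.smul_mul, det_mul, det_mul]
  congr 2
  by_cases hg : G.det = 0
  · simp [hg]
  · field_simp

/-- The trace pairing with a form is a density. -/
theorem tr_conj (j : ℕ) (G B T J : Mat n) :
    (topS j (Jᴴ * G * J) (Jᴴ * B * J) * (Jᴴ * T * J)).trace =
      Jᴴ.det * (topS j G B * T).trace * J.det := by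
  rw [topS_conj]
  calc _ = ((J * J.adjugate) * topS j G B * (Jᴴ.adjugate * Jᴴ) * T).trace := by
        rw [← Matrix.mul_assoc, trace_mul_comm, adjugate_conjTranspose]
        simp only [Matrix.mul_assoc]
    _ = _ := by
        rw [mul_adjugate, adjugate_mul]
        simp only [Matrix.mul_smul, Matrix.smul_mul, Matrix.mul_one, Matrix.one_mul, trace_smul,
          smul_eq_mul]
        ring

section fields

variable {G B : E n → Mat n} {z : E n} {j : ℕ}

theorem sm_comb (hG : SmM G z) (hB : SmM B z) (c : ℂ) : SmM (fun w => G w + c • B w) z :=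
  hG.add (SmM.smul (f := fun _ => c) contDiffAt_const hB)

theorem sm_topS (hG : SmM G z) (hB : SmM B z) : SmM (fun w => topS j (G w) (B w)) z :=
  SmM.sum fun m _ => SmM.smul (f := fun _ => fw j m) contDiffAt_const (sm_comb hG hB m).adjugate

theorem cd_topD (hG : SmM G z) (hB : SmM B z) : ContDiffAt ℝ ∞ (fun w => topD j (G w) (B w)) z :=
  ContDiffAt.sum fun m _ => contDiffAt_const.mul (sm_comb hG hB m).det

theorem cd_topA (hG : SmM G z) (hB : SmM B z) (h0 : (G z).det ≠ 0) :
    ContDiffAt ℝ ∞ (fun w => topA j (G w) (B w)) z :=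
  cd_re (f := fun w => topD j (G w) (B w) * ((G w).det)⁻¹) ((cd_topD hG hB).mul (hG.det.inv h0))

theorem sm_til (hG : SmM G z) (hB : SmM B z) (h0 : (G z).det ≠ 0) :
    SmM (fun w => til j (G w) (B w)) z :=
  hB.add (SmM.smul (hG.det.inv h0) ((hG.mul (sm_topS hG hB)).mul hG))

theorem cl_comb (hG : SmM G z) (hB : SmM B z) (cG : ClM G z) (cB : ClM B z) (c : ℂ) :
    ClM (fun w => G w + c • B w) z := fun a b k => by
  have hc : SmM (fun w => c • B w) z := SmM.smul (f := fun _ => c) contDiffAt_const hB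
  have e := fun k => dM_smul (k := k) (f := fun _ => c) (differentiableAt_const c) hB
  rw [dM_add hG hc, dM_add hG hc, e, e]
  simp only [dz_const, zero_smul, zero_add, Matrix.add_apply, Matrix.smul_apply, cG a b k, cB a b k]

/-- The top coefficient of the cofactors of closed forms is divergence free. -/
theorem div_topS (hG : SmM G z) (hB : SmM B z) (cG : ClM G z) (cB : ClM B z) (a : Fin n) :
    ∑ i, dM i (fun w => topS j (G w) (B w)) z i a = 0 := by
  have e : ∀ i, dM i (fun w => topS j (G w) (B w)) z i a = ∑ m ∈ range (j + 1),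
      fw j m * dM i (fun w => (G w + (m : ℂ) • B w).adjugate) z i a := fun i => by
    simp only [dM, topS, of_apply, Matrix.sum_apply, Matrix.smul_apply, smul_eq_mul]
    refine (dz_sum (f := fun (m : ℕ) w => fw j m * (G w + (m : ℂ) • B w).adjugate i a) fun m _ =>
      ((sm_comb hG hB m).adjugate.diff i a).const_mul _).trans ?_
    exact Finset.sum_congr rfl fun m _ => dz_const_mul _ ((sm_comb hG hB m).adjugate.diff i a)
  simp only [e]
  rw [Finset.sum_comm]
  refine Finset.sum_eq_zero fun m _ => ?_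
  rw [← Finset.mul_sum, (stCOF n _ z (sm_comb hG hB m)).2.2.2.1 (cl_comb hG hB cG cB m) a, mul_zero]

theorem herm_topS {G B : Mat n} (hG : G.IsHermitian) (hB : B.IsHermitian) :
    (topS j G B).IsHermitian := by
  rw [IsHermitian, topS, conjTranspose_sum]
  refine Finset.sum_congr rfl fun m _ => ?_
  rw [conjTranspose_smul, adjugate_conjTranspose, conjTranspose_add, conjTranspose_smul, hG.eq,
    hB.eq]
  simp [fw]

theorem divb_topS (hG : SmM G z) (hB : SmM B z) (cG : ClM G z) (cB : ClM B z)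
    (hh : ∀ᶠ w in 𝓝 z, (G w).IsHermitian ∧ (B w).IsHermitian) (a : Fin n) :
    ∑ i, dMb i (fun w => topS j (G w) (B w)) z a i = 0 := by
  have e := fun i => dMb_herm (k := i) (sm_topS (j := j) hG hB) (hh.mono fun w hw => herm_topS hw.1 hw.2)
  simp only [e, conjTranspose_apply]
  rw [← star_sum, div_topS hG hB cG cB a, star_zero]

end fields

end Pool.Agent.Lib.RA28
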