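import Pool.Agent.Lib.SV.Hol85

/-! Zero sets of analytic functions are null. -/

open Set Filter Topology Metric MeasureTheory

set_option linter.unusedVariables false

noncomputable section

namespace Pool.Agent.Lib.RA

/-- The zero set of a real analytic function, not identically zero, is null and nowhere dense. -/
def St_NUL : Prop :=
  ∀ (E F : Type) [NormedAddCommGroup E] [NormedSpace ℝ E] [FiniteDimensional ℝ E]
    [MeasurableSpace E] [BorelSpace E] (μ : Measure E) [μ.IsAddHaarMeasure]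
    [NormedAddCommGroup F] [NormedSpace ℝ F] (O : Set E) (f : E → F), IsOpen O →
    IsPreconnected O → AnalyticOnNhd ℝ f O → (∃ z ∈ O, f z ≠ 0) →
    (∀ᵐ z ∂μ, z ∈ O → f z ≠ 0) ∧ ∀ z ∈ O, ∃ᶠ w in 𝓝 z, f w ≠ 0

/-- The same for holomorphic maps. -/
def St_NULH : Prop :=
  ∀ (E F : Type) [NormedAddCommGroup E] [NormedSpace ℂ E] [FiniteDimensional ℂ E]
    [MeasurableSpace E] [BorelSpace E] (μ : Measure E) [μ.IsAddHaarMeasure]
    [NormedAddCommGroup F] [NormedSpace ℂ F] [CompleteSpace F] (O : Set E) (f : E → F), IsOpen O →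
    IsPreconnected O → DifferentiableOn ℂ f O → (∃ z ∈ O, f z ≠ 0) →
    (∀ᵐ z ∂μ, z ∈ O → f z ≠ 0) ∧ ∀ z ∈ O, ∃ᶠ w in 𝓝 z, f w ≠ 0

namespace NUL
variable {E F : Type*} [NormedAddCommGroup E] [NormedSpace ℝ E] [FiniteDimensional ℝ E]
  [MeasurableSpace E] [BorelSpace E] (μ : Measure E) [μ.IsAddHaarMeasure]
  [NormedAddCommGroup F] [NormedSpace ℝ F]

theorem loc {O : Set E} {f : E → F} (hO : IsOpen O) (hc : ContinuousOn f O)
    (hl : ∀ y w (t : ℝ), y + t • w ∈ O → AnalyticAt ℝ (fun s : ℝ => f (y + s • w)) t) {x : E}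
    (hx : x ∈ O) (h0 : ∃ᶠ w in 𝓝 x, f w ≠ 0) :
    ∃ r > 0, ∀ᵐ z ∂μ, z ∈ ball x r → z ∈ O → f z ≠ 0 := by
  have : ProperSpace E := FiniteDimensional.proper ℝ E
  obtain ⟨R, hR, hRO⟩ := Metric.isOpen_iff.1 hO x hx
  obtain ⟨x', h1, h2⟩ := (h0.and_eventually (ball_mem_nhds x (by positivity : 0 < R / 4))).exists
  have hx' : x' ∈ O := hRO (ball_subset_ball (by linarith) h2)
  obtain ⟨d, hd, h3⟩ := Metric.eventually_nhds_iff_ball.1
    (((hc.continuousAt (hO.mem_nhds hx')).eventually_ne h1).and (ball_mem_nhds x' hR))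
  obtain ⟨w, hw⟩ : ∃ w, w = x' - x := ⟨_, rfl⟩
  have hwn : ‖w‖ < R / 4 := by rwa [hw, ← dist_eq_norm]
  obtain ⟨δ, hδ, hδ1, hδ2⟩ : ∃ δ > 0, δ ≤ d ∧ δ ≤ R / 4 :=
    ⟨min d (R / 4), by positivity, min_le_left _ _, min_le_right _ _⟩
  have hW : IsOpen {z | z ∈ O ∧ f z ≠ 0} := hc.isOpen_inter_preimage hO isOpen_compl_singleton
  have hm : MeasurableSet {p : E × ℝ | p.1 ∈ ball x δ → p.2 ∈ Ioo (-2 : ℝ) 2 →
      p.1 + p.2 • w ∈ {z | z ∈ O ∧ f z ≠ 0}} :=
    (measurable_fst measurableSet_ball).imp ((measurable_snd measurableSet_Ioo).imp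
      ((by fun_prop : Continuous fun p : E × ℝ => p.1 + p.2 • w).measurable hW.measurableSet))
  have h4 : ∀ᵐ y ∂μ, ∀ᵐ t : ℝ, y ∈ ball x δ → t ∈ Ioo (-2 : ℝ) 2 →
      y + t • w ∈ {z | z ∈ O ∧ f z ≠ 0} := ae_of_all _ fun y => by
    by_cases hy : y ∈ ball x δ
    swap
    · exact ae_of_all _ fun t h => absurd h hy
    have hmem : ∀ t ∈ Ioo (-2 : ℝ) 2, y + t • w ∈ O := fun t ht => hRO (by
      rw [mem_ball, dist_eq_norm] at hy ⊢
      have h5 : ‖t • w‖ ≤ 2 * ‖w‖ := by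
        rw [norm_smul]
        exact mul_le_mul_of_nonneg_right (abs_le.2 ⟨ht.1.le, ht.2.le⟩) (norm_nonneg _)
      have h6 := norm_add_le (y - x) (t • w)
      rw [add_sub_right_comm]
      linarith)
    have ha : AnalyticOnNhd ℝ (fun s : ℝ => f (y + s • w)) (Ioo (-2) 2) := fun t ht =>
      hl y w t (hmem t ht)
    rcases ha.eqOn_zero_or_eventually_ne_zero_of_preconnected isPreconnected_Ioo with h | h
    · refine absurd (h (show (1 : ℝ) ∈ Ioo (-2) 2 by norm_num)) (h3 _ ?_).1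
      rw [mem_ball, dist_eq_norm] at hy ⊢
      rw [one_smul, hw, show y + (x' - x) - x' = y - x by abel]
      linarith
    · have h5 := (ae_restrict_iff' measurableSet_Ioo).1
        (ae_restrict_le_codiscreteWithin (μ := volume) measurableSet_Ioo h)
      exact h5.mono fun t ht _ h6 => ⟨hmem t h6, ht h6⟩
  rw [Measure.ae_ae_comm hm] at h4
  have hp : 0 < min 2 (δ / 2 / (‖w‖ + 1)) := by positivity
  obtain ⟨t, ht, h5⟩ := Measure.exists_mem_of_measure_ne_zero_of_ae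
    (s := Ioo 0 (min 2 (δ / 2 / (‖w‖ + 1)))) (by simpa using hp) (ae_restrict_of_ae h4)
  refine ⟨δ / 2, half_pos hδ, ?_⟩
  filter_upwards [(measurePreserving_add_right μ (-(t • w))).quasiMeasurePreserving.ae h5]
    with z hz h6 _
  have h7 : ‖t • w‖ ≤ δ / 2 := by
    rw [norm_smul, Real.norm_of_nonneg ht.1.le]
    have h8 := (lt_div_iff₀ (by positivity)).1 (ht.2.trans_le (min_le_right _ _))
    nlinarith [ht.1]
  have h8 := hz (by
    rw [mem_ball, dist_eq_norm] at h6 ⊢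
    have h9 := norm_sub_le (z - x) (t • w)
    rw [show z + -(t • w) - x = z - x - t • w by abel]
    linarith) ⟨by linarith [ht.1], ht.2.trans_le (min_le_left _ _)⟩
  rw [neg_add_cancel_right] at h8
  exact h8.2

theorem glob {O : Set E} {f : E → F} (hO : IsOpen O) (hc : ContinuousOn f O)
    (hl : ∀ y w (t : ℝ), y + t • w ∈ O → AnalyticAt ℝ (fun s : ℝ => f (y + s • w)) t)
    (h0 : ∀ x ∈ O, ∃ᶠ w in 𝓝 x, f w ≠ 0) : ∀ᵐ z ∂μ, z ∈ O → f z ≠ 0 := by
  have : ProperSpace E := FiniteDimensional.proper ℝ E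
  refine measure_null_of_locally_null _ fun x hx => ?_
  have hxO : x ∈ O := by
    by_contra h
    exact hx fun h' => absurd h' h
  obtain ⟨r, hr, h1⟩ := loc μ hO hc hl hxO (h0 x hxO)
  refine ⟨_, inter_mem_nhdsWithin _ (ball_mem_nhds x hr), measure_mono_null ?_ h1⟩
  exact fun z hz h => hz.1 (h hz.2)

end NUL

theorem st_NUL : St_NUL := by
  intro E F _ _ _ _ _ μ _ _ _ O f hO hc ha ⟨z1, hz1, h1⟩
  have h0 : ∀ z ∈ O, ∃ᶠ w in 𝓝 z, f w ≠ 0 := fun z hz => not_eventually.1 fun h =>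
    h1 (ha.eqOn_zero_of_preconnected_of_eventuallyEq_zero hc hz h hz1)
  exact ⟨NUL.glob μ hO ha.continuousOn (fun y w t ht => (ha _ ht).comp_of_eq
    (f := fun s : ℝ => y + s • w) (by fun_prop) rfl) h0, h0⟩

theorem st_NULH : St_NULH := by
  intro E F _ _ _ _ _ μ _ _ _ _ O f hO hc hd ⟨z1, hz1, h1⟩
  have h0 : ∀ z ∈ O, ∃ᶠ w in 𝓝 z, f w ≠ 0 := fun z hz => not_eventually.1 fun h =>
    h1 (SV.H85.eqOn_zero_of_preconnected hO hc hd hz h hz1)
  refine ⟨NUL.glob μ hO hd.continuousOn (fun y w t ht => ?_) h0, h0⟩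
  have hL : Differentiable ℂ fun s : ℂ => y + s • w := by fun_prop
  have h2 : AnalyticAt ℂ (fun s : ℂ => f (y + s • w)) t :=
    (hd.comp hL.differentiableOn (mapsTo_preimage _ O)).analyticAt
      ((hO.preimage hL.continuous).mem_nhds (by simpa using ht))
  simpa [Function.comp_def] using (h2.restrictScalars (𝕜 := ℝ)).comp
    (f := fun s : ℝ => (s : ℂ)) (Complex.ofRealCLM.analyticAt t)

end Pool.Agent.Lib.RA
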