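import Pool.Agent.Lib.RA.PDefs
import Pool.Agent.Lib.SV.Hol85

/-! Real forms of complex spaces: polarisation of real analytic functions and the identity theorem
on the diagonal. -/

open scoped Topology
open Set Complex Metric Filter

noncomputable section

namespace Pool.Agent.Lib.RA

open Pool.Agent.Lib.SV

/-- A real vector as a complex vector. -/
def rv {k : ℕ} (ξ : Fin k → ℝ) : E k := fun i => (ξ i : ℂ)

/-- Polarisation, without and with a real parameter. -/
def St_POL : Prop :=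
  (∀ (n : ℕ) (f : E n → ℝ) (c : E n), AnalyticAt ℝ f c → ∃ R > 0, ∃ F : E n × E n → ℂ,
    DifferentiableOn ℂ F (ball (dg c) R) ∧ ∀ z ∈ ball c R, F (dg z) = f z) ∧
  ∀ (k n : ℕ) (f : (Fin k → ℝ) × E n → ℝ) (ξ : Fin k → ℝ) (c : E n), AnalyticAt ℝ f (ξ, c) →
    ∃ R > 0, ∃ F : E k × E n × E n → ℂ, DifferentiableOn ℂ F (ball (rv ξ, dg c) R) ∧
      ∀ η ∈ ball ξ R, ∀ z ∈ ball c R, F (rv η, dg z) = f (η, z)

/-- The identity theorem on the diagonal, without and with a real parameter. -/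
def St_ID2 : Prop := ∀ (G : Type) [NormedAddCommGroup G] [NormedSpace ℂ G] [CompleteSpace G],
  (∀ (n : ℕ) (F : E n × E n → G) (O : Set (E n × E n)) (z₀ : E n), IsOpen O → IsPreconnected O →
    DifferentiableOn ℂ F O → dg z₀ ∈ O → (∀ᶠ z in 𝓝 z₀, F (dg z) = 0) → EqOn F 0 O) ∧
  ∀ (k n : ℕ) (F : E k × E n × E n → G) (O : Set (E k × E n × E n)) (ξ : Fin k → ℝ) (z₀ : E n),
    IsOpen O → IsPreconnected O → DifferentiableOn ℂ F O → (rv ξ, dg z₀) ∈ O →
    (∀ᶠ p : (Fin k → ℝ) × E n in 𝓝 (ξ, z₀), F (rv p.1, dg p.2) = 0) → EqOn F 0 O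

/-- `V` is a real form of `W`: an embedding `ι` and the projection `P` along `i V`. -/
structure RF (V W : Type*) [NormedAddCommGroup V] [NormedSpace ℝ V] [NormedAddCommGroup W]
    [NormedSpace ℂ W] where
  ι : V →L[ℝ] W
  P : W →L[ℝ] V
  left : ∀ v, P (ι v) = v
  rot : ∀ v, P (I • ι v) = 0
  split : ∀ w, w = ι (P w) - I • ι (P (I • w))

namespace RF

variable {V W V' W' G : Type*} [NormedAddCommGroup V] [NormedSpace ℝ V] [NormedAddCommGroup W]
  [NormedSpace ℂ W] [NormedAddCommGroup V'] [NormedSpace ℝ V'] [NormedAddCommGroup W']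
  [NormedSpace ℂ W'] [NormedAddCommGroup G] [NormedSpace ℂ G] [CompleteSpace G]

/-- Products of real forms. -/
def prod (A : RF V W) (B : RF V' W') : RF (V × V') (W × W') where
  ι := A.ι.prodMap B.ι
  P := A.P.prodMap B.P
  left v := Prod.ext (A.left v.1) (B.left v.2)
  rot v := Prod.ext (A.rot v.1) (B.rot v.2)
  split w := Prod.ext (A.split w.1) (B.split w.2)

/-- Real vectors. -/
def re (k : ℕ) : RF (Fin k → ℝ) (E k) where
  ι := ContinuousLinearMap.pi fun i => ofRealCLM.comp (ContinuousLinearMap.proj i)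
  P := ContinuousLinearMap.pi fun i => reCLM.comp (ContinuousLinearMap.proj i)
  left v := by ext i; simp
  rot v := by ext i; simp
  split w := by ext i; apply Complex.ext <;> simp

/-- Conjugation of vectors. -/
def cjL (n : ℕ) : E n →L[ℝ] E n :=
  ContinuousLinearMap.pi fun i => (conjCLE : ℂ →L[ℝ] ℂ).comp (ContinuousLinearMap.proj i)

/-- The diagonal. -/
def dia (n : ℕ) : RF (E n) (E n × E n) where
  ι := (ContinuousLinearMap.id ℝ (E n)).prod (cjL n)
  P := (1 / 2 : ℝ) • (ContinuousLinearMap.fst ℝ _ _ + (cjL n).comp (ContinuousLinearMap.snd ℝ _ _))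
  left v := by ext i; apply Complex.ext <;> simp [cjL] <;> ring
  rot v := by ext i; apply Complex.ext <;> simp [cjL]
  split w := by
    refine Prod.ext ?_ ?_ <;> ext i <;> apply Complex.ext <;> simp [cjL] <;> ring

lemma re_ι {k : ℕ} (ξ : Fin k → ℝ) : (re k).ι ξ = rv ξ := rfl

lemma dia_ι {n : ℕ} (z : E n) : (dia n).ι z = dg z := rfl

lemma prod_ι (A : RF V W) (B : RF V' W') (v : V × V') : (A.prod B).ι v = (A.ι v.1, B.ι v.2) := rfl

/-- A holomorphic map that vanishes on the real form near a point vanishes near that point. -/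
theorem ev_zero (A : RF V W) {F : W → G} {v : V} (hF : ∀ᶠ w in 𝓝 (A.ι v), DifferentiableAt ℂ F w)
    (h0 : ∀ᶠ x in 𝓝 v, F (A.ι x) = 0) : F =ᶠ[𝓝 (A.ι v)] 0 := by
  obtain ⟨r, hr, hb⟩ := Metric.mem_nhds_iff.1 hF
  obtain ⟨s, hs, hb'⟩ := Metric.mem_nhds_iff.1 h0
  have c1 : ∀ᶠ w in 𝓝 (A.ι v), ‖A.ι (A.P w) - A.ι v‖ + 2 * ‖A.ι (A.P (I • w))‖ < r :=
    (by fun_prop : Continuous fun w => ‖A.ι (A.P w) - A.ι v‖ +
      2 * ‖A.ι (A.P (I • w))‖).continuousAt.eventually_lt continuousAt_const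
      (by simpa [A.left, A.rot] using hr)
  have c2 : ∀ᶠ w in 𝓝 (A.ι v), ‖A.P w - v‖ + 2 * ‖A.P (I • w)‖ < s :=
    (by fun_prop : Continuous fun w => ‖A.P w - v‖ +
      2 * ‖A.P (I • w)‖).continuousAt.eventually_lt continuousAt_const
      (by simpa [A.left, A.rot] using hs)
  filter_upwards [c1, c2] with w h1 h2
  set a := A.P w
  set b := A.P (I • w)
  have hd : DifferentiableOn ℂ (fun t : ℂ => F (A.ι a - t • A.ι b)) (ball 0 2) := by
    intro t ht
    rw [mem_ball_zero_iff] at ht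
    have h3 : A.ι a - t • A.ι b ∈ ball (A.ι v) r := by
      rw [mem_ball, dist_eq_norm, sub_right_comm]
      refine (norm_sub_le _ _).trans_lt (lt_of_le_of_lt ?_ h1)
      rw [norm_smul]
      gcongr
    exact (DifferentiableAt.comp t (g := F) (hb h3) (by fun_prop)).differentiableWithinAt
  have hz : ∀ t : ℝ, |t| < 2 → F (A.ι a - (t : ℂ) • A.ι b) = 0 := by
    intro t ht
    have h3 : a - t • b ∈ ball v s := by
      rw [mem_ball, dist_eq_norm, sub_right_comm]
      refine (norm_sub_le _ _).trans_lt (lt_of_le_of_lt ?_ h2)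
      rw [norm_smul, Real.norm_eq_abs]
      gcongr
    have h4 := hb' h3
    simpa only [mem_ofPred_eq, map_sub, map_smul, coe_smul] using h4
  have hfr : ∃ᶠ t in 𝓝[≠] (0 : ℂ), F (A.ι a - t • A.ι b) = 0 := by
    have ht : Tendsto (fun t : ℝ => (t : ℂ)) (𝓝[≠] 0) (𝓝[≠] 0) := by
      refine tendsto_nhdsWithin_iff.2 ⟨?_, ?_⟩
      · exact (continuous_ofReal.tendsto' 0 0 (by simp)).mono_left nhdsWithin_le_nhds
      · filter_upwards [self_mem_nhdsWithin] with t ht using by simpa using ht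
    refine ht.frequently (Eventually.frequently ?_)
    filter_upwards [mem_nhdsWithin_of_mem_nhds (ball_mem_nhds (0 : ℝ) two_pos)] with t ht
    exact hz t (by simpa using ht)
  have key := (hd.analyticOnNhd isOpen_ball).eqOn_zero_of_preconnected_of_frequently_eq_zero
    (convex_ball 0 2).isPreconnected (mem_ball_self two_pos) hfr
    (show I ∈ ball (0 : ℂ) 2 by simp)
  rw [A.split w]
  exact key

/-- The identity theorem. -/
theorem eqOn_zero (A : RF V W) {F : W → G} {O : Set W} {v : V} (hO : IsOpen O)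
    (hc : IsPreconnected O) (hF : DifferentiableOn ℂ F O) (hv : A.ι v ∈ O)
    (h0 : ∀ᶠ x in 𝓝 v, F (A.ι x) = 0) : EqOn F 0 O :=
  H85.eqOn_zero_of_preconnected hO hc hF hv (A.ev_zero
    (mem_of_superset (hO.mem_nhds hv) fun _ hw => hF.differentiableAt (hO.mem_nhds hw)) h0)

/-- Real analytic maps on the real form extend holomorphically. -/
theorem pol [FiniteDimensional ℝ V] (A : RF V W) {f : V → G} {v : V} (hf : AnalyticAt ℝ f v) :
    ∃ F : W → G, AnalyticAt ℂ F (A.ι v) ∧ ∀ᶠ x in 𝓝 v, F (A.ι x) = f x := by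
  obtain ⟨p, r, hp⟩ := hf
  set e := Module.finBasis ℝ V
  set d := Module.finrank ℝ V
  let ℓ : Fin d → W →L[ℂ] ℂ := fun a =>
    StrongDual.extendRCLike ((LinearMap.toContinuousLinearMap (e.coord a)).comp A.P)
  have hℓ : ∀ a x, ℓ a (A.ι x) = (e.repr x a : ℝ) := fun a x => by
    simp [ℓ, StrongDual.extendRCLike_apply, A.left, A.rot]
  let q : FormalMultilinearSeries ℂ W G := fun k => ∑ α : Fin k → Fin d,
    ((ContinuousMultilinearMap.mkPiAlgebra ℂ (Fin k) ℂ).compContinuousLinearMap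
      fun j => ℓ (α j)).smulRight (p k fun j => e (α j))
  have hq : ∀ k (w : Fin k → W), q k w =
      ∑ α : Fin k → Fin d, (∏ j, ℓ (α j) (w j)) • p k fun j => e (α j) := fun k w => by
    simp [q]
  have hqp : ∀ k (x : V), (q k fun _ => A.ι x) = p k fun _ => x := fun k x => by
    rw [hq]
    conv_rhs => rw [← e.sum_repr x]
    rw [(p k).map_sum fun (_ : Fin k) a => e.repr x a • e a]
    refine Finset.sum_congr rfl fun α _ => ?_
    rw [(p k).map_smul_univ, ← coe_smul]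
    simp [hℓ]
  set B : ℝ := ∑ a, ‖ℓ a‖ * ‖e a‖ with hB
  have hB0 : 0 ≤ B := by positivity
  have hn : ∀ k, ‖q k‖ ≤ ‖p k‖ * B ^ k := fun k => by
    refine ContinuousMultilinearMap.opNorm_le_bound (by positivity) fun w => ?_
    rw [hq]
    refine (norm_sum_le _ _).trans ?_
    have e1 : B ^ k * ∏ j, ‖w j‖ = ∑ α : Fin k → Fin d, ∏ j, ‖ℓ (α j)‖ * ‖e (α j)‖ * ‖w j‖ := by
      rw [← Fintype.piFinset_univ, ← Finset.prod_univ_sum (fun _ => Finset.univ)
        fun j a => ‖ℓ a‖ * ‖e a‖ * ‖w j‖]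
      simp only [← Finset.sum_mul, ← hB, Finset.prod_mul_distrib, Finset.prod_const,
        Finset.card_univ, Fintype.card_fin]
    rw [mul_assoc, e1, Finset.mul_sum]
    refine Finset.sum_le_sum fun α _ => ?_
    rw [norm_smul, norm_prod]
    calc _ ≤ (∏ j, ‖ℓ (α j)‖ * ‖w j‖) * (‖p k‖ * ∏ j, ‖e (α j)‖) := by
          gcongr with j
          · exact (ℓ (α j)).le_opNorm _
          · exact (p k).le_opNorm _
      _ = _ := by simp only [Finset.prod_mul_distrib]; ring
  obtain ⟨s, hs0, hs⟩ : ∃ s : NNReal, 0 < s ∧ (s : ENNReal) < p.radius := by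
    obtain ⟨s, h1, h2⟩ := ENNReal.lt_iff_exists_nnreal_btwn.1 (hp.r_pos.trans_le hp.r_le)
    exact ⟨s, ENNReal.coe_pos.1 h1, h2⟩
  obtain ⟨C, -, hC⟩ := p.norm_mul_pow_le_of_lt_radius hs
  have hs' : (0 : ℝ) < s := hs0
  let t : NNReal := ⟨s / (B + 1), by positivity⟩
  have ht : (t : ENNReal) ≤ q.radius := by
    refine q.le_radius_of_bound C fun k => le_trans ?_ (hC k)
    change ‖q k‖ * ((s : ℝ) / (B + 1)) ^ k ≤ _
    calc _ ≤ ‖p k‖ * (B + 1) ^ k * ((s : ℝ) / (B + 1)) ^ k := by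
          gcongr
          exact (hn k).trans (by gcongr; linarith)
      _ = _ := by rw [div_pow]; field_simp
  have hq0 : 0 < q.radius :=
    (ENNReal.coe_pos.2 (by change (0 : ℝ) < s / (B + 1); positivity)).trans_le ht
  refine ⟨fun w => q.sum (w - A.ι v), ?_, ?_⟩
  · exact AnalyticAt.comp (g := q.sum) (f := fun w => w - A.ι v)
      (by rw [sub_self]; exact (q.hasFPowerSeriesOnBall hq0).analyticAt) (by fun_prop)
  · filter_upwards [Metric.eball_mem_nhds v hp.r_pos] with x hx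
    have h1 := hp.hasSum_sub hx
    rw [← map_sub, FormalMultilinearSeries.sum]
    simp only [hqp]
    exact h1.tsum_eq

/-- The same on balls. -/
theorem pol_ball [FiniteDimensional ℝ V] (A : RF V W) {f : V → G} {v : V}
    (hf : AnalyticAt ℝ f v) : ∃ R > 0, ∃ F : W → G, AnalyticOnNhd ℂ F (ball (A.ι v) R) ∧
      ∀ x ∈ ball v R, F (A.ι x) = f x := by
  obtain ⟨F, h1, h2⟩ := A.pol hf
  obtain ⟨r, hr, hb⟩ := Metric.mem_nhds_iff.1 h1.eventually_analyticAt
  obtain ⟨s, hs, hb'⟩ := Metric.mem_nhds_iff.1 h2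
  exact ⟨min r s, lt_min hr hs, F, fun w hw => hb (ball_subset_ball (min_le_left _ _) hw),
    fun x hx => hb' (ball_subset_ball (min_le_right _ _) hx)⟩

end RF

theorem st_POL : St_POL := by
  refine ⟨fun n f c hf => ?_, fun k n f ξ c hf => ?_⟩
  · obtain ⟨R, hR, F, h1, h2⟩ := (RF.dia n).pol_ball (ofRealCLM.analyticAt _ |>.comp hf)
    exact ⟨R, hR, F, h1.differentiableOn, h2⟩
  · obtain ⟨R, hR, F, h1, h2⟩ :=
      ((RF.re k).prod (RF.dia n)).pol_ball (ofRealCLM.analyticAt _ |>.comp hf)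
    exact ⟨R, hR, F, h1.differentiableOn, fun η hη z hz =>
      h2 (η, z) (by rw [← ball_prod_same]; exact ⟨hη, hz⟩)⟩

theorem st_ID2 : St_ID2 := fun _ _ _ _ =>
  ⟨fun n _ _ _ hO hc hF hz h0 => (RF.dia n).eqOn_zero hO hc hF hz h0,
    fun k n _ _ ξ z₀ hO hc hF hz h0 =>
      ((RF.re k).prod (RF.dia n)).eqOn_zero (v := (ξ, z₀)) hO hc hF hz h0⟩

end Pool.Agent.Lib.RA
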