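import Pool.Agent.Lib.RA.Blue0
import Pool.Agent.Lib.RA.T_POL
import Pool.Agent.Lib.HS32.MAll

/-! Project ra1, row PCOV: coverings by polar balls. -/

open scoped Classical Topology
open Set Metric Filter

noncomputable section

namespace Pool.Agent.Lib.RA

open Pool.Agent.Lib.HS32

theorem st_PCOV : St_PCOV := by
  intro n M _ φ O ha hO
  have h : ∀ x, ∃ ρ > 0, closedBall (M.ch x x) (4 * ρ) ⊆ (M.ch x).target ∧
      (M.ch x).symm '' closedBall (M.ch x x) (4 * ρ) ⊆ O x ∧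
      ∃ Φ, Plz (φ (M.ch x)) Φ (M.ch x x) (4 * ρ) := fun x => by
    obtain ⟨R, hR, F, h1, h2⟩ := st_POL.1 n _ _ (ha _ (Mf.ch_mem x) _ (Mf.ch_tgt x))
    have h3 : (M.ch x).symm ⁻¹' O x ∈ 𝓝 (M.ch x x) :=
      (M.ch x).continuousAt_symm (Mf.ch_tgt x) (by rw [Mf.ch_symm]; exact hO x)
    obtain ⟨s, hs, h4⟩ := Metric.nhds_basis_closedBall.mem_iff.1
      (inter_mem h3 ((M.ch x).open_target.mem_nhds (Mf.ch_tgt x)))
    have e : 4 * (min s R / 4) = min s R := by ring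
    refine ⟨min s R / 4, by positivity, ?_⟩
    rw [e]
    have h5 := (closedBall_subset_closedBall (min_le_left s R)).trans h4
    exact ⟨fun z hz => (h5 hz).2, image_subset_iff.2 fun z hz => (h5 hz).1, F,
      h1.mono (ball_subset_ball (min_le_right _ _)),
      fun z hz => h2 z (ball_subset_ball (min_le_right _ _) hz)⟩
  choose ρ h0 h1 h2 h3 using h
  obtain ⟨V, hV⟩ := BCOV.cov_of M mTR M.ch (fun x => M.ch x x) ρ Mf.ch_mem h0 h1
    fun x => ⟨Mf.mem_ch x, mem_ball_self (h0 x)⟩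
  refine ⟨V, fun a => ?_, fun a => ?_⟩ <;> obtain ⟨x, e1, e2, e3⟩ := hV a <;> rw [e1, e2, e3]
  exacts [h3 x, ⟨x, h2 x⟩]

end Pool.Agent.Lib.RA
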