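import Pool.Agent.Lib.RA.PDefs

/-! Directional derivatives of analytic functions; matrices of bounded rank. -/

open scoped Classical Topology ContDiff ComplexOrder Matrix
open Set Complex Metric Filter

set_option linter.unusedVariables false
set_option linter.unusedSectionVars false

noncomputable section

namespace Pool.Agent.Lib.RA

open Pool.Agent.Lib.SV (E)
open Pool.Agent.Lib.HS32

namespace R21

/-- The complex derivative in the direction `a`. -/
def Dv {Y : Type} [NormedAddCommGroup Y] [NormedSpace ℂ Y] (a : Y) (f : Y → ℂ) (y : Y) : ℂ :=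
  fderiv ℂ f y a

section dv

variable {Y : Type} [NormedAddCommGroup Y] [NormedSpace ℂ Y] {f g : Y → ℂ} {y : Y}

lemma Dv_an (a : Y) (hf : AnalyticAt ℂ f y) : AnalyticAt ℂ (Dv a f) y := by
  have h := (ContinuousLinearMap.apply ℂ ℂ a).analyticAt (fderiv ℂ f y)
  exact h.comp hf.fderiv

lemma Dv_congr (a : Y) (h : f =ᶠ[𝓝 y] g) : Dv a f =ᶠ[𝓝 y] Dv a g := by
  filter_upwards [h.fderiv (𝕜 := ℂ)] with x hx
  simp only [Dv, hx]

lemma Dv_Dv (a b : Y) (hf : AnalyticAt ℂ f y) :
    Dv a (Dv b f) y = fderiv ℂ (fderiv ℂ f) y a b := by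
  have h : HasFDerivAt (Dv b f) ((ContinuousLinearMap.apply ℂ ℂ b).comp
      (fderiv ℂ (fderiv ℂ f) y)) y :=
    (ContinuousLinearMap.apply ℂ ℂ b).hasFDerivAt.comp y hf.fderiv.differentiableAt.hasFDerivAt
  show fderiv ℂ (Dv b f) y a = _
  rw [h.fderiv]; rfl

lemma Dv_comm (a b : Y) (hf : AnalyticAt ℂ f y) : Dv a (Dv b f) y = Dv b (Dv a f) y := by
  rw [Dv_Dv a b hf, Dv_Dv b a hf]
  exact (hf.contDiffAt (n := ω)).isSymmSndFDerivAt_of_omega a b

lemma Dv_comm_ev (a b : Y) (hf : AnalyticAt ℂ f y) : Dv a (Dv b f) =ᶠ[𝓝 y] Dv b (Dv a f) := by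
  filter_upwards [hf.eventually_analyticAt] with x hx using Dv_comm a b hx

lemma Dv_mul (a : Y) (hf : AnalyticAt ℂ f y) (hg : AnalyticAt ℂ g y) :
    Dv a (fun x => f x * g x) y = Dv a f y * g y + f y * Dv a g y := by
  simp only [Dv]
  rw [fderiv_fun_mul hf.differentiableAt hg.differentiableAt]
  simp only [add_apply, smul_apply, smul_eq_mul]
  ring

lemma Dv_add (a : Y) (hf : AnalyticAt ℂ f y) (hg : AnalyticAt ℂ g y) :
    Dv a (fun x => f x + g x) y = Dv a f y + Dv a g y := by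
  simp only [Dv]
  rw [fderiv_fun_add hf.differentiableAt hg.differentiableAt]
  rfl

lemma Dv_sub (a : Y) (hf : AnalyticAt ℂ f y) (hg : AnalyticAt ℂ g y) :
    Dv a (fun x => f x - g x) y = Dv a f y - Dv a g y := by
  simp only [Dv]
  rw [fderiv_fun_sub hf.differentiableAt hg.differentiableAt]
  rfl

lemma Dv_const (a : Y) (c : ℂ) : Dv a (fun _ : Y => c) y = 0 := by
  simp [Dv]

lemma Dv_sum {ι : Type} (s : Finset ι) (a : Y) {u : ι → Y → ℂ}
    (hu : ∀ i ∈ s, AnalyticAt ℂ (u i) y) :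
    Dv a (fun x => ∑ i ∈ s, u i x) y = ∑ i ∈ s, Dv a (u i) y := by
  simp only [Dv]
  rw [fderiv_fun_sum fun i hi => (hu i hi).differentiableAt]
  simp

lemma Dv_mul_const (a : Y) (c : ℂ) (hf : AnalyticAt ℂ f y) :
    Dv a (fun x => f x * c) y = Dv a f y * c := by
  rw [Dv_mul a hf analyticAt_const, Dv_const]; ring

lemma Dv_const_mul (a : Y) (c : ℂ) (hf : AnalyticAt ℂ f y) :
    Dv a (fun x => c * f x) y = c * Dv a f y := by
  rw [Dv_mul a analyticAt_const hf, Dv_const]; ring

lemma Dv_dir_sum {ι : Type} (s : Finset ι) (c : ι → ℂ) (a : ι → Y) (f : Y → ℂ) (y : Y) :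
    Dv (∑ i ∈ s, c i • a i) f y = ∑ i ∈ s, c i * Dv (a i) f y := by
  simp [Dv, map_sum]

lemma Dv_dir_add (a b : Y) (f : Y → ℂ) (y : Y) : Dv (a + b) f y = Dv a f y + Dv b f y := by
  simp [Dv]

/-- First derivative of a product of three with the outer factors vanishing. -/
lemma Dv_three {A H B : Y → ℂ} (a : Y) (hA : AnalyticAt ℂ A y) (hH : AnalyticAt ℂ H y)
    (hB : AnalyticAt ℂ B y) :
    Dv a (fun x => A x * H x * B x) y
      = Dv a A y * H y * B y + A y * Dv a H y * B y + A y * H y * Dv a B y := by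
  rw [Dv_mul a (hA.fun_mul hH) hB, Dv_mul a hA hH]; ring

lemma Dv2_three {A H B : Y → ℂ} (a b : Y) (hA : AnalyticAt ℂ A y) (hH : AnalyticAt ℂ H y)
    (hB : AnalyticAt ℂ B y) (hA0 : A y = 0) (hB0 : B y = 0) :
    Dv a (Dv b (fun x => A x * H x * B x)) y
      = Dv a A y * H y * Dv b B y + Dv b A y * H y * Dv a B y := by
  have h1 : Dv b (fun x => A x * H x * B x) =ᶠ[𝓝 y]
      fun x => Dv b A x * H x * B x + A x * Dv b H x * B x + A x * H x * Dv b B x := by
    filter_upwards [hA.eventually_analyticAt, hH.eventually_analyticAt,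
      hB.eventually_analyticAt] with x h1 h2 h3 using Dv_three b h1 h2 h3
  have a1 := Dv_an b hA
  have a2 := Dv_an b hH
  have a3 := Dv_an b hB
  rw [(Dv_congr a h1).self_of_nhds,
    Dv_add a (((a1.fun_mul hH).fun_mul hB).fun_add ((hA.fun_mul a2).fun_mul hB))
      ((hA.fun_mul hH).fun_mul a3),
    Dv_add a ((a1.fun_mul hH).fun_mul hB) ((hA.fun_mul a2).fun_mul hB),
    Dv_three a a1 hH hB, Dv_three a hA a2 hB, Dv_three a hA hH a3, hA0, hB0]
  ring

lemma det_an {ι : Type} [Fintype ι] [DecidableEq ι] {G : Y → Matrix ι ι ℂ}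
    (hG : ∀ i j, AnalyticAt ℂ (fun x => G x i j) y) : AnalyticAt ℂ (fun x => (G x).det) y := by
  simp only [Matrix.det_apply']
  exact Finset.analyticAt_fun_sum _ fun σ _ =>
    analyticAt_const.fun_mul (Finset.analyticAt_fun_prod _ fun i _ => hG _ _)

lemma inv_an {ι : Type} [Fintype ι] [DecidableEq ι] {G : Y → Matrix ι ι ℂ}
    (hG : ∀ i j, AnalyticAt ℂ (fun x => G x i j) y) (h0 : (G y).det ≠ 0) (i j : ι) :
    AnalyticAt ℂ (fun x => (G x)⁻¹ i j) y := by
  have h1 : (fun x => (G x)⁻¹ i j)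
      = fun x => ((G x).det)⁻¹ * ((G x).updateRow j (Pi.single i 1)).det := by
    funext x
    rw [Matrix.inv_def, Matrix.smul_apply, Matrix.adjugate_apply, Ring.inverse_eq_inv, smul_eq_mul]
  rw [h1]
  refine ((det_an hG).fun_inv h0).fun_mul (det_an fun a b => ?_)
  by_cases h : a = j
  · subst h
    simp only [Matrix.updateRow_self]
    exact analyticAt_const
  · simp only [Matrix.updateRow_ne h]
    exact hG a b

end dv

section rk

variable {n r : ℕ}

/-- A matrix of rank at most `r` is determined by the rows and columns of an invertible minor. -/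
lemma schur {m : Type} [Fintype m] (G : Matrix m (Fin n) ℂ) (I : Fin r → m) (J : Fin r → Fin n)
    (hr : G.rank ≤ r) (h : (G.submatrix I J).det ≠ 0) :
    G = G.submatrix id J * (G.submatrix I J)⁻¹ * G.submatrix I id := by
  have hu : IsUnit (G.submatrix I J).det := isUnit_iff_ne_zero.mpr h
  have hli : LinearIndependent ℂ (fun i : Fin r => G (I i)) := by
    have h1 : LinearIndependent ℂ (G.submatrix I J).row :=
      Matrix.linearIndependent_rows_iff_isUnit.mpr ((Matrix.isUnit_iff_isUnit_det _).mpr hu)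
    exact LinearIndependent.of_comp (LinearMap.funLeft ℂ ℂ J) h1
  have hsp : Submodule.span ℂ (range fun i : Fin r => G (I i)) = Submodule.span ℂ (range G.row) := by
    apply Submodule.eq_of_le_of_finrank_le
    · exact Submodule.span_mono (by rintro _ ⟨i, rfl⟩; exact ⟨I i, rfl⟩)
    · rw [finrank_span_eq_card hli, Fintype.card_fin, ← Matrix.rank_eq_finrank_span_row]
      exact hr
  have hc : ∀ a : m, ∃ c : Fin r → ℂ, ∑ i, c i • G (I i) = G a := fun a => by
    have : G a ∈ Submodule.span ℂ (range fun i : Fin r => G (I i)) := by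
      rw [hsp]; exact Submodule.subset_span ⟨a, rfl⟩
    exact (Submodule.mem_span_range_iff_exists_fun ℂ).mp this
  choose c hc using hc
  have h2 : G = Matrix.of c * G.submatrix I id := by
    ext a b
    rw [← hc a]
    simp [Matrix.mul_apply, Finset.sum_apply]
  have h3 : G.submatrix id J = Matrix.of c * G.submatrix I J := by
    ext a b
    simp only [Matrix.submatrix_apply, id]
    rw [← hc a]
    simp [Matrix.mul_apply, Finset.sum_apply]
  rw [h3, Matrix.mul_nonsing_inv_cancel_right _ _ hu]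
  exact h2

end rk

section pol

variable {n : ℕ} {F : E n × E n → ℂ} {y : E n × E n}

lemma pz_eq (F : E n × E n → ℂ) (j : Fin n) :
    (fun x => pz F x j) = Dv ((Pi.single j 1 : E n), (0 : E n)) F := rfl

lemma pu_eq (F : E n × E n → ℂ) (i : Fin n) :
    (fun x => pu F x i) = Dv ((0 : E n), (Pi.single i 1 : E n)) F := rfl

lemma Gm_eq (F : E n × E n → ℂ) (i j : Fin n) :
    (fun x => Gm F x i j)
      = Dv ((0 : E n), (Pi.single i 1 : E n)) (Dv ((Pi.single j 1 : E n), (0 : E n)) F) := rfl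

lemma pz_an (hF : AnalyticAt ℂ F y) (j : Fin n) : AnalyticAt ℂ (fun x => pz F x j) y :=
  Dv_an _ hF

lemma pu_an (hF : AnalyticAt ℂ F y) (j : Fin n) : AnalyticAt ℂ (fun x => pu F x j) y :=
  Dv_an _ hF

lemma Gm_an (hF : AnalyticAt ℂ F y) (i j : Fin n) : AnalyticAt ℂ (fun x => Gm F x i j) y :=
  Dv_an _ (Dv_an _ hF)

lemma dirz (v : E n) : ((v, 0) : E n × E n) = ∑ j, v j • ((Pi.single j 1 : E n), (0 : E n)) := by
  ext k
  · simp [Prod.fst_sum, Finset.sum_apply, Pi.single_apply]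
  · simp [Prod.snd_sum]

lemma diru (w : E n) : ((0, w) : E n × E n) = ∑ j, w j • ((0 : E n), (Pi.single j 1 : E n)) := by
  ext k
  · simp [Prod.fst_sum]
  · simp [Prod.snd_sum, Finset.sum_apply, Pi.single_apply]

lemma Dv_z (v : E n) (F : E n × E n → ℂ) (y : E n × E n) :
    Dv ((v, 0) : E n × E n) F y = ∑ j, v j * pz F y j := by
  rw [dirz, Dv_dir_sum]; rfl

lemma Dv_u (w : E n) (F : E n × E n → ℂ) (y : E n × E n) :
    Dv ((0, w) : E n × E n) F y = ∑ i, w i * pu F y i := by
  rw [diru, Dv_dir_sum]; rfl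

/-- The mixed Hessian as a bilinear form. -/
lemma Gm_form (hF : AnalyticAt ℂ F y) (v w : E n) :
    w ⬝ᵥ Gm F y *ᵥ v = Dv ((0, w) : E n × E n) (Dv ((v, 0) : E n × E n) F) y := by
  have h1 : Dv ((v, 0) : E n × E n) F = fun x => ∑ j, v j * pz F x j := funext (Dv_z v F)
  rw [h1, Dv_sum _ _ fun j _ => analyticAt_const.fun_mul (pz_an hF j)]
  have h2 : ∀ j, Dv ((0, w) : E n × E n) (fun x => v j * pz F x j) y
      = v j * ∑ i, w i * Gm F y i j := fun j => by
    rw [Dv_const_mul _ _ (pz_an hF j), Dv_u]; rfl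
  simp only [h2, dotProduct, Matrix.mulVec, Finset.mul_sum]
  rw [Finset.sum_comm]
  exact Finset.sum_congr rfl fun _ _ => Finset.sum_congr rfl fun _ _ => by ring

end pol

end R21

end Pool.Agent.Lib.RA
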