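import Mathlib

/-! Functions that are constant along the fibres of a holomorphic submersion. -/

open Set Metric Filter
open scoped Topology ContDiff

noncomputable section

namespace Pool.Agent.Lib.RA

/-- A holomorphic submersion has a holomorphic local section through the base point, and every
differentiable map whose derivative kills the kernel of the derivative of the submersion factors
through it. -/
def St_FIB : Prop := ∀ (V F : Type) [NormedAddCommGroup V] [NormedSpace ℂ V] [CompleteSpace V]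
  [NormedAddCommGroup F] [NormedSpace ℂ F] [FiniteDimensional ℂ F] (H : V → F) (y : V),
  AnalyticAt ℂ H y → Function.Surjective (fderiv ℂ H y) →
    ∃ s : F → V, AnalyticAt ℂ s (H y) ∧ s (H y) = y ∧ (∀ᶠ a in 𝓝 (H y), H (s a) = a) ∧
      (∀ (G : Type) [NormedAddCommGroup G] [NormedSpace ℝ G] (K : V → G),
        (∀ᶠ x in 𝓝 y, DifferentiableAt ℝ K x ∧ ∀ v, fderiv ℂ H x v = 0 → fderiv ℝ K x v = 0) →
          ∀ᶠ x in 𝓝 y, K x = K (s (H x))) ∧
      ∀ (G : Type) [NormedAddCommGroup G] [NormedSpace ℂ G] (K : V → G),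
        (∀ᶠ x in 𝓝 y, DifferentiableAt ℂ K x ∧ ∀ v, fderiv ℂ H x v = 0 → fderiv ℂ K x v = 0) →
          ∀ᶠ x in 𝓝 y, K x = K (s (H x))

theorem st_FIB : St_FIB := by
  intro V F _ _ _ _ _ _ H y hH hs
  have := FiniteDimensional.complete ℂ F
  set L := fderiv ℂ H y with hL
  obtain ⟨R, hR⟩ := L.exists_rightInverse_of_surjective (LinearMap.range_eq_top.2 hs)
  have hLR : ∀ a, L (R a) = a := fun a => DFunLike.congr_fun hR a
  set Φ : V → V := fun x => R (H x) + (x - R (L x)) with hΦ
  have hΦa : AnalyticAt ℂ Φ y :=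
    ((R.analyticAt _).comp hH).add (analyticAt_id.sub ((R.comp L).analyticAt _))
  have hΦd : HasFDerivAt Φ ((ContinuousLinearEquiv.refl ℂ V : V ≃L[ℂ] V) : V →L[ℂ] V) y := by
    have h1 := (R.hasFDerivAt.comp y hH.differentiableAt.hasFDerivAt).add
      ((hasFDerivAt_id y).sub (R.comp L).hasFDerivAt)
    refine h1.congr_fderiv ?_
    ext v
    simp [hL]
  have hc : ContDiffAt ℂ ω Φ y := hΦa.contDiffAt
  set e := hc.toOpenPartialHomeomorph Φ hΦd (by simp) with he
  have hy : y ∈ e.source := hc.mem_toOpenPartialHomeomorph_source hΦd _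
  have hec : (e : V → V) = Φ := rfl
  have hΨ : AnalyticAt ℂ e.symm (Φ y) := (hc.to_localInverse hΦd (by simp)).analyticAt
  have hΨy : e.symm (Φ y) = y := e.left_inv hy
  have hLΦ : ∀ x, L (Φ x) = H x := fun x => by simp [hΦ, hLR]
  have ht : ∀ᶠ w in 𝓝 (Φ y), H (e.symm w) = L w := by
    filter_upwards [e.open_target.mem_nhds (e.map_source hy)] with w hw
    rw [← hLΦ, ← hec, e.right_inv hw]
  have hσ : AnalyticAt ℂ (fun a => Φ y + R (a - H y)) (H y) :=
    analyticAt_const.add ((R.analyticAt _).comp (analyticAt_id.sub analyticAt_const))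
  have hσt : Tendsto (fun a => Φ y + R (a - H y)) (𝓝 (H y)) (𝓝 (Φ y)) := by
    simpa using hσ.continuousAt.tendsto
  have hΨt : Tendsto e.symm (𝓝 (Φ y)) (𝓝 y) := by
    simpa only [ContinuousAt, hΨy] using hΨ.continuousAt
  have key : ∀ (G : Type) [NormedAddCommGroup G] [NormedSpace ℝ G] (K : V → G),
      (∀ᶠ x in 𝓝 y, DifferentiableAt ℝ K x ∧ ∀ v, fderiv ℂ H x v = 0 → fderiv ℝ K x v = 0) →
        ∀ᶠ x in 𝓝 y, K x = K (e.symm (Φ y + R (H x - H y))) := by
    intro G _ _ K hK
    have h1 : ∀ᶠ w in 𝓝 (Φ y), DifferentiableAt ℝ (K ∘ e.symm) w ∧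
        ∀ v, L v = 0 → fderiv ℝ (K ∘ e.symm) w v = 0 := by
      filter_upwards [hΨt.eventually hK, hΨt.eventually hH.eventually_analyticAt,
        hΨ.eventually_analyticAt, ht.eventually_nhds] with w k1 k2 k3 k4
      have k5 := k3.differentiableAt.hasFDerivAt
      refine ⟨k1.1.comp w (k3.differentiableAt.restrictScalars ℝ), fun v hv => ?_⟩
      rw [(k1.1.hasFDerivAt.comp w (k5.restrictScalars ℝ)).fderiv]
      refine k1.2 _ ?_
      have k6 := (k2.differentiableAt.hasFDerivAt.comp w k5).unique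
        (L.hasFDerivAt.congr_of_eventuallyEq k4)
      exact (DFunLike.congr_fun k6 v).trans hv
    obtain ⟨ε, hε, h2⟩ := Metric.eventually_nhds_iff_ball.1 h1
    filter_upwards [e.open_source.mem_nhds hy, hΦa.continuousAt.eventually (ball_mem_nhds _ hε),
      (hσt.comp hH.continuousAt).eventually (ball_mem_nhds _ hε)] with x k1 k2 k3
    set w := Φ x
    set w' := Φ y + R (H x - H y)
    have k4 : L (w' - w) = 0 := by simp [w, w', hLΦ, hLR]
    have k5 : ∀ t ∈ Icc (0 : ℝ) 1, HasDerivAt (fun t : ℝ => (K ∘ e.symm) (w + t • (w' - w))) 0 t := by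
      intro t ht
      have k6 := h2 _ ((convex_ball _ _).add_smul_sub_mem k2 k3 ht)
      have k7 : HasDerivAt (fun t : ℝ => w + t • (w' - w)) (w' - w) t := by
        simpa using ((hasDerivAt_id t).smul_const (w' - w)).const_add w
      have k9 := k6.1.hasFDerivAt.comp_hasDerivAt t k7
      rwa [k6.2 _ k4] at k9
    have k8 := constant_of_has_deriv_right_zero
      (fun t ht => (k5 t ht).continuousAt.continuousWithinAt)
      (fun t ht => (k5 t (Ico_subset_Icc_self ht)).hasDerivWithinAt) 1 (right_mem_Icc.2 zero_le_one)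
    simp only [one_smul, zero_smul, add_zero, add_sub_cancel, Function.comp] at k8
    rw [k8]
    exact congrArg K (e.left_inv k1).symm
  refine ⟨fun a => e.symm (Φ y + R (a - H y)), hΨ.comp_of_eq hσ (by simp), by simp [hΨy], ?_, key,
    fun G _ _ K hK => key G K ?_⟩
  · filter_upwards [hσt.eventually ht] with a ha
    rw [ha]
    simp [hLΦ, hLR]
  · filter_upwards [hK] with x hx
    refine ⟨hx.1.restrictScalars ℝ, fun v hv => ?_⟩
    rw [(hx.1.hasFDerivAt.restrictScalars ℝ).fderiv]
    exact hx.2 v hv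

end Pool.Agent.Lib.RA
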