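import Mathlib

/-! The derivative of lowest order of a composition. -/

open scoped ContDiff

noncomputable section

namespace Pool.Agent.Lib.RA

/-- If all derivatives of order less than `M` of `g` vanish at `θ x`, the same holds for `g ∘ θ` at
`x`, and the derivative of order `M` transforms as a tensor. -/
def St_LO : Prop := ∀ (V F G : Type) [NormedAddCommGroup V] [NormedSpace ℂ V]
  [NormedAddCommGroup F] [NormedSpace ℂ F] [CompleteSpace F] [NormedAddCommGroup G]
  [NormedSpace ℂ G] [CompleteSpace G] (g : F → G) (θ : V → F) (x : V) (M : ℕ), AnalyticAt ℂ g (θ x) → AnalyticAt ℂ θ x →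
  (∀ m < M, iteratedFDeriv ℂ m g (θ x) = 0) →
    (∀ m < M, iteratedFDeriv ℂ m (g ∘ θ) x = 0) ∧ iteratedFDeriv ℂ M (g ∘ θ) x =
      (iteratedFDeriv ℂ M g (θ x)).compContinuousLinearMap fun _ => fderiv ℂ θ x

namespace LOB

lemma eq_atomic {n : ℕ} (c : OrderedFinpartition n) (h : c.length = n) :
    c = OrderedFinpartition.atomic n := by
  have h1 : ∑ m, c.partSize m = n := by simpa using Fintype.card_congr c.equivSigma
  have h2 : ∀ m, c.partSize m = 1 := by
    by_contra h3
    push Not at h3
    obtain ⟨m, hm⟩ := h3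
    have h4 : ∑ _m : Fin c.length, 1 < ∑ m, c.partSize m :=
      Finset.sum_lt_sum (fun i _ => c.partSize_pos i)
        ⟨m, Finset.mem_univ _, lt_of_le_of_ne (c.partSize_pos m) (Ne.symm hm)⟩
    simp only [Finset.sum_const, Finset.card_univ, Fintype.card_fin, smul_eq_mul, mul_one] at h4
    omega
  obtain ⟨l, s, sp, e, e1, e2, e3, e4⟩ := c
  dsimp only at h h2
  subst h
  obtain rfl : s = fun _ => 1 := funext h2
  have h5 := e2.eq_id
  have h6 : e = fun m _ => m := funext fun m => funext fun i =>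
    (congrArg (e m) (Subsingleton.elim (α := Fin 1) i _)).trans (congrFun h5 m)
  subst h6
  rfl

end LOB

/-- The statement over any field and for finite smoothness. -/
theorem lowest_order {𝕜 V F G : Type*} [NontriviallyNormedField 𝕜] [NormedAddCommGroup V]
    [NormedSpace 𝕜 V] [NormedAddCommGroup F] [NormedSpace 𝕜 F] [NormedAddCommGroup G]
    [NormedSpace 𝕜 G] {g : F → G} {θ : V → F} {x : V} {M : ℕ} (hg : ContDiffAt 𝕜 M g (θ x))
    (hθ : ContDiffAt 𝕜 M θ x) (h : ∀ m < M, iteratedFDeriv 𝕜 m g (θ x) = 0) :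
    (∀ m < M, iteratedFDeriv 𝕜 m (g ∘ θ) x = 0) ∧ iteratedFDeriv 𝕜 M (g ∘ θ) x =
      (iteratedFDeriv 𝕜 M g (θ x)).compContinuousLinearMap fun _ => fderiv 𝕜 θ x := by
  have z : ∀ (m : ℕ) (c : OrderedFinpartition m), c.length < M →
      (ftaylorSeries 𝕜 g (θ x)).compAlongOrderedFinpartition (ftaylorSeries 𝕜 θ x) c = 0 := by
    intro m c hc
    ext v
    rw [FormalMultilinearSeries.compAlongOrderedFinpartition_apply, ftaylorSeries, h _ hc]
    rfl
  refine ⟨fun m hm => ?_, ?_⟩
  · rw [iteratedFDeriv_comp hg hθ (by exact_mod_cast hm.le)]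
    exact Finset.sum_eq_zero fun c _ => z m c (c.length_le.trans_lt hm)
  · rw [iteratedFDeriv_comp hg hθ le_rfl, FormalMultilinearSeries.taylorComp,
      Finset.sum_eq_single (OrderedFinpartition.atomic M) (fun c _ hc =>
        z M c (lt_of_le_of_ne c.length_le fun e => hc (LOB.eq_atomic c e))) (by simp)]
    ext v
    rw [FormalMultilinearSeries.compAlongOrderedFinpartition_apply,
      ContinuousMultilinearMap.compContinuousLinearMap_apply]
    refine congrArg (iteratedFDeriv 𝕜 M g (θ x)) (funext fun m => ?_)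
    exact iteratedFDeriv_one_apply (f := θ) (x := x) fun _ => v m

theorem st_LO : St_LO := fun _ _ _ _ _ _ _ _ _ _ _ _ _ _ _ hg hθ h =>
  lowest_order hg.contDiffAt hθ.contDiffAt h

end Pool.Agent.Lib.RA
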