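import Pool.Agent.Lib.RA.T_RIC

/-! If the twist vanishes on the diagonal, the kernel of the mixed Hessian does not depend on the
second variable. -/

open scoped Classical Topology ContDiff ComplexOrder Matrix
open Set Complex Metric Filter

set_option linter.unusedVariables false
set_option linter.unusedSectionVars false

noncomputable section

namespace Pool.Agent.Lib.RA

open Pool.Agent.Lib.SV (E)
open Pool.Agent.Lib.HS32

namespace R21

variable {n r : ℕ}

section la

variable {S : Type}

/-- A family of covectors spans at most `r` dimensions iff it has a large common kernel. -/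
lemma span_le_iff (g : S → E n) :
    Module.finrank ℂ (Submodule.span ℂ (range g)) ≤ r ↔
      ∃ K : Submodule ℂ (E n), n ≤ Module.finrank ℂ K + r ∧ ∀ v ∈ K, ∀ s, g s ⬝ᵥ v = 0 := by
  set φ := dotProductEquiv ℂ (Fin n)
  have hφ : Module.finrank ℂ ((Submodule.span ℂ (range g)).map φ.toLinearMap)
      = Module.finrank ℂ (Submodule.span ℂ (range g)) := LinearEquiv.finrank_map_eq φ _
  constructor
  · intro h
    refine ⟨((Submodule.span ℂ (range g)).map φ.toLinearMap).dualCoannihilator, ?_, ?_⟩
    · have := Subspace.finrank_add_finrank_dualCoannihilator_eq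
        ((Submodule.span ℂ (range g)).map φ.toLinearMap)
      rw [hφ, Module.finrank_fin_fun] at this
      exact this.ge.trans ((Nat.add_le_add_right h _).trans (add_comm _ _).le)
    · intro v hv s
      exact (Submodule.mem_dualCoannihilator v).1 hv (φ (g s))
        (Submodule.mem_map_of_mem (Submodule.subset_span ⟨s, rfl⟩))
  · rintro ⟨K, hK, h⟩
    have h1 : (Submodule.span ℂ (range g)).map φ.toLinearMap ≤ K.dualAnnihilator := by
      rw [Submodule.map_le_iff_le_comap, Submodule.span_le]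
      rintro _ ⟨s, rfl⟩
      exact (Submodule.mem_dualAnnihilator _).2 fun v hv => h v hv s
    have h2 := Submodule.finrank_mono h1
    have h3 := Subspace.finrank_add_finrank_dualAnnihilator_eq K
    rw [Module.finrank_fin_fun] at h3
    exact (hφ.ge.trans h2).trans (Nat.le_of_add_le_add_left (h3.le.trans hK))

/-- The bound on the span in terms of determinants. -/
lemma span_le_iff_det (g : S → E n) :
    Module.finrank ℂ (Submodule.span ℂ (range g)) ≤ r ↔
      ∀ (σ : Fin (r + 1) → S) (P : Matrix (Fin n) (Fin (r + 1)) ℂ),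
        ((Matrix.of fun k => g (σ k)) * P).det = 0 := by
  constructor
  · intro h σ P
    by_contra hd
    have h1 := Matrix.rank_of_isUnit _ ((Matrix.isUnit_iff_isUnit_det _).2 (isUnit_iff_ne_zero.2 hd))
    have h2 := Matrix.rank_mul_le_left (Matrix.of fun k => g (σ k)) P
    have h3 : (Matrix.of fun k => g (σ k)).rank ≤ Module.finrank ℂ (Submodule.span ℂ (range g)) := by
      rw [Matrix.rank_eq_finrank_span_row]
      exact Submodule.finrank_mono (Submodule.span_mono (by rintro _ ⟨k, rfl⟩; exact ⟨σ k, rfl⟩))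
    rw [Fintype.card_fin] at h1
    omega
  · intro h
    by_contra hlt
    obtain ⟨κ, a, -, hs, hl⟩ := exists_linearIndependent' ℂ g
    have : Finite κ := hl.finite
    have := Fintype.ofFinite κ
    rw [← hs, finrank_span_eq_card hl] at hlt
    obtain ⟨ι⟩ : Nonempty (Fin (r + 1) ↪ κ) :=
      Function.Embedding.nonempty_of_card_le (by rw [Fintype.card_fin]; omega)
    have hl2 : LinearIndependent ℂ (Matrix.of fun k => g (a (ι k))).row := hl.comp ι ι.injective
    exact (Matrix.PosDef.mul_conjTranspose_self _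
      (Matrix.vecMul_injective_iff.2 hl2)).det_pos.ne' (h (fun k => a (ι k)) _)

/-- The bound on the span of a holomorphic family propagates along a convex open set. -/
lemma span_le_prop {V : Type} [NormedAddCommGroup V] [NormedSpace ℂ V] [FiniteDimensional ℂ V]
    {O : Set V} (hO : IsOpen O) (hc : Convex ℝ O) (g : S → V → E n)
    (hg : ∀ s, DifferentiableOn ℂ (g s) O) {x : V} (hx : x ∈ O)
    (h : ∀ᶠ z in 𝓝 x, Module.finrank ℂ (Submodule.span ℂ (range fun s => g s z)) ≤ r) :
    ∀ z ∈ O, Module.finrank ℂ (Submodule.span ℂ (range fun s => g s z)) ≤ r := by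
  intro z hz
  rw [span_le_iff_det]
  intro σ P
  have hd : DifferentiableOn ℂ (fun z => ((Matrix.of fun k => g (σ k) z) * P).det) O := by
    intro y hy
    refine (det_an (G := fun z => (Matrix.of fun k => g (σ k) z) * P)
      fun i j => ?_).differentiableAt.differentiableWithinAt
    simp only [Matrix.mul_apply, Matrix.of_apply]
    refine Finset.analyticAt_fun_sum _ fun l _ => AnalyticAt.fun_mul ?_ analyticAt_const
    exact analyticAt_pi_iff.1 (an_of_hn (PK.hn_of_on hO (hg (σ i)) hy)) l
  exact PK.eqOn_convex (g := fun _ => (0 : ℂ)) hO hc hd (differentiableOn_const _) hx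
    (h.mono fun y hy => (span_le_iff_det _).1 hy σ P) hz

end la

variable {F : E n × E n → ℂ} {y : E n × E n}

section core

variable (I J : Fin r → Fin n) (hF : AnalyticAt ℂ F y) (hr : ∀ᶠ x in 𝓝 y, (Gm F x).rank ≤ r)
  (hd : ((Gm F y).submatrix I J).det ≠ 0)
include hF hr hd

/-- The twist kills the left kernel. -/
lemma al_left {v w : E n} (hv : Gm F y *ᵥ v = 0) (hw : w ᵥ* Gm F y = 0) :
    w ᵥ* al F y v = 0 := by
  funext m
  have h1 := first I J hF hr hd hv hw (eu (Pi.single m 1))
  rw [Dv_comm _ _ (Dv_an _ hF), Dv_u] at h1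
  rw [Pi.zero_apply, ← h1]
  show ∑ i, w i * al F y v i m = _
  exact Finset.sum_congr rfl fun i _ => by rw [al_eq hF]; rfl

/-- The twist vanishes as soon as its block does. -/
lemma al_zero {v : E n} (hv : Gm F y *ᵥ v = 0) (h : (al F y v).submatrix I I = 0) :
    al F y v = 0 := by
  set G := Gm F y with hG
  set P : Matrix (Fin n) (Fin r) ℂ := G.submatrix id J * (G.submatrix I J)⁻¹
  have hs : G = P * G.submatrix I id := schur G I J hr.self_of_nhds hd
  have hrow : ∀ c m, al F y v c m = ∑ i, P c i * al F y v (I i) m := fun c m => by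
    have hw : ((Pi.single c 1 : E n) - ∑ i, P c i • (Pi.single (I i) 1 : E n)) ᵥ* G = 0 := by
      funext b
      rw [Matrix.sub_vecMul, Matrix.sum_vecMul]
      simp only [Matrix.smul_vecMul, Matrix.single_one_vecMul, Pi.sub_apply, Finset.sum_apply,
        Pi.smul_apply, smul_eq_mul, Matrix.row_apply, Pi.zero_apply]
      conv_lhs => rw [congrFun (congrFun hs c) b]
      simp [Matrix.mul_apply]
    have h2 := congrFun (al_left I J hF hr hd hv hw) m
    rw [Matrix.sub_vecMul, Matrix.sum_vecMul] at h2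
    simp only [Matrix.smul_vecMul, Matrix.single_one_vecMul, Pi.sub_apply, Finset.sum_apply,
      Pi.smul_apply, smul_eq_mul, Matrix.row_apply, Pi.zero_apply] at h2
    exact sub_eq_zero.1 h2
  have h1 : ∀ i m, al F y v (I i) m = 0 := fun i m => by
    rw [al_symm hF, hrow]
    exact Finset.sum_eq_zero fun l _ => by
      rw [show al F y v (I l) (I i) = 0 from congrFun (congrFun h l) i, mul_zero]
  ext c m
  rw [hrow]
  exact Finset.sum_eq_zero fun i _ => by rw [h1, mul_zero]

end core

/-- The coefficients of the columns in terms of the columns `J`. -/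
def tm (F : E n × E n → ℂ) (I J : Fin r → Fin n) (x : E n × E n) : Matrix (Fin r) (Fin n) ℂ :=
  ((Gm F x).submatrix I J)⁻¹ * (Gm F x).submatrix I id

section frame

variable (I J : Fin r → Fin n) (hF : AnalyticAt ℂ F y) (hr : ∀ᶠ x in 𝓝 y, (Gm F x).rank ≤ r)
  (hd : ((Gm F y).submatrix I J).det ≠ 0)
include hF hr hd

lemma tm_an (l : Fin r) (b : Fin n) : AnalyticAt ℂ (fun x => tm F I J x l b) y := by
  simp only [tm, Matrix.mul_apply, Matrix.submatrix_apply, id]
  exact Finset.analyticAt_fun_sum _ fun m _ => (hinv_an I J hF hd l m).fun_mul (Gm_an hF _ _)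

lemma tm_pu (h : ∀ v, Gm F y *ᵥ v = 0 → al F y v = 0) (l : Fin r) (b : Fin n) :
    pu (fun x => tm F I J x l b) y = 0 := by
  funext c
  set V : E n := Pi.single b 1 - ∑ l, tm F I J y l b • (Pi.single (J l) 1 : E n) with hV
  have hdot : ∀ g : E n, ∑ a, g a * V a = g b - ∑ l, g (J l) * tm F I J y l b := fun g => by
    have : g ⬝ᵥ V = g b - ∑ l, g (J l) * tm F I J y l b := by
      rw [hV, dotProduct_sub, dotProduct_sum]
      simp [mul_comm]
    exact this
  have hG : Gm F y *ᵥ V = 0 := by
    funext a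
    have hs := congrFun (congrFun (schur (Gm F y) I J hr.self_of_nhds hd) a) b
    rw [Matrix.mul_assoc, Matrix.mul_apply] at hs
    show ∑ a', Gm F y a a' * V a' = 0
    rw [hdot, hs]
    exact sub_self _
  have h1 : ∀ m, ∑ l, Gm F y (I m) (J l) * pu (fun x => tm F I J x l b) y c = 0 := fun m => by
    have e : (fun x => Gm F x (I m) b) =ᶠ[𝓝 y]
        fun x => ∑ l, Gm F x (I m) (J l) * tm F I J x l b := by
      filter_upwards [det_ev I J hF hr hd] with x hx
      have := Matrix.mul_nonsing_inv_cancel_left _ ((Gm F x).submatrix I id)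
        (isUnit_iff_ne_zero.2 hx)
      exact (congrFun (congrFun this m) b).symm
    have e2 := (Dv_congr (eu (Pi.single c 1)) e).self_of_nhds
    rw [Dv_sum _ _ fun l _ => (Gm_an hF _ _).fun_mul (tm_an I J hF hr hd l b)] at e2
    simp only [fun l => Dv_mul (eu (Pi.single c 1)) (Gm_an hF (I m) (J l))
      (tm_an I J hF hr hd l b), Finset.sum_add_distrib] at e2
    have e3 : al F y V c (I m) = 0 := by rw [h V hG]; rfl
    simp only [al, Matrix.of_apply] at e3
    rw [hdot fun a => pu (fun x => Gm F x (I m) a) y c] at e3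
    have e4 : pu (fun x => Gm F x (I m) b) y c = _ := e2
    rw [sub_eq_zero] at e3
    rw [e3] at e4
    exact (left_eq_add.1 e4)
  have h2 : (Gm F y).submatrix I J *ᵥ (fun l => pu (fun x => tm F I J x l b) y c) = 0 :=
    funext h1
  exact congrFun (Matrix.eq_zero_of_mulVec_eq_zero hd h2) l

end frame

/-- Step A7. -/
theorem ck_of_al {c z₀ : E n} {R : ℝ} (I J : Fin r → Fin n)
    (hF : DifferentiableOn ℂ F (ball (dg c) R)) (hr : ∀ x ∈ ball (dg c) R, (Gm F x).rank ≤ r)
    (hz : z₀ ∈ ball c R) (hd : ((Gm F (dg z₀)).submatrix I J).det ≠ 0)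
    (h : ∀ᶠ z in 𝓝 z₀, ∀ v, Gm F (dg z) *ᵥ v = 0 → al F (dg z) v = 0) : CK F c R r := by
  have han : ∀ x ∈ ball (dg c) R, AnalyticAt ℂ F x := fun x hx =>
    an_of_hn (PK.hn_of_on isOpen_ball hF hx)
  have hz' : dg z₀ ∈ ball (dg c) R := PK.dg_mem_ball.2 hz
  have hb : ∀ᶠ x in 𝓝 (dg z₀), x ∈ ball (dg c) R := isOpen_ball.mem_nhds hz'
  have hr' : ∀ x ∈ ball (dg c) R, ∀ᶠ x' in 𝓝 x, (Gm F x').rank ≤ r := fun x hx =>
    (isOpen_ball.eventually_mem hx).mono hr
  have hde := det_ev I J (han _ hz') (hr' _ hz') hd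
  have h1 : ∀ l b k, ∀ᶠ x in 𝓝 (dg z₀), pu (fun x => tm F I J x l b) x k = 0 := fun l b k => by
    refine PK.id2_loc (hn_of_an (pu_an (tm_an I J (han _ hz') (hr' _ hz') hd l b) k)) ?_
    filter_upwards [h, (PK.tendsto_dg z₀).eventually (hb.and hde)] with z h1 h2
    rw [tm_pu I J (han _ h2.1) (hr' _ h2.1) h2.2 h1 l b]; rfl
  obtain ⟨ε, hε, he⟩ := Metric.eventually_nhds_iff_ball.1 ((hb.and hde).and
    (eventually_all.2 fun l => eventually_all.2 fun b => eventually_all.2 fun k => h1 l b k))
  have h2 : ∀ z ∈ ball z₀ ε, ∀ u ∈ ball (star z₀) ε, tm F I J (z, u) = tm F I J (z, star z₀) := by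
    intro z hz1 u hu
    ext l b
    have hdf : ∀ u ∈ ball (star z₀) ε, DifferentiableAt ℂ (fun x => tm F I J x l b) (z, u) :=
      fun u hu =>
        have := he (z, u) (PK.mk_mem_ball.2 ⟨hz1, hu⟩)
        (tm_an I J (han _ this.1.1) (hr' _ this.1.1) this.1.2 l b).differentiableAt
    refine isOpen_ball.is_const_of_fderiv_eq_zero (𝕜 := ℂ) (f := fun u => tm F I J (z, u) l b)
      (convex_ball _ _).isPreconnected
      (fun u hu => (PK.hasF_u (hdf u hu)).differentiableAt.differentiableWithinAt) ?_ hu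
      (mem_ball_self hε)
    intro u hu
    ext w
    rw [PK.slice_u (hdf u hu)]
    have : pu (fun x => tm F I J x l b) (z, u) = 0 :=
      funext fun k => (he (z, u) (PK.mk_mem_ball.2 ⟨hz1, hu⟩)).2 l b k
    rw [this]; simp
  have hu0 : star z₀ ∈ ball (star c) R := PK.star_mem_ball.2 hz
  have hGd : ∀ z ∈ ball c R, ∀ i j, DifferentiableOn ℂ (fun u => Gm F (z, u) i j)
      (ball (star c) R) := fun z hz i j u hu =>
    (PK.hasF_u (Gm_an (han _ (PK.mk_mem_ball.2 ⟨hz, hu⟩)) i j).differentiableAt
      ).differentiableAt.differentiableWithinAt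
  have h3 : ∀ z ∈ ball z₀ ε, ∀ v, Gm F (z, star z₀) *ᵥ v = 0 →
      ∀ u ∈ ball (star c) R, Gm F (z, u) *ᵥ v = 0 := by
    intro z hz1 v hv u hu
    have hzb : z ∈ ball c R :=
      (PK.mk_mem_ball.1 (he (z, star z₀) (PK.mk_mem_ball.2 ⟨hz1, mem_ball_self hε⟩)).1.1).1
    refine PK.eqOn_convex (f := fun u => Gm F (z, u) *ᵥ v) (g := fun _ => 0) isOpen_ball
      (convex_ball _ _) ?_ (differentiableOn_const _) hu0 ?_ hu
    · refine differentiableOn_pi.2 fun i => ?_
      show DifferentiableOn ℂ (fun u => ∑ a, Gm F (z, u) i a * v a) _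
      exact DifferentiableOn.fun_sum fun a _ => (hGd z hzb i a).mul_const _
    · filter_upwards [ball_mem_nhds _ hε] with u hu
      have := he (z, u) (PK.mk_mem_ball.2 ⟨hz1, hu⟩)
      rw [schur (Gm F (z, u)) I J (hr _ this.1.1) this.1.2, Matrix.mul_assoc]
      have e : ((Gm F (z, u)).submatrix I J)⁻¹ * (Gm F (z, u)).submatrix I id
          = tm F I J (z, star z₀) := h2 z hz1 u hu
      rw [e, tm, ← Matrix.mulVec_mulVec, ← Matrix.mulVec_mulVec]
      have : (Gm F (z, star z₀)).submatrix I id *ᵥ v = 0 := funext fun m => congrFun hv (I m)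
      rw [this]; simp
  have h4 := span_le_prop (r := r) (S := ball (star c) R × Fin n) isOpen_ball (convex_ball c R)
    (fun s z => Gm F (z, s.1) s.2) (fun s => differentiableOn_pi.2 fun j z hz =>
      (PK.hasF_z (Gm_an (han _ (PK.mk_mem_ball.2 ⟨hz, s.1.2⟩)) s.2 j).differentiableAt
        ).differentiableAt.differentiableWithinAt) hz ?_
  · intro z hz1
    obtain ⟨K, hK, hK'⟩ := (span_le_iff _).1 (h4 z hz1)
    exact ⟨K, hK, fun v hv u hu => funext fun i => hK' v hv (⟨u, hu⟩, i)⟩
  · filter_upwards [ball_mem_nhds _ hε] with z hz1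
    refine (span_le_iff _).2 ⟨LinearMap.ker (Gm F (z, star z₀)).mulVecLin, ?_, fun v hv s =>
      congrFun (h3 z hz1 v hv s.1 s.1.2) s.2⟩
    have e1 := LinearMap.finrank_range_add_finrank_ker (Gm F (z, star z₀)).mulVecLin
    have e2 : Module.finrank ℂ (LinearMap.range (Gm F (z, star z₀)).mulVecLin) ≤ r :=
      hr _ (he (z, star z₀) (PK.mk_mem_ball.2 ⟨hz1, mem_ball_self hε⟩)).1.1
    rw [Module.finrank_fin_fun] at e1
    exact e1.ge.trans ((Nat.add_le_add_right e2 _).trans (add_comm _ _).le)

end R21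

end Pool.Agent.Lib.RA
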