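import Pool.Agent.Lib.RA.T_MON

/-! A locally constant cocycle on a simply connected space is a coboundary. -/

open Set Filter Topology

set_option linter.unusedVariables false

noncomputable section

namespace Pool.Agent.Lib.RA

/-- A locally constant cocycle with values in a group is a coboundary. -/
def St_U1 : Prop :=
  ∀ (X ι G : Type) [TopologicalSpace X] [SimplyConnectedSpace X] [LocallyPathConnectedSpace X]
    [Group G] (O : ι → Set X) (c : ι → ι → X → G), (∀ a, IsOpen (O a)) → (∀ x, ∃ a, x ∈ O a) →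
    (∀ a b x, x ∈ O a → x ∈ O b → ∀ᶠ y in 𝓝 x, c a b y = c a b x) →
    (∀ a b d x, x ∈ O a → x ∈ O b → x ∈ O d → c a b x * c b d x = c a d x) →
    ∃ k : ι → X → G, (∀ a, ∀ x ∈ O a, ∀ᶠ y in 𝓝 x, k a y = k a x) ∧
      ∀ a b x, x ∈ O a → x ∈ O b → k b x = k a x * c a b x

/-- The additive form. -/
def St_U1A : Prop :=
  ∀ (X ι G : Type) [TopologicalSpace X] [SimplyConnectedSpace X] [LocallyPathConnectedSpace X]
    [AddCommGroup G] (O : ι → Set X) (c : ι → ι → X → G), (∀ a, IsOpen (O a)) →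
    (∀ x, ∃ a, x ∈ O a) → (∀ a b x, x ∈ O a → x ∈ O b → ∀ᶠ y in 𝓝 x, c a b y = c a b x) →
    (∀ a b d x, x ∈ O a → x ∈ O b → x ∈ O d → c a b x + c b d x = c a d x) →
    ∃ k : ι → X → G, (∀ a, ∀ x ∈ O a, ∀ᶠ y in 𝓝 x, k a y = k a x) ∧
      ∀ a b x, x ∈ O a → x ∈ O b → k b x - k a x = c a b x

/-- The form for complex numbers of norm one. -/
def St_U1C : Prop :=
  ∀ (X ι : Type) [TopologicalSpace X] [SimplyConnectedSpace X] [LocallyPathConnectedSpace X]
    (O : ι → Set X) (c : ι → ι → X → ℂ), (∀ a, IsOpen (O a)) → (∀ x, ∃ a, x ∈ O a) →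
    (∀ a b x, x ∈ O a → x ∈ O b → ‖c a b x‖ = 1) →
    (∀ a b x, x ∈ O a → x ∈ O b → ∀ᶠ y in 𝓝 x, c a b y = c a b x) →
    (∀ a b d x, x ∈ O a → x ∈ O b → x ∈ O d → c a b x * c b d x = c a d x) →
    ∃ k : ι → X → ℂ, (∀ a x, ‖k a x‖ = 1) ∧ (∀ a, ∀ x ∈ O a, ∀ᶠ y in 𝓝 x, k a y = k a x) ∧
      ∀ a b x, x ∈ O a → x ∈ O b → k b x = k a x * c a b x

namespace MON

section u1
variable {X ι G : Type*} [TopologicalSpace X] [Group G]

open Classical in
/-- The standard local solutions. -/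
def loc1 (O : ι → Set X) (c : ι → ι → X → G) (a : ι) (γ : G) : X → ι → G :=
  fun y b => if y ∈ O b then γ * c a b y else 1

/-- A locally constant cocycle on a simply connected space is a coboundary. -/
theorem u1 [SimplyConnectedSpace X] [LocallyPathConnectedSpace X] (O : ι → Set X)
    (hO : ∀ a, IsOpen (O a)) (cov : ∀ x, ∃ a, x ∈ O a) (c : ι → ι → X → G)
    (lc : ∀ a b x, x ∈ O a → x ∈ O b → ∀ᶠ y in 𝓝 x, c a b y = c a b x)
    (co : ∀ a b d x, x ∈ O a → x ∈ O b → x ∈ O d → c a b x * c b d x = c a d x) :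
    ∃ k : ι → X → G, (∀ a, ∀ x ∈ O a, ∀ᶠ y in 𝓝 x, k a y = k a x) ∧
      ∀ a b x, x ∈ O a → x ∈ O b → k b x = k a x * c a b x := by
  have one : ∀ a, ∀ x ∈ O a, c a a x = 1 := fun a x hx => by simpa using co a a a x hx hx hx
  have tr : ∀ a a' γ x, x ∈ O a → x ∈ O a' →
      loc1 O c a γ =ᶠ[𝓝 x] loc1 O c a' (γ * c a a' x) := fun a a' γ x h h' => by
    filter_upwards [lc a a' x h h', (hO a).mem_nhds h, (hO a').mem_nhds h'] with y h1 h2 h3
    funext b
    by_cases hb : y ∈ O b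
    · simp only [loc1, if_pos hb]
      rw [← h1, mul_assoc, co a a' b y h2 h3 hb]
    · simp only [loc1, if_neg hb]
  let Q : X → (X → ι → G) → Prop := fun x f => ∃ a γ, x ∈ O a ∧ f =ᶠ[𝓝 x] loc1 O c a γ
  have hQ : ∀ x f a, Q x f → x ∈ O a → f =ᶠ[𝓝 x] loc1 O c a (f x a) := by
    rintro x f a ⟨a', γ, h1, h2⟩ ha
    have h3 := h2.trans (tr a' a γ x h1 ha)
    have h4 : f x a = γ * c a' a x := by
      rw [h3.self_of_nhds]
      simp only [loc1, if_pos ha, one a x ha, mul_one]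
    rwa [h4]
  have hl : ∀ x f a, Q x f → x ∈ O a → ∀ᶠ y in 𝓝 x, f y a = f x a := fun x f a h ha => by
    filter_upwards [hQ x f a h ha, (hO a).mem_nhds ha] with y h1 h2
    rw [h1]
    simp only [loc1, if_pos h2, one a y h2, mul_one]
  obtain ⟨x0⟩ : Nonempty X := inferInstance
  obtain ⟨a0, ha0⟩ := cov x0
  suffices h : ∃ g, (∀ z, Q z g) ∧ g =ᶠ[𝓝 x0] loc1 O c a0 1 by
    obtain ⟨g, hg, -⟩ := h
    refine ⟨fun a x => g x a, fun a x hx => hl x g a (hg x) hx, fun a b x ha hb => ?_⟩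
    have h1 := congrFun (hQ x g a (hg x) ha).self_of_nhds b
    simpa only [loc1, if_pos hb] using h1
  refine mon Q (fun x f g h ⟨a, γ, h1, h2⟩ => ⟨a, γ, h1, h.symm.trans h2⟩)
    (fun x => ?_) x0 (loc1 O c a0 1) ⟨a0, 1, ha0, EventuallyEq.rfl⟩
  obtain ⟨a, ha⟩ := cov x
  have hs : connectedComponentIn (O a) x ⊆ O a := connectedComponentIn_subset _ _
  refine ⟨connectedComponentIn (O a) x, (hO a).connectedComponentIn, mem_connectedComponentIn ha,
    fun y hy f hf => ⟨_, fun z hz => ⟨a, f y a, hs hz, EventuallyEq.rfl⟩,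
      (hQ y f a hf (hs hy)).symm⟩, fun g g' hg hg' y hy h z hz => ?_⟩
  have cst : ∀ g, (∀ z ∈ connectedComponentIn (O a) x, Q z g) → g z a = g y a := fun g hg => by
    let _i : TopologicalSpace G := ⊥
    have : DiscreteTopology G := ⟨rfl⟩
    refine isPreconnected_connectedComponentIn.constant (f := fun w => g w a)
      (fun w hw => ContinuousAt.continuousWithinAt ?_) hz hy
    exact continuousAt_const.congr ((hl w g a (hg w hw) (hs hw)).mono fun _ h => h.symm)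
  rw [(hQ z g a (hg z hz) (hs hz)).self_of_nhds, (hQ z g' a (hg' z hz) (hs hz)).self_of_nhds,
    cst g hg, cst g' hg', h.self_of_nhds]

end u1

end MON

theorem st_U1 : St_U1 := fun X ι G _ _ _ _ O c h1 h2 h3 h4 => MON.u1 O h1 h2 c h3 h4

theorem st_U1A : St_U1A := fun X ι G _ _ _ _ O c h1 h2 h3 h4 => by
  obtain ⟨k, h5, h6⟩ := MON.u1 (G := Multiplicative G) O h1 h2 c h3 h4
  exact ⟨k, h5, fun a b x ha hb => sub_eq_iff_eq_add'.2 (h6 a b x ha hb)⟩

theorem st_U1C : St_U1C := fun X ι _ _ _ O c h1 h2 h0 h3 h4 => by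
  classical
  let c' : ι → ι → X → Circle := fun a b x =>
    if h : ‖c a b x‖ = 1 then ⟨c a b x, mem_sphere_zero_iff_norm.2 h⟩ else 1
  have hc : ∀ a b x, x ∈ O a → x ∈ O b → (c' a b x : ℂ) = c a b x := fun a b x ha hb => by
    simp only [c', dif_pos (h0 a b x ha hb)]
  obtain ⟨k, h5, h6⟩ := MON.u1 O h1 h2 c' (fun a b x ha hb => (h3 a b x ha hb).mono fun y hy => by
    simp only [c', hy]) fun a b d x ha hb hd => Circle.ext (by
      rw [Circle.coe_mul, hc _ _ _ ha hb, hc _ _ _ hb hd, hc _ _ _ ha hd, h4 _ _ _ _ ha hb hd])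
  refine ⟨fun a x => k a x, fun a x => Circle.norm_coe _, fun a x hx => (h5 a x hx).mono
    fun y hy => by simp only [hy], fun a b x ha hb => ?_⟩
  simp only [h6 a b x ha hb, Circle.coe_mul, hc _ _ _ ha hb]

end Pool.Agent.Lib.RA
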