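import Pool.Agent.Lib.RA.B_X0
import Pool.Agent.Lib.RA.T_AN

/-! From the statement to the manifold layer. -/

open scoped Classical Topology ContDiff ComplexOrder Matrix Manifold
open Set MeasureTheory Complex Metric Filter

set_option linter.unusedVariables false

noncomputable section

namespace Pool.Agent.Lib.RA

open Pool.Agent.Lib.SV (E nsq jacAt)
open Pool.Agent.Lib.HS32

namespace BRG

variable {n : ℕ}

theorem levi_nq {u : E n → ℝ} {z : E n} (hu : ContDiffAt ℝ ∞ u z) (v : E n) :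
    HW.levi u z v = nq (hess (fun w => (u w : ℂ)) z) v := by
  have e : ∀ a : E n, fderiv ℝ (fun w => fderiv ℝ u w a) z a = fderiv ℝ (fderiv ℝ u) z a a :=
    fun a => by
      rw [fderiv_clm_apply (cd_diff (hu.fderiv_right (m := ∞) (by simp)))
        (differentiableAt_const a)]
      simp
  rw [nq, BPSH.hess_lv hu, ofReal_re, HW.levi, HS66.lv, e, e]

theorem an_lognsq {f : E n → ℂ} {z : E n} (h : AnalyticAt ℝ f z) (h0 : f z ≠ 0) :
    AnalyticAt ℝ (fun w => Real.log (normSq (f w))) z := by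
  have h1 : AnalyticAt ℝ (fun w => (f w).re) z := (reCLM.analyticAt _).comp h
  have h2 : AnalyticAt ℝ (fun w => (f w).im) z := (imCLM.analyticAt _).comp h
  exact (analyticAt_log (normSq_pos.2 h0)).comp (f := fun w => normSq (f w))
    ((h1.mul h1).add (h2.mul h2))

theorem exists_ker {A : Mat n} {r : ℕ} (h : A.rank ≤ r) :
    ∃ F : Submodule ℂ (E n), Module.finrank ℂ F = n - r ∧ ∀ v ∈ F, A *ᵥ v = 0 := by
  have h1 := LinearMap.finrank_range_add_finrank_ker A.mulVecLin
  rw [Module.finrank_fin_fun] at h1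
  have h2 : n - r ≤ Module.finrank ℂ (LinearMap.ker A.mulVecLin) := by
    have : A.rank = Module.finrank ℂ (LinearMap.range A.mulVecLin) := rfl
    omega
  obtain ⟨b, hb⟩ := exists_linearIndependent_of_le_finrank h2
  have hb' := hb.map' (LinearMap.ker A.mulVecLin).subtype (Submodule.ker_subtype _)
  refine ⟨Submodule.span ℂ (range _), by rw [finrank_span_eq_card hb', Fintype.card_fin],
    fun v hv => ?_⟩
  exact (Submodule.span_le (p := LinearMap.ker A.mulVecLin)).2
    (by rintro _ ⟨i, rfl⟩; exact (b i).2) hv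

end BRG

open BRG HS.BBR in
theorem st_BRG : St_BRG := by
  intro n X _ _ _ _ _ _ φ hφ
  let M : Mf n := mf n X
  have : M.Cpt := ⟨‹_›, ‹_›, ‹_›⟩
  let c : M.X → M.Ch := chartAt (M := X) (E n)
  have hc : ∀ x, c x ∈ M.C := fun x y => ⟨cp_chart (X := X) x y, cp_chart (X := X) y x⟩
  have hs : ∀ x, x ∈ (c x).source := mem_chart_source (M := X) (E n)
  obtain ⟨hch, hov, -⟩ := mTR n M
  let ψ : M.Fam ℝ := fun e z =>
    φ (e.symm z) + Real.log (normSq (jm (c (e.symm z) ∘ e.symm) z).det)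
  have hψ : ∀ e : M.Ch, ∀ x ∈ e.source,
      ψ e (e x) = φ x + Real.log (normSq (M.J (c x) e x).det) :=
    fun e x hx => by simp only [ψ, e.left_inv hx, Mf.J]
  have cmp : M.Ov fun e e' x =>
      ψ e' (e' x) = ψ e (e x) + 1 * Real.log (normSq (M.J e e' x).det) := by
    intro e he e' he' x hx hx'
    show ψ e' (e' x) = ψ e (e x) + 1 * Real.log (normSq (M.J e e' x).det)
    rw [hψ e x hx, hψ e' x hx', (hov _ (hc x) e he x (hs x) hx).2.2.2.2 e' he' hx',
      Matrix.det_mul, map_mul, Real.log_mul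
        (normSq_pos.2 (hov _ (hc x) e he x (hs x) hx).2.1).ne'
        (normSq_pos.2 (hov e he e' he' x hx hx').2.1).ne']
    ring
  have hw : ∀ x, ψ (c x) =ᶠ[𝓝 (c x x)] wtIn n φ x := fun x => by
    filter_upwards [(c x).open_target.mem_nhds ((c x).map_source (hs x))] with w hw
    have h5 := (hov _ (hc ((c x).symm w)) _ (hc x) _ (hs _) ((c x).map_target hw)).1
    rw [(c x).right_inv hw] at h5
    simp only [ψ]
    rw [← (mCHN n _ _ h5).2.2.2.2.2.2.1]
    rfl
  have an : M.All fun e z => AnalyticAt ℝ (ψ e) z := by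
    intro e he z hz
    obtain ⟨h1, h2, -, h3, -⟩ := hov _ (hc (e.symm z)) e he _ (hs _) (e.map_target hz)
    rw [Mf.J] at h2
    rw [e.right_inv hz] at h1 h2 h3
    have h4 : AnalyticAt ℝ (ψ (c (e.symm z))) (c (e.symm z) (e.symm z)) :=
      (hφ.an (e.symm z)).congr (hw _).symm
    have h5 : AnalyticAt ℝ (c (e.symm z) ∘ e.symm) z := (ANB.analyticAt h1).restrictScalars
    have h6 := an_lognsq ((ANB.analyticAt (mCHN n _ _ h1).2.2.2.2.1).restrictScalars (𝕜 := ℝ)) h2
    refine ((h4.comp (f := c (e.symm z) ∘ e.symm) h5).add h6).congr ?_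
    filter_upwards [h3] with w hw
    have h8 : ψ e (e (e.symm w)) = _ := cmp _ (hc (e.symm z)) e he _ hw.2.1 hw.2.2.1
    rw [hw.2.2.2.2.2.1, hw.2.2.2.2.2.2, one_mul] at h8
    exact h8.symm
  have wt : M.Wt 1 ψ := ⟨fun e he z hz => (an e he z hz).contDiffAt, cmp⟩
  have clo := (mHES n M).2.2.2.1 1 ψ wt
  have hk : ∀ x v, curvK n φ x v = nq (M.hw ψ (c x) (c x x)) v := fun x v => by
    rw [curvK, levi_nq (hφ.an x).contDiffAt]
    exact congrArg (nq · v) (hess_congr ((hw x).symm.mono fun w h => congrArg ofReal h))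
  have psd : M.Le 0 (M.hw ψ) := by
    intro e he z hz
    have h1 : M.hw ψ e (e (e.symm z)) = _ :=
      clo.cmp _ (hc (e.symm z)) e he _ (hs _) (e.map_target hz)
    rw [e.right_inv hz] at h1
    have h2 := clo.herm _ (hc (e.symm z)) _ ((c _).map_source (hs _))
    simp only [Pi.zero_apply, sub_zero]
    rw [h1]
    refine Matrix.PosSemidef.conjTranspose_mul_mul_same
      (.of_dotProduct_mulVec_nonneg h2 fun v => Complex.nonneg_iff.2 ⟨?_, ?_⟩) _
    · exact (hφ.pos (e.symm z) v).trans_eq (hk _ v)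
    · exact (h2.im_star_dotProduct_mulVec_self v).symm
  have hR := RK.rank_rep clo.toTen
  have hb : BddAbove (range fun x => (M.ev (M.hw ψ) x).rank) :=
    ⟨n, by rintro _ ⟨x, rfl⟩; exact Matrix.rank_le_width _⟩
  obtain ⟨x₀, h0⟩ := Nat.sSup_mem (range_nonempty fun x : M.X => (M.ev (M.hw ψ) x).rank) hb
  have hle : M.All fun e z => (M.hw ψ e z).rank ≤ (M.ev (M.hw ψ) x₀).rank := fun e he z hz =>
    (hR e he z hz).ge.trans ((le_csSup hb (mem_range_self _)).trans_eq h0.symm)
  refine ⟨ψ, _, Matrix.rank_le_width _, ⟨wt, an, hle,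
    ((st_X0 n M ψ _ wt an hle).2.2 this ⟨x₀, rfl⟩).1⟩, psd, fun x => ?_⟩
  obtain ⟨F, h1, h2⟩ := exists_ker (hle _ (hc x) _ ((c x).map_source (hs x)))
  exact ⟨F, h1, fun v hv => by rw [hk, nq, h2 v hv, dotProduct_zero, zero_re]⟩

end Pool.Agent.Lib.RA
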