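import Pool.Agent.Lib.RA.T_AN
import Pool.Agent.Lib.SV.SDefs

/-! Many holomorphic germs have a combination that vanishes to a high order. -/

open scoped Classical Topology
open Set Filter Asymptotics

noncomputable section

namespace Pool.Agent.Lib.RA

open Pool.Agent.Lib.SV (E)

/-- More than `N ^ e` holomorphic germs in `e` variables have a non-trivial linear combination
that vanishes to order `N`. -/
def St_DIM : Prop := ∀ (e N : ℕ) (ι : Type) [Fintype ι] (c : E e) (f : ι → E e → ℂ),
  (∀ i, ∀ᶠ z in 𝓝 c, DifferentiableAt ℂ (f i) z) → N ^ e < Fintype.card ι →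
  ∃ a : ι → ℂ, a ≠ 0 ∧ (fun y => ∑ i, a i * f i y) =O[𝓝 c] fun y => ‖y - c‖ ^ N

namespace Dim

variable {e N : ℕ}

/-- The monomials with all exponents below `N`. -/
def mono (e N : ℕ) (α : Fin e → Fin N) (y : E e) : ℂ := ∏ j, y j ^ (α j : ℕ)

theorem diag_mem {k : ℕ} (hk : k < N) (q : ContinuousMultilinearMap ℂ (fun _ : Fin k => E e) ℂ) :
    (fun y : E e => q fun _ => y) ∈ Submodule.span ℂ (range (mono e N)) := by
  have h1 : (fun y : E e => q fun _ => y) = ∑ r : Fin k → Fin e,
      (q fun l => Pi.single (r l) 1) • fun y : E e => ∏ l, y (r l) := by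
    funext y
    have h2 : (fun _ : Fin k => y) = fun _ : Fin k => ∑ j, y j • (Pi.single j 1 : E e) := by
      funext _ i
      simp [Finset.sum_apply, Pi.single_apply]
    rw [h2, q.map_sum fun (_ : Fin k) (j : Fin e) => y j • (Pi.single j 1 : E e)]
    simp only [Finset.sum_apply, Pi.smul_apply, smul_eq_mul]
    refine Finset.sum_congr rfl fun r _ => ?_
    rw [q.map_smul_univ, smul_eq_mul, mul_comm]
  rw [h1]
  refine Submodule.sum_mem _ fun r _ => Submodule.smul_mem _ _ (Submodule.subset_span ?_)
  refine ⟨fun j => ⟨(Finset.univ.filter fun l => r l = j).card,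
    ((Finset.card_filter_le _ _).trans_eq (by simp)).trans_lt hk⟩, funext fun y => ?_⟩
  rw [mono, ← Finset.prod_fiberwise' Finset.univ r y]
  simp

end Dim

open Dim in
theorem st_DIM : St_DIM := by
  intro e N ι _ c f hf hN
  choose p hp using fun i => ANB.analyticAt (hf i)
  set V := Submodule.span ℂ (range (mono e N)) with hV
  have hP : ∀ i, (fun y : E e => (p i).partialSum N y) ∈ V := fun i => by
    have : (fun y : E e => (p i).partialSum N y) =
        ∑ k ∈ Finset.range N, fun y : E e => p i k fun _ => y := by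
      funext y; simp [FormalMultilinearSeries.partialSum, Finset.sum_apply]
    rw [this]
    exact Submodule.sum_mem _ fun k hk => diag_mem (Finset.mem_range.1 hk) _
  have : Module.Finite ℂ V := Module.Finite.span_of_finite ℂ (finite_range _)
  have hr : Module.finrank ℂ V ≤ N ^ e := (finrank_range_le_card _).trans_eq (by simp)
  have hd : ¬ LinearIndependent ℂ fun i => (⟨_, hP i⟩ : V) := fun h =>
    absurd (h.fintype_card_le_finrank.trans hr) (not_le.2 hN)
  obtain ⟨a, ha, i₀, hi₀⟩ := Fintype.not_linearIndependent_iff.1 hd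
  refine ⟨a, fun h => hi₀ (congrFun h i₀), ?_⟩
  have h0 : ∀ y : E e, ∑ i, a i * (p i).partialSum N y = 0 := fun y => by
    have := congrFun (congrArg Subtype.val ha) y
    simpa [Finset.sum_apply] using this
  have h1 : (fun y : E e => ∑ i, a i * (f i (c + y) - (p i).partialSum N y)) =O[𝓝 0]
      fun y => ‖y‖ ^ N :=
    IsBigO.fun_sum fun i _ => ((hp i).isBigO_sub_partialSum_pow N).const_mul_left _
  have h2 : Tendsto (fun y : E e => y - c) (𝓝 c) (𝓝 0) := by
    simpa using (continuous_sub_right c).tendsto c
  refine (h1.comp_tendsto h2).congr_left fun y => ?_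
  simp [mul_sub, Finset.sum_sub_distrib, h0]

end Pool.Agent.Lib.RA
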