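import Mathlib

/-! Generalised Wronskians: vanishing of all of them gives a relation over the constants. -/

namespace Pool.Agent.Lib.RA

/-- The iterated derivative of `f` along the word `l` (the head acts last). -/
def wrd {K ι : Type} (D : ι → K → K) (l : List ι) (f : K) : K := l.foldr (fun i g => D i g) f

/-- `D i` additive maps with the Leibniz rule on a field (they need not commute). If all generalised
Wronskians of `f` vanish, `f` satisfies a non-trivial linear relation with constant coefficients. -/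
def St_WRON : Prop := ∀ (K ι κ : Type) [Field K] [Fintype κ] [DecidableEq κ] (D : ι → K → K),
  (∀ i a b, D i (a + b) = D i a + D i b) → (∀ i a b, D i (a * b) = a * D i b + D i a * b) →
  ∀ f : κ → K, (∀ w : κ → List ι, (Matrix.of fun a j => wrd D (w a) (f j)).det = 0) →
  ∃ c : κ → K, c ≠ 0 ∧ (∀ j i, D i (c j) = 0) ∧ ∑ j, c j * f j = 0

namespace WRONB

/-- If all square minors formed from a family of rows vanish, a non-zero vector kills all rows. -/
theorem exists_ker {K W κ : Type} [Field K] [Fintype κ] [DecidableEq κ] (r : W → κ → K)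
    (h : ∀ w : κ → W, (Matrix.of fun a j => r (w a) j).det = 0) :
    ∃ c : κ → K, c ≠ 0 ∧ ∀ w, ∑ j, c j * r w j = 0 := by
  have hlt : Submodule.span K (Set.range r) < ⊤ := by
    rw [lt_top_iff_ne_top]
    intro htop
    obtain ⟨κ', a, -, hsp, hli⟩ := exists_linearIndependent' K r
    rw [htop] at hsp
    let b : Module.Basis κ' K (κ → K) := Module.Basis.mk hli (by rw [hsp])
    let e : κ ≃ κ' := (Pi.basisFun K κ).indexEquiv b
    have h2 : LinearIndependent K (Matrix.of fun x j => r (a (e x)) j).row :=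
      hli.comp e e.injective
    have h3 := (Matrix.isUnit_iff_isUnit_det _).1 (Matrix.linearIndependent_rows_iff_isUnit.1 h2)
    exact h3.ne_zero (h fun x => a (e x))
  obtain ⟨g, hg, hle⟩ := Submodule.exists_le_ker_of_lt_top _ hlt
  have hgx : ∀ x : κ → K, g x = ∑ j, g (Pi.single j 1) * x j := by
    intro x
    conv_lhs => rw [pi_eq_sum_univ' x, map_sum]
    refine Finset.sum_congr rfl fun j _ => ?_
    rw [map_smul, smul_eq_mul, mul_comm]
  refine ⟨fun j => g (Pi.single j 1), fun h0 => hg ?_, fun w => ?_⟩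
  · refine LinearMap.ext fun x => ?_
    rw [hgx x]
    refine Finset.sum_eq_zero fun j _ => ?_
    have := congrFun h0 j
    simp only [Pi.zero_apply] at this
    rw [this, zero_mul]
  · rw [← hgx]
    exact hle (Submodule.subset_span ⟨w, rfl⟩)

end WRONB

theorem st_WRON : St_WRON := by
  intro K ι κ _ _ _ D hadd hmul f h
  classical
  have h0 : ∀ i, D i 0 = 0 := fun i => by
    have := hadd i 0 0
    rw [add_zero] at this
    exact left_eq_add.1 this
  have h1 : ∀ i, D i 1 = 0 := fun i => by
    have := hmul i 1 1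
    rw [one_mul, one_mul, mul_one] at this
    exact left_eq_add.1 this
  have hsum : ∀ i (g : κ → K), D i (∑ j, g j) = ∑ j, D i (g j) := fun i g =>
    map_sum (AddMonoidHom.mk' (D i) (hadd i)) g Finset.univ
  have hex := WRONB.exists_ker (fun (l : List ι) j => wrd D l (f j)) h
  let P : ℕ → Prop := fun m => ∃ c : κ → K, c ≠ 0 ∧ (∀ w, ∑ j, c j * wrd D w (f j) = 0) ∧
    (Finset.univ.filter fun j => c j ≠ 0).card = m
  have hP : ∃ m, P m := by
    obtain ⟨c, hc, hw⟩ := hex
    exact ⟨_, c, hc, hw, rfl⟩
  obtain ⟨c, hc, hw, hcard⟩ := Nat.find_spec hP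
  obtain ⟨j0, hj0⟩ := Function.ne_iff.1 hc
  simp only [Pi.zero_apply] at hj0
  have hw' : ∀ w, ∑ j, ((c j0)⁻¹ * c j) * wrd D w (f j) = 0 := fun w => by
    simp only [mul_assoc]
    rw [← Finset.mul_sum, hw w, mul_zero]
  refine ⟨fun j => (c j0)⁻¹ * c j, fun hz => ?_, fun j i => ?_, hw' []⟩
  · have := congrFun hz j0
    simp only [Pi.zero_apply] at this
    rw [inv_mul_cancel₀ hj0] at this
    exact one_ne_zero this
  · by_contra hne
    have hrel : ∀ w, ∑ j, D i ((c j0)⁻¹ * c j) * wrd D w (f j) = 0 := fun w => by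
      have e1 := congrArg (D i) (hw' w)
      rw [hsum, h0] at e1
      simp only [hmul i (_ * _) (wrd D w _)] at e1
      rw [Finset.sum_add_distrib] at e1
      have e2 : ∑ j, ((c j0)⁻¹ * c j) * D i (wrd D w (f j)) = 0 := hw' (i :: w)
      rwa [e2, zero_add] at e1
    have hlt : (Finset.univ.filter fun j => D i ((c j0)⁻¹ * c j) ≠ 0).card < Nat.find hP := by
      rw [← hcard]
      refine Finset.card_lt_card ⟨fun x hx => ?_, fun hs => ?_⟩
      · rw [Finset.mem_filter] at hx ⊢
        refine ⟨hx.1, fun hz => hx.2 ?_⟩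
        rw [hz, mul_zero, h0]
      · have := hs (Finset.mem_filter.2 ⟨Finset.mem_univ j0, hj0⟩)
        rw [Finset.mem_filter, inv_mul_cancel₀ hj0, h1] at this
        exact this.2 rfl
    exact Nat.find_min hP hlt ⟨_, fun hz => hne (congrFun hz j), hrel, rfl⟩

end Pool.Agent.Lib.RA
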