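import Pool.Agent.Lib.RA.Blue0
import Pool.Agent.Lib.RA.T_FIB
import Pool.Agent.Lib.RA.T_AN

/-! Project ra1, step C: rigidity gives a bounded number of classes of germs. -/

open scoped Classical Topology ContDiff ComplexOrder Matrix
open Set Complex Metric Filter

set_option linter.unusedVariables false

noncomputable section

namespace Pool.Agent.Lib.RA

open Pool.Agent.Lib.SV (E)
open Pool.Agent.Lib.HS32

namespace PAIRB

theorem nq_jr {n r : ℕ} (J : Matrix (Fin r) (Fin n) ℂ) (G : Mat r) (v : E n) :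
    nq (Jᴴ * G * J) v = nq G (J *ᵥ v) := by
  unfold nq
  rw [Matrix.star_mulVec, ← Matrix.mulVec_mulVec, ← Matrix.mulVec_mulVec, Matrix.dotProduct_mulVec]

theorem sq_le_re {r : ℕ} (u : E r) : ‖u‖ ^ 2 ≤ (star u ⬝ᵥ u).re := by
  have h : (star u ⬝ᵥ u).re = ∑ i, ‖u i‖ ^ 2 := by
    simp only [dotProduct, Pi.star_apply, Complex.re_sum]
    refine Finset.sum_congr rfl fun i _ => ?_
    rw [Complex.star_def, Complex.conj_mul', ← Complex.ofReal_pow, Complex.ofReal_re]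
  rw [h]
  have h0 : 0 ≤ ∑ i, ‖u i‖ ^ 2 := Finset.sum_nonneg fun i _ => sq_nonneg _
  have h1 : ‖u‖ ≤ √(∑ i, ‖u i‖ ^ 2) := by
    refine (pi_norm_le_iff_of_nonneg (Real.sqrt_nonneg _)).2 fun i => ?_
    exact Real.le_sqrt_of_sq_le
      (Finset.single_le_sum (f := fun i => ‖u i‖ ^ 2) (fun i _ => sq_nonneg _) (Finset.mem_univ i))
  calc ‖u‖ ^ 2 ≤ √(∑ i, ‖u i‖ ^ 2) ^ 2 := by gcongr
    _ = _ := Real.sq_sqrt h0

theorem nq_low {r : ℕ} {G : Mat r} {c : ℝ} (hc : 0 < c)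
    (h : (G - (c : ℂ) • (1 : Mat r)).PosSemidef) (u : E r) : c * ‖u‖ ^ 2 ≤ nq G u := by
  have h1 := h.dotProduct_mulVec_nonneg u
  rw [Matrix.sub_mulVec, dotProduct_sub, Matrix.smul_mulVec, Matrix.one_mulVec,
    dotProduct_smul] at h1
  have h2 := (Complex.le_def.1 h1).1
  simp only [Complex.zero_re, Complex.sub_re, smul_eq_mul, Complex.re_ofReal_mul] at h2
  have h3 := mul_le_mul_of_nonneg_left (sq_le_re u) hc.le
  unfold nq
  linarith

theorem nq_up {r : ℕ} {G : Mat r} {C : ℝ} (hC : 0 ≤ C) (h : ∀ v : E r, ‖G *ᵥ v‖ ≤ C * ‖v‖)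
    (u : E r) : nq G u ≤ r * C * ‖u‖ ^ 2 := by
  unfold nq
  refine (Complex.re_le_norm _).trans ?_
  unfold dotProduct
  refine (norm_sum_le _ _).trans ?_
  have : ∀ i ∈ (Finset.univ : Finset (Fin r)), ‖star u i * (G *ᵥ u) i‖ ≤ C * ‖u‖ ^ 2 := by
    intro i _
    rw [norm_mul, Pi.star_apply, norm_star]
    calc ‖u i‖ * ‖(G *ᵥ u) i‖ ≤ ‖u‖ * (C * ‖u‖) :=
          mul_le_mul (norm_le_pi_norm u i) ((norm_le_pi_norm _ i).trans (h u)) (norm_nonneg _)
            (norm_nonneg _)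
      _ = C * ‖u‖ ^ 2 := by ring
  refine (Finset.sum_le_card_nsmul _ _ _ this).trans (le_of_eq ?_)
  simp [mul_assoc]

/-- Two-sided bounds for the Hessian of the potential of the tube. -/
theorem bounds (hTV : St_TV) {k j : ℕ} {Φ : E (k + j) × E (k + j) → ℂ} {δ c : ℝ}
    (hT : Tv k j Φ δ c) : ∃ C : ℝ, 0 < C ∧ ∀ t : E (k + j), ‖pj t‖ < 2 * δ →
      ContDiffAt ℝ ∞ (fun w => (ph0 Φ w : ℂ)) t ∧
      ∀ u, c * ‖u‖ ^ 2 ≤ nq (hr (ph0 Φ) t) u ∧ nq (hr (ph0 Φ) t) u ≤ C * ‖u‖ ^ 2 := by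
  obtain ⟨-, -, -, -, h5, -⟩ := hTV k j Φ δ c hT
  set L : E (k + j) →L[ℂ] E (k + j) := LinearMap.toContinuousLinearMap (Gm Φ 0).mulVecLin with hL
  have hc := hT.c0
  refine ⟨((k + j : ℕ) : ℝ) * (‖L‖ + c) + 1, by positivity, fun t ht => ?_⟩
  obtain ⟨a1, -, a3, -⟩ := h5 t ht
  have hm : pj t ∈ ball (0 : E (k + j)) (2 * δ) := by simpa using ht
  refine ⟨Complex.ofRealCLM.contDiff.contDiffAt.comp t a1.contDiffAt, fun u => ?_⟩
  rw [a3]
  refine ⟨nq_low hc (hT.lo _ hm) u, (nq_up (C := ‖L‖ + c) (by positivity) (fun v => ?_) u).trans ?_⟩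
  · have h1 := hT.near (dg (pj t)) (by simpa [dg, Prod.norm_def] using ht) v
    have h2 : ‖Gm Φ 0 *ᵥ v‖ ≤ ‖L‖ * ‖v‖ := L.le_opNorm v
    have h3 : Gm Φ (dg (pj t)) *ᵥ v = Gm Φ 0 *ᵥ v + (Gm Φ (dg (pj t)) - Gm Φ 0) *ᵥ v := by
      rw [Matrix.sub_mulVec]; abel
    rw [h3]
    refine (norm_add_le _ _).trans ?_
    linarith
  · nlinarith [sq_nonneg ‖u‖]

theorem chain (hC : St_CH2) {n r : ℕ} {H : E n → E r} {z : E n} (hH : HolN H z) {f : E r → ℝ}
    (hf : ContDiffAt ℝ ∞ (fun w => (f w : ℂ)) (H z)) :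
    ContDiffAt ℝ ∞ (fun w => ((f ∘ H) w : ℂ)) z ∧
      hr (f ∘ H) z = (jr H z)ᴴ * hr f (H z) * jr H z ∧
      ∀ v, nq (hr (f ∘ H) z) v = nq (hr f (H z)) (fderiv ℂ H z v) := by
  obtain ⟨a1, -, -, -, -, -, a7⟩ := hC n r H z hH
  obtain ⟨b1, b2⟩ := a7 _ hf
  refine ⟨b1, b2, fun v => ?_⟩
  rw [a1, ← nq_jr]
  exact congrArg (fun T => nq T v) b2

theorem hr_congr {n : ℕ} {f g : E n → ℝ} {z : E n} (h : f =ᶠ[𝓝 z] g) : hr f z = hr g z := by
  ext i l
  have h1 : (fun w => (f w : ℂ)) =ᶠ[𝓝 z] fun w => (g w : ℂ) := h.mono fun w hw => by simp [hw]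
  have h2 : dz l (fun w => (f w : ℂ)) =ᶠ[𝓝 z] dz l fun w => (g w : ℂ) := by
    filter_upwards [h1.eventuallyEq_nhds] with w hw
    simp only [dz, hw.fderiv_eq]
  simp only [hr, hess, Matrix.of_apply, dzb, h2.fderiv_eq]

end PAIRB

open PAIRB

theorem st_PAIR (hC : St_CH2) (hTV : St_TV) (k j : ℕ) (Φ : E (k + j) × E (k + j) → ℂ)
    (δ c ε : ℝ) (hT : Tv k j Φ δ c) (hε : 0 < ε) (hR : Rig Φ δ ε) : ∃ N, Fin0 Φ δ N := by
  obtain ⟨C, hC0, hb⟩ := bounds hTV hT
  have hc := hT.c0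
  have hδ := hT.d0
  set A : ℝ := √(C / c) with hA
  have hA0 : 0 ≤ A := Real.sqrt_nonneg _
  have hcmp : ∀ a b : ℝ, 0 ≤ b → c * a ^ 2 ≤ C * b ^ 2 → a ≤ A * b := by
    intro a b hb0 h
    refine (le_abs_self a).trans (abs_le_of_sq_le_sq ?_ (by positivity))
    rw [mul_pow, hA, Real.sq_sqrt (by positivity), div_mul_eq_mul_div, le_div_iff₀ hc]
    linarith
  have hK : IsCompact (closedBall (0 : E (k + j)) δ ×ˢ
      closedBall (0 : E (k + j) →L[ℂ] E (k + j)) A) :=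
    (isCompact_closedBall _ _).prod (isCompact_closedBall _ _)
  set η : ℝ := ε / (2 * (A + 1)) with hη
  have hη0 : 0 < η := by positivity
  obtain ⟨S, -, hSf, hS⟩ := hK.finite_cover_balls hη0
  have := hSf.fintype
  refine ⟨Fintype.card S, fun n y H hH hv hs he => ?_⟩
  have hpj : Continuous (pj : E (k + j) → E (k + j)) := by
    refine continuous_pi fun i => ?_
    refine Fin.addCases (fun l => ?_) (fun l => ?_) i
    · simp only [pj, Fin.append_left, fx]; fun_prop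
    · simp only [pj, Fin.append_right, sx]; fun_prop
  have hlt : ∀ i, ∀ᶠ z in 𝓝 y, ‖pj (H i z)‖ < 2 * δ := fun i =>
    ((hpj.continuousAt.comp (hH i).self_of_nhds.continuousAt).norm).eventually_lt
      continuousAt_const (by have := hv i; simp only [Function.comp]; linarith)
  -- the quadratic forms agree near `y`
  have hq : ∀ i i', ∀ᶠ z in 𝓝 y, ∀ v, nq (hr (ph0 Φ) (H i z)) (fderiv ℂ (H i) z v) =
      nq (hr (ph0 Φ) (H i' z)) (fderiv ℂ (H i') z v) := by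
    intro i i'
    filter_upwards [he i i', hlt i, hlt i', (hH i).eventually_nhds, (hH i').eventually_nhds]
      with z h1 h2 h3 h4 h5 v
    rw [← (chain hC h4 (hb _ h2).1).2.2, ← (chain hC h5 (hb _ h3).1).2.2, h1.1]
  have hcmp2 : ∀ i i', ∀ᶠ z in 𝓝 y, ∀ v, ‖fderiv ℂ (H i') z v‖ ≤ A * ‖fderiv ℂ (H i) z v‖ := by
    intro i i'
    filter_upwards [hq i i', hlt i, hlt i'] with z h1 h2 h3 v
    refine hcmp _ _ (norm_nonneg _) ?_
    exact (((hb _ h3).2 _).1.trans (h1 v).ge).trans ((hb _ h2).2 _).2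
  obtain ⟨R, hR0⟩ := (fderiv ℂ (H 0) y).exists_rightInverse_of_surjective
    (LinearMap.range_eq_top.2 (hs 0))
  have hLR : ∀ a, fderiv ℂ (H 0) y (R a) = a := fun a => DFunLike.congr_fun hR0 a
  set D : Fin (Fintype.card S + 1) → E (k + j) →L[ℂ] E (k + j) :=
    fun i => (fderiv ℂ (H i) y).comp R with hD
  have hDn : ∀ i, ‖D i‖ ≤ A := fun i => by
    refine ContinuousLinearMap.opNorm_le_bound _ hA0 fun u => ?_
    have := (hcmp2 0 i).self_of_nhds (R u)
    rwa [hLR] at this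
  have hDL : ∀ i v, fderiv ℂ (H i) y v = D i (fderiv ℂ (H 0) y v) := fun i v => by
    have h1 := (hcmp2 0 i).self_of_nhds (v - R (fderiv ℂ (H 0) y v))
    rw [map_sub (fderiv ℂ (H 0) y), hLR, sub_self, norm_zero, mul_zero, map_sub] at h1
    exact sub_eq_zero.1 (norm_le_zero_iff.1 h1)
  have hmem : ∀ i, ∃ x : S, (pj (H i y), D i) ∈ ball x.1 η := fun i => by
    have : (pj (H i y), D i) ∈ closedBall (0 : E (k + j)) δ ×ˢ
        closedBall (0 : E (k + j) →L[ℂ] E (k + j)) A :=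
      ⟨by simpa using hv i, by simpa using hDn i⟩
    obtain ⟨x, hx, h⟩ := mem_iUnion₂.1 (hS this)
    exact ⟨⟨x, hx⟩, h⟩
  choose g hg using hmem
  obtain ⟨i, i', hne, hgi⟩ := Fintype.exists_ne_map_eq_of_card_lt g (by simp)
  refine ⟨i, i', hne, ?_⟩
  have hd : dist (pj (H i' y), D i') (pj (H i y), D i) < 2 * η := by
    have h1 := mem_ball.1 (hg i)
    have h2 := mem_ball.1 (hg i')
    rw [← hgi] at h2
    have := dist_triangle_right (pj (H i' y), D i') (pj (H i y), D i) (g i).1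
    linarith
  rw [Prod.dist_eq, max_lt_iff, dist_eq_norm, dist_eq_norm] at hd
  have h2η : 2 * η * (A + 1) = ε := by rw [hη]; field_simp
  obtain ⟨s, sa, sy, sr, -, sk⟩ := st_FIB _ _ (H i) y (ANB.analyticAt (hH i)) (hs i)
  have hfac : ∀ᶠ x in 𝓝 y, H i' x = H i' (s (H i x)) := by
    refine sk _ (H i') ?_
    filter_upwards [hH i', hcmp2 i i'] with x h1 h2
    refine ⟨h1, fun v hv0 => ?_⟩
    have := h2 v
    rw [hv0, norm_zero, mul_zero] at this
    exact norm_le_zero_iff.1 this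
  have hst : Tendsto s (𝓝 (H i y)) (𝓝 y) := by
    have := sa.continuousAt.tendsto
    rwa [sy] at this
  have hsH : HolN s (H i y) := sa.eventually_analyticAt.mono fun w hw => hw.differentiableAt
  have hγ : HolN (H i' ∘ s) (H i y) := by
    filter_upwards [hsH, hst.eventually (hH i')] with w h1 h2
    exact h2.comp w h1
  have hγy : (H i' ∘ s) (H i y) = H i' y := by simp [sy]
  have hsd := sa.differentiableAt
  have hid : ∀ w, fderiv ℂ (H i) y (fderiv ℂ s (H i y) w) = w := fun w => by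
    have h1 : fderiv ℂ (H i ∘ s) (H i y) = fderiv ℂ id (H i y) :=
      EventuallyEq.fderiv_eq (sr.mono fun a ha => ha)
    rw [fderiv_comp _ (by rw [sy]; exact (hH i).self_of_nhds) hsd, sy, fderiv_id] at h1
    exact DFunLike.congr_fun h1 w
  obtain ⟨a, ha⟩ := hR (H i' ∘ s) (H i y) hγ (hv i) (by rw [hγy]; exact hv i') (by
      filter_upwards [sr.eventually_nhds, hsH.eventually_nhds, hst.eventually (he i i'),
        hst.eventually (hlt i), hst.eventually (hlt i'), hst.eventually (hH i).eventually_nhds,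
        hst.eventually (hH i').eventually_nhds] with w h1 h2 h3 h4 h5 h6 h7
      refine ⟨?_, by rw [Function.comp, ← h3.2, h1.self_of_nhds]⟩
      have e1 := (chain hC h2 (chain hC h7 (hb _ h5).1).1).2.1
      have e2 := (chain hC h2 (chain hC h6 (hb _ h4).1).1).2.1
      have e3 : hr ((ph0 Φ ∘ H i) ∘ s) w = hr (ph0 Φ) w :=
        hr_congr (h1.mono fun a ha => by simp [ha])
      rw [← e3, e2, h3.1, ← e1]
      rfl)
    (by rw [hγy]; nlinarith [hd.1]) (by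
      rw [fderiv_comp _ (by rw [sy]; exact (hH i').self_of_nhds) hsd, sy]
      refine lt_of_le_of_lt (ContinuousLinearMap.opNorm_le_bound _
        (mul_nonneg (norm_nonneg (D i' - D i)) hA0) fun w => ?_) (by nlinarith [hd.2])
      have h1 := (hcmp2 i 0).self_of_nhds (fderiv ℂ s (H i y) w)
      rw [hid] at h1
      have h2 : ((fderiv ℂ (H i') y).comp (fderiv ℂ s (H i y)) - ContinuousLinearMap.id ℂ (E (k + j))) w =
          (D i' - D i) (fderiv ℂ (H 0) y (fderiv ℂ s (H i y) w)) := by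
        rw [sub_apply, sub_apply, ← hDL, ← hDL, hid]
        rfl
      rw [h2, mul_assoc]
      exact ((D i' - D i).le_opNorm _).trans (mul_le_mul_of_nonneg_left h1 (norm_nonneg _)))
  refine ⟨a, ?_⟩
  filter_upwards [hfac, (hH i).self_of_nhds.continuousAt.eventually ha] with z h1 h2
  rw [h1]
  exact h2

end Pool.Agent.Lib.RA
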