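import Pool.Agent.Lib.RA.B_RIG
import Pool.Agent.Lib.RA.B_PAIR
import Pool.Agent.Lib.RA.B_WAD
import Pool.Agent.Lib.RA.B_TV

/-! Block FIN: finite multiplicity of every box. -/

open scoped Classical Topology ContDiff ComplexOrder Matrix
open Set Complex Metric Filter

set_option linter.unusedVariables false

noncomputable section

namespace Pool.Agent.Lib.RA

open Pool.Agent.Lib.SV (E nsq)
open Pool.Agent.Lib.HS32 KA BCH2

namespace BFIN

variable {n r : ℕ} {h : E n → E r} {z : E n}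

/-- Holomorphic vector fields lift through a submersion. -/
theorem lift {V : E r → E r} (hh : HolN h z) (hs : Function.Surjective (fderiv ℂ h z))
    (hV : HolN V (h z)) : ∃ W : E n → E n, HolN W z ∧ ∀ᶠ w in 𝓝 z, jr h w *ᵥ W w = V (h w) := by
  obtain ⟨B0, hB0⟩ := (fderiv ℂ h z).toLinearMap.exists_rightInverse_of_surjective
    (LinearMap.range_eq_top.2 hs)
  set B : E r →L[ℂ] E n := LinearMap.toContinuousLinearMap B0
  set A : E n → E r →L[ℂ] E r := fun w => (fderiv ℂ h w).comp B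
  have hA : HolN A z := (K56.hn_fderiv hh).mono fun w hw => hw.clm_comp (differentiableAt_const _)
  have h1 : A z = 1 := ContinuousLinearMap.ext fun v => LinearMap.congr_fun hB0 v
  have hU : ∀ᶠ w in 𝓝 z, IsUnit (A w) := hA.self_of_nhds.continuousAt.eventually
    (Units.isOpen.mem_nhds (by rw [h1]; exact isUnit_one))
  refine ⟨fun w => B (Ring.inverse (A w) (V (h w))), ?_, ?_⟩
  · filter_upwards [hA, hU, holN_comp hV hh] with w a1 a2 a3
    exact B.differentiableAt.comp w (((differentiableAt_inverse a2).comp w a1).clm_apply a3)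
  · filter_upwards [hU] with w a2
    rw [← fderiv_mulVec]
    change (A w * Ring.inverse (A w)) (V (h w)) = _
    rw [Ring.mul_inverse_cancel _ a2]
    rfl

theorem dbv_comp {f : E r → ℝ} (hh : DifferentiableAt ℂ h z) (hf : DifferentiableAt ℝ f (h z)) :
    dbv (f ∘ h) z = (jr h z)ᴴ *ᵥ dbv f (h z) := funext fun l =>
  (chain hh (f := fun t => (f t : ℂ)) (ofRealCLM.differentiableAt.comp _ hf) l).2.trans
    (Finset.sum_congr rfl fun a _ => mul_comm _ _)

theorem dbv_congr {f g : E n → ℝ} (e : f =ᶠ[𝓝 z] g) : dbv f z = dbv g z :=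
  funext fun i => dzb_congr (e.mono fun w hw => congrArg ofReal hw)

theorem alg {J : Matrix (Fin r) (Fin n) ℂ} {P : Mat r} (hP : P.IsHermitian) {W V₀ : E n} {u : E r}
    {i : Fin r} (h0 : J *ᵥ V₀ = Pi.single i 1) (h1 : (Jᴴ * P * J) *ᵥ W = Jᴴ *ᵥ u) :
    star W ⬝ᵥ Jᴴ *ᵥ (P *ᵥ Pi.single i 1) = star (u i) := by
  have a : (Jᴴ * P * J).IsHermitian := Matrix.isHermitian_conjTranspose_mul_mul J hP
  rw [← h0, Matrix.mulVec_mulVec, Matrix.mulVec_mulVec, Matrix.dotProduct_mulVec, ← a.eq,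
    ← Matrix.star_mulVec, h1, Matrix.star_mulVec, Matrix.conjTranspose_conjTranspose,
    ← Matrix.dotProduct_mulVec, h0, dotProduct_single_one, Pi.star_apply]

theorem maxT (hG : St_GLB) {k j : ℕ} {M : Mf n} [M.Cpt] [SimplyConnectedSpace M.X]
    {G : M.Fam (Mat n)} {φ : M.Fam ℝ} {μ : Fin k → M.X → ℝ} (hS : Su M G φ (k + j))
    (hH : HF M φ (k + j)) (hK : Kf M φ (k + j) μ) (hM : KMax M φ (k + j) μ) {x₀ : M.X}
    {Φ : E (k + j) × E (k + j) → ℂ} {δ c : ℝ} {O : Set M.X} {H : M.X → E (k + j)}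
    {σ : E (k + j) → M.X} (hb : Box M φ μ x₀ Φ δ c O H σ) : MaxT Φ δ := by
  intro t ht ν V hν hV he
  obtain ⟨s1, s2, s3⟩ := hb.sec t ht
  obtain ⟨G1, G2⟩ := hG n M G φ _ hS hH
  have T5 := (st_TV k j Φ δ c hb.tv).2.2.2.2.1
  have hol : ∀ y ∈ O, HolAt M H y := fun y hy => (hb.adm y hy).iso.1
  have hc : Tendsto H (𝓝 (σ t)) (𝓝 t) := by
    have := holAt_cont (hol _ s1)
    rwa [ContinuousAt, s2] at this
  have key := (hb.op.eventually_mem s1).and
    (hc.eventually ((hν.eventually_analyticAt.and hV.eventually_nhds).and he))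
  have pt : ∀ y ∈ O, ∀ e ∈ M.C, y ∈ e.source → M.hw φ e (e y) =
      (jr (H ∘ e.symm) (e y))ᴴ * hr (ph0 Φ) (H y) * jr (H ∘ e.symm) (e y) := fun y hy e he hx =>
    (BWAD.point st_TV hb.tv (hol y hy) (hb.adm y hy).val (hb.adm y hy).iso.2.self_of_nhds e he
      hx).1
  have db : ∀ y ∈ O, ∀ f : E (k + j) → ℝ, AnalyticAt ℝ f (H y) → ∀ e ∈ M.C, y ∈ e.source →
      dbv ((f ∘ H) ∘ e.symm) (e y) = (jr (H ∘ e.symm) (e y))ᴴ *ᵥ dbv f (H y) :=
    fun y hy f hf e he hx => by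
      have := dbv_comp (f := f) (hol y hy e he hx).self_of_nhds
        (by simpa only [Function.comp, e.left_inv hx] using hf.differentiableAt)
      rwa [Function.comp_apply, e.left_inv hx] at this
  obtain ⟨ν', n1, n2⟩ := G1 (ν ∘ H) (σ t) ⟨anAt_comp (by rwa [s2]) (anAt_of_hol (hol _ s1)), by
    filter_upwards [key, key.eventually_nhds] with y h1 h2 _ e he hy
    obtain ⟨W, w1, w2⟩ := lift (V := V) (hol y h1.1 e he hy) (hb.sub y h1.1 e he hy)
      (by rw [Function.comp_apply, e.left_inv hy]; exact h1.2.1.2)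
    refine ⟨W, w1, ?_⟩
    filter_upwards [w2, (ev_iff hy).1 h2, e.open_target.mem_nhds (e.map_source hy)] with w a1 a2 a3
    have b1 := pt _ a2.1 e he (e.map_target a3)
    have b2 := db _ a2.1 ν a2.2.1.1 e he (e.map_target a3)
    rw [e.right_inv a3] at b1 b2
    rw [b1, b2, a2.2.2.1, ← Matrix.mulVec_mulVec, a1, ← Matrix.mulVec_mulVec]
    rfl⟩
  obtain ⟨a, b, hab⟩ := hM ν' n1 fun i => G2 (μ i) ν' (σ t) (hK.kp i) n1 (by
    filter_upwards [key, n2.eventuallyEq_nhds] with y h1 h2 _ e he hy V₁ W₁ b1 b2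
    obtain ⟨t1, t2, -, -, t3, -⟩ := T5 _ (hb.adm y h1.1).val
    obtain ⟨V₀, b3⟩ := hb.sub y h1.1 e he hy (Pi.single (Fin.castAdd j i) 1)
    rw [fderiv_mulVec] at b3
    rw [dbv_congr (eq_chart h2 hy), db y h1.1 ν h1.2.1.1 e he hy, pt y h1.1 e he hy] at b2
    rw [b1, dbv_congr (eq_chart (g := (fun w => mu0 Φ w i) ∘ H)
      ((hb.adm y h1.1).mom.mono fun w hw => hw i) hy),
      db y h1.1 _ (analyticAt_pi_iff.1 t2 i) e he hy, t3,
      alg (P := hr (ph0 Φ) (H y)) (hess_herm t1.contDiffAt) b3 b2]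
    simpa [fx] using h1.2.2.2 i)
  refine ⟨a, b, ?_⟩
  filter_upwards [isOpen_ball.mem_nhds ht, s3.1.eventually n2] with s h1 h2
  obtain ⟨u1, u2, -⟩ := hb.sec s h1
  rw [Function.comp_apply, u2] at h2
  rw [← h2, hab]
  simp only [(hb.adm _ u1).mom.self_of_nhds, u2]

end BFIN

theorem st_FIN (hG : St_GLB) : St_FIN := by
  intro n k j M _ _ G φ μ hS hH hK hM x₀ Φ δ c O H σ hb
  obtain ⟨ε, h0, h1⟩ := st_RIG hb.tv (BFIN.maxT hG hS hH hK hM hb)
  exact st_PAIR st_CH2 st_TV k j Φ δ c ε hb.tv h0 h1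

end Pool.Agent.Lib.RA
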