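import Pool.Agent.Lib.HN.Tail
import Pool.Agent.Lib.HS32.MAll

/-! Project ra1, row G2, part b: a submersive pluricanonical map gives growth. -/

open scoped Classical Topology ContDiff ComplexOrder Matrix ENNReal
open Set MeasureTheory Complex Metric Filter

set_option linter.unusedVariables false

noncomputable section

namespace Pool.Agent.Lib.RA.G2B

open Pool.Agent.Lib.SV (E nsq)
open Pool.Agent.Lib.HS32

variable {n r : ℕ} {M : Mf n}

theorem hsec_one : M.HSec 0 fun _ _ => 1 :=
  ⟨⟨fun _ _ _ _ => contDiffAt_const, fun _ _ _ _ _ _ _ => by simp⟩,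
    fun _ _ _ _ => differentiableAt_const _⟩

theorem hsec_mul {a b : ℕ} {s t : M.Fam ℂ} (hs : M.HSec a s) (ht : M.HSec b t) :
    M.HSec (a + b) fun e z => s e z * t e z :=
  ⟨⟨fun e he z hz => (hs.sm e he z hz).mul (ht.sm e he z hz), fun e he e' he' x hx hx' => by
    beta_reduce
    rw [hs.cmp e he e' he' x hx hx', ht.cmp e he e' he' x hx hx', pow_add]
    ring⟩, fun e he z hz => (hs.hol e he z hz).mul (ht.hol e he z hz)⟩

theorem hsec_pw {m : ℕ} {s : M.Fam ℂ} (h : M.HSec m s) (k : ℕ) :
    M.HSec (m * k) fun e z => s e z ^ k :=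
  ⟨⟨fun e he z hz => (h.sm e he z hz).pow k, fun e he e' he' x hx hx' => by
    beta_reduce
    rw [h.cmp e he e' he' x hx hx', mul_pow, pow_mul]⟩,
    fun e he z hz => (h.hol e he z hz).pow k⟩

theorem hsec_prod {m : ℕ} {ι : Type} (T : Finset ι) {s : ι → M.Fam ℂ} (h : ∀ i, M.HSec m (s i))
    (k : ι → ℕ) : M.HSec (m * ∑ i ∈ T, k i) fun e z => ∏ i ∈ T, s i e z ^ k i := by
  induction T using Finset.induction_on with
  | empty => simpa using hsec_one
  | insert i T hi ih =>
    simp only [Finset.sum_insert hi, Finset.prod_insert hi, mul_add]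
    exact hsec_mul (hsec_pw (h i) _) ih

/-- Monomials in the components of an open map are independent. -/
theorem mono_indep {X : Type} {l : Filter X} {F : X → E r} {y : E r} (hF : map F l = 𝓝 y) {b : ℕ}
    (g : (Fin r → Fin b) → ℂ) (h : ∀ᶠ x in l, ∑ α, g α * ∏ i, F x i ^ (α i).val = 0) : g = 0 := by
  let ex : (Fin r → Fin b) → Fin r →₀ ℕ := fun α => Finsupp.equivFunOnFinite.symm fun i => (α i).val
  have hex : Function.Injective ex := fun α β h => funext fun i => Fin.ext
    (congrFun (Finsupp.equivFunOnFinite.symm.injective h) i)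
  let P : MvPolynomial (Fin r) ℂ := ∑ α, MvPolynomial.monomial (ex α) (g α)
  have hP : ∀ t : E r, MvPolynomial.eval t P = ∑ α, g α * ∏ i, t i ^ (α i).val := fun t => by
    simp only [P, map_sum, MvPolynomial.eval_monomial]
    refine Finset.sum_congr rfl fun α _ => ?_
    rw [Finsupp.prod_fintype _ _ (by simp)]
    rfl
  have h1 : (fun t : E r => MvPolynomial.eval t P) =ᶠ[𝓝 y] 0 := by
    rw [← hF]
    exact h.mono fun x hx => (hP _).trans hx
  have h2 := (AnalyticOnNhd.eval_mvPolynomial (𝕜 := ℂ) P).eqOn_zero_of_preconnected_of_eventuallyEq_zero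
    isPreconnected_univ (mem_univ y) h1
  have h3 : P = 0 := MvPolynomial.funext fun t => by simpa using h2 (mem_univ t)
  funext α
  have h4 := congrArg (MvPolynomial.coeff (ex α)) h3
  simpa [P, MvPolynomial.coeff_sum, MvPolynomial.coeff_monomial, hex.eq_iff] using h4

theorem grow {m : ℕ} {e : M.Ch} (he : e ∈ M.C) {c : E n} (hc : c ∈ e.target) (hm : 0 < m)
    {s₀ : M.Fam ℂ} {s : Fin r → M.Fam ℂ} (h0 : M.HSec m s₀) (hs : ∀ i, M.HSec m (s i))
    (hne : s₀ e c ≠ 0) (hz : ∀ i, s i e c = 0)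
    (hsurj : Function.Surjective fun v i => fderiv ℂ (s i e) c v) : M.WGrow r := by
  let F : E n → E r := fun z i => s i e z / s₀ e z
  have hF1 : ContDiffAt ℝ ∞ F c :=
    contDiffAt_pi.2 fun i => (((hs i).sm e he c hc).mul ((h0.sm e he c hc).inv hne)).congr_of_eventuallyEq
      (Eventually.of_forall fun z => div_eq_mul_inv _ _)
  have hF2 : ∀ i, HasFDerivAt (fun z => F z i) ((s₀ e c)⁻¹ • fderiv ℂ (s i e) c) c := fun i => by
    have a := ((hs i).hol e he c hc).hasFDerivAt.mul
      ((hasDerivAt_inv hne).comp_hasFDerivAt c (h0.hol e he c hc).hasFDerivAt)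
    refine (a.congr_of_eventuallyEq (Eventually.of_forall fun z => div_eq_mul_inv _ _)).congr_fderiv ?_
    ext v
    simp [hz i]
  have hF3 := (hasFDerivAt_pi.2 hF2).restrictScalars ℝ
  have hF4 : map F (𝓝 c) = 𝓝 (F c) := by
    refine (hF1.hasStrictFDerivAt' hF3 (by simp)).map_nhds_eq_of_surj ?_
    refine LinearMap.range_eq_top.2 fun w => ?_
    obtain ⟨v, hv⟩ := hsurj (s₀ e c • w)
    refine ⟨v, funext fun i => ?_⟩
    have := congrFun hv i
    simp only [Pi.smul_apply, smul_eq_mul] at this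
    simp [this, hne]
  refine ⟨m, (1 / (r + 1)) ^ r, hm, by positivity, Eventually.of_forall fun a => ?_⟩
  set b := a / (r + 1) with hb
  have hle : ∀ α : Fin r → Fin (b + 1), ∑ i, (α i).val ≤ a := fun α => by
    have h1 : ∑ i, (α i).val ≤ ∑ _i : Fin r, b :=
      Finset.sum_le_sum fun i _ => Nat.lt_succ_iff.1 (α i).2
    have h2 := Nat.mul_div_le a (r + 1)
    simp only [Finset.sum_const, Finset.card_univ, Fintype.card_fin, smul_eq_mul] at h1
    nlinarith
  let t : (Fin r → Fin (b + 1)) → M.Fam ℂ := fun α e z =>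
    s₀ e z ^ (a - ∑ i, (α i).val) * ∏ i, s i e z ^ (α i).val
  have ht : ∀ α, M.HSec (m * a) (t α) := fun α => by
    have := hsec_mul (hsec_pw h0 (a - ∑ i, (α i).val)) (hsec_prod Finset.univ hs fun i => (α i).val)
    rwa [← mul_add, Nat.sub_add_cancel (hle α)] at this
  have hli : LinearIndependent ℂ fun α => M.ev (t α) := by
    refine Fintype.linearIndependent_iff.2 fun g hg => congrFun (mono_indep hF4 g ?_)
    filter_upwards [e.open_target.mem_nhds hc,
      (h0.sm e he c hc).continuousAt.eventually_ne hne] with z h1 h2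
    have h3 := congrFun hg (e.symm z)
    simp only [Finset.sum_apply, Pi.smul_apply, smul_eq_mul, Pi.zero_apply] at h3
    have h4 : ∀ α, g α * ∏ i, F z i ^ (α i).val = g α * M.ev (t α) (e.symm z) *
        ((M.J (M.ch (e.symm z)) e (e.symm z)).det ^ (m * a) / s₀ e z ^ a) := fun α => by
      have h5 := (ht α).cmp _ (Mf.ch_mem (e.symm z)) e he _ (Mf.mem_ch _) (e.map_target h1)
      beta_reduce at h5
      rw [e.right_inv h1] at h5
      rw [mul_assoc, ← mul_div_assoc, Mf.ev, ← h5]
      simp only [t, F, div_pow, Finset.prod_div_distrib, Finset.prod_pow_eq_pow_sum]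
      rw [pow_sub₀ _ h2 (hle α)]
      field_simp
    simp only [h4, ← Finset.sum_mul, h3, zero_mul]
  refine ⟨Fintype.card (Fin r → Fin (b + 1)), ?_, fun i => t ((Fintype.equivFin _).symm i),
    fun i => ht _, hli.comp _ (Fintype.equivFin _).symm.injective⟩
  rw [Fintype.card_fun, Fintype.card_fin, Fintype.card_fin, ← mul_pow]
  push_cast
  refine pow_le_pow_left₀ (by positivity) ?_ r
  have h6 : (a : ℝ) < (r + 1) * (b + 1) := by exact_mod_cast Nat.lt_mul_div_succ a r.succ_pos
  rw [one_div, inv_mul_le_iff₀ (by positivity)]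
  exact h6.le

end Pool.Agent.Lib.RA.G2B
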