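import Pool.Agent.Lib.RA.Blue0
import Pool.Agent.Lib.HW.Br
import Pool.Agent.Lib.HS13.Max

/-! The Levi form on a complex normed space. -/

open scoped Classical Topology ContDiff ComplexOrder Matrix
open Set Complex Metric Filter

set_option linter.unusedVariables false
set_option linter.unusedSectionVars false

noncomputable section

namespace Pool.Agent.Lib.RA

open Pool.Agent.Lib.SV (E)
open Pool.Agent.Lib.HS32

namespace BLEV
variable {V : Type} [NormedAddCommGroup V] [NormedSpace ℝ V] {f g : V → ℝ} {z : V}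

theorem cdf (h : ContDiffAt ℝ ∞ f z) (v : V) : ContDiffAt ℝ ∞ (fun w => fderiv ℝ f w v) z :=
  (h.fderiv_right (m := ∞) (by simp)).clm_apply contDiffAt_const

theorem le2 (h : ContDiffAt ℝ ∞ f z) : ContDiffAt ℝ 2 f z :=
  h.of_le (WithTop.coe_le_coe.2 (le_top : (2 : ℕ∞) ≤ ⊤))

theorem evd (h : ContDiffAt ℝ ∞ f z) : ∀ᶠ w in 𝓝 z, DifferentiableAt ℝ f w :=
  ((le2 h).eventually (by simp)).mono fun w hw => hw.differentiableAt (by simp)

theorem dd (h : ContDiffAt ℝ ∞ f z) : DifferentiableAt ℝ (fderiv ℝ f) z :=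
  (h.fderiv_right (m := ∞) (by simp)).differentiableAt (by simp)

theorem sec (h : ContDiffAt ℝ ∞ f z) (a b : V) :
    fderiv ℝ (fun w => fderiv ℝ f w a) z b = fderiv ℝ (fderiv ℝ f) z b a := by
  rw [fderiv_clm_apply (dd h) (differentiableAt_const a)]
  simp

theorem sec_add (hf : ContDiffAt ℝ ∞ f z) (hg : ContDiffAt ℝ ∞ g z) (a : V) :
    fderiv ℝ (fun w => fderiv ℝ (fun w => f w + g w) w a) z a =
      fderiv ℝ (fun w => fderiv ℝ f w a) z a + fderiv ℝ (fun w => fderiv ℝ g w a) z a := by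
  have e : (fun w => fderiv ℝ (fun w => f w + g w) w a) =ᶠ[𝓝 z]
      fun w => fderiv ℝ f w a + fderiv ℝ g w a := by
    filter_upwards [evd hf, evd hg] with w h1 h2
    rw [fderiv_fun_add h1 h2, add_apply]
  rw [e.fderiv_eq, fderiv_fun_add ((cdf hf a).differentiableAt (by simp))
    ((cdf hg a).differentiableAt (by simp)), add_apply]

variable [NormedSpace ℂ V]

theorem lev_add (hf : ContDiffAt ℝ ∞ f z) (hg : ContDiffAt ℝ ∞ g z) (v : V) :
    lev (fun w => f w + g w) z v = lev f z v + lev g z v := by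
  simp only [lev, sec_add hf hg]
  ring

theorem lev_neg (f : V → ℝ) (z v : V) : lev (fun w => -f w) z v = -lev f z v := by
  simp only [lev, fderiv_fun_neg, neg_apply]
  ring

theorem lev_congr (e : f =ᶠ[𝓝 z] g) (v : V) : lev f z v = lev g z v := by
  have h : ∀ a, (fun w => fderiv ℝ f w a) =ᶠ[𝓝 z] fun w => fderiv ℝ g w a := fun a =>
    e.eventuallyEq_nhds.mono fun w hw => by simp only [hw.fderiv_eq]
  simp only [lev, (h _).fderiv_eq]

theorem lev_cd (hf : ContDiffAt ℝ ∞ f z) (v : V) : ContDiffAt ℝ ∞ (fun w => lev f w v) z :=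
  ((cdf (cdf hf v) v).add (cdf (cdf hf (I • v)) (I • v))).div_const 4

theorem lev_min (hf : ContDiffAt ℝ ∞ f z) (hm : IsLocalMin f z) (v : V) : 0 ≤ lev f z v := by
  have h := fun a => HS13.hess_nonpos (le2 hf.neg) hm.neg a
  have h1 := lev_neg f z v
  rw [lev, sec hf.neg, sec hf.neg] at h1
  linarith [h v, h (I • v)]

variable [IsScalarTower ℝ ℂ V] [FiniteDimensional ℂ V] {W : Type} [NormedAddCommGroup W]
  [NormedSpace ℝ W] [NormedSpace ℂ W] [IsScalarTower ℝ ℂ W] [FiniteDimensional ℂ W] {ψ : W → V}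
  {y : W}

theorem hol_cd (h : ∀ᶠ w in 𝓝 y, DifferentiableAt ℂ ψ w) : ContDiffAt ℂ ∞ ψ y := by
  have : CompleteSpace V := FiniteDimensional.complete ℂ V
  obtain ⟨O, h1, hO, hy⟩ := _root_.eventually_nhds_iff.1 h
  exact (SV.H85.contDiffOn_top hO fun w hw => (h1 w hw).differentiableWithinAt).contDiffAt
    (hO.mem_nhds hy)

theorem sec_comp (hf : ContDiffAt ℝ ∞ f (ψ y)) (h : ∀ᶠ w in 𝓝 y, DifferentiableAt ℂ ψ w) (a : W) :
    fderiv ℝ (fun w => fderiv ℝ (f ∘ ψ) w a) y a =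
      fderiv ℝ f (ψ y) (fderiv ℂ (fderiv ℂ ψ) y a a) +
        fderiv ℝ (fderiv ℝ f) (ψ y) (fderiv ℂ ψ y a) (fderiv ℂ ψ y a) := by
  have e : (fun w => fderiv ℝ (f ∘ ψ) w a) =ᶠ[𝓝 y] fun w => fderiv ℝ f (ψ w) (fderiv ℂ ψ w a) := by
    filter_upwards [h, h.self_of_nhds.continuousAt.eventually (evd hf)] with w h1 h2
    rw [(h2.hasFDerivAt.comp w (h1.hasFDerivAt.restrictScalars ℝ)).fderiv]
    rfl
  have h1 := (((hol_cd h).fderiv_right (m := ∞) (by simp)).differentiableAt (by simp)).hasFDerivAt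
  have h2 := (h1.clm_apply (hasFDerivAt_const a y)).restrictScalars ℝ
  have h3 := (dd hf).hasFDerivAt.comp y (h.self_of_nhds.hasFDerivAt.restrictScalars ℝ)
  have h4 := (h3.clm_apply h2).fderiv
  simp only [Function.comp_apply] at h4
  rw [e.fderiv_eq, h4]
  simp

theorem lev_comp (hf : ContDiffAt ℝ ∞ f (ψ y)) (h : ∀ᶠ w in 𝓝 y, DifferentiableAt ℂ ψ w) (v : W) :
    lev (f ∘ ψ) y v = lev f (ψ y) (fderiv ℂ ψ y v) := by
  have e : fderiv ℂ (fderiv ℂ ψ) y (I • v) (I • v) = -fderiv ℂ (fderiv ℂ ψ) y v v := by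
    simp only [map_smul, smul_apply, smul_smul, I_mul_I, neg_one_smul]
  rw [lev, lev, sec_comp hf h, sec_comp hf h, sec hf, sec hf, e, map_neg, map_smul]
  ring

end BLEV

theorem st_LEV : St_LEV := by
  refine ⟨fun n f z v h => HW.levi_eq h v, fun V _ _ _ _ _ f z hf => ⟨fun g v hg =>
    ⟨BLEV.lev_add hf hg v, ?_⟩, fun v => (BLEV.lev_cd hf v).continuousAt, BLEV.lev_min hf,
    fun W _ _ _ _ _ ψ y v h e => ?_⟩⟩
  · simp only [sub_eq_add_neg]
    rw [BLEV.lev_add hf hg.neg, BLEV.lev_neg]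
  · subst e
    exact ⟨hf.comp y ((BLEV.hol_cd h).restrict_scalars ℝ), BLEV.lev_comp hf h v⟩

end Pool.Agent.Lib.RA
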