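import Pool.Agent.Lib.RA.B_G2a
import Pool.Agent.Lib.RA.B_G2b
import Pool.Agent.Lib.RA.B_CH2
import Pool.Agent.Lib.RA.B_LEV
import Pool.Agent.Lib.RA.K_At
import Pool.Agent.Lib.HS95.R_POL

/-! Project ra1, row G2: peak sections. -/

open scoped Classical Topology ContDiff ComplexOrder Matrix ENNReal
open Set MeasureTheory Complex Metric Filter

set_option linter.unusedVariables false

noncomputable section

namespace Pool.Agent.Lib.RA

open Pool.Agent.Lib.SV (E nsq)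
open Pool.Agent.Lib.HS32 KA

namespace G2B

variable {n r m : ℕ} {M : Mf n} {φ : M.Fam ℝ} {x₂ x : M.X} {U : Set M.X} {H : M.X → E r}
  {δ c : ℝ} {s : M.Fam ℂ} {e : M.Ch} {z : E n}

/-- Extension by zero. -/
def ex {X F : Type} [Zero F] (U : Set X) (H : X → E r) (g : E r → F) (x : X) : F :=
  if x ∈ U then g (H x) else 0

/-- A function of `H` times a power of the section. -/
def sg (U : Set M.X) (H : M.X → E r) (s : M.Fam ℂ) (a : ℕ) (g : E r → ℂ) : M.Fam ℂ :=
  fun e z => ex U H g (e.symm z) * s e z ^ a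

/-- The shell. -/
def shl (U : Set M.X) (H : M.X → E r) (δ : ℝ) : Set M.X :=
  {x | x ∈ U ∧ ‖H x‖ ≤ δ} ∩ (U ∩ H ⁻¹' ball 0 (δ / 2))ᶜ

theorem ex_in {F : Type} [Zero F] (hP : Pk M φ r x₂ U H δ c m s) (g : E r → F) (hx : x ∈ U) :
    ex U H g =ᶠ[𝓝 x] g ∘ H := by
  filter_upwards [hP.op.mem_nhds hx] with y hy using if_pos hy

theorem ex_out {F : Type} [Zero F] (hP : Pk M φ r x₂ U H δ c m s) {g : E r → F}
    (h0 : ∀ t ∉ closedBall (0 : E r) δ, g t = 0) (hx : ¬(x ∈ U ∧ ‖H x‖ ≤ δ)) :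
    ex U H g =ᶠ[𝓝 x] fun _ => 0 := by
  filter_upwards [hP.cl.isOpen_compl.mem_nhds hx] with y hy
  unfold ex
  split_ifs with h
  · exact h0 _ fun h1 => hy ⟨h, mem_closedBall_zero_iff.1 h1⟩
  · rfl

theorem ex_sm {F : Type} [NormedAddCommGroup F] [NormedSpace ℝ F] (hP : Pk M φ r x₂ U H δ c m s)
    {g : E r → F} (hg : ContDiff ℝ ∞ g) (h0 : ∀ t ∉ closedBall (0 : E r) δ, g t = 0) :
    M.Sm (ex U H g) := sm_of_smAt fun x => by
  by_cases hx : x ∈ U
  · exact smAt_congr (fun e he h => hg.contDiffAt.comp _ (BCH2.cd (hP.hol x hx e he h)))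
      (ex_in hP g hx)
  · exact smAt_congr (fun e he h => contDiffAt_const) (ex_out hP h0 fun h => hx h.1)

theorem inn_open (hP : Pk M φ r x₂ U H δ c m s) : IsOpen (U ∩ H ⁻¹' ball 0 (δ / 2)) :=
  ContinuousOn.isOpen_inter_preimage (fun x hx => (holAt_cont (hP.hol x hx)).continuousWithinAt)
    hP.op isOpen_ball

theorem shl_closed (hP : Pk M φ r x₂ U H δ c m s) : IsClosed (shl U H δ) :=
  hP.cl.inter (inn_open hP).isClosed_compl

theorem sg_out (hP : Pk M φ r x₂ U H δ c m s) (a : ℕ) {g : E r → ℂ}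
    (h0 : ∀ t ∉ closedBall (0 : E r) δ, g t = 0) (hz : z ∈ e.target)
    (hx : ¬(e.symm z ∈ U ∧ ‖H (e.symm z)‖ ≤ δ)) : sg U H s a g e =ᶠ[𝓝 z] fun _ => 0 := by
  filter_upwards [(ev_iff' hz).1 (ex_out hP h0 hx)] with w hw
  rw [sg, hw, zero_mul]

theorem sg_in (hP : Pk M φ r x₂ U H δ c m s) (a : ℕ) (g : E r → ℂ) (hz : z ∈ e.target)
    (hx : e.symm z ∈ U) :
    sg U H s a g e =ᶠ[𝓝 z] fun w => (g ∘ (H ∘ e.symm)) w * s e w ^ a := by
  filter_upwards [(ev_iff' hz).1 (ex_in hP g hx)] with w hw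
  rw [sg, hw]
  rfl

theorem sg_sec (hP : Pk M φ r x₂ U H δ c m s) (a : ℕ) {g : E r → ℂ} (hg : ContDiff ℝ ∞ g)
    (h0 : ∀ t ∉ closedBall (0 : E r) δ, g t = 0) : M.Sec (m * a) (sg U H s a g) where
  sm e he z hz := by
    by_cases hx : e.symm z ∈ U
    · exact (ex_sm hP hg h0 e he z hz).mul
        (((mHOL n _ z).2.2 (at_tgt he hz (hP.sec _ hx)).1).1.pow a)
    · exact contDiffAt_const.congr_of_eventuallyEq (sg_out hP a h0 hz fun h => hx h.1)
  cmp e he e' he' x hx hx' := by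
    simp only [sg, e.left_inv hx, e'.left_inv hx']
    by_cases h : x ∈ U
    · rw [hP.cmp e he e' he' x hx hx' h, mul_pow, pow_mul, mul_assoc]
    · simp [ex, h]

theorem sg_hol (hP : Pk M φ r x₂ U H δ c m s) (a : ℕ) {g : E r → ℂ} (he : e ∈ M.C)
    (hz : z ∈ e.target) (hx : e.symm z ∈ U) (hg : DifferentiableAt ℂ g (H (e.symm z))) :
    DifferentiableAt ℂ (sg U H s a g e) z :=
  ((hg.comp z (at_tgt he hz (hP.hol _ hx)).self_of_nhds).mul
    ((at_tgt he hz (hP.sec _ hx)).1.self_of_nhds.pow a)).congr_of_eventuallyEq (sg_in hP a g hz hx)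

theorem sg_dzb (hP : Pk M φ r x₂ U H δ c m s) (a : ℕ) {g : E r → ℂ} (hg : ContDiff ℝ ∞ g)
    (he : e ∈ M.C) (hz : z ∈ e.target) (hx : e.symm z ∈ U) (v : E n) :
    ∑ i, star (v i) * dzb i (sg U H s a g e) z =
      ∑ b, sg U H s a (dzb b g) e z * star ((jr (H ∘ e.symm) z *ᵥ v) b) := by
  have h1 := (at_tgt he hz (hP.hol _ hx)).self_of_nhds
  have h2 : DifferentiableAt ℂ (fun w => s e w ^ a) z :=
    (at_tgt he hz (hP.sec _ hx)).1.self_of_nhds.pow a
  have h3 : DifferentiableAt ℝ g ((H ∘ e.symm) z) := cd_diff hg.contDiffAt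
  have h4 : ∀ i, dzb i (sg U H s a g e) z =
      (∑ b, dzb b g (H (e.symm z)) * star (jr (H ∘ e.symm) z b i)) * s e z ^ a := fun i => by
    rw [dzb_congr (sg_in hP a g hz hx), dzb_mul (h3.comp z (h1.restrictScalars ℝ))
      (h2.restrictScalars ℝ), (BCH2.chain h1 h3 i).2,
      ((mHOL n _ z).1 (h2.restrictScalars ℝ)).1 h2 i]
    simp
  simp only [h4, sg, ex, if_pos hx, Matrix.mulVec, dotProduct, star_sum, star_mul', Finset.mul_sum,
    Finset.sum_mul]
  rw [Finset.sum_comm]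
  exact Finset.sum_congr rfl fun b _ => Finset.sum_congr rfl fun i _ => by ring

theorem nq_one (w : E r) : nq (1 : Mat r) w = nsq w := by
  simp only [nq, Matrix.one_mulVec, dotProduct, Pi.star_apply, re_sum, nsq]
  exact Finset.sum_congr rfl fun i _ => by simp [normSq_apply]

theorem nq_pb (J : Matrix (Fin r) (Fin n) ℂ) (A : Mat r) (v : E n) :
    nq (Jᴴ * A * J) v = nq A (J *ᵥ v) := by
  unfold nq
  rw [Matrix.star_mulVec, ← Matrix.mulVec_mulVec, ← Matrix.mulVec_mulVec, Matrix.dotProduct_mulVec]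

theorem nq_cs (a : ℝ) (A : Mat n) (v : E n) : nq ((a : ℂ) • A) v = a * nq A v := by
  simp only [nq, Matrix.smul_mulVec, dotProduct_smul, smul_eq_mul, re_ofReal_mul]

theorem cs (a b : E r) : normSq (∑ i, a i * star (b i)) ≤ nsq a * nsq b := by
  have h1 : ‖∑ i, a i * star (b i)‖ ≤ ∑ i, ‖a i‖ * ‖b i‖ :=
    (norm_sum_le _ _).trans (le_of_eq (Finset.sum_congr rfl fun i _ => by rw [norm_mul, norm_star]))
  simp only [nsq, normSq_eq_norm_sq]
  exact (pow_le_pow_left₀ (norm_nonneg _) h1 2).trans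
    (Finset.sum_mul_sq_le_sq_mul_sq Finset.univ (fun i => ‖a i‖) fun i => ‖b i‖)

theorem nsq_nn (w : E r) : 0 ≤ nsq w := Finset.sum_nonneg fun _ _ => normSq_nonneg _

theorem sq_le (w : E r) : ‖w‖ ^ 2 ≤ nsq w := by
  have h1 : ‖w‖ ≤ √(nsq w) := (pi_norm_le_iff_of_nonneg (Real.sqrt_nonneg _)).2 fun i =>
    Real.le_sqrt_of_sq_le (by
      rw [← normSq_eq_norm_sq]
      exact Finset.single_le_sum (f := fun i => normSq (w i)) (fun i _ => normSq_nonneg _)
        (Finset.mem_univ i))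
  exact (pow_le_pow_left₀ (norm_nonneg _) h1 2).trans_eq (Real.sq_sqrt (nsq_nn w))

theorem le_sq (w : E r) : nsq w ≤ r * ‖w‖ ^ 2 := by
  have : ∀ j, normSq (w j) ≤ ‖w‖ ^ 2 := fun j => by
    rw [normSq_eq_norm_sq]
    exact pow_le_pow_left₀ (norm_nonneg _) (norm_le_pi_norm w j) 2
  simpa [nsq] using Finset.sum_le_sum (s := Finset.univ) fun j _ => this j

theorem dble [M.Cpt] {G T : M.Fam (Mat n)} (hG : M.Met G) (hP : Pk M φ r x₂ U H δ c m s) (a : ℕ)
    (hT : M.All fun e z => T e z = M.hw φ e z) (h0T : M.Le 0 T) {g : E r → ℂ}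
    (hg : ContDiff ℝ ∞ g) (h0 : ∀ t ∉ closedBall (0 : E r) δ, g t = 0)
    (hh : ∀ t ∈ ball (0 : E r) (δ / 2), DifferentiableAt ℂ g t) (C₀ : ℝ) :
    ∃ C', C₀ ≤ C' ∧ 0 ≤ C' ∧ M.DbLe G (m * a) (sg U H s a g) ((shl U H δ).indicator fun _ => C') T := by
  have hb : ∀ b, M.Sec (m * a) (sg U H s a (dzb b g)) := fun b =>
    sg_sec hP a (contDiff_iff_contDiffAt.2 fun t => cd_dzb hg.contDiffAt b) fun t ht => by
      rw [dzb_congr (g := fun _ => 0) (eventually_of_mem
        (isClosed_closedBall.isOpen_compl.mem_nhds ht) h0)]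
      simp [dzb]
  have hN := fun b => HS.st_SC5 mTR mCHN mHOL n M G _ _ _ hG (hb b) (hb b)
  obtain ⟨B, hB⟩ := isCompact_univ.exists_bound_of_continuousOn
    (f := fun x => ∑ b, M.nr G (m * a) (sg U H s a (dzb b g)) x)
    (continuous_finsetSum _ fun b _ => (hN b).2.2.2.1).continuousOn
  have hc := hP.c0
  refine ⟨max C₀ (|B| / c), le_max_left _ _, le_max_of_le_right (by positivity),
    fun e he z hz v => ?_⟩
  have hv : 0 ≤ nq (T e z) v := by
    simpa [nq] using HS.P55.nq_mono (h0T e he z hz) v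
  by_cases hx : e.symm z ∈ shl U H δ
  · rw [indicator_of_mem hx, sg_dzb hP a hg he hz hx.1.1]
    have h1 := HS.P55.nq_mono (at_tgt he hz (hP.lo _ hx.1.1)) v
    rw [nq_cs, pb, nq_pb, nq_one, ← hT e he z hz] at h1
    have h2 := (le_abs_self _).trans ((hB (e.symm z) (mem_univ _)).trans (le_abs_self B))
    simp only [fun b => (hN b).2.2.1 e he z hz, ← Finset.sum_div] at h2
    have d0 := pow_pos (Mf.pd_det_re (hG.pos e he z hz)) (m * a)
    calc _ ≤ nsq (fun b => sg U H s a (dzb b g) e z) * nsq (jr (H ∘ e.symm) z *ᵥ v) /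
          (G e z).det.re ^ (m * a) := div_le_div_of_nonneg_right (cs _ _) d0.le
      _ = nsq (fun b => sg U H s a (dzb b g) e z) / (G e z).det.re ^ (m * a) / c *
          (c * nsq (jr (H ∘ e.symm) z *ᵥ v)) := by field_simp
      _ ≤ _ := mul_le_mul ((div_le_div_of_nonneg_right h2 hc.le).trans (le_max_right _ _)) h1
        (mul_nonneg hc.le (nsq_nn _)) (le_max_of_le_right (by positivity))
  · have h1 : ∀ i, dzb i (sg U H s a g e) z = 0 := fun i => by
      by_cases h2 : e.symm z ∈ U ∧ ‖H (e.symm z)‖ ≤ δ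
      · have h3 : e.symm z ∈ U ∩ H ⁻¹' ball 0 (δ / 2) := not_not.1 fun h => hx ⟨h2, h⟩
        have h4 := sg_hol hP a he hz h2.1 (hh _ h3.2)
        exact ((mHOL n _ z).1 (h4.restrictScalars ℝ)).1 h4 i
      · rw [dzb_congr (sg_out hP a h0 hz h2)]
        simp [dzb]
    simp [h1, indicator_of_notMem hx]

/-- The weights with a pole along the fibre. -/
theorem pole {T : M.Fam (Mat n)} (hP : Pk M φ r x₂ U H δ c m s)
    (hT : M.All fun e z => T e z = M.hw φ e z) (h0T : M.Le 0 T) {g : E r → ℝ} {L : ℝ} (hL : 0 ≤ L)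
    (hg : ContDiff ℝ ∞ g) (h0 : ∀ t ∉ closedBall (0 : E r) δ, g t = 0)
    (hl : ∀ t v, -(L * ‖v‖ ^ 2) ≤ HS95.lv g t v) : M.Le 0 ((L / c) • T + M.hs (ex U H g)) := by
  intro e he z hz
  have hc := hP.c0
  simp only [Pi.add_apply, Pi.smul_apply, Pi.zero_apply, sub_zero]
  by_cases hx : e.symm z ∈ U
  · have h1 : M.hs (ex U H g) e z = pb M H (hr g (H (e.symm z))) e z := by
      rw [at_tgt he hz (hs_congr (ex_in hP g hx))]
      exact BCH2.hess_comp (f := fun t => (g t : ℂ)) (at_tgt he hz (hP.hol _ hx))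
        (cd_ofReal hg.contDiffAt)
    have h2 : ((L : ℂ) • (1 : Mat r) + hr g (H (e.symm z))).PosSemidef := by
      have h3 : ((L : ℂ) • (1 : Mat r) + hr g (H (e.symm z))).IsHermitian :=
        (Mf.herm_rsmul Matrix.isHermitian_one L).add (hess_herm hg.contDiffAt)
      refine Matrix.PosSemidef.of_dotProduct_mulVec_nonneg h3 fun v => Complex.nonneg_iff.2
        ⟨?_, (h3.im_star_dotProduct_mulVec_self v).symm⟩
      have h4 := hl (H (e.symm z)) v
      have h5 : HS95.lv g (H (e.symm z)) v = 4 * nq (hr g (H (e.symm z))) v := by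
        rw [← st_LEV.1 r g _ v hg.contDiffAt, lev]
        simp only [HS95.lv, HS95.d2]
        ring
      have h6 := mul_le_mul_of_nonneg_left (sq_le v) hL
      have h7 := nq_cs L (1 : Mat r) v
      rw [nq_one] at h7
      rw [Matrix.add_mulVec, dotProduct_add, add_re]
      change 0 ≤ nq _ v + nq _ v
      have := mul_nonneg hL (sq_nonneg ‖v‖)
      linarith
    have h8 := (Mf.psd_rsmul (at_tgt he hz (hP.lo _ hx)) (div_nonneg hL hc.le)).add
      (h2.conjTranspose_mul_mul_same (jr (H ∘ e.symm) z))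
    refine (congrArg Matrix.PosSemidef ?_).mp h8
    rw [h1, hT e he z hz]
    simp only [pb, Matrix.mul_add, Matrix.add_mul, Matrix.mul_smul, Matrix.smul_mul, smul_sub]
    have : (L / c) • (c : ℂ) • ((jr (H ∘ e.symm) z)ᴴ * (1 : Mat r) * jr (H ∘ e.symm) z) =
        (L : ℂ) • ((jr (H ∘ e.symm) z)ᴴ * (1 : Mat r) * jr (H ∘ e.symm) z) := by
      rw [← Complex.coe_smul, smul_smul, ← Complex.ofReal_mul, div_mul_cancel₀ _ hc.ne']
    rw [this]
    abel
  · rw [at_tgt he hz (hs_congr (ex_out hP h0 fun h => hx h.1)),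
      ((mLAP n M _ _ (Mf.sm_const 0) (Mf.sm_const 0)).1 0 e he z hz).1, add_zero]
    simpa using Mf.psd_rsmul (h0T e he z hz) (div_nonneg hL hc.le)

end G2B

open G2B in
theorem st_G2 (hHOR : HS.St_HOR) : St_G2 := by
  intro n r m M _ G φ x₂ U H δ c s hn hS hP
  have hG := hS.kae.toMet
  have hw := ((mHES n M).2.2.2.2.1 _ _ _ _ (-1) (mINV n M G hG).2.2.2.2.2.2.1 hS.wt).2.1
  have hw2 := ((mHES n M).2.2.2.2.1 _ _ _ _ 0 hS.wt hw).1
  rw [mul_one, add_neg_cancel] at hw2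
  obtain ⟨hu, hrep⟩ := (mHES n M).2.2.2.2.2.2.1 _ hw2
  set u := M.ev (φ + (-1 : ℝ) • fun e z => Real.log (G e z).det.re) with hu0
  have hT : M.All fun e z => M.theta G u e z = M.hw φ e z := fun e he z hz => by
    have a := (mCOF n _ z (hG.sm e he z hz)).2.2.2.2.2 (Mf.AllOn.ev hG.pos he hz)
    have b : M.lc u e =ᶠ[𝓝 z] fun w => (φ e w : ℂ) - ld (G e) w := by
      filter_upwards [hrep.ev he hz] with w hw
      simp only [Mf.lc, ld]
      rw [show u (e.symm w) = _ from hw]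
      simp [sub_eq_add_neg]
    change hess (M.lc u e) z - -hess (ld (G e)) z = hess (fun w => (φ e w : ℂ)) z
    rw [hess_congr b, hess_sub (cd_ofReal (hS.wt.sm e he z hz)) a.1]
    abel
  have h0T : M.Le 0 (M.theta G u) := fun e he z hz => by
    beta_reduce
    rw [hT e he z hz]
    exact hS.psd e he z hz
  have hδ := hP.d0
  obtain ⟨χ, L, hL, hχ, hχ0, hχ1, hχ2, hχ3⟩ := HS95.st_POL (Fin r) 0 (δ / 2) (half_pos hδ)
  rw [mul_div_cancel₀ _ two_ne_zero] at hχ2
  simp only [sub_zero] at hχ3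
  have he := Mf.ch_mem x₂
  have hx := Mf.mem_ch x₂
  set e := M.ch x₂
  have hz := e.map_source hx
  have hH := (hP.hol _ hP.mem e he hx).self_of_nhds
  have hH0 : (H ∘ e.symm) (e x₂) = 0 := by simp [e.left_inv hx, hP.zero]
  obtain ⟨A, hA, hA'⟩ := hH.hasFDerivAt.isBigO_sub.exists_pos
  obtain ⟨r₀, hr₀, hb⟩ := Metric.eventually_nhds_iff_ball.1 (hA'.bound.and
    (((ev_iff hx).1 ((inn_open hP).eventually_mem ⟨hP.mem, by simpa [hP.zero] using hδ⟩)).and
      (e.open_target.eventually_mem hz)))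
  have hm := hP.m0
  set a := ⌈(n + 2) * (L / c) + 1⌉₊ + 1 with ha
  obtain ⟨p, hp⟩ : ∃ p, m * a = p + 1 := ⟨m * a - 1, by
    have : 0 < m * a := Nat.mul_pos hm (Nat.succ_pos _)
    omega⟩
  have hp' : ((n : ℝ) + 2) * (L / c) + 1 ≤ p := Nat.ceil_le.1 (by nlinarith)
  have key : ∀ q : E r → ℂ, ContDiff ℝ ∞ q → Differentiable ℂ q → ∃ t, M.HSec (m * a) t ∧
      t e (e x₂) = q 0 * s e (e x₂) ^ a ∧
      fderiv ℂ (t e) (e x₂) = fderiv ℂ (fun w => q ((H ∘ e.symm) w) * s e w ^ a) (e x₂) := by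
    intro q hq hq'
    have g1 : ContDiff ℝ ∞ fun t => (χ t : ℂ) * q t := (ofRealCLM.contDiff.comp hχ).mul hq
    have g0 : ∀ t ∉ closedBall (0 : E r) δ, (χ t : ℂ) * q t = 0 := fun t ht => by simp [hχ2 t ht]
    have g2 : ∀ t ∈ ball (0 : E r) (δ / 2), DifferentiableAt ℂ (fun t => (χ t : ℂ) * q t) t :=
      fun t ht => (hq' t).congr_of_eventuallyEq (by
        filter_upwards [isOpen_ball.mem_nhds ht] with w hw
        simp [hχ1 w hw])
    obtain ⟨C', c1, c2, hdb⟩ := dble hG hP a hT h0T g1 g0 g2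
      (max (Real.log (r * A ^ 2 + 1)) |Real.log ((δ / 2) ^ 2)|)
    have hd : DifferentiableOn ℂ (sg U H s a (fun t => (χ t : ℂ) * q t) e) (ball (e x₂) r₀) :=
      fun w hw => (sg_hol hP a he (hb w hw).2.2 (hb w hw).2.1.1
        (g2 _ (hb w hw).2.1.2)).differentiableWithinAt
    obtain ⟨B, hB, hB'⟩ := approx hHOR hn hS.kae hu h0T he hr₀ c2 (fun w hw => (hb w hw).2.2) hp'
      (hp ▸ sg_sec hP a g1 g0) hd (shl_closed hP) (hp ▸ hdb) fun d hd => by
        obtain ⟨l1, l2⟩ := hχ3 d hd.1 hd.2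
        have l0 : ∀ t ∉ closedBall (0 : E r) δ, χ t * Real.log (HS95.nsq t + d) = 0 :=
          fun t ht => by simp [hχ2 t ht]
        refine ⟨_, ex_sm hP l1 l0, pole hP hT h0T hL l1 l0 l2, fun w hw => ?_, fun y hy => ?_⟩
        · obtain ⟨b1, b2, -⟩ := hb w hw
          rw [hH0, sub_zero] at b1
          rw [ex, if_pos b2.1, hχ1 _ b2.2, one_mul]
          refine le_trans ?_ (add_le_add_right ((le_max_left _ _).trans c1) _)
          have n1 := nsq_nn (w - e x₂)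
          have n2 := nsq_nn (H (e.symm w))
          have n3 : nsq (H (e.symm w)) ≤ r * A ^ 2 * nsq (w - e x₂) :=
            (le_sq _).trans (by
              rw [mul_assoc]
              refine mul_le_mul_of_nonneg_left ?_ (Nat.cast_nonneg _)
              refine (pow_le_pow_left₀ (norm_nonneg _) b1 2).trans ?_
              rw [mul_pow]
              exact mul_le_mul_of_nonneg_left (sq_le _) (sq_nonneg _))
          have d0 := hd.1
          rw [← Real.log_mul (by positivity) (by positivity)]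
          refine Real.log_le_log (add_pos_of_nonneg_of_pos n2 d0) ?_
          change nsq _ + d ≤ _
          have : 0 ≤ (r : ℝ) * A ^ 2 * d := by positivity
          nlinarith
        · rw [ex, if_pos hy.1.1]
          have b1 : δ / 2 ≤ ‖H y‖ := not_lt.1 fun h => hy.2 ⟨hy.1.1, mem_ball_zero_iff.2 h⟩
          have b2 : Real.log ((δ / 2) ^ 2) ≤ Real.log (HS95.nsq (H y) + d) :=
            Real.log_le_log (by positivity) (((pow_le_pow_left₀ (by positivity) b1 2).trans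
              (sq_le _)).trans (le_add_of_nonneg_right hd.1.le))
          have b3 := (le_max_right _ _).trans c1
          have b4 := neg_abs_le (Real.log ((δ / 2) ^ 2))
          obtain ⟨b5, b6⟩ := hχ0 (H y)
          nlinarith [abs_nonneg (Real.log ((δ / 2) ^ 2))]
    obtain ⟨t, t1, t2, t3⟩ := jet he hr₀ hB (fun w hw => (hb w hw).2.2) hd hB'
    have e1 : sg U H s a (fun t => (χ t : ℂ) * q t) e =ᶠ[𝓝 (e x₂)]
        fun w => q ((H ∘ e.symm) w) * s e w ^ a := by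
      filter_upwards [ball_mem_nhds _ hr₀] with w hw
      simp [sg, ex, (hb w hw).2.1.1, hχ1 _ (hb w hw).2.1.2]
    exact ⟨t, hp ▸ t1, by rw [t2, e1.self_of_nhds]; beta_reduce; rw [hH0], t3.trans e1.fderiv_eq⟩
  obtain ⟨hs1, hs2⟩ := hP.sec _ hP.mem e he hx
  obtain ⟨t₀, t1, t2, -⟩ := key (fun _ => 1) contDiff_const (differentiable_const _)
  choose t t3 t4 t5 using fun i => key (fun w => w i) (contDiff_apply ℝ ℂ i) (differentiable_apply i)
  refine grow he hz (hp ▸ p.succ_pos) t1 t3 (by rw [t2, one_mul]; exact pow_ne_zero a hs2)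
    (fun i => by simp [t4]) fun w => ?_
  obtain ⟨v, hv⟩ := hP.sub e he hx ((s e (e x₂) ^ a)⁻¹ • w)
  refine ⟨v, funext fun i => ?_⟩
  have h1 := ((hasFDerivAt_pi'.1 hH.hasFDerivAt i).mul
    (hs1.self_of_nhds.pow a).hasFDerivAt).fderiv
  have h2 := pow_ne_zero a hs2
  change fderiv ℂ (t i e) (e x₂) v = w i
  rw [t5 i]
  refine (congrArg (fun T : E n →L[ℂ] ℂ => T v) h1).trans ?_
  have h3 : H (e.symm (e x₂)) = 0 := hH0
  simp [h3, hv, h2]

end Pool.Agent.Lib.RA
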