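import Pool.Agent.Lib.SV.Hol85

/-! The complement of a hypersurface is connected and dense. -/

open Set Filter Topology

set_option linter.unusedVariables false

noncomputable section

namespace Pool.Agent.Lib.RA

/-- The complement of the zero set of a holomorphic function is connected and dense. -/
def St_CONN : Prop :=
  ∀ (E : Type) [NormedAddCommGroup E] [NormedSpace ℂ E] (O : Set E) (δ : E → ℂ), IsOpen O →
    IsPreconnected O → DifferentiableOn ℂ δ O → (∃ z ∈ O, δ z ≠ 0) →
    IsOpen {z | z ∈ O ∧ δ z ≠ 0} ∧ IsPreconnected {z | z ∈ O ∧ δ z ≠ 0} ∧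
      ∀ z ∈ O, ∃ᶠ w in 𝓝 z, δ w ≠ 0

theorem st_CONN : St_CONN := by
  intro E _ _ O δ hO hc hd ⟨z1, hz1, h1⟩
  have hW : IsOpen {z | z ∈ O ∧ δ z ≠ 0} :=
    hd.continuousOn.isOpen_inter_preimage hO isOpen_compl_singleton
  refine ⟨hW, fun U V hU hV hs ⟨a, ha, haU⟩ ⟨b, hb, hbV⟩ => ?_, fun z hz => not_eventually.1
    fun h => h1 (SV.H85.eqOn_zero_of_preconnected hO hc hd hz h hz1)⟩
  by_contra hne
  have hz : ∀ z ∈ O, δ z ≠ 0 → z ∈ V → U.indicator (fun w => δ w * δ w) =ᶠ[𝓝 z] 0 := by
    intro z h2 h3 h4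
    filter_upwards [(hW.inter hV).mem_nhds ⟨⟨h2, h3⟩, h4⟩] with w hw
    exact indicator_of_notMem (fun h => hne ⟨w, hw.1, h, hw.2⟩) _
  have hg : DifferentiableOn ℂ (U.indicator fun w => δ w * δ w) O := fun z h2 => by
    have h3 := hd.differentiableAt (hO.mem_nhds h2)
    refine DifferentiableAt.differentiableWithinAt ?_
    by_cases h0 : δ z = 0
    · refine HasFDerivAt.differentiableAt (f' := 0) ?_
      have h4 : U.indicator (fun w => δ w * δ w) z = 0 := by simp [indicator, h0]
      rw [hasFDerivAt_iff_isLittleO]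
      have h5 : δ =o[𝓝 z] fun _ => (1 : ℝ) :=
        (Asymptotics.isLittleO_one_iff ℝ).2 (h0 ▸ h3.continuousAt.tendsto)
      have h6 : δ =O[𝓝 z] fun w => ‖w - z‖ := by simpa [h0] using h3.isBigO_sub.norm_right
      have h7 := h5.norm_left.mul_isBigO h6.norm_left
      simp only [one_mul] at h7
      refine (Asymptotics.IsBigO.of_bound' (Eventually.of_forall fun w => ?_)).trans_isLittleO
        h7.of_norm_right
      rw [h4, sub_zero, ContinuousLinearMap.zero_apply, sub_zero, ← norm_mul, norm_norm]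
      exact norm_indicator_le_norm_self _ _
    · rcases hs ⟨h2, h0⟩ with h | h
      · refine (h3.mul h3).congr_of_eventuallyEq ?_
        filter_upwards [hU.mem_nhds h] with w hw using indicator_of_mem hw _
      · exact (differentiableAt_const 0).congr_of_eventuallyEq (hz z h2 h0 h)
  have h8 := SV.H85.eqOn_zero_of_preconnected hO hc hg hb.1 (hz b hb.1 hb.2 hbV) ha.1
  rw [indicator_of_mem haU] at h8
  exact ha.2 (mul_self_eq_zero.1 h8)

end Pool.Agent.Lib.RA
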