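import Pool.Agent.Lib.HS85.Frame

/-! Straightening of commuting holomorphic vector fields. -/

open scoped Topology
open Set Filter Metric

set_option linter.unusedVariables false
set_option linter.unusedSectionVars false

noncomputable section

namespace Pool.Agent.Lib.RA

/-- Commuting holomorphic fields that are independent at `x` are constant in a chart. -/
def St_STR : Prop :=
  ∀ (V W ι : Type) [NormedAddCommGroup V] [NormedSpace ℂ V] [FiniteDimensional ℂ V]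
    [NormedAddCommGroup W] [NormedSpace ℂ W] [FiniteDimensional ℂ W] [Fintype ι]
    (Ξ : ι → V → V) (w : ι → W) (x : V) (U : Set V), U ∈ 𝓝 x →
    Module.finrank ℂ W = Module.finrank ℂ V → LinearIndependent ℂ w →
    LinearIndependent ℂ (fun i => Ξ i x) →
    (∀ᶠ z in 𝓝 x, (∀ i, DifferentiableAt ℂ (Ξ i) z) ∧
      ∀ i l, fderiv ℂ (Ξ i) z (Ξ l z) = fderiv ℂ (Ξ l) z (Ξ i z)) →
    ∃ (ψ : OpenPartialHomeomorph V W) (δ : ℝ), 0 < δ ∧ x ∈ ψ.source ∧ ψ.source ⊆ U ∧ ψ x = 0 ∧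
      ψ.target = ball 0 δ ∧ DifferentiableOn ℂ ψ ψ.source ∧ DifferentiableOn ℂ ψ.symm ψ.target ∧
      (∀ z ∈ ψ.source, ∀ i, fderiv ℂ ψ z (Ξ i z) = w i) ∧
      ∀ y ∈ ψ.target, ∀ i, fderiv ℂ ψ.symm y (w i) = Ξ i (ψ.symm y)

namespace STR22

open Pool.Agent.HS85

variable {V W ι : Type} [NormedAddCommGroup V] [NormedSpace ℂ V] [FiniteDimensional ℂ V]
  [NormedAddCommGroup W] [NormedSpace ℂ W] [FiniteDimensional ℂ W] [Fintype ι]

lemma exists_equiv {w : ι → W} {v : ι → V} (h : Module.finrank ℂ W = Module.finrank ℂ V)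
    (hw : LinearIndependent ℂ w) (hv : LinearIndependent ℂ v) :
    ∃ L : W ≃L[ℂ] V, ∀ i, L (w i) = v i := by
  let L₀ : W ≃ₗ[ℂ] V := LinearEquiv.ofFinrankEq W V h
  have hw' : LinearIndependent ℂ (L₀ ∘ w) := hw.map' L₀.toLinearMap L₀.ker
  obtain ⟨g, hg⟩ := Submodule.exists_linearEquiv_restrict_eq
    ((Module.Basis.span hw').equiv (Module.Basis.span hv) (Equiv.refl ι))
  refine ⟨(L₀.trans g).toContinuousLinearEquiv, fun i => ?_⟩
  have := hg (Module.Basis.span hw' i)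
  rw [Module.Basis.equiv_apply, Module.Basis.span_apply, Module.Basis.span_apply] at this
  exact this.symm

/-- The linear combinations of the fields. -/
def cmb (Ξ : ι → V → V) (z : V) : (ι → ℂ) →L[ℂ] V :=
  ∑ i, (ContinuousLinearMap.proj i : (ι → ℂ) →L[ℂ] ℂ).smulRight (Ξ i z)

omit [FiniteDimensional ℂ V] in
lemma cmb_apply (Ξ : ι → V → V) (z : V) (ξ : ι → ℂ) : cmb Ξ z ξ = ∑ i, ξ i • Ξ i z := by
  simp [cmb]

omit [FiniteDimensional ℂ V] in
lemma cmb_single [DecidableEq ι] (Ξ : ι → V → V) (z : V) (i : ι) :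
    cmb Ξ z (Pi.single i 1) = Ξ i z := by
  simp [cmb_apply, Pi.single_apply]

omit [FiniteDimensional ℂ V] in
lemma hasFDerivAt_cmb {Ξ : ι → V → V} {z : V} (h : ∀ i, DifferentiableAt ℂ (Ξ i) z) :
    HasFDerivAt (cmb Ξ) (∑ i, (ContinuousLinearMap.smulRightL ℂ (ι → ℂ) V
      (ContinuousLinearMap.proj i)).comp (fderiv ℂ (Ξ i) z)) z :=
  HasFDerivAt.fun_sum fun i _ => (ContinuousLinearMap.smulRightL ℂ (ι → ℂ) V
    (ContinuousLinearMap.proj i)).hasFDerivAt.comp z (h i).hasFDerivAt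

lemma exists_par {Ξ : ι → V → V} {w : ι → W} {x : V} (L : W ≃L[ℂ] V) (hL : ∀ i, L (w i) = Ξ i x)
    (hw : LinearIndependent ℂ w) (h : ∀ᶠ z in 𝓝 x, (∀ i, DifferentiableAt ℂ (Ξ i) z) ∧
      ∀ i l, fderiv ℂ (Ξ i) z (Ξ l z) = fderiv ℂ (Ξ l) z (Ξ i z)) :
    ∃ θ : W → V, θ 0 = x ∧ fderiv ℂ θ 0 = L ∧
      ∀ᶠ y in 𝓝 (0 : W), DifferentiableAt ℂ θ y ∧ ∀ i, fderiv ℂ θ y (w i) = Ξ i (θ y) := by
  classical
  obtain ⟨g, hg⟩ := (Fintype.linearCombination ℂ w).exists_leftInverse_of_injective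
    (LinearMap.ker_eq_bot.2 hw.fintypeLinearCombination_injective)
  set π : W →L[ℂ] ι → ℂ := LinearMap.toContinuousLinearMap g with hπ
  have hπw : ∀ i, π (w i) = Pi.single i 1 := fun i => by
    have := LinearMap.congr_fun hg (Pi.single i 1)
    simpa [hπ] using this
  have hs : Tendsto (Prod.snd : (ι → ℂ) × V → V) (𝓝 (0, x)) (𝓝 x) := continuous_snd.tendsto _
  obtain ⟨Φ, hΦ⟩ := frob (fun q : (ι → ℂ) × V => cmb Ξ q.2) 0 x (by
    filter_upwards [hs.eventually h] with q h1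
    have h3 := HasFDerivAt.comp (f := Prod.snd) q (hasFDerivAt_cmb h1.1) hasFDerivAt_snd
    refine ⟨h3.differentiableAt, fun ξ η => ?_⟩
    rw [show (fun q : (ι → ℂ) × V => cmb Ξ q.2) = cmb Ξ ∘ Prod.snd from rfl, h3.fderiv]
    simp only [ContinuousLinearMap.comp_apply, ContinuousLinearMap.coe_snd', cmb_apply,
      sum_apply, ContinuousLinearMap.smulRightL_apply_apply,
      ContinuousLinearMap.smulRight_apply, ContinuousLinearMap.proj_apply, map_sum, map_smul,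
      smul_apply, Finset.smul_sum]
    rw [Finset.sum_comm]
    exact Finset.sum_congr rfl fun i _ => Finset.sum_congr rfl fun l _ => by
      rw [smul_comm, h1.2])
  set B : W →L[ℂ] V := (L : W →L[ℂ] V) - (cmb Ξ x).comp π with hB
  set c : W → (ι → ℂ) × V := fun y => (π y, x + B y) with hc
  have hcd : ∀ y, HasFDerivAt c (π.prod B) y := fun y =>
    π.hasFDerivAt.prodMk (B.hasFDerivAt.const_add x)
  have hc0 : c 0 = (0, x) := by simp [hc]
  have hct : Tendsto c (𝓝 0) (𝓝 (0, x)) := hc0 ▸ (hcd 0).continuousAt.tendsto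
  have hΦ0 := hΦ.self_of_nhds
  refine ⟨Φ ∘ c, by rw [Function.comp, hc0]; exact hΦ0.2.1, ?_, ?_⟩
  · have h0 : HasFDerivAt Φ (fderiv ℂ Φ (0, x)) (c 0) := hc0 ▸ hΦ0.1.hasFDerivAt
    have h1 : Tendsto (fun y : V => ((0 : ι → ℂ), y)) (𝓝 x) (𝓝 (0, x)) :=
      Continuous.tendsto (by fun_prop) x
    have h2 := (HasFDerivAt.comp (f := fun y : V => ((0 : ι → ℂ), y)) x hΦ0.1.hasFDerivAt
      (hasFDerivAt_prodMk_right (0 : ι → ℂ) x)).unique
      ((hasFDerivAt_id x).congr_of_eventuallyEq ((h1.eventually hΦ).mono fun y hy => hy.2.1))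
    rw [(h0.comp 0 (hcd 0)).fderiv]
    ext u
    have h3 : fderiv ℂ Φ (0, x) (0, B u) = B u := DFunLike.congr_fun h2 (B u)
    have h4 := hΦ0.2.2 (π u)
    rw [hΦ0.2.1] at h4
    have h5 : ((π u, B u) : (ι → ℂ) × V) = (π u, 0) + (0, B u) := by simp
    rw [ContinuousLinearMap.comp_apply, ContinuousLinearMap.prod_apply, h5, map_add, h3, h4, hB]
    simp
  · filter_upwards [hct.eventually hΦ] with y hy
    have h1 := hy.1.hasFDerivAt.comp y (hcd y)
    refine ⟨h1.differentiableAt, fun i => ?_⟩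
    have h2 : B (w i) = 0 := by simp [hB, hπw, cmb_single, hL]
    rw [h1.fderiv, ContinuousLinearMap.comp_apply, ContinuousLinearMap.prod_apply, h2, hy.2.2,
      hπw, cmb_single]
    rfl

omit [FiniteDimensional ℂ V] [FiniteDimensional ℂ W] in
lemma fderiv_symm (ψ : OpenPartialHomeomorph V W) (h : DifferentiableOn ℂ ψ ψ.source)
    (h' : DifferentiableOn ℂ ψ.symm ψ.target) {z : V} (hz : z ∈ ψ.source) (v : W) :
    fderiv ℂ ψ z (fderiv ℂ ψ.symm (ψ z) v) = v := by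
  have h1 := ψ.map_source hz
  have h2 : HasFDerivAt ψ (fderiv ℂ ψ z) (ψ.symm (ψ z)) := by
    rw [ψ.left_inv hz]
    exact (h.differentiableAt (ψ.open_source.mem_nhds hz)).hasFDerivAt
  have h3 := (h'.differentiableAt (ψ.open_target.mem_nhds h1)).hasFDerivAt
  exact DFunLike.congr_fun ((h2.comp _ h3).unique
    ((hasFDerivAt_id _).congr_of_eventuallyEq (ψ.eventually_right_inverse h1))) v

end STR22

open STR22 Pool.Agent.HS85 in
theorem st_STR : St_STR := by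
  intro V W ι _ _ _ _ _ _ _ Ξ w x U hU hr hw hΞ h
  obtain ⟨L, hL⟩ := exists_equiv hr hw hΞ
  obtain ⟨θ, h0, h1, h2⟩ := exists_par L hL hw h
  have h3 : ∀ᶠ y in 𝓝 (0 : W), θ y ∈ U :=
    h2.self_of_nhds.1.continuousAt.tendsto.eventually (show ∀ᶠ z in 𝓝 (θ 0), z ∈ U by rwa [h0])
  obtain ⟨φ, hφ, φ0, φs, φd, φi, -⟩ := loc_inv (f := L.symm ∘ θ) (a := 0)
    (h2.mono fun y hy => L.symm.differentiableAt.comp y hy.1) (by
      rw [(L.symm.hasFDerivAt.comp 0 h2.self_of_nhds.1.hasFDerivAt).fderiv, h1,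
        ContinuousLinearEquiv.coe_symm_comp_coe]
      exact isUnit_one) (h2.and h3)
  obtain ⟨δ, hδ, hb⟩ := Metric.isOpen_iff.1 φ.open_source 0 φ0
  set ψ := ((φ.restrOpen (ball 0 δ) isOpen_ball).transHomeomorph L.toHomeomorph).symm with hψ
  have e1 : ψ.target = ball 0 δ := inter_eq_right.2 hb
  have e2 : (ψ.symm : W → V) = θ := funext fun y => by
    show L (φ y) = θ y
    rw [hφ, Function.comp, L.apply_symm_apply]
  have m0 : (0 : W) ∈ ψ.target := e1 ▸ mem_ball_self hδ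
  have k : ∀ y ∈ ψ.target, (DifferentiableAt ℂ θ y ∧ ∀ i, fderiv ℂ θ y (w i) = Ξ i (θ y)) ∧
      θ y ∈ U := fun y hy => φs (hb (e1 ▸ hy))
  have d1 : DifferentiableOn ℂ ψ ψ.source :=
    φi.comp (L.symm.differentiable.differentiableOn) fun z hz => hz.1
  have d2 : DifferentiableOn ℂ ψ.symm ψ.target := fun y hy =>
    e2 ▸ (k y hy).1.1.differentiableWithinAt
  have d3 : ∀ y ∈ ψ.target, ∀ i, fderiv ℂ ψ.symm y (w i) = Ξ i (ψ.symm y) := fun y hy =>
    e2 ▸ (k y hy).1.2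
  refine ⟨ψ, δ, hδ, ?_, fun z hz => ?_, ?_, e1, d1, d2, fun z hz i => ?_, d3⟩
  · rw [← h0, ← e2]
    exact ψ.map_target m0
  · rw [← ψ.left_inv hz, e2]
    exact (k _ (ψ.map_source hz)).2
  · rw [← h0, ← e2]
    exact ψ.right_inv m0
  · have := fderiv_symm ψ d1 d2 hz (w i)
    rwa [d3 _ (ψ.map_source hz), ψ.left_inv hz] at this

end Pool.Agent.Lib.RA
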