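import Pool.Agent.Lib.RA.T_PK
import Pool.Agent.Lib.RA.T_STR

/-! Commuting Killing potentials with dependent gradients. -/

open scoped Classical Topology ContDiff ComplexOrder Matrix
open Set Complex Metric Filter

set_option linter.unusedVariables false

noncomputable section

namespace Pool.Agent.Lib.RA

open Pool.Agent.Lib.SV (E)
open Pool.Agent.Lib.HS32

/-- If the gradients of commuting Killing potentials are dependent on an open set of points of
rank `r`, a real combination of the potentials is constant near some point of the set. -/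
def St_IND22 : Prop := ∀ (n r : ℕ) (ι : Type) [Fintype ι] (F : E n × E n → ℂ) (c : E n) (R : ℝ)
  (O : Set (E n)) (μ : ι → E n → ℝ) (V : ι → E n → E n),
  DifferentiableOn ℂ F (ball (dg c) R) → CK F c R r → IsOpen O → O.Nonempty → O ⊆ ball c R →
  (∀ z ∈ O, (Gm F (dg z)).PosSemidef ∧ r ≤ (Gm F (dg z)).rank ∧
    (∀ i, DifferentiableAt ℂ (V i) z ∧ DifferentiableAt ℝ (μ i) z ∧
      ∀ l, dzb l (fun x => (μ i x : ℂ)) z = (Gm F (dg z) *ᵥ V i z) l) ∧
    (∀ i j, (star (V j z) ⬝ᵥ Gm F (dg z) *ᵥ V i z).im = 0) ∧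
    ¬LinearIndependent ℂ fun i => Gm F (dg z) *ᵥ V i z) →
  ∃ a : ι → ℝ, a ≠ 0 ∧ ∃ z ∈ O, ∃ κ : ℝ, ∀ᶠ x in 𝓝 z, ∑ i, a i * μ i x = κ

namespace IND22

variable {n : ℕ}

lemma loc_const {G : Type} [NormedAddCommGroup G] [NormedSpace ℝ G] {f : E n → G} {z : E n}
    (h : ∀ᶠ x in 𝓝 z, DifferentiableAt ℝ f x ∧ fderiv ℝ f x = 0) : ∀ᶠ x in 𝓝 z, f x = f z := by
  obtain ⟨ε, hε, hb⟩ := Metric.mem_nhds_iff.1 h
  filter_upwards [ball_mem_nhds z hε] with x hx
  exact isOpen_ball.is_const_of_fderiv_eq_zero (convex_ball z ε).isPreconnected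
    (fun y hy => (hb hy).1.differentiableWithinAt) (fun y hy => (hb hy).2) hx (mem_ball_self hε)

lemma real_const {f : E n → ℂ} {z : E n} (h : ∀ᶠ x in 𝓝 z, DifferentiableAt ℂ f x ∧ (f x).im = 0) :
    ∀ᶠ x in 𝓝 z, f x = f z := by
  refine loc_const ?_
  filter_upwards [h, h.eventually_nhds] with x h1 h2
  have h3 := h1.1.hasFDerivAt.restrictScalars ℝ
  refine ⟨h3.differentiableAt, ?_⟩
  have h4 := (imCLM.hasFDerivAt.comp x h3).unique
    ((hasFDerivAt_const (0 : ℝ) x).congr_of_eventuallyEq (h2.mono fun y hy => hy.2))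
  have h5 : ∀ v, (fderiv ℂ f x v).im = 0 := fun v => DFunLike.congr_fun h4 v
  rw [h3.fderiv]
  refine ContinuousLinearMap.ext fun v => Complex.ext ?_ (h5 v)
  have h6 := h5 (I • v)
  rw [map_smul] at h6
  simpa using h6

lemma dbar_const {f : E n → ℝ} {z : E n}
    (h : ∀ᶠ x in 𝓝 z, DifferentiableAt ℝ f x ∧ ∀ l, dzb l (fun y => (f y : ℂ)) x = 0) :
    ∀ᶠ x in 𝓝 z, f x = f z := by
  have h0 : ∀ᶠ x in 𝓝 z, (f x : ℂ) = f z := loc_const (f := fun y => (f y : ℂ)) (by
    filter_upwards [h] with x hx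
    have h1 : DifferentiableAt ℝ (fun y => (f y : ℂ)) x := ofRealCLM.differentiableAt.comp x hx.1
    refine ⟨h1, ContinuousLinearMap.ext fun v => ?_⟩
    rw [fderiv_eq_sum]
    simp [← star_dzb_ofReal h1, hx.2])
  exact h0.mono fun x hx => ofReal_injective hx

/-- At a point of rank `r` the kernel is the common kernel. -/
lemma ker_le {F : E n × E n → ℂ} {c z u : E n} {R : ℝ} {r : ℕ} (h : CK F c R r) (hz : z ∈ ball c R)
    (hr : r ≤ (Gm F (dg z)).rank) (hu : u ∈ ball (star c) R) {v : E n}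
    (hv : Gm F (dg z) *ᵥ v = 0) : Gm F (z, u) *ᵥ v = 0 := by
  obtain ⟨K, h1, h2⟩ := h z hz
  have h3 : K ≤ LinearMap.ker (Gm F (dg z)).mulVecLin := fun w hw =>
    h2 w hw _ (PK.star_mem_ball.2 hz)
  have h4 := LinearMap.finrank_range_add_finrank_ker (Gm F (dg z)).mulVecLin
  rw [Module.finrank_fin_fun] at h4
  have h5 := Submodule.eq_of_le_of_finrank_le h3 (le_of_add_le_add_left (a := r)
    ((add_le_add_left hr _).trans (h4.le.trans (h1.trans (add_comm _ _).le))))
  exact h2 v (h5 ▸ hv) u hu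

lemma conj_rel {ι : Type} [Fintype ι] {η : Mat n} (hη : η.PosSemidef) {V : ι → E n} {W : E n}
    {d : ι → ℂ} (h1 : ∀ i j, (star (V j) ⬝ᵥ η *ᵥ V i).im = 0)
    (h2 : ∀ j, (star (V j) ⬝ᵥ η *ᵥ W).im = 0) (h3 : η *ᵥ W = ∑ i, d i • η *ᵥ V i) :
    ∑ i, (d i - star (d i)) • η *ᵥ V i = 0 := by
  have e : ∑ i, (d i - star (d i)) • η *ᵥ V i = η *ᵥ ∑ i, (d i - star (d i)) • V i := by
    simp only [Matrix.mulVec_sum, Matrix.mulVec_smul]
  have h4 : ∀ j, star (V j) ⬝ᵥ ∑ i, (d i - star (d i)) • η *ᵥ V i = 0 := fun j => by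
    have h5 := h2 j
    rw [h3] at h5
    simp only [dotProduct_sum, dotProduct_smul, smul_eq_mul, im_sum, mul_im, h1, mul_zero,
      zero_add] at h5
    simp only [dotProduct_sum, dotProduct_smul, smul_eq_mul]
    refine Complex.ext ?_ ?_
    · simp [re_sum, h1]
    · simp only [im_sum, mul_im, h1, mul_zero, zero_add, sub_im, star_def, conj_im, sub_neg_eq_add,
        add_mul, Finset.sum_add_distrib, zero_im]
      rw [h5, add_zero]
  rw [e, ← hη.dotProduct_mulVec_zero_iff, ← e, star_sum, sum_dotProduct]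
  exact Finset.sum_eq_zero fun j _ => by rw [star_smul, smul_dotProduct, h4, smul_zero]

/-- Holomorphic families have holomorphic coordinates. -/
lemma exists_coord {σ : Type} [Fintype σ] {b : σ → E n → E n} {g : E n → E n} {z : E n}
    (hi : LinearIndependent ℂ fun i => b i z)
    (h : ∀ᶠ x in 𝓝 z, (∀ i, DifferentiableAt ℂ (b i) x) ∧ DifferentiableAt ℂ g x) :
    ∃ e : E n → σ → ℂ, ∀ᶠ x in 𝓝 z, DifferentiableAt ℂ e x ∧
      (∀ d : σ → ℂ, ∑ i, d i • b i x = 0 → d = 0) ∧
      ∀ d : σ → ℂ, g x = ∑ i, d i • b i x → d = e x := by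
  obtain ⟨l, hl⟩ := (Fintype.linearCombination ℂ fun i => b i z).exists_leftInverse_of_injective
    (LinearMap.ker_eq_bot.2 hi.fintypeLinearCombination_injective)
  set L : E n →L[ℂ] σ → ℂ := LinearMap.toContinuousLinearMap l with hL
  set T : E n → (σ → ℂ) →L[ℂ] σ → ℂ := fun x => L.comp (STR22.cmb b x) with hT
  have hd : ∀ x, (∀ i, DifferentiableAt ℂ (b i) x) → DifferentiableAt ℂ T x := fun x hx =>
    (differentiableAt_const L).clm_comp (STR22.hasFDerivAt_cmb hx).differentiableAt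
  have h1 : T z = 1 := ContinuousLinearMap.ext fun d => by
    have := LinearMap.congr_fun hl d
    simpa [hT, hL, STR22.cmb_apply, Fintype.linearCombination_apply] using this
  have h2 : ∀ᶠ x in 𝓝 z, IsUnit (T x) := (hd z h.self_of_nhds.1).continuousAt.eventually
    (Units.isOpen.mem_nhds (show IsUnit (T z) from h1 ▸ isUnit_one))
  refine ⟨fun x => Ring.inverse (T x) (L (g x)), ?_⟩
  filter_upwards [h, h2] with x hx hu
  have h3 : ∀ d, Ring.inverse (T x) (L (∑ i, d i • b i x)) = d := fun d => by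
    have := DFunLike.congr_fun (Ring.inverse_mul_cancel _ hu) d
    rwa [← STR22.cmb_apply]
  refine ⟨((differentiableAt_inverse hu).comp x (hd x hx.1)).clm_apply
    (L.differentiableAt.comp x hx.2), fun d h4 => ?_, fun d h4 => ?_⟩
  · rw [← h3 d, h4, map_zero, map_zero]
  · rw [h4, h3]

end IND22

open IND22 in
theorem st_IND22 : St_IND22 := by
  intro n r ι _ F c R O μ V hF hK hO hne hOb H
  obtain ⟨s, hs, hmax⟩ := Finset.exists_max_image (Finset.univ.filter fun s : Finset ι =>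
    ∃ z ∈ O, LinearIndepOn ℂ (fun i => Gm F (dg z) *ᵥ V i z) s) Finset.card
    ⟨∅, Finset.mem_filter.2 ⟨Finset.mem_univ _, hne.imp fun z hz => ⟨hz, by simp⟩⟩⟩
  obtain ⟨z, hz, hi⟩ := (Finset.mem_filter.1 hs).2
  obtain ⟨k, hk⟩ : ∃ k, k ∉ s := by
    by_contra hc
    push Not at hc
    rw [Finset.eq_univ_of_forall hc, Finset.coe_univ, linearIndepOn_univ_iff] at hi
    exact (H z hz).2.2.2.2 hi
  have hu : star z ∈ ball (star c) R := PK.star_mem_ball.2 (hOb hz)
  have hb : ∀ x ∈ O, ∀ i, DifferentiableAt ℂ (fun y => Gm F (y, star z) *ᵥ V i y) x := by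
    intro x hx i
    refine differentiableAt_pi.2 fun l => ?_
    simp only [Matrix.mulVec, dotProduct]
    refine DifferentiableAt.fun_sum fun j _ => DifferentiableAt.mul ?_
      (differentiableAt_pi.1 ((H x hx).2.2.1 i).1 j)
    exact (PK.hasF_z (PK.hn_at (PK.hn_Gm (PK.hn_of_on isOpen_ball hF
      (PK.mk_mem_ball.2 ⟨hOb hx, hu⟩)) l j))).differentiableAt
  obtain ⟨e, he⟩ := exists_coord (b := fun (i : s) y => Gm F (y, star z) *ᵥ V i y)
    (g := fun y => Gm F (y, star z) *ᵥ V k y) hi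
    (Filter.mem_of_superset (hO.mem_nhds hz) fun x hx => ⟨fun i => hb x hx i, hb x hx k⟩)
  have key : ∀ᶠ x in 𝓝 z, x ∈ O ∧ DifferentiableAt ℂ e x ∧ (∀ i, (e x i).im = 0) ∧
      Gm F (dg x) *ᵥ V k x = ∑ i : s, e x i • Gm F (dg x) *ᵥ V i x := by
    filter_upwards [he, hO.mem_nhds hz] with x hx hxO
    obtain ⟨p1, p2, -, p3, -⟩ := H x hxO
    have t : ∀ (d : s → ℂ) (a : ℂ), a • Gm F (dg x) *ᵥ V k x = ∑ i : s, d i • Gm F (dg x) *ᵥ V i x →
        a • Gm F (x, star z) *ᵥ V k x = ∑ i : s, d i • Gm F (x, star z) *ᵥ V i x := by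
      intro d a hd
      have := ker_le hK (hOb hxO) p2 hu (v := a • V k x - ∑ i : s, d i • V i x) (by
        simp only [Matrix.mulVec_sub, Matrix.mulVec_sum, Matrix.mulVec_smul, hd, sub_self])
      simpa only [Matrix.mulVec_sub, Matrix.mulVec_sum, Matrix.mulVec_smul, sub_eq_zero] using this
    have t0 : ∀ d : s → ℂ, ∑ i : s, d i • Gm F (dg x) *ᵥ V i x = 0 → d = 0 := fun d hd =>
      hx.2.1 d (by rw [← t d 0 (by rw [hd, zero_smul]), zero_smul])
    have t1 : LinearIndepOn ℂ (fun i => Gm F (dg x) *ᵥ V i x) s :=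
      Fintype.linearIndependent_iff.2 fun d hd => congrFun (t0 d hd)
    have t2 : ¬LinearIndepOn ℂ (fun i => Gm F (dg x) *ᵥ V i x) (insert k (s : Set ι)) := fun hc => by
      have := hmax (insert k s) (Finset.mem_filter.2 ⟨Finset.mem_univ _, x, hxO, by
        rwa [Finset.coe_insert]⟩)
      rw [Finset.card_insert_of_notMem hk] at this
      omega
    rw [linearIndepOn_insert (by simpa using hk), not_and, not_not, image_eq_range,
      Submodule.mem_span_range_iff_exists_fun] at t2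
    obtain ⟨d, hd⟩ := t2 t1
    have t3 : d = e x := hx.2.2 d (by simpa using t d 1 (by rw [one_smul]; exact hd.symm))
    subst t3
    refine ⟨hxO, hx.1, fun i => ?_, hd.symm⟩
    have := congrFun (t0 _ (conj_rel p1 (fun i j : s => p3 i j) (fun j => p3 k j) hd.symm)) i
    exact conj_eq_iff_im.1 (sub_eq_zero.1 this).symm
  have hc : ∀ᶠ x in 𝓝 z, ∀ i, e x i = e z i := eventually_all.2 fun i =>
    real_const (key.mono fun x hx => ⟨differentiableAt_pi.1 hx.2.1 i, hx.2.2.1 i⟩)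
  have hre : ∀ i, (((e z i).re : ℝ) : ℂ) = e z i := fun i =>
    Complex.ext rfl (key.self_of_nhds.2.2.1 i).symm
  refine ⟨fun i => if h : i ∈ s then -(e z ⟨i, h⟩).re else if i = k then 1 else 0, fun h0 => ?_,
    z, hz, μ k z - ∑ i : s, (e z i).re * μ i z, ?_⟩
  · simpa [hk] using congrFun h0 k
  · have h1 := dbar_const (f := fun x => μ k x - ∑ i : s, (e z i).re * μ i x) (z := z) (by
      filter_upwards [key, hc] with x hx h2
      have p := (H x hx.1).2.2.1
      have q : ∀ i, DifferentiableAt ℝ (fun y => (μ i y : ℂ)) x := fun i =>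
        ofRealCLM.differentiableAt.comp x (p i).2.1
      refine ⟨(p k).2.1.sub (DifferentiableAt.fun_sum fun i _ => (p i).2.1.const_mul _), fun l => ?_⟩
      simp only [ofReal_sub, ofReal_sum, ofReal_mul, hre]
      have q' : ∀ i ∈ (Finset.univ : Finset s),
          DifferentiableAt ℝ (fun y => e z i * (μ i y : ℂ)) x := fun i _ => (q i).const_mul _
      rw [dzb_sub (q k) (DifferentiableAt.fun_sum q'), dzb_sum q', (p k).2.2, hx.2.2.2,
        Finset.sum_apply, sub_eq_zero]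
      exact Finset.sum_congr rfl fun i _ => by
        rw [dzb_const_mul _ (q i), (p i).2.2, h2, Pi.smul_apply, smul_eq_mul])
    filter_upwards [h1] with x hx
    rw [← hx, ← Finset.sum_subset (Finset.subset_univ (insert k s)) fun i _ hi => by
      rw [Finset.mem_insert, not_or] at hi
      simp [hi.1, hi.2], Finset.sum_insert hk, ← Finset.sum_coe_sort s]
    simp [hk, sub_eq_add_neg]

end Pool.Agent.Lib.RA
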