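import Pool.Agent.Lib.SV.Ext85

/-! Division with parameters (cross extension). -/

open Set Filter Topology Metric

set_option linter.unusedVariables false

noncomputable section

namespace Pool.Agent.Lib.RA

/-- Cross extension: divisibility on an open set of parameters holds for all parameters. -/
def St_XP : Prop :=
  ∀ (E P : Type) [NormedAddCommGroup E] [NormedSpace ℂ E] [FiniteDimensional ℂ E]
    [NormedAddCommGroup P] [NormedSpace ℂ P] [FiniteDimensional ℂ P] (B : Set E) (U U0 : Set P)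
    (δ : E → ℂ) (h m : E × P → ℂ), IsOpen B → IsPreconnected B → IsOpen U → IsPreconnected U →
    IsOpen U0 → U0.Nonempty → U0 ⊆ U → DifferentiableOn ℂ δ B → (∃ z ∈ B, δ z ≠ 0) →
    DifferentiableOn ℂ h (B ×ˢ U) → DifferentiableOn ℂ m (B ×ˢ U0) →
    (∀ z ∈ B, ∀ u ∈ U0, h (z, u) = δ z * m (z, u)) →
    ∃ Q : E × P → ℂ, DifferentiableOn ℂ Q (B ×ˢ U) ∧
      (∀ z ∈ B, ∀ u ∈ U, h (z, u) = δ z * Q (z, u)) ∧ ∀ z ∈ B, ∀ u ∈ U0, Q (z, u) = m (z, u)

/-- Discs whose boundary avoids the zeros, the mean value formula and the bound on such discs. -/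
def St_XPM : Prop :=
  ∀ (E : Type) [NormedAddCommGroup E] [NormedSpace ℂ E],
    (∀ (O : Set E) (δ : E → ℂ) (x : E), IsOpen O → DifferentiableOn ℂ δ O → x ∈ O →
      (∃ᶠ w in 𝓝 x, δ w ≠ 0) → ∃ (e : E) (r c : ℝ), 0 < r ∧ 0 < c ∧ ∀ y ∈ ball x r,
        (∀ t ∈ closedBall (0 : ℂ) 1, y + t • e ∈ O) ∧
          ∀ t ∈ sphere (0 : ℂ) 1, c ≤ ‖δ (y + t • e)‖) ∧
    ∀ (O : Set E) (Q : E → ℂ) (y e : E), IsOpen O → DifferentiableOn ℂ Q O →
      (∀ t ∈ closedBall (0 : ℂ) 1, y + t • e ∈ O) →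
      Real.circleAverage (fun t => Q (y + t • e)) 0 1 = Q y ∧
        ∀ M : ℝ, (∀ t ∈ sphere (0 : ℂ) 1, ‖Q (y + t • e)‖ ≤ M) → ‖Q y‖ ≤ M

namespace XP
variable {E : Type*} [NormedAddCommGroup E] [NormedSpace ℂ E]

theorem dcc {O : Set E} {Q : E → ℂ} {y e : E} (hO : IsOpen O) (hQ : DifferentiableOn ℂ Q O)
    (h : ∀ t ∈ closedBall (0 : ℂ) 1, y + t • e ∈ O) :
    DiffContOnCl ℂ (fun t : ℂ => Q (y + t • e)) (ball 0 1) := by
  refine DifferentiableOn.diffContOnCl ?_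
  rw [closure_ball 0 one_ne_zero]
  exact hQ.comp (f := fun t : ℂ => y + t • e) (by fun_prop) h

theorem mean {O : Set E} {Q : E → ℂ} {y e : E} (hO : IsOpen O) (hQ : DifferentiableOn ℂ Q O)
    (h : ∀ t ∈ closedBall (0 : ℂ) 1, y + t • e ∈ O) :
    Real.circleAverage (fun t => Q (y + t • e)) 0 1 = Q y := by
  have h1 := dcc hO hQ h
  rw [← abs_one] at h1
  simpa using h1.circleAverage

/-- Gluing of local extensions. -/
theorem glue {f j : E → ℂ} {O : Set E} (hO : IsOpen O) (h0 : ∀ x ∈ O, ∃ᶠ w in 𝓝 x, j w ≠ 0)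
    (hl : ∀ x ∈ O, ∃ G : E → ℂ, ∀ᶠ y in 𝓝 x, DifferentiableAt ℂ G y ∧ (j y ≠ 0 → G y = f y)) :
    ∃ g : E → ℂ, DifferentiableOn ℂ g O ∧ ∀ w, j w ≠ 0 → g w = f w := by
  classical
  refine ⟨fun y => if j y = 0 then limUnder (𝓝[{w | j w ≠ 0}] y) f else f y, fun x hx => ?_,
    fun w hw => if_neg hw⟩
  obtain ⟨G, hG⟩ := hl x hx
  refine (hG.self_of_nhds.1.congr_of_eventuallyEq ?_).differentiableWithinAt
  filter_upwards [hG.eventually_nhds, hO.mem_nhds hx] with y hy hyO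
  by_cases hz : j y = 0
  · rw [if_pos hz]
    have : (𝓝[{w | j w ≠ 0}] y).NeBot :=
      mem_closure_iff_nhdsWithin_neBot.1 (mem_closure_iff_frequently.2 (h0 y hyO))
    refine Tendsto.limUnder_eq ?_
    refine (hy.self_of_nhds.1.continuousAt.tendsto.mono_left nhdsWithin_le_nhds).congr' ?_
    filter_upwards [eventually_nhdsWithin_of_eventually_nhds hy, self_mem_nhdsWithin] with z h1 h2
    exact h1.2 h2
  · rw [if_neg hz]
    exact (hy.self_of_nhds.2 hz).symm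

/-- Two continuous functions that agree where `j ≠ 0` agree. -/
theorem eq_of_freq {f g j : E → ℂ} {x : E} (hf : ContinuousAt f x) (hg : ContinuousAt g x)
    (h0 : ∃ᶠ w in 𝓝 x, j w ≠ 0) (h : ∀ᶠ w in 𝓝 x, j w ≠ 0 → f w = g w) : f x = g x :=
  tendsto_nhds_unique_of_frequently_eq hf hg ((h0.and_eventually h).mono fun w hw => hw.2 hw.1)

end XP

theorem st_XPM : St_XPM := by
  refine fun E _ _ => ⟨fun O δ x hO hd hx h0 => ?_, fun O Q y e hO hQ h =>
    ⟨XP.mean hO hQ h, fun M hM => ?_⟩⟩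
  · obtain ⟨e, he⟩ := SV.H85.exists_disc hO hd hx (not_eventually.2 h0)
    have hc : ContinuousOn (fun t : ℂ => ‖δ (x + t • e)‖) (sphere 0 1) :=
      (hd.continuousOn.comp (f := fun t : ℂ => x + t • e) (by fun_prop) fun t ht =>
        he.self_of_nhds.1 t (sphere_subset_closedBall ht)).norm
    obtain ⟨t0, ht0, hm⟩ := (isCompact_sphere (0 : ℂ) 1).exists_isMinOn
      (NormedSpace.sphere_nonempty.2 zero_le_one) hc
    have hp : 0 < ‖δ (x + t0 • e)‖ := norm_pos_iff.2 (he.self_of_nhds.2 t0 ht0)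
    have h2 : ∀ᶠ y in 𝓝 x, ∀ t ∈ sphere (0 : ℂ) 1, ‖δ (x + t0 • e)‖ / 2 ≤ ‖δ (y + t • e)‖ := by
      refine (isCompact_sphere (0 : ℂ) 1).eventually_forall_of_forall_eventually fun t ht => ?_
      have h3 : Continuous fun z : E × ℂ => z.1 + z.2 • e := by fun_prop
      have h4 := (hd.continuousOn.continuousAt (hO.mem_nhds (he.self_of_nhds.1 t
        (sphere_subset_closedBall ht)))).norm
      exact (h3.tendsto (x, t)).eventually (p := fun z => ‖δ (x + t0 • e)‖ / 2 ≤ ‖δ z‖)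
        (h4.eventually (le_mem_nhds ((half_lt_self hp).trans_le (hm ht))))
    obtain ⟨r, hr, h5⟩ := Metric.eventually_nhds_iff_ball.1 (he.and h2)
    exact ⟨e, r, _, hr, half_pos hp, fun y hy => ⟨(h5 y hy).1.1, (h5 y hy).2⟩⟩
  · have h1 := Complex.norm_le_of_forall_mem_frontier_norm_le isBounded_ball (XP.dcc hO hQ h)
      (C := M) (z := 0) (by rwa [frontier_ball 0 one_ne_zero])
      (subset_closure (mem_ball_self one_pos))
    simpa using h1

theorem st_XP : St_XP := by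
  intro E P _ _ _ _ _ _ B U U0 δ h m hB hBc hU hUc hU0 ⟨u0, hu0⟩ hs hd ⟨z1, hz1, h1⟩ hh hm he
  have hn : ∀ z ∈ B, ¬δ =ᶠ[𝓝 z] 0 := fun z hz h2 =>
    h1 (SV.H85.eqOn_zero_of_preconnected hB hBc hd hz h2 hz1)
  have h0 : ∀ x ∈ B ×ˢ U, ∃ᶠ w in 𝓝 x, δ w.1 ≠ 0 := fun x hx => not_eventually.1 fun h2 =>
    hn x.1 hx.1 ((show ContinuousAt (fun z : E => (z, x.2)) x.1 by fun_prop).eventually h2)
  have hd1 : DifferentiableOn ℂ (fun x : E × P => δ x.1) (B ×ˢ U) :=
    hd.comp differentiableOn_fst fun x hx => hx.1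
  have hW : IsOpen {x : E × P | x ∈ B ×ˢ U ∧ δ x.1 ≠ 0} :=
    hd1.continuousOn.isOpen_inter_preimage (hB.prod hU) isOpen_compl_singleton
  have hf : DifferentiableOn ℂ (fun x : E × P => h x / δ x.1) {x | x ∈ B ×ˢ U ∧ δ x.1 ≠ 0} := by
    simpa only [div_eq_mul_inv] using (hh.mono fun x hx => hx.1).fun_mul
      ((hd1.mono fun x hx => hx.1).fun_inv fun x hx => hx.2)
  obtain ⟨Q, hQ, hQe⟩ := XP.glue (f := fun x : E × P => h x / δ x.1) (hB.prod hU) h0
    fun x hx => by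
    obtain ⟨e, hw⟩ := SV.H85.exists_disc hB hd hx.1 (hn _ hx.1)
    set G : E × P → ℂ := fun y => Real.circleAverage
      (fun t => h (y + t • (e, 0)) / δ (y + t • (e, 0)).1) 0 1 with hG
    refine ⟨G, ?_⟩
    filter_upwards [continuousAt_fst.eventually hw, (hB.prod hU).mem_nhds hx] with y hy hyO
    have hGd : ∀ u ∈ U, DifferentiableAt ℂ G (y.1, u) := fun u hu =>
      SV.H85.differentiableAt_circleAverage hW hf fun t ht => by
        simpa using ⟨⟨hy.1 t (sphere_subset_closedBall ht), hu⟩, hy.2 t ht⟩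
    refine ⟨hGd y.2 hyO.2, fun h2 => ?_⟩
    have hp : Differentiable ℂ fun u : P => (y.1, u) := by fun_prop
    have h3 := SV.H85.eqOn_zero_of_preconnected (f := fun u => δ y.1 * G (y.1, u) - h (y.1, u)) hU
      hUc (DifferentiableOn.fun_sub (fun u hu => (((hGd u hu).comp u (hp u)).const_mul
        _).differentiableWithinAt) (hh.comp hp.differentiableOn fun u hu => ⟨hyO.1, hu⟩))
      (hs hu0) (by
        filter_upwards [hU0.mem_nhds hu0] with u hu
        have h4 := XP.mean (y := (y.1, u)) (e := (e, 0)) (hB.prod hU0) hm fun t ht => by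
          simpa using ⟨hy.1 t ht, hu⟩
        rw [Pi.zero_apply, he _ hyO.1 u hu, ← h4, sub_eq_zero]
        congr 1
        refine Real.circleAverage_congr_sphere fun t ht => ?_
        rw [abs_one] at ht
        have h5 := he _ (hy.1 t (sphere_subset_closedBall ht)) u hu
        simp only [Prod.smul_mk, smul_zero, Prod.mk_add_mk, add_zero]
        rw [h5, mul_div_cancel_left₀ _ (hy.2 t ht)]) hyO.2
    rw [eq_div_iff h2, mul_comm]
    exact sub_eq_zero.1 h3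
  have hQ1 : ∀ x : E × P, δ x.1 ≠ 0 → h x = δ x.1 * Q x := fun x hx => by
    rw [hQe x hx, mul_div_cancel₀ _ hx]
  refine ⟨Q, hQ, fun z hz u hu => ?_, fun z hz u hu => ?_⟩
  · have h2 := (hB.prod hU).mem_nhds (show (z, u) ∈ B ×ˢ U from ⟨hz, hu⟩)
    exact XP.eq_of_freq (g := fun x => δ x.1 * Q x) (hh.continuousOn.continuousAt h2)
      ((hd1.continuousOn.continuousAt h2).mul (hQ.continuousOn.continuousAt h2)) (h0 _ ⟨hz, hu⟩)
      (Eventually.of_forall hQ1)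
  · have h2 := (hB.prod hU0).mem_nhds (show (z, u) ∈ B ×ˢ U0 from ⟨hz, hu⟩)
    refine XP.eq_of_freq (hQ.continuousOn.continuousAt ((hB.prod hU).mem_nhds ⟨hz, hs hu⟩))
      (hm.continuousOn.continuousAt h2) (h0 _ ⟨hz, hs hu⟩) ?_
    filter_upwards [h2] with x hx h3
    exact mul_left_cancel₀ h3 ((hQ1 x h3).symm.trans (he _ hx.1 _ hx.2))

end Pool.Agent.Lib.RA
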