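import Pool.Agent.Lib.RA.T_PK
import Pool.Agent.Lib.RA.T_XP

/-! Extension of Killing potentials to a polar ball. -/

open scoped Classical Topology ContDiff ComplexOrder Matrix
open Set Complex Metric Filter

set_option linter.unusedVariables false

noncomputable section

namespace Pool.Agent.Lib.RA.KPX

open Pool.Agent.Lib.SV (E)
open Pool.Agent.Lib.SV
open Pool.Agent.Lib.HS32

/-- The field `Y / δ` has the potential `m` on the polar ball. -/
structure KD {n : ℕ} (Φ m : E n × E n → ℂ) (c : E n) (R : ℝ) (δ : E n → ℂ) (Y : E n → E n) :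
    Prop where
  hδ : DifferentiableOn ℂ δ (ball c R)
  hY : DifferentiableOn ℂ Y (ball c R)
  eq : ∀ z ∈ ball c R, ∀ u ∈ ball (star c) R, Gm Φ (z, u) *ᵥ Y z = δ z • pu m (z, u)

/-- A polarised Killing germ at a point of rank `r` extends to the polar ball. -/
def St_KPX : Prop :=
  ∀ (n r : ℕ) (Φ m0 : E n × E n → ℂ) (c z0 : E n) (R : ℝ) (V : E n → E n),
    DifferentiableOn ℂ Φ (ball (dg c) R) → (∀ z ∈ ball c R, (Φ (dg z)).im = 0) → CK Φ c R r →
    z0 ∈ ball c R → r ≤ (Gm Φ (dg z0)).rank → Hn m0 (dg z0) →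
    (∀ᶠ z in 𝓝 z0, (m0 (dg z)).im = 0) → Hn V z0 →
    (∀ᶠ z in 𝓝 z0, Gm Φ (dg z) *ᵥ V z = pu m0 (dg z)) →
    ∃ (m : E n × E n → ℂ) (δ : E n → ℂ) (Y : E n → E n), DifferentiableOn ℂ m (ball (dg c) R) ∧
      m =ᶠ[𝓝 (dg z0)] m0 ∧ EqOn (cj m) m (ball (dg c) R) ∧ δ z0 ≠ 0 ∧ KD Φ m c R δ Y

/-- The denominator can be chosen nonzero at any given point of rank `r`. -/
def St_KPL : Prop :=
  ∀ (n r : ℕ) (Φ m : E n × E n → ℂ) (c z1 u1 : E n) (R : ℝ) (δ : E n → ℂ) (Y : E n → E n),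
    DifferentiableOn ℂ Φ (ball (dg c) R) → CK Φ c R r → DifferentiableOn ℂ m (ball (dg c) R) →
    KD Φ m c R δ Y → (∃ z ∈ ball c R, δ z ≠ 0) → z1 ∈ ball c R → u1 ∈ ball (star c) R →
    r ≤ (Gm Φ (z1, u1)).rank → ∃ δ1 Y1, δ1 z1 ≠ 0 ∧ KD Φ m c R δ1 Y1

/-- Commutation near one point gives the polarised commutation on the ball, and commutation at
every point of rank `r`. -/
def St_COM : Prop :=
  ∀ (n r : ℕ) (Φ m m' : E n × E n → ℂ) (c z0 : E n) (R : ℝ) (δ δ' : E n → ℂ) (Y Y' : E n → E n),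
    DifferentiableOn ℂ Φ (ball (dg c) R) → (∀ z ∈ ball c R, (Φ (dg z)).im = 0) → CK Φ c R r →
    DifferentiableOn ℂ m (ball (dg c) R) → DifferentiableOn ℂ m' (ball (dg c) R) →
    EqOn (cj m) m (ball (dg c) R) → EqOn (cj m') m' (ball (dg c) R) →
    KD Φ m c R δ Y → KD Φ m' c R δ' Y' → z0 ∈ ball c R →
    (∀ᶠ z in 𝓝 z0, ∃ V W : E n, Gm Φ (dg z) *ᵥ V = pu m (dg z) ∧
      Gm Φ (dg z) *ᵥ W = pu m' (dg z) ∧ (star W ⬝ᵥ Gm Φ (dg z) *ᵥ V).im = 0) →
    (∀ z ∈ ball c R, ∀ u ∈ ball (star c) R,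
      δ' z * (pz m' (z, u) ⬝ᵥ Y z) = δ z * (pz m (z, u) ⬝ᵥ Y' z)) ∧
    ((∃ z ∈ ball c R, δ z ≠ 0) → (∃ z ∈ ball c R, δ' z ≠ 0) → ∀ z ∈ ball c R,
      r ≤ (Gm Φ (dg z)).rank → ∀ V W : E n, Gm Φ (dg z) *ᵥ V = pu m (dg z) →
        Gm Φ (dg z) *ᵥ W = pu m' (dg z) → (star W ⬝ᵥ Gm Φ (dg z) *ᵥ V).im = 0)

open PK

variable {n r : ℕ} {Φ m : E n × E n → ℂ} {c z u : E n} {R : ℝ}

/-- A matrix of rank at least `r` compresses to the unit matrix of size `r`. -/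
theorem exists_AB {G : Mat n} (h : r ≤ G.rank) :
    ∃ (A : Matrix (Fin r) (Fin n) ℂ) (B : Matrix (Fin n) (Fin r) ℂ), A * G * B = 1 := by
  obtain ⟨w, hw⟩ := exists_linearIndependent_of_le_finrank (R := ℂ)
    (M := LinearMap.range G.mulVecLin) h
  have hw' := hw.map' (LinearMap.range G.mulVecLin).subtype (Submodule.ker_subtype _)
  choose b hb using fun i => (w i).2
  let B : Matrix (Fin n) (Fin r) ℂ := Matrix.of fun j i => b i j
  have hinj : LinearMap.ker (G * B).mulVecLin = ⊥ := by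
    rw [LinearMap.ker_eq_bot']
    intro v hv
    refine funext (Fintype.linearIndependent_iff.1 hw' v ?_)
    rw [← hv]
    funext j
    have : ∀ i, (w i : E n) j = (G * B) j i := fun i => by
      rw [← hb i]; rfl
    rw [Matrix.mulVecLin_apply]
    simp only [Finset.sum_apply, Pi.smul_apply, Function.comp_apply, Submodule.subtype_apply, this,
      Matrix.mulVec, dotProduct, smul_eq_mul, mul_comm]
  obtain ⟨L, hL⟩ := LinearMap.exists_leftInverse_of_injective _ hinj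
  refine ⟨LinearMap.toMatrix' L, B, ?_⟩
  rw [Matrix.mul_assoc]
  apply Matrix.toLin'.injective
  rw [Matrix.toLin'_mul, Matrix.toLin'_toMatrix', Matrix.toLin'_one]
  exact hL

/-- Vectors killed by `r` independent combinations of rows are killed by all rows. -/
theorem hf' (hK : CK Φ c R r) (hz : z ∈ ball c R) {w : E n} (hw : w ∈ ball (star c) R)
    {A : Matrix (Fin r) (Fin n) ℂ} {B : Matrix (Fin n) (Fin r) ℂ}
    (hd : (A * Gm Φ (z, w) * B).det ≠ 0) {v : E n} (hv : (A * Gm Φ (z, w)) *ᵥ v = 0)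
    (hu : u ∈ ball (star c) R) : Gm Φ (z, u) *ᵥ v = 0 := by
  obtain ⟨K, hK1, hK2⟩ := hK z hz
  set T := A * Gm Φ (z, w) with hT
  have hle : K ≤ LinearMap.ker T.mulVecLin := fun x hx => by
    rw [LinearMap.mem_ker, Matrix.mulVecLin_apply, hT, ← Matrix.mulVec_mulVec, hK2 x hx w hw,
      Matrix.mulVec_zero]
  have hr : r ≤ T.rank := by
    have h1 := Matrix.rank_mul_le_left T B
    rwa [Matrix.rank_of_isUnit _ ((Matrix.isUnit_iff_isUnit_det _).2 hd.isUnit),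
      Fintype.card_fin] at h1
  have h2 := T.mulVecLin.finrank_range_add_finrank_ker
  rw [Module.finrank_fin_fun] at h2
  have h3 : K = LinearMap.ker T.mulVecLin :=
    Submodule.eq_of_le_of_finrank_le hle (Nat.le_of_add_le_add_right (b := r) (by
      calc _ ≤ _ := Nat.add_le_add_left hr _
        _ = n := (Nat.add_comm _ _).trans h2
        _ ≤ _ := hK1))
  exact hK2 v (h3 ▸ hv) u hu

theorem diff_det {V : Type} [NormedAddCommGroup V] [NormedSpace ℂ V] {k : ℕ}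
    {M : V → Matrix (Fin k) (Fin k) ℂ} {O : Set V}
    (h : ∀ i j, DifferentiableOn ℂ (fun x => M x i j) O) :
    DifferentiableOn ℂ (fun x => (M x).det) O := by
  simp only [Matrix.det_apply']
  refine DifferentiableOn.fun_sum fun σ _ => DifferentiableOn.const_mul ?_ _
  exact fun x hx => (HasFDerivWithinAt.finsetProd (g := fun i x => M x (σ i) i)
    fun i _ => (h _ _ x hx).hasFDerivWithinAt).differentiableWithinAt

theorem diff_adj {V : Type} [NormedAddCommGroup V] [NormedSpace ℂ V] {k : ℕ}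
    {M : V → Matrix (Fin k) (Fin k) ℂ} {O : Set V}
    (h : ∀ i j, DifferentiableOn ℂ (fun x => M x i j) O) (i j : Fin k) :
    DifferentiableOn ℂ (fun x => (M x).adjugate i j) O := by
  simp only [Matrix.adjugate_apply]
  refine diff_det fun a b => ?_
  simp only [Matrix.updateRow_apply]
  split_ifs
  exacts [differentiableOn_const _, h _ _]

theorem on_Gm (hΦ : DifferentiableOn ℂ Φ (ball (dg c) R)) (i j : Fin n) :
    DifferentiableOn ℂ (fun x => Gm Φ x i j) (ball (dg c) R) :=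
  on_of_hn fun x hx => hn_Gm (hn_of_on isOpen_ball hΦ hx) i j

theorem on_slice {W : Type} [NormedAddCommGroup W] [NormedSpace ℂ W] {f : E n × E n → W}
    {U : Set (E n)} (hf : DifferentiableOn ℂ f (ball c R ×ˢ U)) (hu : u ∈ U) :
    DifferentiableOn ℂ (fun z => f (z, u)) (ball c R) :=
  hf.comp (f := fun z => (z, u)) (by fun_prop) fun z hz => ⟨hz, hu⟩

theorem ball_dg (c : E n) (R : ℝ) : ball (dg c) R = ball c R ×ˢ ball (star c) R :=
  (ball_prod_same _ _ _).symm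

/-- The denominator and the numerator built from a compression at `w`. -/
theorem cramer (hΦ : DifferentiableOn ℂ Φ (ball (dg c) R)) {w : E n} (hw : w ∈ ball (star c) R)
    (A : Matrix (Fin r) (Fin n) ℂ) (B : Matrix (Fin n) (Fin r) ℂ) {g : E n → E n}
    (hg : DifferentiableOn ℂ g (ball c R)) :
    ∃ (δ : E n → ℂ) (Y : E n → E n), DifferentiableOn ℂ δ (ball c R) ∧
      DifferentiableOn ℂ Y (ball c R) ∧ (∀ z, δ z = (A * Gm Φ (z, w) * B).det) ∧
      ∀ z, (A * Gm Φ (z, w)) *ᵥ Y z = δ z • A *ᵥ g z := by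
  have hG : ∀ i j, DifferentiableOn ℂ (fun z => (A * Gm Φ (z, w) * B) i j) (ball c R) := by
    intro i j
    simp only [Matrix.mul_apply]
    refine DifferentiableOn.fun_sum fun a _ => DifferentiableOn.mul_const ?_ _
    refine DifferentiableOn.fun_sum fun b _ => DifferentiableOn.const_mul ?_ _
    exact on_slice (ball_dg c R ▸ on_Gm hΦ b a) hw
  refine ⟨_, fun z => B *ᵥ ((A * Gm Φ (z, w) * B).adjugate *ᵥ (A *ᵥ g z)), diff_det hG, ?_,
    fun z => rfl, fun z => ?_⟩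
  · refine differentiableOn_pi.2 fun j => ?_
    simp only [Matrix.mulVec, dotProduct]
    refine DifferentiableOn.fun_sum fun a _ => DifferentiableOn.const_mul ?_ _
    refine DifferentiableOn.fun_sum fun b _ => (diff_adj hG a b).mul ?_
    exact DifferentiableOn.fun_sum fun d _ => (differentiableOn_pi.1 hg d).const_mul _
  · rw [Matrix.mulVec_mulVec, Matrix.mulVec_mulVec, Matrix.mul_adjugate, Matrix.smul_mulVec,
      Matrix.one_mulVec]

theorem on_GY (hΦ : DifferentiableOn ℂ Φ (ball (dg c) R)) {Y : E n → E n}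
    (hY : DifferentiableOn ℂ Y (ball c R)) (hu : u ∈ ball (star c) R) :
    DifferentiableOn ℂ (fun z => Gm Φ (z, u) *ᵥ Y z) (ball c R) := by
  refine differentiableOn_pi.2 fun j => ?_
  simp only [Matrix.mulVec, dotProduct]
  exact DifferentiableOn.fun_sum fun a _ =>
    (on_slice (ball_dg c R ▸ on_Gm hΦ j a) hu).mul (differentiableOn_pi.1 hY a)

theorem on_pu (hm : DifferentiableOn ℂ m (ball (dg c) R)) :
    DifferentiableOn ℂ (pu m) (ball (dg c) R) :=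
  on_of_hn fun x hx => hn_puv (hn_of_on isOpen_ball hm hx)

theorem on_pz (hm : DifferentiableOn ℂ m (ball (dg c) R)) :
    DifferentiableOn ℂ (pz m) (ball (dg c) R) :=
  on_of_hn fun x hx => hn_pzv (hn_of_on isOpen_ball hm hx)

theorem diff_dot {V : Type} [NormedAddCommGroup V] [NormedSpace ℂ V] {f g : V → E n} {x : V}
    (hf : DifferentiableAt ℂ f x) (hg : DifferentiableAt ℂ g x) :
    DifferentiableAt ℂ (fun y => f y ⬝ᵥ g y) x :=
  DifferentiableAt.fun_sum fun j _ => (differentiableAt_pi.1 hf j).mul (differentiableAt_pi.1 hg j)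

theorem on_dot {V : Type} [NormedAddCommGroup V] [NormedSpace ℂ V] {f g : V → E n} {O : Set V}
    (hf : DifferentiableOn ℂ f O) (hg : DifferentiableOn ℂ g O) :
    DifferentiableOn ℂ (fun y => f y ⬝ᵥ g y) O :=
  DifferentiableOn.fun_sum fun j _ => (differentiableOn_pi.1 hf j).mul (differentiableOn_pi.1 hg j)

/-- Derivative in `u` of the gradient in `z` along a fixed vector. -/
theorem fd_pz (h : Hn Φ (z, u)) (v : E n) :
    ∃ L : E n →L[ℂ] ℂ, HasFDerivAt (fun u => pz Φ (z, u) ⬝ᵥ v) L u ∧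
      ∀ w, L w = (Gm Φ (z, u) *ᵥ v) ⬝ᵥ w := by
  have h1 := HasFDerivAt.fun_sum (u := Finset.univ) fun j _ =>
    (hasF_u (hn_at (hn_pz h j))).mul_const (v j)
  refine ⟨_, h1, fun w => ?_⟩
  simp only [sum_apply, smul_apply,
    ContinuousLinearMap.comp_apply, ContinuousLinearMap.inr_apply, fd_u, smul_eq_mul]
  simp only [dotProduct, Matrix.mulVec, pu_pz, Finset.mul_sum, Finset.sum_mul]
  rw [Finset.sum_comm]
  exact Finset.sum_congr rfl fun a _ => Finset.sum_congr rfl fun b _ => by ring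

/-- Derivative in `z` of the gradient in `u` along a fixed vector. -/
theorem fd_pu (h : Hn Φ (z, u)) (w : E n) :
    ∃ L : E n →L[ℂ] ℂ, HasFDerivAt (fun z => w ⬝ᵥ pu Φ (z, u)) L z ∧
      ∀ v, L v = (w ᵥ* Gm Φ (z, u)) ⬝ᵥ v := by
  have h1 := HasFDerivAt.fun_sum (u := Finset.univ) fun j _ =>
    (hasF_z (hn_at (hn_pu h j))).const_mul (w j)
  refine ⟨_, h1, fun v => ?_⟩
  simp only [sum_apply, smul_apply,
    ContinuousLinearMap.comp_apply, ContinuousLinearMap.inl_apply, fd_z, smul_eq_mul]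
  simp only [dotProduct, Matrix.vecMul, pz_pu h, Finset.mul_sum, Finset.sum_mul]
  rw [Finset.sum_comm]
  exact Finset.sum_congr rfl fun a _ => Finset.sum_congr rfl fun b _ => by ring

theorem const_of {g : E n → ℂ} {a : E n} {ε : ℝ}
    (h : ∀ x ∈ ball a ε, HasFDerivAt g (0 : E n →L[ℂ] ℂ) x) {x y : E n}
    (hx : x ∈ ball a ε) (hy : y ∈ ball a ε) : g x = g y :=
  isOpen_ball.is_const_of_fderiv_eq_zero (𝕜 := ℂ) (convex_ball a ε).isPreconnected
    (fun x hx => (h x hx).differentiableAt.differentiableWithinAt) (fun x hx => (h x hx).fderiv)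
    hx hy

/-- Integration of the field equation in `u`. -/
theorem int_u {a v : E n} {ε : ℝ} {t : ℂ} (h : ∀ u ∈ ball a ε, Hn Φ (z, u) ∧
    DifferentiableAt ℂ m (z, u) ∧ Gm Φ (z, u) *ᵥ v = t • pu m (z, u)) {u' : E n}
    (hu : u ∈ ball a ε) (hu' : u' ∈ ball a ε) :
    (pz Φ (z, u) - pz Φ (z, u')) ⬝ᵥ v = t * (m (z, u) - m (z, u')) := by
  have := const_of (g := fun u => pz Φ (z, u) ⬝ᵥ v - t * m (z, u)) (fun x hx => by
    obtain ⟨h1, h2, h3⟩ := h x hx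
    obtain ⟨L, hL, e⟩ := fd_pz h1 v
    refine (hL.sub ((hasF_u h2).const_mul t)).congr_fderiv (ContinuousLinearMap.ext fun w => ?_)
    simp [e, h3, fd_u]) hu hu'
  rw [sub_dotProduct]
  linear_combination this

/-- Integration of the field equation in `z`. -/
theorem int_z {a w : E n} {ε : ℝ} (h : ∀ z ∈ ball a ε, Hn Φ (z, u) ∧
    DifferentiableAt ℂ m (z, u) ∧ w ᵥ* Gm Φ (z, u) = pz m (z, u)) {z' : E n}
    (hz : z ∈ ball a ε) (hz' : z' ∈ ball a ε) :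
    w ⬝ᵥ (pu Φ (z, u) - pu Φ (z', u)) = m (z, u) - m (z', u) := by
  have := const_of (g := fun z => w ⬝ᵥ pu Φ (z, u) - m (z, u)) (fun x hx => by
    obtain ⟨h1, h2, h3⟩ := h x hx
    obtain ⟨L, hL, e⟩ := fd_pu h1 w
    refine (hL.sub (hasF_z h2)).congr_fderiv (ContinuousLinearMap.ext fun v => ?_)
    simp [e, h3, fd_z]) hz hz'
  rw [dotProduct_sub]
  linear_combination this

/-- The field equation on the diagonal gives the polarised one. -/
theorem pol_eq {V : E n → E n} (hΦ : Hn Φ (dg z)) (hm : Hn m (dg z)) (hV : Hn V z)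
    (h : ∀ᶠ x in 𝓝 z, Gm Φ (dg x) *ᵥ V x = pu m (dg x)) :
    ∀ᶠ y in 𝓝 (dg z), Gm Φ y *ᵥ V y.1 = pu m y := by
  have hV' : Hn (fun y : E n × E n => V y.1) (dg z) :=
    hn_comp (f := V) hV (Eventually.of_forall fun _ => differentiableAt_fst)
  have : ∀ i, ∀ᶠ y in 𝓝 (dg z), (Gm Φ y *ᵥ V y.1) i = pu m y i := fun i => by
    refine id2_eq (F := fun y => (Gm Φ y *ᵥ V y.1) i) ?_ (hn_pu hm i)
      (h.mono fun x hx => congrFun hx i)
    filter_upwards [hV', hn_pi.2 (hn_Gm hΦ i)] with y h1 h2 using diff_dot h2 h1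
  exact (eventually_all.2 this).mono fun y hy => funext hy

/-- The conjugate form of the field equation. -/
theorem conj_eq {y : E n × E n} {v : E n} {t : ℂ} (hΦ : Hn Φ (sw y)) (e : cj Φ =ᶠ[𝓝 y] Φ)
    (hm : DifferentiableAt ℂ m (sw y)) (e' : cj m =ᶠ[𝓝 y] m)
    (h : Gm Φ (sw y) *ᵥ v = t • pu m (sw y)) : star v ᵥ* Gm Φ y = star t • pz m y := by
  rw [Gm_sw hΦ e, ← Matrix.star_mulVec, h, pz_sw hm e', star_smul]

theorem ev_of_on {F F' : E n × E n → ℂ} {y : E n × E n} (h : EqOn F F' (ball (dg c) R))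
    (hy : y ∈ ball (dg c) R) : F =ᶠ[𝓝 y] F' := h.eventuallyEq_of_mem (isOpen_ball.mem_nhds hy)

theorem cj_Phi (hΦ : DifferentiableOn ℂ Φ (ball (dg c) R))
    (hr : ∀ z ∈ ball c R, (Φ (dg z)).im = 0) : EqOn (cj Φ) Φ (ball (dg c) R) := fun y hy =>
  cj_eq_ball hΦ (mem_ball_dg.1 hy).1
    (mem_of_superset (isOpen_ball.mem_nhds (mem_ball_dg.1 hy).1) hr) hy

theorem st_KPX : St_KPX := by
  intro n r Φ m0 c z0 R V hΦ hre hK hz0 hr hm0 hmr hV hGV
  have hΦn : ∀ {y}, y ∈ ball (dg c) R → Hn Φ y := fun hy => hn_of_on isOpen_ball hΦ hy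
  have hcΦ := cj_Phi hΦ hre
  have hw : star z0 ∈ ball (star c) R := star_mem_ball.2 hz0
  obtain ⟨ε, hε, hb⟩ := Metric.eventually_nhds_iff_ball.1
    ((pol_eq (hΦn (dg_mem_ball.2 hz0)) hm0 hV hGV).and ((hn_ev hm0).and
      ((cj_eq_loc hm0 hmr).eventuallyEq_nhds.and
        ((isOpen_ball.eventually_mem (dg_mem_ball.2 hz0)).and
          ((continuous_fst.tendsto (dg z0)).eventually hV)))))
  have hw0 : star z0 ∈ ball (star z0) ε := mem_ball_self hε
  have hz00 : z0 ∈ ball z0 ε := mem_ball_self hε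
  have hU : ball (star z0) ε ⊆ ball (star c) R := fun u hu =>
    (mk_mem_ball.1 (hb _ (mk_mem_ball.2 ⟨hz00, hu⟩)).2.2.2.1).2
  set m1 : E n × E n → ℂ := fun y =>
    m0 (z0, y.2) + star (V (star y.2)) ⬝ᵥ (pu Φ y - pu Φ (z0, y.2)) with hm1
  have hsub : ball c R ×ˢ ball (star z0) ε ⊆ ball (dg c) R := fun y hy =>
    mem_ball_dg.2 ⟨hy.1, hU hy.2⟩
  have d1 : DifferentiableOn ℂ m1 (ball c R ×ˢ ball (star z0) ε) := by
    intro y hy
    have a1 := hb _ (mk_mem_ball.2 ⟨hz00, hy.2⟩)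
    have a2 := hb _ (mk_mem_ball.2 ⟨star_mem_ball'.2 hy.2, hw0⟩)
    have k : DifferentiableAt ℂ (fun x : E n × E n => (z0, x.2)) y := by fun_prop
    refine DifferentiableAt.differentiableWithinAt (((hn_at a1.2.1).comp y k).add (diff_dot ?_ ?_))
    · exact (diff_star_star a2.2.2.2.2).comp y differentiableAt_snd
    · have a3 := (hn_at (hn_puv (hΦn a1.2.2.2.1))).comp y k
      exact (hn_at (hn_puv (hΦn (hsub hy)))).sub a3
  have e1 : ∀ y ∈ ball (dg z0) ε, m1 y = m0 y := by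
    rintro ⟨z, u⟩ hy
    obtain ⟨hz, hu⟩ := mk_mem_ball.1 hy
    have := int_z (Φ := Φ) (m := m0) (u := u) (w := star (V (star u))) (fun x hx => by
      have a1 := hb _ (mk_mem_ball.2 ⟨hx, hu⟩)
      have a2 := hb _ (sw_mem_ball.2 (mk_mem_ball.2 ⟨hx, hu⟩))
      refine ⟨hΦn a1.2.2.2.1, hn_at a1.2.1, ?_⟩
      have := conj_eq (t := 1) (hΦn a2.2.2.2.1) (ev_of_on hcΦ a1.2.2.2.1) (hn_at a2.2.1) a1.2.2.1
        (by rw [one_smul]; exact a2.1)
      rwa [star_one, one_smul] at this) hz hz00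
    simp only [hm1]
    linear_combination this
  have e1' : ∀ y ∈ ball (dg z0) ε, m1 =ᶠ[𝓝 y] m0 := fun y hy =>
    mem_of_superset (isOpen_ball.mem_nhds hy) e1
  obtain ⟨A, B, hAB⟩ := exists_AB hr
  have ho : IsOpen (ball c R ×ˢ ball (star z0) ε) := isOpen_ball.prod isOpen_ball
  obtain ⟨δ, Y, h1, h2, h3, h4⟩ := cramer hΦ hw A B (g := fun z => pu m1 (z, star z0))
    (on_slice (on_of_hn fun y hy => hn_puv (hn_of_on ho d1 hy)) hw0)
  have h5 : δ z0 ≠ 0 := by rw [h3, show (z0, star z0) = dg z0 from rfl, hAB]; simp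
  set h : E n × E n → ℂ := fun y =>
    δ y.1 * m1 (y.1, star z0) + (pz Φ y - pz Φ (y.1, star z0)) ⬝ᵥ Y y.1 with hh
  have k1 : ∀ {W : Type} [NormedAddCommGroup W] [NormedSpace ℂ W] {f : E n → W} {U : Set (E n)},
      DifferentiableOn ℂ f (ball c R) →
      DifferentiableOn ℂ (fun y : E n × E n => f y.1) (ball c R ×ˢ U) :=
    fun hf => hf.comp differentiableOn_fst fun y hy => hy.1
  have d2 : DifferentiableOn ℂ h (ball c R ×ˢ ball (star c) R) :=
    ((k1 h1).mul (k1 (on_slice d1 hw0))).add (on_dot ((ball_dg c R ▸ on_pz hΦ).sub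
      (k1 (on_slice (ball_dg c R ▸ on_pz hΦ) hw))) (k1 h2))
  have e2 : EqOn h (fun y => δ y.1 * m1 y) (ball c R ×ˢ ball (star z0) ε) := by
    refine eqOn_convex ho ((convex_ball _ _).prod (convex_ball _ _))
      (d2.mono (prod_mono_right hU)) ((k1 h1).mul d1) (x := dg z0) ⟨hz0, hw0⟩ ?_
    filter_upwards [ball_mem_nhds (dg z0) hε, (continuous_fst.tendsto (dg z0)).eventually
      ((h1.continuousOn.continuousAt (isOpen_ball.mem_nhds hz0)).eventually_ne h5)]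
    rintro ⟨z, u⟩ hy hδ
    obtain ⟨hz, hu⟩ := mk_mem_ball.1 hy
    have hy' : (z, star z0) ∈ ball (dg z0) ε := mk_mem_ball.2 ⟨hz, hw0⟩
    have hzB := (mk_mem_ball.1 (hb _ hy).2.2.2.1).1
    have a := int_u (Φ := Φ) (m := m0) (z := z) (v := Y z) (t := δ z) (fun x hx => by
      have a1 := hb _ (mk_mem_ball.2 ⟨hz, hx⟩)
      refine ⟨hΦn a1.2.2.2.1, hn_at a1.2.1, ?_⟩
      have := hf' hK hzB hw (h3 z ▸ hδ) (v := Y z - δ z • V z) (by
        rw [Matrix.mulVec_sub, h4, Matrix.mulVec_smul, ← Matrix.mulVec_mulVec, (hb _ hy').1,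
          pu_congr (e1' _ hy'), sub_self]) (hU hx)
      rwa [Matrix.mulVec_sub, Matrix.mulVec_smul, a1.1, sub_eq_zero] at this) hu hw0
    simp only [hh, e1 _ hy, e1 _ hy']
    linear_combination a
  obtain ⟨m, d3, e3, e4⟩ := st_XP _ _ (ball c R) (ball (star c) R) (ball (star z0) ε) δ h m1
    isOpen_ball (convex_ball _ _).isPreconnected isOpen_ball (convex_ball _ _).isPreconnected
    isOpen_ball ⟨_, hw0⟩ hU h1 ⟨z0, hz0, h5⟩ d2 d1 fun z hz u hu => e2 (mk_mem_prod hz hu)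
  rw [← ball_dg] at d3
  have e5 : m =ᶠ[𝓝 (dg z0)] m0 := by
    filter_upwards [ball_mem_nhds (dg z0) hε]
    rintro ⟨z, u⟩ hy
    rw [e4 z (mk_mem_ball.1 (hb _ hy).2.2.2.1).1 u (mk_mem_ball.1 hy).2, e1 _ hy]
  refine ⟨m, δ, Y, d3, e5, cj_eq_ball d3 hz0 ?_, h5, h1, h2, fun z hz u hu => ?_⟩
  · filter_upwards [(tendsto_dg z0).eventually e5, hmr] with z a b using a ▸ b
  · have hy : (z, u) ∈ ball (dg c) R := mk_mem_ball.2 ⟨hz, hu⟩
    obtain ⟨L, hL, e⟩ := fd_pz (hΦn hy) (Y z)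
    have a1 := (hasF_u (hn_at (hn_of_on isOpen_ball d3 hy))).const_mul (δ z)
    have a2 := (hL.sub_const (pz Φ (z, star z0) ⬝ᵥ Y z)).const_add (δ z * m1 (z, star z0))
    have a3 := a1.unique (a2.congr_of_eventuallyEq (by
      filter_upwards [isOpen_ball.mem_nhds hu] with x hx
      rw [← e3 z hz x hx, ← sub_dotProduct]))
    funext i
    have := DFunLike.congr_fun a3 (Pi.single i 1)
    rw [e] at this
    simpa [fd_u] using this.symm

theorem st_KPL : St_KPL := by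
  intro n r Φ m c z1 u1 R δ Y hΦ hK hm hD ⟨z0, hz0, h0⟩ hz1 hu1 hr
  obtain ⟨A, B, hAB⟩ := exists_AB hr
  obtain ⟨δ1, Y1, h1, h2, h3, h4⟩ := cramer hΦ hu1 A B
    (on_slice (ball_dg c R ▸ on_pu hm) hu1)
  have h5 : δ1 z1 ≠ 0 := by rw [h3, hAB]; simp
  refine ⟨δ1, Y1, h5, h1, h2, fun z hz u hu => ?_⟩
  have hc : ∀ {f : E n → ℂ}, DifferentiableOn ℂ f (ball c R) → ∀ {x}, x ∈ ball c R → f x ≠ 0 →
      ∀ᶠ y in 𝓝 x, f y ≠ 0 := fun hf x hx h =>
    (hf.continuousOn.continuousAt (isOpen_ball.mem_nhds hx)).eventually_ne h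
  obtain ⟨x, hx, hx0, hx1⟩ : ∃ x ∈ ball c R, δ x ≠ 0 ∧ δ1 x ≠ 0 := by
    by_contra hn
    push Not at hn
    refine h5 (H85.eq_zero_of_convex isOpen_ball (convex_ball c R) h1 hz0 ?_ hz1)
    filter_upwards [hc hD.hδ hz0 h0, isOpen_ball.mem_nhds hz0] with y hy hy' using hn y hy' hy
  refine eqOn_convex isOpen_ball (convex_ball c R) (on_GY hΦ h2 hu)
    (h1.smul (on_slice (ball_dg c R ▸ on_pu hm) hu)) hx ?_ hz
  filter_upwards [hc hD.hδ hx hx0, hc h1 hx hx1, isOpen_ball.mem_nhds hx] with y hy0 hy1 hy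
  have h6 := hf' hK hy hu1 (h3 y ▸ hy1) (v := δ y • Y1 y - δ1 y • Y y) (by
    rw [Matrix.mulVec_sub, Matrix.mulVec_smul, Matrix.mulVec_smul, h4, ← Matrix.mulVec_mulVec,
      hD.eq y hy u1 hu1, Matrix.mulVec_smul, smul_comm, sub_self]) hu
  rw [Matrix.mulVec_sub, Matrix.mulVec_smul, Matrix.mulVec_smul, hD.eq y hy u hu, smul_comm (δ1 y),
    ← smul_sub, smul_eq_zero, sub_eq_zero] at h6
  exact h6.resolve_left hy0

theorem com_id {n : ℕ} {Φ m m' : E n × E n → ℂ} {c z V W : E n} {R : ℝ} {δ δ' : E n → ℂ}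
    {Y Y' : E n → E n} (hΦ : DifferentiableOn ℂ Φ (ball (dg c) R))
    (hre : ∀ z ∈ ball c R, (Φ (dg z)).im = 0) (hm : DifferentiableOn ℂ m (ball (dg c) R))
    (hm' : DifferentiableOn ℂ m' (ball (dg c) R)) (c1 : EqOn (cj m) m (ball (dg c) R))
    (c2 : EqOn (cj m') m' (ball (dg c) R)) (hD : KD Φ m c R δ Y) (hD' : KD Φ m' c R δ' Y')
    (hz : z ∈ ball c R) (hV : Gm Φ (dg z) *ᵥ V = pu m (dg z))
    (hW : Gm Φ (dg z) *ᵥ W = pu m' (dg z)) :
    δ' z * (pz m' (dg z) ⬝ᵥ Y z) - δ z * (pz m (dg z) ⬝ᵥ Y' z) =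
      δ z * δ' z * (2 * I * (star W ⬝ᵥ Gm Φ (dg z) *ᵥ V).im) := by
  have hy := dg_mem_ball.2 hz
  have hs := star_mem_ball.2 hz
  have k : ∀ {m : E n × E n → ℂ} {V : E n}, DifferentiableOn ℂ m (ball (dg c) R) →
      EqOn (cj m) m (ball (dg c) R) → Gm Φ (dg z) *ᵥ V = pu m (dg z) →
      star V ᵥ* Gm Φ (dg z) = pz m (dg z) := fun {m V} hm c1 hV => by
    have := conj_eq (Φ := Φ) (m := m) (y := dg z) (v := V) (t := 1)
      (by rw [sw_dg]; exact hn_of_on isOpen_ball hΦ hy) (ev_of_on (cj_Phi hΦ hre) hy)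
      (by rw [sw_dg]; exact hn_at (hn_of_on isOpen_ball hm hy)) (ev_of_on c1 hy)
      (by rw [sw_dg, one_smul]; exact hV)
    rwa [star_one, one_smul] at this
  have hH : (Gm Φ (dg z))ᴴ = Gm Φ (dg z) := by
    have := Gm_sw (F := Φ) (y := dg z) (by rw [sw_dg]; exact hn_of_on isOpen_ball hΦ hy)
      (ev_of_on (cj_Phi hΦ hre) hy)
    rw [sw_dg] at this
    exact this.symm
  have a1 : pz m' (dg z) ⬝ᵥ Y z = δ z * (star W ⬝ᵥ Gm Φ (dg z) *ᵥ V) := by
    rw [← k hm' c2 hW, ← Matrix.dotProduct_mulVec, hV]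
    exact (congrArg _ (hD.eq z hz _ hs)).trans (dotProduct_smul _ _ _)
  have a2 : pz m (dg z) ⬝ᵥ Y' z = δ' z * star (star W ⬝ᵥ Gm Φ (dg z) *ᵥ V) := by
    rw [← k hm c1 hV, ← Matrix.dotProduct_mulVec, Matrix.star_dotProduct W, star_star,
      Matrix.star_mulVec, hH, ← Matrix.dotProduct_mulVec, hW]
    exact (congrArg _ (hD'.eq z hz _ hs)).trans (dotProduct_smul _ _ _)
  rw [a1, a2]
  have := sub_conj (star W ⬝ᵥ Gm Φ (dg z) *ᵥ V)
  push_cast at this
  rw [star_def]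
  linear_combination δ z * δ' z * this

theorem com_pol {n : ℕ} {Φ m m' : E n × E n → ℂ} {c z0 : E n} {R : ℝ} {δ δ' : E n → ℂ}
    {Y Y' : E n → E n} (hΦ : DifferentiableOn ℂ Φ (ball (dg c) R))
    (hre : ∀ z ∈ ball c R, (Φ (dg z)).im = 0) (hm : DifferentiableOn ℂ m (ball (dg c) R))
    (hm' : DifferentiableOn ℂ m' (ball (dg c) R)) (c1 : EqOn (cj m) m (ball (dg c) R))
    (c2 : EqOn (cj m') m' (ball (dg c) R)) (hD : KD Φ m c R δ Y) (hD' : KD Φ m' c R δ' Y')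
    (hz0 : z0 ∈ ball c R) (h : ∀ᶠ z in 𝓝 z0, ∃ V W : E n, Gm Φ (dg z) *ᵥ V = pu m (dg z) ∧
      Gm Φ (dg z) *ᵥ W = pu m' (dg z) ∧ (star W ⬝ᵥ Gm Φ (dg z) *ᵥ V).im = 0) :
    EqOn (fun y => δ' y.1 * (pz m' y ⬝ᵥ Y y.1)) (fun y => δ y.1 * (pz m y ⬝ᵥ Y' y.1))
      (ball (dg c) R) := by
  have k1 : ∀ {W : Type} [NormedAddCommGroup W] [NormedSpace ℂ W] {f : E n → W},
      DifferentiableOn ℂ f (ball c R) →
      DifferentiableOn ℂ (fun y : E n × E n => f y.1) (ball (dg c) R) :=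
    fun hf => hf.comp differentiableOn_fst fun y hy => (mem_ball_dg.1 hy).1
  refine id2_ball ((k1 hD'.hδ).mul (on_dot (on_pz hm') (k1 hD.hY)))
    ((k1 hD.hδ).mul (on_dot (on_pz hm) (k1 hD'.hY))) hz0 ?_
  filter_upwards [h, isOpen_ball.mem_nhds hz0]
  rintro z ⟨V, W, hV, hW, h0⟩ hz
  have := com_id hΦ hre hm hm' c1 c2 hD hD' hz hV hW
  rw [h0, ofReal_zero, mul_zero, mul_zero, sub_eq_zero] at this
  exact this

theorem st_COM : St_COM := by
  intro n r Φ m m' c z0 R δ δ' Y Y' hΦ hre hK hm hm' c1 c2 hD hD' hz0 h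
  refine ⟨fun z hz u hu => com_pol hΦ hre hm hm' c1 c2 hD hD' hz0 h (mk_mem_ball.2 ⟨hz, hu⟩),
    fun h0 h0' z hz hr V W hV hW => ?_⟩
  obtain ⟨δ1, Y1, a1, a2⟩ := st_KPL n r Φ m c z _ R δ Y hΦ hK hm hD h0 hz (star_mem_ball.2 hz) hr
  obtain ⟨δ2, Y2, b1, b2⟩ :=
    st_KPL n r Φ m' c z _ R δ' Y' hΦ hK hm' hD' h0' hz (star_mem_ball.2 hz) hr
  have e := com_id hΦ hre hm hm' c1 c2 a2 b2 hz hV hW
  have e' := com_pol hΦ hre hm hm' c1 c2 a2 b2 hz0 h (dg_mem_ball.2 hz)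
  simpa [a1, b1] using e.symm.trans (sub_eq_zero.2 e')

end Pool.Agent.Lib.RA.KPX
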