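import Pool.Agent.Lib.RA.K56

/-! Transversal data, the tube, extension of isometric germs. -/

open scoped Classical Topology ContDiff ComplexOrder Matrix
open Set Complex Metric Filter

set_option linter.unusedVariables false

noncomputable section

namespace Pool.Agent.Lib.RA.H56

open Pool.Agent.Lib.SV (E)
open Pool.Agent.Lib.HS32 Pool.Agent.Lib.SV K56

/-- Kills the imaginary parts of the first `k` coordinates. -/
def pk {r : ℕ} (k : ℕ) (t : E r) : E r := fun i => if i.val < k then ((t i).re : ℂ) else t i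

/-- Transversal data. -/
structure TV (r k : ℕ) where
  del : ℝ
  c0 : ℝ
  Φ : E r × E r → ℂ
  del_pos : 0 < del
  c0_pos : 0 < c0
  hol : DifferentiableOn ℂ Φ (ball 0 del)
  real : ∀ t ∈ ball (0 : E r) del, (Φ (dg t)).im = 0
  inv : ∀ i : Fin r, i.val < k → ∀ w ∈ ball (0 : E r × E r) del, pz Φ w i = pu Φ w i
  exp : ∀ u ∈ ball (0 : E r) del, ∀ t ∈ ball (0 : E r) del, ∀ s ∈ ball (0 : E r) del,
    c0 * ‖t - s‖ ≤ ‖pu Φ (t, u) - pu Φ (s, u)‖
  low : ∀ t ∈ ball (0 : E r) del, ∀ v, c0 * ‖v‖ ^ 2 ≤ nq (hess (fun x => Φ (dg x)) t) v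

namespace TV

variable {r k : ℕ} (T : TV r k)

/-- The invariant potential on the tube. -/
def ph (t : E r) : ℝ := (T.Φ (dg (pk k t))).re

/-- The moment maps (used for `i < k`). -/
def mu (i : Fin r) (t : E r) : ℝ := (pz T.Φ (dg (pk k t)) i).re

/-- `H` is holomorphic near `y` and pulls the Levi form of the tube back to that of `φ`. -/
def Iso {n : ℕ} (φ : E n → ℝ) (H : E n → E r) (y : E n) : Prop :=
  ∀ᶠ z in 𝓝 y, DifferentiableAt ℂ H z ∧ hess (fun x => ((φ x - T.ph (H x) : ℝ) : ℂ)) z = 0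

/-- Admissible germ of a self-map of the tube. -/
def Adm (γ : E r → E r) (t : E r) : Prop :=
  T.Iso T.ph γ t ∧ ∀ᶠ s in 𝓝 t, ∀ i : Fin r, i.val < k → T.mu i (γ s) = T.mu i s

/-- Maximality of the commuting family: a polarised real Killing potential that commutes with the
moment maps is an affine combination of them. -/
def Max : Prop := ∀ t ∈ ball (0 : E r) T.del, ∀ (ν : E r → ℝ) (N : E r × E r → ℂ) (V : E r → E r),
  (∀ᶠ w in 𝓝 (dg t), DifferentiableAt ℂ N w) →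
  (∀ᶠ s in 𝓝 t, N (dg s) = ν s ∧ DifferentiableAt ℂ V s ∧
    (∀ i, dzb i (fun x => (ν x : ℂ)) s = (hess (fun x => (T.ph x : ℂ)) s *ᵥ V s) i) ∧
    ∀ i : Fin r, i.val < k → ((hess (fun x => (T.ph x : ℂ)) s *ᵥ V s) i).im = 0) →
  ∃ (c : ℝ) (a : Fin r → ℝ), (∀ i : Fin r, ¬i.val < k → a i = 0) ∧
    ∀ᶠ s in 𝓝 t, ν s = c + ∑ i, a i * T.mu i s

end TV

variable {n r k : ℕ}

theorem pk_add (s t : E r) : pk k (s + t) = pk k s + pk k t := by
  ext i; simp only [pk, Pi.add_apply]; split_ifs <;> simp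

theorem pk_sub (s t : E r) : pk k (s - t) = pk k s - pk k t := by
  ext i; simp only [pk, Pi.sub_apply]; split_ifs <;> simp

theorem pk_neg (s : E r) : pk k (-s) = -pk k s := by
  ext i; simp only [pk, Pi.neg_apply]; split_ifs <;> simp

theorem pk_pk (s : E r) : pk k (pk k s) = pk k s := by
  ext i; simp only [pk]; split_ifs <;> simp

theorem pk_zero : pk k (0 : E r) = 0 := by
  ext i; simp [pk]

theorem pk_rest (s : E r) : pk k (s - pk k s) = 0 := by rw [pk_sub, pk_pk, sub_self]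

theorem pk_tr {a : E r} (ha : pk k a = 0) (t : E r) : pk k (t + a) = pk k t := by
  rw [pk_add, ha, add_zero]

theorem norm_pk_le (s : E r) : ‖pk k s‖ ≤ ‖s‖ :=
  (pi_norm_le_iff_of_nonneg (norm_nonneg s)).2 fun i => by
    refine le_trans ?_ (norm_le_pi_norm s i)
    simp only [pk]
    split_ifs
    · simpa using abs_re_le_norm (s i)
    · exact le_rfl

theorem cont_pk : Continuous (pk k : E r → E r) :=
  (LipschitzWith.of_dist_le_mul (K := 1) fun s t => by
    rw [dist_eq_norm, dist_eq_norm, ← pk_sub]; simpa using norm_pk_le _).continuous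

theorem star_tr {a : E r} (ha : pk k a = 0) : star a = -a := by
  ext i
  have := congrFun ha i
  simp only [pk, Pi.zero_apply] at this
  split_ifs at this with h
  · have h1 : (a i).re = 0 := by exact_mod_cast this
    simp [Complex.ext_iff, h1]
  · simp [this]

theorem tr_zero {a : E r} (ha : pk k a = 0) (i : Fin r) (hi : ¬i.val < k) : a i = 0 := by
  simpa [pk, hi] using congrFun ha i

namespace TV

variable (T : TV r k)

theorem hn {w : E r × E r} (hw : w ∈ ball (0 : E r × E r) T.del) : Hn T.Φ w :=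
  hn_of isOpen_ball T.hol hw

theorem ph_tr {a : E r} (ha : pk k a = 0) (t : E r) : T.ph (t + a) = T.ph t := by
  rw [ph, ph, pk_tr ha]

theorem mu_tr {a : E r} (ha : pk k a = 0) (i : Fin r) (t : E r) : T.mu i (t + a) = T.mu i t := by
  rw [mu, mu, pk_tr ha]

theorem fderiv_tr {a : E r} (ha : ∀ i : Fin r, ¬i.val < k → a i = 0) {w : E r × E r}
    (hw : w ∈ ball (0 : E r × E r) T.del) : fderiv ℂ T.Φ w (a, -a) = 0 := by
  rw [split, sum1, sum2, ← Finset.sum_add_distrib]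
  refine Finset.sum_eq_zero fun i _ => ?_
  by_cases hi : i.val < k
  · have := T.inv i hi w hw
    simp only [pz, pu] at this
    rw [this]; simp
  · simp [ha i hi]

/-- A holomorphic function on the ball that is killed by the translations. -/
theorem tr_const {F : E r × E r → ℂ} (hF : DifferentiableOn ℂ F (ball 0 T.del))
    (h0 : ∀ a : E r, pk k a = 0 → ∀ w ∈ ball (0 : E r × E r) T.del, fderiv ℂ F w (a, -a) = 0)
    {t : E r} (ht : t ∈ ball (0 : E r) T.del) : F (dg (pk k t)) = F (dg t) := by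
  set a := t - pk k t with ha
  have h1 : pk k t ∈ ball (0 : E r) T.del :=
    mem_ball_zero_iff.2 ((norm_pk_le t).trans_lt (mem_ball_zero_iff.1 ht))
  have hm : ∀ x ∈ Icc (0 : ℝ) 1, dg (pk k t) + x • ((a, -a) : E r × E r) ∈ ball 0 T.del := by
    intro x hx
    have := (convex_ball (0 : E r × E r) T.del).add_smul_sub_mem (dg_mem0.2 h1) (dg_mem0.2 ht) hx
    rwa [show dg t - dg (pk k t) = (a, -a) by
      rw [← star_tr (pk_rest t)]; simp [dg, ha]] at this
  have h2 := norm_image_sub_le_of_norm_deriv_le_segment_01' (C := 0) (f' := fun _ => 0)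
    (f := fun x : ℝ => F (dg (pk k t) + x • ((a, -a) : E r × E r))) (fun x hx => by
      have h3 := ((hF.differentiableAt (isOpen_ball.mem_nhds (hm x hx))).hasFDerivAt.restrictScalars
        ℝ).comp_hasDerivAt x (((hasDerivAt_id x).smul_const ((a, -a) : E r × E r)).const_add _)
      rw [one_smul, ContinuousLinearMap.coe_restrictScalars', h0 a (pk_rest t) _ (hm x hx)] at h3
      exact h3.hasDerivWithinAt) (fun x hx => by simp)
  have h4 : dg (pk k t) + ((a, -a) : E r × E r) = dg t := by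
    rw [← star_tr (pk_rest t)]; simp [dg, ha]
  simp only [one_smul, zero_smul, add_zero, h4, norm_le_zero_iff, sub_eq_zero] at h2
  exact h2.symm

theorem ph_eq {t : E r} (ht : t ∈ ball (0 : E r) T.del) : (T.ph t : ℂ) = T.Φ (dg t) := by
  rw [ph, T.tr_const T.hol (fun a ha w hw => T.fderiv_tr (tr_zero ha) hw) ht]
  exact Complex.ext (by simp) (by simp [T.real t ht])

theorem Iso.hn {φ : E n → ℝ} {H : E n → E r} {y : E n} {T : TV r k} (h : T.Iso φ H y) : Hn H y :=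
  h.mono fun _ hz => hz.1

theorem Iso.tr {φ : E n → ℝ} {H : E n → E r} {y : E n} {T : TV r k} (h : T.Iso φ H y) {a : E r}
    (ha : pk k a = 0) : T.Iso φ (fun z => H z + a) y :=
  h.mono fun z hz => ⟨hz.1.add_const a, by simpa only [T.ph_tr ha] using hz.2⟩

theorem Iso.congr {φ : E n → ℝ} {H G : E n → E r} {y : E n} {T : TV r k} (h : T.Iso φ H y)
    (e : G =ᶠ[𝓝 y] H) : T.Iso φ G y := by
  filter_upwards [h, e.eventuallyEq_nhds] with z hz he
  refine ⟨hz.1.congr_of_eventuallyEq he, ?_⟩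
  rw [← hz.2]
  exact hess_congr (he.mono fun x hx => by simp only [hx])

theorem Iso.ev {φ : E n → ℝ} {H : E n → E r} {y : E n} {T : TV r k} (h : T.Iso φ H y) :
    ∀ᶠ z in 𝓝 y, T.Iso φ H z := h.eventually_nhds

/-- The polarised difference. -/
def df (Φ : E n × E n → ℂ) (H : E n → E r) (w : E n × E n) : ℂ := Φ w - T.Φ (pp H w)

variable {Φ : E n × E n → ℂ} {φ : E n → ℝ} {H : E n → E r} {x : E n} {ρ : ℝ}

theorem pp_mem (hm : MapsTo H (ball x ρ) (ball 0 T.del)) {w : E n × E n}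
    (hw : w ∈ ball (dg x) ρ) : pp H w ∈ ball (0 : E r × E r) T.del := by
  refine mem_b0.2 ⟨hm (mem_pb.1 hw).1, ?_⟩
  have := hm (mem_pb.1 hw).2
  rw [mem_ball_zero_iff] at this ⊢
  simpa [pp, cm] using this

theorem df_hol (hΦ : DifferentiableOn ℂ Φ (ball (dg x) ρ)) (hH : DifferentiableOn ℂ H (ball x ρ))
    (hm : MapsTo H (ball x ρ) (ball 0 T.del)) : DifferentiableOn ℂ (T.df Φ H) (ball (dg x) ρ) :=
  hΦ.sub fun w hw => (hn_comp (hn_of isOpen_ball hH (mem_pb.1 hw).1)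
    (hn_of isOpen_ball hH (mem_pb.1 hw).2)
    (T.hn (T.pp_mem hm hw))).self_of_nhds.differentiableWithinAt

theorem df_hess (he : ∀ z ∈ ball x ρ, Φ (dg z) = φ z) (hm : MapsTo H (ball x ρ) (ball 0 T.del))
    {z : E n} (hz : z ∈ ball x ρ) :
    hess (fun y => T.df Φ H (dg y)) z = hess (fun y => ((φ y - T.ph (H y) : ℝ) : ℂ)) z := by
  refine hess_congr ?_
  filter_upwards [isOpen_ball.mem_nhds hz] with y hy
  rw [df, pp_dg, he y hy, ← T.ph_eq (hm hy), ofReal_sub]

/-- Propagation of the isometry on a ball. -/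
theorem df_mx (hΦ : DifferentiableOn ℂ Φ (ball (dg x) ρ)) (he : ∀ z ∈ ball x ρ, Φ (dg z) = φ z)
    (hH : DifferentiableOn ℂ H (ball x ρ)) (hm : MapsTo H (ball x ρ) (ball 0 T.del)) {y : E n}
    (hy : y ∈ ball x ρ) (hi : T.Iso φ H y) :
    ∀ w ∈ ball (dg x) ρ, ∀ a b, mx (T.df Φ H) w a b = 0 := by
  refine mx_zero (T.df_hol hΦ hH hm) hy ?_
  filter_upwards [hi, isOpen_ball.mem_nhds hy] with z h1 h2
  rw [T.df_hess he hm h2, h1.2]

theorem iso_prop (hΦ : DifferentiableOn ℂ Φ (ball (dg x) ρ)) (he : ∀ z ∈ ball x ρ, Φ (dg z) = φ z)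
    (hH : DifferentiableOn ℂ H (ball x ρ)) (hm : MapsTo H (ball x ρ) (ball 0 T.del)) {y : E n}
    (hy : y ∈ ball x ρ) (hi : T.Iso φ H y) : ∀ z ∈ ball x ρ, T.Iso φ H z := fun z hz => by
  filter_upwards [isOpen_ball.mem_nhds hz] with y' h
  refine ⟨hH.differentiableAt (isOpen_ball.mem_nhds h), ?_⟩
  rw [← T.df_hess he hm h]
  exact (hess_zero_iff (hn_of isOpen_ball (T.df_hol hΦ hH hm) (dg_mem.2 h))).2
    (T.df_mx hΦ he hH hm hy hi _ (dg_mem.2 h))

/-- The key identity: the difference of the gradients does not depend on the first variable. -/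
theorem df_q (hΦ : DifferentiableOn ℂ Φ (ball (dg x) ρ)) (he : ∀ z ∈ ball x ρ, Φ (dg z) = φ z)
    (hH : DifferentiableOn ℂ H (ball x ρ)) (hm : MapsTo H (ball x ρ) (ball 0 T.del)) {y : E n}
    (hy : y ∈ ball x ρ) (hi : T.Iso φ H y) {z z' y1 : E n} (hz : z ∈ ball x ρ) (hz' : z' ∈ ball x ρ)
    (h1 : y1 ∈ ball x ρ) (b : E n) :
    fderiv ℂ Φ (z, star y1) (0, star b) - fderiv ℂ T.Φ (H z, star (H y1)) (0, star (fderiv ℂ H y1 b)) =
    fderiv ℂ Φ (z', star y1) (0, star b) -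
      fderiv ℂ T.Φ (H z', star (H y1)) (0, star (fderiv ℂ H y1 b)) := by
  have key : ∀ z ∈ ball x ρ, fderiv ℂ (T.df Φ H) (z, star y1) (0, star b) =
      fderiv ℂ Φ (z, star y1) (0, star b) -
        fderiv ℂ T.Φ (H z, star (H y1)) (0, star (fderiv ℂ H y1 b)) := fun z hz => by
    have hw : (z, star y1) ∈ ball (dg x) ρ := mem_pb.2 ⟨hz, by simpa using h1⟩
    have a1 := hn_of isOpen_ball hH (mem_pb.1 hw).1
    have a2 := hn_of isOpen_ball hH (mem_pb.1 hw).2
    have a3 := T.hn (T.pp_mem hm hw)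
    rw [show T.df Φ H = fun w => Φ w - T.Φ (pp H w) from rfl,
      fderiv_fun_sub (hΦ.differentiableAt (isOpen_ball.mem_nhds hw)) (hn_comp a1 a2 a3).self_of_nhds,
      sub_apply, fderiv_pp a1.self_of_nhds a2.self_of_nhds a3.self_of_nhds]
    simp [pp, cm]
  rw [← key z hz, ← key z' hz']
  exact q_indep (T.df_hol hΦ hH hm) (T.df_mx hΦ he hH hm hy hi) hz hz' (by simpa using h1) _

theorem cd_ph {t : E r} (ht : ‖pk k t‖ < T.del) : ContDiffAt ℝ ∞ T.ph t := by
  have h1 : pk k t ∈ ball (0 : E r) T.del := mem_ball_zero_iff.2 ht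
  have h2 : ContDiffAt ℝ ∞ T.ph (pk k t) :=
    (cd_re (cd_dgc (T.hn (dg_mem0.2 h1)))).congr_of_eventuallyEq
      ((isOpen_ball.eventually_mem h1).mono fun s hs => by simp only [← T.ph_eq hs, ofReal_re])
  have h3 : T.ph = fun s => T.ph (s + (pk k t - t)) := funext fun s =>
    (T.ph_tr (by rw [pk_sub, pk_pk, sub_self]) s).symm
  rw [h3]
  exact ContDiffAt.comp (g := T.ph) t (by simpa using h2) (by fun_prop)

theorem hess_ph_tr {a : E r} (ha : pk k a = 0) (t : E r) :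
    hess (fun s => (T.ph s : ℂ)) (t + a) = hess (fun s => (T.ph s : ℂ)) t := by
  have h1 : ∀ (f : E r → ℂ), (∀ s, f (s + a) = f s) → ∀ s, fderiv ℝ f (s + a) = fderiv ℝ f s :=
    fun f hf s => by rw [← fderiv_comp_add_right]; simp only [hf]
  have h2 := h1 (fun s => (T.ph s : ℂ)) fun s => congrArg ofReal (T.ph_tr ha s)
  ext i j
  simp only [hess_apply, dzb]
  rw [h1 (dz j fun s => (T.ph s : ℂ)) fun s => by simp only [dz, h2]]

theorem hess_ph {t : E r} (ht : t ∈ ball (0 : E r) T.del) :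
    hess (fun s => (T.ph s : ℂ)) t = hess (fun s => T.Φ (dg s)) t :=
  hess_congr ((isOpen_ball.eventually_mem ht).mono fun s hs => T.ph_eq hs)

theorem hess_ph_pk (t : E r) :
    hess (fun s => (T.ph s : ℂ)) t = hess (fun s => (T.ph s : ℂ)) (pk k t) := by
  rw [← T.hess_ph_tr (pk_rest t) (pk k t), add_sub_cancel]

theorem low_ph {t : E r} (ht : ‖pk k t‖ < T.del) (v : E r) :
    T.c0 * ‖v‖ ^ 2 ≤ nq (hess (fun s => (T.ph s : ℂ)) t) v := by
  rw [T.hess_ph_pk, T.hess_ph (mem_ball_zero_iff.2 ht)]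
  exact T.low _ (mem_ball_zero_iff.2 ht) v

/-- The Levi form is pulled back. -/
theorem Iso.form {T : TV r k} {y : E n} (hi : T.Iso φ H y) (hφ : ContDiffAt ℝ ∞ φ y)
    (hy : ‖pk k (H y)‖ < T.del) (a b : E n) :
    star b ⬝ᵥ hess (fun s => (φ s : ℂ)) y *ᵥ a =
      star (fderiv ℂ H y b) ⬝ᵥ hess (fun s => (T.ph s : ℂ)) (H y) *ᵥ fderiv ℂ H y a := by
  set c := pk k (H y) - H y with hc
  have hc0 : pk k c = 0 := by rw [hc, pk_sub, pk_pk, sub_self]
  have h1 : H y + c ∈ ball (0 : E r) T.del := by simpa [hc] using hy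
  have hH : Hn (fun z => H z + c) y := (hi.tr hc0).hn
  have h2 := hess_chain hH (T.hn (dg_mem0.2 h1)) a b
  have h3 : ∀ᶠ z in 𝓝 y, T.Φ (dg (H z + c)) = (T.ph (H z) : ℂ) := by
    filter_upwards [hH.self_of_nhds.continuousAt.eventually (isOpen_ball.mem_nhds h1)] with z hz
    rw [← T.ph_eq hz, T.ph_tr hc0]
  have h4 : ContDiffAt ℝ ∞ (fun z => (T.ph (H z) : ℂ)) y :=
    cd_ofReal ((T.cd_ph hy).comp y (hn_smooth hi.hn))
  have h5 := hi.self_of_nhds.2
  simp only [ofReal_sub] at h5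
  rw [hess_sub (cd_ofReal hφ) h4, sub_eq_zero] at h5
  rw [h5, ← hess_congr h3, h2, ← T.hess_ph h1, T.hess_ph_tr hc0, fderiv_add_const]

theorem Iso.norm_le {T : TV r k} {y : E n} (hi : T.Iso φ H y) (hφ : ContDiffAt ℝ ∞ φ y)
    (hy : ‖pk k (H y)‖ < T.del) {L : ℝ} (hL : 0 ≤ L)
    (hb : ∀ v, nq (hess (fun s => (φ s : ℂ)) y) v ≤ L ^ 2 * ‖v‖ ^ 2) :
    ‖fderiv ℂ H y‖ ≤ L / √T.c0 := by
  have hc := Real.sqrt_pos.2 T.c0_pos
  refine ContinuousLinearMap.opNorm_le_bound _ (by positivity) fun v => ?_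
  have h1 := T.low_ph hy (fderiv ℂ H y v)
  have h2 := hb v
  rw [nq, hi.form hφ hy] at h2
  rw [div_mul_eq_mul_div, le_div_iff₀ hc]
  refine le_of_sq_le_sq ?_ (by positivity)
  rw [mul_pow, mul_pow, Real.sq_sqrt T.c0_pos.le]
  rw [nq] at h1
  linarith

end TV

theorem ext_ball (T : TV r k) {φ : E n → ℝ} {Φ : E n × E n → ℂ} {x : E n} {ρ L d : ℝ}
    {H : E n → E r} (hd : 0 < d) (hL : 0 ≤ L) (hΦ : DifferentiableOn ℂ Φ (ball (dg x) ρ))
    (he : ∀ z ∈ ball x ρ, Φ (dg z) = φ z)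
    (hb : ∀ z ∈ ball x ρ, ∀ v, nq (hess (fun y => (φ y : ℂ)) z) v ≤ L ^ 2 * ‖v‖ ^ 2)
    (hρ : L * ρ ≤ √T.c0 * d) (hx : ‖H x‖ ≤ T.del - 2 * d) (hi : T.Iso φ H x)
    (hs : ∃ᶠ z in 𝓝 x, Function.Surjective (fderiv ℂ H z)) :
    ∃ G : E n → E r, G =ᶠ[𝓝 x] H ∧ ∀ z ∈ ball x ρ, ‖G z - H x‖ ≤ d ∧ T.Iso φ G z := by
  rcases le_or_gt ρ 0 with h0 | h0
  · exact ⟨H, EventuallyEq.rfl, fun z hz => absurd (pos_of_mem_ball hz) (not_lt.2 h0)⟩
  have hx0 : H x ∈ ball (0 : E r) T.del := mem_ball_zero_iff.2 (by linarith)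
  obtain ⟨s0, hs0, hb0⟩ := Metric.mem_nhds_iff.1 (inter_mem (inter_mem hi.hn
    (hi.hn.self_of_nhds.continuousAt.eventually (isOpen_ball.mem_nhds hx0))) (ball_mem_nhds x h0))
  set s1 := min s0 ρ with hs1
  have hs1p : 0 < s1 := lt_min hs0 h0
  have sb : ∀ {s}, s ≤ ρ → ball x s ⊆ ball x ρ := fun h => ball_subset_ball h
  have sp : ∀ {s}, s ≤ ρ → ball (dg x) s ⊆ ball (dg x) ρ := fun h => ball_subset_ball h
  have b1 : ball x s1 ⊆ ball x s0 := ball_subset_ball (min_le_left _ _)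
  have l1 : s1 ≤ ρ := min_le_right _ _
  have hH : DifferentiableOn ℂ H (ball x s1) := fun z hz =>
    DifferentiableAt.differentiableWithinAt (hb0 (b1 hz)).1.1
  have hm : MapsTo H (ball x s1) (ball 0 T.del) := fun z hz => (hb0 (b1 hz)).1.2
  obtain ⟨y1, hy1, hy1'⟩ := (hs.and_eventually (ball_mem_nhds x hs1p)).exists
  choose b hb' using fun i : Fin r => hy1 (Pi.single i 1)
  set u : E r := star (H y1) with hu
  have hum : u ∈ ball (0 : E r) T.del := by
    have := hm hy1'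
    rw [mem_ball_zero_iff] at this ⊢
    rwa [hu, norm_star]
  set Q : E r → E r := fun t => pu T.Φ (t, u) with hQ
  have hQd : DifferentiableOn ℂ Q (ball 0 T.del) := differentiableOn_pi.2 fun i t ht =>
    (mx_eq (T.hn (w := (t, u)) (mem_b0.2 ⟨ht, hum⟩)) 0
      (Pi.single i 1)).1.differentiableAt.differentiableWithinAt
  obtain ⟨hop, P, hP, hPQ⟩ := inv_exp isOpen_ball hQd T.c0_pos (T.exp u hum)
  set g : E n → E r := fun z i => fderiv ℂ Φ (z, star y1) (0, star (b i)) -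
    fderiv ℂ Φ (x, star y1) (0, star (b i)) + Q (H x) i with hg
  have hgd : DifferentiableOn ℂ g (ball x ρ) := differentiableOn_pi.2 fun i z hz =>
    (((mx_eq (hn_of isOpen_ball hΦ (mem_pb.2 (show (z, star y1).1 ∈ ball x ρ ∧
      star (z, star y1).2 ∈ ball x ρ from ⟨hz, by simpa using sb l1 hy1'⟩))) 0
      (star (b i))).1.differentiableAt.sub_const _).add_const _).differentiableWithinAt
  have hgQ : ∀ z ∈ ball x s1, g z = Q (H z) := fun z hz => funext fun i => by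
    have := T.df_q (hΦ.mono (sp l1)) (fun z hz => he z (sb l1 hz)) hH hm (mem_ball_self hs1p) hi
      hz (mem_ball_self hs1p) hy1' (b i)
    rw [hb', star_sing] at this
    simp only [hg, hQ, pu]
    linear_combination this
  set G : E n → E r := fun z => P (g z) with hG
  have hGH : G =ᶠ[𝓝 x] H := (isOpen_ball.eventually_mem (mem_ball_self hs1p)).mono fun z hz => by
    simp only [hG, hgQ z hz, hPQ _ (hm hz)]
  have main : ∀ s, s1 ≤ s → s ≤ ρ → MapsTo g (ball x s) (Q '' ball 0 T.del) →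
      ∀ z ∈ ball x s, ‖G z - H x‖ ≤ d ∧ T.Iso φ G z := by
    intro s h1 h2 h3
    have hsp : 0 < s := hs1p.trans_le h1
    have hGd : DifferentiableOn ℂ G (ball x s) := hP.comp (hgd.mono (sb h2)) h3
    have hGm : MapsTo G (ball x s) (ball 0 T.del) := fun z hz => by
      obtain ⟨t, ht, e⟩ := h3 hz
      simp only [hG, ← e, hPQ t ht, ht]
    have hI := T.iso_prop (hΦ.mono (sp h2)) (fun z hz => he z (sb h2 hz)) hGd hGm
      (mem_ball_self hsp) (hi.congr hGH)
    have hN : ∀ z ∈ ball x s, ‖fderiv ℂ G z‖ ≤ L / √T.c0 := fun z hz => by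
      refine (hI z hz).norm_le ?_ ((norm_pk_le _).trans_lt (mem_ball_zero_iff.1 (hGm hz))) hL
        (hb z (sb h2 hz))
      refine (cd_re (cd_dgc (hn_of isOpen_ball hΦ (dg_mem.2 (sb h2 hz))))).congr_of_eventuallyEq ?_
      filter_upwards [isOpen_ball.mem_nhds (sb h2 hz)] with y hy
      rw [he y hy, ofReal_re]
    intro z hz
    refine ⟨?_, hI z hz⟩
    have h4 := (convex_ball x s).norm_image_sub_le_of_norm_fderiv_le (𝕜 := ℂ)
      (fun y hy => hGd.differentiableAt (isOpen_ball.mem_nhds hy)) hN (mem_ball_self hsp) hz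
    rw [hGH.self_of_nhds] at h4
    have hc := Real.sqrt_pos.2 T.c0_pos
    have h5 : ‖z - x‖ ≤ ρ := by rw [← dist_eq_norm]; exact (mem_ball.1 (sb h2 hz)).le
    refine h4.trans ?_
    rw [div_mul_eq_mul_div, div_le_iff₀ hc]
    nlinarith [mul_le_mul_of_nonneg_left h5 hL]
  have hK : closedBall (H x) d ⊆ ball (0 : E r) T.del := fun t ht => by
    rw [mem_closedBall, dist_eq_norm] at ht
    have := norm_add_le (t - H x) (H x)
    rw [sub_add_cancel] at this
    exact mem_ball_zero_iff.2 (by linarith)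
  have hKc : IsClosed (Q '' closedBall (H x) d) :=
    ((isCompact_closedBall _ _).image_of_continuousOn (hQd.continuousOn.mono hK)).isClosed
  have all : Icc s1 ρ ⊆ {s | MapsTo g (ball x s) (Q '' ball 0 T.del)} := by
    refine IsClosed.Icc_subset_of_forall_exists_gt (IsClosed.inter ?_ isClosed_Icc)
      (fun z hz => ⟨H z, hm hz, (hgQ z hz).symm⟩) ?_
    · rw [← isOpen_compl_iff, isOpen_iff_mem_nhds]
      intro s hs
      simp only [mem_compl_iff, mem_ofPred_eq, MapsTo, not_forall] at hs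
      obtain ⟨z, hz, hz'⟩ := hs
      filter_upwards [lt_mem_nhds (mem_ball.1 hz)] with s' h1 h2 using hz' (h2 (mem_ball.2 h1))
    · rintro s ⟨h1, h2, h3⟩ y hy
      have hsp : 0 < s := hs1p.trans_le h2
      have h4 : MapsTo g (ball x s) (Q '' closedBall (H x) d) := fun z hz => by
        obtain ⟨t, ht, e⟩ := h1 hz
        have := (main s h2 h3.le h1 z hz).1
        simp only [hG, ← e, hPQ t ht] at this
        exact ⟨t, by rwa [mem_closedBall, dist_eq_norm], e⟩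
      have h5 : closedBall x s ⊆ ball x ρ := closedBall_subset_ball h3
      have h6 : MapsTo g (closedBall x s) (Q '' closedBall (H x) d) := by
        rw [← closure_ball x hsp.ne'] at h5 ⊢
        exact hKc.closure_eq ▸ h4.closure_of_continuousOn (hgd.continuousOn.mono h5)
      obtain ⟨δ, hδ, h7⟩ := (isCompact_closedBall x s).exists_thickening_subset_open
        (hgd.continuousOn.isOpen_inter_preimage isOpen_ball hop)
        fun z hz => ⟨h5 hz, image_mono hK (h6 hz)⟩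
      rw [thickening_closedBall hδ hsp.le] at h7
      refine ⟨min y (δ + s), fun z hz => (h7 (ball_subset_ball (min_le_right _ _) hz)).2,
        lt_min hy (by linarith), min_le_left _ _⟩
  exact ⟨G, hGH, main ρ l1 le_rfl (all ⟨l1, le_rfl⟩)⟩

theorem ext_tube (T : TV r k) {φ : E n → ℝ} {Φ : E n × E n → ℂ} {x : E n} {ρ L d : ℝ}
    {H : E n → E r} (hd : 0 < d) (hL : 0 ≤ L) (hΦ : DifferentiableOn ℂ Φ (ball (dg x) ρ))
    (he : ∀ z ∈ ball x ρ, Φ (dg z) = φ z)
    (hb : ∀ z ∈ ball x ρ, ∀ v, nq (hess (fun y => (φ y : ℂ)) z) v ≤ L ^ 2 * ‖v‖ ^ 2)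
    (hρ : L * ρ ≤ √T.c0 * d) (hx : ‖pk k (H x)‖ ≤ T.del - 2 * d) (hi : T.Iso φ H x)
    (hs : ∃ᶠ z in 𝓝 x, Function.Surjective (fderiv ℂ H z)) :
    ∃ G : E n → E r, G =ᶠ[𝓝 x] H ∧ ∀ z ∈ ball x ρ, ‖G z - H x‖ ≤ d ∧ T.Iso φ G z := by
  set a := H x - pk k (H x) with ha
  have h0 : pk k a = 0 := pk_rest _
  have h1 : pk k (-a) = 0 := by rw [pk_neg, h0, neg_zero]
  obtain ⟨G, h2, h3⟩ := ext_ball T hd hL hΦ he hb hρ (H := fun z => H z + -a)
    (by simpa [ha] using hx) (hi.tr h1) (by simpa only [fderiv_add_const] using hs)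
  refine ⟨fun z => G z + a, h2.mono fun z hz => by simp [hz], fun z hz =>
    ⟨?_, (h3 z hz).2.tr h0⟩⟩
  rw [show G z + a - H x = G z - (H x + -a) by abel]
  exact (h3 z hz).1

end Pool.Agent.Lib.RA.H56
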