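import Pool.Agent.Lib.RA.T_STR

/-! The holomorphic lemma of Poincaré along independent directions. -/

open scoped Topology
open Set Filter Metric

set_option linter.unusedVariables false

noncomputable section

namespace Pool.Agent.Lib.RA

/-- Holomorphic functions with symmetric derivatives along `w` are derivatives of one function. -/
def St_PCL : Prop :=
  ∀ (W ι : Type) [NormedAddCommGroup W] [NormedSpace ℂ W] [FiniteDimensional ℂ W] [Fintype ι]
    (w : ι → W) (h : ι → W → ℂ) (y : W), LinearIndependent ℂ w →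
    (∀ᶠ z in 𝓝 y, (∀ i, DifferentiableAt ℂ (h i) z) ∧
      ∀ i l, fderiv ℂ (h i) z (w l) = fderiv ℂ (h l) z (w i)) →
    ∃ A : W → ℂ, ∀ᶠ z in 𝓝 y, DifferentiableAt ℂ A z ∧ ∀ i, fderiv ℂ A z (w i) = h i z

namespace PCL22

variable {W ι : Type} [NormedAddCommGroup W] [NormedSpace ℂ W] [Fintype ι]

lemma indep {w : ι → W} (hw : LinearIndependent ℂ w) (c : ι → ℂ) :
    LinearIndependent ℂ fun o : Option ι => (o.elim (0, 1) fun i => (w i, c i) : W × ℂ) := by
  rw [Fintype.linearIndependent_iff] at hw ⊢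
  intro g hg
  rw [Fintype.sum_option] at hg
  have h1 := congrArg Prod.fst hg
  have h2 := congrArg Prod.snd hg
  simp only [Option.elim, Prod.fst_add, Prod.smul_fst, smul_zero, zero_add, Prod.fst_sum,
    Prod.fst_zero] at h1
  have h3 := hw _ h1
  simp only [Option.elim, h3, zero_smul, Finset.sum_const_zero, add_zero, Prod.smul_snd,
    smul_eq_mul, mul_one, Prod.snd_zero] at h2
  rintro (_ | i)
  exacts [h2, h3 i]

lemma hasF {f : W → ℂ} {p : W × ℂ} (v : W) (h : DifferentiableAt ℂ f p.1) :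
    HasFDerivAt (fun q : W × ℂ => (v, f q.1))
      ((0 : W × ℂ →L[ℂ] W).prod ((fderiv ℂ f p.1).comp (ContinuousLinearMap.fst ℂ W ℂ))) p :=
  (hasFDerivAt_const v p).prodMk (h.hasFDerivAt.comp p hasFDerivAt_fst)

end PCL22

open PCL22 in
theorem st_PCL : St_PCL := by
  intro W ι _ _ _ _ w h y hw H
  have hs : Tendsto (Prod.fst : W × ℂ → W) (𝓝 (y, 0)) (𝓝 y) := continuous_fst.tendsto _
  obtain ⟨ψ, δ, -, h1, -, -, -, h2, -, h3, -⟩ := st_STR (W × ℂ) (W × ℂ) (Option ι)
    (fun o q => o.elim (0, 1) fun i => (w i, h i q.1)) _ (y, 0) univ univ_mem rfl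
    (indep hw fun _ => 0) (indep hw fun i => h i y) (by
      filter_upwards [hs.eventually H] with q hq
      refine ⟨?_, ?_⟩
      · rintro (_ | i)
        exacts [differentiableAt_const _, (hasF _ (hq.1 i)).differentiableAt]
      · rintro (_ | i) (_ | l)
        · rfl
        · simp only [Option.elim]
          rw [(hasF _ (hq.1 l)).fderiv]
          simp [Prod.ext_iff]
        · simp only [Option.elim]
          rw [(hasF _ (hq.1 i)).fderiv]
          simp
        · simp only [Option.elim]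
          rw [(hasF _ (hq.1 i)).fderiv, (hasF _ (hq.1 l)).fderiv]
          simp [hq.2 i l])
  have ht : Tendsto (fun z : W => (z, (0 : ℂ))) (𝓝 y) (𝓝 (y, 0)) :=
    Continuous.tendsto (by fun_prop) y
  refine ⟨fun z => -(ψ (z, 0)).2, ?_⟩
  filter_upwards [ht.eventually (ψ.open_source.mem_nhds h1)] with z hz
  have h4 := (HasFDerivAt.comp (f := fun z : W => (z, (0 : ℂ))) z
    (h2.differentiableAt (ψ.open_source.mem_nhds hz)).hasFDerivAt
    (hasFDerivAt_prodMk_left z (0 : ℂ))).snd.neg
  refine ⟨h4.differentiableAt, fun i => ?_⟩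
  have h5 : fderiv ℂ ψ (z, 0) (w i, h i z) = (w i, 0) := h3 _ hz (some i)
  have h6 : fderiv ℂ ψ (z, 0) (0, 1) = (0, 1) := h3 _ hz none
  have h7 : ((w i, 0) : W × ℂ) = (w i, h i z) - h i z • (0, 1) := by simp
  have h8 : fderiv ℂ ψ (z, 0) (w i, 0) = (w i, -h i z) := by
    rw [h7, map_sub, map_smul, h5, h6]
    simp
  exact (DFunLike.congr_fun h4.fderiv (w i)).trans (by simp [h8])

end Pool.Agent.Lib.RA
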