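import Pool.Agent.Lib.SV.Hol85

/-! Bounds for iterated derivatives along a bounded vector field. -/

open Set Metric
open scoped Nat

namespace Pool.Agent.Lib.RA

/-- If `Q (j + 1)` is the derivative of `Q j` along a field bounded by `C` on a ball of radius
`ρ`, then `Q j` grows at most like `j! (6 C / ρ) ^ j` at the centre. -/
def St_LIE : Prop := ∀ (E V : Type) [NormedAddCommGroup E] [NormedSpace ℂ E]
  [NormedAddCommGroup V] [NormedSpace ℂ V] (x : E) (ρ C M : ℝ) (Ξ : E → E) (Q : ℕ → E → V), 0 < ρ →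
  (∀ z ∈ ball x ρ, ‖Ξ z‖ ≤ C) → (∀ j, DifferentiableOn ℂ (Q j) (ball x ρ)) →
  (∀ z ∈ ball x ρ, ‖Q 0 z‖ ≤ M) →
  (∀ j, ∀ z ∈ ball x ρ, Q (j + 1) z = fderiv ℂ (Q j) z (Ξ z)) →
    ∀ j, ‖Q j x‖ ≤ M * j ! * (6 * C / ρ) ^ j

variable {E V : Type*} [NormedAddCommGroup E] [NormedSpace ℂ E] [NormedAddCommGroup V]
  [NormedSpace ℂ V]

theorem LIEB.lie {x : E} {ρ C M : ℝ} (hρ : 0 < ρ) {Ξ : E → E} {Q : ℕ → E → V}
    (hC : ∀ z ∈ ball x ρ, ‖Ξ z‖ ≤ C) (hQ : ∀ j, DifferentiableOn ℂ (Q j) (ball x ρ))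
    (h0 : ∀ z ∈ ball x ρ, ‖Q 0 z‖ ≤ M)
    (hs : ∀ j, ∀ z ∈ ball x ρ, Q (j + 1) z = fderiv ℂ (Q j) z (Ξ z)) (j : ℕ) :
    ‖Q j x‖ ≤ M * j ! * (6 * C / ρ) ^ j := by
  have hM : 0 ≤ M := (norm_nonneg _).trans (h0 x (mem_ball_self hρ))
  have hC0 : 0 ≤ C := (norm_nonneg _).trans (hC x (mem_ball_self hρ))
  rcases Nat.eq_zero_or_pos j with rfl | hj
  · simpa using h0 x (mem_ball_self hρ)
  have hj' : (0 : ℝ) < j := by exact_mod_cast hj
  set h : ℝ := ρ / j with hh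
  have h1 : 0 < h := div_pos hρ hj'
  have key : ∀ (i : ℕ) (z : E), ball z (i * h) ⊆ ball x ρ → z ∈ ball x ρ →
      ‖Q i z‖ ≤ M * (2 * C / h) ^ i := by
    intro i
    induction i with
    | zero => intro z _ hz; simpa using h0 z hz
    | succ i ih =>
      intro z hb hz
      have hi : (0 : ℝ) ≤ i * h := by positivity
      have hb1 : ball z h ⊆ ball x ρ :=
        (ball_subset_ball (by push_cast; linarith)).trans hb
      have hb2 : ∀ w ∈ ball z h, ‖Q i w‖ ≤ M * (2 * C / h) ^ i := fun w hw =>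
        ih w ((ball_subset_ball' (by push_cast; linarith [mem_ball.1 hw])).trans hb) (hb1 hw)
      have h3 := SV.H85.norm_fderiv_le h1 ((hQ i).mono hb1) hb2
      rw [hs i z hz]
      calc _ ≤ ‖fderiv ℂ (Q i) z‖ * ‖Ξ z‖ := ContinuousLinearMap.le_opNorm _ _
        _ ≤ 2 * (M * (2 * C / h) ^ i) / h * C := by gcongr; exact hC z hz
        _ = M * (2 * C / h) ^ (i + 1) := by ring
  have e : (j : ℝ) * h = ρ := by rw [hh]; field_simp
  refine (key j x (by rw [e]) (mem_ball_self hρ)).trans ?_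
  have h2 : (j : ℝ) ^ j ≤ j ! * 3 ^ j := by
    have h3 := Real.pow_div_factorial_le_exp (j : ℝ) hj'.le j
    rw [div_le_iff₀ (by positivity)] at h3
    have h4 : Real.exp j ≤ 3 ^ j := by
      rw [← Real.exp_one_pow]
      exact pow_le_pow_left₀ (Real.exp_pos 1).le (Real.exp_one_lt_three.le) j
    calc _ ≤ Real.exp j * j ! := h3
      _ ≤ 3 ^ j * j ! := by gcongr
      _ = _ := mul_comm _ _
  have e2 : 2 * C / h = j * (2 * C / ρ) := by rw [hh]; field_simp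
  have e3 : 6 * C / ρ = 3 * (2 * C / ρ) := by ring
  rw [e2, e3, mul_pow, mul_pow, mul_assoc, ← mul_assoc (j ! : ℝ)]
  gcongr

theorem st_LIE : St_LIE := fun _ _ _ _ _ _ _ _ _ _ _ _ hρ hC hQ h0 hs =>
  LIEB.lie hρ hC hQ h0 hs

end Pool.Agent.Lib.RA
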