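import Mathlib

/-! A two-constants estimate on the unit disc. -/

open Set Metric Complex

namespace Pool.Agent.Lib.RA

/-- A holomorphic map of the unit disc, bounded by `M` and bounded by `m` on the real diameter, is
bounded by `m ^ (3/4) M ^ (1/4)` at the point `3i/64`. -/
def St_TC : Prop := ∀ (V : Type) [NormedAddCommGroup V] [NormedSpace ℂ V] (F : ℂ → V) (m M : ℝ),
  DifferentiableOn ℂ F (ball 0 1) → 0 < m → m ≤ M → (∀ z ∈ ball (0 : ℂ) 1, ‖F z‖ ≤ M) →
  (∀ x : ℝ, |x| < 1 → ‖F x‖ ≤ m) → ‖F (3 / 64 * I)‖ ≤ m ^ (3 / 4 : ℝ) * M ^ (1 / 4 : ℝ)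

theorem TCB.two_const {V : Type*} [NormedAddCommGroup V] [NormedSpace ℂ V] {F : ℂ → V} {m M : ℝ}
    (hF : DifferentiableOn ℂ F (ball 0 1)) (hm : 0 < m) (hmM : m ≤ M)
    (hM : ∀ z ∈ ball (0 : ℂ) 1, ‖F z‖ ≤ M) (hr : ∀ x : ℝ, |x| < 1 → ‖F x‖ ≤ m) :
    ‖F (3 / 64 * I)‖ ≤ m ^ (3 / 4 : ℝ) * M ^ (1 / 4 : ℝ) := by
  have hM0 : 0 < M := hm.trans_le hmM
  set A : ℝ := Real.log M - Real.log m with hA
  have hA0 : 0 ≤ A := sub_nonneg.2 (Real.log_le_log hm hmM)
  set L : ℝ := 16 * A / 3 with hL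
  have hL0 : 0 ≤ L := by positivity
  set U : Set ℂ := Ioo (-1 / 2 : ℝ) (1 / 2) ×ℂ Ioo (0 : ℝ) (1 / 4) with hU
  set g : ℂ → V := fun z => exp (I * L * z - L * z ^ 2) • F z with hg
  have hn : ∀ z, ‖g z‖ = Real.exp (-L * z.im - L * (z.re ^ 2 - z.im ^ 2)) * ‖F z‖ := by
    intro z
    rw [hg]
    simp only [norm_smul, norm_exp]
    congr 2
    simp [pow_two]
  have hcl : closure U = Icc (-1 / 2 : ℝ) (1 / 2) ×ℂ Icc (0 : ℝ) (1 / 4) := by
    rw [hU, closure_reProdIm, closure_Ioo (by norm_num), closure_Ioo (by norm_num)]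
  have hsub : closure U ⊆ ball (0 : ℂ) 1 := by
    rw [hcl]
    rintro z ⟨⟨h1, h2⟩, h3, h4⟩
    rw [mem_ball_zero_iff]
    have := norm_le_abs_re_add_abs_im z
    have h5 : |z.re| ≤ 1 / 2 := abs_le.2 ⟨by linarith, h2⟩
    have h6 : |z.im| ≤ 1 / 4 := abs_le.2 ⟨by linarith, h4⟩
    linarith
  have hgd : DifferentiableOn ℂ g (ball 0 1) :=
    (by fun_prop : Differentiable ℂ fun z : ℂ => exp (I * L * z - L * z ^ 2)).differentiableOn.smul hF
  have hd : DiffContOnCl ℂ g U := (hgd.mono hsub).diffContOnCl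
  have hb : Bornology.IsBounded U := isBounded_ball.subset (subset_closure.trans hsub)
  have hside : ∀ z ∈ closure U, -L * z.im - L * (z.re ^ 2 - z.im ^ 2) ≤ -A → ‖g z‖ ≤ m := by
    intro z hz h
    rw [hn]
    calc _ ≤ Real.exp (-A) * M := by gcongr; exact hM z (hsub hz)
      _ = m := by
        rw [hA, neg_sub, Real.exp_sub, Real.exp_log hm, Real.exp_log hM0]; field_simp
  have hfr : ∀ z ∈ frontier U, ‖g z‖ ≤ m := by
    intro z hz
    have hc := frontier_subset_closure hz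
    have hz' : z ∉ U := fun h => hz.2 (by
      rwa [(isOpen_Ioo.reProdIm isOpen_Ioo : IsOpen U).interior_eq])
    have hc' := hc
    rw [hcl] at hc'
    obtain ⟨⟨h1, h2⟩, h3, h4⟩ := hc'
    by_cases h0 : z.im = 0
    · have e : z = (z.re : ℂ) := Complex.ext (by simp) (by simp [h0])
      rw [hn, h0]
      have h5 : ‖F z‖ ≤ m := by
        rw [e]; exact hr _ (abs_lt.2 ⟨by linarith, by linarith⟩)
      calc _ ≤ 1 * m := by
            gcongr
            rw [Real.exp_le_one_iff]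
            nlinarith [mul_nonneg hL0 (sq_nonneg z.re)]
        _ = m := one_mul m
    · refine hside z hc ?_
      have hAL : A = 3 / 16 * L := by rw [hL]; ring
      by_cases h5 : z.im = 1 / 4
      · rw [h5, hAL]; nlinarith [mul_nonneg hL0 (sq_nonneg z.re)]
      · have h6 : z.re ^ 2 = 1 / 4 := by
          by_contra h7
          refine hz' ⟨⟨lt_of_le_of_ne h1 fun h => h7 ?_, lt_of_le_of_ne h2 fun h => h7 ?_⟩,
            lt_of_le_of_ne h3 (Ne.symm h0), lt_of_le_of_ne h4 h5⟩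
          · rw [← h]; norm_num
          · rw [h]; norm_num
        have h8 : z.im ^ 2 ≤ 1 / 16 := by nlinarith
        rw [h6, hAL]
        nlinarith [mul_nonneg hL0 h3, mul_le_mul_of_nonneg_left h8 hL0]
  have hz : (3 / 64 * I : ℂ) ∈ closure U := by
    rw [hcl]
    constructor <;> constructor <;> norm_num
  have key := norm_le_of_forall_mem_frontier_norm_le hb hd hfr hz
  rw [hn] at key
  have e1 : (3 / 64 * I : ℂ).im = 3 / 64 := by norm_num
  have e2 : (3 / 64 * I : ℂ).re = 0 := by norm_num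
  rw [e1, e2] at key
  have e3 : m ^ (3 / 4 : ℝ) * M ^ (1 / 4 : ℝ) = m * Real.exp (A / 4) := by
    rw [Real.rpow_def_of_pos hm, Real.rpow_def_of_pos hM0, ← Real.exp_add]
    conv_rhs => rw [← Real.exp_log hm, ← Real.exp_add]
    congr 1
    rw [hA]; ring
  rw [e3]
  have e4 : Real.exp (-(A / 4)) ≤ Real.exp (-L * (3 / 64) - L * (0 ^ 2 - (3 / 64) ^ 2)) := by
    rw [Real.exp_le_exp, hL]; nlinarith
  have e5 : Real.exp (-(A / 4)) * ‖F (3 / 64 * I)‖ ≤ m :=
    (mul_le_mul_of_nonneg_right e4 (norm_nonneg _)).trans key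
  rw [Real.exp_neg, inv_mul_le_iff₀ (Real.exp_pos _)] at e5
  linarith

theorem st_TC : St_TC := fun _ _ _ _ _ _ hF hm hmM hM hr => TCB.two_const hF hm hmM hM hr

end Pool.Agent.Lib.RA
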