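import Mathlib

/-! The radical of a polynomial over a field of characteristic zero. -/

open Polynomial

namespace Pool.Agent.Lib.RA

/-- A nonzero polynomial has a monic separable divisor a power of which it divides. -/
def St_RAD : Prop := ∀ (K : Type) [Field K] [CharZero K] (P : K[X]), P ≠ 0 →
  ∃ (R U V Q : K[X]) (N : ℕ), R.Monic ∧ U * R + V * derivative R = 1 ∧ R ^ N = P * Q ∧ R ∣ P

open UniqueFactorizationMonoid in
theorem st_RAD : St_RAD := by
  intro K _ _ P hP
  classical
  obtain ⟨U, V, h⟩ := (separable_def' _).1
    (PerfectField.separable_iff_squarefree.2 (squarefree_radical (a := P)))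
  obtain ⟨N, Q, hQ⟩ := exists_dvd_radical_self_pow hP
  refine ⟨radical P, U, V, Q, N, ?_, h, hQ, radical_dvd_self⟩
  refine monic_prod_of_monic _ _ fun q hq => ?_
  have h1 := mem_primeFactors.1 hq
  exact normalize_normalized_factor q h1 ▸
    monic_normalize (irreducible_of_normalized_factor q h1).ne_zero

end Pool.Agent.Lib.RA
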