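import Pool.Agent.Lib.RA.T_SARD

/-! The regularised minimum of a smooth family of convex functions. -/

open scoped Topology ContDiff Matrix
open Set Metric Filter

noncomputable section

namespace Pool.Agent.Lib.RA.MINI

/-- Second derivative in the direction `v`. -/
def sd {V : Type} [NormedAddCommGroup V] [NormedSpace ℝ V] (g : V → ℝ) (z v : V) : ℝ :=
  fderiv ℝ (fun w => fderiv ℝ g w v) z v

theorem two_le : (2 : WithTop ℕ∞) ≤ ∞ := ENat.LEInfty.out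

section gen

variable {V W : Type} [NormedAddCommGroup V] [NormedSpace ℝ V] [NormedAddCommGroup W]
  [NormedSpace ℝ W]

theorem sd_eq {g : V → ℝ} {z : V} (hg : ContDiffAt ℝ 2 g z) (v : V) :
    sd g z v = fderiv ℝ (fderiv ℝ g) z v v := by
  have h1 : DifferentiableAt ℝ (fderiv ℝ g) z :=
    (hg.fderiv_right (m := 1) (by norm_num)).differentiableAt (by norm_num)
  have h2 := (ContinuousLinearMap.apply ℝ ℝ v).hasFDerivAt.comp z h1.hasFDerivAt
  exact congrArg (fun L => L v) h2.fderiv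

theorem sd_aff {g : V → ℝ} (c : V) (A : W →L[ℝ] V) {y : W} (hg : ContDiffAt ℝ 2 g (c + A y))
    (q : W) : sd (fun w => g (c + A w)) y q = sd g (c + A y) (A q) := by
  have ha : ∀ w, HasFDerivAt (fun w => c + A w) A w := fun w => A.hasFDerivAt.const_add c
  have h1 : ∀ᶠ p in 𝓝 (c + A y), DifferentiableAt ℝ g p :=
    (hg.eventually (by simp)).mono fun p hp => hp.differentiableAt (by norm_num)
  have h2 : (fun w => fderiv ℝ (fun w => g (c + A w)) w q) =ᶠ[𝓝 y]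
      (fun p => fderiv ℝ g p (A q)) ∘ fun w => c + A w := by
    filter_upwards [(ha y).continuousAt.eventually h1] with w hw
    exact congrArg (fun L => L q) (hw.hasFDerivAt.comp w (ha w)).fderiv
  have h3 : DifferentiableAt ℝ (fun p => fderiv ℝ g p (A q)) (c + A y) :=
    ((hg.fderiv_right (m := 1) (by norm_num)).clm_apply contDiffAt_const).differentiableAt
      (by norm_num)
  unfold sd
  rw [h2.fderiv_eq]
  exact congrArg (fun L => L q) (h3.hasFDerivAt.comp y (ha y)).fderiv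

theorem line_cvx {g : V → ℝ} (hg : ConvexOn ℝ univ g) (x v : V) :
    ConvexOn ℝ univ fun t : ℝ => g (x + t • v) := by
  refine ⟨convex_univ, fun s _ t _ a b ha hb hab => ?_⟩
  have h := hg.2 (mem_univ (x + s • v)) (mem_univ (x + t • v)) ha hb hab
  have e : a • (x + s • v) + b • (x + t • v) = x + (a • s + b • t) • v := by
    rw [smul_add, smul_add, add_add_add_comm, ← add_smul, hab, one_smul, smul_smul, smul_smul,
      ← add_smul, smul_eq_mul, smul_eq_mul]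
  rwa [e] at h

theorem line_der (x v : V) (t : ℝ) : HasDerivAt (fun t : ℝ => x + t • v) v t := by
  simpa using ((hasDerivAt_id t).smul_const v).const_add x

/-- The gradient inequality. -/
theorem grad_le {g : V → ℝ} (hg : ConvexOn ℝ univ g) {x : V} {L : V →L[ℝ] ℝ}
    (hL : HasFDerivAt g L x) (v : V) : g x + L v ≤ g (x + v) := by
  have h0 : HasFDerivAt g L (x + (0 : ℝ) • v) := by rwa [zero_smul, add_zero]
  have h1 := (line_cvx hg x v).le_slope_of_hasDerivAt (mem_univ 0) (mem_univ 1) zero_lt_one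
    (h0.comp_hasDerivAt (0 : ℝ) (line_der x v 0))
  rw [slope_def_field] at h1
  simp only [one_smul, zero_smul, add_zero, sub_zero, div_one] at h1
  linarith

/-- The second derivative of a partially convex function. -/
theorem sec_nonneg {f : V × W → ℝ} {z : W} (hd : ∀ a, DifferentiableAt ℝ f (a, z))
    (hc : ConvexOn ℝ univ fun a => f (a, z)) {x : V} (h2 : ContDiffAt ℝ 2 f (x, z)) (v : V) :
    0 ≤ fderiv ℝ (fderiv ℝ f) (x, z) (v, 0) (v, 0) := by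
  have hl : ∀ t : ℝ, HasDerivAt (fun t : ℝ => ((x + t • v, z) : V × W)) (v, 0) t := fun t =>
    (line_der x v t).prodMk (hasDerivAt_const t z)
  have h1 : ∀ t : ℝ, HasDerivAt (fun t : ℝ => f (x + t • v, z))
      (fderiv ℝ f (x + t • v, z) (v, 0)) t := fun t =>
    (hd _).hasFDerivAt.comp_hasDerivAt t (hl t)
  have h3 := (line_cvx hc x v).monotoneOn_deriv fun t _ => (h1 t).differentiableAt
  have h4 : Monotone fun t : ℝ => fderiv ℝ f (x + t • v, z) (v, 0) := fun s t hst => by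
    have := h3 (mem_univ s) (mem_univ t) hst
    rwa [(h1 s).deriv, (h1 t).deriv] at this
  have h5 : HasFDerivAt (fderiv ℝ f) (fderiv ℝ (fderiv ℝ f) (x, z)) (x + (0 : ℝ) • v, z) := by
    rw [zero_smul, add_zero]
    exact ((h2.fderiv_right (m := 1) (by norm_num)).differentiableAt (by norm_num)).hasFDerivAt
  have h6 := (ContinuousLinearMap.apply ℝ ℝ ((v, 0) : V × W)).hasFDerivAt.comp_hasDerivAt (0 : ℝ)
    (h5.comp_hasDerivAt (0 : ℝ) (hl 0))
  exact HasDerivAt.nonneg_of_monotone h6 h4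

end gen

variable {k : ℕ}

/-- The scalar product as a continuous bilinear map. -/
def dp (k : ℕ) : (Fin k → ℝ) →L[ℝ] (Fin k → ℝ) →L[ℝ] ℝ :=
  ∑ i, (ContinuousLinearMap.proj i : (Fin k → ℝ) →L[ℝ] ℝ).smulRight
    (ContinuousLinearMap.proj i : (Fin k → ℝ) →L[ℝ] ℝ)

theorem dp_apply (a b : Fin k → ℝ) : dp k a b = a ⬝ᵥ b := by
  simp [dp, dotProduct]

theorem sq_le (a : Fin k → ℝ) : ‖a‖ ^ 2 ≤ a ⬝ᵥ a := by
  have h0 : 0 ≤ a ⬝ᵥ a := Finset.sum_nonneg fun i _ => mul_self_nonneg _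
  have h1 : ‖a‖ ≤ √(a ⬝ᵥ a) := by
    refine (pi_norm_le_iff_of_nonneg (Real.sqrt_nonneg _)).2 fun i => ?_
    refine Real.le_sqrt_of_sq_le ?_
    rw [Real.norm_eq_abs, sq_abs, sq]
    exact Finset.single_le_sum (f := fun i => a i * a i) (fun i _ => mul_self_nonneg _)
      (Finset.mem_univ i)
  have h2 := pow_le_pow_left₀ (norm_nonneg a) h1 2
  rwa [Real.sq_sqrt h0] at h2

theorem q_der (b : Fin k → ℝ) (ε : ℝ) (x : Fin k → ℝ) :
    HasFDerivAt (fun a => -(b ⬝ᵥ a) + ε * (a ⬝ᵥ a)) (-dp k b + (2 * ε) • dp k x) x := by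
  have h1 := ((dp k).hasFDerivAt (x := x)).clm_apply (hasFDerivAt_id x)
  have h2 := ((dp k b).hasFDerivAt (x := x)).neg.add (h1.const_mul ε)
  have e : (fun a => -(b ⬝ᵥ a) + ε * (a ⬝ᵥ a)) = fun a => -(dp k b a) + ε * dp k a (id a) := by
    funext a
    rw [dp_apply, dp_apply, id]
  rw [e]
  refine h2.congr_fderiv ?_
  ext1 v
  simp only [add_apply, neg_apply, smul_apply, ContinuousLinearMap.comp_apply,
    ContinuousLinearMap.flip_apply, ContinuousLinearMap.id_apply, id, dp_apply, smul_eq_mul]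
  rw [dotProduct_comm v x]
  ring

/-- A minimum exists. -/
theorem ex_min {g : (Fin k → ℝ) → ℝ} (hg : Continuous g) {C ε : ℝ} (hε : 0 < ε)
    (hC : ∀ a, |g a| ≤ C * ‖a‖) (b : Fin k → ℝ) :
    ∃ x, ∀ a, g x - b ⬝ᵥ x + ε * (x ⬝ᵥ x) ≤ g a - b ⬝ᵥ a + ε * (a ⬝ᵥ a) := by
  refine SARD.exists_min (g := fun a => g a - b ⬝ᵥ a + ε * (a ⬝ᵥ a)) (c := 1)
    (C := (C + ‖dp k b‖ + 1) ^ 2 / (4 * ε)) one_pos (by fun_prop) fun a => ?_
  have h1 := (dp k b).le_opNorm a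
  rw [dp_apply, Real.norm_eq_abs] at h1
  have h2 := mul_le_mul_of_nonneg_left (sq_le a) hε.le
  have h3 := neg_abs_le (g a)
  have h4 := le_abs_self (b ⬝ᵥ a)
  have h5 := hC a
  have h6 : (C + ‖dp k b‖ + 1) * ‖a‖ - (C + ‖dp k b‖ + 1) ^ 2 / (4 * ε) ≤ ε * ‖a‖ ^ 2 := by
    rw [sub_le_iff_le_add, ← sub_nonneg]
    have : ε * ‖a‖ ^ 2 + (C + ‖dp k b‖ + 1) ^ 2 / (4 * ε) - (C + ‖dp k b‖ + 1) * ‖a‖ =
        (2 * ε * ‖a‖ - (C + ‖dp k b‖ + 1)) ^ 2 / (4 * ε) := by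
      field_simp
      ring
    rw [this]
    positivity
  nlinarith

variable {W : Type} [NormedAddCommGroup W] [NormedSpace ℝ W]

/-- The partial gradient. -/
def pg (f : (Fin k → ℝ) × W → ℝ) (b : Fin k → ℝ) (ε : ℝ) (u : W × (Fin k → ℝ)) :
    (Fin k → ℝ) →L[ℝ] ℝ :=
  (fderiv ℝ f (u.2, u.1)).comp (ContinuousLinearMap.inl ℝ _ _) + (-dp k b + (2 * ε) • dp k u.2)

theorem pg_apply (f : (Fin k → ℝ) × W → ℝ) (b : Fin k → ℝ) (ε : ℝ) (z : W) (x η : Fin k → ℝ) :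
    pg f b ε (z, x) η = fderiv ℝ f (x, z) (η, 0) - b ⬝ᵥ η + 2 * ε * (x ⬝ᵥ η) := by
  simp only [pg, add_apply, neg_apply, smul_apply, ContinuousLinearMap.comp_apply,
    ContinuousLinearMap.inl_apply, dp_apply, smul_eq_mul]
  ring

theorem part_der {f : (Fin k → ℝ) × W → ℝ} {x : Fin k → ℝ} {z : W}
    (hd : DifferentiableAt ℝ f (x, z)) : HasFDerivAt (fun a => f (a, z))
      ((fderiv ℝ f (x, z)).comp (ContinuousLinearMap.inl ℝ _ _)) x :=
  hd.hasFDerivAt.comp x (hasFDerivAt_prodMk_left x z)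

theorem pg_zero {f : (Fin k → ℝ) × W → ℝ} {b x : Fin k → ℝ} {ε : ℝ} {z : W}
    (hd : DifferentiableAt ℝ f (x, z))
    (h : ∀ a, f (x, z) - b ⬝ᵥ x + ε * (x ⬝ᵥ x) ≤ f (a, z) - b ⬝ᵥ a + ε * (a ⬝ᵥ a)) :
    pg f b ε (z, x) = 0 := by
  have h1 : IsLocalMin (fun a => f (a, z) + (-(b ⬝ᵥ a) + ε * (a ⬝ᵥ a))) x :=
    Eventually.of_forall fun a => by
      have := h a
      dsimp only
      linarith
  exact h1.hasFDerivAt_eq_zero ((part_der hd).add (q_der b ε x))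

theorem strong {f : (Fin k → ℝ) × W → ℝ} {b x : Fin k → ℝ} {ε : ℝ} {z : W}
    (hd : DifferentiableAt ℝ f (x, z)) (hc : ConvexOn ℝ univ fun a => f (a, z))
    (h : pg f b ε (z, x) = 0) (a : Fin k → ℝ) :
    f (x, z) - b ⬝ᵥ x + ε * (x ⬝ᵥ x) + ε * ((a - x) ⬝ᵥ (a - x)) ≤
      f (a, z) - b ⬝ᵥ a + ε * (a ⬝ᵥ a) := by
  have h1 := grad_le hc (part_der hd) (a - x)
  have h2 := pg_apply f b ε z x (a - x)
  rw [h, zero_apply] at h2
  rw [add_sub_cancel, ContinuousLinearMap.comp_apply, ContinuousLinearMap.inl_apply] at h1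
  simp only [dotProduct_sub, sub_dotProduct] at h2 ⊢
  rw [dotProduct_comm a x]
  linarith

theorem pg_smooth {f : (Fin k → ℝ) × W → ℝ} (b : Fin k → ℝ) (ε : ℝ) {x : Fin k → ℝ} {z : W}
    (hs : ContDiffAt ℝ ∞ f (x, z)) : ContDiffAt ℝ ∞ (pg f b ε) (z, x) := by
  have h1 : ContDiffAt ℝ ∞ (fderiv ℝ f) (x, z) := hs.fderiv_right (m := ∞) (by simp)
  have h2 : ContDiffAt ℝ ∞ (fun u : W × (Fin k → ℝ) => fderiv ℝ f (u.2, u.1)) (z, x) :=
    ContDiffAt.comp (g := fderiv ℝ f) (f := fun u : W × (Fin k → ℝ) => (u.2, u.1)) (z, x) h1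
      (contDiffAt_snd.prodMk contDiffAt_fst)
  exact (h2.clm_comp contDiffAt_const).add (contDiffAt_const.add
    (((dp k).contDiff.contDiffAt.comp (z, x) contDiffAt_snd).const_smul (2 * ε)))

/-- The derivative of the partial gradient along a map. -/
theorem pg_der {U : Type} [NormedAddCommGroup U] [NormedSpace ℝ U] {f : (Fin k → ℝ) × W → ℝ}
    (b : Fin k → ℝ) (ε : ℝ) {ξ : U → Fin k → ℝ} {ζ : U → W} {u : U} {L : U →L[ℝ] Fin k → ℝ}
    {N : U →L[ℝ] W} (hs : ContDiffAt ℝ 2 f (ξ u, ζ u)) (hL : HasFDerivAt ξ L u)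
    (hN : HasFDerivAt ζ N u) (η : Fin k → ℝ) (v : U) :
    fderiv ℝ (fun w => pg f b ε (ζ w, ξ w) η) u v =
      fderiv ℝ (fderiv ℝ f) (ξ u, ζ u) (L v, N v) (η, 0) + 2 * ε * (L v ⬝ᵥ η) := by
  have h1 := ((hs.fderiv_right (m := 1) (by norm_num)).differentiableAt (by norm_num)).hasFDerivAt
  have h2 := (ContinuousLinearMap.apply ℝ ℝ ((η, 0) : (Fin k → ℝ) × W)).hasFDerivAt.comp u
    (HasFDerivAt.comp (f := fun w => (ξ w, ζ w)) u h1 (hL.prodMk hN))
  have h3 := ((dp k η).hasFDerivAt.comp u hL).const_mul (2 * ε)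
  have h4 := (h2.sub_const (b ⬝ᵥ η)).add h3
  have e : (fun w => pg f b ε (ζ w, ξ w) η) = fun w =>
      fderiv ℝ f (ξ w, ζ w) (η, 0) - b ⬝ᵥ η + 2 * ε * dp k η (ξ w) := by
    funext w
    rw [pg_apply, dp_apply, dotProduct_comm η]
  rw [e]
  have h5 := congrArg (fun A => A v) h4.fderiv
  refine Eq.trans h5 ?_
  simp only [add_apply, smul_apply, ContinuousLinearMap.comp_apply, ContinuousLinearMap.apply_apply,
    ContinuousLinearMap.prod_apply, dp_apply, smul_eq_mul]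
  rw [dotProduct_comm η]

theorem pg_inv {f : (Fin k → ℝ) × W → ℝ} (b : Fin k → ℝ) {ε : ℝ} (hε : 0 < ε) {x : Fin k → ℝ}
    {z : W} (hs : ∀ a, ContDiffAt ℝ ∞ f (a, z)) (hc : ConvexOn ℝ univ fun a => f (a, z)) :
    (fderiv ℝ (pg f b ε) (z, x) ∘L ContinuousLinearMap.inr ℝ W (Fin k → ℝ)).IsInvertible := by
  set A := fderiv ℝ (pg f b ε) (z, x) ∘L ContinuousLinearMap.inr ℝ W (Fin k → ℝ) with hA
  have h2 : ContDiffAt ℝ 2 f (x, z) := (hs x).of_le two_le
  have h0 : HasFDerivAt (fun a => pg f b ε (z, a)) A x :=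
    ((pg_smooth b ε (hs x)).differentiableAt (by simp)).hasFDerivAt.comp x
      (hasFDerivAt_prodMk_right z x)
  have hinj : Function.Injective A := by
    rw [injective_iff_map_eq_zero]
    intro η hη
    have h1 := pg_der (U := Fin k → ℝ) b ε (ξ := id) (ζ := fun _ => z) (u := x) h2
      (hasFDerivAt_id x) (hasFDerivAt_const z x) η η
    have h3 := congrArg (fun B => B η)
      ((ContinuousLinearMap.apply ℝ ℝ η).hasFDerivAt.comp x h0).fderiv
    have h4 : fderiv ℝ (fun w => pg f b ε (z, w) η) x η = A η η := h3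
    have h5 := sec_nonneg (fun a => (hs a).differentiableAt (by simp)) hc h2 η
    simp only [id, ContinuousLinearMap.id_apply, zero_apply] at h1
    rw [h4, hη, zero_apply] at h1
    have h6 := sq_le η
    have h7 : ‖η‖ ^ 2 ≤ 0 := by nlinarith
    exact norm_eq_zero.1 (pow_eq_zero_iff two_ne_zero |>.1 (le_antisymm h7 (sq_nonneg _)))
  obtain ⟨B, -⟩ := SARD.cf_inv (k := k)
  have hsur : Function.Surjective A :=
    (LinearMap.injective_iff_surjective_of_finrank_eq_finrank (f := A.toLinearMap)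
      B.toLinearEquiv.finrank_eq.symm).1 hinj
  exact ⟨ContinuousLinearEquiv.ofBijective A (LinearMap.ker_eq_bot.2 hinj)
    (LinearMap.range_eq_top.2 hsur), rfl⟩

/-- The minimiser and the minimum are smooth, and the second derivative of the minimum dominates
the joint second derivative along the graph of the minimiser. -/
theorem mini [CompleteSpace W] {f : (Fin k → ℝ) × W → ℝ} {b : Fin k → ℝ} {ε : ℝ} {z₀ : W}
    {P : W → ℝ} {ξ : W → Fin k → ℝ} (hε : 0 < ε) (hs : ∀ a, ContDiffAt ℝ ∞ f (a, z₀))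
    (hc : ∀ᶠ z in 𝓝 z₀, ConvexOn ℝ univ fun a => f (a, z))
    (hle : ∀ᶠ z in 𝓝 z₀, ∀ a, P z ≤ f (a, z) - b ⬝ᵥ a + ε * (a ⬝ᵥ a))
    (heq : ∀ᶠ z in 𝓝 z₀, P z = f (ξ z, z) - b ⬝ᵥ ξ z + ε * (ξ z ⬝ᵥ ξ z)) :
    ContDiffAt ℝ ∞ ξ z₀ ∧ ContDiffAt ℝ ∞ P z₀ ∧
      ∀ v, sd f (ξ z₀, z₀) (fderiv ℝ ξ z₀ v, v) ≤ sd P z₀ v := by
  have h2 : ContDiffAt ℝ 2 f (ξ z₀, z₀) := (hs _).of_le two_le
  have hdf : ∀ᶠ p in 𝓝 (ξ z₀, z₀), DifferentiableAt ℝ f p :=
    (h2.eventually (by simp)).mono fun p hp => hp.differentiableAt (by norm_num)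
  have hmin : ∀ᶠ z in 𝓝 z₀, ∀ a, f (ξ z, z) - b ⬝ᵥ ξ z + ε * (ξ z ⬝ᵥ ξ z) ≤
      f (a, z) - b ⬝ᵥ a + ε * (a ⬝ᵥ a) := by
    filter_upwards [hle, heq] with z h1 h3 a
    exact h3 ▸ h1 a
  have hp0 : pg f b ε (z₀, ξ z₀) = 0 := pg_zero hdf.self_of_nhds hmin.self_of_nhds
  have hps := pg_smooth b ε (hs (ξ z₀))
  have hpi := pg_inv b hε (x := ξ z₀) hs hc.self_of_nhds
  have hn : (∞ : WithTop ℕ∞) ≠ 0 := by simp
  set m := hps.implicitFunction hn hpi with hm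
  have m0 : m z₀ = ξ z₀ := hps.implicitFunction_apply_self hn hpi
  have m1 : ∀ᶠ z in 𝓝 z₀, pg f b ε (z, m z) = 0 := by
    rw [← hp0]
    exact hps.eventually_apply_implicitFunction hn hpi
  have m2 : ContDiffAt ℝ ∞ m z₀ := hps.contDiffAt_implicitFunction hn hpi
  have m3 : ∀ᶠ z in 𝓝 z₀, DifferentiableAt ℝ f (m z, z) := by
    have : Tendsto (fun z => (m z, z)) (𝓝 z₀) (𝓝 (ξ z₀, z₀)) := by
      rw [← m0]
      exact m2.continuousAt.prodMk continuousAt_id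
    exact this.eventually hdf
  have m4 : ξ =ᶠ[𝓝 z₀] m := by
    filter_upwards [m1, m3, hc, hmin] with z a1 a2 a3 a4
    have a5 := strong a2 a3 a1 (ξ z)
    have a6 := a4 (m z)
    have a7 := sq_le (ξ z - m z)
    have a8 : ‖ξ z - m z‖ ^ 2 ≤ 0 := by nlinarith
    exact sub_eq_zero.1 (norm_eq_zero.1
      (pow_eq_zero_iff two_ne_zero |>.1 (le_antisymm a8 (sq_nonneg _))))
  have x2 : ContDiffAt ℝ ∞ ξ z₀ := m2.congr_of_eventuallyEq m4
  have x1 : ∀ᶠ z in 𝓝 z₀, pg f b ε (z, ξ z) = 0 := by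
    filter_upwards [m1, m4] with z a1 a2
    rwa [a2]
  have x3 : ∀ᶠ z in 𝓝 z₀, DifferentiableAt ℝ f (ξ z, z) := by
    filter_upwards [m3, m4] with z a1 a2
    rwa [a2]
  have x4 : ∀ᶠ z in 𝓝 z₀, DifferentiableAt ℝ ξ z :=
    ((x2.of_le (m := 1) (by exact_mod_cast le_top)).eventually (by simp)).mono
      fun p hp => hp.differentiableAt (by norm_num)
  have heq' : ∀ᶠ z in 𝓝 z₀, P z = f (ξ z, z) + (-(b ⬝ᵥ ξ z) + ε * (ξ z ⬝ᵥ ξ z)) :=
    heq.mono fun z hz => by rw [hz]; ring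
  refine ⟨x2, ?_, fun v => ?_⟩
  · have q1 : ContDiff ℝ ∞ fun a : Fin k → ℝ => -(b ⬝ᵥ a) + ε * (a ⬝ᵥ a) := by
      unfold dotProduct
      fun_prop
    exact ((ContDiffAt.comp (g := f) (f := fun z => (ξ z, z)) z₀ (hs _)
      (x2.prodMk contDiffAt_id)).add (q1.contDiffAt.comp z₀ x2)).congr_of_eventuallyEq heq'
  · have y1 : (fun w => fderiv ℝ P w v) =ᶠ[𝓝 z₀] fun w => fderiv ℝ f (ξ w, w) (0, v) := by
      filter_upwards [x1, x3, x4, heq'.eventually_nhds] with w a1 a2 a3 a4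
      have a5 := (HasFDerivAt.comp (f := fun z => (ξ z, z)) w a2.hasFDerivAt
        (a3.hasFDerivAt.prodMk (hasFDerivAt_id w))).add ((q_der b ε (ξ w)).comp w a3.hasFDerivAt)
      have a6 := congrArg (fun A => A v) (a5.congr_of_eventuallyEq a4).fderiv
      have a7 := pg_apply f b ε w (ξ w) (fderiv ℝ ξ w v)
      rw [a1, zero_apply] at a7
      have a8 : ((fderiv ℝ ξ w v, v) : (Fin k → ℝ) × W) = (fderiv ℝ ξ w v, 0) + (0, v) := by simp
      refine a6.trans ?_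
      simp only [add_apply, neg_apply, smul_apply, ContinuousLinearMap.comp_apply,
        ContinuousLinearMap.prod_apply, ContinuousLinearMap.id_apply, dp_apply, smul_eq_mul]
      rw [a8, map_add]
      linarith
    have y2 := pg_der (U := W) b ε (ξ := ξ) (ζ := id) (u := z₀) h2
      x4.self_of_nhds.hasFDerivAt (hasFDerivAt_id z₀) (fderiv ℝ ξ z₀ v) v
    have y3 : (fun w => pg f b ε (id w, ξ w) (fderiv ℝ ξ z₀ v)) =ᶠ[𝓝 z₀] fun _ => 0 := by
      filter_upwards [x1] with w a1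
      rw [id, a1, zero_apply]
    rw [y3.fderiv_eq] at y2
    have h1 := ((h2.fderiv_right (m := 1) (by norm_num)).differentiableAt (by norm_num)).hasFDerivAt
    have y4 := (ContinuousLinearMap.apply ℝ ℝ ((0, v) : (Fin k → ℝ) × W)).hasFDerivAt.comp z₀
      (HasFDerivAt.comp (f := fun w => (ξ w, w)) z₀ h1
        (x4.self_of_nhds.hasFDerivAt.prodMk (hasFDerivAt_id z₀)))
    have y5 : sd P z₀ v = fderiv ℝ (fderiv ℝ f) (ξ z₀, z₀) (fderiv ℝ ξ z₀ v, v) (0, v) := by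
      unfold sd
      rw [y1.fderiv_eq]
      exact congrArg (fun A => A v) y4.fderiv
    have a8 : ((fderiv ℝ ξ z₀ v, v) : (Fin k → ℝ) × W) = (fderiv ℝ ξ z₀ v, 0) + (0, v) := by simp
    have y6 := (fderiv ℝ (fderiv ℝ f) (ξ z₀, z₀) (fderiv ℝ ξ z₀ v, v)).map_add
      (fderiv ℝ ξ z₀ v, 0) (0, v)
    rw [← a8] at y6
    have y7 := (sq_nonneg _).trans (sq_le (fderiv ℝ ξ z₀ v))
    simp only [fderiv_fun_const, Pi.zero_apply, zero_apply, id, ContinuousLinearMap.id_apply] at y2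
    rw [sd_eq h2, y5, y6]
    nlinarith

end Pool.Agent.Lib.RA.MINI
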