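import Pool.Agent.Lib.RA.Blue0
import Pool.Agent.Lib.RA.T_MINI
import Pool.Agent.Lib.HS32.MAll

/-! Project ra1: the regularised minimum. -/

open scoped Classical Topology ContDiff ComplexOrder Matrix
open Set MeasureTheory Complex Metric Filter

set_option linter.unusedVariables false

noncomputable section

namespace Pool.Agent.Lib.RA

open Pool.Agent.Lib.SV (E nsq)
open Pool.Agent.Lib.HS32

namespace MINI

variable {n k : ℕ}

/-- Twice the real part in the first factor. -/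
def rA (k n : ℕ) : (E k × E n) →L[ℝ] ((Fin k → ℝ) × E n) :=
  ((ContinuousLinearMap.pi fun i => (2 : ℝ) • (reCLM.comp (ContinuousLinearMap.proj i))).comp
    (ContinuousLinearMap.fst ℝ (E k) (E n))).prod (ContinuousLinearMap.snd ℝ (E k) (E n))

theorem rA_apply (w : E k × E n) : rA k n w = (r2 w.1, w.2) := rfl

theorem lev_eq {V : Type} [NormedAddCommGroup V] [NormedSpace ℝ V] [NormedSpace ℂ V] (f : V → ℝ)
    (z v : V) : lev f z v = (sd f z v + sd f z (I • v)) / 4 := rfl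

theorem lev_joint {f : (Fin k → ℝ) × E n → ℝ} {P : E n → ℝ} {x : Fin k → ℝ} {z : E n}
    {L : E n →L[ℝ] Fin k → ℝ} (hf : ContDiffAt ℝ 2 f (x, z))
    (h : ∀ v, sd f (x, z) (L v, v) ≤ sd P z v) (v : E n) :
    ∃ ζ : E k, lev (fun w : E k × E n => f (x + r2 w.1, w.2)) (0, z) (ζ, v) ≤ lev P z v := by
  set ζ : E k := fun i => ⟨L v i / 2, -(L (I • v) i / 2)⟩ with hζ
  refine ⟨ζ, ?_⟩
  have e0 : ((x, 0) : (Fin k → ℝ) × E n) + rA k n (0, z) = (x, z) := by
    rw [rA_apply]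
    ext i <;> simp [r2]
  have e1 : (fun w : E k × E n => f (x + r2 w.1, w.2)) = fun w => f ((x, 0) + rA k n w) := by
    funext w
    rw [rA_apply, Prod.mk_add_mk, zero_add]
  have e2 : rA k n (ζ, v) = (L v, v) := by
    rw [rA_apply]
    ext i
    · simp only [r2, hζ]
      ring
    · rfl
  have e3 : rA k n (I • (ζ, v)) = (L (I • v), I • v) := by
    rw [rA_apply]
    ext i
    · simp only [r2, hζ, Prod.smul_fst, Pi.smul_apply, smul_eq_mul, mul_re, I_re, I_im]
      ring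
    · rfl
  have hf' : ContDiffAt ℝ 2 f ((x, 0) + rA k n (0, z)) := by rwa [e0]
  rw [lev_eq, lev_eq, e1, sd_aff _ _ hf', sd_aff _ _ hf', e0, e2, e3]
  linarith [h v, h (I • v)]

theorem psd_of {A : Mat n} (hA : A.IsHermitian) (h : ∀ v, 0 ≤ nq A v) : A.PosSemidef :=
  Matrix.PosSemidef.of_dotProduct_mulVec_nonneg hA fun v =>
    Complex.nonneg_iff.2 ⟨h v, (hA.im_star_dotProduct_mulVec_self v).symm⟩

end MINI

open MINI in
theorem st_MIN (hL : St_LEV) : St_MIN := by
  intro n k j M φ r μ V ρ b ε hp hf hε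
  obtain ⟨C, -, hC⟩ := hf.lin
  have h1 : ∀ x, ∃ ξ, ∀ a, ρ ξ x - b ⬝ᵥ ξ + ε * (ξ ⬝ᵥ ξ) ≤ ρ a x - b ⬝ᵥ a + ε * (a ⬝ᵥ a) :=
    fun x => ex_min (g := fun a => ρ a x)
      (continuousOn_univ.1 ((hf.cvx x).continuousOn isOpen_univ)) hε (fun a => hC a x) b
  choose ξ hξ using h1
  set P : M.X → ℝ := fun x => ρ (ξ x) x - b ⬝ᵥ ξ x + ε * (ξ x ⬝ᵥ ξ x) with hP
  have key : ∀ x, At M x fun e z => ContDiffAt ℝ ∞ (P ∘ e.symm) z ∧ ∀ v, ∃ ζ : E k,
      lev (fun w : E k × E n => φ e w.2 + ρ (ξ x + r2 w.1) (e.symm w.2)) (0, z) (ζ, v) ≤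
        nq (M.hw φ e z + M.hs P e z) v := by
    intro x e he hx
    have hφ : ContDiffAt ℝ ∞ (φ e) (e x) := hp.wt.sm e he _ (e.map_source hx)
    have hs : ∀ a, ContDiffAt ℝ ∞
        (fun w : (Fin k → ℝ) × E n => φ e w.2 + ρ w.1 (e.symm w.2)) (a, e x) := fun a =>
      (ContDiffAt.comp (g := φ e) (f := Prod.snd) (a, e x) hφ contDiffAt_snd).add
        (hf.ja a x e he hx).contDiffAt
    obtain ⟨-, h3, h4⟩ := mini (b := b) (P := fun z => φ e z + P (e.symm z))
      (ξ := fun z => ξ (e.symm z)) hε hs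
      (Eventually.of_forall fun z => (convexOn_const (φ e z) convex_univ).add (hf.cvx (e.symm z)))
      (Eventually.of_forall fun z a => by
        have := hξ (e.symm z) a
        simp only [hP]
        linarith)
      (Eventually.of_forall fun z => by
        simp only [hP]
        ring)
    have h5 : ContDiffAt ℝ ∞ (P ∘ e.symm) (e x) := by
      have := h3.sub hφ
      simp only [add_sub_cancel_left] at this
      exact this
    refine ⟨h5, fun v => ?_⟩
    simp only [e.left_inv hx] at h4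
    obtain ⟨ζ, h6⟩ := lev_joint ((hs (ξ x)).of_le two_le) h4 v
    refine ⟨ζ, h6.trans_eq ?_⟩
    have h7 := ((hL.2 (E n) (φ e) (e x) hφ).1 (P ∘ e.symm) v h5).1
    rw [hL.1 n _ _ v hφ, hL.1 n _ _ v h5] at h7
    refine h7.trans ?_
    show nq (M.hw φ e (e x)) v + nq (M.hs P e (e x)) v = _
    simp only [nq, Matrix.add_mulVec, dotProduct_add, add_re]
  have hsm : M.Sm P := Mf.allOn_of_source fun e he x hx => (key x e he hx).1
  refine ⟨P, ξ, hsm, fun x a => hξ x a, fun x => rfl, ?_, fun x e he hx => (key x e he hx).2⟩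
  refine Mf.allOn_of_source fun e he x hx => ?_
  have h8 := ((mHES n M).2.2.2.1 1 φ hp.wt).herm e he _ (e.map_source hx)
  have h9 := ((mHES n M).1 P hsm).herm e he _ (e.map_source hx)
  show (M.hw φ e (e x) + M.hs P e (e x) - 0).PosSemidef
  rw [sub_zero]
  refine psd_of (h8.add h9) fun v => ?_
  obtain ⟨ζ, h⟩ := (key x e he hx).2 v
  exact (hf.jp (ξ x) x e he hx (ζ, v)).trans h

end Pool.Agent.Lib.RA
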