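import Pool.Agent.Lib.RA.Top

/-! Project ra1: the tools that several steps share. -/

open scoped Classical Topology ContDiff ComplexOrder Matrix
open Set MeasureTheory Complex Metric Filter

set_option linter.unusedVariables false

noncomputable section

namespace Pool.Agent.Lib.RA

open Pool.Agent.Lib.SV (E nsq)
open Pool.Agent.Lib.HS32 Pool.Agent.Lib.PN

/-! ### Coordinates -/

/-- Calculus of polarisations. -/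
def St_PZ : Prop := ∀ (n : ℕ) (Φ : E n × E n → ℂ) (c : E n) (R : ℝ),
  DifferentiableOn ℂ Φ (ball (dg c) R) →
  (DifferentiableOn ℂ (pz Φ) (ball (dg c) R) ∧ DifferentiableOn ℂ (pu Φ) (ball (dg c) R) ∧
    (∀ i l, DifferentiableOn ℂ (fun w => Gm Φ w i l) (ball (dg c) R)) ∧
    (∀ w ∈ ball (dg c) R, ∀ v v' : E n, fderiv ℂ Φ w (v, v') = pz Φ w ⬝ᵥ v + pu Φ w ⬝ᵥ v' ∧
      fderiv ℂ (pu Φ) w (v, 0) = Gm Φ w *ᵥ v ∧ fderiv ℂ (pz Φ) w (0, v) = v ᵥ* Gm Φ w ∧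
      (∀ i l, pu (fun w' => pu Φ w' l) w i = pu (fun w' => pu Φ w' i) w l ∧
        pz (fun w' => pz Φ w' l) w i = pz (fun w' => pz Φ w' i) w l)) ∧
    ∀ z ∈ ball c R, AnalyticAt ℝ (Φ ∘ dg) z ∧ hess (Φ ∘ dg) z = Gm Φ (dg z) ∧
      ∀ i, dz i (Φ ∘ dg) z = pz Φ (dg z) i ∧ dzb i (Φ ∘ dg) z = pu Φ (dg z) i) ∧
  (∀ f, Plz f Φ c R → ∀ z ∈ ball c R, AnalyticAt ℝ f z ∧ hr f z = Gm Φ (dg z) ∧
    dv1 f z = pz Φ (dg z) ∧ dbv f z = pu Φ (dg z)) ∧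
  ((∀ z ∈ ball c R, (Φ (dg z)).im = 0) → Plz (pt Φ) Φ c R ∧ ∀ w ∈ ball (dg c) R,
    Φ (star w.2, star w.1) = star (Φ w) ∧ pz Φ (star w.2, star w.1) = star (pu Φ w) ∧
    Gm Φ (star w.2, star w.1) = (Gm Φ w)ᴴ) ∧
  ∀ r, ∀ z ∈ ball c R, (∀ᶠ z' in 𝓝 z, (Gm Φ (dg z')).rank ≤ r) →
    ∀ w ∈ ball (dg c) R, (Gm Φ w).rank ≤ r

/-- Chain rule for holomorphic maps between different dimensions. -/
def St_CH2 : Prop := ∀ (n r : ℕ) (H : E n → E r) (z : E n), HolN H z →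
  (∀ v, fderiv ℂ H z v = jr H z *ᵥ v) ∧ (∀ i l, HolN (fun w => jr H w i l) z) ∧
  (Function.Surjective (fderiv ℂ H z) ↔ (jr H z).rank = r) ∧
  (∀ P : Mat r, SmM (fun w => (jr H w)ᴴ * P * jr H w) z ∧ ClM (fun w => (jr H w)ᴴ * P * jr H w) z) ∧
  (∀ (m : ℕ) (K : E r → E m), HolN K (H z) → jr (K ∘ H) z = jr K (H z) * jr H z) ∧
  (∀ f : E r → ℂ, DifferentiableAt ℝ f (H z) → ∀ l,
    dz l (f ∘ H) z = ∑ a, dz a f (H z) * jr H z a l ∧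
    dzb l (f ∘ H) z = ∑ a, dzb a f (H z) * star (jr H z a l)) ∧
  ∀ f : E r → ℂ, ContDiffAt ℝ ∞ f (H z) → ContDiffAt ℝ ∞ (f ∘ H) z ∧
    hess (f ∘ H) z = (jr H z)ᴴ * hess f (H z) * jr H z

/-- The Levi form. -/
def St_LEV : Prop :=
  (∀ (n : ℕ) (f : E n → ℝ) (z v : E n), ContDiffAt ℝ ∞ f z → lev f z v = nq (hr f z) v) ∧
  ∀ (V : Type) [NormedAddCommGroup V] [NormedSpace ℝ V] [NormedSpace ℂ V] [IsScalarTower ℝ ℂ V]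
    [FiniteDimensional ℂ V] (f : V → ℝ) (z : V), ContDiffAt ℝ ∞ f z →
    (∀ g v, ContDiffAt ℝ ∞ g z → lev (fun w => f w + g w) z v = lev f z v + lev g z v ∧
      lev (fun w => f w - g w) z v = lev f z v - lev g z v) ∧
    (∀ v, ContinuousAt (fun w => lev f w v) z) ∧ (IsLocalMin f z → ∀ v, 0 ≤ lev f z v) ∧
    ∀ (W : Type) [NormedAddCommGroup W] [NormedSpace ℝ W] [NormedSpace ℂ W] [IsScalarTower ℝ ℂ W]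
      [FiniteDimensional ℂ W] (ψ : W → V) (y v : W), (∀ᶠ w in 𝓝 y, DifferentiableAt ℂ ψ w) →
      ψ y = z → ContDiffAt ℝ ∞ (f ∘ ψ) y ∧ lev (f ∘ ψ) y v = lev f z (fderiv ℂ ψ y v)

/-- Calculus on the tube. -/
def St_TV : Prop := ∀ (k j : ℕ) (Φ : E (k + j) × E (k + j) → ℂ) (δ c : ℝ), Tv k j Φ δ c →
  (∀ (t : E (k + j)) a, pj (t + I • io j a) = pj t) ∧ (∀ t : E (k + j), ‖pj t‖ ≤ ‖t‖) ∧
  (∀ t : E (k + j), ∃ a, t = pj t + I • io j a) ∧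
  (∀ t ∈ ball (0 : E (k + j)) (2 * δ), ph0 Φ t = pt Φ t ∧ Gm Φ (dg t) = Gm Φ (dg (pj t)) ∧
    fx (pz Φ (dg t)) = cx (mu0 Φ t)) ∧
  (∀ t : E (k + j), ‖pj t‖ < 2 * δ → AnalyticAt ℝ (ph0 Φ) t ∧ AnalyticAt ℝ (mu0 Φ) t ∧
    hr (ph0 Φ) t = Gm Φ (dg (pj t)) ∧ fx (dv1 (ph0 Φ) t) = cx (mu0 Φ t) ∧
    (∀ i, dbv (fun w => mu0 Φ w i) t = hr (ph0 Φ) t *ᵥ Pi.single (Fin.castAdd j i) 1) ∧
    ∀ a b : Fin k → ℝ, ‖pj (sh t a)‖ < 2 * δ →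
      fderiv ℝ (fun a' => ph0 Φ (sh t a')) a b = mu0 Φ (sh t a) ⬝ᵥ b) ∧
  ∀ (t₁ : E (k + j)) (ε : ℝ), pj t₁ = t₁ → ‖t₁‖ < δ → 0 < ε → ∃ δ₁, 0 < δ₁ ∧ δ₁ ≤ ε ∧
    ‖t₁‖ + 2 * δ₁ ≤ δ ∧ Tv k j (fun w => Φ (w + dg t₁)) δ₁ (c / 2) ∧
    (∀ t, ph0 (fun w => Φ (w + dg t₁)) t = ph0 Φ (t + t₁) ∧
      mu0 (fun w => Φ (w + dg t₁)) t = mu0 Φ (t + t₁)) ∧
    ∀ N, Fin0 Φ δ N → Fin0 (fun w => Φ (w + dg t₁)) δ₁ N

/-- A strictly plurisubharmonic analytic germ gives a small piece. -/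
def St_TVE : Prop := ∀ (r : ℕ) (Φ : E r × E r → ℂ) (R : ℝ), 0 < R →
  DifferentiableOn ℂ Φ (ball 0 R) → (∀ t ∈ ball (0 : E r) R, (Φ (dg t)).im = 0) →
  (Gm Φ 0).PosDef → ∃ c, ∀ᶠ δ in 𝓝[>] (0 : ℝ), Tv0 Φ δ c

/-- Extension of isometric germs to balls of uniform size. -/
def St_EXT : Prop := ∀ (n r : ℕ) (Φ : E r × E r → ℂ) (δ c L d : ℝ), Tv0 Φ δ c → 0 < L → 0 < d →
  ∃ r₀, 0 < r₀ ∧ ∀ (f : E n → ℝ) (F : E n × E n → ℂ) (a : E n) (R : ℝ) (H : E n → E r) (x : E n)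
    (s : ℝ), Plz f F a R → (∀ z ∈ ball a R, ∀ v, nq (hr f z) v ≤ L * ‖v‖ ^ 2) → 0 < s → s ≤ r₀ →
    ball x s ⊆ ball a R → HolN H x → ‖H x‖ + 2 * d ≤ 2 * δ →
    (∀ᶠ z in 𝓝 x, hr (pt Φ ∘ H) z = hr f z) → (∃ᶠ z in 𝓝 x, (hr f z).rank = r) →
    ∃ H', DifferentiableOn ℂ H' (ball x s) ∧ H' =ᶠ[𝓝 x] H ∧
      ∀ z ∈ ball x s, ‖H' z - H x‖ ≤ d ∧ hr (pt Φ ∘ H') z = hr f z

/-! ### Manifolds -/

/-- The set of points of maximal rank. -/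
def St_X0 : Prop := ∀ (n : ℕ) (M : Mf n) (φ : M.Fam ℝ) (r : ℕ), M.Wt 1 φ →
  (M.All fun e z => AnalyticAt ℝ (φ e) z) → (M.All fun e z => (M.hw φ e z).rank ≤ r) →
  IsOpen (X0 M (M.hw φ) r) ∧
  (M.All fun e z => e.symm z ∈ X0 M (M.hw φ) r ↔ (M.hw φ e z).rank = r) ∧
  (M.Cpt → (X0 M (M.hw φ) r).Nonempty → Dense (X0 M (M.hw φ) r) ∧
    ∀ G, M.Met G → M.mu G (X0 M (M.hw φ) r)ᶜ = 0)

/-- The rank bound propagates. -/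
def St_RKP : Prop := ∀ (n : ℕ) (M : Mf n) [M.Cpt] (φ : M.Fam ℝ) (r : ℕ) (x : M.X), M.Wt 1 φ →
  (M.All fun e z => AnalyticAt ℝ (φ e) z) →
  (∀ᶠ y in 𝓝 x, At M y fun e z => (M.hw φ e z).rank ≤ r) →
  M.All fun e z => (M.hw φ e z).rank ≤ r

/-- Polar coverings. -/
def St_PCOV : Prop := ∀ (n : ℕ) (M : Mf n) [M.Cpt] (φ : M.Fam ℝ) (O : M.X → Set M.X),
  (M.All fun e z => AnalyticAt ℝ (φ e) z) → (∀ x, O x ∈ 𝓝 x) →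
  ∃ V : M.Cov, PCov M φ V ∧ ∀ a, ∃ x, (V.e a).symm '' closedBall (V.c a) (4 * V.ρ a) ⊆ O x

/-- The top coefficients on the manifold. -/
def St_TOP : Prop := ∀ (n r j : ℕ) (M : Mf n) (G : M.Fam (Mat n)) (O : Set M.X), M.Kae G →
  IsOpen O →
  (∀ β, TenOn M O β → (∀ x ∈ O, At M x fun e z => (β e z).IsHermitian ∧ ClM (β e) z) →
    DenOn M O (tA M j G β) ∧ DenOn M O (fun e z => (β e z).adjugate) ∧
    ∀ x ∈ O, SmAt M (tD M j G β) x ∧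
      At M x fun e z => tD M j G β x = RA28.topA j (G e z) (β e z)) ∧
  (∀ (H : M.X → E r) (P : Mat r), (∀ x ∈ O, HolAt M H x) → P.PosSemidef →
    TenOn M O (pb M H P) ∧ ∀ x ∈ O, At M x fun e z => (pb M H P e z).PosSemidef ∧
      ClM (pb M H P e) z ∧ (pb M H P e z).rank ≤ P.rank) ∧
  (∀ g : M.X → ℝ, (∀ x ∈ O, SmAt M g x) → TenOn M O (M.hs g) ∧
    ∀ g', (∀ x ∈ O, SmAt M g' x) → TenOn M O (M.ds g g')) ∧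
  ∀ A T, DenOn M O A → TenOn M O T → ∀ x ∈ O, SmAt M (pa M G A T) x ∧
    At M x fun e z => pa M G A T x = ((A e z * T e z).trace / (G e z).det).re

/-- The formula of Green on an open set. -/
def St_GIBP : Prop := ∀ (n : ℕ) (M : Mf n) [M.Cpt] (G A : M.Fam (Mat n)) (O : Set M.X), M.Met G →
  IsOpen O → DenOn M O A →
  (∀ u w : M.X → ℂ, (∀ x ∈ O, SmAt M u x ∧ SmAt M w x) →
    (∀ x ∈ O, ContinuousAt (grn M G A u w) x ∧ At M x fun e z => grn M G A u w x =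
      (A e z * (dd (u ∘ e.symm) (w ∘ e.symm) z + w x • hess (u ∘ e.symm) z)).trace / (G e z).det) ∧
    (tsupport w ⊆ O → Integrable (grn M G A u w) (M.mu G) ∧ ∫ x, grn M G A u w x ∂M.mu G = 0)) ∧
  ∀ u w : M.X → ℝ, (∀ x ∈ O, SmAt M u x ∧ SmAt M w x) →
    (∀ x ∈ O, (grn M G A (fun y => u y) (fun y => w y) x).re =
      pa M G A (M.ds u w) x + w x * pa M G A (M.hs u) x ∧
      pa M G A (M.ds u w) x = pa M G A (M.ds w u) x ∧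
      ((At M x fun e z => (A e z).PosSemidef) → 0 ≤ pa M G A (M.ds u u) x ∧
        pa M G A (M.ds u w) x ^ 2 ≤ pa M G A (M.ds u u) x * pa M G A (M.ds w w) x)) ∧
    (tsupport w ⊆ O → Integrable (fun x => w x * pa M G A (M.hs u) x) (M.mu G) ∧
      Integrable (pa M G A (M.ds u w)) (M.mu G) ∧
      Integrable (fun x => u x * pa M G A (M.hs w) x) (M.mu G) ∧
      ∫ x, w x * pa M G A (M.hs u) x ∂M.mu G = -∫ x, pa M G A (M.ds u w) x ∂M.mu G ∧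
      ∫ x, w x * pa M G A (M.hs u) x ∂M.mu G = ∫ x, u x * pa M G A (M.hs w) x ∂M.mu G)

/-- The formula of Green on branches. -/
def St_BR : Prop := ∀ (n k j m N : ℕ) (M : Mf n) [M.Cpt] (G : M.Fam (Mat n))
  (Q : (M.X → E (k + j)) → M.X → Prop) (K K' : Set (E (k + j))) (O : Fin m → Set M.X)
  (H : Fin m → M.X → E (k + j)) (χ : Fin m → M.X → ℝ) (A : Fin m → M.Fam (Mat n))
  (u w : Fin m → M.X → ℂ), M.Met G → Atl M Q K K' N O H χ → (∀ i, DenOn M (O i) (A i)) →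
  (∀ i, ∀ x ∈ O i, SmAt M (u i) x ∧ SmAt M (w i) x ∧ (w i x ≠ 0 → H i x ∈ K)) →
  (∀ i i' x, x ∈ O i → x ∈ O i' → Tr (H i) (H i') x → EqAt M (A i) (A i') x ∧ w i x = w i' x ∧
    ∃ b : ℂ, ∀ᶠ y in 𝓝 x, u i' y = u i y + b) →
  (∀ i, Integrable (fun x => (χ i x : ℂ) * grn M G (A i) (u i) (w i) x) (M.mu G)) ∧
    ∑ i, ∫ x, (χ i x : ℂ) * grn M G (A i) (u i) (w i) x ∂M.mu G = 0

/-- The abstract atlas. -/
def St_ATL0 : Prop := ∀ (n k j N : ℕ) (M : Mf n) [M.Cpt] (Q : (M.X → E (k + j)) → M.X → Prop)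
  (K K' : Set (E (k + j))) (D : Set M.X), Dense D → (∀ H x, Q H x → HolAt M H x) →
  (∀ x, ∃ O ∈ 𝓝 x, IsOpen O ∧ IsPreconnected O ∧ ∀ y ∈ O, ∀ H, Q H y → H y ∈ K →
    ∃ H', H' =ᶠ[𝓝 y] H ∧ ∀ y' ∈ O, Q H' y' ∧ H' y' ∈ K') →
  (∀ y ∈ D, ∀ H : Fin (N + 1) → M.X → E (k + j), (∀ i, Q (H i) y ∧ H i y ∈ K') →
    ∃ i i', i ≠ i' ∧ Tr (H i) (H i') y) →
  ∃ (m : ℕ) (O : Fin m → Set M.X) (H : Fin m → M.X → E (k + j)) (χ : Fin m → M.X → ℝ),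
    Atl M Q K K' N O H χ

/-- The atlas of a class of weakly admissible germs. -/
def St_ATL : Prop := ∀ (n k j N : ℕ) (M : Mf n) [M.Cpt] (φ : M.Fam ℝ) (μ : Fin k → M.X → ℝ)
  (Φ : E (k + j) × E (k + j) → ℂ) (δ c : ℝ) (Q : (M.X → E (k + j)) → M.X → Prop),
  Pot M φ (k + j) → Tv k j Φ δ c → Fin0 Φ δ N → Prd M φ μ Φ δ Q →
  ∃ (m : ℕ) (O : Fin m → Set M.X) (H : Fin m → M.X → E (k + j)) (χ : Fin m → M.X → ℝ),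
    Atl M Q {t | ‖pj t‖ ≤ δ / 2} {t | ‖pj t‖ ≤ δ} N O H χ

/-- Weakly admissible germs: propagation, submersion, multiplicity. -/
def St_WAD : Prop := ∀ (n k j : ℕ) (M : Mf n) (φ : M.Fam ℝ) (μ : Fin k → M.X → ℝ)
  (Φ : E (k + j) × E (k + j) → ℂ) (δ c : ℝ), M.Wt 1 φ → (M.All fun e z => AnalyticAt ℝ (φ e) z) →
  Tv k j Φ δ c →
  ((∀ i x, AnAt M (μ i) x) → Prd M φ μ Φ δ (WAdm M (M.hw φ) μ Φ δ)) ∧
  (∀ H x, Iso M (M.hw φ) (ph0 Φ) H x → ‖pj (H x)‖ < 2 * δ →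
    (Subm M H x ↔ x ∈ X0 M (M.hw φ) (k + j)) ∧
    (∀ᶠ y in 𝓝 x, At M y fun e z => (M.hw φ e z).rank ≤ k + j) ∧
    At M x fun e z => M.hw φ e z = pb M H (hr (ph0 Φ) (H x)) e z ∧
      (M.hw φ e z - (c : ℂ) • pb M H 1 e z).PosSemidef ∧
      ∀ v, M.hw φ e z *ᵥ v = 0 ↔ fderiv ℂ (H ∘ e.symm) z v = 0) ∧
  ∀ N, Fin0 Φ δ N → ∀ y ∈ X0 M (M.hw φ) (k + j), ∀ H : Fin (N + 1) → M.X → E (k + j),
    (∀ i, WAdm M (M.hw φ) μ Φ δ (H i) y ∧ ‖pj (H i y)‖ ≤ δ) → ∃ i i', i ≠ i' ∧ Tr (H i) (H i') y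

/-- Calculus of thin sets and meromorphic functions. -/
def St_MER : Prop := ∀ (n : ℕ) (M : Mf n),
  (∀ O δ O' δ', Dv M O δ → Dv M O' δ' → Dv M (O ∩ O') fun y => δ y * δ' y) ∧
  (Cothin M univ ∧ ∀ W, Cothin M W → Dense W ∧ (∀ W', Cothin M W' → Cothin M (W ∩ W')) ∧
    (∀ e ∈ M.C, ∀ c R, ball c R ⊆ e.target → IsPreconnected (ball c R ∩ e.symm ⁻¹' W)) ∧
    (∀ f : M.X → ℂ, (∀ x ∈ W, HolAt M f x) → Tame M W f → Mer M f) ∧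
    (∀ f, Mer M f → Tame M W f) ∧
    (∀ f, Mer M f → (∀ x ∈ W, HolAt M f x) → (M.Cpt → (∃ x ∈ W, f x ≠ 0) →
      Cothin M {x | x ∈ W ∧ f x ≠ 0} ∧ Tame M {x | x ∈ W ∧ f x ≠ 0} (fun x => (f x)⁻¹) ∧
      LogT M {x | x ∈ W ∧ f x ≠ 0} fun x => Real.log (normSq (f x)))) ∧
    ∀ (f : M.X → ℂ) (x : M.X) (C : ℝ), (∀ᶠ y in 𝓝 x, y ∈ W → HolAt M f y ∧ ‖f y‖ ≤ C) →
      ∃ f', HolAt M f' x ∧ ∀ᶠ y in 𝓝 x, y ∈ W → f' y = f y) ∧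
  (∀ f, (∀ x, HolAt M f x) → Mer M f) ∧
  (∀ f g, Mer M f → Mer M g → Mer M (fun x => f x + g x) ∧ Mer M (fun x => f x * g x) ∧
    Mer M fun x => -f x) ∧
  (∀ f, Mer M f → ∃ W, Cothin M W ∧ ∀ x ∈ W, HolAt M f x) ∧
  (∀ (ι : Type) [Fintype ι] (f : M.X → ι → ℂ) (i₀ : ι), M.Cpt → PMap M f → (∃ x, f x i₀ ≠ 0) →
    Cothin M {x | f x i₀ ≠ 0} ∧ (∀ l, Mer M fun x => af f i₀ x l) ∧
    ∀ x, f x i₀ ≠ 0 → HolAt M (af f i₀) x) ∧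
  (∀ W W' g g' (a : ℝ), LogT M W g → LogT M W' g' → LogT M (W ∩ W') (fun x => g x + g' x) ∧
    LogT M W fun x => a * g x) ∧
  ∀ W (g : M.X → ℝ) (F : Type) [NormedAddCommGroup F] (f : M.X → F) (C : ℝ), Tame M W f →
    (∀ x ∈ W, |g x| ≤ C * (1 + Real.log (1 + ‖f x‖))) → LogT M W g

end Pool.Agent.Lib.RA
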