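import Pool.Agent.Lib.RA.Blue0
import Pool.Agent.Lib.HS32.MAll

/-! Project ra1: the abstract atlas of branches. -/

open scoped Classical Topology ContDiff ComplexOrder Matrix
open Set MeasureTheory Complex Metric Filter

set_option linter.unusedVariables false

noncomputable section

namespace Pool.Agent.Lib.RA

open Pool.Agent.Lib.SV (E nsq)
open Pool.Agent.Lib.HS32

namespace BATL0

section tr

variable {k j : ℕ} {X : Type} [TopologicalSpace X] {H H' H'' : X → E (k + j)} {x : X}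

theorem io_add (a b : Fin k → ℝ) : io j (a + b) = io j a + io j b := by
  funext i
  induction i using Fin.addCases with
  | left i => simp [io, cx]
  | right i => simp [io]

theorem io_zero : io j (0 : Fin k → ℝ) = 0 := by
  funext i
  induction i using Fin.addCases with
  | left i => simp [io, cx]
  | right i => simp [io]

theorem io_neg (a : Fin k → ℝ) : io j (-a) = -io j a := by
  funext i
  induction i using Fin.addCases with
  | left i => simp [io, cx]
  | right i => simp [io]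

theorem tr_refl (H : X → E (k + j)) (x : X) : Tr H H x :=
  ⟨0, .of_forall fun y => by rw [io_zero, smul_zero, add_zero]⟩

theorem tr_symm (h : Tr H H' x) : Tr H' H x := by
  obtain ⟨a, h⟩ := h
  exact ⟨-a, h.mono fun y hy => by rw [hy, io_neg, smul_neg, add_neg_cancel_right]⟩

theorem tr_trans (h : Tr H H' x) (h' : Tr H' H'' x) : Tr H H'' x := by
  obtain ⟨a, h⟩ := h
  obtain ⟨b, h'⟩ := h'
  refine ⟨a + b, ?_⟩
  filter_upwards [h, h'] with y hy hy'
  rw [hy', hy, io_add, smul_add, add_assoc]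

theorem tr_of_eq (h : H' =ᶠ[𝓝 x] H) : Tr H H' x :=
  ⟨0, h.mono fun y hy => by rw [io_zero, smul_zero, add_zero, hy]⟩

/-- A maximal family of inequivalent branches on `O`. -/
theorem fam (Q : (X → E (k + j)) → X → Prop) (K K' : Set (E (k + j))) (O : Set X) (N : ℕ)
    (hE : ∀ y ∈ O, ∀ G, Q G y → G y ∈ K → ∃ G', G' =ᶠ[𝓝 y] G ∧ ∀ z ∈ O, Q G' z ∧ G' z ∈ K')
    (hP : ∀ G G', (∀ z ∈ O, Q G z) → (∀ z ∈ O, Q G' z) → ∀ y ∈ O, ∀ y' ∈ O,
      Tr G G' y → Tr G G' y') (y0 : X) (hy0 : y0 ∈ O)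
    (hF : ∀ G : Fin (N + 1) → X → E (k + j), (∀ i, Q (G i) y0 ∧ G i y0 ∈ K') →
      ∃ i i', i ≠ i' ∧ Tr (G i) (G i') y0) :
    ∃ (m : ℕ) (H : Fin m → X → E (k + j)), m ≤ N ∧ (∀ i, ∀ z ∈ O, Q (H i) z ∧ H i z ∈ K') ∧
      ∀ y ∈ O, ∀ G, Q G y → G y ∈ K → ∃! i, Tr (H i) G y := by
  let P : ℕ → Prop := fun m => ∃ H : Fin m → X → E (k + j),
    (∀ i, ∀ z ∈ O, Q (H i) z ∧ H i z ∈ K') ∧ ∀ i i', Tr (H i) (H i') y0 → i = i'
  have hle : ∀ m, P m → m ≤ N := by
    rintro m ⟨H, h1, h2⟩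
    by_contra hm
    have hm' : N + 1 ≤ m := by omega
    obtain ⟨i, i', hij, ht⟩ := hF (fun i => H (Fin.castLE hm' i)) fun i => h1 _ y0 hy0
    exact hij (Fin.castLE_injective hm' (h2 _ _ ht))
  have h0 : P 0 := ⟨fun i => i.elim0, fun i => i.elim0, fun i => i.elim0⟩
  obtain ⟨H, h1, h2⟩ : P (Nat.findGreatest P N) := Nat.findGreatest_spec (Nat.zero_le N) h0
  refine ⟨_, H, Nat.findGreatest_le N, h1, fun y hy G hG hGy => ?_⟩
  obtain ⟨G', he, hG'⟩ := hE y hy G hG hGy
  have key : ∃ i, Tr (H i) G' y0 := by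
    by_contra hn
    push Not at hn
    have h3 : P (Nat.findGreatest P N + 1) := by
      refine ⟨Fin.cons G' H, fun i => ?_, fun i i' => ?_⟩
      · induction i using Fin.cases with
        | zero => exact hG'
        | succ i => exact h1 i
      · induction i using Fin.cases with
        | zero =>
          induction i' using Fin.cases with
          | zero => exact fun _ => rfl
          | succ i' => exact fun h => absurd (tr_symm h) (hn i')
        | succ i =>
          induction i' using Fin.cases with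
          | zero => exact fun h => absurd h (hn i)
          | succ i' => exact fun h => congrArg _ (h2 i i' h)
    have := Nat.le_findGreatest (hle _ h3) h3
    omega
  obtain ⟨i, hi⟩ := key
  have hi' := tr_trans (hP _ _ (fun z hz => (h1 i z hz).1) (fun z hz => (hG' z hz).1) y0 hy0 y hy hi)
    (tr_symm (tr_of_eq he))
  exact ⟨i, hi', fun i' hj => h2 _ _ (hP _ _ (fun z hz => (h1 i' z hz).1)
    (fun z hz => (h1 i z hz).1) y hy y0 hy0 (tr_trans hj (tr_symm hi')))⟩

end tr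

variable {n k j : ℕ} {M : Mf n}

/-- The part of the manifold that the chart sends to a ball. -/
def bl (e : M.Ch) (c : E n) (R : ℝ) : Set M.X := e.source ∩ e ⁻¹' ball c R

theorem bl_open (e : M.Ch) (c : E n) (R : ℝ) : IsOpen (bl e c R) :=
  e.isOpen_inter_preimage isOpen_ball

theorem bl_symm {e : M.Ch} {c : E n} {R : ℝ} (hs : ball c R ⊆ e.target) {z : E n}
    (hz : z ∈ ball c R) : e.symm z ∈ bl e c R :=
  ⟨e.map_target (hs hz), by rwa [mem_preimage, e.right_inv (hs hz)]⟩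

theorem dif_of_hol {F : Type} [NormedAddCommGroup F] [NormedSpace ℂ F] {e : M.Ch} (he : e ∈ M.C)
    {c : E n} {R : ℝ} (hs : ball c R ⊆ e.target) {G : M.X → F}
    (hG : ∀ y ∈ bl e c R, HolAt M G y) : DifferentiableOn ℂ (G ∘ e.symm) (ball c R) := by
  intro z hz
  have h := hG _ (bl_symm hs hz) e he (e.map_target (hs hz))
  rw [e.right_inv (hs hz)] at h
  exact h.self_of_nhds.differentiableWithinAt

theorem tr_prop {e : M.Ch} (he : e ∈ M.C) {c : E n} {R : ℝ} (hs : ball c R ⊆ e.target)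
    {G G' : M.X → E (k + j)} (hG : ∀ y ∈ bl e c R, HolAt M G y)
    (hG' : ∀ y ∈ bl e c R, HolAt M G' y) {y y' : M.X} (hy : y ∈ bl e c R) (hy' : y' ∈ bl e c R)
    (h : Tr G G' y) : Tr G G' y' := by
  obtain ⟨a, h⟩ := h
  have hd : DifferentiableOn ℂ (fun z => (G' ∘ e.symm) z - ((G ∘ e.symm) z + I • io j a))
      (ball c R) := (dif_of_hol he hs hG').sub ((dif_of_hol he hs hG).add_const _)
  have h0 : (fun z => (G' ∘ e.symm) z - ((G ∘ e.symm) z + I • io j a)) =ᶠ[𝓝 (e y)] 0 := by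
    have hc : ContinuousAt e.symm (e y) := e.continuousAt_symm (e.map_source hy.1)
    have h1 : ∀ᶠ z in 𝓝 (e y), G' (e.symm z) = G (e.symm z) + I • io j a :=
      hc.eventually (by rw [e.left_inv hy.1]; exact h)
    exact h1.mono fun z hz => sub_eq_zero.2 hz
  refine ⟨a, ?_⟩
  filter_upwards [(bl_open e c R).mem_nhds hy'] with w hw
  have h2 := SV.H85.eq_zero_of_convex isOpen_ball (convex_ball c R) hd hy.2 h0 hw.2
  simp only [Function.comp, e.left_inv hw.1] at h2
  exact sub_eq_zero.1 h2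

theorem sq_supp [M.Cpt] (V : M.Cov) (a : Fin V.r) :
    tsupport (fun x => V.χ a x ^ 2) ⊆ bl (V.e a) (V.c a) (4 * V.ρ a) := by
  have hρ := V.pos a
  have h1 : closedBall (V.c a) (2 * V.ρ a) ⊆ ball (V.c a) (4 * V.ρ a) :=
    closedBall_subset_ball (by linarith)
  have h2 : ball (V.c a) (4 * V.ρ a) ⊆ (V.e a).target := ball_subset_closedBall.trans (V.sub a)
  have hc := BCOV.closed_img M (V.e a) _ (isCompact_closedBall (V.c a) (2 * V.ρ a)) (h1.trans h2)
  refine (closure_minimal (fun x hx => ?_) hc).trans ?_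
  · obtain ⟨h3, h4⟩ := V.supp a x fun h => hx (by simp [h])
    exact ⟨_, ball_subset_closedBall h4, (V.e a).left_inv h3⟩
  · rintro _ ⟨z, hz, rfl⟩
    exact bl_symm h2 (h1 hz)

end BATL0

open BATL0

theorem st_ATL0 : St_ATL0 := by
  intro n k j N M _ Q K K' D hD hQ hO hF
  choose O hO1 _ _ hE using hO
  obtain ⟨V, hV⟩ := (mCOV n M).2.1 M.C O ⟨Subset.rfl, M.cov⟩ hO1
  let B : Fin V.r → Set M.X := fun a => bl (V.e a) (V.c a) (4 * V.ρ a)
  have hs : ∀ a, ball (V.c a) (4 * V.ρ a) ⊆ (V.e a).target := fun a =>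
    ball_subset_closedBall.trans (V.sub a)
  have key : ∀ a, ∃ (m : ℕ) (H : Fin m → M.X → E (k + j)), m ≤ N ∧
      (∀ i, ∀ z ∈ B a, Q (H i) z ∧ H i z ∈ K') ∧
      ∀ y ∈ B a, ∀ G, Q G y → G y ∈ K → ∃! i, Tr (H i) G y := by
    intro a
    obtain ⟨-, x, hx⟩ := hV a
    have hB : B a ⊆ O x := fun y hy =>
      hx ⟨_, ball_subset_closedBall hy.2, (V.e a).left_inv hy.1⟩
    have hρ := V.pos a
    obtain ⟨y0, h1, h2⟩ := hD.inter_open_nonempty (B a) (bl_open _ _ _)
      ⟨_, bl_symm (hs a) (mem_ball_self (by linarith))⟩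
    refine fam Q K K' (B a) N (fun y hy G hG hK => ?_) (fun G G' hG hG' y hy y' hy' h => ?_) y0 h1
      (hF y0 h2)
    · obtain ⟨G', h3, h4⟩ := hE x y (hB hy) G hG hK
      exact ⟨G', h3, fun z hz => h4 z (hB hz)⟩
    · exact tr_prop (V.mem a) (hs a) (fun z hz => hQ _ _ (hG z hz)) (fun z hz => hQ _ _ (hG' z hz))
        hy hy' h
  choose m H hm hH hU using key
  let S := Σ a : Fin V.r, Fin (m a)
  let ε : Fin (Fintype.card S) ≃ S := (Fintype.equivFin S).symm
  refine ⟨Fintype.card S, fun i => B (ε i).1, fun i => H (ε i).1 (ε i).2,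
    fun i x => V.χ (ε i).1 x ^ 2, fun i => bl_open _ _ _, fun i x hx => ?_, fun i e he z hz => ?_,
    fun i x => sq_nonneg _, fun i => sq_supp V _, fun G x hG hK => ?_, fun x => ?_⟩
  · exact ⟨(hH _ _ x hx).1, hQ _ _ (hH _ _ x hx).1, (hH _ _ x hx).2⟩
  · exact (V.sm _ e he z hz).pow 2
  · have h1 : ∀ᶠ y in 𝓝 x, ∀ a, x ∉ B a → V.χ a y ^ 2 = 0 := by
      refine eventually_all.2 fun a => ?_
      by_cases h : x ∈ B a
      · exact .of_forall fun y h' => absurd h h'
      · have h2 : x ∉ tsupport fun x => V.χ a x ^ 2 := fun h' => h (sq_supp V a h')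
        exact (notMem_tsupport_iff_eventuallyEq.1 h2).mono fun y hy _ => hy
    filter_upwards [h1] with y hy
    rw [Finset.sum_filter, ← V.sum y]
    rw [ε.sum_comp fun s : S => if x ∈ B s.1 ∧ Tr (H s.1 s.2) G x then V.χ s.1 y ^ 2 else 0,
      Fintype.sum_sigma]
    refine Finset.sum_congr rfl fun a _ => ?_
    by_cases h : x ∈ B a
    · obtain ⟨i, hi, hu⟩ := hU a x h G hG hK
      rw [Finset.sum_eq_single i (fun i' _ h' => if_neg fun h'' => h' (hu i' h''.2))
        fun h' => absurd (Finset.mem_univ i) h', if_pos ⟨h, hi⟩]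
    · rw [hy a h]
      exact Finset.sum_eq_zero fun i _ => if_neg fun h' => h h'.1
  · rw [ε.sum_comp fun s : S => V.χ s.1 x ^ 2, Fintype.sum_sigma]
    calc ∑ a, ∑ i : Fin (m a), V.χ a x ^ 2 ≤ ∑ a, (N : ℝ) * V.χ a x ^ 2 := by
          refine Finset.sum_le_sum fun a _ => ?_
          rw [Finset.sum_const, Finset.card_univ, Fintype.card_fin, nsmul_eq_mul]
          exact mul_le_mul_of_nonneg_right (Nat.cast_le.2 (hm a)) (sq_nonneg _)
      _ = N := by rw [← Finset.mul_sum, V.sum x, mul_one]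

end Pool.Agent.Lib.RA
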