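import Pool.Agent.Lib.RA.Defs

/-! Project ra1: the interface statements and the assembly. -/

open scoped Classical Topology ContDiff ComplexOrder Matrix Manifold
open Set MeasureTheory Complex Metric Filter

set_option linter.unusedVariables false

noncomputable section

namespace Pool.Agent.Lib.RA

open Pool.Agent.Lib.SV (E nsq)
open Pool.Agent.Lib.HS32 Pool.Agent.Lib.PN Pool.Agent.Lib.UR.M

/-- From the statement to the manifold layer. -/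
def St_BRG : Prop := ∀ (n : ℕ) (X : Type) [TopologicalSpace X] [ChartedSpace (E n) X]
  [IsManifold 𝓘(ℂ, E n) ω X] [CompactSpace X] [T2Space X] [ConnectedSpace X] (φ : X → ℝ),
  AnalyticSemipos n φ → ∃ (φ' : (HS.BBR.mf n X).Fam ℝ) (r : ℕ), r ≤ n ∧
    Pot (HS.BBR.mf n X) φ' r ∧ (HS.BBR.mf n X).Le 0 ((HS.BBR.mf n X).hw φ') ∧
    NullDirs n φ (n - r)

/-- Step A. -/
def St_A : Prop := ∀ (n : ℕ) (M : Mf n) [M.Cpt] (G : M.Fam (Mat n)) (φ : M.Fam ℝ) (r : ℕ),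
  Su M G φ r → 0 < r → r < n → HF M φ r

/-- Step B: a maximal family. -/
def St_FAM : Prop := ∀ (n : ℕ) (M : Mf n) [M.Cpt] (G : M.Fam (Mat n)) (φ : M.Fam ℝ) (r : ℕ),
  Su M G φ r → HF M φ r → ∃ (k j : ℕ) (μ : Fin k → M.X → ℝ), r = k + j ∧ Kf M φ r μ ∧
    KMax M φ r μ ∧ IsOpen (Xg M φ r μ) ∧ Dense (Xg M φ r μ)

/-- Step B: global extension of Killing potentials, propagation of the bracket. -/
def St_GLB : Prop := ∀ (n : ℕ) (M : Mf n) [M.Cpt] [SimplyConnectedSpace M.X] (G : M.Fam (Mat n))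
  (φ : M.Fam ℝ) (r : ℕ), Su M G φ r → HF M φ r →
  (∀ ν x, KPAt M φ r ν x → ∃ ν', (∀ y, KPAt M φ r ν' y) ∧ ν' =ᶠ[𝓝 x] ν) ∧
  ∀ μ ν x, (∀ y, KPAt M φ r μ y) → (∀ y, KPAt M φ r ν y) →
    (∀ᶠ y in 𝓝 x, y ∈ X0 M (M.hw φ) r → ComAt M φ μ ν y) →
    ∀ y ∈ X0 M (M.hw φ) r, ComAt M φ μ ν y

/-- Step B: boxes. -/
def St_BOX : Prop := ∀ (n k j : ℕ) (M : Mf n) (G : M.Fam (Mat n)) (φ : M.Fam ℝ)
  (μ : Fin k → M.X → ℝ), Su M G φ (k + j) → HF M φ (k + j) → Kf M φ (k + j) μ → AllBox M j φ μ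

/-- Step C. -/
def St_FIN : Prop := ∀ (n k j : ℕ) (M : Mf n) [M.Cpt] [SimplyConnectedSpace M.X]
  (G : M.Fam (Mat n)) (φ : M.Fam ℝ) (μ : Fin k → M.X → ℝ), Su M G φ (k + j) → HF M φ (k + j) →
  Kf M φ (k + j) μ → KMax M φ (k + j) μ → AllFin M j φ μ

/-- Step D. -/
def St_D : Prop := ∀ (n k j : ℕ) (M : Mf n) [M.Cpt] (G : M.Fam (Mat n)) (φ : M.Fam ℝ)
  (μ : Fin k → M.X → ℝ), Su M G φ (k + j) → 0 < k + j → k + j < n → HF M φ (k + j) →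
  Kf M φ (k + j) μ → Dense (Xg M φ (k + j) μ) → AllBox M j φ μ → AllFin M j φ μ →
  ∃ V ρ, Flow M j φ μ V ρ

/-- The potential on the complex tube. -/
def St_PHH : Prop := ∀ (n k j : ℕ) (M : Mf n) [M.Cpt] (G : M.Fam (Mat n)) (φ : M.Fam ℝ)
  (μ : Fin k → M.X → ℝ) (V : M.Cov) (ρ : (Fin k → ℝ) → M.X → ℝ) (x₀ : M.X)
  (Φ : E (k + j) × E (k + j) → ℂ) (δ c : ℝ) (O : Set M.X) (H : M.X → E (k + j))
  (σ : E (k + j) → M.X), Su M G φ (k + j) → Flow M j φ μ V ρ → Box M φ μ x₀ Φ δ c O H σ →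
  ∃ δ' c₁, Phh M φ ρ Φ δ O H (phh Φ ρ σ) δ' c₁

/-- The regularised minimum. -/
def St_MIN : Prop := ∀ (n k j : ℕ) (M : Mf n) (φ : M.Fam ℝ) (r : ℕ) (μ : Fin k → M.X → ℝ)
  (V : M.Cov) (ρ : (Fin k → ℝ) → M.X → ℝ) (b : Fin k → ℝ) (ε : ℝ), Pot M φ r →
  Flow M j φ μ V ρ → 0 < ε → ∃ P ξ, Mn M φ ρ b ε P ξ

/-- The adapted chart. -/
def St_EBX : Prop := ∀ (q k j p d : ℕ) (M : Mf (q + j)) (Λ : Type) (g : Λ → Pol (p + (q + j)))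
  (f : M.X → Fin (p + (q + j) + 1) → ℂ) (O : Set M.X) (H : M.X → E (k + j)) (x₀ : M.X),
  Prj M d g f → IsOpen O → x₀ ∈ O → HolAt M H x₀ → Subm M H x₀ →
  ∃ i₀ ix e c R, Ebx M f i₀ ix O H e c R ∧ e.symm c = x₀

/-- Step E: the zero estimate. -/
def St_E : Prop := ∀ (q k j : ℕ) (M : Mf (q + j)) [M.Cpt] (ι : Type) [Fintype ι]
  (f : M.X → ι → ℂ) (φ : M.Fam ℝ) (μ : Fin k → M.X → ℝ) (V : M.Cov) (ρ : (Fin k → ℝ) → M.X → ℝ)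
  (x₀ : M.X) (Φ : E (k + j) × E (k + j) → ℂ) (δ c : ℝ) (O : Set M.X) (H : M.X → E (k + j))
  (σ : E (k + j) → M.X) (N : ℕ) (ψ : E (k + j) → ℝ) (δ' c₁ : ℝ) (i₀ : ι) (ix : Fin q → ι)
  (e : M.Ch) (a : E (q + j)) (R : ℝ), PMap M f → Su M (fs M f) φ (k + j) → k < q →
  Flow M j φ μ V ρ → Box M φ μ x₀ Φ δ c O H σ → Fin0 Φ δ N → Phh M φ ρ Φ δ O H ψ δ' c₁ →
  Ebx M f i₀ ix O H e a R → e.symm a = x₀ → ∃ R' ∈ Ioc 0 R, Zer M f i₀ e a R'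

/-- Step E: dependence of monomials. -/
def St_DEP : Prop := ∀ (q k j : ℕ) (M : Mf (q + j)) (ι : Type) [Fintype ι] (f : M.X → ι → ℂ)
  (O : Set M.X) (H : M.X → E (k + j)) (i₀ : ι) (ix : Fin q → ι) (e : M.Ch) (a : E (q + j))
  (R : ℝ), PMap M f → Ebx M f i₀ ix O H e a R → Zer M f i₀ e a R → Dep M f i₀ e a R

/-- Step E: algebraic equations. -/
def St_CRAM : Prop := ∀ (q k j : ℕ) (M : Mf (q + j)) [M.Cpt] (ι : Type) [Fintype ι]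
  (f : M.X → ι → ℂ) (G : M.Fam (Mat (q + j))) (φ : M.Fam ℝ) (μ : Fin k → M.X → ℝ) (x₀ : M.X)
  (Φ : E (k + j) × E (k + j) → ℂ) (δ c : ℝ) (O : Set M.X) (H : M.X → E (k + j))
  (σ : E (k + j) → M.X) (i₀ : ι) (ix : Fin q → ι) (e : M.Ch) (a : E (q + j)) (R : ℝ)
  (D : Set M.X), PMap M f → Su M G φ (k + j) → HF M φ (k + j) → Kf M φ (k + j) μ →
  Box M φ μ x₀ Φ δ c O H σ → Ebx M f i₀ ix O H e a R → Dep M f i₀ e a R → IsOpen D → Dense D →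
  ∃ a₁ R₁ W P d, ball a₁ R₁ ⊆ ball a R ∧ e.symm a₁ ∈ D ∧ Alg M f i₀ e a₁ R₁ W P d

/-- Coercivity. -/
def St_COER : Prop := ∀ (n k j p d : ℕ) (M : Mf n) [M.Cpt] (Λ : Type) (g : Λ → Pol (p + n))
  (f : M.X → Fin (p + n + 1) → ℂ) (φ : M.Fam ℝ) (μ : Fin k → M.X → ℝ) (V : M.Cov)
  (ρ : (Fin k → ℝ) → M.X → ℝ) (x₀ : M.X) (Φ : E (k + j) × E (k + j) → ℂ) (δ c : ℝ) (O : Set M.X)
  (H : M.X → E (k + j)) (σ : E (k + j) → M.X) (ψ : E (k + j) → ℝ) (δ' c₁ : ℝ), 0 < n →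
  Prj M d g f → Su M (fs M f) φ (k + j) → Flow M j φ μ V ρ → Box M φ μ x₀ Φ δ c O H σ →
  Phh M φ ρ Φ δ O H ψ δ' c₁ → ∃ m θ s, Coe M φ f ρ (mu0 Φ 0) m θ s

/-- Pluriharmonic functions of logarithmic growth. -/
def St_FST : Prop := ∀ (n : ℕ) (M : Mf n) [M.Cpt] [SimplyConnectedSpace M.X] (G : M.Fam (Mat n))
  (W : Set M.X) (g : M.X → ℝ), 0 < n → M.Kae G → Cothin M W → (∀ x ∈ W, PhAt M g x) →
  LogT M W g → ∃ (m q : ℕ) (l : Fin (m + 1) → ℝ) (f : Fin (m + 1) → M.X → ℂ) (W' : Set M.X)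
    (c : ℝ), 0 < q ∧ l 0 = 1 / q ∧ LinearIndependent ℚ l ∧ Cothin M W' ∧ W' ⊆ W ∧
    (∀ i, Mer M (f i)) ∧ ∀ x ∈ W', (∀ i, HolAt M (f i) x ∧ f i x ≠ 0) ∧
      g x = ∑ i, l i * Real.log (normSq (f i x)) + c

/-- Step F. -/
def St_F : Prop := ∀ (q k j p d : ℕ) (M : Mf (q + j)) [M.Cpt] [SimplyConnectedSpace M.X]
  (Λ : Type) [Fintype Λ] (g : Λ → Pol (p + (q + j))) (f : M.X → Fin (p + (q + j) + 1) → ℂ)
  (φ : M.Fam ℝ) (μ : Fin k → M.X → ℝ) (V : M.Cov) (ρ : (Fin k → ℝ) → M.X → ℝ) (x₀ : M.X)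
  (Φ : E (k + j) × E (k + j) → ℂ) (δ c : ℝ) (O : Set M.X) (H : M.X → E (k + j))
  (σ : E (k + j) → M.X) (N : ℕ) (ψ : E (k + j) → ℝ) (δ' c₁ : ℝ) (i₀ : Fin (p + (q + j) + 1))
  (ix : Fin q → Fin (p + (q + j) + 1)) (e : M.Ch) (a : E (q + j)) (R : ℝ) (m : ℕ) (θ : M.X → ℂ)
  (s : M.Fam ℂ) (a₁ : E (q + j)) (R₁ : ℝ) (W : Set M.X)
  (P : Fin (p + (q + j) + 1) → M.X → Polynomial ℂ) (dP : Fin (p + (q + j) + 1) → ℕ),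
  Prj M d g f → Su M (fs M f) φ (k + j) → k < q → Kf M φ (k + j) μ → Flow M j φ μ V ρ →
  Box M φ μ x₀ Φ δ c O H σ → Fin0 Φ δ N → Phh M φ ρ Φ δ O H ψ δ' c₁ →
  Ebx M f i₀ ix O H e a R → Coe M φ f ρ (mu0 Φ 0) m θ s → ball a₁ R₁ ⊆ ball a R →
  (∀ z ∈ ball a R, ‖H (e.symm z)‖ < δ / 2) → θ (e.symm a₁) ≠ 0 → Alg M f i₀ e a₁ R₁ W P dP →
  ∃ x₂ τ W' m' s', Bas M φ (k + j) x₂ τ W' m' s'

/-- Step G: the proper map. -/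
def St_G1 : Prop := ∀ (n r m : ℕ) (M : Mf n) [M.Cpt] (G : M.Fam (Mat n)) (φ : M.Fam ℝ) (x₂ : M.X)
  (τ : M.X → E r) (W : Set M.X) (s : M.Fam ℂ), Su M G φ r → Bas M φ r x₂ τ W m s →
  ∃ U H δ c s', Pk M φ r x₂ U H δ c m s'

/-- Step G: peak sections. -/
def St_G2 : Prop := ∀ (n r m : ℕ) (M : Mf n) [M.Cpt] (G : M.Fam (Mat n)) (φ : M.Fam ℝ) (x₂ : M.X)
  (U : Set M.X) (H : M.X → E r) (δ c : ℝ) (s : M.Fam ℂ), 0 < n → Su M G φ r →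
  Pk M φ r x₂ U H δ c m s → M.WGrow r

/-- Maximal rank. -/
def St_RN : Prop := ∀ (n : ℕ) (M : Mf n) [M.Cpt] (G : M.Fam (Mat n)) (φ : M.Fam ℝ), Su M G φ n →
  ∃ x₂ U H δ c s, Pk M φ n x₂ U H δ c 1 s

/-- Rank zero. -/
def St_R0 : Prop := ∀ (n : ℕ) (M : Mf n) [M.Cpt] [SimplyConnectedSpace M.X] (φ : M.Fam ℝ),
  Pot M φ 0 → M.WGrow 0

theorem Ebx.mono {q k j : ℕ} {M : Mf (q + j)} {ι : Type} [Fintype ι] {f : M.X → ι → ℂ} {i₀ : ι}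
    {ix : Fin q → ι} {O : Set M.X} {H : M.X → E (k + j)} {e : M.Ch} {a : E (q + j)} {R R' : ℝ}
    (h : Ebx M f i₀ ix O H e a R) (h0 : 0 < R') (h1 : R' ≤ R) : Ebx M f i₀ ix O H e a R' :=
  ⟨h.mem, h0, (ball_subset_ball h1).trans h.sub, fun z hz => h.pt z (ball_subset_ball h1 hz)⟩

theorem HolAt.cont {n : ℕ} {M : Mf n} {F : Type} [NormedAddCommGroup F] [NormedSpace ℂ F]
    {f : M.X → F} {x : M.X} (h : HolAt M f x) : ContinuousAt f x := by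
  obtain ⟨e, he, hx⟩ := M.cov x
  have a := ((h e he hx).self_of_nhds.continuousAt).comp (e.continuousAt hx)
  refine a.congr ?_
  filter_upwards [e.open_source.mem_nhds hx] with y hy
  simp [e.left_inv hy]

theorem main_of (hA : St_A) (hFAM : St_FAM) (hBOX : St_BOX) (hFIN : St_FIN) (hD : St_D)
    (hPHH : St_PHH) (hEBX : St_EBX) (hE : St_E) (hDEP : St_DEP) (hCRAM : St_CRAM)
    (hCOER : St_COER) (hF : St_F) (hG1 : St_G1) (hG2 : St_G2) (hRN : St_RN) (hR0 : St_R0)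
    {n p d r : ℕ} (M : Mf n) [M.Cpt] [SimplyConnectedSpace M.X] {Λ : Type} [Fintype Λ]
    {g : Λ → Pol (p + n)} {f : M.X → Fin (p + n + 1) → ℂ} {φ : M.Fam ℝ} (hP : Prj M d g f)
    (hS : Su M (fs M f) φ r) (hr : r ≤ n) : M.WGrow r := by
  rcases Nat.eq_zero_or_pos r with rfl | h0
  · exact hR0 n M φ hS.toPot
  rcases hr.eq_or_lt with rfl | h1
  · obtain ⟨x, U, H, δ, c, s, h⟩ := hRN r M _ φ hS
    exact hG2 r r 1 M _ φ x U H δ c s h0 hS h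
  have hH := hA n M _ φ r hS h0 h1
  obtain ⟨k, j, μ, rfl, hK, hM, -, hd⟩ := hFAM n M _ φ r hS hH
  obtain ⟨q, rfl⟩ : ∃ q, n = q + j := ⟨n - j, by omega⟩
  have hq : k < q := by omega
  have hB := hBOX _ k j M _ φ μ hS hH hK
  have hN := hFIN _ k j M _ φ μ hS hH hK hM
  obtain ⟨V, ρ, hf⟩ := hD _ k j M _ φ μ hS h0 h1 hH hK hd hB hN
  obtain ⟨x₀, hx⟩ := hd.nonempty
  obtain ⟨Φ, δ, c, O, H, σ, hb⟩ := hB x₀ hx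
  obtain ⟨N, hn⟩ := hN x₀ Φ δ c O H σ hb
  obtain ⟨δ', c₁, hp⟩ := hPHH _ k j M _ φ μ V ρ x₀ Φ δ c O H σ hS hf hb
  have hc : ∀ x ∈ O, ContinuousAt H x := fun x hx => (hb.adm x hx).iso.1.cont
  have hO : IsOpen (O ∩ H ⁻¹' ball 0 (δ / 2)) :=
    ContinuousOn.isOpen_inter_preimage (fun x hx => (hc x hx).continuousWithinAt) hb.op isOpen_ball
  obtain ⟨i₀, ix, e, a, R, he, ha⟩ := hEBX q k j p d M Λ g f _ H x₀ hP hO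
    ⟨hb.mem, by simpa [hb.zero] using hb.tv.d0⟩ (hb.adm _ hb.mem).iso.1 (hb.sub _ hb.mem)
  have he' : Ebx M f i₀ ix O H e a R :=
    ⟨he.mem, he.r0, he.sub, fun z hz => ⟨(he.pt z hz).1.1, (he.pt z hz).2⟩⟩
  obtain ⟨R', ⟨r0, r1⟩, hz⟩ := hE q k j M _ f φ μ V ρ x₀ Φ δ c O H σ N _ δ' c₁ i₀ ix e a R hP.map
    hS hq hf hb hn hp he' ha
  have he2 := he'.mono r0 r1
  obtain ⟨m, θ, s, hc⟩ := hCOER _ k j p d M Λ g f φ μ V ρ x₀ Φ δ c O H σ _ δ' c₁ (by omega) hP hS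
    hf hb hp
  obtain ⟨a₁, R₁, W, P, dP, h2, h3, h4⟩ := hCRAM q k j M _ f _ φ μ x₀ Φ δ c O H σ i₀ ix e a R' _
    hP.map hS hH hK hb he2 (hDEP q k j M _ f O H i₀ ix e a R' hP.map he2 hz) hc.op hc.den
  obtain ⟨x₂, τ, W', m', s', h5⟩ := hF q k j p d M Λ g f φ μ V ρ x₀ Φ δ c O H σ N _ δ' c₁ i₀ ix e a
    R' m θ s a₁ R₁ W P dP hP hS hq hK hf hb hn hp he2 hc h2
    (fun z hz => by simpa using (he.pt z (ball_subset_ball r1 hz)).1.2) h3 h4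
  obtain ⟨U, H', δ₂, c₂, s₂, h6⟩ := hG1 _ _ m' M _ φ x₂ τ W' s' hS h5
  exact hG2 _ _ m' M _ φ x₂ U H' δ₂ c₂ s₂ (by omega) hS h6

end Pool.Agent.Lib.RA
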