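import Pool.Agent.Lib.RC.Root53

/-! Simple roots of a monic polynomial with holomorphic coefficients. -/

open Polynomial Topology Filter Set

namespace Pool.Agent.Lib.RA

/-- Near a point where a monic polynomial with holomorphic coefficients is separable, it splits
into distinct holomorphic roots. -/
def St_ROOT : Prop := ∀ (G : Type) [NormedAddCommGroup G] [NormedSpace ℂ G] (d : ℕ)
  (P : G → ℂ[X]) (z₀ : G), (∀ᶠ w in 𝓝 z₀, (P w).Monic ∧ (P w).natDegree = d) →
  (∀ k, ∀ᶠ w in 𝓝 z₀, DifferentiableAt ℂ (fun y => (P y).coeff k) w) → (P z₀).Separable →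
    ∃ Y : Fin d → G → ℂ, ∀ᶠ w in 𝓝 z₀, (∀ i, DifferentiableAt ℂ (Y i) w) ∧
      Function.Injective (fun i => Y i w) ∧ P w = ∏ i, (X - C (Y i w)) ∧
      ∀ s, (P w).eval s = 0 ↔ ∃ i, s = Y i w

/-- The roots of a monic polynomial are bounded by its coefficients. -/
def St_RBD : Prop := ∀ (P : ℂ[X]) (s : ℂ), P.Monic → P.eval s = 0 →
  ‖s‖ ≤ 1 + ∑ k ∈ Finset.range P.natDegree, ‖P.coeff k‖

/-- Two continuous roots of a continuous family of separable polynomials that agree at a point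
agree near it. -/
def St_RUN : Prop := ∀ (G : Type) [TopologicalSpace G] (d : ℕ) (Y : Fin d → G → ℂ) (s : G → ℂ)
  (z₀ : G), (∀ i, ContinuousAt (Y i) z₀) → Function.Injective (fun i => Y i z₀) →
  ContinuousAt s z₀ → (∀ᶠ w in 𝓝 z₀, ∃ i, s w = Y i w) → ∃ i, s =ᶠ[𝓝 z₀] Y i

namespace ROOTB

open Pool.Agent.RC.Spread

theorem eq_mpP {P : ℂ[X]} {d : ℕ} (hm : P.Monic) (hd : P.natDegree = d) :
    P = mpP (fun k : Fin d => P.coeff k) := by
  subst hd
  rw [mpP]
  conv_lhs => rw [hm.as_sum]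
  rw [Finset.sum_range (fun k => C (P.coeff k) * X ^ k)]

theorem eq_prod {P : ℂ[X]} {d : ℕ} (hm : P.Monic) (hd : P.natDegree = d) {y : Fin d → ℂ}
    (hy : Function.Injective y) (h0 : ∀ i, P.eval (y i) = 0) : P = ∏ i, (X - C (y i)) := by
  have h1 : (∏ i, (X - C (y i))) ∣ P :=
    Finset.prod_dvd_of_coprime
      (fun i _ j _ hij => (pairwise_coprime_X_sub_C hy) hij) fun i _ => dvd_iff_isRoot.2 (h0 i)
  have h2 : (∏ i, (X - C (y i))).Monic := monic_prod_of_monic _ _ fun i _ => monic_X_sub_C _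
  have h3 : (∏ i, (X - C (y i))).natDegree = d := by
    rw [natDegree_prod_of_monic _ _ fun i _ => monic_X_sub_C _]
    simp
  exact eq_of_monic_of_dvd_of_natDegree_le h2 hm h1 (by rw [hd, h3])

theorem exists_enum {P : ℂ[X]} {d : ℕ} (hd : P.natDegree = d) (hs : P.Separable) :
    ∃ y : Fin d → ℂ, Function.Injective y ∧ ∀ i, P.eval (y i) = 0 := by
  classical
  have h1 : P.roots.toFinset.card = d := by
    rw [Multiset.toFinset_card_of_nodup (nodup_roots hs), ← hd]
    exact IsAlgClosed.card_roots_eq_natDegree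
  let e := (Finset.equivFinOfCardEq h1).symm
  refine ⟨fun i => e i, fun i j h => e.injective (Subtype.ext h), fun i => ?_⟩
  exact isRoot_of_mem_roots (Multiset.mem_toFinset.1 (e i).2)

theorem ev_inj {G : Type*} [TopologicalSpace G] {d : ℕ} {Y : Fin d → G → ℂ} {z₀ : G}
    (hY : ∀ i, ContinuousAt (Y i) z₀) (hi : Function.Injective fun i => Y i z₀) :
    ∀ᶠ w in 𝓝 z₀, Function.Injective fun i => Y i w := by
  have h : ∀ i j, ∀ᶠ w in 𝓝 z₀, Y i w = Y j w → i = j := by
    intro i j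
    by_cases hij : i = j
    · exact Eventually.of_forall fun _ _ => hij
    · have h1 : Y i z₀ - Y j z₀ ≠ 0 := sub_ne_zero.2 fun h => hij (hi h)
      filter_upwards [((hY i).sub (hY j)).eventually_ne h1] with w hw h2
      exact absurd (sub_eq_zero.2 h2) hw
  filter_upwards [eventually_all.2 fun i => eventually_all.2 (h i)] with w hw i j hij
  exact hw i j hij

end ROOTB

open ROOTB Pool.Agent.RC.Spread in
theorem st_ROOT : St_ROOT := by
  intro G _ _ d P z₀ hm hc hs
  obtain ⟨y, hy, h0⟩ := exists_enum hm.self_of_nhds.2 hs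
  set c : G → Fin d → ℂ := fun w k => (P w).coeff k with hcd
  have hc' : ∀ᶠ w in 𝓝 z₀, DifferentiableAt ℂ c w := by
    filter_upwards [eventually_all.2 fun k : Fin d => hc k] with w hw
    exact differentiableAt_pi.2 hw
  have hP : ∀ᶠ w in 𝓝 z₀, P w = mpP (c w) := hm.mono fun w hw => eq_mpP hw.1 hw.2
  have h1 : ∀ i, ∃ r : (Fin d → ℂ) → ℂ, AnalyticAt ℂ r (c z₀) ∧ r (c z₀) = y i ∧
      ∀ᶠ a in 𝓝 (c z₀), mp a (r a) = 0 := by
    intro i
    have e0 : mp (c z₀) (y i) = 0 := by rw [← eval_mpP, ← hP.self_of_nhds]; exact h0 i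
    have e1 : (derivative (mpP (c z₀))).eval (y i) ≠ 0 := by
      rw [← hP.self_of_nhds]
      simpa using hs.aeval_derivative_ne_zero (x := y i) (by simpa using h0 i)
    obtain ⟨r, a1, a2, a3, -⟩ := root_local (fun a : Fin d → ℂ => a) (c z₀) analyticAt_id (y i) e0 e1
    exact ⟨r, a1, a2, a3⟩
  choose r r1 r2 r3 using h1
  have ct : ContinuousAt c z₀ := hc'.self_of_nhds.continuousAt
  have hY : ∀ i, ∀ᶠ w in 𝓝 z₀, DifferentiableAt ℂ (fun w => r i (c w)) w := by
    intro i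
    filter_upwards [hc', ct.eventually (r1 i).eventually_analyticAt] with w a1 a2
    exact a2.differentiableAt.comp w a1
  refine ⟨fun i w => r i (c w), ?_⟩
  have hi : ∀ᶠ w in 𝓝 z₀, Function.Injective fun i => r i (c w) :=
    ev_inj (Y := fun i w => r i (c w)) (fun i => (hY i).self_of_nhds.continuousAt)
      (by simpa only [r2] using hy)
  filter_upwards [eventually_all.2 hY, hi, hm, hP,
    eventually_all.2 fun i => ct.eventually (r3 i)] with w a1 a2 a3 a4 a5
  have e : P w = ∏ i, (X - C (r i (c w))) :=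
    eq_prod a3.1 a3.2 a2 fun i => by rw [a4, eval_mpP]; exact a5 i
  refine ⟨a1, a2, e, fun s => ?_⟩
  rw [e, eval_prod, Finset.prod_eq_zero_iff]
  simp [sub_eq_zero]

open ROOTB Pool.Agent.RC.Spread in
theorem st_RBD : St_RBD := by
  intro P s hm h0
  have hd : 0 < P.natDegree := natDegree_pos_of_eval₂_root hm.ne_zero (RingHom.id ℂ) h0 fun _ h => h
  have h1 := root_bound hd (fun k : Fin P.natDegree => P.coeff k) s
  rw [← eval_mpP, ← eq_mpP hm rfl, h0, norm_zero, add_zero] at h1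
  rwa [Finset.sum_range (fun k => ‖P.coeff k‖)]

theorem st_RUN : St_RUN := by
  intro G _ d Y s z₀ hY hi hs h
  obtain ⟨i, hi0⟩ := h.self_of_nhds
  refine ⟨i, ?_⟩
  have h1 : ∀ j, ∀ᶠ w in 𝓝 z₀, s w = Y j w → j = i := by
    intro j
    by_cases hj : j = i
    · exact Eventually.of_forall fun _ _ => hj
    · have h2 : s z₀ - Y j z₀ ≠ 0 := sub_ne_zero.2 fun h => hj (hi (h.symm.trans hi0))
      filter_upwards [(hs.sub (hY j)).eventually_ne h2] with w hw h3
      exact absurd (sub_eq_zero.2 h3) hw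
  filter_upwards [h, eventually_all.2 h1] with w ⟨j, hj⟩ hw
  rw [hj, hw j hj]

end Pool.Agent.Lib.RA
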