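import Mathlib

/-! Finite sets that are locally the images of finitely many disjoint sections. -/

open Set Filter Topology Function
open scoped Classical

set_option linter.unusedVariables false

noncomputable section

namespace Pool.Agent.Lib.RA

variable {X α : Type} [TopologicalSpace X] [TopologicalSpace α]

/-- A class of continuous germs, such as the holomorphic ones. -/
structure GP (Q : X → (X → α) → Prop) : Prop where
  ev : ∀ x y, Q x y → ∀ᶠ x' in 𝓝 x, Q x' y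
  ct : ∀ x y, Q x y → ContinuousAt y x
  cg : ∀ x y y', y =ᶠ[𝓝 x] y' → Q x y → Q x y'

/-- Near `x₀` the maps `y k` are the sheets of `S`. -/
structure Shs (Q : X → (X → α) → Prop) (S : X → Set α) (x₀ : X) {κ : Type} (y : κ → X → α) :
    Prop where
  q : ∀ k, Q x₀ (y k)
  ev : ∀ᶠ x in 𝓝 x₀, Injective (fun k => y k x) ∧ S x = range fun k => y k x

/-- Near `x₀` the set `S x` consists of finitely many sheets. -/
def ShAt (Q : X → (X → α) → Prop) (S : X → Set α) (x₀ : X) : Prop :=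
  ∃ (m : ℕ) (y : Fin m → X → α), Shs Q S x₀ y

/-- `y` is a section of `S` near `x₀`. -/
def Sct (Q : X → (X → α) → Prop) (S : X → Set α) (x₀ : X) (y : X → α) : Prop :=
  Q x₀ y ∧ ∀ᶠ x in 𝓝 x₀, y x ∈ S x

/-- The points of `S x` whose section has the property `T`. -/
def Sel (Q : X → (X → α) → Prop) (S : X → Set α) (T : X → (X → α) → Prop) (x : X) : Set α :=
  {a | ∃ y, Sct Q S x y ∧ y x = a ∧ T x y}

variable {Q : X → (X → α) → Prop} {S : X → Set α} {T : X → (X → α) → Prop} {x₀ : X} {κ : Type}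

omit [TopologicalSpace α] in
theorem Shs.shAt [Finite κ] {y : κ → X → α} (h : Shs Q S x₀ y) : ShAt Q S x₀ := by
  obtain ⟨m, ⟨e⟩⟩ := Finite.exists_equiv_fin κ
  refine ⟨m, fun i => y (e.symm i), fun i => h.q _, h.ev.mono fun x hx => ⟨?_, ?_⟩⟩
  · exact hx.1.comp e.symm.injective
  · rw [hx.2]
    exact (e.symm.surjective.range_comp fun k => y k x).symm

omit [TopologicalSpace α] in
theorem Shs.sct {y : κ → X → α} (h : Shs Q S x₀ y) (k : κ) : Sct Q S x₀ (y k) :=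
  ⟨h.q k, h.ev.mono fun x hx => hx.2 ▸ mem_range_self k⟩

theorem Shs.eventually [Finite κ] (hQ : GP Q) {y : κ → X → α} (h : Shs Q S x₀ y) :
    ∀ᶠ x in 𝓝 x₀, Shs Q S x y := by
  filter_upwards [eventually_all.2 fun k => hQ.ev _ _ (h.q k), h.ev.eventually_nhds] with x h1 h2
  exact ⟨h1, h2⟩

theorem ShAt.eventually (hQ : GP Q) (h : ShAt Q S x₀) : ∀ᶠ x in 𝓝 x₀, ShAt Q S x := by
  obtain ⟨m, y, h⟩ := h
  exact (h.eventually hQ).mono fun x hx => ⟨m, y, hx⟩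

omit [TopologicalSpace α] in
theorem ShAt.congr {S' : X → Set α} (h : ShAt Q S x₀) (e : ∀ᶠ x in 𝓝 x₀, S x = S' x) :
    ShAt Q S' x₀ := by
  obtain ⟨m, y, h⟩ := h
  exact ⟨m, y, h.q, (h.ev.and e).mono fun x hx => ⟨hx.1.1, hx.2 ▸ hx.1.2⟩⟩

theorem Sct.eventually (hQ : GP Q) {y : X → α} (h : Sct Q S x₀ y) : ∀ᶠ x in 𝓝 x₀, Sct Q S x y :=
  ((hQ.ev _ _ h.1).and h.2.eventually_nhds).mono fun _ hx => hx

omit [TopologicalSpace α] in
theorem Sct.mem {y : X → α} (h : Sct Q S x₀ y) : y x₀ ∈ S x₀ := h.2.self_of_nhds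

omit [TopologicalSpace α] in
theorem Sct.mono {S' : X → Set α} {y : X → α} (h : Sct Q S x₀ y)
    (e : ∀ᶠ x in 𝓝 x₀, S x ⊆ S' x) : Sct Q S' x₀ y :=
  ⟨h.1, (h.2.and e).mono fun _ hx => hx.2 hx.1⟩

/-- A continuous section is a sheet. -/
theorem Shs.eq_sheet [Finite κ] [T2Space α] (hQ : GP Q) {y : κ → X → α} (h : Shs Q S x₀ y)
    {s : X → α} (hc : ContinuousAt s x₀) (hs : ∀ᶠ x in 𝓝 x₀, s x ∈ S x) {k : κ}
    (hk : s x₀ = y k x₀) : s =ᶠ[𝓝 x₀] y k := by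
  have h1 : ∀ᶠ x in 𝓝 x₀, ∀ j, j ≠ k → s x ≠ y j x := by
    refine eventually_all.2 fun j => ?_
    by_cases e : j = k
    · exact Eventually.of_forall fun x h' => absurd e h'
    · have h2 : s x₀ ≠ y j x₀ := fun h' => e (h.ev.self_of_nhds.1 (h'.symm.trans hk))
      have h3 := (hc.prodMk (hQ.ct _ _ (h.q j))).eventually
        (isClosed_diagonal.isOpen_compl.mem_nhds (show (s x₀, y j x₀) ∈ (diagonal α)ᶜ from h2))
      exact h3.mono fun x hx _ => hx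
  filter_upwards [h1, hs, h.ev] with x h2 h3 h4
  rw [h4.2] at h3
  obtain ⟨j, hj⟩ := h3
  by_cases e : j = k
  · rw [← e]; exact hj.symm
  · exact absurd hj.symm (h2 j e)

theorem Shs.exists_sheet [Finite κ] [T2Space α] (hQ : GP Q) {y : κ → X → α} (h : Shs Q S x₀ y)
    {s : X → α} (hc : ContinuousAt s x₀) (hs : ∀ᶠ x in 𝓝 x₀, s x ∈ S x) :
    ∃ k, s =ᶠ[𝓝 x₀] y k := by
  have h1 := hs.self_of_nhds
  rw [h.ev.self_of_nhds.2] at h1
  obtain ⟨k, hk⟩ := h1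
  exact ⟨k, h.eq_sheet hQ hc hs hk.symm⟩

/-- A continuous section belongs to the class `Q`. -/
theorem ShAt.sct_of_continuousAt [T2Space α] (hQ : GP Q) (h : ShAt Q S x₀) {s : X → α}
    (hc : ContinuousAt s x₀) (hs : ∀ᶠ x in 𝓝 x₀, s x ∈ S x) : Sct Q S x₀ s := by
  obtain ⟨m, y, h⟩ := h
  obtain ⟨k, hk⟩ := h.exists_sheet hQ hc hs
  exact ⟨hQ.cg _ _ _ hk.symm (h.q k), hs⟩

/-- Uniqueness of the section through a point. -/
theorem ShAt.unique [T2Space α] (hQ : GP Q) (h : ShAt Q S x₀) {s s' : X → α}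
    (hs : Sct Q S x₀ s) (hs' : Sct Q S x₀ s') (e : s x₀ = s' x₀) : s =ᶠ[𝓝 x₀] s' := by
  obtain ⟨m, y, h⟩ := h
  obtain ⟨k, hk⟩ := h.exists_sheet hQ (hQ.ct _ _ hs.1) hs.2
  exact hk.trans (h.eq_sheet hQ (hQ.ct _ _ hs'.1) hs'.2 (e ▸ hk.self_of_nhds)).symm

omit [TopologicalSpace α] in
/-- Existence of the section through a point. -/
theorem ShAt.exists_sct (h : ShAt Q S x₀) {a : α} (ha : a ∈ S x₀) :
    ∃ s, Sct Q S x₀ s ∧ s x₀ = a := by
  obtain ⟨m, y, h⟩ := h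
  rw [h.ev.self_of_nhds.2] at ha
  obtain ⟨k, hk⟩ := ha
  exact ⟨y k, h.sct k, hk⟩

omit [TopologicalSpace α] in
theorem ShAt.finite (h : ShAt Q S x₀) : (S x₀).Finite := by
  obtain ⟨m, y, h⟩ := h
  rw [h.ev.self_of_nhds.2]
  exact finite_range _

omit [TopologicalSpace α] in
theorem Shs.ncard [Finite κ] {y : κ → X → α} (h : Shs Q S x₀ y) :
    ∀ᶠ x in 𝓝 x₀, (S x).ncard = Nat.card κ := h.ev.mono fun x hx => by
  rw [hx.2, ncard_range_of_injective hx.1]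

omit [TopologicalSpace α] in
/-- The number of points is locally constant. -/
theorem ShAt.ncard (h : ShAt Q S x₀) : ∀ᶠ x in 𝓝 x₀, (S x).ncard = (S x₀).ncard := by
  obtain ⟨m, y, h⟩ := h
  exact h.ncard.mono fun x hx => hx.trans h.ncard.self_of_nhds.symm

omit [TopologicalSpace α] in
theorem sel_subset (x : X) : Sel Q S T x ⊆ S x := fun _ ⟨_, h1, h2, _⟩ => h2 ▸ h1.mem

/-- Along a section, selection is the property `T` of the section. -/
theorem ShAt.mem_sel [T2Space α] (hQ : GP Q) (h : ShAt Q S x₀)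
    (hT : ∀ y y', y =ᶠ[𝓝 x₀] y' → T x₀ y → T x₀ y') {s : X → α} (hs : Sct Q S x₀ s) :
    s x₀ ∈ Sel Q S T x₀ ↔ T x₀ s :=
  ⟨fun ⟨y, h1, h2, h3⟩ => hT _ _ (h.unique hQ h1 hs h2) h3, fun h3 => ⟨s, hs, rfl, h3⟩⟩

/-- The sheets of the selected set. -/
theorem Shs.sel [Finite κ] [T2Space α] (hQ : GP Q) {y : κ → X → α} (h : Shs Q S x₀ y)
    (hT : ∀ x y y', y =ᶠ[𝓝 x] y' → T x y → T x y')
    (hA : ∀ k, (∀ᶠ x in 𝓝 x₀, T x (y k)) ∨ ∀ᶠ x in 𝓝 x₀, ¬ T x (y k)) :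
    Shs Q (Sel Q S T) x₀ fun k : {k // T x₀ (y k)} => y k := by
  refine ⟨fun k => h.q k, ?_⟩
  have h1 : ∀ᶠ x in 𝓝 x₀, ∀ k, (T x (y k) ↔ T x₀ (y k)) := by
    refine eventually_all.2 fun k => ?_
    rcases hA k with h2 | h2
    · exact h2.mono fun x hx => iff_of_true hx h2.self_of_nhds
    · exact h2.mono fun x hx => iff_of_false hx h2.self_of_nhds
  filter_upwards [h1, h.eventually hQ] with x h2 h3
  have h4 := h3.ev.self_of_nhds
  refine ⟨h4.1.comp Subtype.val_injective, Set.ext fun a => ⟨fun ha => ?_, ?_⟩⟩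
  · have h5 := sel_subset x ha
    rw [h4.2] at h5
    obtain ⟨k, rfl⟩ := h5
    exact ⟨⟨k, (h2 k).1 ((h3.shAt.mem_sel hQ (hT x) (h3.sct k)).1 ha)⟩, rfl⟩
  · rintro ⟨k, rfl⟩
    exact ⟨y k, h3.sct k, rfl, (h2 k).2 k.2⟩

/-- Selection by a property that holds along a section everywhere or nowhere. -/
theorem ShAt.sel [T2Space α] (hQ : GP Q) (h : ShAt Q S x₀)
    (hT : ∀ x y y', y =ᶠ[𝓝 x] y' → T x y → T x y')
    (hA : ∀ s, Sct Q S x₀ s → (∀ᶠ x in 𝓝 x₀, T x s) ∨ ∀ᶠ x in 𝓝 x₀, ¬ T x s) :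
    ShAt Q (Sel Q S T) x₀ := by
  obtain ⟨m, y, h⟩ := h
  exact (h.sel hQ hT fun k => hA _ (h.sct k)).shAt

/-- The sections of the selected set. -/
theorem ShAt.sct_sel [T2Space α] (hQ : GP Q) (h : ShAt Q S x₀)
    (hT : ∀ x y y', y =ᶠ[𝓝 x] y' → T x y → T x y') {s : X → α} :
    Sct Q (Sel Q S T) x₀ s ↔ Sct Q S x₀ s ∧ ∀ᶠ x in 𝓝 x₀, T x s := by
  constructor
  · intro hs
    have h1 : Sct Q S x₀ s := hs.mono (Eventually.of_forall sel_subset)
    refine ⟨h1, ?_⟩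
    filter_upwards [hs.2, h1.eventually hQ, h.eventually hQ] with x h2 h3 h4
    exact (h4.mem_sel hQ (hT x) h3).1 h2
  · rintro ⟨h1, h2⟩
    refine ⟨h1.1, ?_⟩
    filter_upwards [h2, h1.eventually hQ] with x h3 h4
    exact ⟨s, h4, rfl, h3⟩

omit [TopologicalSpace α] in
/-- Selection by a pointwise condition. -/
theorem ShAt.sep (h : ShAt Q S x₀) {R : X → α → Prop}
    (hA : ∀ s, Sct Q S x₀ s → (∀ᶠ x in 𝓝 x₀, R x (s x)) ∨ ∀ᶠ x in 𝓝 x₀, ¬ R x (s x)) :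
    ShAt Q (fun x => {a ∈ S x | R x a}) x₀ := by
  obtain ⟨m, y, h⟩ := h
  refine Shs.shAt (κ := {k // R x₀ (y k x₀)}) (y := fun k => y k) ⟨fun k => h.q k, ?_⟩
  have h1 : ∀ᶠ x in 𝓝 x₀, ∀ k, (R x (y k x) ↔ R x₀ (y k x₀)) := by
    refine eventually_all.2 fun k => ?_
    rcases hA _ (h.sct k) with h2 | h2
    · exact h2.mono fun x hx => iff_of_true hx h2.self_of_nhds
    · exact h2.mono fun x hx => iff_of_false hx h2.self_of_nhds
  filter_upwards [h1, h.ev] with x h2 h4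
  refine ⟨h4.1.comp Subtype.val_injective, Set.ext fun a => ⟨fun ha => ?_, ?_⟩⟩
  · have h5 := ha.1
    rw [h4.2] at h5
    obtain ⟨k, rfl⟩ := h5
    exact ⟨⟨k, (h2 k).1 ha.2⟩, rfl⟩
  · rintro ⟨k, rfl⟩
    exact ⟨h4.2 ▸ mem_range_self k.1, (h2 k).2 k.2⟩

section prod

variable {G : Type} [CommMonoid G]

omit [TopologicalSpace α] in
theorem Shs.prod [Fintype κ] {y : κ → X → α} (h : Shs Q S x₀ y) (g : X → α → G) :
    ∀ᶠ x in 𝓝 x₀, ∏ᶠ a ∈ S x, g x a = ∏ k, g x (y k x) := h.ev.mono fun x hx => by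
  rw [hx.2, finprod_mem_range hx.1, finprod_eq_prod_of_fintype]

omit [TopologicalSpace α] in
/-- A property of germs at `x₀` that is stable under products passes to the product over `S`. -/
theorem ShAt.prod_ind (h : ShAt Q S x₀) {g : X → α → G} {H : (X → G) → Prop}
    (cg : ∀ f f', f =ᶠ[𝓝 x₀] f' → H f → H f') (h1 : H fun _ => 1)
    (hm : ∀ f f', H f → H f' → H fun x => f x * f' x)
    (hs : ∀ s, Sct Q S x₀ s → H fun x => g x (s x)) : H fun x => ∏ᶠ a ∈ S x, g x a := by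
  obtain ⟨m, y, h⟩ := h
  refine cg _ _ (EventuallyEq.symm (h.prod g)) ?_
  have : ∀ t : Finset (Fin m), H fun x => ∏ k ∈ t, g x (y k x) := fun t => by
    induction t using Finset.induction_on with
    | empty => simpa using h1
    | insert k t hk ih => simpa only [Finset.prod_insert hk] using hm _ _ (hs _ (h.sct k)) ih
  exact this _

end prod

section sum

variable {G : Type} [AddCommMonoid G]

omit [TopologicalSpace α] in
theorem Shs.sum [Fintype κ] {y : κ → X → α} (h : Shs Q S x₀ y) (g : X → α → G) :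
    ∀ᶠ x in 𝓝 x₀, ∑ᶠ a ∈ S x, g x a = ∑ k, g x (y k x) := h.ev.mono fun x hx => by
  rw [hx.2, finsum_mem_range hx.1, finsum_eq_sum_of_fintype]

omit [TopologicalSpace α] in
/-- A property of germs at `x₀` that is stable under sums passes to the sum over `S`. -/
theorem ShAt.sum_ind (h : ShAt Q S x₀) {g : X → α → G} {H : (X → G) → Prop}
    (cg : ∀ f f', f =ᶠ[𝓝 x₀] f' → H f → H f') (h1 : H fun _ => 0)
    (hm : ∀ f f', H f → H f' → H fun x => f x + f' x)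
    (hs : ∀ s, Sct Q S x₀ s → H fun x => g x (s x)) : H fun x => ∑ᶠ a ∈ S x, g x a := by
  obtain ⟨m, y, h⟩ := h
  refine cg _ _ (EventuallyEq.symm (h.sum g)) ?_
  have : ∀ t : Finset (Fin m), H fun x => ∑ k ∈ t, g x (y k x) := fun t => by
    induction t using Finset.induction_on with
    | empty => simpa using h1
    | insert k t hk ih => simpa only [Finset.sum_insert hk] using hm _ _ (hs _ (h.sct k)) ih
  exact this _

end sum

section bound

variable {A : Set α} {N : ℕ} {B : ℝ}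

omit [TopologicalSpace α]

theorem norm_finprod_le (hA : A.Finite) (hN : A.ncard ≤ N) (hB : 1 ≤ B) {g : α → ℂ}
    (hg : ∀ a ∈ A, ‖g a‖ ≤ B) : ‖∏ᶠ a ∈ A, g a‖ ≤ B ^ N := by
  rw [finprod_mem_eq_finite_toFinset_prod _ hA, norm_prod]
  refine (Finset.prod_le_prod (g := fun _ => B) (fun _ _ => norm_nonneg _)
    fun a ha => hg a (hA.mem_toFinset.1 ha)).trans ?_
  rw [Finset.prod_const]
  exact pow_le_pow_right₀ hB (by rwa [← ncard_eq_toFinset_card _ hA])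

/-- A lower bound for the product bounds each factor from below. -/
theorem norm_finprod_le_mul (hA : A.Finite) (hN : A.ncard ≤ N) (hB : 1 ≤ B) {g : α → ℂ}
    (hg : ∀ a ∈ A, ‖g a‖ ≤ B) {a : α} (ha : a ∈ A) : ‖∏ᶠ a ∈ A, g a‖ ≤ ‖g a‖ * B ^ N := by
  have h1 : a ∉ A \ {a} := fun h => h.2 rfl
  have h2 := finprod_mem_insert g h1 (hA.subset sdiff_subset)
  rw [insert_sdiff_singleton, insert_eq_of_mem ha] at h2
  rw [h2, norm_mul]
  exact mul_le_mul_of_nonneg_left (norm_finprod_le (hA.subset sdiff_subset)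
    ((ncard_le_ncard sdiff_subset hA).trans hN) hB fun b hb => hg b hb.1) (norm_nonneg _)

theorem finprod_ne_zero_iff (hA : A.Finite) {g : α → ℂ} :
    ∏ᶠ a ∈ A, g a ≠ 0 ↔ ∀ a ∈ A, g a ≠ 0 := by
  rw [finprod_mem_eq_finite_toFinset_prod _ hA, Finset.prod_ne_zero_iff]
  simp only [hA.mem_toFinset]

theorem norm_finsum_le {F : Type} [NormedAddCommGroup F] (hA : A.Finite) (hN : A.ncard ≤ N)
    (hB : 0 ≤ B) {g : α → F} (hg : ∀ a ∈ A, ‖g a‖ ≤ B) : ‖∑ᶠ a ∈ A, g a‖ ≤ N * B := by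
  rw [finsum_mem_eq_finite_toFinset_sum _ hA]
  refine (norm_sum_le _ _).trans
    ((Finset.sum_le_card_nsmul _ _ B fun a ha => hg a (hA.mem_toFinset.1 ha)).trans ?_)
  rw [nsmul_eq_mul, ← ncard_eq_toFinset_card _ hA]
  exact mul_le_mul_of_nonneg_right (Nat.cast_le.2 hN) hB

end bound

end Pool.Agent.Lib.RA
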