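import Pool.Agent.Lib.HS32.B_HOL

/-! Pluriharmonic functions on convex sets are real parts of holomorphic functions. -/

open scoped Topology ContDiff
open Set Metric Complex

noncomputable section

namespace Pool.Agent.Lib.RA

open Pool.Agent.Lib.SV (E)
open Pool.Agent.Lib.HS32

/-- A smooth real function with vanishing complex Hessian on a convex open set is twice the real
part of a holomorphic function, whose derivatives are those of the function. -/
def St_PH : Prop := ∀ (n : ℕ) (U : Set (E n)) (f : E n → ℝ), IsOpen U → Convex ℝ U →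
  (∀ z ∈ U, ContDiffAt ℝ ∞ f z) → (∀ z ∈ U, hess (fun w => (f w : ℂ)) z = 0) →
    ∃ A : E n → ℂ, DifferentiableOn ℂ A U ∧ (∀ z ∈ U, f z = 2 * (A z).re) ∧
      ∀ z ∈ U, ∀ j, dz j A z = dz j (fun w => (f w : ℂ)) z

/-- A closed holomorphic form of degree one on a convex open set has a primitive. -/
theorem exists_primitive {n : ℕ} {U : Set (E n)} (ho : IsOpen U) (hc : Convex ℝ U)
    {p : Fin n → E n → ℂ} (hp : ∀ j, ∀ z ∈ U, DifferentiableAt ℂ (p j) z)
    (hs : ∀ z ∈ U, ∀ i j, dz i (p j) z = dz j (p i) z) :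
    ∃ A : E n → ℂ, ∀ z ∈ U,
      HasFDerivAt A (∑ j, p j z • ContinuousLinearMap.proj j : E n →L[ℂ] ℂ) z := by
  have hd := fun z (hz : z ∈ U) => HasFDerivAt.fun_sum (u := Finset.univ) fun j _ =>
    ((hp j z hz).restrictScalars ℝ).hasFDerivAt.smul_const
      (ContinuousLinearMap.proj j : E n →L[ℂ] ℂ)
  refine hc.exists_forall_hasFDerivAt_of_fderiv_symmetric ho
    (fun z hz => (hd z hz).differentiableAt.differentiableWithinAt) fun z hz x y => ?_
  rw [(hd z hz).fderiv]
  simp only [sum_apply, ContinuousLinearMap.smulRight_apply,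
    smul_apply, ContinuousLinearMap.proj_apply, smul_eq_mul, fderiv_eq_sum,
    fun j i => BHOL.dzb_zero (hp j z hz) i, zero_mul, add_zero, Finset.sum_mul]
  rw [Finset.sum_comm]
  refine Finset.sum_congr rfl fun i _ => Finset.sum_congr rfl fun j _ => ?_
  rw [hs z hz i j]
  ring

theorem st_PH : St_PH := by
  intro n U f ho hc hf hh
  have hF := fun z hz => cd_ofReal (hf z hz)
  obtain ⟨A, hA⟩ := exists_primitive ho hc (p := fun j => dz j fun w => (f w : ℂ))
    (fun j z hz => BHOL.diff_of (cd_diff (cd_dz (hF z hz) j)) fun i =>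
      congrFun (congrFun (hh z hz) i) j) fun z hz i j => dz_dz (hF z hz) i j
  have hg : ∀ z ∈ U, HasFDerivAt (fun w => f w - 2 * (A w).re) (0 : E n →L[ℝ] ℝ) z := by
    intro z hz
    have h1 := (cd_diff (hf z hz)).hasFDerivAt.sub
      ((reCLM.hasFDerivAt.comp z ((hA z hz).restrictScalars ℝ)).const_mul 2)
    refine h1.congr_fderiv ?_
    ext v
    have h2 := congrArg re (fderiv_eq_sum (fun w => (f w : ℂ)) z v)
    rw [fderiv_ofReal (cd_diff (hf z hz)), ofReal_re] at h2
    simp only [← star_dz_ofReal (cd_diff (hF z hz))] at h2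
    simp [h2, Finset.mul_sum, ← Finset.sum_sub_distrib]
    exact Finset.sum_eq_zero fun j _ => by ring
  obtain ⟨c, hcc⟩ := ho.exists_is_const_of_fderiv_eq_zero hc.isPreconnected
    (fun z hz => (hg z hz).differentiableAt.differentiableWithinAt) fun z hz => (hg z hz).fderiv
  refine ⟨fun z => A z + (c / 2 : ℝ), fun z hz =>
    ((hA z hz).differentiableAt.add_const _).differentiableWithinAt, fun z hz => ?_,
    fun z hz j => ?_⟩
  · have := hcc z hz
    rw [add_re, ofReal_re]
    linarith
  · rw [BHOL.dz_eq ((hA z hz).differentiableAt.add_const _), fderiv_add_const, (hA z hz).fderiv]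
    simp [Pi.single_apply]

end Pool.Agent.Lib.RA
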