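import Mathlib

/-! Coercive functions on `ℝ^k`: no periods modulo constants, an invertible Hessian somewhere. -/

open scoped Topology
open Set Metric MeasureTheory Filter

noncomputable section

namespace Pool.Agent.Lib.RA

/-- A function that is coercive after subtraction of a linear form has no period modulo
constants. -/
def St_UNIQ : Prop := ∀ (V : Type) [NormedAddCommGroup V] [NormedSpace ℝ V] (g : V → ℝ)
  (b : V →L[ℝ] ℝ) (c C κ : ℝ) (d : V), 0 < c → (∀ ξ, c * ‖ξ‖ - C ≤ g ξ - b ξ) →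
  (∀ ξ, g (ξ + d) - g ξ = κ) → d = 0

/-- The gradient of a function on `ℝ^k`. -/
def grd {k : ℕ} (g : (Fin k → ℝ) → ℝ) (ξ : Fin k → ℝ) : Fin k → ℝ :=
  fun i => fderiv ℝ g ξ (Pi.single i 1)

/-- A coercive function of class `C^2` has an invertible Hessian at some point. -/
def St_SARD : Prop := ∀ (k : ℕ) (g : (Fin k → ℝ) → ℝ) (b : (Fin k → ℝ) →L[ℝ] ℝ) (c C : ℝ),
  0 < c → ContDiff ℝ 2 g → (∀ ξ, c * ‖ξ‖ - C ≤ g ξ - b ξ) →
  ∃ ξ, (fderiv ℝ (grd g) ξ).det ≠ 0 ∧ (fderiv ℝ (grd g) ξ).IsInvertible ∧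
    (fderiv ℝ (fderiv ℝ g) ξ).IsInvertible

theorem st_UNIQ : St_UNIQ := by
  intro V _ _ g b c C κ d hc hg hp
  have h1 : ∀ m : ℕ, g ((m : ℝ) • d) = g 0 + m * κ ∧ g (-((m : ℝ) • d)) = g 0 - m * κ := by
    intro m
    induction m with
    | zero => simp
    | succ m ih =>
      have h2 := hp ((m : ℝ) • d)
      have h3 := hp (-(((m + 1 : ℕ) : ℝ) • d))
      have e1 : (((m + 1 : ℕ) : ℝ) • d) = (m : ℝ) • d + d := by
        rw [Nat.cast_succ, add_smul, one_smul]
      have e2 : -(((m + 1 : ℕ) : ℝ) • d) + d = -((m : ℝ) • d) := by rw [e1]; abel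
      rw [e2] at h3
      constructor
      · rw [e1]; push_cast; linarith [ih.1]
      · push_cast at h3 ⊢; linarith [ih.2]
  by_contra hd
  have hd0 : 0 < c * ‖d‖ := mul_pos hc (norm_pos_iff.2 hd)
  obtain ⟨m, hm⟩ := exists_nat_gt ((g 0 + C) / (c * ‖d‖))
  rw [div_lt_iff₀ hd0] at hm
  have h2 := hg ((m : ℝ) • d)
  have h3 := hg (-((m : ℝ) • d))
  rw [(h1 m).1, norm_smul, Real.norm_natCast] at h2
  rw [(h1 m).2, norm_neg, norm_smul, Real.norm_natCast, map_neg] at h3
  nlinarith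

namespace SARD

variable {k : ℕ}

/-- Linear forms and their coefficient vectors. -/
def cf (k : ℕ) : ((Fin k → ℝ) →L[ℝ] ℝ) →L[ℝ] (Fin k → ℝ) :=
  ContinuousLinearMap.pi fun i => ContinuousLinearMap.apply ℝ ℝ (Pi.single i (1 : ℝ))

theorem cf_apply (l : (Fin k → ℝ) →L[ℝ] ℝ) (i : Fin k) : cf k l i = l (Pi.single i 1) := rfl

theorem eq_sum (l : (Fin k → ℝ) →L[ℝ] ℝ) (x : Fin k → ℝ) : l x = ∑ i, x i * cf k l i := by
  conv_lhs => rw [← Finset.univ_sum_single x]
  rw [map_sum]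
  refine Finset.sum_congr rfl fun i _ => ?_
  rw [cf_apply, ← smul_eq_mul, ← map_smul, ← Pi.single_smul, smul_eq_mul, mul_one]

theorem cf_inj : Function.Injective (cf k) := by
  intro l l' h
  ext1 x
  rw [eq_sum l, eq_sum l', h]

theorem cf_surj : Function.Surjective (cf k) := by
  intro p
  refine ⟨∑ i, p i • ContinuousLinearMap.proj i, ?_⟩
  ext j
  simp [cf_apply, Pi.single_apply]

theorem cf_inv : (cf k).IsInvertible :=
  ⟨ContinuousLinearEquiv.ofBijective (cf k) (LinearMap.ker_eq_bot.2 cf_inj)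
    (LinearMap.range_eq_top.2 cf_surj), rfl⟩

theorem grd_eq (g : (Fin k → ℝ) → ℝ) : grd g = fun ξ => cf k (fderiv ℝ g ξ) := rfl

/-- A continuous coercive function has a minimum. -/
theorem exists_min {V : Type} [NormedAddCommGroup V] [NormedSpace ℝ V] [FiniteDimensional ℝ V]
    {g : V → ℝ} {c C : ℝ} (hc : 0 < c) (hg : Continuous g) (h : ∀ ξ, c * ‖ξ‖ - C ≤ g ξ) :
    ∃ ξ, ∀ η, g ξ ≤ g η := by
  have := FiniteDimensional.proper_real V
  refine hg.exists_forall_le ?_
  refine tendsto_atTop_mono h ?_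
  exact tendsto_atTop_add_const_right _ (-C)
    ((tendsto_norm_cocompact_atTop (E := V)).const_mul_atTop hc)

end SARD

open SARD in
theorem st_SARD : St_SARD := by
  intro k g b c C hc hg hb
  have hd : Differentiable ℝ g := hg.differentiable (by norm_num)
  have hd2 : Differentiable ℝ (fderiv ℝ g) :=
    (hg.fderiv_right (m := 1) (by norm_num)).differentiable (by norm_num)
  have hG : ∀ ξ, HasFDerivAt (grd g) ((cf k).comp (fderiv ℝ (fderiv ℝ g) ξ)) ξ := fun ξ =>
    (cf k).hasFDerivAt.comp ξ (hd2 ξ).hasFDerivAt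
  have key : ∃ ξ, (fderiv ℝ (grd g) ξ).det ≠ 0 := by
    by_contra hn
    push Not at hn
    have h0 : volume (grd g '' univ) = 0 :=
      addHaar_image_eq_zero_of_det_fderivWithin_eq_zero volume (f' := fun ξ => fderiv ℝ (grd g) ξ)
        (fun ξ _ => (hG ξ).differentiableAt.hasFDerivAt.hasFDerivWithinAt) fun ξ _ => hn ξ
    obtain ⟨A, hA⟩ := cf_inv (k := k)
    have hop : IsOpen (A '' ball b (c / 2)) := A.toHomeomorph.isOpenMap _ isOpen_ball
    have hne : (A '' ball b (c / 2)).Nonempty := ⟨_, b, mem_ball_self (by positivity), rfl⟩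
    have hsub : A '' ball b (c / 2) ⊆ grd g '' univ := by
      rintro _ ⟨l, hl, rfl⟩
      obtain ⟨ξ, hξ⟩ := exists_min (g := fun ξ => g ξ - l ξ) (c := c / 2) (C := C) (by positivity)
        (hg.continuous.sub l.continuous) fun ξ => by
          have h1 := (l - b).le_opNorm ξ
          rw [mem_ball, dist_eq_norm] at hl
          have h2 : ‖l - b‖ * ‖ξ‖ ≤ c / 2 * ‖ξ‖ := mul_le_mul_of_nonneg_right hl.le (norm_nonneg _)
          rw [sub_apply, Real.norm_eq_abs] at h1
          have h3 := hb ξ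
          have h4 := le_abs_self (l ξ - b ξ)
          linarith
      have h5 : IsLocalMin (fun ξ => g ξ - l ξ) ξ := Eventually.of_forall hξ
      have h6 := h5.hasFDerivAt_eq_zero ((hd ξ).hasFDerivAt.sub l.hasFDerivAt)
      refine ⟨ξ, mem_univ _, ?_⟩
      show cf k (fderiv ℝ g ξ) = A l
      rw [sub_eq_zero.1 h6, ← hA]
      rfl
    exact (hop.measure_pos volume hne).ne' (measure_mono_null hsub h0)
  obtain ⟨ξ, hξ⟩ := key
  have hi : (fderiv ℝ (grd g) ξ).IsInvertible :=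
    ⟨(fderiv ℝ (grd g) ξ).toContinuousLinearEquivOfDetNeZero hξ, by
      rw [ContinuousLinearMap.coe_toContinuousLinearEquivOfDetNeZero]⟩
  refine ⟨ξ, hξ, hi, ?_⟩
  obtain ⟨A, hA⟩ := cf_inv (k := k)
  obtain ⟨B, hB⟩ := hi
  refine ⟨B.trans A.symm, ?_⟩
  ext1 v
  apply A.injective
  have h7 : B v = cf k (fderiv ℝ (fderiv ℝ g) ξ v) := by
    have := congrArg (fun L => L v) (hB.trans (hG ξ).fderiv)
    exact this
  rw [← hA] at h7
  simpa using h7

end Pool.Agent.Lib.RA
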