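import Mathlib

/-! A rational basis with integer coordinates for finitely many real numbers. -/

open Set Submodule

noncomputable section

namespace Pool.Agent.Lib.RA

/-- Finitely many reals are integer combinations of rationally independent reals, the first of
which is the inverse of a positive integer; and rational linear maps can be prescribed on them. -/
def St_QB : Prop := (∀ (ι : Type) [Finite ι] (r : ι → ℝ), ∃ (m q : ℕ) (lam : Fin (m + 1) → ℝ),
    0 < q ∧ lam 0 = 1 / q ∧ LinearIndependent ℚ lam ∧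
      ∀ i, ∃ a : Fin (m + 1) → ℤ, r i = ∑ j, a j * lam j) ∧
  ∀ (κ : Type) (lam t : κ → ℝ) (s : ℝ), LinearIndependent ℚ lam → s ≠ 0 →
    ∃ p : ℝ →ₗ[ℚ] ℝ, ∀ j, p (s * lam j) = t j

namespace QB

theorem ext_basis (T : Finset ℝ) : ∃ (m : ℕ) (β : Fin (m + 1) → ℝ), β 0 = 1 ∧
    LinearIndependent ℚ β ∧ ∀ x ∈ T, x ∈ span ℚ (range β) := by
  classical
  induction T using Finset.induction_on with
  | empty =>
    refine ⟨0, fun _ => 1, rfl, ?_, by simp⟩
    exact (linearIndependent_unique_iff (ι := Fin 1)).2 one_ne_zero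
  | insert x T hx ih =>
    obtain ⟨m, β, h0, hl, hs⟩ := ih
    by_cases h : x ∈ span ℚ (range β)
    · refine ⟨m, β, h0, hl, fun y hy => ?_⟩
      rcases Finset.mem_insert.1 hy with rfl | hy
      · exact h
      · exact hs y hy
    · refine ⟨m + 1, Fin.snoc β x, ?_, linearIndependent_finSnoc.2 ⟨hl, h⟩, fun y hy => ?_⟩
      · rw [← h0]
        exact Fin.snoc_castSucc (α := fun _ => ℝ) x β 0
      · rw [Fin.range_snoc]
        rcases Finset.mem_insert.1 hy with rfl | hy
        · exact subset_span (mem_insert _ _)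
        · exact span_mono (subset_insert _ _) (hs y hy)

theorem common_den {κ : Type} [Finite κ] (c : κ → ℚ) : ∃ q : ℕ, 0 < q ∧
    ∀ i, ∃ a : ℤ, (a : ℚ) = c i * q := by
  have := Fintype.ofFinite κ
  refine ⟨∏ i, (c i).den, Finset.prod_pos fun i _ => (c i).den_pos, fun i => ?_⟩
  obtain ⟨d, hd⟩ : (c i).den ∣ ∏ i, (c i).den := Finset.dvd_prod_of_mem _ (Finset.mem_univ i)
  refine ⟨(c i).num * d, ?_⟩
  rw [hd]
  push_cast
  rw [← mul_assoc, Rat.mul_den_eq_num]

end QB

theorem st_QB : St_QB := by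
  classical
  refine ⟨fun ι _ r => ?_, fun κ lam t s hl hs => ?_⟩
  · have := Fintype.ofFinite ι
    obtain ⟨m, β, h0, hl, hs⟩ := QB.ext_basis (Finset.univ.image r)
    have h1 : ∀ i, ∃ c : Fin (m + 1) → ℚ, ∑ j, c j • β j = r i := fun i =>
      (mem_span_range_iff_exists_fun ℚ).1 (hs _ (Finset.mem_image_of_mem r (Finset.mem_univ i)))
    choose c hc using h1
    obtain ⟨q, hq, ha⟩ := QB.common_den fun p : ι × Fin (m + 1) => c p.1 p.2
    have hq0 : (q : ℚ) ≠ 0 := by exact_mod_cast hq.ne'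
    have hq1 : (q : ℝ) ≠ 0 := by exact_mod_cast hq.ne'
    choose a ha using ha
    refine ⟨m, q, fun j => β j / q, hq, by simp only [h0], ?_, fun i => ⟨fun j => a (i, j), ?_⟩⟩
    · have h2 := hl.units_smul fun _ => Units.mk0 ((q : ℚ)⁻¹) (inv_ne_zero hq0)
      have h3 : (fun j => β j / q) =
          (fun _ : Fin (m + 1) => Units.mk0 ((q : ℚ)⁻¹) (inv_ne_zero hq0)) • β := by
        funext j
        simp [Units.smul_def, Rat.smul_def, div_eq_inv_mul]
      rwa [h3]
    · rw [← hc i]
      refine Finset.sum_congr rfl fun j _ => ?_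
      have h4 : ((a (i, j) : ℤ) : ℝ) = (c i j : ℝ) * q := by exact_mod_cast ha (i, j)
      rw [h4, Rat.smul_def]
      field_simp
  · have h1 : LinearIndependent ℚ fun j => s * lam j :=
      hl.map' (LinearMap.mulLeft ℚ s) (LinearMap.ker_eq_bot.2 (mul_right_injective₀ hs))
    obtain ⟨p, hp⟩ := LinearMap.exists_extend ((Finsupp.linearCombination ℚ t).comp h1.repr)
    refine ⟨p, fun j => ?_⟩
    have h2 := congrArg (fun L => L ⟨s * lam j, subset_span ⟨j, rfl⟩⟩) hp
    simp only [LinearMap.comp_apply, subtype_apply] at h2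
    rw [h2, h1.repr_eq_single j _ rfl, Finsupp.linearCombination_single, one_smul]

end Pool.Agent.Lib.RA
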