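import Pool.Agent.Lib.RA.T_LD2
import Pool.Agent.Lib.RA.T_PH

/-! Pluriharmonic functions of logarithmic growth off a hypersurface. -/

open scoped Classical ContDiff
open Set Filter Topology Metric Complex Real

set_option linter.unusedVariables false

noncomputable section

namespace Pool.Agent.Lib.RA

open Pool.Agent.Lib.SV (E)
open Pool.Agent.Lib.HS32

/-- A pluriharmonic function of logarithmic growth off a hypersurface is a real combination of
logarithms of moduli of holomorphic functions, plus a pluriharmonic function. -/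
def St_LD : Prop := ∀ (n : ℕ) (g : E n → ℝ) (δ : E n → ℂ) (z₀ : E n) (C : ℝ), HolN δ z₀ →
  (∃ᶠ w in 𝓝 z₀, δ w ≠ 0) →
  (∀ᶠ w in 𝓝 z₀, δ w ≠ 0 → (∃ A : E n → ℂ, HolN A w ∧ ∀ᶠ x in 𝓝 w, g x = 2 * (A x).re) ∧
    |g w| ≤ C * (1 + |Real.log ‖δ w‖|)) →
  ∃ (m : ℕ) (r : Fin m → ℝ) (H : Fin m → E n → ℂ) (A : E n → ℂ), (∀ i, HolN (H i) z₀) ∧
    HolN A z₀ ∧ ∀ᶠ w in 𝓝 z₀, δ w ≠ 0 → (∀ i, H i w ≠ 0) ∧
      g w = ∑ i, r i * Real.log (normSq (H i w)) + 2 * (A w).re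

/-- The same with the vanishing of the complex Hessian as hypothesis. -/
def St_LDH : Prop := ∀ (n : ℕ) (g : E n → ℝ) (δ : E n → ℂ) (z₀ : E n) (C : ℝ), HolN δ z₀ →
  (∃ᶠ w in 𝓝 z₀, δ w ≠ 0) →
  (∀ᶠ w in 𝓝 z₀, δ w ≠ 0 → ContDiffAt ℝ ∞ g w ∧ hess (fun x => (g x : ℂ)) w = 0 ∧
    |g w| ≤ C * (1 + |Real.log ‖δ w‖|)) →
  ∃ (m : ℕ) (r : Fin m → ℝ) (H : Fin m → E n → ℂ) (A : E n → ℂ), (∀ i, HolN (H i) z₀) ∧
    HolN A z₀ ∧ ∀ᶠ w in 𝓝 z₀, δ w ≠ 0 → (∀ i, H i w ≠ 0) ∧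
      g w = ∑ i, r i * Real.log (normSq (H i w)) + 2 * (A w).re

namespace LD

/-- Matching of two finite sets through disjoint discs. -/
theorem comb {S T : Finset ℂ} {r s : ℂ → ℝ} {α : ℂ → ℂ} {ε : ℝ}
    (hd : ∀ a ∈ S, ∀ b ∈ S, ∀ x ∈ ball a ε, x ∈ ball b ε → a = b) (hc : T.card ≤ S.card)
    (hr : ∀ a ∈ S, r a ≠ 0)
    (h0 : ∀ a ∈ S, ∑ b ∈ T.filter (· ∈ ball a ε), (s b : ℂ) * b ^ 0 = r a)
    (h1 : ∀ a ∈ S, α a = (∑ b ∈ T.filter (· ∈ ball a ε), (s b : ℂ) * b ^ 1) / r a) :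
    InjOn α S ∧ T = S.image α ∧ ∀ a ∈ S, s (α a) = r a := by
  have h2 : ∀ a, ∃ b, a ∈ S → b ∈ T ∧ b ∈ ball a ε := fun a => by
    by_cases ha : a ∈ S
    · obtain ⟨b, hb, -⟩ := Finset.exists_ne_zero_of_sum_ne_zero
        ((h0 a ha).trans_ne (ofReal_ne_zero.2 (hr a ha)))
      exact ⟨b, fun _ => Finset.mem_filter.1 hb⟩
    · exact ⟨0, fun h => absurd h ha⟩
  choose β hβ using h2
  have hi : InjOn β S := fun a ha b hb e => hd a ha b hb _ (hβ a ha).2 (e ▸ (hβ b hb).2)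
  have hT : S.image β = T := Finset.eq_of_subset_of_card_le
    (Finset.image_subset_iff.2 fun a ha => (hβ a ha).1) (by rwa [Finset.card_image_of_injOn hi])
  have hf : ∀ a ∈ S, T.filter (· ∈ ball a ε) = {β a} := fun a ha =>
    Finset.eq_singleton_iff_unique_mem.2 ⟨Finset.mem_filter.2 (hβ a ha), fun x hx => by
      obtain ⟨h3, h4⟩ := Finset.mem_filter.1 hx
      obtain ⟨b, hb, rfl⟩ := Finset.mem_image.1 (hT ▸ h3)
      rw [hd a ha b hb _ h4 (hβ b hb).2]⟩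
  have hs : ∀ a ∈ S, s (β a) = r a := fun a ha => by
    have h3 := h0 a ha
    rw [hf a ha] at h3
    simpa using h3
  have he : ∀ a ∈ S, α a = β a := fun a ha => by
    rw [h1 a ha, hf a ha, Finset.sum_singleton, hs a ha, pow_one,
      mul_div_cancel_left₀ _ (ofReal_ne_zero.2 (hr a ha))]
  exact ⟨hi.congr fun a ha => (he a ha).symm, hT ▸ Finset.image_congr fun a ha => (he a ha).symm,
    fun a ha => by rw [he a ha, hs a ha]⟩

variable {V : Type} [NormedAddCommGroup V] [NormedSpace ℂ V]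

theorem diff_prod {ι : Type} {u : Finset ι} {f : ι → V → ℂ} {z : V}
    (h : ∀ i ∈ u, DifferentiableAt ℂ (f i) z) :
    DifferentiableAt ℂ (fun y => ∏ i ∈ u, f i y) z :=
  (HasFDerivAt.finsetProd fun i hi => (h i hi).hasFDerivAt).differentiableAt

variable [FiniteDimensional ℂ V]

/-- Where the number of poles is maximal they move holomorphically with constant residues. -/
theorem loc {δ θ : V → ℂ} {O B : Set V} {e : V} {S : V → Finset ℂ} {r : V → ℂ → ℝ} {N : ℕ}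
    (hO : IsOpen O) (hδ : DifferentiableOn ℂ δ O)
    (hθ : DifferentiableOn ℂ θ {w | w ∈ O ∧ δ w ≠ 0}) (hB : IsOpen B)
    (hm : ∀ z ∈ B, ∀ t ∈ closedBall (0 : ℂ) 1, z + t • e ∈ O)
    (hs : ∀ z ∈ B, ∀ t ∈ sphere (0 : ℂ) 1, δ (z + t • e) ≠ 0)
    (hS : ∀ z ∈ B, ∀ a ∈ S z, ‖a‖ < 1 ∧ δ (z + a • e) = 0 ∧ r z a ≠ 0)
    (hJ : ∀ z ∈ B, ∀ (c : ℂ) (ε : ℝ) (k : ℕ), 0 < ε → closedBall c ε ⊆ closedBall 0 1 →
      (∀ x ∈ sphere c ε, δ (z + x • e) ≠ 0) →
      circleAverage (fun x => (x - c) * x ^ k * θ (z + x • e)) c ε =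
        ∑ a ∈ (S z).filter (· ∈ ball c ε), r z a * a ^ k)
    (hN : ∀ z ∈ B, (S z).card ≤ N) {z₁ : V} (h1 : z₁ ∈ B) (hc : (S z₁).card = N) :
    ∃ α : ℂ → V → ℂ, (∀ a ∈ S z₁, DifferentiableAt ℂ (α a) z₁) ∧ ∀ᶠ z in 𝓝 z₁,
      InjOn (α · z) (S z₁) ∧ S z = (S z₁).image (α · z) ∧ ∀ a ∈ S z₁, r z (α a z) = r z₁ a := by
  have hU : IsOpen {w | w ∈ O ∧ δ w ≠ 0} :=
    hδ.continuousOn.isOpen_inter_preimage hO isOpen_compl_singleton
  have hL : Differentiable ℂ fun t : ℂ => z₁ + t • e := by fun_prop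
  obtain ⟨ε, hε, hP⟩ : ∃ ε : ℝ, 0 < ε ∧ ∀ a ∈ S z₁, closedBall a ε ⊆ closedBall 0 1 ∧
      (∀ x ∈ sphere a ε, δ (z₁ + x • e) ≠ 0) ∧ ∀ b ∈ S z₁, a ≠ b → ε < dist a b / 2 := by
    refine (Eventually.and (f := 𝓝[>] (0 : ℝ)) self_mem_nhdsWithin
      ((eventually_all_finset _).2 fun a ha => ?_)).exists
    have h2 := (hS z₁ h1 a ha).1
    obtain ⟨ρ, hρ, h3⟩ := Metric.eventually_nhds_iff_ball.1 (eventually_nhdsWithin_iff.1
      (isolated (hO.preimage hL.continuous) (hm z₁ h1) (hδ.comp hL.differentiableOn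
        (mapsTo_preimage _ _)) (hs z₁ h1) (mem_closedBall_zero_iff.2 h2.le)))
    filter_upwards [self_mem_nhdsWithin, eventually_nhdsWithin_of_eventually_nhds
      ((gt_mem_nhds hρ).and ((gt_mem_nhds (sub_pos.2 h2)).and ((eventually_all_finset (S z₁)).2
        fun b _ => eventually_imp_distrib_left.2 fun hb : a ≠ b =>
          gt_mem_nhds (half_pos (dist_pos.2 hb)))))] with ε h4 h5
    refine ⟨closedBall_subset_closedBall' (by rw [dist_zero_right]; linarith [h5.2.1]),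
      fun x hx => h3 x ((mem_sphere.1 hx).trans_lt h5.1) ?_, h5.2.2⟩
    exact ne_of_mem_sphere hx (ne_of_gt h4)
  have hd : ∀ a ∈ S z₁, ∀ b ∈ S z₁, ∀ x ∈ ball a ε, x ∈ ball b ε → a = b := by
    intro a ha b hb x h2 h3
    by_contra hne
    linarith [(hP a ha).2.2 b hb hne, dist_triangle_left a b x, mem_ball.1 h2, mem_ball.1 h3]
  have hv : ∀ᶠ z in 𝓝 z₁, z ∈ B ∧ ∀ a ∈ S z₁, ∀ x ∈ sphere a ε,
      z + x • e ∈ {w | w ∈ O ∧ δ w ≠ 0} := by
    refine Eventually.and (hB.mem_nhds h1) ((eventually_all_finset _).2 fun a ha => ?_)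
    refine (isCompact_sphere a ε).eventually_forall_of_forall_eventually fun t ht => ?_
    have h3 : Continuous fun z : V × ℂ => z.1 + z.2 • e := by fun_prop
    exact (h3.tendsto (z₁, t)).eventually (hU.mem_nhds
      ⟨hm z₁ h1 t ((hP a ha).1 (sphere_subset_closedBall ht)), (hP a ha).2.1 t ht⟩)
  set J : ℕ → ℂ → V → ℂ := fun k a z =>
    circleAverage (fun x => (x - a) * x ^ k * θ (z + x • e)) a ε with hJd
  have hJe : ∀ᶠ z in 𝓝 z₁, ∀ k, ∀ a ∈ S z₁, DifferentiableAt ℂ (J k a) z ∧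
      J k a z = ∑ b ∈ (S z).filter (· ∈ ball a ε), r z b * b ^ k := hv.mono fun z hz k a ha =>
    ⟨diff_avg hU hθ e a hε.le k (hz.2 a ha),
      hJ z hz.1 a ε k hε (hP a ha).1 fun x hx => (hz.2 a ha x hx).2⟩
  have hJ0 : ∀ᶠ z in 𝓝 z₁, ∀ a ∈ S z₁, J 0 a z = r z₁ a := (eventually_all_finset _).2 fun a ha => by
    have h2 : J 0 a z₁ = r z₁ a := by
      rw [(hJe.self_of_nhds 0 a ha).2, Finset.eq_singleton_iff_unique_mem.2
        ⟨Finset.mem_filter.2 ⟨ha, mem_ball_self hε⟩, fun x hx => hd x (Finset.mem_filter.1 hx).1 a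
          ha x (mem_ball_self hε) (Finset.mem_filter.1 hx).2⟩]
      simp
    rw [← h2]
    exact const_of_real (hJe.mono fun z hz => (hz 0 a ha).1)
      (hJe.mono fun z hz => by simp [(hz 0 a ha).2])
  refine ⟨fun a z => J 1 a z / r z₁ a, fun a ha => ?_, ?_⟩
  · simpa only [div_eq_mul_inv] using (hJe.self_of_nhds 1 a ha).1.mul_const _
  · filter_upwards [hv, hJe, hJ0] with z h2 h3 h4
    exact comb hd (hc ▸ hN z h2.1) (fun a ha => (hS z₁ h1 a ha).2.2)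
      (fun a ha => (h3 0 a ha).2.symm.trans (h4 a ha)) fun a ha => by rw [(h3 1 a ha).2]

/-- Poles, residues and the mean value formula on the discs of a family. -/
theorem data {g : V → ℝ} {δ : V → ℂ} {O B : Set V} {e : V} {C : ℝ} (hC : 0 < C) (hO : IsOpen O)
    (hδ : DifferentiableOn ℂ δ O)
    (hg : ∀ w ∈ O, δ w ≠ 0 → PHat g w ∧ |g w| ≤ C * (1 + |Real.log ‖δ w‖|))
    (hm : ∀ z ∈ B, ∀ t ∈ closedBall (0 : ℂ) 1, z + t • e ∈ O)
    (hs : ∀ z ∈ B, ∀ t ∈ sphere (0 : ℂ) 1, δ (z + t • e) ≠ 0) :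
    ∃ (θ : V → ℂ) (S : V → Finset ℂ) (r : V → ℂ → ℝ),
      DifferentiableOn ℂ θ {w | w ∈ O ∧ δ w ≠ 0} ∧
      (∀ z ∈ B, ∀ a ∈ S z, ‖a‖ < 1 ∧ δ (z + a • e) = 0 ∧ r z a ≠ 0) ∧
      (∀ z ∈ B, ∀ (c : ℂ) (ε : ℝ) (k : ℕ), 0 < ε → closedBall c ε ⊆ closedBall 0 1 →
        (∀ x ∈ sphere c ε, δ (z + x • e) ≠ 0) →
        circleAverage (fun x => (x - c) * x ^ k * θ (z + x • e)) c ε =
          ∑ a ∈ (S z).filter (· ∈ ball c ε), r z a * a ^ k) ∧
      ∀ z ∈ B, δ z ≠ 0 → g z = ∑ a ∈ S z, r z a * Real.log (normSq a) +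
        circleAverage (fun t => g (z + t • e)) 0 1 := by
  obtain ⟨L, hw'⟩ := exists_form g
  have h1 := fun w hw h => diff_form hw' (hg w hw h).1
  have hθ : ∀ w ∈ O, δ w ≠ 0 → DifferentiableAt ℂ (fun w => L w e) w := fun w hw h =>
    (h1 w hw h).1.clm_apply (differentiableAt_const e)
  have h2 : ∀ z : V, ∃ (S : Finset ℂ) (r : ℂ → ℝ) (ψ : ℂ → ℂ), z ∈ B →
      (∀ a ∈ S, ‖a‖ < 1 ∧ δ (z + a • e) = 0 ∧ r a ≠ 0) ∧ DifferentiableOn ℂ ψ (closedBall 0 1) ∧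
      (∀ x : ℂ, δ (z + x • e) ≠ 0 → L (z + x • e) e = ∑ a ∈ S, r a / (x - a) + ψ x) ∧
      (δ (z + (0 : ℂ) • e) ≠ 0 → g (z + (0 : ℂ) • e) = ∑ a ∈ S, r a * Real.log (normSq a) +
        circleAverage (fun t => g (z + t • e)) 0 1) := fun z => by
    by_cases hz : z ∈ B
    · have hL : ∀ x, HasDerivAt (fun t : ℂ => z + t • e) e x := fun x => by
        simpa using ((hasDerivAt_id x).smul_const e).const_add z
      have hD : Differentiable ℂ fun t : ℂ => z + t • e := fun x => (hL x).differentiableAt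
      obtain ⟨S, r, ψ, h⟩ := frac (g := fun t => g (z + t • e)) (θ := fun t => L (z + t • e) e)
        (d := fun t => δ (z + t • e)) hC (hO.preimage hD.continuous) (hm z hz)
        (hδ.comp hD.differentiableOn (mapsTo_preimage _ _)) (hs z hz) fun x hx h => by
          refine ⟨DifferentiableAt.comp (g := fun w => L w e) x (hθ _ hx h) (hD x), ?_, (hg _ hx h).2⟩
          refine ((h1 _ hx h).2.1.comp x ((hL x).hasFDerivAt.restrictScalars ℝ)).congr_fderiv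
            (ContinuousLinearMap.ext fun v => ?_)
          simp [mul_comm]
      exact ⟨S, r, ψ, fun _ => h⟩
    · exact ⟨∅, 0, 0, fun h => absurd h hz⟩
  choose S r ψ h2 using h2
  refine ⟨fun w => L w e, S, r, fun w hw => (hθ w hw.1 hw.2).differentiableWithinAt,
    fun z hz => (h2 z hz).1, fun z hz c ε k hε h3 h4 => avg hε k ((h2 z hz).2.1.mono h3)
      (fun a ha h5 => h4 a h5 ((h2 z hz).1 a ha).2.1) fun x hx => (h2 z hz).2.2.1 x (h4 x hx),
    fun z hz => ?_⟩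
  simpa using (h2 z hz).2.2.2

theorem main {g : V → ℝ} {δ : V → ℂ} {z₀ : V} {C : ℝ}
    (hδ : ∀ᶠ w in 𝓝 z₀, DifferentiableAt ℂ δ w) (h0 : ∃ᶠ w in 𝓝 z₀, δ w ≠ 0)
    (hg : ∀ᶠ w in 𝓝 z₀, δ w ≠ 0 → PHat g w ∧ |g w| ≤ C * (1 + |Real.log ‖δ w‖|)) :
    ∃ (m : ℕ) (r : Fin m → ℝ) (H : Fin m → V → ℂ) (A : V → ℂ),
      (∀ i, ∀ᶠ w in 𝓝 z₀, DifferentiableAt ℂ (H i) w) ∧ (∀ᶠ w in 𝓝 z₀, DifferentiableAt ℂ A w) ∧
      ∀ᶠ w in 𝓝 z₀, δ w ≠ 0 → (∀ i, H i w ≠ 0) ∧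
        g w = ∑ i, r i * Real.log (normSq (H i w)) + 2 * (A w).re := by
  obtain ⟨s, hs0, hb⟩ := Metric.eventually_nhds_iff_ball.1 (hδ.and (hg.and
    (hδ.self_of_nhds.continuousAt.norm.eventually (gt_mem_nhds (lt_add_one ‖δ z₀‖)))))
  have hd : DifferentiableOn ℂ δ (ball z₀ s) := fun w hw => (hb w hw).1.differentiableWithinAt
  have h5 : ball z₀ (s / 5) ⊆ ball z₀ s := ball_subset_ball (by linarith)
  obtain ⟨e, ρ, c, hρ, hc, hy⟩ := (st_XPM V).1 (ball z₀ (s / 5)) δ z₀ isOpen_ball (hd.mono h5)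
    (mem_ball_self (by positivity)) h0
  set B := ball z₀ ρ
  have hB : IsOpen B := isOpen_ball
  have hz₀ : z₀ ∈ B := mem_ball_self hρ
  have hm : ∀ z ∈ B, ∀ t ∈ closedBall (0 : ℂ) 4, z + t • e ∈ ball z₀ s := fun z hz t ht => by
    have h1 := (hy z hz).1 0 (mem_closedBall_self zero_le_one)
    have h2 := (hy z₀ hz₀).1 1 (by simp)
    rw [mem_ball, dist_eq_norm] at h1 h2 ⊢
    rw [zero_smul, add_zero] at h1
    rw [one_smul, add_sub_cancel_left] at h2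
    rw [add_sub_right_comm]
    refine (norm_add_le _ _).trans_lt ?_
    rw [norm_smul]
    nlinarith [mem_closedBall_zero_iff.1 ht, norm_nonneg e]
  have hm1 : ∀ z ∈ B, ∀ t ∈ closedBall (0 : ℂ) 1, z + t • e ∈ ball z₀ s := fun z hz t ht =>
    h5 ((hy z hz).1 t ht)
  have hBs : ∀ z ∈ B, z ∈ ball z₀ s := fun z hz => by
    simpa using hm1 z hz 0 (mem_closedBall_self zero_le_one)
  have hs : ∀ z ∈ B, ∀ t ∈ sphere (0 : ℂ) 1, δ (z + t • e) ≠ 0 := fun z hz t ht =>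
    norm_pos_iff.1 (hc.trans_le ((hy z hz).2 t ht))
  obtain ⟨θ, S, r, hθ, hS, hJ, hF⟩ := data (g := g) (C := |C| + 1) (by positivity) isOpen_ball hd
    (fun w hw h => ⟨((hb w hw).2.1 h).1, ((hb w hw).2.1 h).2.trans (mul_le_mul_of_nonneg_right
      (by linarith [le_abs_self C]) (by positivity))⟩) hm1 hs
  have hU : IsOpen {w | w ∈ ball z₀ s ∧ δ w ≠ 0} :=
    hd.continuousOn.isOpen_inter_preimage isOpen_ball isOpen_compl_singleton
  have hbd : BddAbove ((fun z => (S z).card) '' B) := by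
    have hM : 0 < ‖δ z₀‖ + 1 := by positivity
    obtain ⟨N, hN⟩ := exists_pow_lt_of_lt_one (div_pos hc hM) (by norm_num : (2 / 3 : ℝ) < 1)
    refine ⟨N, forall_mem_image.2 fun z hz => le_of_not_gt fun h => ?_⟩
    have hL : Differentiable ℂ fun t : ℂ => z + t • e := by fun_prop
    have h1 := small (isOpen_ball.preimage hL.continuous) (hm z hz) (S z) (fun t => δ (z + t • e))
      (‖δ z₀‖ + 1) (hd.comp hL.differentiableOn (mapsTo_preimage _ _))
      (fun x hx => (hb _ (hm z hz x (sphere_subset_closedBall hx))).2.2.le)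
      fun a ha => ⟨(hS z hz a ha).1, (hS z hz a ha).2.1⟩
    have h2 := pow_le_pow_of_le_one (by norm_num : (0 : ℝ) ≤ 2 / 3) (by norm_num) h.le
    have h3 := (hy z hz).2 1 (by simp)
    rw [lt_div_iff₀ hM] at hN
    nlinarith
  obtain ⟨z', hz', hN'⟩ := Nat.sSup_mem (Set.Nonempty.image _ ⟨z₀, hz₀⟩) hbd
  have hN : ∀ z ∈ B, (S z).card ≤ (S z').card := fun z hz =>
    (le_csSup hbd ⟨z, hz, rfl⟩).trans_eq hN'.symm
  set N := (S z').card
  set Δ : V → ℂ := fun z => (Matrix.of fun i j : Fin N => circleAverage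
    (fun x => (x - 0) * x ^ ((i : ℕ) + j) * θ (z + x • e)) 0 1).det with hΔ
  have hΔd : DifferentiableOn ℂ Δ B := fun z hz => by
    simp only [hΔ, Matrix.det_apply', Matrix.of_apply]
    exact (DifferentiableAt.fun_sum fun σ _ => (diff_prod fun i _ =>
      diff_avg hU hθ e 0 zero_le_one _ fun x hx => ⟨hm1 z hz x (sphere_subset_closedBall hx),
        hs z hz x hx⟩).const_mul _).differentiableWithinAt
  have hΔe : ∀ z ∈ B, Δ z ≠ 0 ↔ (S z).card = N := fun z hz => by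
    rw [← hankel (r := r z) (fun a ha => (hS z hz a ha).2.2) (hN z hz)]
    simp only [hΔ, fun k => hJ z hz 0 1 k one_pos subset_rfl (hs z hz), Finset.filter_true_of_mem
      (p := (· ∈ ball (0 : ℂ) 1)) fun a ha => mem_ball_zero_iff.2 (hS z hz a ha).1]
  obtain ⟨hWo, hWc, hfr⟩ := st_CONN V B Δ hB (convex_ball _ _).isPreconnected hΔd
    ⟨z', hz', (hΔe z' hz').2 rfl⟩
  have hloc := fun z₁ (h1 : z₁ ∈ B) (h2 : Δ z₁ ≠ 0) =>
    loc isOpen_ball hd hθ hB hm1 hs hS hJ hN h1 ((hΔe z₁ h1).1 h2)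
  have hR : ∀ z ∈ B, Δ z ≠ 0 → (S z).image (r z) = (S z').image (r z') := fun z h1 h2 => by
    let _ : TopologicalSpace (Finset ℝ) := ⊥
    have := discreteTopology_bot (Finset ℝ)
    refine hWc.constant (f := fun z => (S z).image (r z)) (fun z₁ h => ?_) ⟨h1, h2⟩
      ⟨hz', (hΔe z' hz').2 rfl⟩
    obtain ⟨α, -, h3⟩ := hloc z₁ h.1 h.2
    refine (continuousAt_const.congr (f := fun _ => (S z₁).image (r z₁))
      (h3.mono fun y hy => ?_)).continuousWithinAt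
    simp only [hy.2.1, Finset.image_image]
    exact Finset.image_congr fun a ha => (hy.2.2 a ha).symm
  set H : ℝ → V → ℂ := fun t z => ∏ a ∈ (S z).filter (r z · = t), a with hH
  have hG := fun t => rex (f := H t) (M := 1) hB isBounded_ball hΔd (fun z₁ h1 h2 => by
    obtain ⟨α, h3, h4⟩ := hloc z₁ h1 h2
    refine ⟨(diff_prod (u := (S z₁).filter (r z₁ · = t)) fun a ha =>
      h3 a (Finset.mem_filter.1 ha).1).congr_of_eventuallyEq (h4.mono fun y hy => ?_), ?_⟩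
    · simp only [hH, hy.2.1, Finset.prod_filter]
      rw [Finset.prod_image hy.1]
      exact Finset.prod_congr rfl fun a ha => by rw [hy.2.2 a ha]
    · rw [hH, norm_prod]
      exact Finset.prod_le_one (fun _ _ => norm_nonneg _)
        fun a ha => (hS z₁ h1 a (Finset.mem_filter.1 ha).1).1.le) hz₀ (hfr z₀ hz₀)
  choose G hG using hG
  obtain ⟨A, hA, hAe⟩ := mean_ph (e := e) (z₀ := z₀) hU (fun w hw => ((hb w hw.1).2.1 hw.2).1)
    fun t ht => ⟨hm1 z₀ hz₀ t (sphere_subset_closedBall ht), hs z₀ hz₀ t ht⟩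
  set R := (S z').image (r z')
  refine ⟨R.card, fun i => R.equivFin.symm i, fun i => G (R.equivFin.symm i), A,
    fun i => (hG _).mono fun w hw => hw.1, hA, ?_⟩
  filter_upwards [hB.mem_nhds hz₀, hA, hAe.eventually_nhds,
    ((eventually_all_finset R).2 fun t _ => hG t).eventually_nhds] with w hw h1 h2 h3 hw0
  have hδc : ContinuousAt δ w := (hb w (hBs w hw)).1.continuousAt
  obtain ⟨η, hη, h4⟩ := Metric.eventually_nhds_iff_ball.1
    (((by fun_prop : Continuous fun p : V × ℂ => p.1 + p.2 • e).tendsto' (w, 0) w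
      (by simp)).eventually (hδc.eventually_ne hw0))
  have hne : ∀ t ∈ R, G t w ≠ 0 := fun t ht => by
    refine norm_pos_iff.1 ((pow_pos (lt_min hη one_pos) N).trans_le
      (isClosed_Ici.mem_of_frequently_of_tendsto ((hfr w hw).mp ?_)
        (h3.self_of_nhds t ht).1.continuousAt.norm))
    filter_upwards [h3, hB.mem_nhds hw, ball_mem_nhds w hη] with y h6 h7 h8 h9
    rw [mem_Ici, (h6 t ht).2 h9, hH, norm_prod]
    refine (pow_le_pow_of_le_one (lt_min hη one_pos).le (min_le_right _ _)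
      ((Finset.card_filter_le _ (r y · = t)).trans (hN y h7))).trans ?_
    rw [← Finset.prod_const]
    refine Finset.prod_le_prod (fun _ _ => (lt_min hη one_pos).le) fun a ha =>
      (min_le_left _ _).trans (le_of_not_gt fun h => h4 (y, a) ?_
        (hS y h7 a (Finset.mem_filter.1 ha).1).2.1)
    rw [← ball_prod_same]
    exact ⟨h8, mem_ball_zero_iff.2 h⟩
  refine ⟨fun i => hne _ (R.equivFin.symm i).2, ?_⟩
  rw [R.equivFin.symm.sum_comp (fun t : R => (t : ℝ) * Real.log (normSq (G t w))),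
    Finset.sum_coe_sort R fun t => t * Real.log (normSq (G t w))]
  refine tendsto_nhds_unique_of_frequently_eq ((hb w (hBs w hw)).2.1 hw0).1.cont
    (g := fun y => ∑ t ∈ R, t * Real.log (normSq (G t y)) + 2 * (A y).re)
    (ContinuousAt.add (tendsto_finsetSum _ fun t ht => ((continuous_normSq.continuousAt.comp
      (h3.self_of_nhds t ht).1.continuousAt).log (normSq_pos.2 (hne t ht)).ne').const_mul t)
      (hasF_re2 h1.hasFDerivAt).continuousAt) ((hfr w hw).mp ?_)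
  filter_upwards [h2, h3, hB.mem_nhds hw, hδc.eventually_ne hw0] with y h6 h7 h8 h9 h10
  rw [hF y h8 h9, h6, ← Finset.sum_fiberwise_of_maps_to (g := r y) (t := R)
    fun a ha => hR y h8 h10 ▸ Finset.mem_image_of_mem _ ha]
  congr 1
  refine Finset.sum_congr rfl fun t ht => ?_
  rw [(h7 t ht).2 h10, hH, map_prod, Real.log_prod fun a ha => (normSq_pos.2 ?_).ne',
    Finset.mul_sum]
  · exact Finset.sum_congr rfl fun a ha => by rw [(Finset.mem_filter.1 ha).2]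
  · rintro rfl
    exact h9 (by simpa using (hS y h8 0 (Finset.mem_filter.1 ha).1).2.1)

end LD

theorem st_LD : St_LD := fun n g δ z₀ C h1 h2 h3 => LD.main h1 h2 h3

theorem st_LDH : St_LDH := by
  refine fun n g δ z₀ C h1 h2 h3 => LD.main (C := C) h1 h2 ?_
  filter_upwards [h1, h3.eventually_nhds] with w h4 h5 h6
  refine ⟨?_, (h5.self_of_nhds h6).2.2⟩
  obtain ⟨ρ, hρ, h7⟩ := Metric.eventually_nhds_iff_ball.1
    (h5.and (h4.continuousAt.eventually_ne h6))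
  obtain ⟨A, h8, h9, -⟩ := st_PH n (ball w ρ) g isOpen_ball (convex_ball w ρ)
    (fun z hz => ((h7 z hz).1 (h7 z hz).2).1) fun z hz => ((h7 z hz).1 (h7 z hz).2).2.1
  exact ⟨A, (isOpen_ball.eventually_mem (mem_ball_self hρ)).mono fun z hz =>
    h8.differentiableAt (isOpen_ball.mem_nhds hz), (isOpen_ball.eventually_mem
      (mem_ball_self hρ)).mono h9⟩

end Pool.Agent.Lib.RA
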