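import Mathlib

/-! Monodromy for germs on a simply connected space. -/

open Set Filter Topology

set_option linter.unusedVariables false

noncomputable section

namespace Pool.Agent.Lib.RA

/-- Monodromy: germs that continue uniquely over small open sets continue globally. -/
def St_MON : Prop :=
  ∀ (X α : Type) [TopologicalSpace X] [SimplyConnectedSpace X] [LocallyPathConnectedSpace X]
    (Q : X → (X → α) → Prop), (∀ x f g, f =ᶠ[𝓝 x] g → Q x f → Q x g) →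
    (∀ x, ∃ O, IsOpen O ∧ x ∈ O ∧
      (∀ y ∈ O, ∀ f, Q y f → ∃ g, (∀ z ∈ O, Q z g) ∧ g =ᶠ[𝓝 y] f) ∧
      ∀ g g', (∀ z ∈ O, Q z g) → (∀ z ∈ O, Q z g') → ∀ y ∈ O, g =ᶠ[𝓝 y] g' → EqOn g g' O) →
    ∀ x f, Q x f → ∃ g, (∀ z, Q z g) ∧ g =ᶠ[𝓝 x] f

namespace MON

section mon
variable {X α : Type*} [TopologicalSpace X]

/-- The space of germs satisfying `Q`. -/
structure Et (Q : X → (X → α) → Prop) where
  b : X
  S : Set (X → α)
  q : ∃ f, Q b f ∧ S = {f' | f' =ᶠ[𝓝 b] f}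

namespace Et
variable {Q : X → (X → α) → Prop}

/-- The germ of `f` at `x`. -/
def mk' (x : X) (f : X → α) (h : Q x f) : Et Q := ⟨x, {f' | f' =ᶠ[𝓝 x] f}, f, h, rfl⟩

theorem eq_of_mem (e : Et Q) {f g : X → α} (hf : f ∈ e.S) (hg : g ∈ e.S) : f =ᶠ[𝓝 e.b] g := by
  obtain ⟨f0, -, h⟩ := e.q
  rw [h] at hf hg
  exact EventuallyEq.trans hf (EventuallyEq.symm hg)

theorem mem_of_eq (e : Et Q) {f g : X → α} (hf : f ∈ e.S) (hg : g =ᶠ[𝓝 e.b] f) : g ∈ e.S := by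
  obtain ⟨f0, -, h⟩ := e.q
  rw [h] at hf ⊢
  exact EventuallyEq.trans hg hf

theorem ext' {e e' : Et Q} (h : e.b = e'.b) {f : X → α} (hf : f ∈ e.S) (hf' : f ∈ e'.S) :
    e = e' := by
  have h1 : e.S = e'.S := by
    ext g
    exact ⟨fun hg => e'.mem_of_eq hf' (h ▸ e.eq_of_mem hg hf),
      fun hg => e.mem_of_eq hf (h ▸ e'.eq_of_mem hg hf')⟩
  cases e
  cases e'
  simp only at h h1
  subst h h1
  rfl

instance : TopologicalSpace (Et Q) where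
  IsOpen U := ∀ e ∈ U, ∀ f ∈ e.S, ∀ᶠ y in 𝓝 e.b, ∀ e' : Et Q, e'.b = y → f ∈ e'.S → e' ∈ U
  isOpen_univ := fun _ _ _ _ => Eventually.of_forall fun _ _ _ _ => mem_univ _
  isOpen_inter := fun s t hs ht e he f hf =>
    ((hs e he.1 f hf).and (ht e he.2 f hf)).mono fun y hy e' h1 h2 =>
      ⟨hy.1 e' h1 h2, hy.2 e' h1 h2⟩
  isOpen_sUnion := fun s hs e ⟨t, ht, he⟩ f hf =>
    (hs t ht e he f hf).mono fun y hy e' h1 h2 => ⟨t, ht, hy e' h1 h2⟩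

theorem isOpen_iff {U : Set (Et Q)} : IsOpen U ↔
    ∀ e ∈ U, ∀ f ∈ e.S, ∀ᶠ y in 𝓝 e.b, ∀ e' : Et Q, e'.b = y → f ∈ e'.S → e' ∈ U := Iff.rfl

/-- The sheet of `g` over `O`. -/
def sheet (Q : X → (X → α) → Prop) (O : Set X) (g : X → α) : Set (Et Q) := {e | e.b ∈ O ∧ g ∈ e.S}

theorem isOpen_sheet {O : Set X} (hO : IsOpen O) (g : X → α) : IsOpen (sheet Q O g) :=
  isOpen_iff.2 fun e he f hf => by
    filter_upwards [hO.mem_nhds he.1, (e.eq_of_mem he.2 hf).eventuallyEq_nhds] with y h1 h2 e' h3 h4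
    subst h3
    exact ⟨h1, e'.mem_of_eq h4 h2⟩

end Et

open Et in
theorem cover {Q : X → (X → α) → Prop} (e0 : Et Q)
    (loc : ∀ x, ∃ O, IsOpen O ∧ x ∈ O ∧
      (∀ y ∈ O, ∀ f, Q y f → ∃ g, (∀ z ∈ O, Q z g) ∧ g =ᶠ[𝓝 y] f) ∧
      ∀ g g', (∀ z ∈ O, Q z g) → (∀ z ∈ O, Q z g') → ∀ y ∈ O, g =ᶠ[𝓝 y] g' → EqOn g g' O) :
    IsCoveringMap (Et.b : Et Q → X) := fun x => by
  obtain ⟨O, hO, hx, hex, hun⟩ := loc x
  let ι := {T : Set (Et Q) // ∃ g, (∀ z ∈ O, Q z g) ∧ T = sheet Q O g}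
  let _i : TopologicalSpace ι := ⊥
  have : DiscreteTopology ι := ⟨rfl⟩
  have exh : (Et.b : Et Q → X) ⁻¹' O ⊆ ⋃ i : ι, i.1 := fun e he => by
    obtain ⟨f, h1, h2⟩ := e.q
    obtain ⟨g, h3, h4⟩ := hex _ he f h1
    exact mem_iUnion.2 ⟨⟨_, g, h3, rfl⟩, he, by rw [h2]; exact h4⟩
  refine IsEvenlyCovered.to_isEvenlyCovered_preimage (I := ι) ?_
  rcases isEmpty_or_nonempty ι with h | h
  · exact .of_preimage_eq_empty ι (hO.mem_nhds hx) (by simpa using exh)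
  have : Nonempty (X → Et Q) := ⟨fun _ => e0⟩
  refine .of_trivialization (t := hO.trivializationDiscrete (f := Et.b) (fun i : ι => i.1) O
    ?_ ?_ ?_ ?_ exh) hx
  · rintro ⟨_, g, hg, rfl⟩ W hW
    refine ⟨fun h1 => ?_, fun h1 => isOpen_iff_mem_nhds.2 fun y hy => ?_⟩
    · have : (Et.b : Et Q → X) ⁻¹' W ∩ sheet Q O g = sheet Q W g :=
        Set.ext fun e => ⟨fun he => ⟨he.1, he.2.2⟩, fun he => ⟨he.1, hW he.1, he.2⟩⟩
      exact this ▸ isOpen_sheet h1 g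
    · have h2 := isOpen_iff.1 h1 (mk' y g (hg y (hW hy))) ⟨hy, hW hy, EventuallyEq.rfl⟩ g
        EventuallyEq.rfl
      filter_upwards [h2, hO.mem_nhds (hW hy)] with z h3 h4
      exact (h3 (mk' z g (hg z h4)) rfl EventuallyEq.rfl).1
  · rintro ⟨_, g, hg, rfl⟩ e he e' he' h1
    exact ext' h1 he.2 he'.2
  · rintro ⟨_, g, hg, rfl⟩ y hy
    exact ⟨mk' y g (hg y hy), ⟨hy, EventuallyEq.rfl⟩, rfl⟩
  · rintro ⟨_, g, hg, rfl⟩ ⟨_, g', hg', rfl⟩ hne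
    refine Set.disjoint_left.2 fun e he he' => hne (Subtype.ext ?_)
    have h1 := hun g g' hg hg' _ he.1 (e.eq_of_mem he.2 he'.2)
    have h2 : ∀ y ∈ O, g =ᶠ[𝓝 y] g' := fun y hy => h1.eventuallyEq_of_mem (hO.mem_nhds hy)
    exact Set.ext fun e1 => ⟨fun h3 => ⟨h3.1, e1.mem_of_eq h3.2 (h2 _ h3.1).symm⟩,
      fun h3 => ⟨h3.1, e1.mem_of_eq h3.2 (h2 _ h3.1)⟩⟩

open Et in
/-- Monodromy: germs that continue uniquely over small open sets continue globally. -/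
theorem mon [SimplyConnectedSpace X] [LocallyPathConnectedSpace X] (Q : X → (X → α) → Prop)
    (germ : ∀ x f g, f =ᶠ[𝓝 x] g → Q x f → Q x g)
    (loc : ∀ x, ∃ O, IsOpen O ∧ x ∈ O ∧
      (∀ y ∈ O, ∀ f, Q y f → ∃ g, (∀ z ∈ O, Q z g) ∧ g =ᶠ[𝓝 y] f) ∧
      ∀ g g', (∀ z ∈ O, Q z g) → (∀ z ∈ O, Q z g') → ∀ y ∈ O, g =ᶠ[𝓝 y] g' → EqOn g g' O)
    (x : X) (f : X → α) (hf : Q x f) : ∃ g, (∀ z, Q z g) ∧ g =ᶠ[𝓝 x] f := by
  obtain ⟨F, ⟨h0, hF⟩, -⟩ := (cover (mk' x f hf) loc).existsUnique_continuousMap_lifts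
    (ContinuousMap.id X) x (mk' x f hf) rfl
  have hb : ∀ y, (F y).b = y := fun y => congrFun hF y
  choose r hr hS using fun e : Et Q => e.q
  have hm : ∀ e : Et Q, r e ∈ e.S := fun e => by rw [hS]; exact EventuallyEq.rfl
  have key : ∀ y, (fun z => r (F z) z) =ᶠ[𝓝 y] r (F y) := fun y => by
    have h1 : F y ∈ sheet Q univ (r (F y)) := ⟨mem_univ _, hm _⟩
    filter_upwards [F.continuous.continuousAt.preimage_mem_nhds
      ((isOpen_sheet isOpen_univ _).mem_nhds h1)] with z hz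
    have h2 := ((F z).eq_of_mem (hm _) hz.2).self_of_nhds
    rwa [hb] at h2
  refine ⟨fun z => r (F z) z, fun z => germ z _ _ (key z).symm ?_, (key x).trans ?_⟩
  · have h2 := hr (F z)
    rwa [hb] at h2
  have h3 := hm (F x)
  rw [h0] at h3 ⊢
  exact h3

end mon

end MON

theorem st_MON : St_MON := fun X α _ _ _ Q h1 h2 x f hf => MON.mon Q h1 h2 x f hf

end Pool.Agent.Lib.RA
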