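import Pool.Agent.Lib.RA.Top
import Pool.Agent.Lib.RA.T_MON
import Pool.Agent.Lib.RA.T_PH
import Pool.Agent.Lib.RA.T_PK
import Pool.Agent.Lib.HS32.MAll

/-! Project ra1, row R0: a flat canonical bundle on a simply connected manifold is trivial. -/

open scoped Classical Topology ContDiff ComplexOrder Matrix
open Set Complex Metric Filter

set_option linter.unusedVariables false

noncomputable section

namespace Pool.Agent.Lib.RA

open Pool.Agent.Lib.SV (E)
open Pool.Agent.Lib.HS32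

namespace R71

variable {n : ℕ} {M : Mf n}

/-- A manifold is locally path connected. -/
theorem lpc (M : Mf n) : LocallyPathConnectedSpace M.X :=
  letI : ChartedSpace (E n) M.X :=
    { atlas := M.C, chartAt := M.ch, mem_chart_source := Mf.mem_ch, chart_mem_atlas := Mf.ch_mem }
  ChartedSpace.locallyPathConnectedSpace (E n) M.X

/-- The family with the prescribed values in the chosen charts. -/
def sf (M : Mf n) (m : ℕ) (f : M.X → ℂ) : M.Fam ℂ :=
  fun e z => f (e.symm z) * (M.J (M.ch (e.symm z)) e (e.symm z)).det ^ m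

variable {m : ℕ} {f g : M.X → ℂ} {e e' : M.Ch} {x : M.X}

theorem det_ne (he : e ∈ M.C) (he' : e' ∈ M.C) (hx : x ∈ e.source) (hx' : x ∈ e'.source) :
    (M.J e e' x).det ≠ 0 := ((mTR n M).2.1 e he e' he' x hx hx').2.1

theorem sf_at (hx : x ∈ e.source) : sf M m f e (e x) = f x * (M.J (M.ch x) e x).det ^ m := by
  simp only [sf, e.left_inv hx]

theorem sf_cmp (f : M.X → ℂ) :
    M.Ov fun e e' x => sf M m f e' (e' x) = sf M m f e (e x) * (M.J e e' x).det ^ m := by
  intro e he e' he' x hx hx'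
  rw [sf_at hx, sf_at hx', BTR.J_coc mCHN (Mf.ch_mem x) he he' (Mf.mem_ch x) hx hx',
    Matrix.det_mul, mul_pow, mul_assoc]

theorem ev_sf : M.ev (sf M m f) = f := by
  funext x
  simp [Mf.ev, sf_at (Mf.mem_ch x), BTR.J_self (Mf.mem_ch x)]

theorem tend (hx : x ∈ e.source) : Tendsto e.symm (𝓝 (e x)) (𝓝 x) := by
  have := e.continuousAt_symm (e.map_source hx)
  rwa [ContinuousAt, e.left_inv hx] at this

theorem sf_congr (hx : x ∈ e.source) (h : f =ᶠ[𝓝 x] g) : sf M m f e =ᶠ[𝓝 (e x)] sf M m g e :=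
  ((tend hx).eventually h).mono fun w hw => by simp only [sf, hw]

/-- Holomorphy of a section does not depend on the chart. -/
theorem hol_chg {s : M.Fam ℂ} (he : e ∈ M.C) (he' : e' ∈ M.C) (hx : x ∈ e.source)
    (hx' : x ∈ e'.source)
    (hc : ∀ᶠ y in 𝓝 x, y ∈ e.source → y ∈ e'.source →
      s e' (e' y) = s e (e y) * (M.J e e' y).det ^ m) (h : HolN (s e) (e x)) :
    HolN (s e') (e' x) := by
  obtain ⟨h1, -, -, h2, -⟩ := (mTR n M).2.1 e he e' he' x hx hx'
  have h3 : HolN (fun w => s e ((e ∘ e'.symm) w) * (jm (e ∘ e'.symm) w).det ^ m) (e' x) := by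
    have a : HolN (s e) ((e ∘ e'.symm) (e' x)) := by simpa [e'.left_inv hx'] using h
    filter_upwards [PK.hn_comp a h1, (mCHN n _ _ h1).2.2.2.2.1] with w u v using u.mul (v.pow m)
  refine PK.hn_congr h3 ?_
  filter_upwards [h2, (tend hx').eventually hc] with w ⟨a1, a2, a3, a4, a5, a6, a7⟩ b
  have := b a2 a3
  rw [a6, a7] at this
  exact this.symm

theorem nsq_chg {φ : M.Fam ℝ} (hφ : M.Wt 1 φ) (he : e ∈ M.C) (hx : x ∈ e.source) :
    normSq (sf M 1 f e (e x)) = Real.exp (φ e (e x)) ↔ normSq (f x) = Real.exp (M.ev φ x) := by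
  have h0 := normSq_pos.2 (det_ne (Mf.ch_mem x) he (Mf.mem_ch x) hx)
  have := hφ.cmp _ (Mf.ch_mem x) e he x (Mf.mem_ch x) hx
  beta_reduce at this
  rw [sf_at hx, this, one_mul, Real.exp_add, Real.exp_log h0, pow_one, map_mul,
    mul_left_inj' h0.ne']
  rfl

theorem rank0 {A : Mat n} (h : A.rank ≤ 0) : A = 0 := by
  rw [Nat.le_zero, Matrix.rank, Submodule.finrank_eq_zero, LinearMap.range_eq_bot] at h
  exact Matrix.toLin'.injective (by rw [map_zero]; exact h)

/-- Germs of holomorphic sections of norm one. -/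
def QQ (M : Mf n) (φ : M.Fam ℝ) (x : M.X) (f : M.X → ℂ) : Prop :=
  (∀ᶠ y in 𝓝 x, normSq (f y) = Real.exp (M.ev φ y)) ∧ At M x fun e z => HolN (sf M 1 f e) z

theorem sec {φ : M.Fam ℝ} [Nonempty M.X] [SimplyConnectedSpace M.X] (hφ : M.Wt 1 φ)
    (h0 : M.All fun e z => M.hw φ e z = 0) : ∃ f, ∀ x, QQ M φ x f := by
  have := lpc M
  have key : ∀ x, ∃ O, IsOpen O ∧ x ∈ O ∧ (∃ g, ∀ z ∈ O, QQ M φ z g) ∧
      (∀ y ∈ O, ∀ f, QQ M φ y f → ∃ g, (∀ z ∈ O, QQ M φ z g) ∧ g =ᶠ[𝓝 y] f) ∧
      ∀ g g', (∀ z ∈ O, QQ M φ z g) → (∀ z ∈ O, QQ M φ z g') → ∀ y ∈ O, g =ᶠ[𝓝 y] g' →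
        EqOn g g' O := by
    intro x
    obtain ⟨e, he, hx⟩ := M.cov x
    obtain ⟨R, hR, hb⟩ := Metric.isOpen_iff.1 e.open_target _ (e.map_source hx)
    obtain ⟨A, hA, hA2, -⟩ := st_PH n (ball (e x) R) (φ e) isOpen_ball (convex_ball _ _)
      (fun z hz => hφ.sm e he z (hb hz)) fun z hz => h0 e he z (hb hz)
    have hO : IsOpen (e.source ∩ e ⁻¹' ball (e x) R) := e.isOpen_inter_preimage isOpen_ball
    have dn : ∀ y ∈ e.source, (M.J (M.ch y) e y).det ≠ 0 := fun y hy =>
      det_ne (Mf.ch_mem y) he (Mf.mem_ch y) hy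
    have base : ∀ (c : ℂ), ∀ z ∈ e.target,
        sf M 1 (fun y => c * cexp (A (e y)) / (M.J (M.ch y) e y).det) e z = c * cexp (A z) :=
      fun c z hz => by
        simp only [sf, e.right_inv hz, pow_one]
        exact div_mul_cancel₀ _ (dn _ (e.map_target hz))
    have nA : ∀ z ∈ ball (e x) R, normSq (cexp (A z)) = Real.exp (φ e z) := fun z hz => by
      rw [normSq_eq_norm_sq, norm_exp, hA2 z hz, two_mul, Real.exp_add, sq]
    have qb : ∀ (c : ℂ), normSq c = 1 → ∀ z ∈ e.source ∩ e ⁻¹' ball (e x) R,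
        QQ M φ z fun y => c * cexp (A (e y)) / (M.J (M.ch y) e y).det := by
      intro c hc z hz
      refine ⟨?_, fun e' he' hz' => hol_chg he he' hz.1 hz'
        (Eventually.of_forall fun y a b => sf_cmp _ e he e' he' y a b) ?_⟩
      · filter_upwards [hO.mem_nhds hz] with y hy
        refine (nsq_chg (f := fun y => c * cexp (A (e y)) / (M.J (M.ch y) e y).det) hφ he hy.1).1 ?_
        rw [base c _ (e.map_source hy.1), map_mul, hc, one_mul, nA _ hy.2]
      · refine PK.hn_congr (f := fun w => c * cexp (A w))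
          ((PK.hn_of_on isOpen_ball hA hz.2).mono fun w hw => hw.cexp.const_mul c) ?_
        filter_upwards [e.open_target.mem_nhds (e.map_source hz.1)] with w hw
        exact (base c w hw).symm
    refine ⟨_, hO, ⟨hx, mem_ball_self hR⟩, ⟨_, qb 1 (map_one _)⟩, fun y hy f hf => ?_,
      fun g g' hg hg' y hy h z hz => ?_⟩
    · have u1 : ∀ᶠ w in 𝓝 (e y), DifferentiableAt ℂ (fun w => sf M 1 f e w / cexp (A w)) w := by
        filter_upwards [hf.2 e he hy.1, PK.hn_of_on isOpen_ball hA hy.2] with w a b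
        simp only [div_eq_mul_inv]
        exact a.mul (b.cexp.inv (exp_ne_zero _))
      have u2 : ∀ᶠ w in 𝓝 (e y), normSq (sf M 1 f e w / cexp (A w)) = 1 := by
        filter_upwards [(tend hy.1).eventually hf.1, isOpen_ball.mem_nhds hy.2] with w a b
        have := (nsq_chg hφ he (e.map_target (hb b))).2 a
        rw [e.right_inv (hb b)] at this
        rw [map_div₀, this, nA w b, div_self (Real.exp_pos _).ne']
      have u3 := Complex.eventually_eq_of_isLocalMax_norm u1 (u2.mono fun w hw => by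
        simp only [Function.comp_apply, Complex.norm_def, hw, u2.self_of_nhds, le_refl])
      refine ⟨_, qb _ u2.self_of_nhds, ?_⟩
      filter_upwards [(e.continuousAt hy.1).eventually u3, hO.mem_nhds hy] with w a b
      rw [← a, sf_at b.1, pow_one, div_mul_cancel₀ _ (exp_ne_zero _),
        mul_div_cancel_right₀ _ (dn _ b.1)]
    · have on : ∀ g, (∀ z ∈ e.source ∩ e ⁻¹' ball (e x) R, QQ M φ z g) →
          DifferentiableOn ℂ (sf M 1 g e) (ball (e x) R) := fun g hg => PK.on_of_hn fun w hw => by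
        have := (hg (e.symm w) ⟨e.map_target (hb hw), by
          simpa only [mem_preimage, e.right_inv (hb hw)] using hw⟩).2 e he (e.map_target (hb hw))
        rwa [e.right_inv (hb hw)] at this
      have := PK.eqOn_convex isOpen_ball (convex_ball _ _) (on g hg) (on g' hg') hy.2
        (sf_congr hy.1 h) hz.2
      rwa [sf_at hz.1, sf_at hz.1, mul_left_inj' (pow_ne_zero _ (dn z hz.1))] at this
  obtain ⟨x⟩ := ‹Nonempty M.X›
  obtain ⟨O, -, hx, ⟨g, hg⟩, -⟩ := key x
  obtain ⟨f, hf, -⟩ := st_MON M.X ℂ (QQ M φ) (fun x f g h hq =>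
    ⟨(hq.1.and h).mono fun y hy => hy.2 ▸ hy.1,
      fun e he hx => PK.hn_congr (hq.2 e he hx) (sf_congr hx h)⟩)
    (fun x => (key x).imp fun O h => ⟨h.1, h.2.1, h.2.2.2⟩) x g (hg x hx)
  exact ⟨f, hf⟩

end R71

open R71 in
theorem st_R0 : St_R0 := by
  intro n M _ _ φ hφ
  obtain ⟨f, hf⟩ := sec hφ.wt fun e he z hz =>
    rank0 (hφ.le e he z hz)
  have hol : M.All fun e z => HolN (sf M 1 f e) z :=
    Mf.allOn_of_source fun e he x hx => (hf x).2 e he hx
  refine ⟨1, 1, one_pos, one_pos, Eventually.of_forall fun a => ⟨1, by simp,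
    fun _ e z => sf M 1 f e z ^ a, fun _ => ⟨⟨fun e he z hz =>
      (BHOL.smooth (hol e he z hz)).pow a, fun e he e' he' x hx hx' => ?_⟩,
      fun e he z hz => (hol e he z hz).self_of_nhds.pow a⟩, ?_⟩⟩
  · beta_reduce
    rw [sf_cmp f e he e' he' x hx hx', mul_pow, pow_mul]
  · refine linearIndependent_unique_iff.2 fun h => ?_
    obtain ⟨x⟩ : Nonempty M.X := inferInstance
    have h1 : M.ev (sf M 1 f) x ^ a = 0 := congrFun h x
    have h2 := (hf x).1.self_of_nhds
    rw [ev_sf] at h1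
    rw [pow_eq_zero_iff'] at h1
    rw [h1.1, map_zero] at h2
    exact (Real.exp_pos _).ne h2

end Pool.Agent.Lib.RA
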