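import Pool.Agent.Lib.SV.Ext85
import Pool.Agent.Lib.HS32.MBlue

/-! Quotients of holomorphic functions whose moduli satisfy a bound with independent exponents. -/

open scoped Classical Topology
open Set Filter Complex Metric

noncomputable section

namespace Pool.Agent.Lib.RA

open Pool.Agent.Lib.SV
open Pool.Agent.Lib.HS32

/-- If a combination of the `log |a j / b j| ^ 2` with rationally independent coefficients is
bounded on a dense set near `z₀`, then each quotient is a unit at `z₀`. -/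
def St_UN : Prop := ∀ (n : ℕ) (ι : Type) [Fintype ι] (lam : ι → ℝ) (a b : ι → E n → ℂ) (z₀ : E n)
  (C : ℝ), LinearIndependent ℚ lam → (∀ j, HolN (a j) z₀ ∧ HolN (b j) z₀ ∧
    (∃ᶠ w in 𝓝 z₀, a j w ≠ 0) ∧ ∃ᶠ w in 𝓝 z₀, b j w ≠ 0) →
  (∀ᶠ w in 𝓝 z₀, ∃ᶠ x in 𝓝 w, (∀ j, a j x ≠ 0 ∧ b j x ≠ 0) →
    |∑ j, lam j * Real.log (normSq (a j x / b j x))| ≤ C) →
  ∀ j, ∃ u, HolN u z₀ ∧ u z₀ ≠ 0 ∧ ∀ᶠ w in 𝓝 z₀, a j w = u w * b j w

/-- The same with a bound off a hypersurface. -/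
def St_UND : Prop := ∀ (n : ℕ) (ι : Type) [Fintype ι] (lam : ι → ℝ) (a b : ι → E n → ℂ)
  (δ : E n → ℂ) (z₀ : E n) (C : ℝ), LinearIndependent ℚ lam → (∀ j, HolN (a j) z₀ ∧
    HolN (b j) z₀ ∧ (∃ᶠ w in 𝓝 z₀, a j w ≠ 0) ∧ ∃ᶠ w in 𝓝 z₀, b j w ≠ 0) → HolN δ z₀ →
  (∃ᶠ w in 𝓝 z₀, δ w ≠ 0) → (∀ᶠ w in 𝓝 z₀, δ w ≠ 0 → (∀ j, a j w ≠ 0 ∧ b j w ≠ 0) →
    |∑ j, lam j * Real.log (normSq (a j w / b j w))| ≤ C) →
  ∀ j, ∃ u, HolN u z₀ ∧ u z₀ ≠ 0 ∧ ∀ᶠ w in 𝓝 z₀, a j w = u w * b j w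

namespace Un

variable {n : ℕ}

/-- The set where a non-zero germ does not vanish is dense. -/
theorem dense_ne {f : E n → ℂ} {z : E n} (hf : HolN f z) (h0 : ∃ᶠ w in 𝓝 z, f w ≠ 0) :
    ∀ᶠ w in 𝓝 z, ∃ᶠ x in 𝓝 w, f x ≠ 0 := by
  obtain ⟨r, r0, hr⟩ := Metric.eventually_nhds_iff_ball.1 hf
  filter_upwards [ball_mem_nhds z r0] with w hw
  by_contra h
  obtain ⟨y, hy, hy'⟩ := (h0.and_eventually (ball_mem_nhds z r0)).exists
  exact hy (H85.eq_zero_of_convex isOpen_ball (convex_ball z r)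
    (fun x hx => (hr x hx).differentiableWithinAt) hw
    ((not_frequently.1 h).mono fun x hx => not_not.1 hx) hy')

theorem freq_mul {f g : E n → ℂ} {z : E n} (hf : HolN f z) (hg : HolN g z)
    (f0 : ∃ᶠ w in 𝓝 z, f w ≠ 0) (g0 : ∃ᶠ w in 𝓝 z, g w ≠ 0) : ∃ᶠ w in 𝓝 z, f w * g w ≠ 0 := by
  refine frequently_frequently_nhds.1 ((f0.and_eventually (hf.and (dense_ne hg g0))).mono ?_)
  rintro w ⟨h1, h2, h3⟩
  exact (h3.and_eventually (h2.continuousAt.eventually_ne h1)).mono fun x hx => mul_ne_zero hx.2 hx.1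

theorem freq_prod {ι : Type*} {f : ι → E n → ℂ} {z : E n} (s : Finset ι) (hf : ∀ j, HolN (f j) z)
    (f0 : ∀ j, ∃ᶠ w in 𝓝 z, f j w ≠ 0) :
    HolN (fun w => ∏ j ∈ s, f j w) z ∧ ∃ᶠ w in 𝓝 z, ∏ j ∈ s, f j w ≠ 0 := by
  induction s using Finset.induction_on with
  | empty => exact ⟨.of_forall fun w => by simp, .of_forall fun w => by simp⟩
  | insert j s hj ih =>
    simp only [Finset.prod_insert hj]
    exact ⟨((hf j).and ih.1).mono fun w hw => hw.1.fun_mul hw.2, freq_mul (hf j) ih.1 (f0 j) ih.2⟩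

/-- One variable: the orders agree. -/
theorem ord {ι : Type} [Fintype ι] {lam : ι → ℝ} (hl : LinearIndependent ℚ lam) {a b : ι → ℂ → ℂ}
    {t : ℂ} {C : ℝ} (ha : ∀ j, AnalyticAt ℂ (a j) t ∧ ¬∀ᶠ s in 𝓝 t, a j s = 0)
    (hb : ∀ j, AnalyticAt ℂ (b j) t ∧ ¬∀ᶠ s in 𝓝 t, b j s = 0)
    (hC : ∀ᶠ s in 𝓝 t, (∀ j, a j s ≠ 0 ∧ b j s ≠ 0) →
      |∑ j, lam j * Real.log (normSq (a j s / b j s))| ≤ C) (j : ι) :
    ∃ u, AnalyticAt ℂ u t ∧ u t ≠ 0 ∧ ∀ᶠ s in 𝓝 t, a j s = u s * b j s := by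
  choose p α h1 h2 h3 using fun j => (ha j).1.exists_eventuallyEq_pow_smul_nonzero_iff.2 (ha j).2
  choose q β k1 k2 k3 using fun j => (hb j).1.exists_eventuallyEq_pow_smul_nonzero_iff.2 (hb j).2
  have hne : ∀ j, ∀ᶠ s in 𝓝 t, α j s ≠ 0 ∧ β j s ≠ 0 := fun j =>
    ((h1 j).continuousAt.eventually_ne (h2 j)).and ((k1 j).continuousAt.eventually_ne (k2 j))
  set κ := ∑ j, lam j * ((p j : ℝ) - q j) with hκ
  set R : ℂ → ℝ := fun s => ∑ j, lam j * Real.log (normSq (α j s / β j s)) with hR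
  have hRc : ContinuousAt R t := tendsto_finsetSum _ fun j _ => ContinuousAt.tendsto
    (continuousAt_const.mul (ContinuousAt.log (continuous_normSq.continuousAt.comp
      ((h1 j).continuousAt.div (k1 j).continuousAt (k2 j)))
      (normSq_pos.2 (div_ne_zero (h2 j) (k2 j))).ne'))
  have hb' : ∀ᶠ s in 𝓝[≠] t, |κ| * -Real.log (normSq (s - t)) ≤ C + (|R t| + 1) := by
    filter_upwards [self_mem_nhdsWithin, nhdsWithin_le_nhds hC,
      nhdsWithin_le_nhds (eventually_all.2 hne), nhdsWithin_le_nhds (eventually_all.2 h3),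
      nhdsWithin_le_nhds (eventually_all.2 k3),
      nhdsWithin_le_nhds (hRc.abs.eventually_lt_const (lt_add_one _))] with s s0 s1 s2 s3 s4 s5
    have hs : s - t ≠ 0 := sub_ne_zero.2 s0
    have hn : normSq (s - t) ≠ 0 := (normSq_pos.2 hs).ne'
    have e : ∑ j, lam j * Real.log (normSq (a j s / b j s)) =
        κ * Real.log (normSq (s - t)) + R s := by
      rw [hκ, hR, Finset.sum_mul, ← Finset.sum_add_distrib]
      refine Finset.sum_congr rfl fun j _ => ?_
      rw [s3 j, s4 j, smul_eq_mul, smul_eq_mul, mul_div_mul_comm, map_mul, map_div₀, map_pow,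
        map_pow, Real.log_mul (div_ne_zero (pow_ne_zero _ hn) (pow_ne_zero _ hn))
          (normSq_pos.2 (div_ne_zero (s2 j).1 (s2 j).2)).ne',
        Real.log_div (pow_ne_zero _ hn) (pow_ne_zero _ hn), Real.log_pow, Real.log_pow]
      ring
    have h5 := s1 fun j => by
      rw [s3 j, s4 j]
      exact ⟨smul_ne_zero (pow_ne_zero _ hs) (s2 j).1, smul_ne_zero (pow_ne_zero _ hs) (s2 j).2⟩
    rw [e] at h5
    have h6 := abs_sub (κ * Real.log (normSq (s - t)) + R s) (R s)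
    rw [add_sub_cancel_right, abs_mul] at h6
    have h7 := mul_le_mul_of_nonneg_left (neg_le_abs (Real.log (normSq (s - t)))) (abs_nonneg κ)
    linarith
  have hκ0 : κ = 0 := by
    by_contra h
    have t1 : Tendsto (fun s : ℂ => normSq (s - t)) (𝓝[≠] t) (𝓝[≠] 0) := by
      refine tendsto_nhdsWithin_iff.2 ⟨tendsto_nhdsWithin_of_tendsto_nhds ?_,
        eventually_mem_nhdsWithin.mono fun s hs => (normSq_pos.2 (sub_ne_zero.2 hs)).ne'⟩
      exact Continuous.tendsto' (continuous_normSq.comp (continuous_sub_right t)) t 0 (by simp)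
    have t2 := (tendsto_neg_atBot_atTop.comp (Real.tendsto_log_nhdsNE_zero.comp t1)).const_mul_atTop
      (abs_pos.2 h)
    obtain ⟨s, s1, s2⟩ := (hb'.and (t2.eventually_gt_atTop (C + (|R t| + 1)))).exists
    exact absurd s1 (not_le.2 s2)
  have hpq : p j = q j := by
    have := Fintype.linearIndependent_iff.1 hl (fun j => (p j : ℚ) - q j) (by
      rw [← hκ0, hκ]
      exact Finset.sum_congr rfl fun j _ => by rw [Rat.smul_def, mul_comm]; push_cast; rfl) j
    exact_mod_cast sub_eq_zero.1 this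
  refine ⟨fun s => α j s / β j s, (h1 j).fun_div (k1 j) (k2 j), div_ne_zero (h2 j) (k2 j), ?_⟩
  filter_upwards [hne j, h3 j, k3 j] with s s1 s2 s3
  rw [s2, s3, hpq, smul_eq_mul, smul_eq_mul, mul_left_comm, div_mul_cancel₀ _ s1.2]

/-- One variable: the quotient at the centre is the mean over the circle. -/
theorem mean {a b : ℂ → ℂ} (h : ∀ t ∈ closedBall (0 : ℂ) 1, (∀ᶠ s in 𝓝[≠] t, b s ≠ 0) ∧
    ∃ u, AnalyticAt ℂ u t ∧ u t ≠ 0 ∧ ∀ᶠ s in 𝓝 t, a s = u s * b s)
    (hb : ∀ t ∈ sphere (0 : ℂ) 1, b t ≠ 0) :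
    Real.circleAverage (fun t => a t / b t) 0 1 ≠ 0 ∧
      a 0 = Real.circleAverage (fun t => a t / b t) 0 1 * b 0 := by
  set φ : ℂ → ℂ := fun t => limUnder (𝓝[≠] t) fun s => a s / b s with hφ
  have key : ∀ t ∈ closedBall (0 : ℂ) 1, DifferentiableAt ℂ φ t ∧ φ t ≠ 0 ∧ a t = φ t * b t := by
    intro t ht
    obtain ⟨h1, u, h2, h3, h4⟩ := h t ht
    have e : φ =ᶠ[𝓝 t] u := by
      filter_upwards [(eventually_nhdsWithin_iff.1 h1).eventually_nhds, h4.eventually_nhds,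
        h2.eventually_analyticAt] with s s1 s2 s3
      refine Tendsto.limUnder_eq ((s3.continuousAt.tendsto.mono_left nhdsWithin_le_nhds).congr' ?_)
      have s4 : ∀ᶠ r in 𝓝[≠] s, r ≠ t := by
        by_cases hst : s = t
        · exact hst ▸ eventually_mem_nhdsWithin
        · exact nhdsWithin_le_nhds (eventually_ne_nhds hst)
      filter_upwards [nhdsWithin_le_nhds s1, nhdsWithin_le_nhds s2, s4] with r r1 r2 r3
      rw [r2, mul_div_cancel_right₀ _ (r1 r3)]
    exact ⟨h2.differentiableAt.congr_of_eventuallyEq e, e.self_of_nhds ▸ h3,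
      e.self_of_nhds ▸ h4.self_of_nhds⟩
  have h2 : DiffContOnCl ℂ φ (ball 0 |1|) := by
    refine DifferentiableOn.diffContOnCl ?_
    rw [abs_one, closure_ball 0 one_ne_zero]
    exact fun t ht => (key t ht).1.differentiableWithinAt
  have h3 : Real.circleAverage (fun t => a t / b t) 0 1 = φ 0 := by
    rw [← h2.circleAverage]
    refine Real.circleAverage_congr_sphere fun t ht => ?_
    rw [abs_one] at ht
    simp only [(key t (sphere_subset_closedBall ht)).2.2, mul_div_cancel_right₀ _ (hb t ht)]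
  rw [h3]
  exact (key 0 (mem_closedBall_self zero_le_one)).2

end Un

open Un in
theorem st_UN : St_UN := by
  intro n ι _ lam a b z₀ C hl h hC j
  obtain ⟨g1, g2⟩ := freq_prod (f := fun j w => a j w * b j w) Finset.univ
    (fun j => ((h j).1.and (h j).2.1).mono fun w hw => hw.1.fun_mul hw.2)
    fun j => freq_mul (h j).1 (h j).2.1 (h j).2.2.1 (h j).2.2.2
  obtain ⟨r, r0, hr⟩ := Metric.eventually_nhds_iff_ball.1
    ((eventually_all.2 fun j => (h j).1.and (h j).2.1).and (g1.and hC))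
  have hC' : ∀ w ∈ ball z₀ r, (∀ j, a j w ≠ 0 ∧ b j w ≠ 0) →
      |∑ j, lam j * Real.log (normSq (a j w / b j w))| ≤ C := fun w hw h0 => by
    have hd := (hr w hw).1
    have hc : ContinuousAt (fun w => |∑ j, lam j * Real.log (normSq (a j w / b j w))|) w :=
      ContinuousAt.abs (tendsto_finsetSum _ fun j _ => ContinuousAt.tendsto
        (continuousAt_const.mul (ContinuousAt.log (continuous_normSq.continuousAt.comp
          ((hd j).1.continuousAt.div (hd j).2.continuousAt (h0 j).2))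
          (normSq_pos.2 (div_ne_zero (h0 j).1 (h0 j).2)).ne')))
    refine le_of_tendsto_of_frequently hc.tendsto (((hr w hw).2.2.and_eventually
      (eventually_all.2 fun j => ((hd j).1.continuousAt.eventually_ne (h0 j).1).and
        ((hd j).2.continuousAt.eventually_ne (h0 j).2))).mono fun x hx => hx.1 hx.2)
  obtain ⟨v, hv⟩ := H85.exists_disc isOpen_ball
    (fun w hw => (hr w hw).2.1.differentiableWithinAt) (mem_ball_self r0)
    fun h0 => g2 (h0.mono fun w hw => not_not.2 hw)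
  replace hv : ∀ᶠ y in 𝓝 z₀, (∀ t ∈ closedBall (0 : ℂ) 1, y + t • v ∈ ball z₀ r) ∧
      ∀ t ∈ sphere (0 : ℂ) 1, ∀ j, a j (y + t • v) ≠ 0 ∧ b j (y + t • v) ≠ 0 :=
    hv.mono fun y hy => ⟨hy.1, fun t ht j =>
      mul_ne_zero_iff.1 (Finset.prod_ne_zero_iff.1 (hy.2 t ht) j (Finset.mem_univ j))⟩
  set u : E n → ℂ := fun y =>
    Real.circleAverage (fun t => a j (y + t • v) / b j (y + t • v)) 0 1 with hu
  have key : ∀ᶠ y in 𝓝 z₀, u y ≠ 0 ∧ a j y = u y * b j y := hv.mono fun y hy => by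
    have hL : Differentiable ℂ fun t : ℂ => y + t • v := by fun_prop
    have hU : IsOpen ((fun t : ℂ => y + t • v) ⁻¹' ball z₀ r) := isOpen_ball.preimage hL.continuous
    have an : ∀ f : E n → ℂ, (∀ w ∈ ball z₀ r, DifferentiableAt ℂ f w) → f (y + (1 : ℂ) • v) ≠ 0 →
        ∀ t ∈ closedBall (0 : ℂ) 1, AnalyticAt ℂ (fun t : ℂ => f (y + t • v)) t ∧
          ¬∀ᶠ s : ℂ in 𝓝 t, f (y + s • v) = 0 := fun f hf h1 t ht => by
      have ha : AnalyticOnNhd ℂ (fun t : ℂ => f (y + t • v)) (closedBall 0 1) :=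
        (DifferentiableOn.analyticOnNhd (fun s hs =>
          ((hf _ hs).comp s (hL s)).differentiableWithinAt) hU).mono hy.1
      exact ⟨ha t ht, fun hev => h1 (ha.eqOn_zero_of_preconnected_of_eventuallyEq_zero
        (convex_closedBall 0 1).isPreconnected ht hev (show (1 : ℂ) ∈ _ by simp))⟩
    have ha := fun j => an (a j) (fun w hw => ((hr w hw).1 j).1) (hy.2 1 (by simp) j).1
    have hb := fun j => an (b j) (fun w hw => ((hr w hw).1 j).2) (hy.2 1 (by simp) j).2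
    have := mean (a := fun t => a j (y + t • v)) (b := fun t => b j (y + t • v))
      (fun t ht => ⟨(hb j t ht).1.eventually_eq_zero_or_eventually_ne_zero.resolve_left
        (hb j t ht).2, ord hl (fun j => ha j t ht) (fun j => hb j t ht)
        ((hU.eventually_mem (hy.1 t ht)).mono fun s hs => hC' _ hs) j⟩)
      fun t ht => (hy.2 t ht j).2
    simpa only [zero_smul, add_zero] using this
  refine ⟨u, hv.mono fun y hy => ?_, key.self_of_nhds.1, key.mono fun y hy => hy.2⟩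
  refine H85.differentiableAt_circleAverage (f := fun w => a j w / b j w)
    (O := {w | w ∈ ball z₀ r ∧ b j w ≠ 0}) (isOpen_iff_mem_nhds.2 fun w hw => inter_mem
      (isOpen_ball.mem_nhds hw.1) (((hr w hw.1).1 j).2.continuousAt.eventually_ne hw.2))
    (fun w hw => ?_) fun t ht => ⟨hy.1 t (sphere_subset_closedBall ht), (hy.2 t ht j).2⟩
  simpa only [div_eq_mul_inv] using
    (((hr w hw.1).1 j).1.fun_mul (((hr w hw.1).1 j).2.fun_inv hw.2)).differentiableWithinAt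

theorem st_UND : St_UND := fun n ι _ lam a b _ z₀ C hl h h1 h2 hC =>
  st_UN n ι lam a b z₀ C hl h (((Un.dense_ne h1 h2).and hC.eventually_nhds).mono fun _ hw =>
    (hw.1.and_eventually hw.2).mono fun _ hx => hx.2 hx.1)

end Pool.Agent.Lib.RA
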