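import Pool.Agent.Lib.RA.Glue
import Pool.Agent.Lib.RAA.B_SPN
import Pool.Agent.Lib.RAA.B_XI
import Pool.Agent.Lib.RAA.B_PTE
import Pool.Agent.Lib.RAA.T_LO
import Pool.Agent.Lib.RA.B_PZ
import Pool.Agent.Lib.RAA.B_PT
import Pool.Agent.Lib.RAA.B_ORD
import Pool.Agent.Lib.RAA.B_LN
import Pool.Agent.Lib.RAA.B_A4
import Pool.Agent.Lib.RAA.B_LNT
import Pool.Agent.Lib.RAA.B_CQ
import Pool.Agent.Lib.RAA.B_NF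
import Pool.Agent.Lib.RAA.B_FL
import Pool.Agent.Lib.RAA.B_FG
import Pool.Agent.Lib.RAA.B_RIC
import Pool.Agent.Lib.RAA.B_CHI
import Pool.Agent.Lib.RAA.B_FB1
import Pool.Agent.Lib.RAA.B_KEY
import Pool.Agent.Lib.RAA.B_POS
import Pool.Agent.Lib.RAA.B_A5
import Pool.Agent.Lib.RAD.All
import Pool.Agent.Lib.RAA.B_PSI
import Pool.Agent.Lib.RAA.B_MIX
import Pool.Agent.Lib.RAA.B_A6m
import Pool.Agent.Lib.RAA.B_A6b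
import Pool.Agent.Lib.RAA.B_A6r
import Pool.Agent.Lib.RAA.T_TOP
import Pool.Agent.Lib.RAA.B_A6a
import Pool.Agent.Lib.RAA.B_A6c
import Pool.Agent.Lib.HS.All
import Pool.Agent.Lib.RAA.B_A6d
import Pool.Agent.Lib.RAA.B_FB2
import Pool.Agent.Lib.RAA.B_EQ
import Pool.Agent.Lib.RAA.Top
import Pool.Agent.Lib.RAB.All
import Pool.Agent.Lib.RAB.All0
import Pool.Agent.Lib.RA.B_FIN
import Pool.Agent.Lib.RA.B_PHH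
import Pool.Agent.Lib.RA.B_EBX
import Pool.Agent.Lib.RAE.AllE
import Pool.Agent.Lib.RA.B_DEP
import Pool.Agent.Lib.RAE.AllC
import Pool.Agent.Lib.RAG.All
import Pool.Agent.Lib.RAF.B_FSEC
import Pool.Agent.Lib.RAF.B_FLG
import Pool.Agent.Lib.RAF.B_FKIL
import Pool.Agent.Lib.RAF.B_FSEL
import Pool.Agent.Lib.RAF.B_FHM
import Pool.Agent.Lib.RAF.B_FINV
import Pool.Agent.Lib.RAF.B_FCOR
import Pool.Agent.Lib.RAF.B_FNRM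
import Pool.Agent.Lib.RAF.B_FU0
import Pool.Agent.Lib.RAF.B_FREL
import Pool.Agent.Lib.RAF.B_FRCL
import Pool.Agent.Lib.RAF.B_FSUM
import Pool.Agent.Lib.RAF.B_FRBX
import Pool.Agent.Lib.RAF.B_FLOC
import Pool.Agent.Lib.RAF.B_FDS
import Pool.Agent.Lib.RAF.B_FDT
import Pool.Agent.Lib.RAF.B_LOC
import Pool.Agent.Lib.RAF.B_UNI
import Pool.Agent.Lib.RAF.B_LGC
import Pool.Agent.Lib.RAF.B_H1A
import Pool.Agent.Lib.KP.All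
import Pool.Agent.Lib.RAF.B_PIC
import Pool.Agent.Lib.RAF.B_FST
import Pool.Agent.Lib.RAF.B_DESC
import Pool.Agent.Lib.RAF.B_UNS
import Pool.Agent.Lib.RAF.B_BRK
import Pool.Agent.Lib.RA.B_TV
import Pool.Agent.Lib.RA.B_MER
import Pool.Agent.Lib.RAF.B_BAS
import Pool.Agent.Lib.RAF.AsmF
import Pool.Agent.Lib.RA.B_G1
import Pool.Agent.Lib.RA.B_G2
import Pool.Agent.Lib.RA.B_RN
import Pool.Agent.Lib.RA.B_R0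
import Pool.Agent.Lib.RA.B_BRG

/-! Project ra1: all statements are proved. -/

namespace Pool.Agent.Lib.RAall

theorem aRAA_XI : RAA.St_XI :=
  RAA.st_XI RAA.st_SPN

theorem aRAA_PT : RAA.St_PT :=
  RAA.st_PT RAA.st_PTE RAA.st_SPN aRAA_XI RAA.st_LO RA.st_PZ

theorem aRAA_ORD : RAA.St_ORD :=
  RAA.st_ORD aRAA_XI aRAA_PT

theorem aRAA_LN : RAA.St_LN :=
  RAA.st_LN aRAA_XI aRAA_PT RAA.st_SPN

theorem aRAA_CQ : RAA.St_CQ :=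
  RAA.st_CQ RAA.st_A4 RAA.st_LNT

theorem aRAA_NF : RAA.St_NF :=
  RAA.st_NF RAA.st_SPN

theorem aRAA_FG : RAA.St_FG :=
  RAA.st_FG aRAA_ORD aRAA_NF aRAA_PT RAA.st_FL RAA.st_SPN

theorem aRAA_FB1 : RAA.St_FB1 :=
  RAA.st_FB1 aRAA_ORD aRAA_NF RAA.st_FL RAA.st_RIC RAA.st_SPN aRAA_XI RAA.st_CHI

theorem aRAA_KEY : RAA.St_KEY :=
  RAA.st_KEY RAA.st_RIC RAA.st_FL RAA.st_A4

theorem aRAA_POS : RAA.St_POS :=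
  RAA.st_POS aRAA_ORD aRAA_NF aRAA_FB1 aRAA_KEY RAA.st_SPN

theorem aRAA_PSI : RAA.St_PSI :=
  RAA.st_PSI RAA.st_LNT RAA.st_A4

theorem aRAA_A6m : RAA.St_A6m :=
  RAA.st_A6m RAA.st_MIX RAA.st_CHI

theorem aRAA_A6b : RAA.St_A6b :=
  RAA.st_A6b RAD.dTOP RAA.st_CHI RAA.st_MIX

theorem aRAA_A6r : RAA.St_A6r :=
  RAA.st_A6r RAD.dTOP RAA.st_CHI RAA.st_A4 aRAA_CQ aRAA_PSI aRAA_A6m aRAA_A6b

theorem aRAA_A6a : RAA.St_A6a :=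
  RAA.st_A6a aRAA_A6m RAA.st_TOP2

theorem aRAA_A6c : RAA.St_A6c :=
  RAA.st_A6c HS.asAUBIN aRAA_A6r aRAA_A6a

theorem aRAA_A6d : RAA.St_A6d :=
  RAA.st_A6d aRAA_A6c aRAA_A6m RAA.st_CHI RAD.dTOP

theorem aRAA_FB2 : RAA.St_FB2 :=
  RAA.st_FB2 aRAA_XI RAA.st_FL

theorem aRAA_EQ : RAA.St_EQ :=
  RAA.st_EQ aRAA_POS RAA.st_A5b aRAA_A6d aRAA_FB1 aRAA_FB2 RAA.st_CHI

theorem aRA_A : RA.St_A :=
  RAA.a_of aRAA_ORD aRAA_LN aRAA_CQ aRAA_FG aRAA_FB1 aRAA_POS aRAA_EQ RAA.st_KER RAA.st_SPN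
    RAA.st_CHI RAA.st_RIC

theorem aRA_FIN : RA.St_FIN :=
  RA.st_FIN RA.bGLB

theorem aRA_FCOR : RA.St_FCOR :=
  RA.st_FCOR RA.st_FHM RA.st_FINV

theorem aRA_FRCL : RA.St_FRCL :=
  RA.st_FRCL RA.st_FHM

theorem aRA_FSUM : RA.St_FSUM :=
  RA.st_FSUM RA.st_FHM RA.st_FLG RA.st_FREL aRA_FRCL

theorem aRA_FRBX : RA.St_FRBX :=
  RA.st_FRBX RA.st_FHM RA.st_FREL

theorem aRA_FLOC : RA.St_FLOC :=
  RA.st_FLOC RA.st_FHM RA.st_FREL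

theorem aRAF_H1A : RAF.St_H1A :=
  RAF.st_H1A KP.aPOI

theorem aRA_FST : RA.St_FST :=
  RAF.st_FST RAF.st_LOC RAF.st_UNI RAF.st_LGC aRAF_H1A RAF.st_PIC KP.aHARM

theorem aRAF_BAS : RAF.St_BAS :=
  RAF.st_BAS RAF.st_DESC RAF.st_UNS RAF.st_BRK RA.st_TV RAD.dWAD RAD.dATL RA.st_MER

theorem aRAF_BASF : RAF.St_BASF :=
  RAF.st_BASF aRAF_BAS

theorem aRA_F : RA.St_F :=
  RA.st_F RA.st_FSEC RA.st_FLG RA.st_FKIL RA.st_FSEL aRA_FCOR RA.st_FNRM RA.st_FU0 aRA_FSUM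
    aRA_FRBX aRA_FLOC RA.st_FDS RA.st_FDT aRA_FST aRAF_BAS aRAF_BASF

theorem aRA_G1 : RA.St_G1 :=
  RA.st_G1 RA.st_MER

theorem aRA_G2 : RA.St_G2 :=
  RA.st_G2 HS.asHOR

theorem aMAIN : RA.St_MAIN := fun _ _ _ _ M _ _ _ _ _ _ _ hP hS hr =>
  RA.main_of aRA_A RA.bFAM RA.bBOX aRA_FIN RAD.dD RA.st_PHH
    RA.st_EBX RAE.eE RA.st_DEP RAE.eCRAM RAG.gCOER aRA_F
    aRA_G1 aRA_G2 RA.st_RN RA.st_R0 M hP hS hr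

end Pool.Agent.Lib.RAall
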