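import Pool.Agent.Lib.HS.B_PEAK1
import Pool.Agent.Lib.HS.B_SC5
import Pool.Agent.Lib.HS32.MAll

/-! Project ra1, row G2, part a: holomorphic sections with a prescribed first order jet. -/

open scoped Classical Topology ContDiff ComplexOrder Matrix ENNReal
open Set MeasureTheory Complex Metric Filter

set_option linter.unusedVariables false

noncomputable section

namespace Pool.Agent.Lib.RA.G2B

open Pool.Agent.Lib.SV (E nsq)
open Pool.Agent.Lib.HS32 Pool.Agent.Lib.HS.P55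
open Pool.Agent.Lib.HS (St_HOR St_SC5 st_SC5)

variable {n : ℕ} {M : Mf n}

theorem hsec_add {m : ℕ} {s t : M.Fam ℂ} (hs : M.HSec m s) (ht : M.HSec m t) : M.HSec m (s + t) :=
  ⟨⟨fun e he z hz => (hs.sm e he z hz).add (ht.sm e he z hz), fun e he e' he' x hx hx' => by
    simp only [Pi.add_apply]
    rw [hs.cmp e he e' he' x hx hx', ht.cmp e he e' he' x hx hx', add_mul]⟩,
    fun e he z hz => (hs.hol e he z hz).add (ht.hol e he z hz)⟩

theorem hsec_smul {m : ℕ} {s : M.Fam ℂ} (a : ℂ) (hs : M.HSec m s) : M.HSec m (a • s) :=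
  ⟨⟨fun e he z hz => contDiffAt_const.mul (hs.sm e he z hz), fun e he e' he' x hx hx' => by
    simp only [Pi.smul_apply, smul_eq_mul]
    rw [hs.cmp e he e' he' x hx hx', mul_assoc]⟩,
    fun e he z hz => (hs.hol e he z hz).const_mul a⟩

/-- Approximation of order two. -/
theorem approx (hHOR : St_HOR) [M.Cpt] {H : M.Fam (Mat n)} {u : M.X → ℝ} (hn : 0 < n)
    (hK : M.Kae H) (hu : M.Sm u) (h0 : M.Le 0 (M.theta H u)) {e : M.Ch} (he : e ∈ M.C) {c : E n}
    {r C C' : ℝ} (hr : 0 < r) (hC' : 0 ≤ C') (hb : ball c r ⊆ e.target) {p : ℕ}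
    (hp : ((n : ℝ) + 2) * C + 1 ≤ p) {σ : M.Fam ℂ} (hσ : M.Sec (p + 1) σ)
    (hσd : DifferentiableOn ℂ (σ e) (ball c r)) {K : Set M.X} (hKc : IsClosed K)
    (hdb : M.DbLe H (p + 1) σ (K.indicator fun _ => C') (M.theta H u))
    (hl : ∀ δ ∈ Ioc (0 : ℝ) 1, ∃ l : M.X → ℝ, M.Sm l ∧ M.Le 0 (C • M.theta H u + M.hs l) ∧
      (∀ z ∈ ball c r, l (e.symm z) ≤ Real.log (nsq (z - c) + δ) + C') ∧ ∀ x ∈ K, -C' ≤ l x) :
    ∃ B : ℝ, 0 ≤ B ∧ ∀ ρ, 0 < ρ → ρ ≤ 1 → ρ ≤ r / 2 → ∃ s, M.HSec (p + 1) s ∧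
      ∀ z ∈ ball c (ρ / 2), ‖σ e z - s e z‖ ≤ B * ρ ^ 2 := by
  have hSC : St_SC5 := st_SC5 mTR mCHN mHOL
  obtain ⟨U, hU, hU'⟩ := hu.exists_bound
  have hcb : closedBall c (r / 2) ⊆ e.target := (closedBall_subset_ball (half_lt_self hr)).trans hb
  obtain ⟨D, hD, hD'⟩ := (mBD n M H hK.toMet).2.2.1 e he _ (isCompact_closedBall _ _) hcb
  obtain ⟨-, hfin, -, -, hint, hch, -⟩ := mMU n M H hK.toMet
  set V := (volume (ball (0 : E n) 1)).toReal with hV
  have hV0 : 0 < V := ENNReal.toReal_pos (measure_ball_pos _ _ one_pos).ne' measure_ball_lt_top.ne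
  set A := C' * Real.exp (p * U + (n + 2) * C') * (M.mu H).real univ with hA
  set k := (D ^ p)⁻¹ * Real.exp (-(p * U + (n + 2) * C')) / (n + 1) ^ (n + 2) / 2 ^ (2 * n) * V
    with hk
  have hk0 : 0 < k := by positivity
  have hA0 : 0 ≤ A := by positivity
  refine ⟨√(A / k), Real.sqrt_nonneg _, fun ρ h1 h2 h3 => ?_⟩
  obtain ⟨l, hls, hl0, hl1, hl2⟩ := hl (ρ ^ 2) ⟨by positivity, pow_le_one₀ h1.le h2⟩
  have hw := wle hu hls h0 hl0 (by positivity) hp
  have hws : M.Sm fun x => p * u x + (n + 2) * l x := (hu.const_mul _).add (hls.const_mul _)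
  have hbb : ∀ x, 0 ≤ K.indicator (fun _ => C') x ∧ K.indicator (fun _ => C') x ≤ C' := fun x => by
    by_cases hx : x ∈ K <;> simp [hx, hC']
  obtain ⟨s, hs, hi⟩ := hHOR n M H p _ _ σ C' hn hK hws hσ (h0.trans hw)
    (measurable_const.indicator hKc.measurableSet) hbb fun e he z hz v =>
      (hdb e he z hz v).trans (mul_le_mul_of_nonneg_left (nq_mono (hw e he z hz) v) (hbb _).1)
  refine ⟨s, hs, fun z₀ hz₀ => ?_⟩
  have hss := (hSC n M H _ σ s hK.toMet hσ hs.toSec).1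
  obtain ⟨-, -, hrep, hcont, -, -, -, -, hnn, -⟩ := hSC n M H _ _ _ hK.toMet hss hss
  have hup : ∫ x, K.indicator (fun _ => C') x * Real.exp (-(p * u x + (n + 2) * l x)) ∂M.mu H ≤
      A := by
    rw [hA, mul_comm, ← smul_eq_mul, ← integral_const]
    refine integral_mono_of_nonneg (Eventually.of_forall fun x => mul_nonneg (hbb x).1
      (Real.exp_pos _).le) (integrable_const _) (Eventually.of_forall fun x => ?_)
    by_cases hx : x ∈ K
    · simp only [indicator_of_mem hx]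
      refine mul_le_mul_of_nonneg_left (Real.exp_le_exp.2 ?_) hC'
      have := hl2 x hx
      have := neg_le_of_abs_le (hU' x)
      nlinarith [Nat.cast_nonneg (α := ℝ) p, Nat.cast_nonneg (α := ℝ) n]
    · simp only [indicator_of_notMem hx, zero_mul]
      positivity
  have hs1 : ball z₀ (ρ / 2) ⊆ ball c ρ := ball_subset_ball' (by linarith [mem_ball.1 hz₀])
  have hsub : ball z₀ (ρ / 2) ⊆ closedBall c (r / 2) :=
    hs1.trans (ball_subset_closedBall.trans (closedBall_subset_closedBall h3))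
  have hsr : ball z₀ (ρ / 2) ⊆ ball c r := hs1.trans (ball_subset_ball (by linarith))
  have hG : ∀ x, 0 ≤ M.nr H (p + 1) (σ - s) x * Real.exp (-(p * u x + (n + 2) * l x)) :=
    fun x => mul_nonneg (hnn x).1 (Real.exp_pos _).le
  have h4 := low (f := fun z => σ e z - s e z) (A := A) (half_pos h1)
    (κ := (D ^ p)⁻¹ * Real.exp (-(p * U + (n + 2) * C')) / ((n + 1) * ρ ^ 2) ^ (n + 2))
    (by positivity) hA0
    ((hσd.mono hsr).sub fun z hz => (hs.hol e he z (hb (hsr hz))).differentiableWithinAt)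
    (g := fun z => ENNReal.ofReal (H e z).det.re * ENNReal.ofReal (M.nr H (p + 1) (σ - s)
      (e.symm z) * Real.exp (-(p * u (e.symm z) + (n + 2) * l (e.symm z)))))
    (fun z hz => by
      obtain ⟨-, -, d1, d2⟩ := hD' z (hsub hz)
      have d0 : 0 < (H e z).det.re := lt_of_lt_of_le (by positivity) d1
      rw [← ENNReal.ofReal_mul d0.le, hrep e he z (hb (hsr hz))]
      refine ENNReal.ofReal_le_ofReal ?_
      have e1 : l (e.symm z) ≤ Real.log ((n + 1) * ρ ^ 2) + C' := by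
        refine (hl1 z (hsr hz)).trans (add_le_add_left (Real.log_le_log ?_ ?_) _)
        · have : 0 ≤ nsq (z - c) := Finset.sum_nonneg fun j _ => normSq_nonneg _
          positivity
        · have := nsq_le (mem_ball_iff_norm.1 (hs1 hz))
          linarith
      have e2 : Real.exp (-(p * U + (n + 2) * C')) / ((n + 1) * ρ ^ 2) ^ (n + 2) ≤
          Real.exp (-(p * u (e.symm z) + (n + 2) * l (e.symm z))) := by
        rw [← Real.exp_log (x := (n + 1) * ρ ^ 2) (by positivity), ← Real.exp_nat_mul,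
          ← Real.exp_sub]
        refine Real.exp_le_exp.2 ?_
        have := le_of_abs_le (hU' (e.symm z))
        push_cast
        nlinarith [Nat.cast_nonneg (α := ℝ) p, Nat.cast_nonneg (α := ℝ) n]
      have e3 : (D ^ p)⁻¹ ≤ ((H e z).det.re ^ p)⁻¹ :=
        inv_anti₀ (by positivity) (pow_le_pow_left₀ d0.le d2 p)
      calc _ = (D ^ p)⁻¹ * (Real.exp (-(p * U + (n + 2) * C')) / ((n + 1) * ρ ^ 2) ^ (n + 2)) *
            normSq (σ e z - s e z) := by ring
        _ ≤ ((H e z).det.re ^ p)⁻¹ * Real.exp (-(p * u (e.symm z) + (n + 2) * l (e.symm z))) *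
            normSq (σ e z - s e z) := by
          have := normSq_nonneg (σ e z - s e z)
          gcongr
        _ = _ := by
          simp only [Pi.sub_apply]
          field_simp
          ring)
    (by
      rw [← ((hch e he _ measurableSet_ball (hsub.trans hcb)).2.1 fun x => ENNReal.ofReal
        (M.nr H (p + 1) (σ - s) x * Real.exp (-(p * u x + (n + 2) * l x))))]
      refine (setLIntegral_le_lintegral _ _).trans ?_
      exact (ofReal_integral_eq_lintegral_ofReal (hint _ _ (hcont.mul hws.neg.exp.continuous))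
        (Eventually.of_forall hG)).ge.trans (ENNReal.ofReal_le_ofReal (hi.trans hup)))
  have h5 : k * normSq (σ e z₀ - s e z₀) ≤ A * (ρ ^ 2) ^ 2 := by
    rw [← div_le_iff₀ (by positivity)]
    refine le_of_eq_of_le ?_ h4
    rw [hk, hV, mul_pow, div_pow]
    field_simp
    ring
  refine abs_le_of_sq_le_sq' ?_ (by positivity) |>.2
  rw [mul_pow, Real.sq_sqrt (by positivity), ← normSq_eq_norm_sq, div_mul_eq_mul_div,
    le_div_iff₀ hk0]
  linarith

/-- The jets of holomorphic sections form a closed set. -/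
theorem jet {m : ℕ} {e : M.Ch} (he : e ∈ M.C) {c : E n} {r B : ℝ} (hr : 0 < r) (hB : 0 ≤ B)
    (hb : ball c r ⊆ e.target) {f : E n → ℂ} (hf : DifferentiableOn ℂ f (ball c r))
    (h : ∀ ρ, 0 < ρ → ρ ≤ 1 → ρ ≤ r / 2 → ∃ s, M.HSec m s ∧
      ∀ z ∈ ball c (ρ / 2), ‖f z - s e z‖ ≤ B * ρ ^ 2) :
    ∃ s, M.HSec m s ∧ s e c = f c ∧ fderiv ℂ (s e) c = fderiv ℂ f c := by
  have hc : c ∈ e.target := hb (mem_ball_self hr)
  let S : Submodule ℂ (ℂ × (E n →L[ℂ] ℂ)) :=
    { carrier := {y | ∃ s, M.HSec m s ∧ s e c = y.1 ∧ fderiv ℂ (s e) c = y.2}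
      add_mem' := by
        rintro y y' ⟨s, hs, a, b⟩ ⟨t, ht, a', b'⟩
        refine ⟨s + t, hsec_add hs ht, by simp [a, a'], ?_⟩
        rw [Prod.snd_add, ← b, ← b', ← fderiv_add (hs.hol e he c hc) (ht.hol e he c hc)]
        rfl
      zero_mem' := ⟨0, ⟨⟨fun _ _ _ _ => contDiffAt_const, fun _ _ _ _ _ _ _ => by simp⟩,
        fun _ _ _ _ => differentiableAt_const _⟩, rfl, by
          change fderiv ℂ (fun _ : E n => (0 : ℂ)) c = 0
          simp⟩
      smul_mem' := by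
        rintro a y ⟨s, hs, a1, b⟩
        refine ⟨a • s, hsec_smul a hs, by simp [a1], ?_⟩
        rw [Prod.smul_snd, ← b, ← fderiv_const_smul (hs.hol e he c hc)]
        rfl }
  have hcl : IsClosed (S : Set (ℂ × (E n →L[ℂ] ℂ))) := S.closed_of_finiteDimensional
  have hm : (f c, fderiv ℂ f c) ∈ closure (S : Set (ℂ × (E n →L[ℂ] ℂ))) := by
    refine Metric.mem_closure_iff.2 fun ε hε => ?_
    have ht : Tendsto (fun ρ : ℝ => 4 * B * ρ) (𝓝[>] 0) (𝓝 (4 * B * 0)) :=
      (Continuous.tendsto (by fun_prop) 0).mono_left nhdsWithin_le_nhds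
    have i1 : ∀ᶠ ρ : ℝ in 𝓝[>] 0, ρ ∈ Ioc 0 1 := Ioc_mem_nhdsGT one_pos
    have i2 : ∀ᶠ ρ : ℝ in 𝓝[>] 0, ρ ∈ Ioc 0 (r / 2) := Ioc_mem_nhdsGT (half_pos hr)
    have i3 : ∀ᶠ ρ : ℝ in 𝓝[>] 0, 4 * B * ρ < ε := ht.eventually (gt_mem_nhds (by simpa using hε))
    obtain ⟨ρ, h1, h2, h3⟩ := (i1.and (i2.and i3)).exists
    obtain ⟨s, hs, h4⟩ := h ρ h1.1 h1.2 h2.2
    have hsr : ball c (ρ / 2) ⊆ ball c r := ball_subset_ball (by linarith [h2.2, h1.1])
    have h5 := h4 c (mem_ball_self (half_pos h1.1))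
    have hd : DifferentiableOn ℂ (fun z => f z - s e z) (ball c (ρ / 2)) :=
      (hf.mono hsr).sub fun z hz => (hs.hol e he z (hb (hsr hz))).differentiableWithinAt
    have h6 := Complex.norm_fderiv_le_div_of_mapsTo_ball (R₂ := 2 * (B * ρ ^ 2)) hd
      (fun z hz => mem_closedBall_iff_norm.2 ((norm_sub_le _ _).trans (by linarith [h4 z hz])))
      (half_pos h1.1)
    rw [fderiv_fun_sub (hf.differentiableAt (ball_mem_nhds c hr)) (hs.hol e he c hc)] at h6
    have h7 : 2 * (B * ρ ^ 2) / (ρ / 2) = 4 * B * ρ := by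
      have := h1.1.ne'
      field_simp
      ring
    refine ⟨(s e c, fderiv ℂ (s e) c), ⟨s, hs, rfl, rfl⟩, ?_⟩
    rw [Prod.dist_eq, dist_eq_norm, dist_eq_norm]
    refine max_lt (h5.trans_lt (lt_of_le_of_lt ?_ h3)) (h6.trans_lt (h7 ▸ h3))
    have := mul_nonneg hB h1.1.le
    nlinarith [h1.2]
  exact hcl.closure_subset hm

end Pool.Agent.Lib.RA.G2B
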