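import Pool.Agent.Lib.RA.T_JEN0
import Pool.Agent.Lib.HS32.B_HOL

/-! The order of vanishing is bounded by the mass of the Laplacian. -/

open scoped Classical Topology ENNReal ContDiff ComplexOrder Matrix
open Set MeasureTheory Complex Metric Filter

noncomputable section

namespace Pool.Agent.Lib.RA

open Pool.Agent.Lib.SV (E nsq)
open Pool.Agent.Lib.HS32 Pool.Agent.Lib.HS66

/-- The inequality of Jensen. -/
def St_JEN : Prop := ∀ (e : ℕ) (R : ℝ), 0 < R → ∃ C : ℝ, 0 < C ∧
  ∀ (c : E e) (f : E e → ℂ) (ψ : E e → ℝ) (N : ℕ) (A : ℝ), DifferentiableOn ℂ f (ball c R) →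
    (∀ z ∈ ball c R, ContDiffAt ℝ ∞ ψ z) → (∃ y ∈ ball c R, f y ≠ 0) →
    (f =O[𝓝 c] fun y => ‖y - c‖ ^ N) →
    (∀ d ∈ Ioc (0 : ℝ) 1, (∀ z ∈ ball c (R / 2),
      (hess (fun y => (Real.log (normSq (f y) + d * Real.exp (ψ y)) : ℝ)) z).PosSemidef) ∧
      ∫ z in ball c (R / 2),
        (hess (fun y => (Real.log (normSq (f y) + d * Real.exp (ψ y)) : ℝ)) z).trace.re ≤ A) →
    (N : ℝ) ≤ C * A

namespace Jen

variable {n : ℕ}

theorem lim {x y c s₀ : ℝ} (h0 : 0 < s₀)
    (h : ∀ s, 0 < s → s ≤ s₀ → s ≤ 1 → x * -Real.log s ≤ y * -Real.log s + c) : x ≤ y := by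
  by_contra hxy
  have hd : 0 < x - y := sub_pos.2 (not_le.1 hxy)
  set T := max (max (-Real.log s₀) 0) ((c + 1) / (x - y)) with hT
  have h1 : -Real.log s₀ ≤ T := (le_max_left _ _).trans (le_max_left _ _)
  have h2 : 0 ≤ T := (le_max_right _ _).trans (le_max_left _ _)
  have h3 : (c + 1) / (x - y) ≤ T := le_max_right _ _
  have h4 := h (Real.exp (-T)) (Real.exp_pos _)
    ((Real.exp_le_exp.2 (show -T ≤ Real.log s₀ by linarith)).trans_eq (Real.exp_log h0))
    (Real.exp_le_one_iff.2 (by linarith))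
  rw [Real.log_exp, neg_neg] at h4
  rw [div_le_iff₀ hd] at h3
  nlinarith

theorem core {R : ℝ} (hR : 0 < R) : ∃ C : ℝ, 0 < C ∧
    ∀ (u v : E n → ℝ) (N : ℕ) (A : ℝ), (∀ z ∈ ball (0 : E n) R, ContDiffAt ℝ ∞ u z ∧
      ContDiffAt ℝ ∞ v z ∧ 0 ≤ u z ∧ 0 < v z) → (∃ᶠ y in 𝓝 0, u y ≠ 0) →
    (u =O[𝓝 0] fun y => (‖y‖ ^ N) ^ 2) →
    (∀ d ∈ Ioc (0 : ℝ) 1, (∀ z ∈ ball (0 : E n) (R / 2),
      (hess (fun y => (Real.log (u y + d * v y) : ℝ)) z).PosSemidef) ∧
      ∫ z in ball (0 : E n) (R / 2),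
        (hess (fun y => (Real.log (u y + d * v y) : ℝ)) z).trace.re ≤ A) → (N : ℝ) ≤ C * A := by
  set r := R / 8 with hr'
  have hr : 0 < r := by positivity
  have e4 : R / 2 = 4 * r := by rw [hr']; ring
  have p1 := kk_pos (n := n) hr
  obtain ⟨K, hK, hlow⟩ := lower (n := n) hr
  refine ⟨(∫ t : E n, kk r t)⁻¹ * r ^ 4 / 2, by positivity, fun u v N A h hfr hO hd => ?_⟩
  have hg := ker_gk (n := n) hr
  have hsub : closedBall (0 : E n) (R / 2) ⊆ ball 0 R := closedBall_subset_ball (by linarith)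
  obtain ⟨M₁, hM₁⟩ := (isCompact_closedBall (0 : E n) (R / 2)).exists_bound_of_continuousOn
    (f := u) fun z hz => (h z (hsub hz)).1.continuousAt.continuousWithinAt
  obtain ⟨M₂, hM₂⟩ := (isCompact_closedBall (0 : E n) (R / 2)).exists_bound_of_continuousOn
    (f := v) fun z hz => (h z (hsub hz)).2.1.continuousAt.continuousWithinAt
  have h00 : (0 : E n) ∈ closedBall (0 : E n) (R / 2) := mem_closedBall_self (by positivity)
  have hM : 0 < M₂ := (h 0 (hsub h00)).2.2.2.trans_le ((le_abs_self _).trans (hM₂ 0 h00))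
  obtain ⟨y, hy0, hy1, hy2⟩ : ∃ y, u y ≠ 0 ∧ nsq y < (r / 2) ^ 2 ∧ y ∈ ball (0 : E n) (R / 2) :=
    (hfr.and_eventually (((nsq_cont.tendsto 0).eventually (gt_mem_nhds (by
      simp only [nsq, Pi.zero_apply, map_zero, Finset.sum_const_zero]; positivity))).and
      (ball_mem_nhds 0 (by positivity)))).exists
  have hyu : 0 < u y := lt_of_le_of_ne (h y (hsub (ball_subset_closedBall hy2))).2.2.1 hy0.symm
  obtain ⟨c, hc, hc'⟩ := hO.exists_pos
  obtain ⟨δ, hδ, hδ'⟩ := Metric.eventually_nhds_iff_ball.1 hc'.bound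
  have key : (2 * N : ℝ) ≤ (∫ t : E n, kk r t)⁻¹ * r ^ 4 * A := by
    refine lim (s₀ := δ / (2 * r)) (c := Real.log (c * (r ^ N) ^ 2 + M₂) -
      (Real.log (M₁ + M₂) - K * (Real.log (M₁ + M₂) - Real.log (u y)))) (by positivity)
      fun s hs hs0 hs1 => ?_
    have hd0 : 0 < (s ^ N) ^ 2 := by positivity
    have hd1 : (s ^ N) ^ 2 ≤ 1 := pow_le_one₀ (by positivity) (pow_le_one₀ hs.le hs1)
    obtain ⟨hp, hA⟩ := hd _ ⟨hd0, hd1⟩
    set d := (s ^ N) ^ 2 with hdd
    have hpos : ∀ z ∈ ball (0 : E n) R, 0 < u z + d * v z := fun z hz =>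
      add_pos_of_nonneg_of_pos (h z hz).2.2.1 (mul_pos hd0 (h z hz).2.2.2)
    obtain ⟨W, hW, hWe⟩ := cut (w := fun y => Real.log (u y + d * v y)) (ρ := R / 2)
      (by positivity) fun z hz => by
        have hz' : z ∈ ball (0 : E n) R := by rwa [show 2 * (R / 2) = R by ring] at hz
        exact ((h z hz').1.add (contDiffAt_const.mul (h z hz').2.1)).log (hpos z hz').ne'
    have hh : ∀ z ∈ ball (0 : E n) (R / 2), hess (fun y => (W y : ℂ)) z =
        hess (fun y => (Real.log (u y + d * v y) : ℝ)) z := fun z hz =>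
      hess_congr ((hWe z hz).mono fun w hw => by simp only [hw])
    have hp' : ∀ z ∈ ball (0 : E n) (4 * r), (hess (fun y => (W y : ℂ)) z).PosSemidef :=
      fun z hz => by rw [← e4] at hz; rw [hh z hz]; exact hp z hz
    have g1 := growth hr hW hp' (A := A) (by
      rw [← e4, setIntegral_congr_fun measurableSet_ball fun z hz => by rw [hh z hz]]
      exact hA) hs hs1
    have g2 := hlow W (Real.log (M₁ + M₂)) y hW (fun z hz => ⟨hp' z hz, by
      rw [← e4] at hz
      have hz' := ball_subset_closedBall hz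
      rw [(hWe z hz).eq_of_nhds]
      refine Real.log_le_log (hpos z (hsub hz')) (add_le_add ((le_abs_self _).trans (hM₁ z hz')) ?_)
      have := (le_abs_self _).trans (hM₂ z hz')
      nlinarith [(h z (hsub hz')).2.2.2]⟩) hy1.le
    have g3 : Real.log (u y) ≤ W y := by
      rw [(hWe y hy2).eq_of_nhds]
      exact Real.log_le_log hyu (le_add_of_nonneg_right
        (mul_pos hd0 (h y (hsub (ball_subset_closedBall hy2))).2.2.2).le)
    have hW0 := hW.continuous
    have g4 : ∫ t, gk r t • W (0 - s • t) ≤ Real.log (d * (c * (r ^ N) ^ 2 + M₂)) := by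
      have := integral_mono (hg.int_smul (f := fun t => W (0 - s • t)) (by fun_prop))
        (hg.int_smul (f := fun _ => Real.log (d * (c * (r ^ N) ^ 2 + M₂))) continuous_const)
        fun t => by
          by_cases ht : gk r t = 0
          · simp [ht]
          refine smul_le_smul_of_nonneg_left ?_ (hg.nn t)
          have h1 : ‖(0 : E n) - s • t‖ ≤ s * r := by
            rw [zero_sub, norm_neg, norm_smul, Real.norm_of_nonneg hs.le]
            exact mul_le_mul_of_nonneg_left (hg.supp t ht) hs.le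
          have h2 : s * r ≤ δ / 2 := by
            rw [le_div_iff₀ (by positivity)] at hs0
            linarith
          have h3 : (0 : E n) - s • t ∈ ball (0 : E n) (R / 2) :=
            mem_ball_zero_iff.2 (by nlinarith)
          have h3' := ball_subset_closedBall h3
          have h4 := hδ' _ (mem_ball_zero_iff.2 (show ‖(0 : E n) - s • t‖ < δ by linarith))
          rw [(hWe _ h3).eq_of_nhds]
          refine Real.log_le_log (hpos _ (hsub h3')) ?_
          rw [mul_add]
          refine add_le_add ((le_abs_self _).trans (h4.trans ?_)) (mul_le_mul_of_nonneg_left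
            ((le_abs_self _).trans (hM₂ _ h3')) hd0.le)
          rw [Real.norm_of_nonneg (by positivity), hdd, mul_left_comm, ← mul_pow, ← mul_pow]
          gcongr
      rwa [integral_smul_const, hg.int, one_smul] at this
    rw [Real.log_mul hd0.ne' (by positivity), hdd, Real.log_pow, Real.log_pow] at g4
    have g5 := mul_le_mul_of_nonneg_left (sub_le_sub_left g3 (Real.log (M₁ + M₂))) hK.le
    push_cast at g4
    linarith
  linarith

theorem hess_add (F : E n → ℂ) (c z : E n) : hess (fun y => F (y + c)) z = hess F (z + c) := by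
  have h1 : ∀ (G : E n → ℂ) j, dz j (fun y => G (y + c)) = fun y => dz j G (y + c) := fun G j => by
    funext y
    simp only [dz, fderiv_comp_add_right]
  ext i j
  simp only [hess, Matrix.of_apply, h1, dzb, fderiv_comp_add_right]

end Jen

theorem st_JEN : St_JEN := by
  intro e R hR
  obtain ⟨C, hC, H⟩ := Jen.core (n := e) hR
  refine ⟨C, hC, fun c f ψ N A hf hψ hy hO hd => ?_⟩
  have hm : ∀ (ρ : ℝ) (z : E e), z ∈ ball (0 : E e) ρ ↔ z + c ∈ ball c ρ := fun ρ z => by
    simp [mem_ball, dist_eq_norm]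
  have ht : Tendsto (fun y : E e => y + c) (𝓝 0) (𝓝 c) := by
    simpa using (continuous_add_right c).tendsto (0 : E e)
  have hs : ∀ (G : E e → ℝ) (z : E e), ContDiffAt ℝ ∞ G (z + c) →
      ContDiffAt ℝ ∞ (fun y => G (y + c)) z := fun G z h =>
    h.comp z (contDiffAt_id.add contDiffAt_const)
  refine H (fun y => normSq (f (y + c))) (fun y => Real.exp (ψ (y + c))) N A
    (fun z hz => ⟨?_, (hs ψ z (hψ _ ((hm R z).1 hz))).exp, normSq_nonneg _, Real.exp_pos _⟩)
    ?_ ?_ fun d hd' => ?_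
  · refine hs (fun y => normSq (f y)) z (BHOL.cd_nsq ?_)
    exact (((SV.H85.contDiffOn_top isOpen_ball hf).restrict_scalars ℝ).contDiffAt
      (isOpen_ball.mem_nhds ((hm R z).1 hz)))
  · by_contra h
    obtain ⟨y, hy, hy0⟩ := hy
    refine hy0 (SV.H85.eq_zero_of_convex isOpen_ball (convex_ball c R) hf (mem_ball_self hR) ?_ hy)
    have ht' : Tendsto (fun y : E e => y - c) (𝓝 c) (𝓝 0) := by
      simpa using (continuous_sub_right c).tendsto c
    filter_upwards [ht'.eventually (not_frequently.1 h)] with w hw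
    simpa using hw
  · have h1 := (hO.comp_tendsto ht).norm_left.pow 2
    simpa only [Function.comp_def, add_sub_cancel_right, normSq_eq_norm_sq] using h1
  · obtain ⟨h1, h2⟩ := hd d hd'
    have e1 := Jen.hess_add
      (fun y => ((Real.log (normSq (f y) + d * Real.exp (ψ y)) : ℝ) : ℂ)) c
    simp only [e1]
    refine ⟨fun z hz => h1 _ ((hm _ z).1 hz), le_trans (le_of_eq ?_) h2⟩
    have := (measurePreserving_add_right (volume : Measure (E e)) c).setIntegral_preimage_emb
      (measurableEmbedding_addRight c) (fun z => (hess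
        (fun y => ((Real.log (normSq (f y) + d * Real.exp (ψ y)) : ℝ) : ℂ)) z).trace.re)
      (ball c (R / 2))
    rw [← this]
    congr 2
    ext z
    exact hm _ z

end Pool.Agent.Lib.RA
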