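import Mathlib

/-! From a bound against test functions to a bound on many slices. -/

open scoped Topology ContDiff Manifold
open Set MeasureTheory Filter Metric

namespace Pool.Agent.Lib.RA

/-- A finite family of smooth non-negative functions with compact support in `D` and sum at
most one. -/
def Bumps {S κ : Type} [NormedAddCommGroup S] [NormedSpace ℝ S] [Fintype κ] (D : Set S)
    (ψ : κ → S → ℝ) : Prop :=
  (∀ a, ContDiff ℝ ∞ (ψ a) ∧ HasCompactSupport (ψ a) ∧ tsupport (ψ a) ⊆ D ∧ ∀ s, 0 ≤ ψ a s) ∧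
    ∀ s, ∑ a, ψ a s ≤ 1

/-- If the continuous functions `G i` have total integral at most `B` against every family of
bumps, then the set where one of them exceeds `C` has measure at most `B / C`. -/
def St_SLC1 : Prop := ∀ (S : Type) [NormedAddCommGroup S] [NormedSpace ℝ S] [FiniteDimensional ℝ S]
  [MeasurableSpace S] [BorelSpace S] (μ : Measure S) [IsLocallyFiniteMeasure μ] (ι : Type)
  (G : ι → S → ℝ) (D : Set S) (B C : ℝ), IsOpen D → (∀ i, ContinuousOn (G i) D) → 0 < C →
  (∀ (κ : Type) [Fintype κ] (k : κ → ι) (ψ : κ → S → ℝ), Bumps D ψ →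
    ∑ a, ∫ s, ψ a s * G (k a) s ∂μ ≤ B) →
  μ {s | s ∈ D ∧ ∃ i, C < G i s} ≤ ENNReal.ofReal (B / C)

/-- The same for the integrals over the slices `K × {s}` of continuous functions on `K × D`: the
slices on which all integrals are at most `C` do not form a null set. -/
def St_SLC : Prop := ∀ (L S : Type) [NormedAddCommGroup L] [NormedSpace ℝ L] [FiniteDimensional ℝ L]
  [MeasurableSpace L] [BorelSpace L] [NormedAddCommGroup S] [NormedSpace ℝ S]
  [FiniteDimensional ℝ S] [MeasurableSpace S] [BorelSpace S] (ν : Measure L)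
  [IsLocallyFiniteMeasure ν] (μ : Measure S) [IsLocallyFiniteMeasure μ] (ι : Type)
  (F : ι → L × S → ℝ) (K : Set L) (D : Set S) (B C : ℝ), IsCompact K → IsOpen D →
  (∀ i, ContinuousOn (F i) (K ×ˢ D)) → 0 < C →
  (∀ (κ : Type) [Fintype κ] (k : κ → ι) (ψ : κ → S → ℝ), Bumps D ψ →
    ∑ a, ∫ p in K ×ˢ D, ψ a p.2 * F (k a) p ∂ν.prod μ ≤ B) →
  ENNReal.ofReal (B / C) < μ D → μ {s | s ∈ D ∧ ∀ i, ∫ l in K, F i (l, s) ∂ν ≤ C} ≠ 0

theorem st_SLC1 : St_SLC1 := by
  intro S _ _ _ _ _ μ _ ι G D B C hD hG hC h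
  have : ProperSpace S := FiniteDimensional.proper ℝ S
  let U : ι → Set S := fun i => D ∩ G i ⁻¹' Ioi C
  have hU : ∀ i, IsOpen (U i) := fun i => (hG i).isOpen_inter_preimage hD isOpen_Ioi
  have e : {s | s ∈ D ∧ ∃ i, C < G i s} = ⋃ i, U i := by
    ext s
    simp [U]
  rw [e]
  by_contra hlt
  obtain ⟨K, hKU, hK, hKm⟩ := (isOpen_iUnion hU).exists_lt_isCompact (not_le.1 hlt)
  obtain ⟨t, ht⟩ := hK.elim_finite_subcover U hU hKU
  obtain ⟨R, hR⟩ := hK.isBounded.subset_ball (0 : S)
  obtain ⟨ρ, hρ⟩ := SmoothPartitionOfUnity.exists_isSubordinate (ι := t) 𝓘(ℝ, S) hK.isClosed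
    (fun a => U a ∩ ball 0 R) (fun a => (hU a).inter isOpen_ball) (fun x hx => by
      obtain ⟨i, hi, hx'⟩ := mem_iUnion₂.1 (ht hx)
      exact mem_iUnion.2 ⟨⟨i, hi⟩, hx', hR hx⟩)
  have c1 : ∀ a, HasCompactSupport (ρ a) := fun a =>
    (isCompact_closedBall (0 : S) R).of_isClosed_subset (isClosed_tsupport _)
      fun x hx => ball_subset_closedBall (hρ a hx).2
  have c2 : ∀ a, Continuous (ρ a) := fun a => (ρ a).contMDiff.continuous
  have c3 : ∀ s, ∑ a, ρ a s ≤ 1 := fun s => by
    rw [← finsum_eq_sum_of_fintype]; exact ρ.sum_le_one s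
  have h1 := h t (fun a => a) (fun a => ρ a)
    ⟨fun a => ⟨(ρ a).contMDiff.contDiff, c1 a, fun x hx => (hρ a hx).1.1, ρ.nonneg a⟩, c3⟩
  have i1 : ∀ a, Integrable (ρ a) μ := fun a => (c2 a).integrable_of_hasCompactSupport (c1 a)
  have h2 : ∀ a : t, C * ∫ s, ρ a s ∂μ ≤ ∫ s, ρ a s * G a s ∂μ := by
    intro a
    rw [← integral_const_mul]
    refine integral_mono ((i1 a).const_mul C) ?_ fun s => ?_
    · refine Continuous.integrable_of_hasCompactSupport ?_ (c1 a).mul_right
      exact ((c2 a).continuousOn.mul (hG a)).continuous_of_tsupport_subset hD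
        (tsupport_mul_subset_left.trans fun x hx => (hρ a hx).1.1)
    · by_cases h0 : ρ a s = 0
      · simp [h0]
      · have h3 : C < G a s := (hρ a (subset_tsupport _ h0)).1.2
        have := ρ.nonneg a s
        simp only
        nlinarith
  have h3 : μ.real K ≤ ∑ a, ∫ s, ρ a s ∂μ := by
    rw [← integral_finsetSum _ fun a _ => i1 a, ← integral_indicator_one hK.measurableSet]
    refine integral_mono ((integrable_indicator_iff hK.measurableSet).2
      (continuousOn_const.integrableOn_compact hK)) (integrable_finsetSum _ fun a _ => i1 a)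
      fun s => ?_
    by_cases hs : s ∈ K
    · have := ρ.sum_eq_one hs
      rw [finsum_eq_sum_of_fintype] at this
      simp only [indicator_of_mem hs, this, Pi.one_apply, le_refl]
    · simp only [hs, not_false_eq_true, indicator_of_notMem]
      exact Finset.sum_nonneg fun a _ => ρ.nonneg a s
  have h4 : μ.real K ≤ B / C := by
    rw [le_div_iff₀ hC, mul_comm]
    refine (mul_le_mul_of_nonneg_left h3 hC.le).trans ?_
    rw [Finset.mul_sum]
    exact (Finset.sum_le_sum fun a _ => h2 a).trans h1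
  have h5 := ENNReal.ofReal_le_ofReal h4
  rw [ofReal_measureReal hK.measure_lt_top.ne] at h5
  exact absurd hKm (not_lt.2 h5)

theorem SLCB.cont {L S : Type*} [NormedAddCommGroup L] [NormedAddCommGroup S] [ProperSpace S]
    [MeasurableSpace L] [BorelSpace L] (ν : Measure L) [IsLocallyFiniteMeasure ν]
    {F : L × S → ℝ} {K : Set L} {D : Set S} (hK : IsCompact K) (hD : IsOpen D)
    (hF : ContinuousOn F (K ×ˢ D)) : ContinuousOn (fun s => ∫ l in K, F (l, s) ∂ν) D := by
  intro s hs
  obtain ⟨N, hN, hsN, hND⟩ := exists_compact_subset hD hs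
  obtain ⟨M, hM⟩ := (hK.prod hN).exists_bound_of_continuousOn (hF.mono (prod_mono Subset.rfl hND))
  have hn : N ∈ 𝓝 s := mem_interior_iff_mem_nhds.1 hsN
  refine (continuousAt_of_dominated (bound := fun _ => M) ?_ ?_
    (continuousOn_const.integrableOn_compact hK) ?_).continuousWithinAt
  · filter_upwards [hn] with y hy
    exact (hF.comp (f := fun l => (l, y)) (by fun_prop) fun l hl => ⟨hl, hND hy⟩).aestronglyMeasurable
      hK.measurableSet
  · filter_upwards [hn] with y hy
    exact (ae_restrict_iff' hK.measurableSet).2 (Eventually.of_forall fun l hl => hM (l, y) ⟨hl, hy⟩)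
  · refine (ae_restrict_iff' hK.measurableSet).2 (Eventually.of_forall fun l hl => ?_)
    exact (hF.comp (f := fun y => (l, y)) (by fun_prop) fun y hy => ⟨hl, hy⟩).continuousAt
      (hD.mem_nhds hs)

theorem st_SLC : St_SLC := by
  intro L S _ _ _ _ _ _ _ _ _ _ ν _ μ _ ι F K D B C hK hD hF hC h hB h0
  have : ProperSpace S := FiniteDimensional.proper ℝ S
  have h1 := st_SLC1 S μ ι (fun i s => ∫ l in K, F i (l, s) ∂ν) D B C hD
    (fun i => SLCB.cont ν hK hD (hF i)) hC (by
      intro κ _ k ψ hψ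
      refine le_of_eq_of_le (Finset.sum_congr rfl fun a _ => ?_) (h κ k ψ hψ)
      obtain ⟨a1, a2, a3, -⟩ := hψ.1 a
      have i1 : IntegrableOn (fun p : L × S => ψ a p.2 * F (k a) p) (K ×ˢ D) (ν.prod μ) := by
        have i2 : IntegrableOn (fun p : L × S => ψ a p.2 * F (k a) p) (K ×ˢ tsupport (ψ a))
            (ν.prod μ) :=
          (((a1.continuous.comp continuous_snd).continuousOn).mul
            ((hF (k a)).mono (prod_mono Subset.rfl a3))).integrableOn_compact (hK.prod a2)
        refine i2.of_forall_sdiff_eq_zero (hK.measurableSet.prod hD.measurableSet) fun p hp => ?_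
        rw [image_eq_zero_of_notMem_tsupport fun h => hp.2 ⟨hp.1.1, h⟩, zero_mul]
      rw [IntegrableOn, ← Measure.prod_restrict] at i1
      rw [← Measure.prod_restrict, integral_prod_symm _ i1,
        ← setIntegral_eq_integral_of_forall_compl_eq_zero (s := D)]
      · simp only [integral_const_mul]
      · intro s hs
        rw [image_eq_zero_of_notMem_tsupport fun h => hs (a3 h), zero_mul])
  refine absurd hB (not_lt.2 (le_trans ?_ h1))
  refine measure_mono_ae (Filter.mem_of_superset (compl_mem_ae_iff.2 h0) fun s hs hsD => ?_)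
  refine ⟨hsD, ?_⟩
  by_contra h2
  exact hs ⟨hsD, fun i => not_lt.1 fun h3 => h2 ⟨i, h3⟩⟩

end Pool.Agent.Lib.RA
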