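import Pool.Agent.Lib.RA.Defs
import Pool.Agent.Lib.RA.T_SLC
import Pool.Agent.Lib.PN.B_LG
import Pool.Agent.Lib.PN.B_LG2
import Pool.Agent.Lib.PN.B_CMP
import Pool.Agent.Lib.PN.B_FS
import Pool.Agent.Lib.PN.B_PHI
import Pool.Agent.Lib.HS32.B_BD

/-! The regularised logarithm of the norm of a form, and the bound on plaques. -/

open scoped Classical Topology ContDiff ComplexOrder Matrix
open Set MeasureTheory Complex Metric Filter MvPolynomial

set_option linter.unusedVariables false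

noncomputable section

namespace Pool.Agent.Lib.RA

open Pool.Agent.Lib.SV (E nsq)
open Pool.Agent.Lib.HS32 Pool.Agent.Lib.PN

/-- The regularised logarithm of the squared norm of a form of degree `d`. -/
def vz {X ι : Type} [Fintype ι] (f : X → ι → ℂ) (P : MvPolynomial ι ℂ) (d : ℕ) (ε : ℝ) (x : X) :
    ℝ := Real.log (no f d (fun y => eval (f y) P) x + ε)

/-- It is smooth and quasi-plurisubharmonic. -/
def St_VZ : Prop := ∀ (n : ℕ) (M : Mf n) (ι : Type) [Fintype ι] (f : M.X → ι → ℂ)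
  (P : MvPolynomial ι ℂ) (d : ℕ) (ε : ℝ), PMap M f → P.IsHomogeneous d → 0 < ε →
  M.Sm (vz f P d ε) ∧ M.Clo (M.hs (vz f P d ε) + (d : ℝ) • fs M f) ∧
  M.Le 0 (M.hs (vz f P d ε) + (d : ℝ) • fs M f) ∧ ∀ c z F, Lift M f c z F →
    ContDiffAt ℝ ∞ (fun w => Real.log (normSq (eval (F w) P) + ε * nsq (F w) ^ d)) z ∧
    (M.hs (vz f P d ε) + (d : ℝ) • fs M f) c z =
      hr (fun w => Real.log (normSq (eval (F w) P) + ε * nsq (F w) ^ d)) z

/-- The mass bound near the plaques of the adapted chart. -/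
def Mas {q k j : ℕ} (M : Mf (q + j)) {ι : Type} [Fintype ι] (f : M.X → ι → ℂ)
    (H : M.X → E (k + j)) (e : M.Ch) (a : E (q + j)) (R B : ℝ) : Prop :=
  ∀ (κ : Type) [Fintype κ] (ψ : κ → E j → ℝ) (P : κ → MvPolynomial ι ℂ) (d : κ → ℕ) (ε : κ → ℝ),
    Bumps (ball (sx a) R) ψ → (∀ b, (P b).IsHomogeneous (d b) ∧ 0 < d b ∧ 0 < ε b) →
    ∑ b, (d b : ℝ)⁻¹ * ∫ x in e.symm '' closedBall a R, ψ b (sx (H x)) *
      pa M (fs M f) (tA M j (fs M f) (pb M H (ps k j)))
        (M.hs (vz f (P b) (d b) (ε b)) + (d b : ℝ) • fs M f) x ∂M.mu (fs M f) ≤ B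

/-- From the mass bound to the zero estimate. -/
def St_PLQ : Prop := ∀ (q k j : ℕ) (M : Mf (q + j)) [M.Cpt] (ι : Type) [Fintype ι]
  (f : M.X → ι → ℂ) (O : Set M.X) (H : M.X → E (k + j)) (i₀ : ι) (ix : Fin q → ι) (e : M.Ch)
  (a : E (q + j)) (R R' B : ℝ), PMap M f → M.Kae (fs M f) → IsOpen O → (∀ x ∈ O, HolAt M H x) →
  Ebx M f i₀ ix O H e a R → 0 < R' → R' < R → Mas M f H e a R' B → Zer M f i₀ e a R'

namespace VZB

variable {n : ℕ} {ι : Type} [Fintype ι]

theorem cs (a b : ι → ℂ) : normSq (∑ i, b i * star (a i)) ≤ nsq a * nsq b := by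
  have h1 : ‖∑ i, b i * star (a i)‖ ≤ ∑ i, ‖a i‖ * ‖b i‖ :=
    (norm_sum_le _ _).trans (le_of_eq (Finset.sum_congr rfl fun i _ => by
      rw [norm_mul, norm_star, mul_comm]))
  simp only [nsq, normSq_eq_norm_sq]
  exact (pow_le_pow_left₀ (norm_nonneg _) h1 2).trans (Finset.sum_mul_sq_le_sq_mul_sq _ _ _)

theorem lg_psd {A : E n → ι → ℂ} {z : E n} (h : HolN A z) (h0 : A z ≠ 0) :
    (hess (lg A) z).PosSemidef := by
  obtain ⟨h1, h2⟩ := (st_LG n ι A z h).2.2 h0
  have h3 : (hess (lg A) z).IsHermitian := hess_herm (u := fun w => Real.log (nsq (A w))) (cd_re h1)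
  have := BBD.psd h3 h3 (s := 1) (t := 0) fun v => by
    rw [h2 v, one_mul, zero_mul, add_zero]
    exact div_nonneg (sub_nonneg.2 (cs _ _)) (sq_nonneg _)
  simpa using this

/-- The form together with small multiples of all monomials. -/
def fam (P : MvPolynomial ι ℂ) (d : ℕ) (ε : ℝ) : Option (Fin d → ι) → MvPolynomial ι ℂ
  | none => P
  | some β => C (√ε : ℂ) * ∏ b, X (β b)

omit [Fintype ι] in
theorem fam_hom {P : MvPolynomial ι ℂ} {d : ℕ} (hP : P.IsHomogeneous d) (ε : ℝ) :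
    ∀ k, (fam P d ε k).IsHomogeneous d
  | none => hP
  | some β => by
    have := IsHomogeneous.prod Finset.univ (fun b => (X (β b) : MvPolynomial ι ℂ)) (fun _ => 1)
      fun b _ => isHomogeneous_X ℂ (β b)
    simpa [fam] using this.C_mul (√ε : ℂ)

theorem fam_nsq (P : MvPolynomial ι ℂ) (d : ℕ) {ε : ℝ} (hε : 0 ≤ ε) (y : ι → ℂ) :
    nsq (fun k => eval y (fam P d ε k)) = normSq (eval y P) + ε * nsq y ^ d := by
  rw [nsq, Fintype.sum_option, nsq, Fintype.sum_pow, Finset.mul_sum]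
  simp [fam, Real.mul_self_sqrt hε]

end VZB

open VZB in
theorem st_VZ : St_VZ := by
  intro n M ι _ f P d ε hf hP hε
  have hFS := st_FS st_LG (st_LG2 st_LG) st_CMP
  obtain ⟨h1, -, -, h4⟩ := st_PHI st_LG hFS n M ι _ f (fam P d ε) d hf (fam_hom hP ε)
  have e1 : ∀ x, ph f (fam P d ε) d x = no f d (fun y => eval (f y) P) x + ε := fun x => by
    rw [ph, fam_nsq P d hε.le, no, add_div, mul_div_assoc,
      div_self (pow_pos (nsq_pos (hf.ne x)) d).ne', mul_one]
  have p1 : ∀ x, ph f (fam P d ε) d x ≠ 0 := fun x => by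
    rw [e1]
    exact (add_pos_of_nonneg_of_pos (div_nonneg (normSq_nonneg _) (pow_nonneg (nsq_nn _) _)) hε).ne'
  have e2 : vz f P d ε = fun x => Real.log (ph f (fam P d ε) d x) := funext fun x => by rw [e1, vz]
  have s1 : M.Sm (vz f P d ε) := e2 ▸ h1.log p1
  have key : ∀ c z F, Lift M f c z F → HolN (fun w k => eval (F w) (fam P d ε k)) z ∧
      (fun k => eval (F z) (fam P d ε k)) ≠ 0 ∧ (M.hs (vz f P d ε) + (d : ℝ) • fs M f) c z =
        hess (lg fun w k => eval (F w) (fam P d ε k)) z := fun c z F h =>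
    ⟨holN_pi fun k => holN_eval h.hol _, fun h0 => p1 _ ((h4 c z F h).1.2 (congrFun h0)), by
      rw [Pi.add_apply, Pi.add_apply, e2, (h4 c z F h).2.1 (p1 _)]
      simp⟩
  refine ⟨s1, ((mHES n M).1 _ s1).add ((hFS n M ι f hf).1.smul _), fun c hc z hz => ?_,
    fun c z F h => ?_⟩
  · obtain ⟨F, h⟩ := hf.ex c hc z hz
    obtain ⟨a1, a2, a3⟩ := key c z F h
    rw [a3]
    simpa using lg_psd a1 a2
  · obtain ⟨a1, a2, a3⟩ := key c z F h
    have e3 : (lg fun w k => eval (F w) (fam P d ε k)) = fun w =>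
        ((Real.log (normSq (eval (F w) P) + ε * nsq (F w) ^ d) : ℝ) : ℂ) :=
      funext fun w => by rw [lg, fam_nsq P d hε.le]
    refine ⟨?_, by rw [a3, e3, hr]⟩
    have := cd_re ((st_LG n _ _ z a1).2.2 a2).1
    rw [e3] at this
    simpa using this

end Pool.Agent.Lib.RA
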