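import Pool.Agent.Lib.RA.Blue0
import Pool.Agent.Lib.RA.T_VZ
import Pool.Agent.Lib.RA.T_JEN
import Pool.Agent.Lib.RA.T_NUL

/-! From the mass bound to the zero estimate on many plaques. -/

open scoped Classical Topology ContDiff ComplexOrder Matrix
open Set MeasureTheory Complex Metric Filter MvPolynomial Asymptotics

set_option linter.unusedVariables false

noncomputable section

namespace Pool.Agent.Lib.RA

open Pool.Agent.Lib.SV (E nsq)
open Pool.Agent.Lib.HS32 Pool.Agent.Lib.PN

namespace PLQB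

variable {q k j : ℕ}

theorem fx_ap (y : E q) (s : E j) : fx (Fin.append y s : E (q + j)) = y := by
  funext i; simp [fx]

theorem sx_ap (y : E q) (s : E j) : sx (Fin.append y s : E (q + j)) = s := by
  funext i; simp [sx]

theorem mem_ball_ap {y : E q} {s : E j} {a : E (q + j)} {R : ℝ} (h : 0 < R) :
    (Fin.append y s : E (q + j)) ∈ ball a R ↔ y ∈ ball (fx a) R ∧ s ∈ ball (sx a) R := by
  simp [dist_pi_lt_iff h, Fin.forall_fin_add, fx, sx]

theorem mem_cball_ap {y : E q} {s : E j} {a : E (q + j)} {R : ℝ} (h : 0 ≤ R) :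
    (Fin.append y s : E (q + j)) ∈ closedBall a R ↔
      y ∈ closedBall (fx a) R ∧ s ∈ closedBall (sx a) R := by
  simp [dist_pi_le_iff h, Fin.forall_fin_add, fx, sx]

theorem int_ap (g : E (q + j) → ℝ) (a : E (q + j)) {R : ℝ} (h : 0 ≤ R) :
    ∫ z in closedBall a R, g z = ∫ p in closedBall (fx a) R ×ˢ closedBall (sx a) R,
      g (Fin.append p.1 p.2) ∂(volume.prod volume) := by
  let e1 := (MeasurableEquiv.sumPiEquivProdPi fun _ : Fin q ⊕ Fin j => ℂ).symm
  let e2 := MeasurableEquiv.piCongrLeft (fun _ : Fin (q + j) => ℂ) finSumFinEquiv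
  have m : MeasurePreserving (e1.trans e2) (volume.prod volume) volume :=
    MeasurePreserving.trans
      (volume_measurePreserving_sumPiEquivProdPi_symm fun _ : Fin q ⊕ Fin j => ℂ)
      (volume_measurePreserving_piCongrLeft (fun _ : Fin (q + j) => ℂ) finSumFinEquiv)
  have e : ∀ p, (e1.trans e2) p = Fin.append p.1 p.2 := fun p => by
    funext i
    refine Fin.addCases (fun b => ?_) (fun b => ?_) i
    · rw [Fin.append_left, ← finSumFinEquiv_apply_left]
      exact Equiv.piCongrLeft_apply_apply (fun _ => ℂ) finSumFinEquiv (e1 p) (Sum.inl b)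
    · rw [Fin.append_right, ← finSumFinEquiv_apply_right]
      exact Equiv.piCongrLeft_apply_apply (fun _ => ℂ) finSumFinEquiv (e1 p) (Sum.inr b)
  rw [← m.setIntegral_preimage_emb (e1.trans e2).measurableEmbedding g]
  simp only [e]
  congr 2
  ext p
  rw [mem_preimage, e, mem_cball_ap h, mem_prod]

theorem cont_ap : Continuous fun p : E q × E j => (Fin.append p.1 p.2 : E (q + j)) :=
  continuous_pi fun i => Fin.addCases (fun b => by simp only [Fin.append_left]; fun_prop)
    (fun b => by simp only [Fin.append_right]; fun_prop) i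

/-- The inclusion of the first coordinates. -/
def Jm (q j : ℕ) : Matrix (Fin (q + j)) (Fin q) ℂ :=
  Matrix.of fun i l => if i = Fin.castAdd j l then 1 else 0

theorem cast_ne (a : Fin q) (b : Fin j) : Fin.natAdd q b ≠ Fin.castAdd j a := fun h => by
  have := congrArg Fin.val h
  have := a.2
  simp at *
  omega

theorem fderiv_apply_apply {n r : ℕ} {Φ : E n → E r} {z : E n} (h : DifferentiableAt ℂ Φ z)
    (v : E n) (i : Fin r) : fderiv ℂ (fun w => Φ w i) z v = fderiv ℂ Φ z v i := by
  rw [fderiv_apply h]; rfl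

theorem diff_ap (s : E j) (y : E q) :
    DifferentiableAt ℂ (fun y : E q => (Fin.append y s : E (q + j))) y :=
  differentiableAt_pi.2 fun i => Fin.addCases (fun b => by simp only [Fin.append_left]; fun_prop)
    (fun b => by simp only [Fin.append_right]; fun_prop) i

theorem jr_ap (s : E j) (y : E q) : jr (fun y : E q => (Fin.append y s : E (q + j))) y = Jm q j := by
  ext i l
  rw [jr, Matrix.of_apply, ← fderiv_apply_apply (diff_ap s y)]
  refine Fin.addCases (fun b => ?_) (fun b => ?_) i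
  · simp only [Fin.append_left]
    rw [(hasFDerivAt_apply (𝕜 := ℂ) b y).fderiv]
    simp [Jm, Pi.single_apply]
  · simp [Jm, cast_ne]

theorem jm_mul : Jm q j * (Jm q j)ᴴ = 1 - ps q j := by
  ext a b
  simp only [Matrix.mul_apply, Matrix.conjTranspose_apply, Jm, Matrix.of_apply, Matrix.sub_apply,
    ps, Matrix.diagonal_apply, Matrix.one_apply]
  refine Fin.addCases (fun a => ?_) (fun a => ?_) a
  · rw [Finset.sum_eq_single a] <;> simp +contextual [apply_ite star, eq_comm]
  · simp [cast_ne]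

theorem ps_psd : (ps q j).PosSemidef :=
  Matrix.PosSemidef.diagonal fun i => by
    simp only [Pi.zero_apply]
    split_ifs
    exacts [le_rfl, zero_le_one]

theorem ps_sq : ps q j * ps q j = ps q j := by
  rw [ps, Matrix.diagonal_mul_diagonal]
  congr 1
  funext i
  split_ifs <;> simp

theorem ps_rank : (ps q j).rank = j := by
  rw [ps, Matrix.rank_diagonal, Fintype.card_subtype, Finset.card_filter, Fin.sum_univ_add]
  simp

theorem top_pd {G : Mat (q + j)} (hG : G.PosDef) : (RA28.topS j G (ps q j) + ps q j).PosDef := by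
  have t := RA28.top hG ps_psd (ps_rank (q := q) (j := j)).le
  refine pd_of_nq (t.psd.add ps_psd).1 fun u hu => ?_
  refine (nq_nonneg (t.psd.add ps_psd) u).lt_of_ne' fun h => hu ?_
  have h1 := nq_nonneg t.psd u
  have h2 := nq_nonneg (ps_psd (q := q) (j := j)) u
  rw [nq_add] at h
  have z : ∀ {A : Mat (q + j)}, A.PosSemidef → nq A u = 0 → star u ⬝ᵥ A *ᵥ u = 0 := fun hA h0 =>
    Complex.ext h0 (Complex.nonneg_iff.1 (hA.dotProduct_mulVec_nonneg u)).2.symm
  have h3 := (ps_psd.dotProduct_mulVec_zero_iff u).1 (z ps_psd (by linarith))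
  have h4 := z t.psd (by linarith)
  obtain ⟨v, -, v2, v3⟩ := t.ker
  obtain ⟨c, hc⟩ := v2 u h3
  have h5 := v3 (Matrix.vecMulVec u (star u))
  have h6 : RA28.topD j G (ps q j) ≠ 0 := by
    rw [t.dA]
    exact mul_ne_zero (ofReal_ne_zero.2 (t.pos.2 ps_rank).ne') hG.det_pos.ne'
  rw [Matrix.mul_vecMulVec, Matrix.trace_vecMulVec, dotProduct_comm, h4, eq_comm, mul_eq_zero,
    or_iff_right h6] at h5
  have h7 : ∀ i, star (v i) ⬝ᵥ Matrix.vecMulVec u (star u) *ᵥ v i =
      (normSq (star u ⬝ᵥ v i) : ℝ) := fun i => by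
    rw [Matrix.vecMulVec_mulVec, op_smul_eq_smul, dotProduct_smul, smul_eq_mul,
      Matrix.star_dotProduct (v i) u, star_def, mul_conj]
  simp only [h7, ← ofReal_sum, ofReal_eq_zero] at h5
  rw [Finset.sum_eq_zero_iff_of_nonneg fun _ _ => normSq_nonneg _] at h5
  refine dotProduct_star_self_eq_zero.1 ?_
  nth_rewrite 2 [hc]
  rw [dotProduct_sum]
  exact Finset.sum_eq_zero fun i hi => by
    rw [dotProduct_smul, normSq_eq_zero.1 (h5 i hi), smul_zero]

theorem tr_le {G T : Mat (q + j)} (hG : G.PosDef) (hT : T.PosSemidef) {D : ℝ}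
    (h : (D • (RA28.topS j G (ps q j) + ps q j) - 1).PosSemidef) :
    ((Jm q j)ᴴ * T * Jm q j).trace.re ≤ D * (RA28.topS j G (ps q j) * T).trace.re := by
  have t := RA28.top hG ps_psd (ps_rank (q := q) (j := j)).le
  have h1 := h.conjTranspose_mul_mul_same (1 - ps q j)
  have h2 : (1 - ps q j)ᴴ * (D • (RA28.topS j G (ps q j) + ps q j) - 1) * (1 - ps q j) =
      D • RA28.topS j G (ps q j) - (1 - ps q j) := by
    rw [Matrix.conjTranspose_sub, Matrix.conjTranspose_one, ps_psd.1.eq]
    simp [Matrix.mul_sub, Matrix.sub_mul, Matrix.mul_add, t.sb, t.bs, ps_sq]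
  rw [h2] at h1
  have h3 := (Complex.le_def.1 (HS76.tr_mul_nonneg h1 hT)).1
  rw [Matrix.trace_mul_cycle, jm_mul]
  rw [Matrix.sub_mul, Matrix.trace_sub, Matrix.smul_mul, Matrix.trace_smul] at h3
  simpa using h3

variable {M : Mf (q + j)} {ι : Type} [Fintype ι] {f : M.X → ι → ℂ} {O : Set M.X}
  {H : M.X → E (k + j)} {i₀ : ι} {ix : Fin q → ι} {e : M.Ch} {a z : E (q + j)} {R : ℝ}

theorem lift_af (hf : PMap M f) (h : Ebx M f i₀ ix O H e a R) (hz : z ∈ ball a R) :
    Lift M f e z fun w => af f i₀ (e.symm w) := by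
  obtain ⟨F, hF⟩ := hf.ex e h.mem z (h.sub hz)
  have h1 : ∀ᶠ w in 𝓝 z, f (e.symm w) i₀ ≠ 0 :=
    mem_of_superset (isOpen_ball.mem_nhds hz) fun w hw => (h.pt w hw).2.1
  have h2 : ∀ᶠ w in 𝓝 z, F w i₀ ≠ 0 ∧ af f i₀ (e.symm w) = (F w i₀)⁻¹ • F w := by
    filter_upwards [hF.ev, h1] with w ⟨c, hc, ec⟩ b
    refine ⟨by rw [ec]; exact mul_ne_zero hc b, funext fun l => ?_⟩
    simp only [af, ec, Pi.smul_apply, smul_eq_mul]
    field_simp
  refine ⟨hF.mem, hF.tgt, ?_, h1.mono fun w hw => ⟨_, inv_ne_zero hw, funext fun l => ?_⟩⟩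
  · filter_upwards [(hF.norm h2.self_of_nhds.1).1.hol, h2.eventually_nhds] with w b c
    exact b.congr_of_eventuallyEq (c.mono fun y hy => hy.2)
  · simp [af, div_eq_inv_mul]

omit [Fintype ι] in
theorem pb_eq (hH : ∀ x ∈ O, HolAt M H x) (h : Ebx M f i₀ ix O H e a R) (hz : z ∈ ball a R) :
    pb M H (ps k j) e z = ps q j := by
  have hd := (hH _ (h.pt z hz).1 e h.mem (e.map_target (h.sub hz))).self_of_nhds
  rw [e.right_inv (h.sub hz)] at hd
  have h1 : ∀ l b, jr (H ∘ e.symm) z (Fin.natAdd k l) b = if Fin.natAdd q l = b then 1 else 0 := by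
    intro l b
    have e1 : (fun w => (H ∘ e.symm) w (Fin.natAdd k l)) =ᶠ[𝓝 z] fun w => w (Fin.natAdd q l) :=
      mem_of_superset (isOpen_ball.mem_nhds hz) fun w hw => (congrFun (h.pt w hw).2.2.2 l).symm
    rw [jr, Matrix.of_apply, ← fderiv_apply_apply hd, e1.fderiv_eq,
      (hasFDerivAt_apply (𝕜 := ℂ) _ z).fderiv]
    simp [Pi.single_apply]
  ext b c
  rw [pb, ps, Matrix.mul_apply, Fin.sum_univ_add]
  simp only [Matrix.mul_diagonal, Matrix.conjTranspose_apply, h1, ps, Matrix.diagonal_apply]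
  refine Fin.addCases (fun b => ?_) (fun b => ?_) b
  · simp [cast_ne]
  · rw [Finset.sum_eq_single b (s := Finset.univ) (f := fun l : Fin j => _)]
    · by_cases hc : Fin.natAdd q b = c
      · simp [← hc]
      · simp [hc]
    all_goals simp +contextual

end PLQB

open PLQB in
theorem st_PLQ (hTOP : St_TOP) (hCH2 : St_CH2) : St_PLQ := by
  intro q k j M _ ι _ f O H i₀ ix e a R R' B hf hK hO hH h r0 r1 hm
  set G := fs M f with hG
  set F : E (q + j) → ι → ℂ := fun w => af f i₀ (e.symm w) with hF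
  let u : MvPolynomial ι ℂ → ℕ → ℝ → E (q + j) → ℝ := fun P d ε w =>
    Real.log (normSq (eval (F w) P) + ε * nsq (F w) ^ d)
  let S : E (q + j) → Mat (q + j) := fun z => RA28.topS j (G e z) (ps q j)
  let g : MvPolynomial ι ℂ → ℕ → ℝ → E (q + j) → ℝ := fun P d ε z =>
    (S z * hr (u P d ε) z).trace.re
  have sub : closedBall a R' ⊆ ball a R := closedBall_subset_ball r1
  have gp : ∀ z ∈ ball a R, (G e z).PosDef := fun z hz => hK.pos e h.mem z (h.sub hz)
  have sS : ∀ z ∈ ball a R, SmM S z := fun z hz =>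
    RA28.sm_topS (hK.sm e h.mem z (h.sub hz)) (smM_const _)
  obtain ⟨t1, t2, -, t4⟩ := hTOP (q + j) (k + j) j M G O hK hO
  obtain ⟨t5, t6⟩ := t2 H (ps k j) hH ps_psd
  have t7 := (t1 _ t5 fun x hx c hc hx' => ⟨(t6 x hx c hc hx').1.1, (t6 x hx c hc hx').2.1⟩).1
  have key : ∀ P d ε, P.IsHomogeneous d → 0 < ε → ∀ z ∈ ball a R,
      ContDiffAt ℝ ∞ (u P d ε) z ∧ (hr (u P d ε) z).PosSemidef ∧ ContinuousAt (g P d ε) z ∧
      (G e z).det.re * pa M G (tA M j G (pb M H (ps k j))) (M.hs (vz f P d ε) + (d : ℝ) • G)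
        (e.symm z) = g P d ε z := by
    intro P d ε hP hε z hz
    obtain ⟨-, v2, v3, v4⟩ := st_VZ _ M ι f P d ε hf hP hε
    obtain ⟨v5, v6⟩ := v4 e z F (lift_af hf h hz)
    have v7 := v3 e h.mem z (h.sub hz)
    have v8 := (t4 _ (M.hs (vz f P d ε) + (d : ℝ) • G) t7
      ⟨fun x _ c hc hx => v2.sm c hc _ (c.map_source hx),
        fun c hc c' hc' x hx hx' _ => v2.cmp c hc c' hc' x hx hx'⟩ _ (h.pt z hz).1).2 e h.mem
      (e.map_target (h.sub hz))
    refine ⟨v5, by simpa [v6] using v7,
      (cd_re ((sS z hz).mul (smM_hess (cd_ofReal v5))).trace).continuousAt, ?_⟩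
    simp only [e.right_inv (h.sub hz)] at v8
    rw [v8, v6, tA, pb_eq hH h hz, ← Mf.herm_det (gp z hz).1, div_ofReal_re, ofReal_re,
      mul_div_cancel₀ _ (Mf.pd_det_re (gp z hz)).ne']
  obtain ⟨D, D0, hD⟩ := BBD.cmp (isCompact_closedBall a R') (H := fun z => S z + ps q j)
    (T := fun _ => 1) (fun z hz => (sS z (sub hz)).add (smM_const _))
    (fun z hz => top_pd (gp z (sub hz))) (fun _ _ => smM_const _) fun _ _ => Matrix.isHermitian_one
  have m0 : 0 < volume.real (ball (sx a) R') :=
    ENNReal.toReal_pos (measure_ball_pos _ _ r0).ne' measure_ball_lt_top.ne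
  set C := (|B| + 1) / volume.real (ball (sx a) R') with hC
  have C0 : 0 < C := by positivity
  have inK : ∀ y ∈ closedBall (fx a) R', ∀ s ∈ ball (sx a) R',
      (Fin.append y s : E (q + j)) ∈ closedBall a R' := fun y hy s hs =>
    (mem_cball_ap r0.le).2 ⟨hy, ball_subset_closedBall hs⟩
  have hs := st_SLC (E q) (E j) volume volume
    {p : MvPolynomial ι ℂ × ℕ × ℝ // p.1.IsHomogeneous p.2.1 ∧ 0 < p.2.1 ∧ 0 < p.2.2}
    (fun i p => (i.1.2.1 : ℝ)⁻¹ * g i.1.1 i.1.2.1 i.1.2.2 (Fin.append p.1 p.2))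
    (closedBall (fx a) R') (ball (sx a) R') B C (isCompact_closedBall _ _) isOpen_ball
    (fun i p hp => (continuousAt_const.mul (ContinuousAt.comp (g := g _ _ _)
      (f := fun p : E q × E j => Fin.append p.1 p.2)
      (key _ _ _ i.2.1 i.2.2.2 _ (sub (inK _ hp.1 _ hp.2))).2.2.1 cont_ap.continuousAt)).continuousWithinAt) C0
    (fun κ _ i ψ hψ => by
      refine le_of_eq_of_le (Finset.sum_congr rfl fun b _ => ?_)
        (hm κ ψ (fun b => (i b).1.1) (fun b => (i b).1.2.1) (fun b => (i b).1.2.2) hψ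
          fun b => (i b).2)
      rw [((mMU _ M G hK.toMet).2.2.2.2.2.1 e h.mem _ measurableSet_closedBall
        (sub.trans h.sub)).2.2.1, setIntegral_congr_fun measurableSet_closedBall
          (g := fun z => ψ b (sx z) * g (i b).1.1 (i b).1.2.1 (i b).1.2.2 z) fun z hz => by
            simp only
            rw [← (key _ _ _ (i b).2.1 (i b).2.2.2 z (sub hz)).2.2.2, (h.pt z (sub hz)).2.2.2]
            ring,
        int_ap _ a r0.le, ← integral_const_mul,
        setIntegral_eq_of_subset_of_forall_sdiff_eq_zero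
          (measurableSet_closedBall.prod measurableSet_closedBall)
          (prod_mono Subset.rfl ball_subset_closedBall) fun p hp => by
            rw [sx_ap, image_eq_zero_of_notMem_tsupport fun h' =>
              hp.2 ⟨hp.1.1, (hψ.1 b).2.2.1 h'⟩, zero_mul, mul_zero]]
      simp only [sx_ap, mul_left_comm])
    (by
      rw [← ofReal_measureReal (measure_ball_lt_top (x := sx a) (r := R')).ne,
        ENNReal.ofReal_lt_ofReal_iff m0, div_lt_iff₀ C0, hC, mul_div_cancel₀ _ m0.ne']
      linarith [le_abs_self B])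
  obtain ⟨C₁, C1, hJ⟩ := st_JEN q R' r0
  refine ⟨⌈C₁ * (D * C)⌉₊, fun W hW hW0 => ?_⟩
  obtain ⟨s, ⟨s1, s2⟩, s3⟩ := Measure.exists_mem_of_measure_ne_zero_of_ae hs (ae_restrict_of_ae
    (st_NULH (E j) ℂ volume _ W isOpen_ball (convex_ball _ _).isPreconnected hW hW0).1)
  refine ⟨s, s1, s3 s1, fun d N P hP hN hO' y hy => ?_⟩
  rcases Nat.eq_zero_or_pos d with rfl | d0
  · have c1 : ∀ x : ι → ℂ, eval x P = eval 0 P := fun x => by
      simpa using (eval_smul_hom hP 0 x).symm
    obtain ⟨c, hc⟩ := hO'.bound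
    have c2 := hc.self_of_nhds
    rw [c1, sub_self, norm_zero, zero_pow (by omega), norm_zero, mul_zero, norm_le_zero_iff] at c2
    rw [c1, c2]
  by_contra hne
  have inB : ∀ y ∈ ball (fx a) R', (Fin.append y s : E (q + j)) ∈ ball a R := fun y hy =>
    sub (inK y (ball_subset_closedBall hy) s s1)
  have hA : ∀ y, HolN (fun y : E q => (Fin.append y s : E (q + j))) y := fun y =>
    Eventually.of_forall (diff_ap s)
  have h1 := hJ (fx a) (fun y => eval (F (Fin.append y s)) P)
    (fun y => Real.log (nsq (F (Fin.append y s)) ^ d)) N (D * C * d)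
    (fun y hy => (DifferentiableAt.comp (g := fun w => eval (F w) P)
      (f := fun y : E q => Fin.append y s) y (holN_eval (lift_af hf h (inB y hy)).hol P).self_of_nhds
      (diff_ap s y)).differentiableWithinAt)
    (fun y hy => by
      have l := lift_af hf h (inB y hy)
      exact ContDiffAt.comp (g := fun w => Real.log (nsq (F w) ^ d))
        (f := fun y : E q => Fin.append y s) y
        (((st_LG _ ι _ _ l.hol).1.pow d).log (pow_pos (nsq_pos (l.ne hf.ne)) d).ne')
        (contDiffAt_pi.2 fun i => Fin.addCases (fun b => by simp only [Fin.append_left]; fun_prop)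
          (fun b => by simp only [Fin.append_right]; fun_prop) i))
    ⟨y, hy, hne⟩ hO' (fun ε hε => by
      have e1 : ∀ y ∈ closedBall (fx a) R', hess (fun y : E q => ((Real.log (normSq
          (eval (F (Fin.append y s)) P) + ε * Real.exp (Real.log
            (nsq (F (Fin.append y s)) ^ d))) : ℝ) : ℂ)) y =
          (Jm q j)ᴴ * hr (u P d ε) (Fin.append y s) * Jm q j := fun y hy => by
        have hz := sub (inK y hy s s1)
        rw [← jr_ap s y, hr, ← ((hCH2 _ _ _ y (hA y)).2.2.2.2.2.2 _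
          (cd_ofReal (key P d ε hP hε.1 _ hz).1)).2]
        refine hess_congr ?_
        filter_upwards [(diff_ap s y).continuousAt.eventually (isOpen_ball.mem_nhds hz)] with w hw
        rw [Real.exp_log (pow_pos (nsq_pos ((lift_af hf h hw).ne hf.ne)) d)]
        rfl
      have e2 : ball (fx a) (R' / 2) ⊆ closedBall (fx a) R' :=
        (ball_subset_ball (half_le_self r0.le)).trans ball_subset_closedBall
      have p1 : ∀ y ∈ closedBall (fx a) R', (hr (u P d ε) (Fin.append y s)).PosSemidef :=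
        fun y hy => (key P d ε hP hε.1 _ (sub (inK y hy s s1))).2.1
      refine ⟨fun y hy => by
        rw [e1 y (e2 hy)]; exact (p1 y (e2 hy)).conjTranspose_mul_mul_same _, ?_⟩
      have h2 := s2 ⟨(P, d, ε), hP, d0, hε.1⟩
      simp only at h2
      rw [integral_const_mul, inv_mul_le_iff₀ (Nat.cast_pos.2 d0)] at h2
      have i1 : IntegrableOn (fun y => D * g P d ε (Fin.append y s)) (closedBall (fx a) R') :=
        ContinuousOn.integrableOn_compact (isCompact_closedBall _ _) fun y hy =>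
          (continuousAt_const.mul (ContinuousAt.comp (g := g _ _ _) (f := fun y : E q => Fin.append y s)
            (key P d ε hP hε.1 _ (sub (inK y hy s s1))).2.2.1
            (diff_ap s y).continuousAt)).continuousWithinAt
      have n1 : ∀ y ∈ closedBall (fx a) R', 0 ≤ ((Jm q j)ᴴ * hr (u P d ε) (Fin.append y s) *
          Jm q j).trace.re := fun y hy =>
        (Complex.le_def.1 ((p1 y hy).conjTranspose_mul_mul_same _).trace_nonneg).1
      have n2 := fun y hy => tr_le (gp _ (sub (inK y hy s s1))) (p1 y hy)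
        (hD D le_rfl _ (inK y hy s s1)).1
      calc _ ≤ ∫ y in ball (fx a) (R' / 2), D * g P d ε (Fin.append y s) :=
            integral_mono_of_nonneg
              ((ae_restrict_iff' measurableSet_ball).2 (Eventually.of_forall fun y hy => by
                simp only [e1 y (e2 hy)]; exact n1 y (e2 hy)))
              (i1.mono_set e2)
              ((ae_restrict_iff' measurableSet_ball).2 (Eventually.of_forall fun y hy => by
                simp only [e1 y (e2 hy)]; exact n2 y (e2 hy)))
        _ ≤ ∫ y in closedBall (fx a) R', D * g P d ε (Fin.append y s) :=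
            setIntegral_mono_set i1 ((ae_restrict_iff' measurableSet_closedBall).2
              (Eventually.of_forall fun y hy => (n1 y hy).trans (n2 y hy))) e2.eventuallyLE
        _ ≤ D * C * d := by
            rw [integral_const_mul, mul_assoc, mul_comm C]
            exact mul_le_mul_of_nonneg_left h2 D0.le)
  have h2 : ((⌈C₁ * (D * C)⌉₊ * d : ℕ) : ℝ) < N := Nat.cast_lt.2 hN
  have h3 := mul_le_mul_of_nonneg_right (Nat.le_ceil (C₁ * (D * C))) (Nat.cast_nonneg (α := ℝ) d)
  push_cast at h2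
  nlinarith

end Pool.Agent.Lib.RA
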