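import Pool.Agent.Lib.RA.H56A

/-! Rigidity of admissible germs near the identity. -/

open scoped Classical Topology ContDiff Matrix
open Set Complex Metric Filter Asymptotics

set_option linter.unusedVariables false

noncomputable section

namespace Pool.Agent.Lib.RA.H56

open Pool.Agent.Lib.SV (E)
open Pool.Agent.Lib.HS32 Pool.Agent.Lib.SV K56

variable {n r k : ℕ}

theorem slope_lim {X Y : Type} [NormedAddCommGroup X] [NormedSpace ℂ X] [NormedAddCommGroup Y]
    [NormedSpace ℂ Y] {f : X → Y} {A : X →L[ℂ] Y} {p0 v0 : X} (hf : HasStrictFDerivAt f A p0)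
    {p v : ℕ → X} {e : ℕ → ℂ} (hp : Tendsto p atTop (𝓝 p0)) (hv : Tendsto v atTop (𝓝 v0))
    (he : Tendsto e atTop (𝓝 0)) (h0 : ∀ l, e l ≠ 0) :
    Tendsto (fun l => (e l)⁻¹ • (f (p l + e l • v l) - f (p l))) atTop (𝓝 (A v0)) := by
  have h1 : Tendsto (fun l => (p l + e l • v l, p l)) atTop (𝓝 (p0, p0)) :=
    Tendsto.prodMk_nhds (by simpa using hp.add (he.smul hv)) hp
  have h2 := (isBigO_refl (fun l => (e l)⁻¹) atTop).smul_isLittleO (hf.isLittleO.comp_tendsto h1)
  simp only [Function.comp_apply, add_sub_cancel_left, inv_smul_smul₀ (h0 _)] at h2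
  have h3 := ((isLittleO_one_iff ℝ).1 (h2.trans_isBigO (hv.isBigO_one ℝ))).add
    ((A.continuous.tendsto v0).comp hv)
  rw [zero_add] at h3
  refine h3.congr fun l => ?_
  simp only [Function.comp_apply, map_smul, smul_sub, inv_smul_smul₀ (h0 _)]
  abel

theorem strict {X Y : Type} [NormedAddCommGroup X] [NormedSpace ℂ X] [NormedAddCommGroup Y]
    [NormedSpace ℂ Y] [FiniteDimensional ℂ X] [CompleteSpace Y] {f : X → Y} {x : X}
    (h : K56.Hn f x) : HasStrictFDerivAt f (fderiv ℂ f x) x :=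
  (H85.contDiffAt_nat h 1).hasStrictFDerivAt (by simp)

theorem snd_deriv {Φ : E n × E n → ℂ} {z u : E n} (h : DifferentiableAt ℂ Φ (z, u)) :
    DifferentiableAt ℂ (fun y => Φ (z, y)) u ∧
      ∀ b, fderiv ℂ (fun y => Φ (z, y)) u b = fderiv ℂ Φ (z, u) (0, b) := by
  have h1 := HasFDerivAt.comp (f := fun y => (z, y)) u h.hasFDerivAt (hasFDerivAt_prodMk_right z u)
  exact ⟨h1.differentiableAt, fun b => by
    rw [show (fun y => Φ (z, y)) = Φ ∘ fun y => (z, y) from rfl, h1.fderiv]; rfl⟩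

/-- Separation of the variables. -/
theorem sep {Φ : E n × E n → ℂ} {c : E n} {R : ℝ} (hd : DifferentiableOn ℂ Φ (ball (dg c) R))
    (h0 : ∀ w ∈ ball (dg c) R, ∀ a b, mx Φ w a b = 0) {z z' u u' : E n} (hz : z ∈ ball c R)
    (hz' : z' ∈ ball c R) (hu : u ∈ ball c R) (hu' : u' ∈ ball c R) :
    Φ (z, star u) - Φ (z', star u) = Φ (z, star u') - Φ (z', star u') := by
  have hs : ∀ y, y ∈ ball (star c) R ↔ star y ∈ ball c R := fun y => by
    rw [mem_ball, mem_ball, dist_eq_norm, dist_eq_norm, ← norm_star]; simp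
  have hD : ∀ x ∈ ball c R, ∀ y ∈ ball (star c) R, DifferentiableAt ℂ Φ (x, y) := fun x hx y hy =>
    hd.differentiableAt (isOpen_ball.mem_nhds (mem_pb.2 ⟨hx, (hs y).1 hy⟩))
  refine isOpen_ball.is_const_of_fderiv_eq_zero (𝕜 := ℂ) (f := fun y => Φ (z, y) - Φ (z', y))
    (convex_ball (star c) R).isPreconnected (fun y hy => ((snd_deriv (hD z hz y hy)).1.sub
      (snd_deriv (hD z' hz' y hy)).1).differentiableWithinAt) (fun y hy => ?_)
    ((hs _).2 (by simpa using hu)) ((hs _).2 (by simpa using hu'))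
  refine ContinuousLinearMap.ext fun b => ?_
  rw [fderiv_fun_sub (snd_deriv (hD z hz y hy)).1 (snd_deriv (hD z' hz' y hy)).1, sub_apply,
    (snd_deriv (hD z hz y hy)).2, (snd_deriv (hD z' hz' y hy)).2,
    q_indep hd h0 hz hz' ((hs y).1 hy), sub_self]
  rfl

namespace TV

variable (T : TV r k)

theorem star_fd {t : E r} (ht : t ∈ ball (0 : E r) T.del) (a : E r) :
    star (fderiv ℂ T.Φ (dg t) (a, 0)) = fderiv ℂ T.Φ (dg t) (0, star a) := by
  have h := T.hn (dg_mem0.2 ht)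
  have e : (fun x => star (T.Φ (dg x))) =ᶠ[𝓝 t] fun x => T.Φ (dg x) :=
    (isOpen_ball.eventually_mem ht).mono fun x hx => Complex.ext (by simp) (by simp [T.real x hx])
  rw [sum1, sum2, star_sum]
  refine Finset.sum_congr rfl fun i _ => ?_
  rw [star_smul, ← dz_dg h.self_of_nhds, ← dzb_dg h.self_of_nhds, ← dzb_star (cd_diff (cd_dgc h)),
    dzb_congr e]
  rfl

theorem pz_hol (i : Fin r) : DifferentiableOn ℂ (fun w => pz T.Φ w i) (ball 0 T.del) :=
  fun w hw => (hn_app (T.hn hw) _).self_of_nhds.differentiableWithinAt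

theorem mu_eq {i : Fin r} (hi : i.val < k) {t : E r} (ht : t ∈ ball (0 : E r) T.del) :
    (T.mu i t : ℂ) = pz T.Φ (dg t) i := by
  have h1 := T.tr_const (T.pz_hol i) (fun a ha w hw => by
    have e : (fun x => fderiv ℂ T.Φ x (a, -a)) =ᶠ[𝓝 w] fun _ => 0 :=
      (isOpen_ball.eventually_mem hw).mono fun x hx => T.fderiv_tr (tr_zero ha) hx
    simp only [pz]
    rw [fderiv_app (T.hn hw), snd_symm (T.hn hw), ← fderiv_app (T.hn hw), e.fderiv_eq]
    simp) ht
  have h2 := T.star_fd ht (Pi.single i 1)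
  have h3 := T.inv i hi _ (dg_mem0.2 ht)
  simp only [pz, pu] at h1 h3 ⊢
  rw [star_sing, ← h3] at h2
  simp only [mu, pz, h1]
  exact conj_eq_iff_re.1 h2

theorem hess_vec {t : E r} (ht : t ∈ ball (0 : E r) T.del) (a : E r) (i : Fin r) :
    (hess (fun s => (T.ph s : ℂ)) t *ᵥ a) i = mx T.Φ (dg t) a (Pi.single i 1) := by
  rw [← hess_form (T.hn (dg_mem0.2 ht)), single_one_dotProduct, T.hess_ph ht]

theorem mx_star {t : E r} (ht : t ∈ ball (0 : E r) T.del) (a : E r) (i : Fin r) :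
    mx T.Φ (dg t) (Pi.single i 1) (star a) = star (mx T.Φ (dg t) a (Pi.single i 1)) := by
  have hH := hess_herm (T.cd_ph ((norm_pk_le t).trans_lt (mem_ball_zero_iff.1 ht)))
  rw [← T.hess_vec ht, ← hess_form (T.hn (dg_mem0.2 ht)), ← T.hess_ph ht, Matrix.mulVec_single_one]
  simp only [dotProduct, Matrix.mulVec, star_sum, star_mul, hH.apply]
  rfl

/-- Infinitesimal rigidity. -/
theorem lim0 (hM : T.Max) {t : E r} {ρ : ℝ} (hρ : 0 < ρ) (hs : ball t ρ ⊆ ball 0 T.del)
    {V : E r → E r} (hV : DifferentiableOn ℂ V (ball t ρ))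
    (h1 : ∀ z ∈ ball t ρ, fderiv ℂ T.Φ (dg z) (pp V (dg z)) - fderiv ℂ T.Φ (t, star z) (pp V (t, star z))
      = fderiv ℂ T.Φ (z, star t) (pp V (z, star t)) - fderiv ℂ T.Φ (dg t) (pp V (dg t)))
    (h2 : ∀ i : Fin r, i.val < k → ∀ z ∈ ball t ρ,
      fderiv ℂ (fun w => pz T.Φ w i) (dg z) (dg (V z)) = 0) :
    ∃ b, pk k b = 0 ∧ V =ᶠ[𝓝 t] fun _ => b := by
  have ht := mem_ball_self (x := t) hρ
  have hp : ∀ w ∈ ball (dg t) ρ, w ∈ ball (0 : E r × E r) T.del := fun w hw =>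
    mem_b0.2 ⟨hs (mem_pb.1 hw).1, by simpa using hs (mem_pb.1 hw).2⟩
  set F : E r × E r → ℂ := fun w => fderiv ℂ T.Φ w (pp V w) with hF
  have hFd : ∀ w ∈ ball (dg t) ρ, DifferentiableAt ℂ F w := fun w hw =>
    (hn_fderiv (T.hn (hp w hw))).self_of_nhds.clm_apply (hn_pp (hn_of isOpen_ball hV (mem_pb.1 hw).1)
      (hn_of isOpen_ball hV (mem_pb.1 hw).2)).self_of_nhds
  set A : E r → ℂ := fun z => (star (F (t, star z)) + F (z, star t) - F (dg t)) / 2 with hA
  have hAd : ∀ z ∈ ball t ρ, DifferentiableAt ℂ A z := fun z hz => by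
    have a1 := (snd_deriv (hFd (t, star z) (mem_pb.2 ⟨ht, by simpa using hz⟩))).1.star_star
    rw [star_star] at a1
    have a2 : DifferentiableAt ℂ (fun x => F (x, star t)) z :=
      DifferentiableAt.comp (f := fun x => (x, star t)) z
        (hFd (z, star t) (mem_pb.2 ⟨hz, by simpa using ht⟩)) (by fun_prop)
    simp only [hA, div_eq_mul_inv]
    exact ((a1.add a2).sub_const _).mul_const _
  set N : E r × E r → ℂ := fun w => I * (fderiv ℂ T.Φ w (V w.1, 0) - A w.1) with hN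
  have hNd : ∀ w ∈ ball (dg t) ρ, DifferentiableAt ℂ N w ∧
      ∀ b, fderiv ℂ N w (0, b) = I * mx T.Φ w (V w.1) b := fun w hw => by
    have a1 := (hV.differentiableAt (isOpen_ball.mem_nhds (mem_pb.1 hw).1)).hasFDerivAt.comp w
      hasFDerivAt_fst
    have a2 := (hAd _ (mem_pb.1 hw).1).hasFDerivAt.comp w hasFDerivAt_fst
    have a3 := (((hn_fderiv (T.hn (hp w hw))).self_of_nhds.hasFDerivAt.clm_apply
      (a1.prodMk (hasFDerivAt_const (0 : E r) w))).fun_sub a2).const_mul I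
    refine ⟨a3.differentiableAt, fun b => ?_⟩
    rw [show N = fun y => I * (fderiv ℂ T.Φ y ((V ∘ Prod.fst) y, 0) - (A ∘ Prod.fst) y) from rfl,
      a3.fderiv, mx, snd_symm (T.hn (hp w hw))]
    simp [← Prod.zero_eq_mk]
  have hNr : ∀ z ∈ ball t ρ, N (dg z) = ((N (dg z)).re : ℂ) := fun z hz => by
    refine Complex.ext (by simp) ?_
    have a1 := congrArg re (h1 z hz)
    rw [pp_dg, show dg (V z) = (V z, star (V z)) from rfl, split, ← T.star_fd (hs hz)] at a1
    simp only [hN, hA, hF, dg] at a1 ⊢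
    simp only [sub_re, add_re, RCLike.star_def, conj_re] at a1
    simp only [mul_im, I_re, I_im, zero_mul, one_mul, zero_add, ofReal_im, sub_re, div_ofNat_re,
      add_re, RCLike.star_def, conj_re]
    linarith
  have hv : ∀ z ∈ ball t ρ, ∀ i, (hess (fun s => (T.ph s : ℂ)) z *ᵥ (I • V z)) i =
      I * mx T.Φ (dg z) (V z) (Pi.single i 1) := fun z hz i => by
    rw [Matrix.mulVec_smul, Pi.smul_apply, T.hess_vec (hs hz), smul_eq_mul]
  have hb : ∀ z ∈ ball t ρ, ∀ i, dzb i (fun x => ((N (dg x)).re : ℂ)) z =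
      (hess (fun s => (T.ph s : ℂ)) z *ᵥ (I • V z)) i := fun z hz i => by
    rw [hv z hz, ← dzb_congr ((isOpen_ball.eventually_mem hz).mono hNr),
      dzb_dg (hNd _ (dg_mem.2 hz)).1, (hNd _ (dg_mem.2 hz)).2]
    rfl
  obtain ⟨c, a, ha, he⟩ := hM t (hs ht) (fun z => (N (dg z)).re) N (fun z => I • V z)
    ((isOpen_ball.eventually_mem (dg_mem.2 ht)).mono fun w hw => (hNd w hw).1)
    ((isOpen_ball.eventually_mem ht).mono fun z hz => ⟨hNr z hz,
      (hV.differentiableAt (isOpen_ball.mem_nhds hz)).const_smul I, hb z hz, fun i hi => by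
        have hz' := dg_mem0.2 (hs hz)
        have a1 := h2 i hi z hz
        have e : (fun w => pz T.Φ w i) =ᶠ[𝓝 (dg z)] fun w => fderiv ℂ T.Φ w (0, Pi.single i 1) :=
          (isOpen_ball.eventually_mem hz').mono fun w hw => T.inv i hi w hw
        rw [show dg (V z) = (V z, star (V z)) from rfl, split] at a1
        nth_rewrite 1 [e.fderiv_eq] at a1
        simp only [pz] at a1
        rw [fderiv_app (T.hn hz'), fderiv_app (T.hn hz'), snd_symm (T.hn hz') (0, _)] at a1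
        have a2 : mx T.Φ (dg z) (V z) (Pi.single i 1) + mx T.Φ (dg z) (Pi.single i 1) (star (V z))
          = 0 := a1
        rw [T.mx_star (hs hz)] at a2
        have a3 := congrArg re a2
        rw [hv z hz]
        simp only [add_re, RCLike.star_def, conj_re, zero_re] at a3
        simp only [mul_im, I_re, I_im, zero_mul, one_mul, zero_add]
        linarith⟩)
  set a' : E r := fun i => (a i : ℂ) with ha'
  refine ⟨-I • a', funext fun i => ?_, ?_⟩
  · simp only [pk, ha']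
    split_ifs with hi
    · simp
    · simp [ha i hi]
  filter_upwards [he.eventually_nhds, isOpen_ball.eventually_mem ht] with z h3 hz
  have hz' := T.hn (dg_mem0.2 (hs hz))
  have e : (fun x => ((N (dg x)).re : ℂ)) =ᶠ[𝓝 z] fun x => c + fderiv ℂ T.Φ (dg x) (a', 0) := by
    filter_upwards [h3, isOpen_ball.eventually_mem hz] with x h4 hx
    rw [h4, sum1, ofReal_add, ofReal_sum]
    congr 1
    refine Finset.sum_congr rfl fun i _ => ?_
    by_cases hi : i.val < k
    · rw [ofReal_mul, T.mu_eq hi (hs hx)]; rfl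
    · simp [ha', ha i hi]
  have h5 : hess (fun s => (T.ph s : ℂ)) z *ᵥ (I • V z - a') = 0 := funext fun i => by
    rw [Matrix.mulVec_sub, Pi.sub_apply, ← hb z hz, dzb_congr e, T.hess_vec (hs hz),
      dzb_dg (Φ := fun w => c + fderiv ℂ T.Φ w (a', 0)) ((hn_app hz' _).self_of_nhds.const_add _),
      fderiv_const_add, fderiv_app hz', snd_symm hz']
    exact sub_self _
  have h6 := T.low_ph ((norm_pk_le z).trans_lt (mem_ball_zero_iff.1 (hs hz))) (I • V z - a')
  rw [nq, h5, dotProduct_zero, zero_re] at h6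
  have h7 : I • V z - a' = 0 := norm_eq_zero.1 (pow_eq_zero_iff two_ne_zero |>.1
    (le_antisymm (nonpos_of_mul_nonpos_right h6 T.c0_pos) (sq_nonneg _)))
  rw [← sub_eq_zero.1 h7, smul_smul]
  simp

theorem bounds {s : ℝ} (hs : s < T.del) : ∃ K, 0 < K ∧ ∀ w ∈ closedBall (0 : E r × E r) s,
    ‖fderiv ℂ T.Φ w‖ ≤ K ∧ ‖fderiv ℂ (fderiv ℂ T.Φ) w‖ ≤ K := by
  have h1 := H85.differentiableOn_fderiv isOpen_ball T.hol
  obtain ⟨a, ha⟩ := (isCompact_closedBall (0 : E r × E r) s).exists_bound_of_continuousOn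
    (h1.continuousOn.mono (closedBall_subset_ball hs))
  obtain ⟨b, hb⟩ := (isCompact_closedBall (0 : E r × E r) s).exists_bound_of_continuousOn
    ((H85.continuousOn_fderiv isOpen_ball h1).mono (closedBall_subset_ball hs))
  refine ⟨|a| + |b| + 1, by positivity, fun w hw => ⟨?_, ?_⟩⟩
  · linarith [ha w hw, le_abs_self a, abs_nonneg b]
  · linarith [hb w hw, le_abs_self b, abs_nonneg a]

theorem est {s : ℝ} (hs : s < T.del) : ∃ C, 0 < C ∧ ∀ (t : E r) (ρ : ℝ) (G : E r → E r), 0 < ρ →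
    ball t ρ ⊆ closedBall 0 s → DifferentiableOn ℂ G (ball t ρ) →
    MapsTo G (ball t ρ) (closedBall 0 s) → T.Iso T.ph G t →
    ∀ z ∈ ball t ρ, ‖G z - z‖ ≤ C * (‖G t - t‖ + ‖fderiv ℂ G t - 1‖) := by
  obtain ⟨K, hK, hb⟩ := T.bounds hs
  have hc := T.c0_pos
  refine ⟨2 * K / T.c0, by positivity, fun t ρ G hρ h1 hG h2 hi z hz => ?_⟩
  have ht := mem_ball_self (x := t) hρ
  have sb : closedBall (0 : E r) s ⊆ ball 0 T.del := closedBall_subset_ball hs
  have hm : ∀ x ∈ closedBall (0 : E r) s, ∀ y ∈ closedBall (0 : E r) s,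
      (x, star y) ∈ closedBall (0 : E r × E r) s := fun x hx y hy => by
    rw [mem_closedBall_zero_iff] at *
    rw [Prod.norm_def, norm_star]
    exact max_le hx hy
  have lip : ∀ w ∈ closedBall (0 : E r × E r) s, ∀ w' ∈ closedBall (0 : E r × E r) s,
      ‖fderiv ℂ T.Φ w - fderiv ℂ T.Φ w'‖ ≤ K * ‖w - w'‖ := fun w hw w' hw' =>
    (convex_closedBall _ _).norm_image_sub_le_of_norm_fderiv_le (𝕜 := ℂ)
      (fun x hx => (hn_fderiv (T.hn (closedBall_subset_ball hs hx))).self_of_nhds)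
      (fun x hx => (hb x hx).2) hw' hw
  set ε := ‖G t - t‖ + ‖fderiv ℂ G t - 1‖ with hε
  have key : ∀ x ∈ closedBall (0 : E r) s, ∀ y ∈ closedBall (0 : E r) s, ‖x - y‖ ≤ ‖G t - t‖ →
      ∀ i, ‖fderiv ℂ T.Φ (x, star (G t)) (0, star (fderiv ℂ G t (Pi.single i 1))) -
        fderiv ℂ T.Φ (y, star t) (0, Pi.single i 1)‖ ≤ K * ε := fun x hx y hy hxy i => by
    have a1 := lip _ (hm x hx _ (h2 ht)) _ (hm y hy _ (h1 ht))
    have a2 : ‖((x, star (G t)) : E r × E r) - (y, star t)‖ ≤ ‖G t - t‖ := by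
      rw [Prod.mk_sub_mk, Prod.norm_def, ← star_sub, norm_star]
      exact max_le hxy le_rfl
    have a3 : ‖((0, Pi.single i 1) : E r × E r)‖ = 1 := by simp [Prod.norm_def, Pi.norm_single]
    have a4 : ‖((0, star (fderiv ℂ G t (Pi.single i 1))) : E r × E r) - (0, Pi.single i 1)‖ ≤
        ‖fderiv ℂ G t - 1‖ := by
      have := (fderiv ℂ G t - 1).le_opNorm (Pi.single i 1)
      rw [Pi.norm_single, norm_one, mul_one] at this
      rw [Prod.mk_sub_mk, Prod.norm_def, sub_self, norm_zero, max_eq_right (norm_nonneg _),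
        ← norm_star, star_sub, star_star, star_sing]
      exact this
    have a5 := (fderiv ℂ T.Φ (x, star (G t))).le_of_opNorm_le_of_le (hb _ (hm x hx _ (h2 ht))).1 a4
    have a6 := (fderiv ℂ T.Φ (x, star (G t)) - fderiv ℂ T.Φ (y, star t)).le_of_opNorm_le_of_le
      (a1.trans (mul_le_mul_of_nonneg_left a2 hK.le)) a3.le
    rw [map_sub] at a5
    rw [sub_apply] at a6
    refine (norm_sub_le_norm_sub_add_norm_sub _ _ _).trans ((add_le_add a5 a6).trans_eq ?_)
    rw [hε]; ring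
  have hu : star t ∈ ball (0 : E r) T.del := by simpa using sb (h1 ht)
  have h3 := T.exp _ hu _ (sb (h2 hz)) _ (sb (h1 hz))
  have h4 : ‖pu T.Φ (G z, star t) - pu T.Φ (z, star t)‖ ≤ 2 * K * ε := by
    refine (pi_norm_le_iff_of_nonneg (by positivity)).2 fun i => ?_
    have a1 := T.df_q (Φ := T.Φ) (φ := T.ph) (T.hol.mono fun w hw => mem_b0.2
      ⟨sb (h1 (mem_pb.1 hw).1), by simpa using sb (h1 (mem_pb.1 hw).2)⟩)
      (fun x hx => (T.ph_eq (sb (h1 hx))).symm) hG (fun x hx => sb (h2 hx)) ht hi hz ht ht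
      (Pi.single i 1)
    rw [star_sing] at a1
    have a2 := key _ (h2 hz) _ (h2 hz) (by simp) i
    have a3 := key _ (h2 ht) _ (h1 ht) le_rfl i
    rw [norm_sub_rev] at a2
    refine le_trans (le_of_eq ?_) ((norm_add_le _ _).trans ((add_le_add a2 a3).trans_eq (by ring)))
    congr 1
    simp only [pu, Pi.sub_apply]
    linear_combination -a1
  rw [div_mul_eq_mul_div, le_div_iff₀ hc]
  linarith

theorem Adm.shift {T : TV r k} {γ : E r → E r} {t a b : E r} (h : T.Adm γ (t + a))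
    (ha : pk k a = 0) (hb : pk k b = 0) : T.Adm (fun x => γ (x + a) + b) t := by
  have c : Tendsto (fun x => x + a) (𝓝 t) (𝓝 (t + a)) := (continuous_add_const a).tendsto t
  have h1 : ∀ (f : E r → ℂ) (s : E r), hess (fun x => f (x + a)) s = hess f (s + a) := fun f s => by
    ext i j
    have : dz j (fun x => f (x + a)) = fun x => dz j f (x + a) := funext fun x => by
      simp only [dz, fderiv_comp_add_right]
    simp only [hess_apply, this, dzb, fderiv_comp_add_right]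
  refine ⟨(c.eventually h.1).mono fun s hs => ⟨(hs.1.comp s (by fun_prop)).add_const b, ?_⟩,
    (c.eventually h.2).mono fun s hs i hi => by rw [T.mu_tr hb, hs i hi, T.mu_tr ha]⟩
  rw [← hs.2, ← h1]
  simp only [T.ph_tr hb, T.ph_tr ha]

/-- The limit argument. -/
theorem no_seq (hM : T.Max) {s ρ C : ℝ} (hρ : 0 < ρ) (hs : s + ρ ≤ T.del) {t : ℕ → E r}
    {G : ℕ → E r → E r} {e : ℕ → ℝ} (ht : ∀ l, ‖t l‖ ≤ s) (hp : ∀ l, pk k (G l (t l) - t l) = G l (t l) - t l)
    (hG : ∀ l, DifferentiableOn ℂ (G l) (ball (t l) ρ))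
    (hm : ∀ l, MapsTo (G l) (ball (t l) ρ) (ball 0 T.del)) (hA : ∀ l, T.Adm (G l) (t l))
    (he : ∀ l, e l = ‖G l (t l) - t l‖ + ‖fderiv ℂ (G l) (t l) - 1‖) (h0 : ∀ l, e l ≠ 0)
    (hl : Tendsto e atTop (𝓝 0)) (hC : ∀ l, ∀ z ∈ ball (t l) ρ, ‖G l z - z‖ ≤ C * e l) :
    False := by
  have ep : ∀ l, 0 < e l := fun l => lt_of_le_of_ne (by rw [he]; positivity) (h0 l).symm
  have ec : ∀ l, (e l : ℂ) ≠ 0 := fun l => ofReal_ne_zero.2 (h0 l)
  have sb : ∀ x : E r, ‖x‖ ≤ s → ball x ρ ⊆ ball 0 T.del := fun x hx =>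
    ball_subset_ball' (by rw [dist_zero_right]; linarith)
  have sh : ∀ (x : E r) {y : E r}, y ∈ ball (0 : E r) ρ → x + y ∈ ball x ρ := fun x y hy => by
    simpa using hy
  set W : ℕ → E r → E r := fun l x => (e l : ℂ)⁻¹ • (G l (t l + x) - (t l + x)) with hW
  have hWd : ∀ l, DifferentiableOn ℂ (W l) (ball 0 ρ) := fun l =>
    (((hG l).comp (f := fun x => t l + x) (by fun_prop) fun x hx => sh _ hx).sub
      (show DifferentiableOn ℂ (fun x : E r => t l + x) (ball 0 ρ) by fun_prop)).const_smul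
        ((e l : ℂ)⁻¹)
  have hWb : ∀ l, ∀ x ∈ ball (0 : E r) ρ, ‖W l x‖ ≤ C := fun l x hx => by
    simp only [hW, norm_smul, norm_inv, norm_real, Real.norm_eq_abs, abs_of_pos (ep l)]
    rw [inv_mul_le_iff₀ (ep l), mul_comm]
    exact hC l _ (sh _ hx)
  have hW1 : ∀ l, ‖W l 0‖ + ‖fderiv ℂ (W l) 0‖ = 1 := fun l => by
    have a1 : HasFDerivAt (W l) ((e l : ℂ)⁻¹ • (fderiv ℂ (G l) (t l) - 1)) 0 := by
      have a2 : HasFDerivAt (G l) (fderiv ℂ (G l) (t l)) (t l + 0) := by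
        simpa using (hA l).1.hn.self_of_nhds.hasFDerivAt
      exact (((hasFDerivAt_comp_add_left (t l)).2 a2).sub
        ((hasFDerivAt_id (0 : E r)).const_add (t l))).const_smul ((e l : ℂ)⁻¹)
    rw [a1.fderiv]
    simp only [hW, norm_smul, norm_inv, norm_real, Real.norm_eq_abs, abs_of_pos (ep l), add_zero]
    rw [← mul_add, ← he, inv_mul_cancel₀ (h0 l)]
  have hGW : ∀ l x, G l (t l + x) = t l + x + (e l : ℂ) • W l x := fun l x => by
    simp only [hW, smul_inv_smul₀ (ec l)]; abel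
  obtain ⟨u, hu, φ, hφ, h1⟩ := (isCompact_closedBall (0 : E r) s).tendsto_subseq
    (x := t) fun l => mem_closedBall_zero_iff.2 (ht l)
  obtain ⟨ψ, hψ, V, hV, h2⟩ := H85.montel (f := fun l => W (φ l)) isOpen_ball (fun l => hWd _)
    fun x hx => ⟨C, _, isOpen_ball.mem_nhds hx, fun l => hWb _⟩
  set σ : ℕ → ℕ := fun l => φ (ψ l) with hσ
  have h3 : Tendsto (fun l => t (σ l)) atTop (𝓝 u) := h1.comp hψ.tendsto_atTop
  have h4 : Tendsto (fun l => (e (σ l) : ℂ)) atTop (𝓝 0) := by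
    have := (continuous_ofReal.tendsto 0).comp (hl.comp (hφ.comp hψ).tendsto_atTop)
    rw [ofReal_zero] at this
    exact this
  have h5 : ∀ x ∈ ball (0 : E r) ρ, Tendsto (fun l => W (σ l) x) atTop (𝓝 (V x)) := fun x hx =>
    h2.tendsto_at hx
  have h6 := (H85.differentiableOn_of_tendstoLocallyUniformlyOn isOpen_ball
    (Eventually.of_forall fun l => hWd (φ (ψ l))) h2).2 0 (mem_ball_self hρ)
  have hu' := mem_closedBall_zero_iff.1 hu
  have lim : ∀ F : E r × E r → ℂ, DifferentiableOn ℂ F (ball 0 T.del) → ∀ x ∈ ball (0 : E r) ρ,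
      ∀ y ∈ ball (0 : E r) ρ, Tendsto (fun l => (e (σ l) : ℂ)⁻¹ •
        (F (pp (G (σ l)) (t (σ l) + x, star (t (σ l) + y))) - F (t (σ l) + x, star (t (σ l) + y))))
        atTop (𝓝 (fderiv ℂ F (u + x, star (u + y)) (V x, star (V y)))) := fun F hF x hx y hy => by
    have a1 := slope_lim (strict (hn_of isOpen_ball hF (mem_b0.2 (show (u + x, star (u + y)).1 ∈ _ ∧
      (u + x, star (u + y)).2 ∈ _ from ⟨sb u hu' (sh u hx), by
        simpa only [mem_ball_zero_iff, norm_star] using sb u hu' (sh u hy)⟩))))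
      ((h3.add_const x).prodMk_nhds (h3.add_const y).star)
      ((h5 x hx).prodMk_nhds (h5 y hy).star) h4 fun l => ec _
    refine a1.congr fun l => ?_
    simp only [pp, cm, star_star, hGW, Prod.smul_mk, Prod.mk_add_mk, star_add, star_smul,
      RCLike.star_def, conj_ofReal]
  have hb : ∀ l, ∀ w ∈ ball (dg (t l)) ρ, w ∈ ball (0 : E r × E r) T.del := fun l w hw =>
    mem_b0.2 ⟨sb _ (ht l) (mem_pb.1 hw).1, by simpa using sb _ (ht l) (mem_pb.1 hw).2⟩
  have z0 := mem_ball_self (x := (0 : E r)) hρ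
  have hz : ∀ z ∈ ball u ρ, ∃ x ∈ ball (0 : E r) ρ, z = u + x := fun z hz =>
    ⟨z - u, by simpa [dist_eq_norm] using hz, by simp⟩
  obtain ⟨b, hb0, hb1⟩ := T.lim0 hM hρ (sb u hu') (V := fun z => V (z - u))
    (hV.comp (by fun_prop) fun z hz => by simpa [dist_eq_norm] using hz)
    (fun z hz' => by
      obtain ⟨x, hx, rfl⟩ := hz z hz'
      have a1 := (lim _ T.hol x hx x hx).sub (lim _ T.hol 0 z0 x hx)
      have a2 := (lim _ T.hol x hx 0 z0).sub (lim _ T.hol 0 z0 0 z0)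
      have a3 := tendsto_nhds_unique a1 (a2.congr fun l => by
        have hΦ := T.hol.mono (hb (σ l))
        have a4 := sep (T.df_hol hΦ (hG _) (hm _)) (T.df_mx hΦ
          (fun y hy => (T.ph_eq (sb _ (ht _) hy)).symm) (hG _) (hm _) (mem_ball_self hρ) (hA _).1)
          (sh _ hx) (sh _ z0) (sh _ hx) (sh _ z0)
        simp only [df] at a4
        simp only [smul_eq_mul]
        linear_combination (e (σ l) : ℂ)⁻¹ * a4)
      simpa [pp, cm, dg] using a3)
    (fun i hi z hz' => by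
      obtain ⟨x, hx, rfl⟩ := hz z hz'
      have a1 := lim _ (T.pz_hol i) x hx x hx
      have a2 := tendsto_nhds_unique a1 (tendsto_const_nhds.congr fun l => by
        have a3 := id2 (f := fun w => pz T.Φ (pp (G (σ l)) w) i - pz T.Φ w i) (c := t (σ l)) (R := ρ)
          (fun w hw => ((hn_comp (Θ := fun w => pz T.Φ w i)
            (hn_of isOpen_ball (hG _) (mem_pb.1 hw).1) (hn_of isOpen_ball (hG _) (mem_pb.1 hw).2)
            (hn_of isOpen_ball (T.pz_hol i) (T.pp_mem (hm _) hw))).self_of_nhds.sub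
            (hn_of isOpen_ball (T.pz_hol i) (hb _ w hw)).self_of_nhds).differentiableWithinAt)
          (mem_ball_self hρ) (by
            filter_upwards [(hA (σ l)).2, ball_mem_nhds _ hρ] with y h7 h8
            rw [pp_dg, ← T.mu_eq hi (hm _ h8), ← T.mu_eq hi (sb _ (ht _) h8), h7 i hi, sub_self])
          _ (dg_mem.2 (sh _ hx))
        exact (smul_eq_zero_of_right _ a3).symm)
      simpa [dg] using a2)
  have b1 : V =ᶠ[𝓝 0] fun _ => b := by
    have c : Tendsto (fun x => u + x) (𝓝 0) (𝓝 u) := Continuous.tendsto' (by fun_prop) _ _ (by simp)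
    simpa [EventuallyEq] using c.eventually hb1
  have b2 : pk k (V 0) = V 0 := by
    refine tendsto_nhds_unique ((cont_pk.tendsto _).comp (h5 0 z0)) ((h5 0 z0).congr fun l => ?_)
    have := hp (σ l)
    simp only [hW, Function.comp_apply, add_zero]
    rw [← ofReal_inv]
    ext i
    have a1 := congrFun this i
    simp only [pk, Pi.smul_apply, smul_eq_mul] at a1 ⊢
    split_ifs at a1 ⊢ with hi
    · rw [← a1]; simp
    · rfl
  have b3 := tendsto_nhds_unique ((h5 0 z0).norm.add h6.norm)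
    (tendsto_const_nhds.congr fun l => (hW1 (σ l)).symm)
  rw [← b2, b1.self_of_nhds, hb0, b1.fderiv_eq] at b3
  simp at b3

/-- Rigidity. -/
theorem rig (hM : T.Max) {s : ℝ} (hs : s < T.del) : ∃ ε > 0,
    ∀ (γ : E r → E r) (t : E r), ‖pk k t‖ ≤ s → T.Adm γ t → ‖pk k (γ t) - pk k t‖ < ε →
    ‖fderiv ℂ γ t - 1‖ < ε → ∃ a : E r, pk k a = 0 ∧ γ =ᶠ[𝓝 t] fun x => x + a := by
  set d := (T.del - s) / 4 with hd
  have d0 : 0 < d := by rw [hd]; linarith
  have hs1 : T.del - d < T.del := by linarith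
  obtain ⟨K, hK, hb⟩ := T.bounds hs1
  obtain ⟨C, hC, hest⟩ := T.est hs1
  have hK' := Real.sqrt_pos.2 hK
  have hc' := Real.sqrt_pos.2 T.c0_pos
  set ρ := min d (√T.c0 * d / √K) with hρ
  have ρ0 : 0 < ρ := lt_min d0 (by positivity)
  have ρ1 : ρ ≤ d := min_le_left _ _
  have sb0 : closedBall (0 : E r) (T.del - d) ⊆ ball 0 T.del := closedBall_subset_ball hs1
  have sb : ∀ x : E r, ‖x‖ ≤ s → ball x ρ ⊆ closedBall 0 (T.del - d) := fun x hx =>
    ball_subset_closedBall.trans (closedBall_subset_closedBall' (by rw [dist_zero_right]; linarith))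
  by_contra hn
  push Not at hn
  have step : ∀ ε > 0, ε ≤ min d 1 → ∃ (t : E r) (G : E r → E r) (e : ℝ), ‖t‖ ≤ s ∧
      pk k (G t - t) = G t - t ∧ DifferentiableOn ℂ G (ball t ρ) ∧
      MapsTo G (ball t ρ) (ball 0 T.del) ∧ T.Adm G t ∧ e = ‖G t - t‖ + ‖fderiv ℂ G t - 1‖ ∧ e ≠ 0 ∧
      ‖e‖ ≤ 2 * ε ∧ ∀ z ∈ ball t ρ, ‖G z - z‖ ≤ C * e := by
    intro ε h0 h1
    obtain ⟨γ, t, a1, a2, a3, a4, a5⟩ := hn ε h0
    set a := t - pk k t with ha
    set b := pk k (γ t) - γ t with hb'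
    have ha0 : pk k a = 0 := pk_rest t
    have hb0 : pk k b = 0 := by rw [hb', pk_sub, pk_pk, sub_self]
    have hta : pk k t + a = t := by rw [ha]; abel
    have a6 : T.Adm (fun x => γ (x + a) + b) (pk k t) := Adm.shift (by rwa [hta]) ha0 hb0
    have a7 : fderiv ℂ (fun x => γ (x + a) + b) (pk k t) = fderiv ℂ γ t := by
      rw [fderiv_add_const, fderiv_comp_add_right, hta]
    have a8 : γ (pk k t + a) + b = pk k (γ t) := by rw [hta, hb']; abel
    have a9 : ‖pk k (γ t)‖ ≤ T.del - 2 * d := by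
      have := norm_add_le (pk k (γ t) - pk k t) (pk k t)
      rw [sub_add_cancel] at this
      linarith [min_le_left d 1]
    obtain ⟨G, g1, g2⟩ := ext_ball T (φ := T.ph) (Φ := T.Φ) (x := pk k t) (ρ := ρ) (L := √K) d0
      hK'.le (T.hol.mono fun w hw => mem_b0.2 ⟨sb0 (sb _ a1 (mem_pb.1 hw).1), by
        simpa using sb0 (sb _ a1 (mem_pb.1 hw).2)⟩)
      (fun z hz => (T.ph_eq (sb0 (sb _ a1 hz))).symm) (fun z hz v => by
        have h2 := sb _ a1 hz
        rw [nq, T.hess_ph (sb0 h2), hess_form (T.hn (dg_mem0.2 (sb0 h2))), Real.sq_sqrt hK.le]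
        refine (re_le_norm _).trans (((fderiv ℂ (fderiv ℂ T.Φ) (dg z)).le_opNorm₂ _ _).trans ?_)
        have h3 := (hb (dg z) (by rwa [mem_closedBall_zero_iff, norm_dg, ← mem_closedBall_zero_iff])).2
        simp only [Prod.norm_def, norm_zero, norm_star, max_eq_left (norm_nonneg v),
          max_eq_right (norm_nonneg v)]
        rw [mul_assoc, ← sq]
        exact mul_le_mul_of_nonneg_right h3 (sq_nonneg _))
      (by rw [mul_comm]; exact (le_div_iff₀ hK').1 (min_le_right _ _)) (by rwa [a8]) a6.1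
      ((frequently_pure.2 (by
        rw [a7]
        have h2 : ‖1 - fderiv ℂ γ t‖ < 1 := by
          rw [norm_sub_rev]; linarith [min_le_right d 1]
        obtain ⟨U, hU⟩ := isUnit_one_sub_of_norm_lt_one h2
        rw [sub_sub_cancel] at hU
        exact fun y => ⟨(↑U⁻¹ : E r →L[ℂ] E r) y, by
          rw [← hU, ← mul_apply_eq_comp, U.mul_inv]; rfl⟩)).filter_mono
        (pure_le_nhds _))
    have g3 : G (pk k t) = pk k (γ t) := g1.self_of_nhds.trans a8
    have g4 : DifferentiableOn ℂ G (ball (pk k t) ρ) := fun z hz =>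
      (g2 z hz).2.hn.self_of_nhds.differentiableWithinAt
    have g5 : MapsTo G (ball (pk k t) ρ) (closedBall 0 (T.del - d)) := fun z hz => by
      have h2 := (g2 z hz).1
      have h3 := norm_add_le (G z - pk k (γ t)) (pk k (γ t))
      rw [a8] at h2
      rw [sub_add_cancel] at h3
      exact mem_closedBall_zero_iff.2 (by linarith)
    have g6 := hest _ ρ G ρ0 (sb _ a1) g4 g5 (a6.1.congr g1)
    refine ⟨pk k t, G, _, a1, by rw [g3, pk_sub, pk_pk, pk_pk], g4, fun z hz => sb0 (g5 hz),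
      ⟨a6.1.congr g1, (a6.2.and g1).mono fun x hx i hi => by rw [hx.2]; exact hx.1 i hi⟩, rfl,
      fun h2 => a5 (-b - a) (by rw [pk_sub, pk_neg, ha0, hb0]; simp) ?_, ?_, g6⟩
    · have c : Tendsto (fun x => x - a) (𝓝 t) (𝓝 (pk k t)) :=
        Continuous.tendsto' (by fun_prop) _ _ (by rw [ha]; abel)
      filter_upwards [c.eventually g1, c.eventually (ball_mem_nhds _ ρ0)] with x h3 h4
      have h5 := g6 _ h4
      rw [h2, mul_zero, norm_le_zero_iff, sub_eq_zero, h3, sub_add_cancel] at h5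
      rw [eq_sub_of_add_eq h5]; abel
    · rw [Real.norm_of_nonneg (by positivity), g3, g1.fderiv_eq, a7]
      linarith
  have m0 : 0 < min d 1 := lt_min d0 one_pos
  choose t G e h1 h2 h3 h4 h5 h6 h7 h8 h9 using fun l : ℕ => step (min d 1 / (l + 1))
    (by positivity) (div_le_self m0.le (by simp))
  refine T.no_seq hM ρ0 (by linarith) h1 h2 h3 h4 h5 h6 h7 (squeeze_zero_norm h8 ?_) h9
  simpa [div_eq_mul_inv] using
    (tendsto_one_div_add_atTop_nhds_zero_nat (𝕜 := ℝ)).const_mul (min d 1) |>.const_mul 2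

end TV

end Pool.Agent.Lib.RA.H56
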