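import Pool.Agent.Lib.HS32.EKit

/-! Polarised calculus: functions of `(z, u)` with `u` in place of the conjugate of `z`. -/

open scoped Classical Topology ContDiff ComplexOrder Matrix
open Set Complex Metric Filter

set_option linter.unusedVariables false

noncomputable section

namespace Pool.Agent.Lib.RA

open Pool.Agent.Lib.SV (E)
open Pool.Agent.Lib.HS32

variable {n : ℕ}

/-- The point of the diagonal over `z`. -/
def dg (z : E n) : E n × E n := (z, star z)

/-- The conjugate swap; it fixes the diagonal. -/
def sw (y : E n × E n) : E n × E n := (star y.2, star y.1)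

/-- The conjugate transpose of a function of `(z, u)`. -/
def cj (F : E n × E n → ℂ) (y : E n × E n) : ℂ := star (F (sw y))

/-- The gradient in `z`. -/
def pz (F : E n × E n → ℂ) (y : E n × E n) : E n := fun j => fderiv ℂ F y (Pi.single j 1, 0)

/-- The gradient in `u`. -/
def pu (F : E n × E n → ℂ) (y : E n × E n) : E n := fun i => fderiv ℂ F y (0, Pi.single i 1)

/-- The mixed Hessian, row index for `u`, column index for `z`. -/
def Gm (F : E n × E n → ℂ) (y : E n × E n) : Mat n :=
  Matrix.of fun i j => pu (fun x => pz F x j) y i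

/-- For every `z` of the ball the matrices `Gm F (z, u)` have a common kernel of codimension at
most `r`. -/
def CK (F : E n × E n → ℂ) (c : E n) (R : ℝ) (r : ℕ) : Prop :=
  ∀ z ∈ ball c R, ∃ K : Submodule ℂ (E n), n ≤ Module.finrank ℂ K + r ∧
    ∀ v ∈ K, ∀ u ∈ ball (star c) R, Gm F (z, u) *ᵥ v = 0

end Pool.Agent.Lib.RA
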