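import Pool.Agent.Lib.RA.B_RN
import Pool.Agent.Lib.RA.B_EXT
import Pool.Agent.Lib.RA.B_PZ
import Pool.Agent.Lib.RA.B_CH2
import Pool.Agent.Lib.RA.K_At
import Pool.Agent.Lib.RA.T_FIB
import Pool.Agent.Lib.RA.T_POL

/-! Project ra1, row G1: the local model of a basic potential. -/

open scoped Classical Topology ContDiff ComplexOrder Matrix
open Set Complex Metric Filter

set_option linter.unusedVariables false

noncomputable section

namespace Pool.Agent.Lib.RA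

open Pool.Agent.Lib.SV (E)
open Pool.Agent.Lib.HS32

namespace G71

variable {n r : ℕ}

theorem ker_sub {A : Mat n} {J : Matrix (Fin r) (Fin n) ℂ} (hA : A.rank ≤ r) (hJ : r ≤ J.rank)
    (h : ∀ v, A *ᵥ v = 0 → J *ᵥ v = 0) (v : E n) (hv : J *ᵥ v = 0) : A *ᵥ v = 0 := by
  have h1 := A.mulVecLin.finrank_range_add_finrank_ker
  have h2 := J.mulVecLin.finrank_range_add_finrank_ker
  have : LinearMap.ker A.mulVecLin = LinearMap.ker J.mulVecLin :=
    Submodule.eq_of_le_of_finrank_le h (by unfold Matrix.rank at hA hJ; omega)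
  exact (this.ge hv :)

theorem fd_real {u : E n → ℝ} {z v : E n} (hu : DifferentiableAt ℝ u z) (h : dv1 u z ⬝ᵥ v = 0) :
    fderiv ℝ u z v = 0 := by
  have h1 := fderiv_eq_sum (fun w => (u w : ℂ)) z v
  have hc : DifferentiableAt ℝ (fun w => (u w : ℂ)) z := ofRealCLM.differentiableAt.comp z hu
  have h2 : ∑ j, dz j (fun w => (u w : ℂ)) z * v j = 0 := h
  simp only [fderiv_ofReal hu, ← star_dz_ofReal hc, ← star_mul', Finset.sum_add_distrib,
    ← star_sum, h2, star_zero, add_zero] at h1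
  exact ofReal_eq_zero.1 h1

theorem dg0 : dg (0 : E r) = 0 := by simp [dg]

theorem plz {Φ : E r × E r → ℂ} {δ c : ℝ} (h : Tv0 Φ δ c) : Plz (pt Φ) Φ 0 (2 * δ) :=
  ((st_PZ r Φ 0 _ (dg0 ▸ h.hol)).2.2.1 h.real).1

theorem pt_an {Φ : E r × E r → ℂ} {δ c : ℝ} (h : Tv0 Φ δ c) {t : E r} (ht : ‖t‖ < 2 * δ) :
    AnalyticAt ℝ (pt Φ) t ∧ hr (pt Φ) t = Gm Φ (dg t) :=
  ((st_PZ r Φ 0 _ (dg0 ▸ h.hol)).2.1 _ (plz h) t (mem_ball_zero_iff.2 ht)).imp_right And.left

theorem hr_comp {u : E r → ℝ} {H : E n → E r} {z : E n} (h : HolN H z)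
    (hu : AnalyticAt ℝ u (H z)) : hr (u ∘ H) z = (jr H z)ᴴ * hr u (H z) * jr H z :=
  BCH2.hess_comp h (f := fun w => (u w : ℂ)) (cd_ofReal hu.contDiffAt)

theorem loc {u : E n → ℝ} {T : E n → E r} {z : E n} (hu : AnalyticAt ℝ u z) (hT : HolN T z)
    (h0 : T z = 0) (hs : Function.Surjective (fderiv ℂ T z)) (hp : (hr u z).PosSemidef)
    (hrk : (hr u z).rank = r) (hk : ∀ᶠ w in 𝓝 z, (hr u w).rank ≤ r ∧
      ∀ v, hr u w *ᵥ v = 0 → fderiv ℂ T w v = 0 ∧ dv1 u w ⬝ᵥ v = 0) :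
    ∃ Φ δ c, Tv0 Φ δ c ∧ ∀ᶠ w in 𝓝 z, u w = pt Φ (T w) := by
  obtain ⟨σ, s1, s2, s3, s4, -⟩ := st_FIB _ _ T z (ANB.analyticAt hT) hs
  rw [h0] at s1 s2 s3
  have sh : HolN σ 0 := s1.eventually_analyticAt.mono fun _ h => h.differentiableAt
  have j1 : jr T z * jr σ 0 = 1 := by
    have a := BCH2.jr_comp sh.self_of_nhds (K := T) (by rw [s2]; exact hT.self_of_nhds)
    rw [s2] at a
    rw [← a, ← BTR.jm_id (0 : E r)]
    exact BTR.jm_congr s3
  have jc : ContinuousAt (fun w => (jr T w * jr σ 0).det) z := by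
    refine (Continuous.matrix_det (continuous_id.matrix_mul continuous_const)).continuousAt.comp
      (f := jr T) (continuousAt_pi.2 fun i => continuousAt_pi.2 fun l => ?_)
    exact (BCH2.cd_jr hT i l).continuousAt
  have e1 := s4 ℝ u (by
    filter_upwards [hk, hu.eventually_analyticAt, jc.eventually_ne (y := 0) (by simp [j1])]
      with w a b d
    refine ⟨b.differentiableAt, fun v hv => fd_real b.differentiableAt (a.2 v ?_).2⟩
    refine ker_sub a.1 (J := jr T w) ?_ (fun v hv => ?_) v ?_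
    · have := Matrix.rank_mul_le_left (jr T w) (jr σ 0)
      rwa [Matrix.rank_of_det_ne_zero d, Fintype.card_fin] at this
    · rw [← BCH2.fderiv_mulVec]; exact (a.2 v hv).1
    · rw [← BCH2.fderiv_mulVec]; exact hv)
  have hu' : AnalyticAt ℝ u (σ 0) := by rwa [s2]
  have an : AnalyticAt ℝ (u ∘ σ) 0 := hu'.comp s1.restrictScalars
  obtain ⟨R, R0, Φ, p1, p2⟩ := st_POL.1 r _ 0 an
  have g := ((st_PZ r Φ 0 R p1).2.1 _ ⟨p1, p2⟩ 0 (mem_ball_self R0)).2.1
  rw [dg0] at g p1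
  have pd : (Gm Φ 0).PosDef := by
    rw [← g]
    refine (Matrix.PosSemidef.posDef_iff_det_ne_zero ?_).2 (R71.det_of_rank ?_)
    · rw [hr_comp sh hu', s2]
      exact hp.conjTranspose_mul_mul_same _
    · refine le_antisymm (Matrix.rank_le_width _) ?_
      have a := hr_comp hT (u := u ∘ σ) (by rwa [h0])
      rw [← KA.hr_congr (u := u) (u' := (u ∘ σ) ∘ T) e1, h0] at a
      calc r = _ := hrk.symm
        _ ≤ _ := by
          rw [a]; exact (Matrix.rank_mul_le_left _ _).trans (Matrix.rank_mul_le_right _ _)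
  obtain ⟨c, hc⟩ := st_TVE r Φ R R0 p1 (fun t ht => by rw [p2 t ht, ofReal_im]) pd
  obtain ⟨δ, hδ⟩ := hc.exists
  refine ⟨Φ, δ, c, hδ, ?_⟩
  filter_upwards [e1, hT.self_of_nhds.continuousAt.eventually
    (isOpen_ball.mem_nhds (show T z ∈ ball 0 R from h0 ▸ mem_ball_self R0))] with w a b
  rw [pt, p2 _ b, ofReal_re]
  exact a

section top

variable {X F : Type} [TopologicalSpace X] [TopologicalSpace F] [T2Space F] {W : Set X}
  {f g : X → F} {x : X}

theorem lim_eq [Nonempty F] (hW : Dense W) (hf : ContinuousAt f x)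
    (h : ∀ᶠ y in 𝓝 x, y ∈ W → f y = g y) : limUnder (𝓝[W] x) g = f x :=
  haveI := mem_closure_iff_nhdsWithin_neBot.1 (hW x)
  ((hf.tendsto.mono_left nhdsWithin_le_nhds).congr' (eventually_nhdsWithin_iff.2 h)).limUnder_eq

theorem eq_dense (hW : Dense W) (hf : ContinuousAt f x) (hg : ContinuousAt g x)
    (h : ∀ᶠ y in 𝓝 x, y ∈ W → f y = g y) : f x = g x :=
  haveI : Nonempty F := ⟨f x⟩
  (lim_eq hW hf h).symm.trans (lim_eq hW hg (Eventually.of_forall fun _ _ => rfl))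

end top

variable {M : Mf n} {φ : M.Fam ℝ} {m : ℕ} {s : M.Fam ℂ} {W : Set M.X} {e : M.Ch} {x : M.X}

/-- The logarithm of the norm of the section. -/
def uc (φ : M.Fam ℝ) (m : ℕ) (s : M.Fam ℂ) : M.Fam ℝ :=
  fun e w => φ e w - (m : ℝ)⁻¹ * Real.log (normSq (s e w))

theorem uu_ch (hφ : M.Wt 1 φ) (m0 : 0 < m) (hs : MerSec M m s W) (he : e ∈ M.C)
    (hx : x ∈ e.source) (hW : x ∈ W) : M.ev (uc φ m s) x = uc φ m s e (e x) := by
  have h1 := hφ.cmp e he _ (Mf.ch_mem x) x hx (Mf.mem_ch x)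
  have h2 := hs.cmp e he _ (Mf.ch_mem x) x hx (Mf.mem_ch x) hW
  have h3 := normSq_pos.2 (KA.det_J he (Mf.ch_mem x) hx (Mf.mem_ch x))
  have h4 := normSq_pos.2 (hs.hol x hW e he hx).2
  have h5 : (m : ℝ) ≠ 0 := by positivity
  beta_reduce at h1 h2
  simp only [Mf.ev, uc]
  rw [h1, h2, map_mul, map_pow, Real.log_mul h4.ne' (by positivity), Real.log_pow]
  field_simp
  ring

theorem uu_ev (hφ : M.Wt 1 φ) (m0 : 0 < m) (hs : MerSec M m s W) (ho : IsOpen W) (he : e ∈ M.C)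
    (hx : x ∈ e.source) (hW : x ∈ W) :
    M.ev (uc φ m s) ∘ e.symm =ᶠ[𝓝 (e x)] uc φ m s e := by
  filter_upwards [(KA.ev_iff hx).1 (ho.mem_nhds hW), e.open_target.mem_nhds (e.map_source hx)]
    with w a b
  rw [Function.comp_apply, uu_ch hφ m0 hs he (e.map_target b) a, e.right_inv b]

theorem uc_an {z : E n} (h : AnalyticAt ℝ (φ e) z) (hs : HolN (s e) z ∧ s e z ≠ 0) :
    AnalyticAt ℝ (uc φ m s e) z ∧ hr (uc φ m s e) z = hr (φ e) z := by
  have a := KA.an_of_hol hs.1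
  have b : AnalyticAt ℝ (fun w => Real.log (normSq (s e w))) z := by
    refine (analyticAt_log (normSq_pos.2 hs.2)).comp (f := fun w => normSq (s e w)) ?_
    simp only [normSq_apply]
    exact (((reCLM.analyticAt _).comp a).mul ((reCLM.analyticAt _).comp a)).add
      (((imCLM.analyticAt _).comp a).mul ((imCLM.analyticAt _).comp a))
  refine ⟨h.sub (analyticAt_const.mul b), ?_⟩
  have c := cd_ofReal (b.contDiffAt (n := ∞))
  simp only [hr, uc, ofReal_sub, ofReal_mul]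
  rw [hess_sub (cd_ofReal h.contDiffAt) (contDiffAt_const.mul c), hess_const_mul _ c,
    (((mHOL n _ z).2.2 hs.1).2.2.2 hs.2).2.1, smul_zero, sub_zero]

end G71

end Pool.Agent.Lib.RA
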