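import Pool.Agent.Lib.RA.Top
import Pool.Agent.Lib.PN.All
import Pool.Agent.Lib.HN.Br

/-! Project ra1: from the manifold layer to the statement. -/

open scoped Manifold ContDiff

namespace Pool.Agent.Lib.RA

open Pool.Agent.Lib.SV (E)
open Pool.Agent.Lib.HS32 Pool.Agent.Lib.PN Pool.Agent.Lib.UR.M

/-- The theorem on the manifold layer. -/
def St_MAIN : Prop := ∀ (n p d r : ℕ) (M : Mf n) [M.Cpt] [SimplyConnectedSpace M.X] (Λ : Type)
  [Fintype Λ] (g : Λ → Pol (p + n)) (f : M.X → Fin (p + n + 1) → ℂ) (φ : M.Fam ℝ), Prj M d g f →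
  Su M (fs M f) φ r → r ≤ n → M.WGrow r

theorem glue (hB : St_BRG) (hM : St_MAIN) (n : ℕ) (X : Type) [TopologicalSpace X]
    [ChartedSpace (E n) X] [IsManifold 𝓘(ℂ, E n) ω X] [CompactSpace X] [T2Space X]
    [SimplyConnectedSpace X] (hX : Projective n X) (φ : X → ℝ) (h : AnalyticSemipos n φ) :
    ∃ k ≤ n, NullDirs n φ k ∧ HN.KodGe n X (n - k) := by
  have : (HS.BBR.mf n X).Cpt := ⟨‹T2Space X›, ‹CompactSpace X›, inferInstanceAs (ConnectedSpace X)⟩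
  have : SimplyConnectedSpace (HS.BBR.mf n X).X := ‹SimplyConnectedSpace X›
  obtain ⟨φ', r, hr, h1, h2, h3⟩ := hB n X φ h
  obtain ⟨ρ, l, e, G, f, hP⟩ := aBR n X hX
  refine ⟨n - r, Nat.sub_le _ _, h3, ?_⟩
  rw [Nat.sub_sub_self hr]
  have hk := (aGAU n (HS.BBR.mf n X) _ f hP.map hP.imm).1
  exact HN.B81.kod (hM n ρ e r _ _ G f φ' hP ⟨h1, by convert hk, h2⟩ hr)

end Pool.Agent.Lib.RA
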