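import Pool.Agent.Lib.RA.PDefs
import Pool.Agent.Lib.SV.Hol85

/-! Polarised functions: the diagonal, mixed derivatives, identity theorem, chain rule, inverse of
an expanding holomorphic map. -/

open scoped Classical Topology ContDiff Matrix
open Set Complex Metric Filter

set_option linter.unusedVariables false

noncomputable section

namespace Pool.Agent.Lib.RA.K56

open Pool.Agent.Lib.SV (E)
open Pool.Agent.Lib.HS32 Pool.Agent.Lib.SV

variable {n r : ℕ}

/-- The conjugate map. -/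
def cm (H : E n → E r) (u : E n) : E r := star (H (star u))

/-- The polarised map. -/
def pp (H : E n → E r) (w : E n × E n) : E r × E r := (H w.1, cm H w.2)

/-- Mixed second derivative, `a` in the first and `b` in the second variable. -/
def mx (Φ : E n × E n → ℂ) (w : E n × E n) (a b : E n) : ℂ :=
  fderiv ℂ (fderiv ℂ Φ) w (a, 0) (0, b)

/-- Holomorphic near a point. -/
abbrev Hn {A B : Type} [NormedAddCommGroup A] [NormedSpace ℂ A] [NormedAddCommGroup B]
    [NormedSpace ℂ B] (f : A → B) (x : A) : Prop := ∀ᶠ w in 𝓝 x, DifferentiableAt ℂ f w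

section hn

variable {A B : Type} [NormedAddCommGroup A] [NormedSpace ℂ A] [NormedAddCommGroup B]
    [NormedSpace ℂ B] {f : A → B} {x : A}

theorem hn_of {O : Set A} (hO : IsOpen O) (h : DifferentiableOn ℂ f O) (hx : x ∈ O) : Hn f x := by
  filter_upwards [hO.mem_nhds hx] with w hw using h.differentiableAt (hO.mem_nhds hw)

theorem hn_fderiv [FiniteDimensional ℂ A] [CompleteSpace B] (h : Hn f x) : Hn (fderiv ℂ f) x := by
  obtain ⟨O, h1, hO, hx⟩ := _root_.eventually_nhds_iff.1 h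
  exact hn_of hO (H85.differentiableOn_fderiv hO fun z hz => (h1 z hz).differentiableWithinAt) hx

theorem hn_smooth [FiniteDimensional ℂ A] [CompleteSpace B] [NormedSpace ℝ A] [NormedSpace ℝ B]
    [IsScalarTower ℝ ℂ A] [IsScalarTower ℝ ℂ B] (h : Hn f x) : ContDiffAt ℝ ∞ f x := by
  obtain ⟨O, h1, hO, hx⟩ := _root_.eventually_nhds_iff.1 h
  exact ((H85.contDiffOn_top hO fun z hz => (h1 z hz).differentiableWithinAt).contDiffAt
    (hO.mem_nhds hx)).restrict_scalars ℝ

end hn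

theorem pp_dg (H : E n → E r) (z : E n) : pp H (dg z) = dg (H z) := by simp [pp, dg, cm]

theorem norm_dg (z : E n) : ‖dg z‖ = ‖z‖ := by simp [dg, Prod.norm_def]

theorem dist_dg (z c : E n) : dist (dg z) (dg c) = dist z c := by
  rw [dist_eq_norm, dist_eq_norm, ← norm_dg (z - c)]
  simp [dg]

theorem dg_mem {z c : E n} {R : ℝ} : dg z ∈ ball (dg c) R ↔ z ∈ ball c R := by
  rw [mem_ball, mem_ball, dist_dg]

theorem dg_mem0 {z : E n} {R : ℝ} : dg z ∈ ball (0 : E n × E n) R ↔ z ∈ ball (0 : E n) R := by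
  rw [mem_ball_zero_iff, mem_ball_zero_iff, norm_dg]

theorem mem_pb {w : E n × E n} {c : E n} {R : ℝ} :
    w ∈ ball (dg c) R ↔ w.1 ∈ ball c R ∧ star w.2 ∈ ball c R := by
  rw [← ball_prod_same, mem_prod]
  refine and_congr Iff.rfl ?_
  rw [mem_ball, mem_ball, dist_eq_norm, dist_eq_norm, ← norm_star]
  simp [dg]

theorem mem_b0 {w : E n × E n} {R : ℝ} :
    w ∈ ball (0 : E n × E n) R ↔ w.1 ∈ ball (0 : E n) R ∧ w.2 ∈ ball (0 : E n) R := by
  rw [← ball_prod_same, mem_prod]; rfl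

/-- The diagonal as a real linear map. -/
def dgL (n : ℕ) : E n →L[ℝ] E n × E n :=
  (ContinuousLinearMap.id ℝ (E n)).prod (starL' ℝ : E n ≃L[ℝ] E n).toContinuousLinearMap

theorem dgL_apply (z : E n) : dgL n z = dg z := rfl

theorem cont_dg : Continuous (dg : E n → E n × E n) := (dgL n).continuous

theorem cd_dg {z : E n} : ContDiffAt ℝ ∞ (dg : E n → E n × E n) z := (dgL n).contDiff.contDiffAt

variable {Φ Ψ : E n × E n → ℂ} {z : E n}

theorem fderiv_dg (h : DifferentiableAt ℂ Φ (dg z)) (v : E n) :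
    fderiv ℝ (fun x => Φ (dg x)) z v = fderiv ℂ Φ (dg z) (v, star v) := by
  have := ((h.hasFDerivAt.restrictScalars ℝ).comp z (dgL n).hasFDerivAt).fderiv
  rw [show (fun x => Φ (dg x)) = Φ ∘ dg from rfl, this]
  rfl

theorem sing_I (j : Fin n) : (Pi.single j I : E n) = I • (Pi.single j 1 : E n) := by
  rw [← Pi.single_smul]; simp

theorem star_sing (j : Fin n) : star (Pi.single j 1 : E n) = Pi.single j 1 := by
  ext a; simp [Pi.single_apply]

theorem split (A : E n × E n →L[ℂ] ℂ) (a b : E n) : A (a, b) = A (a, 0) + A (0, b) := by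
  rw [← map_add]; simp

theorem sm1 (A : E n × E n →L[ℂ] ℂ) (c : ℂ) (a : E n) : A (c • a, 0) = c * A (a, 0) := by
  rw [← smul_eq_mul, ← map_smul]; simp

theorem sm2 (A : E n × E n →L[ℂ] ℂ) (c : ℂ) (a : E n) : A (0, c • a) = c * A (0, a) := by
  rw [← smul_eq_mul, ← map_smul]; simp

theorem dz_dg (h : DifferentiableAt ℂ Φ (dg z)) (j : Fin n) :
    dz j (fun x => Φ (dg x)) z = fderiv ℂ Φ (dg z) (Pi.single j 1, 0) := by
  rw [dz, fderiv_dg h, fderiv_dg h, sing_I, star_smul, star_sing, split, split _ (I • _), sm1, sm2]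
  simp only [RCLike.star_def, conj_I]
  linear_combination (-(fderiv ℂ Φ (dg z) (Pi.single j 1, 0)) / 2 +
    fderiv ℂ Φ (dg z) (0, Pi.single j 1) / 2) * I_mul_I

theorem dzb_dg (h : DifferentiableAt ℂ Φ (dg z)) (j : Fin n) :
    dzb j (fun x => Φ (dg x)) z = fderiv ℂ Φ (dg z) (0, Pi.single j 1) := by
  rw [dzb, fderiv_dg h, fderiv_dg h, sing_I, star_smul, star_sing, split, split _ (I • _), sm1, sm2]
  simp only [RCLike.star_def, conj_I]
  linear_combination ((fderiv ℂ Φ (dg z) (Pi.single j 1, 0)) / 2 -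
    fderiv ℂ Φ (dg z) (0, Pi.single j 1) / 2) * I_mul_I

theorem hn_dg (h : Hn Φ (dg z)) : ∀ᶠ x in 𝓝 z, Hn Φ (dg x) :=
  cont_dg.continuousAt.eventually h.eventually_nhds

theorem cd_dgc (h : Hn Φ (dg z)) : ContDiffAt ℝ ∞ (fun x => Φ (dg x)) z :=
  (hn_smooth h).comp z cd_dg

theorem fderiv_app {w : E n × E n} (h : Hn Φ w) (a b : E n × E n) :
    fderiv ℂ (fun x => fderiv ℂ Φ x b) w a = fderiv ℂ (fderiv ℂ Φ) w a b := by
  rw [fderiv_clm_apply (hn_fderiv h).self_of_nhds (differentiableAt_const b)]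
  simp

theorem hn_app {w : E n × E n} (h : Hn Φ w) (b : E n × E n) :
    Hn (fun x => fderiv ℂ Φ x b) w :=
  (hn_fderiv h).mono fun x hx => hx.clm_apply (differentiableAt_const b)

theorem snd_symm {w : E n × E n} (h : Hn Φ w) (a b : E n × E n) :
    fderiv ℂ (fderiv ℂ Φ) w a b = fderiv ℂ (fderiv ℂ Φ) w b a :=
  ((H85.contDiffAt_nat h 2).isSymmSndFDerivAt (by simp)).eq a b

theorem hess_dg (h : Hn Φ (dg z)) (i j : Fin n) :
    hess (fun x => Φ (dg x)) z i j = mx Φ (dg z) (Pi.single j 1) (Pi.single i 1) := by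
  have e : dz j (fun x => Φ (dg x)) =ᶠ[𝓝 z] fun x => fderiv ℂ Φ (dg x) (Pi.single j 1, 0) :=
    (hn_dg h).mono fun x hx => dz_dg hx.self_of_nhds j
  rw [hess_apply, dzb_congr e, dzb_dg (Φ := fun w => fderiv ℂ Φ w (Pi.single j 1, 0))
    (hn_app h _).self_of_nhds, fderiv_app h, mx, snd_symm h]

theorem vec_sum (a : E n) : a = ∑ j, a j • (Pi.single j 1 : E n) := by
  ext i; simp [Finset.sum_apply, Pi.single_apply]

theorem sum1 {B : Type} [NormedAddCommGroup B] [NormedSpace ℂ B] (A : E n × E n →L[ℂ] B)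
    (a : E n) : A (a, 0) = ∑ j, a j • A (Pi.single j 1, 0) := by
  have : ((a, 0) : E n × E n) = ∑ j, a j • ((Pi.single j 1, 0) : E n × E n) := by
    ext1
    · simp only [Prod.fst_sum, Prod.smul_fst]; exact vec_sum a
    · simp [Prod.snd_sum]
  rw [this, map_sum]; simp only [map_smul]

theorem sum2 {B : Type} [NormedAddCommGroup B] [NormedSpace ℂ B] (A : E n × E n →L[ℂ] B)
    (a : E n) : A (0, a) = ∑ j, a j • A (0, Pi.single j 1) := by
  have : ((0, a) : E n × E n) = ∑ j, a j • ((0, Pi.single j 1) : E n × E n) := by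
    ext1
    · simp [Prod.fst_sum]
    · simp only [Prod.snd_sum, Prod.smul_snd]; exact vec_sum a
  rw [this, map_sum]; simp only [map_smul]

theorem mx_sum (Φ : E n × E n → ℂ) (w : E n × E n) (a b : E n) :
    mx Φ w a b = ∑ i, ∑ j, b i * (mx Φ w (Pi.single j 1) (Pi.single i 1) * a j) := by
  simp only [mx]
  rw [sum2]
  refine Finset.sum_congr rfl fun i _ => ?_
  rw [sum1, sum_apply, smul_eq_mul, Finset.mul_sum]
  refine Finset.sum_congr rfl fun j _ => ?_
  simp only [smul_apply, smul_eq_mul]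
  ring

theorem hess_form (h : Hn Φ (dg z)) (a b : E n) :
    b ⬝ᵥ hess (fun x => Φ (dg x)) z *ᵥ a = mx Φ (dg z) a b := by
  rw [mx_sum]
  simp only [dotProduct, Matrix.mulVec, hess_dg h, Finset.mul_sum]

theorem hess_zero_iff (h : Hn Φ (dg z)) :
    hess (fun x => Φ (dg x)) z = 0 ↔ ∀ a b, mx Φ (dg z) a b = 0 := by
  refine ⟨fun h0 a b => by rw [← hess_form h, h0]; simp, fun h0 => ?_⟩
  ext i j
  rw [hess_dg h, h0]; rfl

/-- Identity theorem from the diagonal. -/
theorem id2 {F : Type} [NormedAddCommGroup F] [NormedSpace ℂ F] [CompleteSpace F]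
    {f : E n × E n → F} {c z0 : E n} {R : ℝ} (hd : DifferentiableOn ℂ f (ball (dg c) R))
    (hz : z0 ∈ ball c R) (h0 : ∀ᶠ z in 𝓝 z0, f (dg z) = 0) : ∀ w ∈ ball (dg c) R, f w = 0 := by
  obtain ⟨s, hs, hb⟩ := Metric.mem_nhds_iff.1 (inter_mem h0 (isOpen_ball.mem_nhds hz))
  have hsub : ball (dg z0) s ⊆ ball (dg c) R := fun w hw =>
    mem_pb.2 ⟨(hb (mem_pb.1 hw).1).2, (hb (mem_pb.1 hw).2).2⟩
  intro w hw
  refine H85.eq_zero_of_convex isOpen_ball (convex_ball _ _) hd (dg_mem.2 hz) ?_ hw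
  filter_upwards [ball_mem_nhds (dg z0) (by positivity : 0 < s / 3)] with y hy
  obtain ⟨h1, h2⟩ := mem_pb.1 hy
  rw [mem_ball, dist_eq_norm] at h1 h2
  set m : E n := (2 : ℂ)⁻¹ • (y.1 + star y.2) with hm
  set q : E n := (2 * I : ℂ)⁻¹ • (y.1 - star y.2) with hq
  have hm1 : ‖m - z0‖ < s / 3 := by
    have : m - z0 = (2 : ℂ)⁻¹ • ((y.1 - z0) + (star y.2 - z0)) := by
      rw [hm]; module
    rw [this, norm_smul]
    have := norm_add_le (y.1 - z0) (star y.2 - z0)
    simp only [norm_inv, norm_ofNat]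
    linarith
  have hq1 : ‖q‖ < s / 3 := by
    have : q = (2 * I : ℂ)⁻¹ • ((y.1 - z0) - (star y.2 - z0)) := by
      rw [hq]; module
    rw [this, norm_smul]
    have := norm_sub_le (y.1 - z0) (star y.2 - z0)
    simp only [norm_inv, norm_mul, norm_ofNat, norm_I]
    linarith
  set L : ℂ → E n × E n := fun t => (m + t • q, star m + t • star q) with hL
  have hLd : Differentiable ℂ L := by fun_prop
  have key : ∀ t : ℂ, ‖t‖ < 2 → m + t • q ∈ ball z0 s := fun t ht => by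
    rw [mem_ball, dist_eq_norm, add_sub_right_comm]
    have h3 := norm_add_le (m - z0) (t • q)
    rw [norm_smul] at h3
    nlinarith [norm_nonneg q, norm_nonneg t]
  have hmem : MapsTo L (ball 0 2) (ball (dg c) R) := fun t ht => by
    rw [mem_ball_zero_iff] at ht
    refine hsub (mem_pb.2 ⟨key t ht, ?_⟩)
    have := key (star t) (by rwa [norm_star])
    simpa [hL] using this
  have ha : AnalyticOnNhd ℂ (f ∘ L) (ball 0 2) :=
    (hd.comp hLd.differentiableOn hmem).analyticOnNhd isOpen_ball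
  have hfr : ∃ᶠ t in 𝓝[≠] (0 : ℂ), (f ∘ L) t = 0 := by
    have h3 : Tendsto (fun x : ℝ => (x : ℂ)) (𝓝[≠] 0) (𝓝[≠] 0) := by
      refine tendsto_nhdsWithin_iff.2 ⟨?_, ?_⟩
      · simpa using (continuous_ofReal.tendsto 0).mono_left nhdsWithin_le_nhds
      · filter_upwards [self_mem_nhdsWithin] with x hx using by simpa using hx
    refine h3.frequently (Eventually.frequently ?_)
    filter_upwards [nhdsWithin_le_nhds (ball_mem_nhds (0 : ℝ) two_pos)] with x hx
    have h4 := (hb (key x (by simpa using hx))).1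
    have : L x = dg (m + (x : ℂ) • q) := by simp [hL, dg]
    rw [Function.comp_apply, this]
    exact h4
  have h5 := ha.eqOn_zero_of_preconnected_of_frequently_eq_zero (convex_ball _ _).isPreconnected
    (mem_ball_self two_pos) hfr (show I ∈ ball (0 : ℂ) 2 by simp)
  have : L I = y := by
    ext1
    · simp only [hL, hm, hq, smul_smul]
      rw [show I * (2 * I)⁻¹ = (2 : ℂ)⁻¹ by field_simp]
      module
    · simp only [hL, hm, hq, star_smul, star_add, star_sub, star_star, smul_smul]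
      rw [show I * star (2 * I)⁻¹ = -(2 : ℂ)⁻¹ by simp; field_simp; exact I_sq, show star (2 : ℂ)⁻¹ = 2⁻¹ by simp]
      module
  rw [Function.comp_apply, this] at h5
  exact h5

theorem mx_congr {w : E n × E n} (e : Φ =ᶠ[𝓝 w] Ψ) (a b : E n) : mx Φ w a b = mx Ψ w a b := by
  rw [mx, mx, e.fderiv.fderiv_eq]

theorem mx_eq {w : E n × E n} (h : Hn Φ w) (a b : E n) :
    HasFDerivAt (fun x => fderiv ℂ Φ (x, w.2) (0, b))
      ((fderiv ℂ (fun x => fderiv ℂ Φ x (0, b)) w).comp (ContinuousLinearMap.inl ℂ _ _)) w.1 ∧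
    fderiv ℂ (fun x => fderiv ℂ Φ (x, w.2) (0, b)) w.1 a = mx Φ w a b := by
  have h1 : HasFDerivAt (fun x => fderiv ℂ Φ (x, w.2) (0, b))
      ((fderiv ℂ (fun x => fderiv ℂ Φ x (0, b)) w).comp (ContinuousLinearMap.inl ℂ _ _)) w.1 :=
    HasFDerivAt.comp (f := fun x => (x, w.2)) (g := fun x => fderiv ℂ Φ x (0, b)) w.1
      (hn_app h _).self_of_nhds.hasFDerivAt (hasFDerivAt_prodMk_left w.1 w.2)
  refine ⟨h1, ?_⟩
  rw [h1.fderiv, ContinuousLinearMap.comp_apply, fderiv_app h]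
  rfl

theorem mx_sub {w : E n × E n} (h : Hn Φ w) (h' : Hn Ψ w) (a b : E n) :
    mx (fun x => Φ x - Ψ x) w a b = mx Φ w a b - mx Ψ w a b := by
  have e : fderiv ℂ (fun x => Φ x - Ψ x) =ᶠ[𝓝 w] fun x => fderiv ℂ Φ x - fderiv ℂ Ψ x :=
    (h.and h').mono fun x hx => fderiv_fun_sub hx.1 hx.2
  rw [mx, e.fderiv_eq, fderiv_fun_sub (hn_fderiv h).self_of_nhds (hn_fderiv h').self_of_nhds]
  rfl

theorem mx_hol {O : Set (E n × E n)} (hO : IsOpen O) (hd : DifferentiableOn ℂ Φ O) (a b : E n) :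
    DifferentiableOn ℂ (fun w => mx Φ w a b) O := fun w hw =>
  (((hn_fderiv (hn_fderiv (hn_of hO hd hw))).self_of_nhds.clm_apply
    (differentiableAt_const _)).clm_apply (differentiableAt_const _)).differentiableWithinAt

/-- A vanishing complex Hessian propagates to the whole polar ball. -/
theorem mx_zero {c z0 : E n} {R : ℝ} (hd : DifferentiableOn ℂ Φ (ball (dg c) R))
    (hz : z0 ∈ ball c R) (h0 : ∀ᶠ z in 𝓝 z0, hess (fun x => Φ (dg x)) z = 0) :
    ∀ w ∈ ball (dg c) R, ∀ a b, mx Φ w a b = 0 := fun w hw a b => by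
  refine id2 (mx_hol isOpen_ball hd a b) hz ?_ w hw
  filter_upwards [h0, isOpen_ball.mem_nhds hz] with z h1 h2
  exact (hess_zero_iff (hn_of isOpen_ball hd (dg_mem.2 h2))).1 h1 a b

theorem hess_zero {c z0 : E n} {R : ℝ} (hd : DifferentiableOn ℂ Φ (ball (dg c) R))
    (hz : z0 ∈ ball c R) (h0 : ∀ᶠ z in 𝓝 z0, hess (fun x => Φ (dg x)) z = 0) :
    ∀ z ∈ ball c R, hess (fun x => Φ (dg x)) z = 0 := fun z h =>
  (hess_zero_iff (hn_of isOpen_ball hd (dg_mem.2 h))).2 (mx_zero hd hz h0 _ (dg_mem.2 h))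

/-- If the mixed derivative vanishes, the derivative in the second variable does not depend on
the first variable. -/
theorem q_indep {c : E n} {R : ℝ} (hd : DifferentiableOn ℂ Φ (ball (dg c) R))
    (h0 : ∀ w ∈ ball (dg c) R, ∀ a b, mx Φ w a b = 0) {z z' u : E n} (hz : z ∈ ball c R)
    (hz' : z' ∈ ball c R) (hu : star u ∈ ball c R) (b : E n) :
    fderiv ℂ Φ (z, u) (0, b) = fderiv ℂ Φ (z', u) (0, b) := by
  have hm : ∀ x ∈ ball c R, (x, u) ∈ ball (dg c) R := fun x hx => mem_pb.2 ⟨hx, hu⟩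
  refine isOpen_ball.is_const_of_fderiv_eq_zero (𝕜 := ℂ)
    (f := fun x => fderiv ℂ Φ (x, u) (0, b)) (convex_ball c R).isPreconnected
    (fun x hx => (mx_eq (hn_of isOpen_ball hd (hm x hx)) 0 b).1.differentiableAt.differentiableWithinAt)
    (fun x hx => ?_) hz hz'
  ext a
  exact ((mx_eq (hn_of isOpen_ball hd (hm x hx)) a b).2).trans (h0 _ (hm x hx) a b)

variable {H : E n → E r} {Θ : E r × E r → ℂ}

theorem cm_deriv {u : E n} (h : DifferentiableAt ℂ H (star u)) :
    DifferentiableAt ℂ (cm H) u ∧ ∀ b, fderiv ℂ (cm H) u b = star (fderiv ℂ H (star u) (star b)) := by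
  have h1 := h.hasFDerivAt.star_star
  rw [star_star] at h1
  exact ⟨h1.differentiableAt, fun b => by rw [show cm H = star ∘ H ∘ star from rfl, h1.fderiv]; rfl⟩

theorem pp_deriv {w : E n × E n} (h1 : DifferentiableAt ℂ H w.1)
    (h2 : DifferentiableAt ℂ H (star w.2)) : DifferentiableAt ℂ (pp H) w ∧ ∀ a b,
      fderiv ℂ (pp H) w (a, b) = (fderiv ℂ H w.1 a, star (fderiv ℂ H (star w.2) (star b))) := by
  have h3 := (h1.hasFDerivAt.comp w hasFDerivAt_fst).prodMk
    ((cm_deriv h2).1.hasFDerivAt.comp w hasFDerivAt_snd)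
  refine ⟨h3.differentiableAt, fun a b => ?_⟩
  rw [show pp H = fun x => ((H ∘ Prod.fst) x, (cm H ∘ Prod.snd) x) from rfl, h3.fderiv,
    ← (cm_deriv h2).2]
  rfl

theorem hn_pp {w : E n × E n} (h1 : Hn H w.1) (h2 : Hn H (star w.2)) : Hn (pp H) w := by
  have c2 : ContinuousAt (fun x : E n × E n => star x.2) w := by fun_prop
  filter_upwards [continuousAt_fst.eventually h1, c2.eventually h2] with x a b
    using (pp_deriv a b).1

theorem hn_comp {w : E n × E n} (h1 : Hn H w.1) (h2 : Hn H (star w.2)) (h3 : Hn Θ (pp H w)) :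
    Hn (fun x => Θ (pp H x)) w := by
  filter_upwards [hn_pp h1 h2, (hn_pp h1 h2).self_of_nhds.continuousAt.eventually h3] with x a b
    using b.comp x a

theorem fderiv_pp {w : E n × E n} (h1 : DifferentiableAt ℂ H w.1)
    (h2 : DifferentiableAt ℂ H (star w.2)) (h3 : DifferentiableAt ℂ Θ (pp H w)) (a b : E n) :
    fderiv ℂ (fun x => Θ (pp H x)) w (a, b) =
      fderiv ℂ Θ (pp H w) (fderiv ℂ H w.1 a, star (fderiv ℂ H (star w.2) (star b))) := by
  rw [fderiv_fun_comp w h3 (pp_deriv h1 h2).1, ContinuousLinearMap.comp_apply, (pp_deriv h1 h2).2]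

/-- Chain rule for the mixed derivative. -/
theorem mx_pp {w : E n × E n} (h1 : Hn H w.1) (h2 : Hn H (star w.2)) (h3 : Hn Θ (pp H w))
    (a b : E n) : mx (fun x => Θ (pp H x)) w a b =
      mx Θ (pp H w) (fderiv ℂ H w.1 a) (star (fderiv ℂ H (star w.2) (star b))) := by
  rw [← (mx_eq (hn_comp h1 h2 h3) a b).2, ← (mx_eq h3 _ _).2]
  set b' := star (fderiv ℂ H (star w.2) (star b)) with hb'
  have c1 : ContinuousAt (fun x => pp H (x, w.2)) w.1 :=
    ContinuousAt.comp (f := fun x => (x, w.2)) (hn_pp h1 h2).self_of_nhds.continuousAt (by fun_prop)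
  have e : (fun x => fderiv ℂ (fun x => Θ (pp H x)) (x, w.2) (0, b)) =ᶠ[𝓝 w.1]
      (fun t => fderiv ℂ Θ (t, (pp H w).2) (0, b')) ∘ H := by
    filter_upwards [h1, c1.eventually h3] with x hx hx'
    rw [fderiv_pp (w := (x, w.2)) hx h2.self_of_nhds hx', map_zero]
    rfl
  rw [e.fderiv_eq, fderiv_comp w.1 (mx_eq h3 0 b').1.differentiableAt h1.self_of_nhds]
  rfl

/-- Chain rule for the Levi form of a polarised function. -/
theorem hess_chain (h1 : Hn H z) (h3 : Hn Θ (dg (H z))) (a b : E n) :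
    star b ⬝ᵥ hess (fun x => Θ (dg (H x))) z *ᵥ a =
      star (fderiv ℂ H z b) ⬝ᵥ hess (fun x => Θ (dg x)) (H z) *ᵥ fderiv ℂ H z a := by
  have h2 : Hn H (star (dg z).2) := by simpa [dg] using h1
  have h4 : Hn Θ (pp H (dg z)) := by rwa [pp_dg]
  have := hess_form (hn_comp (w := dg z) h1 h2 h4) a (star b)
  simp only [pp_dg] at this
  rw [this, mx_pp (w := dg z) h1 h2 h4, hess_form h3, pp_dg]
  simp [dg]

theorem low_fderiv {A B : Type} [NormedAddCommGroup A] [NormedSpace ℂ A] [NormedAddCommGroup B]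
    [NormedSpace ℂ B] {Q : A → B} {t : A} {c : ℝ} (hd : DifferentiableAt ℂ Q t)
    (he : ∀ᶠ s in 𝓝 t, c * ‖s - t‖ ≤ ‖Q s - Q t‖) (v : A) : c * ‖v‖ ≤ ‖fderiv ℂ Q t v‖ := by
  have h1 := (hd.hasFDerivAt.hasLineDerivAt v).tendsto_slope_zero.norm
  refine ge_of_tendsto h1 ?_
  have h2 : Tendsto (fun s : ℂ => t + s • v) (𝓝 0) (𝓝 t) :=
    Continuous.tendsto' (by fun_prop) _ _ (by simp)
  filter_upwards [nhdsWithin_le_nhds (h2.eventually he), self_mem_nhdsWithin] with s hs h0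
  have h3 : 0 < ‖s‖ := norm_pos_iff.2 h0
  rw [add_sub_cancel_left, norm_smul] at hs
  rw [norm_smul, norm_inv, ← div_eq_inv_mul, le_div_iff₀ h3]
  linarith

/-- The inverse of an expanding holomorphic map. -/
theorem inv_exp {O : Set (E r)} (hO : IsOpen O) {Q : E r → E r} (hd : DifferentiableOn ℂ Q O)
    {c : ℝ} (hc : 0 < c) (he : ∀ t ∈ O, ∀ s ∈ O, c * ‖t - s‖ ≤ ‖Q t - Q s‖) :
    IsOpen (Q '' O) ∧ ∃ P : E r → E r, DifferentiableOn ℂ P (Q '' O) ∧ ∀ t ∈ O, P (Q t) = t := by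
  have hinj : InjOn Q O := fun t ht s hs h => by
    have := he t ht s hs
    rw [h, sub_self, norm_zero] at this
    exact sub_eq_zero.1 (norm_le_zero_iff.1 (by nlinarith [norm_nonneg (t - s)]))
  have hA : ∀ t ∈ O, ∃ A : E r ≃L[ℂ] E r, HasStrictFDerivAt Q (A : E r →L[ℂ] E r) t := by
    intro t ht
    have h1 := hn_of hO hd ht
    have h2 := low_fderiv h1.self_of_nhds
      ((hO.eventually_mem ht).mono fun s hs => he s hs t ht)
    have h3 : Function.Injective (fderiv ℂ Q t) := (injective_iff_map_eq_zero _).2 fun v hv => by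
      have := h2 v
      rw [hv, norm_zero] at this
      exact norm_le_zero_iff.1 (by nlinarith [norm_nonneg v])
    refine ⟨(LinearEquiv.ofInjectiveEndo (fderiv ℂ Q t).toLinearMap h3).toContinuousLinearEquiv, ?_⟩
    exact (H85.contDiffAt_nat h1 1).hasStrictFDerivAt (by simp)
  have hop : IsOpen (Q '' O) := by
    rw [isOpen_iff_mem_nhds]
    rintro _ ⟨t, ht, rfl⟩
    obtain ⟨A, hA⟩ := hA t ht
    rw [← hA.map_nhds_eq_of_equiv]
    exact image_mem_map (hO.mem_nhds ht)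
  refine ⟨hop, Function.invFunOn Q O, ?_, fun t ht => hinj.leftInvOn_invFunOn ht⟩
  rintro _ ⟨t, ht, rfl⟩
  obtain ⟨A, hA⟩ := hA t ht
  exact (hA.to_local_left_inverse ((hO.eventually_mem ht).mono fun s hs =>
    hinj.leftInvOn_invFunOn hs)).differentiableAt.differentiableWithinAt

end Pool.Agent.Lib.RA.K56
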