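import Pool.Agent.Lib.RA.T_GIBE

/-! Cut-off functions along the poles of a plurisubharmonic function. -/

open scoped Classical Topology ENNReal ContDiff ComplexOrder Matrix Manifold
open Set MeasureTheory Complex Metric Filter

set_option linter.unusedVariables false

noncomputable section

namespace Pool.Agent.Lib.RA

open Pool.Agent.Lib.SV (E)
open Pool.Agent.Lib.HS32

namespace EM

/-! ### Functions of one variable -/

/-- Smooth, convex, increasing and zero on the left of `-3`. -/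
structure Cv (φ : ℝ → ℝ) : Prop where
  sm : ContDiff ℝ ∞ φ
  zero : ∀ t ≤ -3, φ t = 0
  d1 : ∀ t, 0 ≤ deriv φ t
  d2 : ∀ t, 0 ≤ deriv (deriv φ) t

theorem Cv.mono {φ : ℝ → ℝ} (h : Cv φ) : Monotone φ :=
  monotone_of_deriv_nonneg (h.sm.differentiable (by simp)) h.d1

/-- The primitive that vanishes at `-3`. -/
def prim (p : ℝ → ℝ) (t : ℝ) : ℝ := ∫ s in (-3)..t, p s

theorem prim_has {p : ℝ → ℝ} (hp : Continuous p) (t : ℝ) : HasDerivAt (prim p) (p t) t :=
  (hp.integral_hasStrictDerivAt (-3) t).hasDerivAt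

theorem prim_deriv {p : ℝ → ℝ} (hp : Continuous p) : deriv (prim p) = p :=
  funext fun t => (prim_has hp t).deriv

theorem prim_cv {p : ℝ → ℝ} (hp : ContDiff ℝ ∞ p) (h0 : ∀ t ≤ -3, p t = 0) (hm : Monotone p) :
    Cv (prim p) := by
  have hd := prim_deriv hp.continuous
  refine ⟨contDiff_infty_iff_deriv.2 ⟨fun t => (prim_has hp.continuous t).differentiableAt,
    by rwa [hd]⟩, fun t ht => ?_, fun t => ?_, fun t => ?_⟩
  · rw [prim, intervalIntegral.integral_congr (g := fun _ => 0) fun s hs =>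
      h0 s (hs.2.trans (max_le le_rfl ht))]
    simp
  · rw [hd, ← h0 (min t (-3)) (min_le_right _ _)]
    exact hm (min_le_left _ _)
  · rw [hd]
    exact hm.deriv_nonneg

/-- The basic convex function and its primitive. -/
structure Bs (v w : ℝ → ℝ) : Prop where
  cv : Cv v
  cw : Cv w
  dw : deriv w = v
  one : ∀ t, -2 ≤ t → deriv v t = 1
  mono : Monotone (deriv v)
  eq : ∀ x y, -2 ≤ x → -2 ≤ y → v x - v y = x - y
  le : ∀ x y, y ≤ x → v x - v y ≤ x - y

theorem exists_bs : ∃ v w, Bs v w := by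
  set p : ℝ → ℝ := fun t => Real.smoothTransition (t + 3) with hp
  have p1 : ContDiff ℝ ∞ p := Real.smoothTransition.contDiff.comp (contDiff_id.add contDiff_const)
  have p2 : Monotone p := fun a b h => Real.smoothTransition.monotone (by linarith)
  have p3 : ∀ t, -2 ≤ t → p t = 1 := fun t ht => Real.smoothTransition.one_of_one_le (by linarith)
  have hv := prim_cv p1 (fun t ht => Real.smoothTransition.zero_of_nonpos (by linarith)) p2
  have hd := prim_deriv p1.continuous
  have hs : ∀ x y, prim p x - prim p y = ∫ s in y..x, p s := fun x y =>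
    intervalIntegral.integral_interval_sub_left (p1.continuous.intervalIntegrable _ _)
      (p1.continuous.intervalIntegrable _ _)
  refine ⟨prim p, prim (prim p), hv, prim_cv hv.sm hv.zero hv.mono, prim_deriv hv.sm.continuous,
    by rwa [hd], by rwa [hd], fun x y hx hy => ?_, fun x y h => ?_⟩
  · rw [hs, intervalIntegral.integral_congr (g := fun _ => 1) fun s hs =>
      p3 s ((le_min hy hx).trans hs.1)]
    simp
  · rw [hs]
    refine (intervalIntegral.integral_mono_on h (p1.continuous.intervalIntegrable _ _)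
      (intervalIntegrable_const (c := (1 : ℝ))) fun s _ => Real.smoothTransition.le_one _).trans ?_
    simp

theorem Cv.shift {φ : ℝ → ℝ} (h : Cv φ) : Cv fun t => φ (t - 1) := by
  have e : deriv (fun t => φ (t - 1)) = fun t => deriv φ (t - 1) :=
    funext fun t => deriv_comp_sub_const φ 1 t
  refine ⟨h.sm.comp (contDiff_id.sub contDiff_const), fun t ht => h.zero _ (by linarith),
    fun t => by rw [e]; exact h.d1 _, fun t => ?_⟩
  rw [e, deriv_comp_sub_const (deriv φ) 1 t]
  exact h.d2 _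

/-- The cut-off function. -/
structure Ct (θ v u w : ℝ → ℝ) : Prop where
  cv : Cv v
  cu : Cv u
  cw : Cv w
  eq : θ = fun t => v t - u t
  sm : ContDiff ℝ ∞ θ
  zero : ∀ t ≤ -3, θ t = 0
  one : θ 0 = 1
  dc : Continuous (deriv θ)
  dzero : ∀ t ≤ -3, deriv θ t = 0
  d0 : deriv θ 0 = 0
  d1 : ∀ t, 0 ≤ deriv θ t
  d2 : ∀ t, deriv θ t ≤ deriv (deriv w) t

theorem exists_ct : ∃ θ v u w, Ct θ v u w := by
  obtain ⟨v, w, h⟩ := exists_bs
  have hu := h.cv.shift
  have sm := h.cv.sm.sub hu.sm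
  have e : ∀ t, deriv (fun t => v t - v (t - 1)) t = deriv v t - deriv v (t - 1) := fun t => by
    rw [deriv_fun_sub (h.cv.sm.differentiable (by simp) t) (hu.sm.differentiable (by simp) t),
      deriv_comp_sub_const v 1 t]
  have z : ∀ t ≤ -3, deriv v t = 0 := fun t ht => by
    have h1 : EqOn (deriv v) (fun _ => 0) (Iio (-3)) := fun s hs => by
      rw [Filter.EventuallyEq.deriv_eq (f := fun _ => 0)
        ((isOpen_Iio.eventually_mem hs).mono fun y hy => h.cv.zero y (le_of_lt hy))]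
      simp
    refine h1.closure (h.cv.sm.continuous_deriv (by simp)) continuous_const ?_
    rwa [closure_Iio]
  refine ⟨_, v, _, w, h.cv, hu, h.cw, rfl, sm, fun t ht => ?_, ?_, sm.continuous_deriv (by simp),
    fun t ht => ?_, ?_, fun t => ?_, fun t => ?_⟩
  · rw [h.cv.zero t ht, h.cv.zero _ (by linarith), sub_zero]
  · rw [h.eq _ _ (by norm_num) (by norm_num)]; norm_num
  · rw [e, z t ht, z _ (by linarith), sub_zero]
  · rw [e, h.one _ (by norm_num), h.one _ (by norm_num), sub_self]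
  · rw [e, sub_nonneg]
    exact h.mono (by linarith)
  · rw [e, h.dw]
    linarith [h.cv.d1 (t - 1)]

/-! ### Matrices -/

variable {n : ℕ}

/-- The real part of the trace of a product. -/
def tp (A T : Mat n) : ℝ := (A * T).trace.re

/-- A real function with complex values. -/
abbrev cx (u : E n → ℝ) : E n → ℂ := fun w => (u w : ℂ)

theorem tp_add (A S T : Mat n) : tp A (S + T) = tp A S + tp A T := by
  simp only [tp, Matrix.mul_add, Matrix.trace_add, add_re]

theorem tp_smul (A T : Mat n) (c : ℝ) : tp A ((c : ℂ) • T) = c * tp A T := by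
  simp only [tp, Matrix.mul_smul, Matrix.trace_smul, smul_eq_mul, re_ofReal_mul]

theorem entry_le {A : Mat n} (h : A.PosSemidef) (i j : Fin n) : ‖A i j‖ ≤ A.trace.re := by
  obtain ⟨W, rfl⟩ := Mf.psd_factor h
  have e : ∀ a, ((Wᴴ * W) a a).re = ∑ k, ‖W k a‖ ^ 2 := fun a => by
    simp only [Matrix.mul_apply, Matrix.conjTranspose_apply, re_sum, star_def,
      ← normSq_eq_conj_mul_self, ofReal_re, normSq_eq_norm_sq]
  have d : ∀ a, ∑ k, ‖W k a‖ ^ 2 ≤ (Wᴴ * W).trace.re := fun a => by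
    rw [Matrix.trace, re_sum]
    simp only [Matrix.diag_apply, e]
    exact Finset.single_le_sum (f := fun a => ∑ k, ‖W k a‖ ^ 2)
      (fun a _ => Finset.sum_nonneg fun k _ => sq_nonneg _) (Finset.mem_univ a)
  have : ‖(Wᴴ * W) i j‖ ≤ ∑ k, (‖W k i‖ ^ 2 + ‖W k j‖ ^ 2) / 2 := by
    rw [Matrix.mul_apply]
    refine (norm_sum_le _ _).trans (Finset.sum_le_sum fun k _ => ?_)
    rw [norm_mul, Matrix.conjTranspose_apply, norm_star]
    nlinarith [sq_nonneg (‖W k i‖ - ‖W k j‖)]
  rw [← Finset.sum_div, Finset.sum_add_distrib] at this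
  linarith [d i, d j]

theorem tr_le {A : Mat n} (h : A.PosSemidef) (T : Mat n) :
    ‖(A * T).trace‖ ≤ BBD.sn T * A.trace.re := by
  rw [GIBE.tr_eq, Finset.sum_comm, BBD.sn, Finset.sum_mul]
  refine (norm_sum_le _ _).trans (Finset.sum_le_sum fun i _ => ?_)
  rw [Finset.sum_mul]
  refine (norm_sum_le _ _).trans (Finset.sum_le_sum fun j _ => ?_)
  rw [norm_mul, mul_comm]
  exact mul_le_mul_of_nonneg_left (entry_le h j i) (norm_nonneg _)

theorem q_amgm {A : Mat n} (h : A.PosSemidef) (a b : E n) {δ : ℝ} (hδ : 0 < δ) :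
    |BLAP.q A a b| ≤ δ * BLAP.q A a a + δ⁻¹ * BLAP.q A b b := by
  have h1 := BLAP.q_cs h a b
  have h2 := mul_nonneg hδ.le (BLAP.q_nonneg h a)
  have h3 := mul_nonneg (inv_nonneg.2 hδ.le) (BLAP.q_nonneg h b)
  have h4 : δ * BLAP.q A a a * (δ⁻¹ * BLAP.q A b b) = BLAP.q A a a * BLAP.q A b b := by
    field_simp
  refine abs_le_of_sq_le_sq' ?_ (add_nonneg h2 h3) |> abs_le.2
  nlinarith [mul_nonneg h2 h3, sq_nonneg (δ * BLAP.q A a a), sq_nonneg (δ⁻¹ * BLAP.q A b b)]

/-- The `(0,1)` gradient of a real function. -/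
def gd (u : E n → ℝ) (z : E n) : E n := star fun j => dz j (cx u) z

theorem tp_comp {l : E n → ℝ} {z : E n} (hl : ContDiffAt ℝ ∞ l z) {φ : ℝ → ℝ}
    (hφ : ContDiff ℝ ∞ φ) (A : Mat n) : tp A (hess (cx fun w => φ (l w)) z) =
      deriv φ (l z) * tp A (hess (cx l) z) +
        deriv (deriv φ) (l z) * BLAP.q A (gd l z) (gd l z) := by
  rw [BLAP.hess_comp hl fun w => hφ.contDiffAt, tp_add, tp_smul, tp_smul]
  congr 2
  exact BLAP.tr_dd A hl

theorem bump {B K : Set (E n)} (hB : IsOpen B) (hK : IsCompact K) (hs : K ⊆ B) :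
    ∃ (K₀ : Set (E n)) (β : E n → ℝ), IsCompact K₀ ∧ K₀ ⊆ B ∧ ContDiff ℝ ∞ β ∧
      (∀ z ∈ K, β z = 1) ∧ (∀ z ∉ K₀, β z = 0) ∧ ∀ z, 0 ≤ β z := by
  obtain ⟨K₀, h1, h2, h3⟩ := exists_compact_between hK hB hs
  obtain ⟨f, f1, f2, f3⟩ := exists_contMDiffMap_one_nhds_of_subset_interior (n := ⊤)
    𝓘(ℝ, E n) hK.isClosed h2
  exact ⟨K₀, f, h1, h3, contMDiff_iff_contDiff.1 f.contMDiff, f1.self_of_nhdsSet, f2,
    fun z => (f3 z).1⟩

end EM

end Pool.Agent.Lib.RA
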