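import Pool.Agent.Lib.RA.K_EM

/-! Integration by parts across the poles of a plurisubharmonic function. -/

open scoped Classical Topology ENNReal ContDiff ComplexOrder Matrix
open Set MeasureTheory Complex Metric Filter

set_option linter.unusedVariables false

noncomputable section

namespace Pool.Agent.Lib.RA

open Pool.Agent.Lib.SV (E)
open Pool.Agent.Lib.HS32

namespace EM

variable {n : ℕ} {B O K : Set (E n)} {l : E n → ℝ} {A : E n → Mat n}

/-- `l` is smooth and plurisubharmonic on `O` and tends to minus infinity at the points of `B`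
that are not in `O`. -/
structure Pl (B O : Set (E n)) (l : E n → ℝ) : Prop where
  oB : IsOpen B
  oO : IsOpen O
  sub : O ⊆ B
  sm : ∀ z ∈ O, ContDiffAt ℝ ∞ l z
  psh : ∀ z ∈ O, (hess (cx l) z).PosSemidef
  cpt : ∀ K, IsCompact K → K ⊆ B → ∀ t, IsCompact {z ∈ K ∩ O | t ≤ l z}

/-- A positive divergence free field on `O` with finite mass in the compact subsets of `B`. -/
structure Cur (B O : Set (E n)) (A : E n → Mat n) : Prop where
  dv : ∀ z ∈ O, DvF A z
  psd : ∀ z ∈ O, (A z).PosSemidef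
  int : ∀ K, IsCompact K → K ⊆ B → IntegrableOn (fun z => (A z).trace.re) (K ∩ O)

theorem Pl.aff (h : Pl B O l) {s : ℝ} (hs : 0 < s) (c : ℝ) : Pl B O fun z => s * l z + c := by
  refine ⟨h.oB, h.oO, h.sub, fun z hz => (contDiffAt_const.mul (h.sm z hz)).add contDiffAt_const,
    fun z hz => ?_, fun K hK hB t => ?_⟩
  · have e : cx (fun z => s * l z + c) = fun w => (s : ℂ) * cx l w + (c : ℂ) := by
      funext w; simp [cx]
    rw [e, BLAP.hess_add (contDiffAt_const.mul (cd_ofReal (h.sm z hz))) contDiffAt_const,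
      BLAP.hess_const, add_zero, BLAP.hess_smul _ (cd_ofReal (h.sm z hz)), ← BLAP.rs]
    exact Mf.psd_rsmul (h.psh z hz) hs.le
  · have e : {z ∈ K ∩ O | t ≤ s * l z + c} = {z ∈ K ∩ O | (t - c) / s ≤ l z} := by
      ext z
      simp only [mem_ofPred_eq, div_le_iff₀' hs, sub_le_iff_le_add]
    rw [e]
    exact h.cpt K hK hB _

theorem Pl.smul (h : Pl B O l) {s : ℝ} (hs : 0 < s) : Pl B O fun z => s * l z := by
  simpa only [add_zero] using h.aff hs 0

theorem Pl.bdd (h : Pl B O l) (hK : IsCompact K) (hs : K ⊆ B) :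
    ∃ L, 0 ≤ L ∧ ∀ z ∈ K ∩ O, l z ≤ L := by
  obtain ⟨L, L0, hL⟩ := BBD.up (h.cpt K hK hs 0) fun z hz => (h.sm z hz.1.2).continuousAt
  refine ⟨L, L0.le, fun z hz => ?_⟩
  by_cases h0 : 0 ≤ l z
  · exact hL z ⟨hz, h0⟩
  · linarith [not_le.1 h0]

theorem Pl.low (h : Pl B O l) {F : Type} [Zero F] {φ : ℝ → F} (h0 : ∀ t ≤ -3, φ t = 0) {z : E n}
    (hz : z ∈ O) (hl : l z < -3) : ∀ᶠ y in 𝓝 z, φ (l y) = 0 :=
  ((h.sm z hz).continuousAt.eventually_lt continuousAt_const hl).mono fun y hy => h0 _ hy.le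

theorem gibr (hO : IsOpen O) (hK : IsCompact K) (hs : K ⊆ O) (hA : ∀ z ∈ O, DvF A z)
    {ψ w : E n → ℝ} (hψ : ∀ z ∈ O, ContDiffAt ℝ ∞ ψ z) (hw : ∀ z ∈ O, ContDiffAt ℝ ∞ w z)
    (h0 : ∀ z ∈ O, z ∉ K → (∀ᶠ y in 𝓝 z, ψ y = 0) ∨ ∀ᶠ y in 𝓝 z, w y = 0) :
    IntegrableOn (fun z => ψ z * tp (A z) (hess (cx w) z)) O ∧
    IntegrableOn (fun z => w z * tp (A z) (hess (cx ψ) z)) O ∧
    ∫ z in O, ψ z * tp (A z) (hess (cx w) z) = ∫ z in O, w z * tp (A z) (hess (cx ψ) z) := by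
  obtain ⟨i1, -, i3, -, e⟩ := (st_GIBE n O K A hO hK hs hA).2 (cx ψ) (cx w)
    (fun z hz => cd_ofReal (hψ z hz)) (fun z hz => cd_ofReal (hw z hz)) fun z hz hz' =>
      (h0 z hz hz').imp (fun h => h.mono fun y hy => by simp [cx, hy])
        fun h => h.mono fun y hy => by simp [cx, hy]
  have e1 := integral_re i1
  have e3 := integral_re i3
  have j1 := Integrable.re i1
  have j3 := Integrable.re i3
  simp only [RCLike.re_to_complex, cx, re_ofReal_mul] at e1 e3 j1 j3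
  exact ⟨j1, j3, e1.trans ((congrArg re e).trans e3.symm)⟩

theorem Pl.key (h : Pl B O l) (hA : ∀ z ∈ O, DvF A z) (hK : IsCompact K) (hs : K ⊆ B)
    {φ : ℝ → ℝ} (hφ : ContDiff ℝ ∞ φ) (h0 : ∀ t ≤ -3, φ t = 0) {β : E n → ℝ}
    (hβ : ∀ z ∈ O, ContDiffAt ℝ ∞ β z) (hβ0 : ∀ z ∈ O, z ∉ K → β z = 0) :
    IntegrableOn (fun z => β z * tp (A z) (hess (cx fun w => φ (l w)) z)) O ∧
    ∫ z in O, β z * tp (A z) (hess (cx fun w => φ (l w)) z) =
      ∫ z in O, φ (l z) * tp (A z) (hess (cx β) z) := by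
  obtain ⟨i1, -, e⟩ := gibr h.oO (h.cpt K hK hs (-3)) (fun z hz => hz.1.2) hA hβ
    (w := fun w => φ (l w)) (fun z hz => hφ.contDiffAt.comp z (h.sm z hz)) fun z hz hz' => by
      by_cases hzK : z ∈ K
      · exact Or.inr (h.low h0 hz (not_le.1 fun h' => hz' ⟨⟨hzK, hz⟩, h'⟩))
      · exact Or.inl (GIBE.ev0 h.oO hK hβ0 hz hzK)
  exact ⟨i1, e⟩

theorem Pl.lim (h : Pl B O l) (hK : IsCompact K) (hs : K ⊆ B) {φ : ℝ → ℝ} (hφ : Continuous φ)
    (h0 : ∀ t ≤ -3, φ t = 0) {g : E n → ℝ} (hg : IntegrableOn g O)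
    (hg0 : ∀ z ∈ O, z ∉ K → g z = 0) :
    (∀ᶠ s in 𝓝[>] (0 : ℝ), IntegrableOn (fun z => φ (s * l z) * g z) O) ∧
    Tendsto (fun s : ℝ => ∫ z in O, φ (s * l z) * g z) (𝓝[>] 0) (𝓝 (φ 0 * ∫ z in O, g z)) := by
  obtain ⟨L, L0, hL⟩ := h.bdd hK hs
  obtain ⟨M, hM⟩ := (isCompact_Icc (a := -3) (b := L)).exists_bound_of_continuousOn hφ.continuousOn
  have M0 : 0 ≤ M := (norm_nonneg _).trans (hM 0 ⟨by norm_num, L0⟩)
  have hb : ∀ᶠ s in 𝓝[>] (0 : ℝ), ∀ᵐ z ∂volume.restrict O, ‖φ (s * l z) * g z‖ ≤ M * ‖g z‖ := by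
    filter_upwards [Ioc_mem_nhdsGT zero_lt_one] with s hs1
    filter_upwards [ae_restrict_mem h.oO.measurableSet] with z hz
    by_cases hzK : z ∈ K
    · rw [norm_mul]
      refine mul_le_mul_of_nonneg_right ?_ (norm_nonneg _)
      by_cases h3 : s * l z ≤ -3
      · rwa [h0 _ h3, norm_zero]
      · refine hM _ ⟨(not_le.1 h3).le, ?_⟩
        nlinarith [hL z ⟨hzK, hz⟩, hs1.1, hs1.2]
    · simp [hg0 z hz hzK]
  have hm : ∀ s : ℝ, AEStronglyMeasurable (fun z => φ (s * l z) * g z) (volume.restrict O) :=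
    fun s => (ContinuousOn.aestronglyMeasurable (fun z hz => (hφ.continuousAt.comp
      (continuousAt_const.mul (h.sm z hz).continuousAt)).continuousWithinAt)
        h.oO.measurableSet).mul hg.1
  refine ⟨hb.mono fun s hs => Integrable.mono' (hg.norm.const_mul M) (hm s) hs, ?_⟩
  rw [← integral_const_mul]
  refine tendsto_integral_filter_of_dominated_convergence _ (.of_forall hm) hb
    (hg.norm.const_mul M) (.of_forall fun z => Tendsto.mul_const _ ?_)
  refine (hφ.tendsto 0).comp (tendsto_nhdsWithin_of_tendsto_nhds ?_)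
  simpa using (tendsto_id (x := 𝓝 (0 : ℝ))).mul_const (l z)

theorem Cur.dom (hA : Cur B O A) (hO : IsOpen O) (hK : IsCompact K) (hs : K ⊆ B)
    {F : Type} [NormedAddCommGroup F] [SecondCountableTopology F] {f : E n → F}
    (hf : ∀ z ∈ O, ContinuousAt f z) {M : ℝ} (hM : ∀ z ∈ K ∩ O, ‖f z‖ ≤ M * (A z).trace.re)
    (h0 : ∀ z ∈ O, z ∉ K → f z = 0) : IntegrableOn f O := by
  have hm : MeasurableSet (K ∩ O) := hK.measurableSet.inter hO.measurableSet
  refine IntegrableOn.of_forall_sdiff_eq_zero (s := K ∩ O) ?_ hO.measurableSet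
    fun z hz => h0 z hz.1 fun h => hz.2 ⟨h, hz.1⟩
  exact Integrable.mono' ((hA.int K hK hs).const_mul M) (ContinuousOn.aestronglyMeasurable
    (fun z hz => (hf z hz.2).continuousWithinAt) hm) ((ae_restrict_mem hm).mono hM)

theorem Cur.intT (hA : Cur B O A) (hO : IsOpen O) (hB : O ⊆ B) (hK : IsCompact K) (hs : K ⊆ B)
    {T : E n → Mat n} (hT : ∀ z ∈ B, SmM T z) (h0 : ∀ z ∈ O, z ∉ K → T z = 0) :
    IntegrableOn (fun z => (A z * T z).trace) O := by
  obtain ⟨M, -, hM⟩ := BBD.up hK fun z hz => BBD.sn_cont (hT z (hs hz))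
  refine hA.dom hO hK hs (fun z hz => ((hA.dv z hz).sm.mul (hT z (hB hz))).trace.continuousAt)
    (M := M) (fun z hz => (tr_le (hA.psd z hz.2) _).trans ?_) fun z hz hz' => by simp [h0 z hz hz']
  exact mul_le_mul_of_nonneg_right (hM z hz.1)
    (Complex.nonneg_iff.1 (hA.psd z hz.2).trace_nonneg).1

theorem Cur.intH (hA : Cur B O A) (h : Pl B O l) (hK : IsCompact K) (hs : K ⊆ B) {β : E n → ℝ}
    (hβ : ∀ z ∈ B, ContDiffAt ℝ ∞ β z) (h0 : ∀ z ∈ O, z ∉ K → β z = 0) :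
    IntegrableOn (fun z => tp (A z) (hess (cx β) z)) O ∧
      ∀ z ∈ O, z ∉ K → tp (A z) (hess (cx β) z) = 0 := by
  have e : ∀ z ∈ O, z ∉ K → hess (cx β) z = 0 := fun z hz hz' =>
    GIBE.hess_ev0 ((GIBE.ev0 h.oO hK h0 hz hz').mono fun y hy => by simp [cx, hy])
  exact ⟨(hA.intT h.oO h.sub hK hs (fun z hz => smM_hess (cd_ofReal (hβ z hz))) e).re,
    fun z hz hz' => by simp [tp, e z hz hz']⟩

/-- The family is dominated by functions with small integral. -/
def Small (O : Set (E n)) (f : ℝ → E n → ℝ) : Prop := ∀ ε > 0, ∀ᶠ s in 𝓝[>] (0 : ℝ),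
  ∃ g, IntegrableOn g O ∧ (∀ z ∈ O, |f s z| ≤ g z) ∧ ∫ z in O, g z ≤ ε

theorem Small.add {f g : ℝ → E n → ℝ} (hf : Small O f) (hg : Small O g) :
    Small O fun s z => f s z + g s z := fun ε hε => by
  filter_upwards [hf _ (half_pos hε), hg _ (half_pos hε)] with s ⟨a, a1, a2, a3⟩ ⟨b, b1, b2, b3⟩
  refine ⟨fun z => a z + b z, a1.add b1,
    fun z hz => (abs_add_le _ _).trans (add_le_add (a2 z hz) (b2 z hz)), ?_⟩
  rw [integral_add a1 b1]
  linarith

theorem Small.mono {f g : ℝ → E n → ℝ} (hf : Small O f) {M : ℝ} (hM : 0 < M)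
    (h : ∀ s > 0, ∀ z ∈ O, |g s z| ≤ M * |f s z|) : Small O g := fun ε hε => by
  filter_upwards [hf _ (div_pos hε hM), self_mem_nhdsWithin] with s ⟨a, a1, a2, a3⟩ hs
  refine ⟨fun z => M * a z, a1.const_mul M,
    fun z hz => (h s hs z hz).trans (mul_le_mul_of_nonneg_left (a2 z hz) hM.le), ?_⟩
  rw [integral_const_mul]
  exact (le_div_iff₀' hM).1 a3

theorem Small.tendsto {f : ℝ → E n → ℝ} (hf : Small O f) (hO : IsOpen O) :
    Tendsto (fun s => ∫ z in O, f s z) (𝓝[>] 0) (𝓝 0) := by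
  refine Metric.tendsto_nhds.2 fun ε hε => ?_
  filter_upwards [hf _ (half_pos hε)] with s ⟨a, a1, a2, a3⟩
  rw [dist_zero_right]
  refine ((norm_integral_le_of_norm_le a1 ((ae_restrict_mem hO.measurableSet).mono a2)).trans
    a3).trans_lt (half_lt_self hε)

theorem Pl.cvx (h : Pl B O l) (hA : Cur B O A) {φ : ℝ → ℝ} (hφ : Cv φ) {z : E n} (hz : z ∈ O) :
    deriv (deriv φ) (l z) * BLAP.q (A z) (gd l z) (gd l z) ≤
      tp (A z) (hess (cx fun w => φ (l w)) z) ∧ 0 ≤ tp (A z) (hess (cx fun w => φ (l w)) z) := by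
  rw [tp_comp (h.sm z hz) hφ.sm]
  have h1 := mul_nonneg (hφ.d1 (l z)) (BLAP.tr_nonneg (hA.psd z hz) (h.psh z hz))
  have h2 := mul_nonneg (hφ.d2 (l z)) (BLAP.q_nonneg (hA.psd z hz) (gd l z))
  exact ⟨le_add_of_nonneg_left h1, add_nonneg h1 h2⟩

theorem Pl.mass (h : Pl B O l) (hA : Cur B O A) (hK : IsCompact K) (hs : K ⊆ B) {φ : ℝ → ℝ}
    (hφ : Cv φ) {β : E n → ℝ} (hβ : ∀ z ∈ B, ContDiffAt ℝ ∞ β z)
    (h0 : ∀ z ∈ O, z ∉ K → β z = 0) :
    (∀ s > 0, IntegrableOn (fun z => β z * tp (A z) (hess (cx fun w => φ (s * l w)) z)) O) ∧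
    Tendsto (fun s : ℝ => ∫ z in O, β z * tp (A z) (hess (cx fun w => φ (s * l w)) z)) (𝓝[>] 0)
      (𝓝 (φ 0 * ∫ z in O, tp (A z) (hess (cx β) z))) := by
  have k := fun s (hs' : 0 < s) => (h.smul hs').key hA.dv hK hs hφ.sm hφ.zero
    (fun z hz => hβ z (h.sub hz)) h0
  obtain ⟨i, i0⟩ := hA.intH h hK hs hβ h0
  refine ⟨fun s hs' => (k s hs').1, (h.lim hK hs hφ.sm.continuous hφ.zero i i0).2.congr' ?_⟩
  filter_upwards [self_mem_nhdsWithin] with s hs'
  exact (k s hs').2.symm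

theorem Pl.cross (h : Pl B O l) (hA : Cur B O A) (hK : IsCompact K) (hs : K ⊆ B)
    {θ v u w : ℝ → ℝ} (hθ : Ct θ v u w) {W : E n → E n} (hW : ∀ z ∈ O, ContinuousAt W z) {M : ℝ}
    (hM : ∀ z ∈ K ∩ O, ‖W z‖ ≤ M) (h0 : ∀ z ∈ O, z ∉ K → W z = 0) :
    Small O fun s z => deriv θ (s * l z) * BLAP.q (A z) (gd (fun y => s * l y) z) (W z) := by
  obtain ⟨K₀, β, c1, c2, c3, c4, c5, c6⟩ := bump h.oB hK hs
  obtain ⟨m1, m2⟩ := h.mass hA c1 c2 hθ.cw (fun z _ => c3.contDiffAt) fun z _ hz => c5 z hz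
  have iq : IntegrableOn (fun z => BLAP.q (A z) (W z) (W z)) O := by
    refine hA.dom h.oO hK hs (fun z hz => ?_) (M := n * n * M ^ 2) (fun z hz => ?_)
      fun z hz hz' => by simp [BLAP.q, h0 z hz hz']
    · have h1 := (hA.dv z hz).sm.continuousAt
      have h2 := hW z hz
      refine continuous_re.continuousAt.comp ?_
      simp only [dotProduct, Matrix.mulVec]
      refine tendsto_finsetSum _ fun i _ => ContinuousAt.mul
        (continuousAt_pi.1 h2 i).star (tendsto_finsetSum _ fun j _ => ContinuousAt.mul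
          (continuousAt_pi.1 (continuousAt_pi.1 h1 i) j) (continuousAt_pi.1 h2 j))
    · refine (BBD.nq_abs (A z) (W z)).trans ?_
      have h1 : BBD.sn (A z) ≤ n * n * (A z).trace.re := by
        refine (Finset.sum_le_card_nsmul _ _ (n * (A z).trace.re) fun i _ =>
          (Finset.sum_le_card_nsmul _ _ _ fun j _ => entry_le (hA.psd z hz.2) i j).trans
            (by simp)).trans (by simp [mul_assoc])
      have h2 : ‖W z‖ ^ 2 ≤ M ^ 2 := pow_le_pow_left₀ (norm_nonneg _) (hM z hz) 2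
      refine (mul_le_mul h1 h2 (sq_nonneg _) ((BBD.sn_nonneg _).trans h1)).trans_eq (by ring)
  obtain ⟨n1, n2⟩ := h.lim hK hs hθ.dc hθ.dzero iq fun z hz hz' => by simp [BLAP.q, h0 z hz hz']
  rw [hθ.d0, zero_mul] at n2
  set a := w 0 * ∫ z in O, tp (A z) (hess (cx β) z)
  intro ε hε
  have ha : 0 < |a| + 1 := by positivity
  set δ := ε / 2 / (|a| + 1) with hδ
  have δ0 : 0 < δ := by positivity
  filter_upwards [n1, m2.eventually (eventually_lt_nhds (show a < |a| + 1 by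
    linarith [le_abs_self a])), n2.eventually (eventually_lt_nhds (show 0 < δ * (ε / 2) by
      positivity)), self_mem_nhdsWithin] with s s1 s2 s3 s0
  refine ⟨fun z => δ * (β z * tp (A z) (hess (cx fun y => w (s * l y)) z)) +
    δ⁻¹ * (deriv θ (s * l z) * BLAP.q (A z) (W z) (W z)),
    ((m1 s s0).const_mul δ).add (s1.const_mul δ⁻¹), fun z hz => ?_, ?_⟩
  · obtain ⟨p1, p2⟩ := (h.smul s0).cvx hA hθ.cw hz
    have p3 := hθ.d1 (s * l z)
    beta_reduce
    by_cases hzK : z ∈ K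
    · rw [abs_mul, abs_of_nonneg p3, c4 z hzK, one_mul]
      have p4 := mul_le_mul_of_nonneg_left
        (q_amgm (hA.psd z hz) (gd (fun y => s * l y) z) (W z) δ0) p3
      have p5 := mul_le_mul_of_nonneg_left ((mul_le_mul_of_nonneg_right (hθ.d2 (s * l z))
        (BLAP.q_nonneg (hA.psd z hz) (gd (fun y => s * l y) z))).trans p1) δ0.le
      linarith
    · have := mul_nonneg δ0.le (mul_nonneg (c6 z) p2)
      simpa [BLAP.q, h0 z hz hzK] using this
  · rw [integral_add ((m1 s s0).const_mul δ) (s1.const_mul δ⁻¹), integral_const_mul,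
      integral_const_mul]
    have e1 : δ * (|a| + 1) = ε / 2 := by rw [hδ]; field_simp
    have e2 := mul_le_mul_of_nonneg_left s2.le δ0.le
    have e3 := mul_le_mul_of_nonneg_left s3.le (inv_nonneg.2 δ0.le)
    rw [inv_mul_cancel_left₀ δ0.ne'] at e3
    linarith

theorem Pl.em1r (h : Pl B O l) (hA : Cur B O A) (hK : IsCompact K) (hs : K ⊆ B) {W : E n → E n}
    (hW : ∀ z ∈ B, ContDiffAt ℝ ∞ W z) (h0 : ∀ z ∈ O, z ∉ K → W z = 0) :
    IntegrableOn (fun z => (A z * dW W z).trace) O ∧ ∫ z in O, tp (A z) (dW W z) = 0 := by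
  obtain ⟨θ, v, u, w, hθ⟩ := exists_ct
  have e0 : ∀ z ∈ O, z ∉ K → dW W z = 0 := fun z hz hz' => by
    ext i j
    exact GIBE.dzb_ev0 ((GIBE.ev0 h.oO hK h0 hz hz').mono fun y hy => by simp [hy]) i
  have i1 := hA.intT h.oO h.sub hK hs (T := dW W)
    (fun z hz i j => cd_dzb (contDiffAt_pi.1 (hW z hz) j) i) e0
  refine ⟨i1, ?_⟩
  obtain ⟨n1, n2⟩ := h.lim hK hs hθ.sm.continuous hθ.zero (g := fun z => tp (A z) (dW W z)) i1.re
    fun z hz hz' => by simp [tp, e0 z hz hz']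
  rw [hθ.one, one_mul] at n2
  obtain ⟨M, -, hM⟩ := BBD.up hK fun z hz => (hW z (hs hz)).continuousAt.norm
  have n3 := (h.cross hA hK hs hθ (W := fun z => star (W z))
    (fun z hz => (hW z (h.sub hz)).continuousAt.star) (M := M)
    (fun z hz => by rw [norm_star]; exact hM z hz.1)
    fun z hz hz' => by simp [h0 z hz hz']).tendsto h.oO
  refine tendsto_nhds_unique n2 ((neg_zero (G := ℝ) ▸ n3.neg).congr' ?_)
  filter_upwards [n1, self_mem_nhdsWithin] with s s1 s0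
  have hl := h.smul s0
  have sθ : ∀ z ∈ O, ContDiffAt ℝ ∞ (cx fun y => θ (s * l y)) z := fun z hz =>
    cd_ofReal (hθ.sm.contDiffAt.comp z (hl.sm z hz))
  obtain ⟨j1, j2⟩ := (st_GIBE n O _ A h.oO (hl.cpt K hK hs (-3)) (fun z hz => hz.1.2) hA.dv).1
    (fun z => cx (fun y => θ (s * l y)) z • W z) (fun z hz => (sθ z hz).smul (hW z (h.sub hz)))
    fun z hz hz' => by
      by_cases hzK : z ∈ K
      · simp [cx, hθ.zero _ (not_le.1 fun h' => hz' ⟨⟨hzK, hz⟩, h'⟩).le]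
      · simp [h0 z hz hzK]
  have j3 := integral_re j1
  rw [j2, map_zero] at j3
  rw [← zero_sub, ← j3, eq_comm, eq_sub_iff_add_eq, ← eq_sub_iff_add_eq', ← integral_sub j1.re s1]
  refine setIntegral_congr_fun h.oO.measurableSet fun z hz => ?_
  rw [GIBE.dW_smul (cd_diff (sθ z hz)) (cd_diff (hW z (h.sub hz)))]
  have e1 : (fun i => dzb i (cx fun y => θ (s * l y)) z) =
      ((deriv θ (s * l z) : ℝ) : ℂ) • gd (fun y => s * l y) z := by
    funext i
    rw [dzb_comp_real (u := fun y => s * l y) (hθ.sm.differentiable (by simp) _).hasDerivAt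
      (cd_diff (hl.sm z hz)), ← star_dz_ofReal (cd_diff (cd_ofReal (hl.sm z hz)))]
    rfl
  simp only [e1, RCLike.re_to_complex, add_re, cx, re_ofReal_mul, tp, BLAP.q, star_star,
    Matrix.mulVec_smul, dotProduct_smul, smul_eq_mul, add_sub_cancel_right]

theorem Pl.em1 (h : Pl B O l) (hA : Cur B O A) (hK : IsCompact K) (hs : K ⊆ B) {W : E n → E n}
    (hW : ∀ z ∈ B, ContDiffAt ℝ ∞ W z) (h0 : ∀ z ∈ O, z ∉ K → W z = 0) :
    IntegrableOn (fun z => (A z * dW W z).trace) O ∧ ∫ z in O, (A z * dW W z).trace = 0 := by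
  obtain ⟨i1, e1⟩ := h.em1r hA hK hs hW h0
  obtain ⟨-, e2⟩ := h.em1r hA hK hs (W := fun z => I • W z) (fun z hz => (hW z hz).const_smul I)
    fun z hz hz' => by simp [h0 z hz hz']
  rw [setIntegral_congr_fun h.oO.measurableSet (g := fun z => -(A z * dW W z).trace.im)
    fun z hz => by
      beta_reduce
      rw [tp, GIBE.dW_smul (f := fun _ => I) (differentiableAt_const _)
        (cd_diff (hW z (h.sub hz)))]
      simp [dotProduct, Matrix.mulVec], integral_neg, neg_eq_zero] at e2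
  refine ⟨i1, Complex.ext ?_ ?_⟩
  · exact (integral_re i1).symm.trans e1
  · exact (integral_im i1).symm.trans e2

theorem Pl.em2 (h : Pl B O l) (hA : Cur B O A) (hK : IsCompact K) (hs : K ⊆ B) {ψ β : E n → ℝ}
    (hψ : ∀ z ∈ O, ContDiffAt ℝ ∞ ψ z) {M : ℝ} (hM : ∀ z ∈ K ∩ O, |ψ z| ≤ M)
    (hi : IntegrableOn (fun z => tp (A z) (hess (cx ψ) z)) (K ∩ O))
    (hβ : ∀ z ∈ B, ContDiffAt ℝ ∞ β z) (h0 : ∀ z ∈ O, z ∉ K → β z = 0) :
    IntegrableOn (fun z => β z * tp (A z) (hess (cx ψ) z)) O ∧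
    IntegrableOn (fun z => ψ z * tp (A z) (hess (cx β) z)) O ∧
    ∫ z in O, β z * tp (A z) (hess (cx ψ) z) = ∫ z in O, ψ z * tp (A z) (hess (cx β) z) := by
  obtain ⟨θ, v, u, w, hθ⟩ := exists_ct
  have hm : MeasurableSet (K ∩ O) := hK.measurableSet.inter h.oO.measurableSet
  obtain ⟨N, N0, hN⟩ := BBD.up hK fun z hz => (hβ z (hs hz)).continuousAt.abs
  obtain ⟨b1, b2⟩ := hA.intH h hK hs hβ h0
  have i1 : IntegrableOn (fun z => β z * tp (A z) (hess (cx ψ) z)) O :=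
    IntegrableOn.of_forall_sdiff_eq_zero (s := K ∩ O) (Integrable.bdd_mul hi
      (ContinuousOn.aestronglyMeasurable
        (fun z hz => (hβ z (hs hz.1)).continuousAt.continuousWithinAt) hm)
      ((ae_restrict_mem hm).mono fun z hz => hN z hz.1)) h.oO.measurableSet
      fun z hz => by rw [h0 z hz.1 fun h => hz.2 ⟨h, hz.1⟩, zero_mul]
  have i2 : IntegrableOn (fun z => ψ z * tp (A z) (hess (cx β) z)) O :=
    IntegrableOn.of_forall_sdiff_eq_zero (s := K ∩ O) (Integrable.bdd_mul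
      (b1.mono_set inter_subset_right) (ContinuousOn.aestronglyMeasurable
        (fun z hz => (hψ z hz.2).continuousAt.continuousWithinAt) hm)
      ((ae_restrict_mem hm).mono hM)) h.oO.measurableSet
      fun z hz => by rw [b2 z hz.1 fun h => hz.2 ⟨h, hz.1⟩, mul_zero]
  refine ⟨i1, i2, ?_⟩
  obtain ⟨-, n2⟩ := h.lim hK hs hθ.sm.continuous hθ.zero i1
    fun z hz hz' => by rw [h0 z hz hz', zero_mul]
  obtain ⟨n3, n4⟩ := h.lim hK hs hθ.sm.continuous hθ.zero i2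
    fun z hz hz' => by rw [b2 z hz hz', mul_zero]
  rw [hθ.one, one_mul] at n2 n4
  obtain ⟨K₀, β₀, c1, c2, c3, c4, c5, c6⟩ := bump h.oB hK hs
  have z0 : ∫ z in O, tp (A z) (hess (cx β₀) z) = 0 :=
    (h.em1r hA c1 c2 (W := fun z j => dz j (cx β₀) z)
      (fun z _ => contDiffAt_pi.2 fun j => cd_dz (cd_ofReal c3.contDiffAt) j) fun z hz hz' => by
        funext j
        exact GIBE.dz_ev0 ((c1.isClosed.isOpen_compl.eventually_mem hz').mono
          fun y hy => by simp [cx, c5 y hy]) j).2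
  have sec : ∀ φ, Cv φ →
      Small O fun s z => ψ z * β z * tp (A z) (hess (cx fun y => φ (s * l y)) z) := by
    intro φ hφ
    obtain ⟨m1, m2⟩ := h.mass hA c1 c2 hφ (fun z _ => c3.contDiffAt) fun z _ hz => c5 z hz
    rw [z0, mul_zero] at m2
    refine Small.mono (f := fun s z => β₀ z * tp (A z) (hess (cx fun y => φ (s * l y)) z))
      (fun ε hε => ?_) (M := (|M| + 1) * N) (by positivity) fun s s0 z hz => ?_
    · filter_upwards [m2.eventually (eventually_lt_nhds hε), self_mem_nhdsWithin] with s s1 s0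
      exact ⟨_, m1 s s0, fun z hz =>
        (abs_of_nonneg (mul_nonneg (c6 z) ((h.smul s0).cvx hA hφ hz).2)).le, s1.le⟩
    · by_cases hzK : z ∈ K
      · rw [c4 z hzK, one_mul, abs_mul, abs_mul]
        refine mul_le_mul_of_nonneg_right (mul_le_mul ?_ (hN z hzK) (abs_nonneg _)
          (by positivity)) (abs_nonneg _)
        linarith [hM z ⟨hzK, hz⟩, le_abs_self M]
      · rw [h0 z hz hzK, mul_zero, zero_mul, abs_zero]
        positivity
  have gc : ∀ z ∈ B, ContinuousAt (gd β) z := fun z hz =>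
    (continuousAt_pi.2 fun j => (cd_dz (cd_ofReal (hβ z hz)) j).continuousAt).star
  obtain ⟨N', -, hN'⟩ := BBD.up hK fun z hz => (gc z (hs hz)).norm
  have cr := h.cross hA hK hs hθ (W := fun z => (ψ z : ℂ) • gd β z)
    (fun z hz => (cd_ofReal (hψ z hz)).continuousAt.smul (gc z (h.sub hz))) (M := M * N')
    (fun z hz => by
      rw [norm_smul, norm_real]
      exact mul_le_mul (hM z hz) (hN' z hz.1) (norm_nonneg _) ((abs_nonneg _).trans (hM z hz)))
    fun z hz hz' => by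
      have : gd β z = 0 := by
        funext j
        simp [gd, GIBE.dz_ev0 (f := cx β) ((GIBE.ev0 h.oO hK h0 hz hz').mono
          fun y hy => by simp [cx, hy]) j]
      rw [this, smul_zero]
  have n5 := ((((sec v hθ.cv).add ((sec u hθ.cu).mono one_pos
    (g := fun s z => -(ψ z * β z * tp (A z) (hess (cx fun y => u (s * l y)) z)))
    fun s _ z _ => by rw [abs_neg, one_mul])).add cr).add cr).tendsto h.oO
  refine tendsto_nhds_unique n2 ((add_zero (∫ z in O, ψ z * tp (A z) (hess (cx β) z)) ▸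
    n4.add n5).congr' ?_)
  filter_upwards [n3, self_mem_nhdsWithin] with s s1 s0
  have hl := h.smul s0
  have sφ : ∀ φ : ℝ → ℝ, ContDiff ℝ ∞ φ → ∀ z ∈ O, ContDiffAt ℝ ∞ (fun y => φ (s * l y)) z :=
    fun φ hφ z hz => hφ.contDiffAt.comp z (hl.sm z hz)
  obtain ⟨-, j2, j3⟩ := gibr h.oO (hl.cpt K hK hs (-3)) (fun z hz => hz.1.2) hA.dv
    (ψ := fun z => θ (s * l z) * β z) (fun z hz => (sφ θ hθ.sm z hz).mul (hβ z (h.sub hz))) hψ
    fun z hz hz' => Or.inl (by
      by_cases hzK : z ∈ K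
      · exact (hl.low hθ.zero hz (not_le.1 fun h' => hz' ⟨⟨hzK, hz⟩, h'⟩)).mono
          fun y hy => by rw [hy, zero_mul]
      · exact (GIBE.ev0 h.oO hK h0 hz hzK).mono fun y hy => by rw [hy, mul_zero])
  simp only [mul_assoc] at j3
  rw [j3, ← eq_sub_iff_add_eq', ← integral_sub j2 s1]
  refine setIntegral_congr_fun h.oO.measurableSet fun z hz => ?_
  have t1 := sφ θ hθ.sm z hz
  have t2 := hβ z (h.sub hz)
  have e1 : (cx fun z => θ (s * l z) * β z) = fun y => cx (fun y => θ (s * l y)) y * cx β y := by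
    funext y; simp [cx]
  have e2 : tp (A z) (dd (cx fun y => θ (s * l y)) (cx β) z) =
      deriv θ (s * l z) * BLAP.q (A z) (gd (fun y => s * l y) z) (gd β z) := by
    rw [BLAP.dd_comp (u := fun y => s * l y) (hl.sm z hz) hθ.sm.contDiffAt, tp_smul]
    exact congrArg _ (BLAP.tr_dd _ (hl.sm z hz))
  have e3 : tp (A z) (dd (cx β) (cx fun y => θ (s * l y)) z) =
      tp (A z) (dd (cx fun y => θ (s * l y)) (cx β) z) := by
    rw [tp, tp, BLAP.tr_dd _ t1, BLAP.tr_dd _ t2, BLAP.q_comm (hA.psd z hz).1]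
  have e4 : tp (A z) (hess (cx fun y => θ (s * l y)) z) =
      tp (A z) (hess (cx fun y => v (s * l y)) z) - tp (A z) (hess (cx fun y => u (s * l y)) z) := by
    rw [eq_sub_iff_add_eq, ← tp_add, ← BLAP.hess_add (cd_ofReal t1)
      (cd_ofReal (sφ u hθ.cu.sm z hz))]
    congr 2
    funext y
    simp [cx, hθ.eq]
  have e5 : BLAP.q (A z) (gd (fun y => s * l y) z) ((ψ z : ℂ) • gd β z) =
      ψ z * BLAP.q (A z) (gd (fun y => s * l y) z) (gd β z) := by
    simp only [BLAP.q, star_smul, smul_dotProduct, star_def, conj_ofReal, smul_eq_mul,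
      re_ofReal_mul]
  rw [e1, BLAP.hess_mul (cd_ofReal t1) (cd_ofReal t2), tp_add, tp_add, tp_add, tp_smul, tp_smul,
    e3, e2, e4, e5]
  ring

end EM

end Pool.Agent.Lib.RA
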