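import Pool.Agent.Lib.HN.SDefs
import Pool.Agent.Lib.PN.SDefs

/-! Definitions used in the statement: real-analytic semi-positive metrics on the canonical
bundle. -/

noncomputable section

namespace Pool.Agent.Lib.RA

open Pool.Agent.Lib.SV Pool.Agent.Lib.HW

variable (n : ℕ) {X : Type} [TopologicalSpace X] [ChartedSpace (E n) X]

/-- The weight, in the chart at `x`, of the Hermitian metric `exp (-φ)` on the canonical bundle
whose weight at each `y` in the preferred chart of `y` is `φ y`. -/
def wtIn (φ : X → ℝ) (x : X) (z : E n) : ℝ :=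
  φ ((chartAt (E n) x).symm z) + Real.log (Complex.normSq (jacAt n X x z))

/-- The curvature form of that metric at `x`, evaluated on `v`. -/
def curvK (φ : X → ℝ) (x : X) (v : E n) : ℝ := levi (wtIn n φ x) (chartAt (E n) x x) v

/-- The metric is real-analytic and its curvature form is semi-positive. -/
structure AnalyticSemipos (φ : X → ℝ) : Prop where
  an : ∀ x, AnalyticAt ℝ (wtIn n φ x) (chartAt (E n) x x)
  pos : ∀ x v, 0 ≤ curvK n φ x v

/-- At every point the curvature form vanishes on a subspace of dimension `k`. -/
def NullDirs (φ : X → ℝ) (k : ℕ) : Prop :=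
  ∀ x, ∃ F : Submodule ℂ (E n), Module.finrank ℂ F = k ∧ ∀ v ∈ F, curvK n φ x v = 0

end Pool.Agent.Lib.RA
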