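import Pool.Agent.Lib.HS32.MAll

/-! Finitely many branches: local systems of representatives, sums over the branches, and the
divergence theorem for a sum over the branches. -/

open scoped Topology ContDiff Matrix
open Set Filter MeasureTheory

noncomputable section

namespace Pool.Agent.Lib.RA.A26

open Pool.Agent.Lib.SV (E)
open Pool.Agent.Lib.HS32

section defs

variable {X V : Type} [TopologicalSpace X] [AddCommGroup V]

/-- The germs at `y` differ by a translation of `Γ`. -/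
def Tr (Γ : AddSubgroup V) (y : X) (G G' : X → V) : Prop := ∃ a ∈ Γ, ∀ᶠ x in 𝓝 y, G' x = G x + a

/-- On the open set `O` the maps `H i` represent, once each, the admissible germs with value in
`In`. -/
structure Br (Γ : AddSubgroup V) (Q : X → (X → V) → Prop) (In Out : Set V) (O : Set X) (m : ℕ)
    (H : Fin m → X → V) : Prop where
  opn : IsOpen O
  adm : ∀ i, ∀ y ∈ O, Q y (H i) ∧ H i y ∈ Out
  rep : ∀ y ∈ O, ∀ G, Q y G → G y ∈ In → ∃! i, Tr Γ y G (H i)

/-- Locally at most `N` branches. -/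
def LF (Γ : AddSubgroup V) (Q : X → (X → V) → Prop) (In Out : Set V) (N : ℕ) : Prop :=
  ∀ x, ∃ O m H, x ∈ O ∧ m ≤ N ∧ Br Γ Q In Out O m H

/-- The quantity `f` depends only on the class of the germ and vanishes off `In`. -/
structure Nat' {A : Type} [Zero A] (Γ : AddSubgroup V) (Q : X → (X → V) → Prop) (In : Set V)
    (f : (X → V) → X → A) : Prop where
  inv : ∀ y G G', Q y G → Q y G' → Tr Γ y G G' → f G y = f G' y
  sup : ∀ y G, Q y G → f G y ≠ 0 → G y ∈ In

end defs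

/-- Extension, propagation and finiteness at one point give a system of branches. -/
def St_ATL : Prop := ∀ (X V : Type) [TopologicalSpace X] [AddCommGroup V] (Γ : AddSubgroup V)
  (Q : X → (X → V) → Prop) (In Out : Set V) (O : Set X) (N : ℕ), IsOpen O →
  (∀ y ∈ O, ∀ G, Q y G → G y ∈ In → ∃ G', (∀ z ∈ O, Q z G' ∧ G' z ∈ Out) ∧ Tr Γ y G G') →
  (∀ G G', (∀ z ∈ O, Q z G) → (∀ z ∈ O, Q z G') → ∀ y ∈ O, ∀ y' ∈ O, Tr Γ y G G' → Tr Γ y' G G') →
  (∃ y ∈ O, ∀ G : Fin (N + 1) → X → V, (∀ i, Q y (G i) ∧ G i y ∈ Out) →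
    ∃ i j, i ≠ j ∧ Tr Γ y (G i) (G j)) →
  ∃ m H, m ≤ N ∧ Br Γ Q In Out O m H

/-- The sum over the branches. -/
def St_BS : Prop := ∀ (X V A : Type) [TopologicalSpace X] [AddCommGroup V] [AddCommMonoid A]
  (Γ : AddSubgroup V) (Q : X → (X → V) → Prop) (In Out : Set V) (N : ℕ) (f : (X → V) → X → A),
  LF Γ Q In Out N → Nat' Γ Q In f →
  ∃ F : X → A, ∀ O m H, Br Γ Q In Out O m H → ∀ y ∈ O, F y = ∑ i, f (H i) y

/-- The divergence theorem for a sum over the branches. -/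
def St_BRA : Prop := ∀ (n : ℕ) (M : Mf n) [M.Cpt] (V : Type) [AddCommGroup V] (Γ : AddSubgroup V)
  (Q : M.X → (M.X → V) → Prop) (In Out : Set V) (N : ℕ) (T : M.Fam (Mat n))
  (W : (M.X → V) → M.Fam (E n)), M.Met T → LF Γ Q In Out N →
  (∀ e ∈ M.C, Nat' Γ (fun y G => y ∈ e.source ∧ Q y G) In fun G y => W G e (e y)) →
  (∀ y G, (∀ᶠ x in 𝓝 y, Q x G) → G y ∈ Out → ∀ e ∈ M.C, y ∈ e.source →
    ContDiffAt ℝ ∞ (W G e) (e y) ∧ ∀ e' ∈ M.C, y ∈ e'.source →
      M.J e e' y *ᵥ W G e' (e' y) = (Complex.normSq (M.J e e' y).det : ℂ) • W G e (e y)) →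
  ∃ F : M.X → ℂ, M.Sm F ∧ ∫ x, F x ∂M.mu T = 0 ∧ ∀ O m H, Br Γ Q In Out O m H → ∀ y ∈ O,
    ∀ e ∈ M.C, y ∈ e.source → F y = ∑ i, dv (W (H i) e) (e y) / (T e (e y)).det

section pf

variable {X V : Type} [TopologicalSpace X] [AddCommGroup V] {Γ : AddSubgroup V} {y : X}
  {G G' G'' : X → V}

theorem Tr.refl (Γ : AddSubgroup V) (y : X) (G : X → V) : Tr Γ y G G :=
  ⟨0, Γ.zero_mem, .of_forall fun _ => (add_zero _).symm⟩

theorem Tr.symm (h : Tr Γ y G G') : Tr Γ y G' G := by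
  obtain ⟨a, ha, h⟩ := h
  exact ⟨-a, Γ.neg_mem ha, h.mono fun x hx => by rw [hx, add_neg_cancel_right]⟩

theorem Tr.trans (h : Tr Γ y G G') (h' : Tr Γ y G' G'') : Tr Γ y G G'' := by
  obtain ⟨a, ha, h⟩ := h
  obtain ⟨b, hb, h'⟩ := h'
  refine ⟨a + b, Γ.add_mem ha hb, ?_⟩
  filter_upwards [h, h'] with x hx hx'
  rw [hx', hx, add_assoc]

theorem Tr.ev (h : Tr Γ y G G') : ∀ᶠ x in 𝓝 y, Tr Γ x G G' := by
  obtain ⟨a, ha, h⟩ := h
  exact h.eventually_nhds.mono fun x hx => ⟨a, ha, hx⟩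

theorem Tr.mem {In : Set V} (hI : ∀ v ∈ In, ∀ a ∈ Γ, v + a ∈ In) (h : Tr Γ y G G')
    (hG : G y ∈ In) : G' y ∈ In := by
  obtain ⟨a, ha, h⟩ := h
  rw [h.self_of_nhds]
  exact hI _ hG a ha

theorem Br.sum_eq {A : Type} [AddCommMonoid A] {Q : X → (X → V) → Prop} {In Out : Set V}
    {O O' : Set X} {m m' : ℕ} {H : Fin m → X → V} {H' : Fin m' → X → V}
    (h : Br Γ Q In Out O m H) (h' : Br Γ Q In Out O' m' H')
    (hy : y ∈ O) (hy' : y ∈ O') {f : (X → V) → A}
    (inv : ∀ G G', Q y G → Q y G' → Tr Γ y G G' → f G = f G')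
    (sup : ∀ G, Q y G → f G ≠ 0 → G y ∈ In) : ∑ i, f (H i) = ∑ j, f (H' j) := by
  have q := fun i => (h.adm i y hy).1
  have q' := fun j => (h'.adm j y hy').1
  have ex := fun i (hi : f (H i) ≠ 0) => h'.rep y hy' _ (q i) (sup _ (q i) hi)
  refine Finset.sum_bij_ne_zero (fun i _ hi => (ex i hi).choose) (fun _ _ _ => Finset.mem_univ _)
    (fun i _ hi j _ hj e => ?_) (fun j _ hj => ?_) fun i _ hi => inv _ _ (q i) (q' _)
      (ex i hi).choose_spec.1
  · have a := (ex i hi).choose_spec.1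
    have b := (ex j hj).choose_spec.1
    simp only at e a b
    rw [← e] at b
    exact (h.rep y hy _ (q i) (sup _ (q i) hi)).unique (Tr.refl Γ y _) (a.trans b.symm)
  · obtain ⟨i, hi, -⟩ := h.rep y hy _ (q' j) (sup _ (q' j) hj)
    have e : f (H i) ≠ 0 := by rwa [← inv _ _ (q' j) (q i) hi]
    exact ⟨i, Finset.mem_univ _, e, ((ex i e).choose_spec.2 j hi.symm).symm⟩

end pf

theorem st_ATL : St_ATL := by
  intro X V _ _ Γ Q In Out O N hO hE hP ⟨y0, hy0, hF⟩
  classical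
  let P : ℕ → Prop := fun m => ∃ H : Fin m → X → V, (∀ i, ∀ z ∈ O, Q z (H i) ∧ H i z ∈ Out) ∧
    ∀ i j, Tr Γ y0 (H i) (H j) → i = j
  have hle : ∀ m, P m → m ≤ N := by
    rintro m ⟨H, h1, h2⟩
    by_contra hm
    have hm' : N + 1 ≤ m := by omega
    obtain ⟨i, j, hij, ht⟩ := hF (fun i => H (Fin.castLE hm' i)) fun i => h1 _ y0 hy0
    exact hij (Fin.castLE_injective hm' (h2 _ _ ht))
  have h0 : P 0 := ⟨fun i => i.elim0, fun i => i.elim0, fun i => i.elim0⟩
  obtain ⟨H, h1, h2⟩ : P (Nat.findGreatest P N) := Nat.findGreatest_spec (Nat.zero_le N) h0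
  refine ⟨_, H, Nat.findGreatest_le N, hO, h1, fun y hy G hG hGy => ?_⟩
  obtain ⟨G', hG', ht⟩ := hE y hy G hG hGy
  have key : ∃ i, Tr Γ y0 G' (H i) := by
    by_contra hn
    push Not at hn
    have h3 : P (Nat.findGreatest P N + 1) := by
      refine ⟨Fin.cons G' H, fun i => ?_, fun i j => ?_⟩
      · induction i using Fin.cases with
        | zero => exact hG'
        | succ i => exact h1 i
      · induction i using Fin.cases with
        | zero =>
          induction j using Fin.cases with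
          | zero => exact fun _ => rfl
          | succ j => exact fun h => absurd h (hn j)
        | succ i =>
          induction j using Fin.cases with
          | zero => exact fun h => absurd (Tr.symm h) (hn i)
          | succ j => exact fun h => congrArg _ (h2 i j h)
    have := Nat.le_findGreatest (hle _ h3) h3
    omega
  obtain ⟨i, hi⟩ := key
  have hi' := ht.trans (hP _ _ (fun z hz => (hG' z hz).1) (fun z hz => (h1 i z hz).1) y0 hy0 y hy hi)
  exact ⟨i, hi', fun j hj => h2 _ _ (hP _ _ (fun z hz => (h1 j z hz).1)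
    (fun z hz => (h1 i z hz).1) y hy y0 hy0 (hj.symm.trans hi'))⟩

theorem st_BS : St_BS := by
  intro X V A _ _ _ Γ Q In Out N f hL hf
  choose O m H hx _ hB using hL
  exact ⟨fun y => ∑ i, f (H y i) y, fun O' m' H' h' y hy =>
    (hB y).sum_eq h' (hx y) hy (f := fun G => f G y) (hf.inv y) (hf.sup y)⟩

theorem st_BRA : St_BRA := by
  intro n M _ V _ Γ Q In Out N T W hT hL hN hW
  choose O m H hx _ hB using hL
  let U : M.Fam (E n) := fun e z => ∑ i, W (H (e.symm z) i) e z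
  have loc : ∀ O' m' H', Br Γ Q In Out O' m' H' → ∀ y ∈ O', ∀ e ∈ M.C, y ∈ e.source →
      U e =ᶠ[𝓝 (e y)] fun z => ∑ i, W (H' i) e z := by
    intro O' m' H' h' y hy e he hye
    have c : ContinuousAt e.symm (e y) := e.continuousAt_symm (e.map_source hye)
    have h1 : ∀ᶠ z in 𝓝 (e y), e.symm z ∈ O' :=
      c.eventually (by rw [e.left_inv hye]; exact h'.opn.mem_nhds hy)
    filter_upwards [h1, e.open_target.mem_nhds (e.map_source hye)] with z hz hzt
    have hs := e.map_target hzt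
    have := (hB (e.symm z)).sum_eq h' (hx _) hz (f := fun G => W G e (e (e.symm z)))
      (fun G G' a b => (hN e he).inv _ G G' ⟨hs, a⟩ ⟨hs, b⟩) fun G a => (hN e he).sup _ G ⟨hs, a⟩
    rw [e.right_inv hzt] at this
    exact this
  have sm : ∀ O' m' H', Br Γ Q In Out O' m' H' → ∀ y ∈ O', ∀ i, (∀ᶠ x in 𝓝 y, Q x (H' i)) ∧
      H' i y ∈ Out := fun O' m' H' h' y hy i =>
    ⟨(h'.opn.eventually_mem hy).mono fun x hx => (h'.adm i x hx).1, (h'.adm i y hy).2⟩
  have hU : M.VDen U := by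
    refine ⟨fun e he z hz => ?_, fun e he e' he' y hy hy' => ?_⟩
    · have hs := e.map_target hz
      have h1 := loc _ _ _ (hB _) _ (hx (e.symm z)) e he hs
      rw [e.right_inv hz] at h1
      refine ContDiffAt.congr_of_eventuallyEq (ContDiffAt.sum fun i _ => ?_) h1
      have h2 := sm _ _ _ (hB _) _ (hx (e.symm z)) i
      have h3 := (hW _ _ h2.1 h2.2 e he hs).1
      rwa [e.right_inv hz] at h3
    · beta_reduce
      rw [(loc _ _ _ (hB y) y (hx y) e he hy).self_of_nhds,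
        (loc _ _ _ (hB y) y (hx y) e' he' hy').self_of_nhds, Matrix.mulVec_sum, Finset.smul_sum]
      refine Finset.sum_congr rfl fun i _ => ?_
      have h2 := sm _ _ _ (hB _) _ (hx y) i
      exact (hW _ _ h2.1 h2.2 e he hy).2 e' he' hy'
  obtain ⟨h1, h2, h3⟩ := (mDIV n M T hT).2.1 U hU
  refine ⟨_, h2, h3 inferInstance, fun O' m' H' h' y hy e he hye => ?_⟩
  have h4 := (mTR n M).2.2.2.2.1 ℂ _ h1 e he (e y) (e.map_source hye)
  beta_reduce at h4
  rw [e.left_inv hye] at h4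
  rw [h4, ← Finset.sum_div]
  congr 1
  have h5 := loc _ _ _ h' y hy e he hye
  unfold dv
  rw [Finset.sum_comm]
  refine Finset.sum_congr rfl fun j _ => ?_
  rw [dz_congr (g := fun z => ∑ i, W (H' i) e z j) (h5.mono fun z hz => by
    simp only [hz, Finset.sum_apply])]
  refine dz_sum fun i _ => ?_
  have h6 := sm _ _ _ h' y hy i
  exact cd_diff (contDiffAt_pi.1 (hW _ _ h6.1 h6.2 e he hye).1 j)

end Pool.Agent.Lib.RA.A26
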