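import Mathlib

/-! Linear growth of a convex function that is strictly convex near the origin. -/

open scoped Topology
open Set Metric

noncomputable section

namespace Pool.Agent.Lib.RA

/-- A convex function with Hessian at least `c` on the ball of radius `2δ` and a small gradient at
the origin grows linearly outside the ball of radius `δ`. -/
def St_CVX : Prop := ∀ (V : Type) [NormedAddCommGroup V] [NormedSpace ℝ V] (ψ : V → ℝ) (c δ : ℝ),
  0 < δ → ConvexOn ℝ univ ψ → (∀ a ∈ ball (0 : V) (2 * δ), ContDiffAt ℝ 2 ψ a) →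
  (∀ a ∈ ball (0 : V) (2 * δ), ∀ v, c * ‖v‖ ^ 2 ≤ fderiv ℝ (fun w => fderiv ℝ ψ w v) a v) →
  ‖fderiv ℝ ψ 0‖ ≤ c * δ / 4 → ∀ a, δ ≤ ‖a‖ → ψ 0 + c * δ / 4 * ‖a‖ ≤ ψ a

namespace CVX

theorem taylor1 {g g1 g2 : ℝ → ℝ} {c δ : ℝ} (hδ : 0 < δ)
    (h1 : ∀ t ∈ Icc 0 δ, HasDerivAt g (g1 t) t) (h2 : ∀ t ∈ Icc 0 δ, HasDerivAt g1 (g2 t) t)
    (hc : ∀ t ∈ Icc 0 δ, c ≤ g2 t) : g 0 + g1 0 * δ + c * δ ^ 2 / 2 ≤ g δ := by
  have hA : ∀ t ∈ Icc 0 δ, g1 0 + c * t ≤ g1 t := by
    have hm : MonotoneOn (fun t => g1 t - c * t) (Icc 0 δ) := by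
      have hd : ∀ t ∈ Icc 0 δ, HasDerivAt (fun t => g1 t - c * t) (g2 t - c) t := fun t ht =>
        ((h2 t ht).sub ((hasDerivAt_id t).const_mul c)).congr_deriv (by rw [mul_one])
      refine monotoneOn_of_deriv_nonneg (convex_Icc 0 δ)
        (fun t ht => (hd t ht).continuousAt.continuousWithinAt)
        (fun t ht => (hd t (interior_subset ht)).differentiableAt.differentiableWithinAt) ?_
      intro t ht
      rw [(hd t (interior_subset ht)).deriv]
      linarith [hc t (interior_subset ht)]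
    intro t ht
    have := hm (left_mem_Icc.2 hδ.le) ht ht.1
    simp only [mul_zero, sub_zero] at this
    linarith
  have hm : MonotoneOn (fun t => g t - g1 0 * t - c * t ^ 2 / 2) (Icc 0 δ) := by
    have hd : ∀ t ∈ Icc 0 δ, HasDerivAt (fun t => g t - g1 0 * t - c * t ^ 2 / 2)
        (g1 t - g1 0 - c * t) t := fun t ht => by
      have h3 := ((h1 t ht).sub ((hasDerivAt_id t).const_mul (g1 0))).sub
        (((hasDerivAt_pow 2 t).const_mul c).div_const 2)
      refine h3.congr_deriv ?_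
      simp only [mul_one, Nat.cast_ofNat, Nat.add_one_sub_one, pow_one]
      ring
    refine monotoneOn_of_deriv_nonneg (convex_Icc 0 δ)
      (fun t ht => (hd t ht).continuousAt.continuousWithinAt)
      (fun t ht => (hd t (interior_subset ht)).differentiableAt.differentiableWithinAt) ?_
    intro t ht
    rw [(hd t (interior_subset ht)).deriv]
    linarith [hA t (interior_subset ht)]
  have := hm (left_mem_Icc.2 hδ.le) (right_mem_Icc.2 hδ.le) hδ.le
  simp only [mul_zero, sub_zero, ne_eq, OfNat.ofNat_ne_zero, not_false_eq_true, zero_pow,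
    zero_div] at this
  linarith

end CVX

theorem st_CVX : St_CVX := by
  intro V _ _ ψ c δ hδ hcv hsm hc h0 a ha
  have ha0 : 0 < ‖a‖ := hδ.trans_le ha
  set u : V := ‖a‖⁻¹ • a with hu
  have hu1 : ‖u‖ = 1 := by
    rw [hu, norm_smul, norm_inv, norm_norm, inv_mul_cancel₀ ha0.ne']
  have hmem : ∀ t ∈ Icc 0 δ, t • u ∈ ball (0 : V) (2 * δ) := by
    intro t ht
    rw [mem_ball_zero_iff, norm_smul, hu1, mul_one, Real.norm_of_nonneg ht.1]
    linarith [ht.2]
  have hl : ∀ t : ℝ, HasDerivAt (fun t : ℝ => t • u) u t := fun t => by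
    simpa using (hasDerivAt_id t).smul_const u
  have h1 : ∀ t ∈ Icc 0 δ, HasDerivAt (fun t : ℝ => ψ (t • u)) (fderiv ℝ ψ (t • u) u) t :=
    fun t ht => (((hsm _ (hmem t ht)).differentiableAt (by norm_num)).hasFDerivAt).comp_hasDerivAt
      t (hl t)
  have h2 : ∀ t ∈ Icc 0 δ, HasDerivAt (fun t : ℝ => fderiv ℝ ψ (t • u) u)
      (fderiv ℝ (fun w => fderiv ℝ ψ w u) (t • u) u) t := fun t ht => by
    have h3 : ContDiffAt ℝ 1 (fun w => fderiv ℝ ψ w u) (t • u) :=
      ((hsm _ (hmem t ht)).fderiv_right (m := 1) (by norm_num)).clm_apply contDiffAt_const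
    exact (h3.differentiableAt (by norm_num)).hasFDerivAt.comp_hasDerivAt t (hl t)
  have h4 := CVX.taylor1 (c := c) hδ h1 h2 fun t ht => by
    have := hc _ (hmem t ht) u
    rwa [hu1, one_pow, mul_one] at this
  simp only [zero_smul] at h4
  have h5 : -(c * δ / 4) ≤ fderiv ℝ ψ 0 u := by
    have := (fderiv ℝ ψ 0).le_opNorm u
    rw [hu1, mul_one, Real.norm_eq_abs] at this
    linarith [neg_abs_le (fderiv ℝ ψ 0 u)]
  have h6 : ψ 0 + c * δ / 4 * δ ≤ ψ (δ • u) := by nlinarith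
  have hs0 : 0 ≤ δ / ‖a‖ := by positivity
  have hs1 : δ / ‖a‖ ≤ 1 := (div_le_one ha0).2 ha
  have h7 := hcv.2 (mem_univ 0) (mem_univ a) (sub_nonneg.2 hs1) hs0 (by ring)
  have h8 : (1 - δ / ‖a‖) • (0 : V) + (δ / ‖a‖) • a = δ • u := by
    rw [smul_zero, zero_add, hu, smul_smul, div_eq_mul_inv]
  rw [h8, smul_eq_mul, smul_eq_mul] at h7
  have h9 : δ / ‖a‖ * (ψ 0 + c * δ / 4 * ‖a‖) ≤ δ / ‖a‖ * ψ a := by
    have : δ / ‖a‖ * (c * δ / 4 * ‖a‖) = c * δ / 4 * δ := by field_simp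
    nlinarith
  exact le_of_mul_le_mul_left h9 (by positivity)

end Pool.Agent.Lib.RA
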