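import Pool.Agent.Lib.HS32.MAll

/-! Integration by parts against a divergence free matrix field, in coordinates. -/

open scoped Classical Topology ENNReal ContDiff ComplexOrder Matrix
open Set MeasureTheory Complex Metric Filter

set_option linter.unusedVariables false

noncomputable section

namespace Pool.Agent.Lib.RA

open Pool.Agent.Lib.SV (E)
open Pool.Agent.Lib.HS32

/-- The matrix field `A` is smooth and divergence free at `z`. -/
structure DvF {n : ℕ} (A : E n → Mat n) (z : E n) : Prop where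
  sm : SmM A z
  div : ∀ a, ∑ j, dM j A z j a = 0
  divb : ∀ a, ∑ i, dMb i A z a i = 0

/-- The matrix of the `(0,1)` derivatives of the components of `W`. -/
def dW {n : ℕ} (W : E n → E n) (z : E n) : Mat n := Matrix.of fun i j => dzb i (fun w => W w j) z

/-- Integration by parts on an open set of the model space. -/
def St_GIBE : Prop := ∀ (n : ℕ) (O K : Set (E n)) (A : E n → Mat n), IsOpen O → IsCompact K →
  K ⊆ O → (∀ z ∈ O, DvF A z) →
  (∀ W : E n → E n, (∀ z ∈ O, ContDiffAt ℝ ∞ W z) → (∀ z ∈ O, z ∉ K → W z = 0) →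
    IntegrableOn (fun z => (A z * dW W z).trace) O ∧ ∫ z in O, (A z * dW W z).trace = 0) ∧
  ∀ ψ w : E n → ℂ, (∀ z ∈ O, ContDiffAt ℝ ∞ ψ z) → (∀ z ∈ O, ContDiffAt ℝ ∞ w z) →
    (∀ z ∈ O, z ∉ K → (∀ᶠ y in 𝓝 z, ψ y = 0) ∨ ∀ᶠ y in 𝓝 z, w y = 0) →
    IntegrableOn (fun z => ψ z * (A z * hess w z).trace) O ∧
    IntegrableOn (fun z => (A z * dd w ψ z).trace) O ∧
    IntegrableOn (fun z => w z * (A z * hess ψ z).trace) O ∧
    ∫ z in O, ψ z * (A z * hess w z).trace = -∫ z in O, (A z * dd w ψ z).trace ∧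
    ∫ z in O, ψ z * (A z * hess w z).trace = ∫ z in O, w z * (A z * hess ψ z).trace

namespace GIBE

variable {n : ℕ} {O K : Set (E n)} {A : E n → Mat n} {z : E n}

theorem tr_eq (A T : Mat n) : (A * T).trace = ∑ j, ∑ i, A j i * T i j := by
  simp only [Matrix.trace, Matrix.diag_apply, Matrix.mul_apply]

/-- For a Hermitian field one divergence is enough. -/
theorem of_herm (hA : SmM A z) (hH : ∀ᶠ w in 𝓝 z, (A w).IsHermitian)
    (h0 : ∀ a, ∑ j, dM j A z j a = 0) : DvF A z := by
  refine ⟨hA, h0, fun j => ?_⟩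
  have h : ∀ i, dMb i A z j i = star (dM i A z i j) := fun i => by
    rw [dM_apply, ← dzb_star (hA.diff i j)]
    exact dzb_congr (hH.mono fun w hw => (hw.apply j i).symm)
  simp only [h, ← star_sum, h0 j, star_zero]

theorem intK {F : Type} [NormedAddCommGroup F] {f : E n → F} (hO : IsOpen O) (hK : IsCompact K)
    (hs : K ⊆ O) (hf : ∀ z ∈ O, ContinuousAt f z) (h0 : ∀ z ∈ O, z ∉ K → f z = 0) :
    IntegrableOn f O :=
  (ContinuousOn.integrableOn_compact hK fun z hz =>
    (hf z (hs hz)).continuousWithinAt).of_forall_sdiff_eq_zero hO.measurableSet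
      fun z hz => h0 z hz.1 hz.2

theorem ev0 {F : Type} [Zero F] {f : E n → F} (hO : IsOpen O) (hK : IsCompact K)
    (h0 : ∀ z ∈ O, z ∉ K → f z = 0) (hz : z ∈ O) (hz' : z ∉ K) : ∀ᶠ y in 𝓝 z, f y = 0 := by
  filter_upwards [hO.mem_nhds hz, hK.isClosed.isOpen_compl.mem_nhds hz'] with y h1 h2
  exact h0 y h1 h2

theorem int2 (hO : IsOpen O) (hK : IsCompact K) (hs : K ⊆ O) (hA : ∀ z ∈ O, DvF A z)
    {W : E n → E n} (hW : ∀ z ∈ O, ContDiffAt ℝ ∞ W z) (h0 : ∀ z ∈ O, z ∉ K → W z = 0) :
    IntegrableOn (fun z => (A z * dW W z).trace) O ∧ ∫ z in O, (A z * dW W z).trace = 0 := by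
  have hI := fun i => mIBPE n O K (fun w => ∑ j, A w j i * W w j) hO hK hs
    (fun z hz => ContDiffAt.sum fun j _ => ((hA z hz).sm j i).mul (contDiffAt_pi.1 (hW z hz) j))
    (fun z hz hz' => by simp [h0 z hz hz']) i
  have e : EqOn (fun z => ∑ i, dzb i (fun w => ∑ j, A w j i * W w j) z)
      (fun z => (A z * dW W z).trace) O := fun z hz => by
    have h1 := fun j => cd_diff (contDiffAt_pi.1 (hW z hz) j)
    have h2 := (hA z hz).sm.diff
    have h3 : ∀ i, dzb i (fun w => ∑ j, A w j i * W w j) z =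
        ∑ j, (dMb i A z j i * W z j + A z j i * dW W z i j) := fun i => by
      rw [dzb_sum fun j _ => (h2 j i).fun_mul (h1 j)]
      exact Finset.sum_congr rfl fun j _ => dzb_mul (h2 j i) (h1 j)
    simp only [h3, tr_eq]
    rw [Finset.sum_comm]
    refine Finset.sum_congr rfl fun j _ => ?_
    rw [Finset.sum_add_distrib, ← Finset.sum_mul, (hA z hz).divb, zero_mul, zero_add]
  refine ⟨IntegrableOn.congr_fun (integrable_finsetSum (μ := volume.restrict O) _
    fun i _ => (hI i).2.1) e hO.measurableSet, ?_⟩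
  rw [← setIntegral_congr_fun hO.measurableSet e, integral_finsetSum _ fun i _ => (hI i).2.1]
  exact Finset.sum_eq_zero fun i _ => (hI i).2.2.2

theorem int1 (hO : IsOpen O) (hK : IsCompact K) (hs : K ⊆ O) (hA : ∀ z ∈ O, DvF A z)
    {V : E n → E n} (hV : ∀ z ∈ O, ContDiffAt ℝ ∞ V z) (h0 : ∀ z ∈ O, z ∉ K → V z = 0) :
    ∫ z in O, ∑ j, ∑ i, A z j i * dz j (fun w => V w i) z = 0 := by
  have hI := fun j => mIBPE n O K (fun w => ∑ i, A w j i * V w i) hO hK hs
    (fun z hz => ContDiffAt.sum fun i _ => ((hA z hz).sm j i).mul (contDiffAt_pi.1 (hV z hz) i))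
    (fun z hz hz' => by simp [h0 z hz hz']) j
  have e : EqOn (fun z => ∑ j, dz j (fun w => ∑ i, A w j i * V w i) z)
      (fun z => ∑ j, ∑ i, A z j i * dz j (fun w => V w i) z) O := fun z hz => by
    have h1 := fun j => cd_diff (contDiffAt_pi.1 (hV z hz) j)
    have h2 := (hA z hz).sm.diff
    have h3 : ∀ j, dz j (fun w => ∑ i, A w j i * V w i) z =
        ∑ i, (dM j A z j i * V z i + A z j i * dz j (fun w => V w i) z) := fun j => by
      rw [dz_sum fun i _ => (h2 j i).fun_mul (h1 i)]
      exact Finset.sum_congr rfl fun i _ => dz_mul (h2 j i) (h1 i)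
    simp only [h3, Finset.sum_add_distrib]
    rw [Finset.sum_comm]
    simp only [← Finset.sum_mul, (hA z hz).div, zero_mul, Finset.sum_const_zero, zero_add]
  rw [← setIntegral_congr_fun hO.measurableSet e, integral_finsetSum _ fun j _ => (hI j).1]
  exact Finset.sum_eq_zero fun j _ => (hI j).2.2.1

theorem dW_smul {f : E n → ℂ} {W : E n → E n} (hf : DifferentiableAt ℝ f z)
    (hW : DifferentiableAt ℝ W z) (A : Mat n) : (A * dW (fun w => f w • W w) z).trace =
      W z ⬝ᵥ A *ᵥ (fun i => dzb i f z) + f z * (A * dW W z).trace := by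
  simp only [tr_eq, dW, Matrix.of_apply, Pi.smul_apply, smul_eq_mul,
    fun i j => dzb_mul (j := i) hf (differentiableAt_pi.1 hW j), dotProduct, Matrix.mulVec,
    Finset.mul_sum, ← Finset.sum_add_distrib]
  exact Finset.sum_congr rfl fun j _ => Finset.sum_congr rfl fun i _ => by ring

theorem hess_ev0 {f : E n → ℂ} (h : ∀ᶠ y in 𝓝 z, f y = 0) : hess f z = 0 := by
  rw [hess_congr (g := fun _ => 0) h, BLAP.hess_const]

theorem dz_ev0 {f : E n → ℂ} (h : ∀ᶠ y in 𝓝 z, f y = 0) (j : Fin n) : dz j f z = 0 := by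
  rw [dz_congr (g := fun _ => 0) h, dz_const]

theorem dzb_ev0 {f : E n → ℂ} (h : ∀ᶠ y in 𝓝 z, f y = 0) (j : Fin n) : dzb j f z = 0 := by
  rw [dzb_congr (g := fun _ => 0) h, dzb_const]

end GIBE

open GIBE in
theorem st_GIBE : St_GIBE := by
  intro n O K A hO hK hs hA
  refine ⟨fun W hW h0 => int2 hO hK hs hA hW h0, fun ψ w hψ hw h0 => ?_⟩
  have i1 : IntegrableOn (fun z => ψ z * (A z * hess w z).trace) O :=
    intK hO hK hs (fun z hz =>
      ((hψ z hz).mul ((hA z hz).sm.mul (smM_hess (hw z hz))).trace).continuousAt) fun z hz hz' => by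
      rcases h0 z hz hz' with h | h
      · simp [h.self_of_nhds]
      · simp [hess_ev0 h]
  have i2 : IntegrableOn (fun z => (A z * dd w ψ z).trace) O :=
    intK hO hK hs (fun z hz =>
      ((hA z hz).sm.mul (smM_dd (hw z hz) (hψ z hz))).trace.continuousAt) fun z hz hz' => by
      rcases h0 z hz hz' with h | h
      · simp [tr_eq, dz_ev0 h]
      · simp [tr_eq, dzb_ev0 h]
  have i3 : IntegrableOn (fun z => w z * (A z * hess ψ z).trace) O :=
    intK hO hK hs (fun z hz =>
      ((hw z hz).mul ((hA z hz).sm.mul (smM_hess (hψ z hz))).trace).continuousAt) fun z hz hz' => by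
      rcases h0 z hz hz' with h | h
      · simp [hess_ev0 h]
      · simp [h.self_of_nhds]
  have a1 := int1 hO hK hs hA (V := fun z i => ψ z * dzb i w z)
    (fun z hz => contDiffAt_pi.2 fun i => (hψ z hz).mul (cd_dzb (hw z hz) i)) fun z hz hz' => by
      funext i
      rcases h0 z hz hz' with h | h
      · simp [h.self_of_nhds]
      · simp [dzb_ev0 h]
  have a2 := (int2 hO hK hs hA (W := fun z => w z • fun j => dz j ψ z)
    (fun z hz => (hw z hz).smul (contDiffAt_pi.2 fun j => cd_dz (hψ z hz) j)) fun z hz hz' => by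
      funext j
      rcases h0 z hz hz' with h | h
      · simp [dz_ev0 h]
      · simp [h.self_of_nhds]).2
  rw [setIntegral_congr_fun hO.measurableSet
    (g := fun z => ψ z * (A z * hess w z).trace + (A z * dd w ψ z).trace) fun z hz => by
      simp only [tr_eq, fun i j => dz_mul (j := j) (cd_diff (hψ z hz))
        (cd_diff (cd_dzb (hw z hz) i)), dz_dzb (hw z hz), hess_apply, dd_apply, Finset.mul_sum,
        ← Finset.sum_add_distrib]
      exact Finset.sum_congr rfl fun j _ => Finset.sum_congr rfl fun i _ => by ring,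
    integral_add i1 i2] at a1
  rw [setIntegral_congr_fun hO.measurableSet
    (g := fun z => (A z * dd w ψ z).trace + w z * (A z * hess ψ z).trace) fun z hz => by
      beta_reduce
      rw [dW_smul (cd_diff (hw z hz)) (cd_diff (contDiffAt_pi.2 fun j => cd_dz (hψ z hz) j))]
      congr 1
      simp only [tr_eq, dd_apply, dotProduct, Matrix.mulVec, Finset.mul_sum]
      exact Finset.sum_congr rfl fun j _ => Finset.sum_congr rfl fun i _ => by ring,
    integral_add i2 i3] at a2
  exact ⟨i1, i2, i3, by linear_combination a1, by linear_combination a1 - a2⟩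

end Pool.Agent.Lib.RA
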