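import Pool.Agent.Lib.HS32.B_PSH
import Pool.Agent.Lib.SV.Defs

/-! Growth of the averages of a plurisubharmonic function, bounded by the mass of the Laplacian. -/

open scoped Classical Topology ENNReal ContDiff ComplexOrder Matrix
open Set MeasureTheory Complex Metric Filter

noncomputable section

namespace Pool.Agent.Lib.RA.Jen

open Pool.Agent.Lib.SV (E nsq)
open Pool.Agent.Lib.HS32 Pool.Agent.Lib.HS66

variable {n : ℕ}

theorem sq_le_nsq (v : E n) : ‖v‖ ^ 2 ≤ nsq v := by
  have h0 : 0 ≤ nsq v := Finset.sum_nonneg fun _ _ => normSq_nonneg _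
  have h1 : ‖v‖ ≤ √(nsq v) := (pi_norm_le_iff_of_nonneg (Real.sqrt_nonneg _)).2 fun j => by
    refine Real.le_sqrt_of_sq_le ?_
    rw [← normSq_eq_norm_sq]
    exact Finset.single_le_sum (f := fun j => normSq (v j)) (fun _ _ => normSq_nonneg _)
      (Finset.mem_univ j)
  calc ‖v‖ ^ 2 ≤ √(nsq v) ^ 2 := pow_le_pow_left₀ (norm_nonneg _) h1 2
    _ = nsq v := Real.sq_sqrt h0

theorem nsq_nn (v : E n) : 0 ≤ nsq v := Finset.sum_nonneg fun _ _ => normSq_nonneg _

theorem nsq_cont : Continuous (nsq : E n → ℝ) := by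
  unfold nsq
  fun_prop

theorem nsq_add_le (a b : E n) : nsq (a + b) ≤ 2 * nsq a + 2 * nsq b := by
  simp only [nsq, Finset.mul_sum, ← Finset.sum_add_distrib]
  refine Finset.sum_le_sum fun j _ => ?_
  simp only [Pi.add_apply, normSq_apply, add_re, add_im]
  nlinarith [sq_nonneg ((a j).re - (b j).re), sq_nonneg ((a j).im - (b j).im)]

/-- The radial kernel. -/
def kk (r : ℝ) (t : E n) : ℝ := max (r ^ 2 - nsq t) 0

theorem kk_cont (r : ℝ) : Continuous (kk r : E n → ℝ) :=
  (continuous_const.sub nsq_cont).max continuous_const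

theorem kk_nn (r : ℝ) (t : E n) : 0 ≤ kk r t := le_max_right _ _

theorem kk_le (r : ℝ) (t : E n) : kk r t ≤ r ^ 2 :=
  max_le (by linarith [nsq_nn t]) (sq_nonneg r)

theorem kk_lt {r : ℝ} {t : E n} (h : kk r t ≠ 0) : nsq t < r ^ 2 := by
  by_contra h'
  exact h (max_eq_right (by linarith [not_lt.1 h']))

theorem kk_supp {r : ℝ} (hr : 0 < r) {t : E n} (h : kk r t ≠ 0) : ‖t‖ ≤ r :=
  le_of_sq_le_sq ((sq_le_nsq t).trans (kk_lt h).le) hr.le

theorem kk_inv (r : ℝ) (u : ℂ) (t : E n) (hu : ‖u‖ = 1) : kk r (u • t) = kk r t := by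
  have : normSq u = 1 := by rw [normSq_eq_norm_sq, hu, one_pow]
  simp [kk, nsq, this]

theorem kk_neg (r : ℝ) (t : E n) : kk r (-t) = kk r t := by simp [kk, nsq]

theorem kk_cpt {r : ℝ} (hr : 0 < r) : HasCompactSupport (kk r : E n → ℝ) :=
  HasCompactSupport.intro (isCompact_closedBall 0 r) fun t ht => by
    by_contra h
    exact ht (mem_closedBall_zero_iff.2 (kk_supp hr h))

theorem kk_pos {r : ℝ} (hr : 0 < r) : 0 < ∫ t : E n, kk r t :=
  (kk_cont r).integral_pos_of_hasCompactSupport_nonneg_nonzero (x := 0) (kk_cpt hr) (kk_nn r)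
    (by simp [kk, nsq, hr.ne', sq_nonneg])

/-- The normalized kernel. -/
def gk (r : ℝ) (t : E n) : ℝ := (∫ t : E n, kk r t)⁻¹ * kk r t

theorem ker_gk {r : ℝ} (hr : 0 < r) : Ker (gk r : E n → ℝ) r where
  cont := continuous_const.mul (kk_cont r)
  nn := fun t => mul_nonneg (inv_pos.2 (kk_pos hr)).le (kk_nn r t)
  supp := fun t ht => kk_supp hr (right_ne_zero_of_mul ht)
  inv := fun u t hu => by simp only [gk, kk_inv r u t hu]
  int := by
    simp only [gk]
    rw [integral_const_mul, inv_mul_cancel₀ (kk_pos hr).ne']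

theorem der_sq (c x : ℝ) :
    HasDerivAt (fun x : ℝ => max (c - x) 0 ^ 2) (-(2 * max (c - x) 0)) x := by
  rw [hasDerivAt_iff_isLittleO]
  have h1 : (fun y : ℝ => max (c - y) 0 ^ 2 - max (c - x) 0 ^ 2 -
      (y - x) • -(2 * max (c - x) 0)) =O[𝓝 x] fun y => ‖y - x‖ ^ 2 := by
    refine Asymptotics.IsBigO.of_bound 1 (.of_forall fun y => ?_)
    rw [one_mul, norm_pow, norm_norm, Real.norm_eq_abs, Real.norm_eq_abs, sq_abs, smul_eq_mul,
      abs_le]
    rcases le_total (c - y) 0 with h | h <;> rcases le_total (c - x) 0 with h' | h' <;>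
      simp only [max_eq_left, max_eq_right, h, h'] <;> constructor <;> nlinarith [sq_nonneg (y - x)]
  exact h1.trans_isLittleO (Asymptotics.isLittleO_pow_sub_sub x one_lt_two)

/-- The real scalar product with a fixed vector. -/
def ip (y : E n) : E n →L[ℝ] ℝ :=
  ∑ j, ((y j).re • reCLM.comp (ContinuousLinearMap.proj j) +
    (y j).im • imCLM.comp (ContinuousLinearMap.proj j))

theorem ip_one (y : E n) (j : Fin n) : ip y (Pi.single j 1) = (y j).re := by
  simp [ip, Pi.single_apply, apply_ite]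

theorem ip_I (y : E n) (j : Fin n) : ip y (Pi.single j I) = (y j).im := by
  simp [ip, Pi.single_apply, apply_ite]

theorem der_nsq (y : E n) : HasFDerivAt (nsq : E n → ℝ) ((2 : ℝ) • ip y) y := by
  have h : ∀ j, HasFDerivAt (fun t : E n => normSq (t j))
      ((2 : ℝ) • ((y j).re • reCLM.comp (ContinuousLinearMap.proj j) +
        (y j).im • imCLM.comp (ContinuousLinearMap.proj j) : E n →L[ℝ] ℝ)) y := fun j => by
    have h1 := (reCLM.comp (ContinuousLinearMap.proj (R := ℝ) (φ := fun _ : Fin n => ℂ) j)).hasFDerivAt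
      (x := y)
    have h2 := (imCLM.comp (ContinuousLinearMap.proj (R := ℝ) (φ := fun _ : Fin n => ℂ) j)).hasFDerivAt
      (x := y)
    refine ((h1.mul h1).add (h2.mul h2)).congr_fderiv ?_
    ext v
    simp
    ring
  have := HasFDerivAt.fun_sum (u := Finset.univ) fun j _ => h j
  rwa [← Finset.smul_sum] at this

theorem der_kk (r : ℝ) (y : E n) :
    HasFDerivAt (fun t : E n => kk r t ^ 2) ((-(4 * kk r y)) • ip y) y := by
  refine ((der_sq (r ^ 2) (nsq y)).comp_hasFDerivAt y (der_nsq y)).congr_fderiv ?_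
  rw [smul_smul]
  congr 1
  simp only [kk]
  ring

theorem clm_eq (L : E n →L[ℝ] ℝ) (w : E n) :
    L w = ∑ j, ((w j).re * L (Pi.single j 1) + (w j).im * L (Pi.single j I)) := by
  have h : w = ∑ j, ((w j).re • (Pi.single j 1 : E n) + (w j).im • (Pi.single j I : E n)) := by
    ext k
    simp only [Finset.sum_apply, Pi.add_apply, Pi.smul_apply, Pi.single_apply]
    rw [Finset.sum_eq_single k]
    · simp
    · intro b _ hb
      simp [hb.symm]
    · simp
  conv_lhs => rw [h]
  simp only [map_sum, map_add, map_smul, smul_eq_mul]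

theorem ibp1 {r : ℝ} (hr : 0 < r) {W : E n → ℝ} (hW : ContDiff ℝ 2 W) (v : E n) :
    ∫ t, kk r t ^ 2 * fderiv ℝ (fderiv ℝ W) t v v =
      ∫ t, 4 * (kk r t * (ip t v * fderiv ℝ W t v)) := by
  have h1 : ContDiff ℝ 1 (fderiv ℝ W) := hW.fderiv_right (m := 1) (by norm_num)
  have hD := h1.continuous
  have hD2 := h1.continuous_fderiv one_ne_zero
  have hk := kk_cont (n := n) r
  have hip : Continuous fun t : E n => ip t v := by
    simp only [ip, ContinuousLinearMap.sum_apply, ContinuousLinearMap.add_apply,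
      ContinuousLinearMap.smul_apply, smul_eq_mul]
    fun_prop
  have e1 : ∀ t, fderiv ℝ (fun x => fderiv ℝ W x v) t v = fderiv ℝ (fderiv ℝ W) t v v := fun t => by
    rw [fderiv_clm_apply (h1.differentiable one_ne_zero t) (differentiableAt_const v)]
    simp
  have e2 : ∀ t : E n, fderiv ℝ (fun t : E n => kk r t ^ 2) t v = -(4 * kk r t) * ip t v :=
    fun t => by rw [(der_kk r t).fderiv]; simp
  have hc : ∀ F : E n → ℝ, Continuous F → Integrable fun t => kk r t * F t := fun F hF =>
    (hk.mul hF).integrable_of_hasCompactSupport (kk_cpt hr).mul_right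
  have key := integral_mul_fderiv_eq_neg_fderiv_mul_of_integrable (μ := volume)
    (f := fun t : E n => kk r t ^ 2) (g := fun x => fderiv ℝ W x v) (v := v)
    (by
      simp only [e2]
      refine (hc (fun t => -(4 * (ip t v * fderiv ℝ W t v))) (by fun_prop)).congr
        (.of_forall fun t => ?_)
      ring)
    (by
      simp only [e1]
      refine (hc (fun t => kk r t * fderiv ℝ (fderiv ℝ W) t v v) (by fun_prop)).congr
        (.of_forall fun t => ?_)
      ring)
    (by
      refine (hc (fun t => kk r t * fderiv ℝ W t v) (by fun_prop)).congr (.of_forall fun t => ?_)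
      ring)
    (fun t _ => (der_kk r t).differentiableAt)
    (fun t _ => (h1.differentiable one_ne_zero t).clm_apply (differentiableAt_const v))
  simp only [e1, e2] at key
  rw [key, ← integral_neg]
  refine integral_congr_ae (.of_forall fun t => ?_)
  ring

theorem ibp {r : ℝ} (hr : 0 < r) {W : E n → ℝ} (hW : ContDiff ℝ 2 W) :
    4 * ∫ t, kk r t * fderiv ℝ W t t = ∫ t, kk r t ^ 2 * ∑ j, lv W t (Pi.single j 1) := by
  have h1 : ContDiff ℝ 1 (fderiv ℝ W) := hW.fderiv_right (m := 1) (by norm_num)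
  have hD := h1.continuous
  have hD2 := h1.continuous_fderiv one_ne_zero
  have hk := kk_cont (n := n) r
  have hc : ∀ F : E n → ℝ, Continuous F → Integrable fun t => kk r t * F t := fun F hF =>
    (hk.mul hF).integrable_of_hasCompactSupport (kk_cpt hr).mul_right
  have hc2 : ∀ v, Integrable fun t => kk r t ^ 2 * fderiv ℝ (fderiv ℝ W) t v v := fun v =>
    (hc (fun t => kk r t * fderiv ℝ (fderiv ℝ W) t v v) (by fun_prop)).congr
      (.of_forall fun t => by ring)
  have eI : ∀ j : Fin n, I • (Pi.single j 1 : E n) = Pi.single j I := fun j => by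
    ext k
    simp [Pi.single_apply]
  have a1 : ∀ j : Fin n, Integrable fun t : E n =>
      4 * (kk r t * ((t j).re * fderiv ℝ W t (Pi.single j 1))) := fun j =>
    (hc (fun t => (t j).re * fderiv ℝ W t (Pi.single j 1)) (by fun_prop)).const_mul 4
  have a2 : ∀ j : Fin n, Integrable fun t : E n =>
      4 * (kk r t * ((t j).im * fderiv ℝ W t (Pi.single j I))) := fun j =>
    (hc (fun t => (t j).im * fderiv ℝ W t (Pi.single j I)) (by fun_prop)).const_mul 4
  simp only [lv, eI, Finset.mul_sum, mul_add]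
  rw [integral_finsetSum _ fun j _ => (hc2 _).fun_add (hc2 _)]
  simp only [integral_add (hc2 _) (hc2 _), ibp1 hr hW, ip_one, ip_I, ← integral_add (a1 _) (a2 _)]
  rw [← integral_const_mul, ← integral_finsetSum _ fun j _ => (a1 j).fun_add (a2 j)]
  refine integral_congr_ae (.of_forall fun t => ?_)
  simp only
  rw [clm_eq (fderiv ℝ W t) t, Finset.mul_sum, Finset.mul_sum]
  exact Finset.sum_congr rfl fun j _ => by ring

theorem tr_lv {w : E n → ℝ} {z : E n} (hw : ContDiffAt ℝ ∞ w z) :
    ∑ j, lv w z (Pi.single j 1) = 4 * (hess (fun y => (w y : ℂ)) z).trace.re := by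
  rw [Matrix.trace, re_sum, Finset.mul_sum]
  refine Finset.sum_congr rfl fun j _ => ?_
  have h := congrArg re (BPSH.hess_lv hw (Pi.single j 1))
  rw [ofReal_re] at h
  have h2 : star (Pi.single j 1 : E n) = Pi.single j 1 := by
    ext k
    simp [Pi.single_apply, apply_ite]
  rw [h2, Matrix.mulVec_single_one, single_one_dotProduct] at h
  simp only [Matrix.col_apply] at h
  simp only [Matrix.diag_apply]
  linarith

theorem lv_nn {w : E n → ℝ} {z : E n} (hw : ContDiffAt ℝ ∞ w z)
    (h : (hess (fun y => (w y : ℂ)) z).PosSemidef) (v : E n) : 0 ≤ lv w z v := by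
  have h1 := (Complex.le_def.1 (h.dotProduct_mulVec_nonneg v)).1
  rw [BPSH.hess_lv hw, ofReal_re, zero_re] at h1
  linarith

theorem cut {w : E n → ℝ} {ρ : ℝ} (hρ : 0 < ρ) (hw : ∀ z ∈ ball (0 : E n) (2 * ρ), ContDiffAt ℝ ∞ w z) :
    ∃ W : E n → ℝ, ContDiff ℝ ∞ W ∧ ∀ z ∈ ball (0 : E n) ρ, W =ᶠ[𝓝 z] w := by
  let χ : ContDiffBump (0 : E n) := ⟨ρ, 3 / 2 * ρ, hρ, by linarith⟩
  refine ⟨fun y => χ y * w y, contDiff_iff_contDiffAt.2 fun y => ?_, fun z hz => ?_⟩
  · by_cases hy : y ∈ closedBall (0 : E n) (3 / 2 * ρ)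
    · exact χ.contDiffAt.mul (hw y (closedBall_subset_ball (by linarith) hy))
    · refine (contDiffAt_const (c := (0 : ℝ))).congr_of_eventuallyEq ?_
      filter_upwards [isClosed_closedBall.isOpen_compl.mem_nhds hy] with z hz
      rw [χ.zero_of_le_dist (le_of_lt (by simpa using hz)), zero_mul]
  · filter_upwards [isOpen_ball.mem_nhds hz] with y hy
    rw [χ.one_of_mem_closedBall (ball_subset_closedBall hy), one_mul]

/-- Growth of the averages. -/
theorem growth {r : ℝ} (hr : 0 < r) {W : E n → ℝ} (hW : ContDiff ℝ ∞ W)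
    (hp : ∀ z ∈ ball (0 : E n) (4 * r), (hess (fun y => (W y : ℂ)) z).PosSemidef) {A : ℝ}
    (hA : ∫ z in ball (0 : E n) (4 * r), (hess (fun y => (W y : ℂ)) z).trace.re ≤ A) {s : ℝ}
    (hs : 0 < s) (hs1 : s ≤ 1) :
    (∫ t, gk r t • W (0 - t)) - ∫ t, gk r t • W (0 - s • t) ≤
      (∫ t : E n, kk r t)⁻¹ * r ^ 4 * A * -Real.log s := by
  have hg := ker_gk (n := n) hr
  have hW2 : ContDiff ℝ 2 W := contDiff_iff_contDiffAt.2 fun z => cd_le hW.contDiffAt 2
  have h1' : ContDiff ℝ 1 (fderiv ℝ W) := hW2.fderiv_right (m := 1) (by norm_num)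
  have hW0 := hW.continuous
  have hD := h1'.continuous
  have hD2 := h1'.continuous_fderiv one_ne_zero
  obtain ⟨φ, φ', h1, h2, h3⟩ := hg.mono (w := W) (x := 0) le_rfl hr two_pos fun z hz =>
    ⟨hW2.contDiffAt, fun v => by
      simpa using lv_nn hW.contDiffAt (hp z (closedBall_subset_ball (by linarith) hz)) v⟩
  have hd : ∀ τ, 0 < τ → HasDerivAt (fun τ => φ τ - φ' 1 * Real.log τ)
      ((τ * φ' τ - 1 * φ' 1) / τ) τ := fun τ hτ => by
    refine ((h1 τ).fun_sub ((Real.hasDerivAt_log hτ.ne').const_mul (φ' 1))).congr_deriv ?_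
    field_simp
  have h12 : (1 : ℝ) ∈ Icc (0 : ℝ) 2 := ⟨zero_le_one, one_le_two⟩
  have ha : AntitoneOn (fun τ => φ τ - φ' 1 * Real.log τ) (Icc s 1) :=
    antitoneOn_of_deriv_nonpos (convex_Icc s 1)
      (fun τ hτ => (hd τ (hs.trans_le hτ.1)).continuousAt.continuousWithinAt)
      (fun τ hτ => (hd τ (hs.trans_le (interior_subset hτ).1)).differentiableAt.differentiableWithinAt)
      fun τ hτ => by
        have hτ' := interior_subset hτ
        have h0 := hs.trans_le hτ'.1
        rw [(hd τ h0).deriv]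
        exact div_nonpos_of_nonpos_of_nonneg
          (sub_nonpos.2 (h2 ⟨h0.le, hτ'.2.trans one_le_two⟩ h12 hτ'.2)) h0.le
  have h4 := ha (left_mem_Icc.2 hs1) (right_mem_Icc.2 hs1) hs1
  simp only [h3 s ⟨hs.le, hs1.trans one_le_two⟩, h3 1 h12, Real.log_one, mul_zero, sub_zero,
    one_smul, zero_mul, zero_div, add_zero] at h4
  have hl : ∀ (s : ℝ) (t : E n), HasDerivAt (fun s : ℝ => (0 : E n) - s • t) (-t) s := fun s t => by
    simpa using ((hasDerivAt_id s).smul_const t).const_sub (0 : E n)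
  have h5 := hg.hasDerivAt (Φ := fun s t => W (0 - s • t))
    (Φ' := fun s t => fderiv ℝ W (0 - s • t) (-t)) (fun s => by fun_prop) (by fun_prop)
    (fun s t => ((hW2.differentiable two_ne_zero) _).hasFDerivAt.comp_hasDerivAt s (hl s t)) 1
  have h6 : φ' 1 = ∫ t, gk r t • fderiv ℝ W (0 - (1 : ℝ) • t) (-t) := by
    refine (h1 1).unique (h5.congr_of_eventuallyEq ?_)
    filter_upwards [Icc_mem_nhds (show (0 : ℝ) < 1 from one_pos) (show (1 : ℝ) < 2 from one_lt_two)]
      with σ hσ
    rw [h3 σ hσ]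
    simp
  have h7 : φ' 1 = (∫ t : E n, kk r t)⁻¹ * ∫ t, kk r t * fderiv ℝ W t t := by
    rw [h6, ← integral_const_mul, ← integral_neg_eq_self]
    simp only [gk, kk_neg, one_smul, zero_sub, neg_neg, smul_eq_mul, mul_assoc]
  have hT : Continuous fun z => (hess (fun y => (W y : ℂ)) z).trace.re := by
    have : (fun z => (hess (fun y => (W y : ℂ)) z).trace.re) =
        fun z => (∑ j, lv W z (Pi.single j 1)) / 4 := by
      funext z
      rw [tr_lv hW.contDiffAt]
      ring
    rw [this]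
    unfold lv
    fun_prop
  have h8 : ∫ t, kk r t * fderiv ℝ W t t ≤ r ^ 4 * A := by
    have e := ibp hr hW2
    simp only [tr_lv hW.contDiffAt] at e
    have e2 : ∫ t, kk r t ^ 2 * (4 * (hess (fun y => (W y : ℂ)) t).trace.re) =
        4 * ∫ t in ball (0 : E n) (4 * r), kk r t ^ 2 * (hess (fun y => (W y : ℂ)) t).trace.re := by
      rw [setIntegral_eq_integral_of_forall_compl_eq_zero, ← integral_const_mul]
      · exact integral_congr_ae (.of_forall fun t => by ring)
      · intro t ht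
        have : kk r t = 0 := by
          by_contra h
          exact ht (mem_ball_zero_iff.2 (by linarith [kk_supp hr h]))
        simp [this]
    have hi : ∀ F : E n → ℝ, Continuous F → IntegrableOn F (ball (0 : E n) (4 * r)) := fun F hF =>
      (hF.continuousOn.integrableOn_compact (isCompact_closedBall 0 (4 * r))).mono_set
        ball_subset_closedBall
    have e3 := setIntegral_mono_on (hi _ (((kk_cont r).pow 2).mul hT)) ((hi _ hT).const_mul (r ^ 4))
      measurableSet_ball fun t ht => by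
        refine mul_le_mul_of_nonneg_right ?_ (Complex.le_def.1 (hp t ht).trace_nonneg).1
        calc kk r t ^ 2 ≤ (r ^ 2) ^ 2 := pow_le_pow_left₀ (kk_nn r t) (kk_le r t) 2
          _ = r ^ 4 := by ring
    rw [integral_const_mul] at e3
    have e4 := mul_le_mul_of_nonneg_left hA (show 0 ≤ r ^ 4 by positivity)
    simp only [Pi.mul_apply, Pi.pow_apply] at e3
    linarith
  have h9 : 0 ≤ -Real.log s := neg_nonneg.2 (Real.log_nonpos hs.le hs1)
  have h10 : φ' 1 ≤ (∫ t : E n, kk r t)⁻¹ * r ^ 4 * A := by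
    rw [h7, mul_assoc]
    exact mul_le_mul_of_nonneg_left h8 (inv_pos.2 (kk_pos hr)).le
  nlinarith [mul_le_mul_of_nonneg_right h10 h9]

/-- Lower bound for the average. -/
theorem lower {r : ℝ} (hr : 0 < r) : ∃ K : ℝ, 0 < K ∧ ∀ (W : E n → ℝ) (B : ℝ) (y : E n),
    ContDiff ℝ ∞ W → (∀ z ∈ ball (0 : E n) (4 * r), (hess (fun y => (W y : ℂ)) z).PosSemidef ∧
      W z ≤ B) → nsq y ≤ (r / 2) ^ 2 → B - ∫ t, gk r t • W (0 - t) ≤ K * (B - W y) := by
  have hr2 : 0 < 2 * r := by positivity
  have p1 := kk_pos (n := n) hr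
  have p2 := kk_pos (n := n) hr2
  refine ⟨(∫ t : E n, kk r t)⁻¹ * ∫ t : E n, kk (2 * r) t, by positivity,
    fun W B y hW hp hy => ?_⟩
  have hg := ker_gk (n := n) hr
  have hg2 := ker_gk (n := n) hr2
  have hW0 := hW.continuous
  have hy' : ‖y‖ ≤ r / 2 := le_of_sq_le_sq ((sq_le_nsq y).trans hy) (by positivity)
  have hm : ∀ z ∈ closedBall y (2 * r), z ∈ ball (0 : E n) (4 * r) := fun z hz => by
    rw [mem_ball_zero_iff]
    rw [mem_closedBall, dist_eq_norm] at hz
    linarith [norm_le_norm_add_norm_sub' z y]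
  have h1 := hg2.submean (w := W) (x := y) le_rfl hr2 fun z hz =>
    ⟨cd_le hW.contDiffAt 2, fun v => by
      simpa using lv_nn hW.contDiffAt (hp z (hm z hz)).1 v⟩
  have e : ∀ (g : E n → ℝ) (ρ : ℝ) (x : E n), Ker g ρ →
      B - ∫ t, g t • W (x - t) = ∫ t, g t • (B - W (x - t)) := fun g ρ x hg => by
    simp only [smul_sub]
    rw [integral_sub (hg.int_smul continuous_const) (hg.int_smul (by fun_prop)),
      integral_smul_const, hg.int, one_smul]
  have h2 : ∫ t, gk (2 * r) t • (B - W (y - t)) ≤ B - W y := by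
    rw [← e _ _ _ hg2]
    linarith
  rw [e _ _ _ hg]
  refine le_trans ?_ (mul_le_mul_of_nonneg_left h2 (by positivity))
  rw [← integral_add_left_eq_self (fun t => gk (2 * r) t • (B - W (y - t))) y, ← integral_const_mul]
  have hi : Integrable fun t => gk (2 * r) (y + t) • (B - W (y - (y + t))) :=
    (hg2.int_smul (f := fun t => B - W (y - t)) (by fun_prop)).comp_add_left y
  refine integral_mono (hg.int_smul (by fun_prop)) (hi.const_mul _) fun t => ?_
  simp only [gk, smul_eq_mul, sub_add_cancel_left, zero_sub]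
  have e1 : ((∫ t : E n, kk r t)⁻¹ * ∫ t : E n, kk (2 * r) t) *
      ((∫ t : E n, kk (2 * r) t)⁻¹ * kk (2 * r) (y + t) * (B - W (-t))) =
      (∫ t : E n, kk r t)⁻¹ * kk (2 * r) (y + t) * (B - W (-t)) := by
    field_simp
  rw [e1]
  by_cases h : kk (2 * r) (y + t) = 0
  · have : kk r t = 0 := by
      by_contra h'
      have h3 := kk_lt h'
      have h4 := nsq_add_le y t
      have h5 : (2 * r) ^ 2 - nsq (y + t) ≤ 0 := by
        have := le_max_left ((2 * r) ^ 2 - nsq (y + t)) 0
        rwa [show max ((2 * r) ^ 2 - nsq (y + t)) 0 = 0 from h] at this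
      nlinarith
    simp [h, this]
  · have h3 := kk_supp hr2 h
    have h4 : -t ∈ ball (0 : E n) (4 * r) := hm _ (by
      rw [mem_closedBall, dist_eq_norm, ← norm_neg]
      simpa using h3)
    refine mul_le_mul_of_nonneg_right (mul_le_mul_of_nonneg_left ?_ (by positivity))
      (sub_nonneg.2 (hp _ h4).2)
    by_cases h' : kk r t = 0
    · rw [h']
      exact kk_nn _ _
    · have h5 := kk_lt h'
      have h6 := nsq_add_le y t
      refine (kk_le r t).trans (le_trans ?_ (le_max_left _ _))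
      nlinarith

end Pool.Agent.Lib.RA.Jen
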