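import Pool.Agent.Lib.RA.T_CONN

/-! Harmonic functions of logarithmic growth near the zeros of a holomorphic function of one
variable: simple poles of the derivative, real residues, the mean value formula. -/

open scoped Classical
open Set Filter Topology Metric Complex Real

set_option linter.unusedVariables false

noncomputable section

namespace Pool.Agent.Lib.RA.LD

/-- The real differential of twice the real part of a function with complex derivative `t`. -/
def Dr (t : ℂ) : ℂ →L[ℝ] ℝ := (2 : ℝ) • reCLM.comp (ContinuousLinearMap.mul ℝ ℂ t)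

@[simp] theorem Dr_apply (t v : ℂ) : Dr t v = 2 * (t * v).re := by simp [Dr]

theorem hasF_re {F : ℂ → ℂ} {t x : ℂ} (h : HasDerivAt F t x) :
    HasFDerivAt (fun y => 2 * (F y).re) (Dr t) x := by
  have h1 := (reCLM.hasFDerivAt.comp x (h.hasFDerivAt.restrictScalars ℝ)).const_mul (2 : ℝ)
  refine h1.congr_fderiv (ContinuousLinearMap.ext fun v => ?_)
  simp [mul_comm]

theorem hasF_log {a x : ℂ} (h : x ≠ a) :
    HasFDerivAt (fun y => Real.log (normSq (y - a))) (Dr (x - a)⁻¹) x := by
  have h0 : x - a ≠ 0 := sub_ne_zero.2 h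
  have h1 : HasDerivAt (fun y => Complex.log ((y - a) / (x - a))) (x - a)⁻¹ x := by
    have h2 := (((hasDerivAt_id x).sub_const a).div_const (x - a)).clog
      (by simp [div_self h0])
    refine h2.congr_deriv ?_
    simp [div_self h0]
  refine ((hasF_re h1).add_const (Real.log (normSq (x - a)))).congr_of_eventuallyEq ?_
  filter_upwards [isOpen_ne.mem_nhds h] with y hy
  have h3 : y - a ≠ 0 := sub_ne_zero.2 hy
  rw [Complex.log_re, norm_div, Real.log_div (norm_ne_zero_iff.2 h3) (norm_ne_zero_iff.2 h0),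
    normSq_eq_norm_sq, normSq_eq_norm_sq, Real.log_pow, Real.log_pow]
  push_cast
  ring

/-- The gradient estimate. -/
theorem grad {g : ℂ → ℝ} {θ : ℂ → ℂ} {c : ℂ} {s M : ℝ} (hs : 0 < s) (hM : 0 < M)
    (h : ∀ x ∈ ball c s, DifferentiableAt ℂ θ x ∧ HasFDerivAt g (Dr (θ x)) x ∧ |g x| ≤ M) :
    ‖θ c‖ ≤ 8 * M / s := by
  have hθ : DifferentiableOn ℂ θ (ball c s) := fun x hx => (h x hx).1.differentiableWithinAt
  obtain ⟨F, hF0, hF⟩ := hθ.isExactOn_ball.with_val_at c 0
  have hd := fun x hx => (h x hx).2.1.sub (hasF_re (hF x hx))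
  obtain ⟨k, hk⟩ := isOpen_ball.exists_is_const_of_fderiv_eq_zero (𝕜 := ℝ)
    (convex_ball c s).isPreconnected (fun x hx => (hd x hx).differentiableAt.differentiableWithinAt)
    fun x hx => by rw [(hd x hx).fderiv, sub_self]; rfl
  have hm : ∀ y ∈ ball (0 : ℂ) s, c + y ∈ ball c s := fun y hy => by simpa using hy
  have hFd : DifferentiableOn ℂ (fun y => F (c + y)) (ball 0 s) := fun y hy =>
    ((hF _ (hm y hy)).differentiableAt.comp y (by fun_prop)).differentiableWithinAt
  have hb : ∀ y ∈ ball (0 : ℂ) (s / 2), ‖F (c + y)‖ ≤ 2 * M := fun y hy => by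
    have hy' := mem_ball_zero_iff.1 hy
    refine (borelCaratheodory_zero hM hFd (fun x hx => ?_) hs
      (ball_subset_ball (half_le_self hs.le) hy) (by simpa using hF0)).trans ?_
    · have h1 := hk _ (hm x hx)
      have h2 := hk c (mem_ball_self hs)
      simp only [Pi.sub_apply, hF0, zero_re] at h1 h2
      have h3 := abs_le.1 (h _ (hm x hx)).2.2
      have h4 := abs_le.1 (h c (mem_ball_self hs)).2.2
      show (F (c + x)).re ≤ M
      linarith
    · rw [div_le_iff₀ (by linarith)]
      nlinarith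
  have h5 := SV.H85.norm_fderiv_le (half_pos hs) (hFd.mono (ball_subset_ball (half_le_self hs.le)))
    hb
  have h6 : HasDerivAt (fun y => F (c + y)) (θ c) 0 := by
    have := hF c (mem_ball_self hs)
    rw [show c = c + 0 by simp] at this
    simpa using this.comp_const_add c 0
  rw [← norm_deriv_eq_norm_fderiv, h6.deriv] at h5
  exact h5.trans_eq (by field_simp; ring)

/-- Growth near a zero in terms of the distance to the zero. -/
theorem log_le {d : ℂ → ℂ} {a : ℂ} (hd : AnalyticAt ℂ d a) (h0 : ∀ᶠ x in 𝓝[≠] a, d x ≠ 0) :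
    ∃ K, 0 < K ∧ ∀ᶠ x in 𝓝[≠] a, 1 + |Real.log ‖d x‖| ≤ K * (1 + |Real.log ‖x - a‖|) := by
  have hne : ¬∀ᶠ x in 𝓝 a, d x = 0 := fun h =>
    ((h0.and (h.filter_mono nhdsWithin_le_nhds)).exists).elim fun x hx => hx.1 hx.2
  obtain ⟨m, u, hu, hu0, he⟩ := hd.exists_eventuallyEq_pow_smul_nonzero_iff.2 hne
  have hc : ContinuousAt (fun x => |Real.log ‖u x‖|) a :=
    (hu.continuousAt.norm.log (norm_ne_zero_iff.2 hu0)).abs
  refine ⟨m + 2 + |Real.log ‖u a‖|, by positivity, ?_⟩
  filter_upwards [eventually_nhdsWithin_of_eventually_nhds he, self_mem_nhdsWithin,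
    eventually_nhdsWithin_of_eventually_nhds (hc.eventually (gt_mem_nhds (lt_add_one _))),
    eventually_nhdsWithin_of_eventually_nhds (hu.continuousAt.eventually_ne hu0)] with x h1 h2 h3 h4
  rw [h1, norm_smul, norm_pow, Real.log_mul (pow_ne_zero _ (norm_ne_zero_iff.2 (sub_ne_zero.2 h2)))
    (norm_ne_zero_iff.2 h4), Real.log_pow]
  have h5 := abs_add_le ((m : ℝ) * Real.log ‖x - a‖) (Real.log ‖u x‖)
  rw [abs_mul, Nat.abs_cast] at h5
  have h6 := abs_nonneg (Real.log ‖x - a‖)
  have h7 := abs_nonneg (Real.log ‖u a‖)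
  have h8 : (0 : ℝ) ≤ m := Nat.cast_nonneg m
  nlinarith [mul_nonneg h7 h6]

/-- The derivative has a simple pole with real residue. -/
theorem residue {g : ℂ → ℝ} {θ : ℂ → ℂ} {a : ℂ} {K : ℝ} (hK : 0 < K)
    (h : ∀ᶠ x in 𝓝[≠] a, DifferentiableAt ℂ θ x ∧ HasFDerivAt g (Dr (θ x)) x ∧
      |g x| ≤ K * (1 + |Real.log ‖x - a‖|)) :
    ∃ (r : ℝ) (φ : ℂ → ℂ), (∀ᶠ x in 𝓝 a, DifferentiableAt ℂ φ x) ∧
      ∀ᶠ x in 𝓝[≠] a, θ x = r / (x - a) + φ x := by
  obtain ⟨s, hs, hb⟩ := Metric.eventually_nhds_iff_ball.1 (eventually_nhdsWithin_iff.1 h)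
  have hg : ∀ x ∈ ball a (s / 2), x ≠ a →
      ‖(x - a) * θ x‖ ≤ 16 * (K * (2 + |Real.log ‖x - a‖|)) := fun x hx hxa => by
    have h0 : 0 < ‖x - a‖ := norm_pos_iff.2 (sub_ne_zero.2 hxa)
    rw [mem_ball, dist_eq_norm] at hx
    have h1 := grad (g := g) (θ := θ) (c := x) (half_pos h0)
      (M := K * (2 + |Real.log ‖x - a‖|)) (by positivity) fun y hy => by
      rw [mem_ball, dist_eq_norm] at hy
      have h2 : ‖y - a‖ ≤ ‖y - x‖ + ‖x - a‖ := norm_sub_le_norm_sub_add_norm_sub y x a
      have h3 : ‖x - a‖ ≤ ‖y - x‖ + ‖y - a‖ := by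
        rw [norm_sub_rev y x]; exact norm_sub_le_norm_sub_add_norm_sub x y a
      have h4 : 0 < ‖y - a‖ := by linarith
      have h5 := hb y (by rw [mem_ball, dist_eq_norm]; linarith)
        (sub_ne_zero.1 (norm_pos_iff.1 h4))
      refine ⟨h5.1, h5.2.1, h5.2.2.trans (mul_le_mul_of_nonneg_left ?_ hK.le)⟩
      have h6 : Real.log ‖y - a‖ ≤ Real.log 2 + Real.log ‖x - a‖ := by
        rw [← Real.log_mul two_ne_zero h0.ne']
        exact Real.log_le_log h4 (by linarith)
      have h7 : Real.log ‖x - a‖ ≤ Real.log 2 + Real.log ‖y - a‖ := by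
        rw [← Real.log_mul two_ne_zero h4.ne']
        exact Real.log_le_log h0 (by linarith)
      have h8 := Real.log_two_lt_d9
      have h9 := le_abs_self (Real.log ‖x - a‖)
      have h10 := neg_abs_le (Real.log ‖x - a‖)
      have : |Real.log ‖y - a‖| ≤ 1 + |Real.log ‖x - a‖| := abs_le.2 ⟨by linarith, by linarith⟩
      linarith
    rw [norm_mul]
    refine (mul_le_mul_of_nonneg_left h1 h0.le).trans_eq ?_
    field_simp
    ring
  have hsn : ball a (s / 2) ∈ 𝓝 a := ball_mem_nhds a (half_pos hs)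
  have hsub : ball a (s / 2) ⊆ ball a s := ball_subset_ball (half_le_self hs.le)
  have hP := differentiableOn_update_limUnder_of_isLittleO (f := fun x => (x - a) * θ x) hsn
    (fun x hx => (((differentiableAt_id.sub_const a)).mul
      (hb x (hsub hx.1) hx.2).1).differentiableWithinAt) (by
      simp only [sub_self, zero_mul, sub_zero]
      refine Asymptotics.isLittleO_of_tendsto' ?_ ?_
      · filter_upwards [self_mem_nhdsWithin] with x hx h1
        exact absurd h1 (inv_ne_zero (sub_ne_zero.2 hx))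
      · have hc : Continuous fun x : ℂ =>
            16 * (K * (2 * ‖x - a‖ + |‖x - a‖ * Real.log ‖x - a‖|)) := by
          have := (Real.continuous_mul_log.comp (continuous_id.sub
            (continuous_const (y := a))).norm).abs
          exact continuous_const.mul (continuous_const.mul ((by fun_prop : Continuous
            fun x : ℂ => 2 * ‖x - a‖).add this))
        have ht := (hc.tendsto a).mono_left (nhdsWithin_le_nhds (s := {a}ᶜ))
        simp only [sub_self, norm_zero, mul_zero, zero_mul, abs_zero, add_zero] at ht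
        refine squeeze_zero_norm' ?_ ht
        filter_upwards [self_mem_nhdsWithin, eventually_nhdsWithin_of_eventually_nhds hsn]
          with x h1 h2
        rw [div_inv_eq_mul, norm_mul, abs_mul, abs_norm]
        refine (mul_le_mul_of_nonneg_right (hg x h2 h1) (norm_nonneg _)).trans_eq (by ring))
  set P := Function.update (fun x => (x - a) * θ x) a (limUnder (𝓝[≠] a) fun x => (x - a) * θ x)
  have hPe : ∀ x, x ≠ a → P x = (x - a) * θ x := fun x hx => Function.update_of_ne hx _ _
  have hre : (P a).im = 0 := by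
    have hε : 0 < s / 4 := by positivity
    have hcs : closedBall a (s / 4) ⊆ ball a (s / 2) := closedBall_subset_ball (by linarith)
    have hm : ∀ t, circleMap a (s / 4) t ∈ ball a (s / 2) := fun t =>
      hcs (circleMap_mem_closedBall a hε.le t)
    have hPc : Continuous fun t => P (circleMap a (s / 4) t) :=
      hP.continuousOn.comp_continuous (continuous_circleMap _ _) hm
    have h1 : ∀ t, HasDerivAt (fun t => g (circleMap a (s / 4) t))
        (-2 * (P (circleMap a (s / 4) t)).im) t := fun t => by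
      have h2 := (hb _ (hsub (hm t)) (circleMap_ne_center hε.ne')).2.1.comp_hasDerivAt t
        (hasDerivAt_circleMap a (s / 4) t)
      refine h2.congr_deriv ?_
      rw [hPe _ (circleMap_ne_center hε.ne'), circleMap_sub_center, Dr_apply, ← mul_assoc,
        mul_I_re, mul_comm (θ _)]
      ring
    have h3 := intervalIntegral.integral_eq_sub_of_hasDerivAt (a := 0) (b := 2 * π)
      (fun t _ => h1 t) ((continuous_const.mul (continuous_im.comp hPc)).intervalIntegrable _ _)
    have h4 : circleMap a (s / 4) (2 * π) = circleMap a (s / 4) 0 := by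
      simpa using periodic_circleMap a (s / 4) 0
    rw [h4, sub_self, intervalIntegral.integral_const_mul] at h3
    have h5 : circleAverage P a (s / 4) = P a := by
      refine DiffContOnCl.circleAverage (DifferentiableOn.diffContOnCl ?_)
      rw [abs_of_pos hε, closure_ball a hε.ne']
      exact hP.mono hcs
    have h6 := imCLM.intervalIntegral_comp_comm (μ := MeasureTheory.volume)
      (hPc.intervalIntegrable 0 (2 * π))
    simp only [imCLM_apply] at h6
    rw [← h5, circleAverage_def, smul_im, ← h6, (mul_eq_zero.1 h3).resolve_left (by norm_num),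
      smul_zero]
  refine ⟨(P a).re, dslope P a, ?_, ?_⟩
  · filter_upwards [isOpen_ball.eventually_mem (mem_ball_self (half_pos hs))] with x hx
    exact ((differentiableOn_dslope hsn).2 hP).differentiableAt (isOpen_ball.mem_nhds hx)
  · filter_upwards [self_mem_nhdsWithin] with x hx
    have h0 : x - a ≠ 0 := sub_ne_zero.2 hx
    have h1 : ((P a).re : ℂ) = P a := by
      apply Complex.ext <;> simp [hre]
    rw [dslope_of_ne _ hx, slope_def_field, h1, hPe x hx]
    field_simp
    ring

/-- Zeros are isolated when the function does not vanish on the unit circle. -/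
theorem isolated {d : ℂ → ℂ} {U : Set ℂ} (hU : IsOpen U) (hB : closedBall 0 1 ⊆ U)
    (hd : DifferentiableOn ℂ d U) (h1 : ∀ x ∈ sphere (0 : ℂ) 1, d x ≠ 0) {a : ℂ}
    (ha : a ∈ closedBall (0 : ℂ) 1) : ∀ᶠ x in 𝓝[≠] a, d x ≠ 0 := by
  have hA : AnalyticOnNhd ℂ d (closedBall 0 1) := (hd.analyticOnNhd hU).mono hB
  refine (hA a ha).eventually_eq_zero_or_eventually_ne_zero.resolve_left fun h => ?_
  exact h1 1 (by simp) (hA.eqOn_zero_of_preconnected_of_eventuallyEq_zero
    (convex_closedBall 0 1).isPreconnected ha h (by simp))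

/-- Partial fractions and the mean value formula. -/
theorem frac {g : ℂ → ℝ} {θ d : ℂ → ℂ} {U : Set ℂ} {C : ℝ} (hC : 0 < C) (hU : IsOpen U)
    (hB : closedBall 0 1 ⊆ U) (hd : DifferentiableOn ℂ d U)
    (h1 : ∀ x ∈ sphere (0 : ℂ) 1, d x ≠ 0)
    (h : ∀ x ∈ U, d x ≠ 0 → DifferentiableAt ℂ θ x ∧ HasFDerivAt g (Dr (θ x)) x ∧
      |g x| ≤ C * (1 + |Real.log ‖d x‖|)) :
    ∃ (S : Finset ℂ) (r : ℂ → ℝ) (ψ : ℂ → ℂ), (∀ a ∈ S, ‖a‖ < 1 ∧ d a = 0 ∧ r a ≠ 0) ∧
      DifferentiableOn ℂ ψ (closedBall 0 1) ∧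
      (∀ x, d x ≠ 0 → θ x = ∑ a ∈ S, r a / (x - a) + ψ x) ∧
      (d 0 ≠ 0 → g 0 = ∑ a ∈ S, r a * Real.log (normSq a) + circleAverage g 0 1) := by
  have hi := fun a ha => isolated hU hB hd h1 (a := a) ha
  have hfin : {a | a ∈ closedBall (0 : ℂ) 1 ∧ d a = 0}.Finite := by
    refine ((isCompact_closedBall (0 : ℂ) 1).of_isClosed_subset
      ((hd.continuousOn.mono hB).preimage_isClosed_of_isClosed isClosed_closedBall
        isClosed_singleton) inter_subset_left).finite (isDiscrete_iff_forall_mem_exists_isOpen.2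
      fun a ha => ?_)
    obtain ⟨V, hV, hVo, haV⟩ := _root_.eventually_nhds_iff.1
      (eventually_nhdsWithin_iff.1 (hi a ha.1))
    refine ⟨V, hVo, subset_antisymm (fun x hx => ?_) ?_⟩
    · by_contra hne
      exact hV x hx.1 hne hx.2.2
    · rintro x rfl
      exact ⟨haV, ha⟩
  have hr : ∀ a, ∃ (r : ℝ) (φ : ℂ → ℂ), a ∈ closedBall (0 : ℂ) 1 →
      (∀ᶠ x in 𝓝 a, DifferentiableAt ℂ φ x) ∧ ∀ᶠ x in 𝓝[≠] a, θ x = r / (x - a) + φ x := by
    intro a
    by_cases ha : a ∈ closedBall (0 : ℂ) 1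
    · obtain ⟨K, hK, hb⟩ := log_le (hd.analyticOnNhd hU a (hB ha)) (hi a ha)
      obtain ⟨r, φ, h2⟩ := residue (g := g) (θ := θ) (a := a) (mul_pos hC hK) (by
        filter_upwards [hb, hi a ha, eventually_nhdsWithin_of_eventually_nhds
          (hU.mem_nhds (hB ha))] with x h2 h3 h4
        refine ⟨(h x h4 h3).1, (h x h4 h3).2.1, (h x h4 h3).2.2.trans ?_⟩
        rw [mul_assoc]
        exact mul_le_mul_of_nonneg_left h2 hC.le)
      exact ⟨r, φ, fun _ => h2⟩
    · exact ⟨0, 0, fun h => absurd h ha⟩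
  choose r φ hr using hr
  set S := hfin.toFinset
  have hS : ∀ a, a ∈ S ↔ a ∈ closedBall (0 : ℂ) 1 ∧ d a = 0 := fun a => hfin.mem_toFinset
  set ψ : ℂ → ℂ := fun x => if x ∈ S then φ x x - ∑ b ∈ S.erase x, r b / (x - b)
    else θ x - ∑ b ∈ S, r b / (x - b) with hψ
  have hsum : ∀ (T : Finset ℂ) (x : ℂ), x ∉ T →
      DifferentiableAt ℂ (fun y => ∑ b ∈ T, (r b : ℂ) / (y - b)) x := fun T x hx =>
    DifferentiableAt.fun_sum fun b hb => (differentiableAt_const _).fun_div (by fun_prop)
      (sub_ne_zero.2 fun e => hx (e ▸ hb))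
  have hne : ∀ x, d x ≠ 0 → x ∉ S := fun x hx hs => hx ((hS x).1 hs).2
  have hψd : ∀ x ∈ U, (d x ≠ 0 ∨ x ∈ S) → DifferentiableAt ℂ ψ x := by
    rintro x hx (h2 | h2)
    · refine ((h x hx h2).1.fun_sub (hsum S x (hne x h2))).congr_of_eventuallyEq ?_
      filter_upwards [(hd.continuousOn.continuousAt (hU.mem_nhds hx)).eventually_ne h2] with y hy
      exact if_neg (hne y hy)
    · have h3 := ((hS x).1 h2).1
      refine ((hr x h3).1.self_of_nhds.fun_sub
        (hsum (S.erase x) x (Finset.notMem_erase x S))).congr_of_eventuallyEq ?_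
      filter_upwards [eventually_nhdsWithin_iff.1 ((hi x h3).and (hr x h3).2)] with y hy
      by_cases e : y = x
      · rw [e]; exact if_pos h2
      · refine (if_neg (hne y (hy e).1)).trans ?_
        rw [(hy e).2, ← Finset.add_sum_erase S _ h2]
        ring
  have hθ : ∀ x, d x ≠ 0 → θ x = ∑ a ∈ S, r a / (x - a) + ψ x := fun x hx => by
    simp only [hψ, if_neg (hne x hx)]
    ring
  have hlt : ∀ a ∈ S, ‖a‖ < 1 := fun a ha =>
    (mem_closedBall_zero_iff.1 ((hS a).1 ha).1).lt_of_ne fun e =>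
      h1 a (mem_sphere_zero_iff_norm.2 e) ((hS a).1 ha).2
  refine ⟨S.filter (r · ≠ 0), r, ψ, fun a ha => ?_, fun x hx => ?_, fun x hx => ?_, fun h0 => ?_⟩
  · rw [Finset.mem_filter] at ha
    exact ⟨hlt a ha.1, ((hS a).1 ha.1).2, ha.2⟩
  · refine (hψd x (hB hx) ?_).differentiableWithinAt
    by_cases e : d x = 0
    exacts [Or.inr ((hS x).2 ⟨hx, e⟩), Or.inl e]
  · rw [hθ x hx, Finset.sum_filter_of_ne (p := (r · ≠ 0)) fun a _ h2 e => h2 (by simp [e])]
  rw [Finset.sum_filter_of_ne (p := (r · ≠ 0)) fun a _ h2 e => h2 (by simp [e])]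
  obtain ⟨η, hη, hT⟩ := (isCompact_closedBall (0 : ℂ) 1).exists_thickening_subset_open
    (isOpen_interior (s := {x | x ∈ U ∧ (d x ≠ 0 ∨ x ∈ S)})) fun x hx => by
      rw [mem_interior_iff_mem_nhds]
      filter_upwards [hU.mem_nhds (hB hx), eventually_nhdsWithin_iff.1 (hi x hx)] with y h2 h3
      refine ⟨h2, ?_⟩
      by_cases e : d y = 0
      · have e2 : y = x := by_contra fun e2 => h3 e2 e
        exact Or.inr ((hS y).2 ⟨e2 ▸ hx, e⟩)
      · exact Or.inl e
  rw [thickening_closedBall hη zero_le_one] at hT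
  replace hT := hT.trans interior_subset
  have hcb : closedBall (0 : ℂ) 1 ⊆ ball 0 (η + 1) := closedBall_subset_ball (by linarith)
  obtain ⟨Ψ, hΨ⟩ := DifferentiableOn.isExactOn_ball (f := ψ) (c := 0) (r := η + 1)
    fun x hx => (hψd x (hT hx).1 (hT hx).2).differentiableWithinAt
  obtain ⟨hWo, hWc, -⟩ := st_CONN ℂ (ball 0 (η + 1)) d isOpen_ball
    (convex_ball _ _).isPreconnected (hd.mono fun x hx => (hT hx).1)
    ⟨0, mem_ball_self (by linarith), h0⟩
  have hD : ∀ x ∈ {z | z ∈ ball (0 : ℂ) (η + 1) ∧ d z ≠ 0}, HasFDerivAt (fun y => g y -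
      ∑ a ∈ S, r a * Real.log (normSq (y - a)) - 2 * (Ψ y).re) (0 : ℂ →L[ℝ] ℝ) x := fun x hx => by
    refine (((h x (hT hx.1).1 hx.2).2.1.fun_sub (HasFDerivAt.fun_sum fun a ha =>
      (hasF_log (a := a) (x := x) fun e => hne x hx.2 (e ▸ ha)).const_mul (r a))).fun_sub
      (hasF_re (hΨ x hx.1))).congr_fderiv (ContinuousLinearMap.ext fun v => ?_)
    simp only [sub_apply, sum_apply, smul_apply, Dr_apply, hθ x hx.2, add_mul, Finset.sum_mul, add_re, re_sum,
      smul_eq_mul, zero_apply, div_eq_mul_inv, mul_assoc, re_ofReal_mul,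
      mul_add, Finset.mul_sum, mul_left_comm (2 : ℝ)]
    ring
  obtain ⟨k, hk⟩ := hWo.exists_is_const_of_fderiv_eq_zero (𝕜 := ℝ) hWc
    (fun x hx => (hD x hx).differentiableAt.differentiableWithinAt) fun x hx => (hD x hx).fderiv
  have hΨc : ContinuousOn Ψ (closedBall 0 1) := fun x hx =>
    (hΨ x (hcb hx)).continuousAt.continuousWithinAt
  have hl : ∀ a ∈ S, CircleIntegrable (fun x => r a * (2 * Real.log ‖x - a‖)) 0 1 := fun a _ =>
    ((circleIntegrable_log_norm_sub_const 1).const_mul 2).const_mul _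
  have hq : CircleIntegrable (fun x => 2 * (Ψ x).re) 0 1 :=
    (continuousOn_const.mul (continuous_re.comp_continuousOn
      (hΨc.mono sphere_subset_closedBall))).circleIntegrable zero_le_one
  have h2 : circleAverage g 0 1 = circleAverage (fun x => ∑ a ∈ S, r a * (2 * Real.log ‖x - a‖) +
      (2 * (Ψ x).re + k)) 0 1 := circleAverage_congr_sphere fun x hx => by
    rw [abs_one] at hx
    have := hk x ⟨hcb (sphere_subset_closedBall hx), h1 x hx⟩
    simp only [normSq_eq_norm_sq, Real.log_pow, Nat.cast_ofNat] at this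
    linarith
  have h3 : circleAverage Ψ 0 1 = Ψ 0 := by
    refine DiffContOnCl.circleAverage (DifferentiableOn.diffContOnCl ?_)
    rw [abs_one, closure_ball 0 one_ne_zero]
    exact fun x hx => (hΨ x (hcb hx)).differentiableAt.differentiableWithinAt
  have h4 : circleAverage (fun x => 2 * (Ψ x).re) 0 1 = 2 * (Ψ 0).re := by
    rw [← h3]
    exact ((2 : ℝ) • reCLM).circleAverage_comp_comm
      ((hΨc.mono sphere_subset_closedBall).circleIntegrable zero_le_one)
  have h5 := hk 0 ⟨mem_ball_self (by linarith), h0⟩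
  rw [h2, circleAverage_fun_add (f₂ := fun x => 2 * (Ψ x).re + k) (CircleIntegrable.fun_sum _ hl)
    (hq.add (circleIntegrable_const k 0 1)), circleAverage_fun_add hq (circleIntegrable_const k 0 1),
    h4, circleAverage_const, circleAverage_fun_sum hl, Finset.sum_eq_zero (s := S)
      (f := fun a => circleAverage (fun x => r a * (2 * Real.log ‖x - a‖)) 0 1) fun a ha => ?_]
  · simp only [zero_sub, normSq_neg] at h5
    linarith
  · have := circleAverage_fun_smul (a := r a * 2) (f := fun x => Real.log ‖x - a‖) (c := 0) (R := 1)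
    simp only [smul_eq_mul, circleAverage_log_norm_sub_const₀ (hlt a ha), mul_zero,
      mul_assoc] at this
    exact this

/-- Weighted averages over a circle that avoids the poles. -/
theorem avg {θ ψ : ℂ → ℂ} {S : Finset ℂ} {r : ℂ → ℝ} {c : ℂ} {ε : ℝ} (hε : 0 < ε) (k : ℕ)
    (hψ : DifferentiableOn ℂ ψ (closedBall c ε)) (hS : ∀ a ∈ S, a ∉ sphere c ε)
    (h : ∀ x ∈ sphere c ε, θ x = ∑ a ∈ S, r a / (x - a) + ψ x) :
    circleAverage (fun x => (x - c) * x ^ k * θ x) c ε =
      ∑ a ∈ S.filter (· ∈ ball c ε), r a * a ^ k := by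
  have hz : ∀ f : ℂ → ℂ, DifferentiableOn ℂ f (closedBall c ε) →
      circleAverage (fun x => (x - c) * f x) c ε = 0 := fun f hf => by
    have : DiffContOnCl ℂ (fun x => (x - c) * f x) (ball c |ε|) := by
      refine DifferentiableOn.diffContOnCl ?_
      rw [abs_of_pos hε, closure_ball c hε.ne']
      exact DifferentiableOn.fun_mul (by fun_prop) hf
    simpa using this.circleAverage
  have hl : ∀ a ∈ S, CircleIntegrable (fun x => ((x - c) / (x - a)) • ((r a : ℂ) * x ^ k)) c ε :=
    fun a ha => ContinuousOn.circleIntegrable hε.le (by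
      have : ∀ x ∈ sphere c ε, x - a ≠ 0 := fun x hx => sub_ne_zero.2 fun e => hS a ha (e ▸ hx)
      fun_prop (disch := assumption))
  have hq : CircleIntegrable (fun x => (x - c) * (x ^ k * ψ x)) c ε :=
    ContinuousOn.circleIntegrable hε.le (ContinuousOn.mul (by fun_prop) (ContinuousOn.mul
      (by fun_prop) (hψ.continuousOn.mono sphere_subset_closedBall)))
  rw [circleAverage_congr_sphere (f₂ := fun x => ∑ a ∈ S, ((x - c) / (x - a)) •
      ((r a : ℂ) * x ^ k) + (x - c) * (x ^ k * ψ x)) fun x hx => ?_,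
    circleAverage_fun_add (CircleIntegrable.fun_sum _ hl) hq, circleAverage_fun_sum hl,
    hz _ (DifferentiableOn.fun_mul (by fun_prop) hψ), add_zero, Finset.sum_filter]
  · refine Finset.sum_congr rfl fun a ha => ?_
    split_ifs with h1
    · exact DiffContOnCl.circleAverage_smul_div (f := fun x => (r a : ℂ) * x ^ k)
        (Differentiable.diffContOnCl (by fun_prop)) (by rwa [abs_of_pos hε])
    · rw [← hz (fun x => (r a : ℂ) * x ^ k / (x - a)) (DifferentiableOn.fun_div (by fun_prop)
        (by fun_prop) fun x hx => sub_ne_zero.2 fun e => ?_)]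
      · congr 1
        ext x
        rw [smul_eq_mul]
        ring
      · rw [e, ← ball_union_sphere] at hx
        exact hx.elim h1 (hS a ha)
  · rw [abs_of_pos hε] at hx
    simp only [h x hx, mul_add, Finset.mul_sum, smul_eq_mul]
    congr 1
    · exact Finset.sum_congr rfl fun a _ => by ring
    · ring

/-- A function with many zeros in the unit disc is small. -/
theorem small {U : Set ℂ} (hU : IsOpen U) (hB : closedBall 0 4 ⊆ U) (S : Finset ℂ) :
    ∀ (f : ℂ → ℂ) (M : ℝ), DifferentiableOn ℂ f U → (∀ x ∈ sphere (0 : ℂ) 4, ‖f x‖ ≤ M) →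
      (∀ a ∈ S, ‖a‖ < 1 ∧ f a = 0) → ‖f 1‖ ≤ M * (2 / 3) ^ S.card := by
  induction S using Finset.induction_on with
  | empty =>
    intro f M hf hM _
    have h4 : (4 : ℝ) ≠ 0 := by norm_num
    simpa using Complex.norm_le_of_forall_mem_frontier_norm_le (U := ball 0 4) isBounded_ball
      (DifferentiableOn.diffContOnCl (by rw [closure_ball 0 h4]; exact hf.mono hB)) (C := M) (z := 1)
      (by rwa [frontier_ball 0 h4]) (subset_closure (by simp))
  | insert a S ha ih =>
    intro f M hf hM hz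
    obtain ⟨h1, h2⟩ := hz a (Finset.mem_insert_self a S)
    have he : ∀ x, f x = (x - a) * dslope f a x := fun x => by
      have := sub_smul_dslope f a x
      rwa [h2, sub_zero, eq_comm] at this
    have h3 := ih (dslope f a) (M / 3) ((differentiableOn_dslope (hU.mem_nhds (hB
      (mem_closedBall_zero_iff.2 (by linarith))))).2 hf) (fun x hx => by
        have h4 := hM x hx
        have h5 := norm_sub_norm_le x a
        rw [he, norm_mul] at h4
        rw [mem_sphere_zero_iff_norm.1 hx] at h5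
        nlinarith [norm_nonneg (dslope f a x)]) fun b hb => by
        obtain ⟨h4, h5⟩ := hz b (Finset.mem_insert_of_mem hb)
        rw [he] at h5
        exact ⟨h4, (mul_eq_zero.1 h5).resolve_left (sub_ne_zero.2 fun e => ha (e ▸ hb))⟩
    have h4 : ‖1 - a‖ ≤ 2 := (norm_sub_le _ _).trans (by rw [norm_one]; linarith)
    rw [he, norm_mul, Finset.card_insert_of_notMem ha, pow_succ]
    exact (mul_le_mul h4 h3 (norm_nonneg _) zero_le_two).trans_eq (by ring)

/-- The Hankel determinant detects the maximal number of poles. -/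
theorem hankel {S : Finset ℂ} {r : ℂ → ℝ} {N : ℕ} (hr : ∀ a ∈ S, r a ≠ 0) (hN : S.card ≤ N) :
    (Matrix.of fun i j : Fin N => ∑ a ∈ S, (r a : ℂ) * a ^ ((i : ℕ) + j)).det ≠ 0 ↔
      S.card = N := by
  constructor
  · intro h
    have h1 := Matrix.rank_of_isUnit _ ((Matrix.isUnit_iff_isUnit_det _).2 (Ne.isUnit h))
    have h2 : (Matrix.of fun i j : Fin N => ∑ a ∈ S, (r a : ℂ) * a ^ ((i : ℕ) + j)) =
        (Matrix.of fun (i : Fin N) (a : S) => (r a : ℂ) * (a : ℂ) ^ (i : ℕ)) *
          Matrix.of fun (a : S) (j : Fin N) => (a : ℂ) ^ (j : ℕ) := by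
      ext i j
      simp only [Matrix.mul_apply, Matrix.of_apply, pow_add, mul_assoc]
      exact (Finset.sum_coe_sort S fun a => (r a : ℂ) * (a ^ (i : ℕ) * a ^ (j : ℕ))).symm
    have h3 := (Matrix.rank_mul_le_left _
      (Matrix.of fun (a : S) (j : Fin N) => (a : ℂ) ^ (j : ℕ))).trans (Matrix.rank_le_card_width
      (Matrix.of fun (i : Fin N) (a : S) => (r a : ℂ) * (a : ℂ) ^ (i : ℕ)))
    rw [← h2, h1] at h3
    simp only [Fintype.card_fin, Fintype.card_coe] at h3
    omega
  · rintro rfl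
    set v : Fin S.card → ℂ := fun i => S.equivFin.symm i
    have h2 : (Matrix.of fun i j : Fin S.card => ∑ a ∈ S, (r a : ℂ) * a ^ ((i : ℕ) + j)) =
        (Matrix.vandermonde v).transpose * (Matrix.diagonal (fun i => (r (v i) : ℂ)) *
          Matrix.vandermonde v) := by
      ext i j
      simp only [Matrix.mul_apply (M := (Matrix.vandermonde v).transpose), Matrix.diagonal_mul,
        Matrix.of_apply, Matrix.transpose_apply, Matrix.vandermonde_apply]
      rw [← Finset.sum_coe_sort, ← S.equivFin.symm.sum_comp]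
      exact Finset.sum_congr rfl fun l _ => by ring
    have h3 : (Matrix.vandermonde v).det ≠ 0 := Matrix.det_vandermonde_ne_zero_iff.2
      (Subtype.val_injective.comp S.equivFin.symm.injective)
    rw [h2, Matrix.det_mul, Matrix.det_mul, Matrix.det_transpose, Matrix.det_diagonal]
    exact mul_ne_zero h3 (mul_ne_zero (Finset.prod_ne_zero_iff.2 fun i _ =>
      ofReal_ne_zero.2 (hr _ (S.equivFin.symm i).2)) h3)

end Pool.Agent.Lib.RA.LD
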