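import Pool.Agent.Lib.RA.T_LD1
import Pool.Agent.Lib.RA.T_XP

/-! Integrals with holomorphic parameters, pluriharmonic functions and their circle averages,
bounded extension across a hypersurface. -/

open scoped Classical
open Set Filter Topology Metric Complex Real MeasureTheory

set_option linter.unusedVariables false

noncomputable section

namespace Pool.Agent.Lib.RA.LD

open Pool.Agent.Lib.SV

variable {E : Type} [NormedAddCommGroup E] [NormedSpace ℂ E]

/-- Near `w` the function is twice the real part of a holomorphic function. -/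
def PHat (g : E → ℝ) (w : E) : Prop :=
  ∃ A : E → ℂ, (∀ᶠ x in 𝓝 w, DifferentiableAt ℂ A x) ∧ ∀ᶠ x in 𝓝 w, g x = 2 * (A x).re

theorem hasF_re2 {A : E → ℂ} {L : E →L[ℂ] ℂ} {w : E} (h : HasFDerivAt A L w) :
    HasFDerivAt (fun x => 2 * (A x).re) ((2 : ℝ) • reCLM.comp (L.restrictScalars ℝ)) w :=
  (reCLM.hasFDerivAt.comp w (h.restrictScalars ℝ)).const_mul (2 : ℝ)

theorem PHat.cont {g : E → ℝ} {w : E} (h : PHat g w) : ContinuousAt g w := by
  obtain ⟨A, h1, h2⟩ := h
  exact (hasF_re2 h1.self_of_nhds.hasFDerivAt).continuousAt.congr (h2.mono fun x hx => hx.symm)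

theorem PHat.comp {F : Type} [NormedAddCommGroup F] [NormedSpace ℂ F] {g : E → ℝ} {Φ : F → E}
    {y : F} (hΦ : Differentiable ℂ Φ) (h : PHat g (Φ y)) : PHat (fun x => g (Φ x)) y := by
  obtain ⟨A, h1, h2⟩ := h
  exact ⟨fun x => A (Φ x), (hΦ.continuous.continuousAt.eventually h1).mono fun x hx =>
    hx.comp x (hΦ x), hΦ.continuous.continuousAt.eventually h2⟩

/-- The complex differential of a pluriharmonic function. -/
theorem exists_form (g : E → ℝ) : ∃ ω : E → E →L[ℂ] ℂ, ∀ (w : E) (A : E → ℂ),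
    (∀ᶠ x in 𝓝 w, DifferentiableAt ℂ A x) → (∀ᶠ x in 𝓝 w, g x = 2 * (A x).re) →
    ω =ᶠ[𝓝 w] fderiv ℂ A := by
  refine ⟨fun w => if h : PHat g w then fderiv ℂ h.choose w else 0, fun w A h1 h2 => ?_⟩
  filter_upwards [h1.eventually_nhds, h2.eventually_nhds] with y h3 h4
  have h : PHat g y := ⟨A, h3, h4⟩
  rw [dif_pos h]
  have h5 := (hasF_re2 h.choose_spec.1.self_of_nhds.hasFDerivAt).congr_of_eventuallyEq
    h.choose_spec.2
  have h6 := h5.unique ((hasF_re2 h3.self_of_nhds.hasFDerivAt).congr_of_eventuallyEq h4)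
  have h7 : ∀ v, (fderiv ℂ h.choose y v).re = (fderiv ℂ A y v).re := fun v => by
    simpa using congrArg (fun L => L v) h6
  ext v
  refine Complex.ext (h7 v) ?_
  simpa using h7 (I • v)

variable [FiniteDimensional ℂ E]

/-- Integrals depend holomorphically on parameters. -/
theorem diff_int {F : E × ℂ → ℂ} {W : Set (E × ℂ)} (hW : IsOpen W) (hF : DifferentiableOn ℂ F W)
    {γ : ℝ → ℂ} (hγ : Continuous γ) {a b : ℝ} {x : E} (hx : ∀ t ∈ uIcc a b, (x, γ t) ∈ W) :
    DifferentiableAt ℂ (fun y => ∫ t in a..b, F (y, γ t)) x := by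
  have : ProperSpace (E × ℂ) := FiniteDimensional.proper ℂ (E × ℂ)
  have hK : IsCompact ((fun t : ℝ => (x, γ t)) '' uIcc a b) := isCompact_uIcc.image (by fun_prop)
  obtain ⟨δ, hδ, hδO⟩ := hK.exists_cthickening_subset_open hW (image_subset_iff.2 hx)
  have hc := H85.continuousOn_fderiv hW hF
  obtain ⟨C, hC⟩ := (hK.cthickening (r := δ)).exists_bound_of_continuousOn (hc.mono hδO)
  have hmem : ∀ y ∈ ball x δ, ∀ t ∈ uIcc a b,
      (y, γ t) ∈ cthickening δ ((fun t : ℝ => (x, γ t)) '' uIcc a b) := by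
    intro y hy t ht
    refine mem_cthickening_of_dist_le _ (x, γ t) _ _ ⟨_, ht, rfl⟩ ?_
    rw [dist_prod_same_right]
    exact (mem_ball.1 hy).le
  have hcm : ∀ y : E, ContinuousOn (fun t : ℝ => (y, γ t)) (uIcc a b) := fun y => by fun_prop
  have hFc : ∀ y ∈ ball x δ, ContinuousOn (fun t : ℝ => F (y, γ t)) (uIcc a b) := fun y hy =>
    hF.continuousOn.comp (hcm y) fun t ht => hδO (hmem y hy t ht)
  refine (intervalIntegral.hasFDerivAt_integral_of_dominated_of_fderiv_le (𝕜 := ℂ)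
    (μ := volume) (bound := fun _ => C * ‖ContinuousLinearMap.inl ℂ E ℂ‖)
    (F := fun y t => F (y, γ t))
    (F' := fun y t => (fderiv ℂ F (y, γ t)).comp (ContinuousLinearMap.inl ℂ E ℂ))
    (ball_mem_nhds x hδ) ?_ ?_ ?_ ?_ ?_ ?_).differentiableAt
  · filter_upwards [ball_mem_nhds x hδ] with y hy using
      ((hFc y hy).mono uIoc_subset_uIcc).aestronglyMeasurable measurableSet_uIoc
  · exact (hFc x (mem_ball_self hδ)).intervalIntegrable
  · exact (((hc.comp (hcm x) fun t ht => hδO (hmem x (mem_ball_self hδ) t ht)).clm_comp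
      continuousOn_const).mono uIoc_subset_uIcc).aestronglyMeasurable measurableSet_uIoc
  · refine ae_of_all _ fun t ht y hy => (ContinuousLinearMap.opNorm_comp_le _ _).trans ?_
    exact mul_le_mul_of_nonneg_right (hC _ (hmem y hy t (uIoc_subset_uIcc ht))) (norm_nonneg _)
  · exact intervalIntegrable_const
  · refine ae_of_all _ fun t ht y hy => ?_
    exact (hF.differentiableAt (hW.mem_nhds (hδO (hmem y hy t
      (uIoc_subset_uIcc ht))))).hasFDerivAt.comp y (hasFDerivAt_prodMk_left y (γ t))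

/-- Weighted circle averages depend holomorphically on the base point. -/
theorem diff_avg {θ : E → ℂ} {U : Set E} (hU : IsOpen U) (hθ : DifferentiableOn ℂ θ U) (e : E)
    (c : ℂ) {ε : ℝ} (hε : 0 ≤ ε) (k : ℕ) {z : E} (hz : ∀ x ∈ sphere c ε, z + x • e ∈ U) :
    DifferentiableAt ℂ
      (fun y => circleAverage (fun x => (x - c) * x ^ k * θ (y + x • e)) c ε) z := by
  have hΦ : Differentiable ℂ fun p : E × ℂ => p.1 + p.2 • e := by fun_prop
  simp only [circleAverage_def]
  exact (diff_int (F := fun p => (p.2 - c) * p.2 ^ k * θ (p.1 + p.2 • e))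
    (hU.preimage hΦ.continuous) (DifferentiableOn.fun_mul (by fun_prop)
      (hθ.comp hΦ.differentiableOn (mapsTo_preimage _ _))) (continuous_circleMap c ε)
    fun t _ => hz _ (circleMap_mem_sphere c hε t)).const_smul _

theorem diff_form {g : E → ℝ} {ω : E → E →L[ℂ] ℂ} (hω : ∀ (w : E) (A : E → ℂ),
    (∀ᶠ x in 𝓝 w, DifferentiableAt ℂ A x) → (∀ᶠ x in 𝓝 w, g x = 2 * (A x).re) →
    ω =ᶠ[𝓝 w] fderiv ℂ A) {w : E} (h : PHat g w) : DifferentiableAt ℂ ω w ∧
      HasFDerivAt g ((2 : ℝ) • reCLM.comp ((ω w).restrictScalars ℝ)) w ∧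
      ∀ x y, fderiv ℂ ω w x y = fderiv ℂ ω w y x := by
  obtain ⟨A, h1, h2⟩ := h
  have h3 := hω w A h1 h2
  have h4 := H85.contDiffAt_nat h1 2
  refine ⟨((h4.fderiv_right (m := 1) (by norm_num)).differentiableAt
    one_ne_zero).congr_of_eventuallyEq h3, ?_, fun x y => ?_⟩
  · rw [h3.self_of_nhds]
    exact (hasF_re2 h1.self_of_nhds.hasFDerivAt).congr_of_eventuallyEq h2
  · rw [h3.fderiv_eq]
    exact (h4.isSymmSndFDerivAt (by simp)).eq x y

/-- On a convex set the holomorphic function is global. -/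
theorem prim {g : E → ℝ} {U : Set E} (hU : IsOpen U) (hc : Convex ℝ U) (h : ∀ w ∈ U, PHat g w) :
    ∃ A : E → ℂ, DifferentiableOn ℂ A U ∧ ∀ w ∈ U, g w = 2 * (A w).re := by
  obtain ⟨ω, hω⟩ := exists_form g
  have h1 := fun w hw => diff_form hω (h w hw)
  obtain ⟨f, hf⟩ := hc.exists_forall_hasFDerivAt_of_fderiv_symmetric hU (ω := ω)
    (fun w hw => ((h1 w hw).1.restrictScalars ℝ).differentiableWithinAt) fun w hw x y => by
      rw [(h1 w hw).1.fderiv_restrictScalars ℝ]
      exact (h1 w hw).2.2 x y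
  have hd := fun w hw => (h1 w hw).2.1.fun_sub (hasF_re2 (hf w hw))
  obtain ⟨k, hk⟩ := hU.exists_is_const_of_fderiv_eq_zero (𝕜 := ℝ) hc.isPreconnected
    (fun x hx => (hd x hx).differentiableAt.differentiableWithinAt)
    fun x hx => by rw [(hd x hx).fderiv, sub_self]; rfl
  refine ⟨fun w => f w + (k / 2 : ℝ), fun w hw =>
    ((hf w hw).differentiableAt.add_const _).differentiableWithinAt, fun w hw => ?_⟩
  have := hk w hw
  simp only [add_re, ofReal_re]
  linarith

/-- The average over a circle of a pluriharmonic function is pluriharmonic. -/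
theorem mean_ph {g : E → ℝ} {U : Set E} (hU : IsOpen U) (h : ∀ w ∈ U, PHat g w) {z₀ e : E}
    (hz : ∀ t ∈ sphere (0 : ℂ) 1, z₀ + t • e ∈ U) :
    PHat (fun z => circleAverage (fun t => g (z + t • e)) 0 1) z₀ := by
  have hΦ : Differentiable ℂ fun p : E × ℂ => p.1 + cexp (p.2 * I) • e := by fun_prop
  have he : ∀ t : ℝ, circleMap 0 1 t = cexp (t * I) := fun t => by simp [circleMap]
  have hK : IsCompact (ofRealCLM '' uIcc 0 (2 * π)) := isCompact_uIcc.image ofRealCLM.continuous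
  obtain ⟨u, v, hu, hv, h1, h2, h3⟩ := generalized_tube_lemma (isCompact_singleton (x := z₀)) hK
    (hU.preimage hΦ.continuous) (by
      rintro ⟨z, s⟩ ⟨rfl, t, -, rfl⟩
      exact hz _ (he t ▸ circleMap_mem_sphere 0 zero_le_one t))
  obtain ⟨ρ, hρ, h4⟩ := Metric.isOpen_iff.1 hu z₀ (h1 rfl)
  obtain ⟨η, hη, h5⟩ := hK.exists_thickening_subset_open hv h2
  have hW := (isOpen_ball (x := z₀) (ε := ρ)).prod
    (isOpen_thickening (δ := η) (E := ofRealCLM '' uIcc 0 (2 * π)))
  obtain ⟨A, hA, hg⟩ := prim (g := fun p : E × ℂ => g (p.1 + cexp (p.2 * I) • e)) hW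
    ((convex_ball z₀ ρ).prod (((convex_uIcc _ _).linear_image ofRealCLM.toLinearMap).thickening η))
    fun p hp => PHat.comp hΦ (h _ (h3 ⟨h4 hp.1, h5 hp.2⟩))
  have hm : ∀ z ∈ ball z₀ ρ, ∀ t ∈ uIcc 0 (2 * π), (z, (t : ℂ)) ∈
      ball z₀ ρ ×ˢ thickening η (ofRealCLM '' uIcc 0 (2 * π)) := fun z hz t ht =>
    ⟨hz, self_subset_thickening hη _ ⟨t, ht, rfl⟩⟩
  refine ⟨fun z => (2 * π)⁻¹ • ∫ t in (0 : ℝ)..2 * π, A (z, t), ?_, ?_⟩
  · filter_upwards [ball_mem_nhds z₀ hρ] with z hz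
    exact (diff_int hW hA continuous_ofReal (hm z hz)).const_smul (2 * π)⁻¹
  · filter_upwards [ball_mem_nhds z₀ hρ] with z hz
    have h6 := reCLM.intervalIntegral_comp_comm (μ := volume) (a := 0) (b := 2 * π)
      (f := fun t : ℝ => A (z, t))
      (hA.continuousOn.comp (f := fun t : ℝ => (z, (t : ℂ))) (by fun_prop)
        (hm z hz)).intervalIntegrable
    simp only [reCLM_apply] at h6
    rw [circleAverage_def, smul_re, ← h6, intervalIntegral.integral_congr
      (g := fun t : ℝ => 2 * (A (z, t)).re) fun t ht => by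
        simpa only [he] using hg _ (hm z hz t ht), intervalIntegral.integral_const_mul]
    simp only [smul_eq_mul]
    ring

omit [FiniteDimensional ℂ E] in
/-- A real holomorphic function is locally constant. -/
theorem const_of_real {f : E → ℂ} {z : E} (hf : ∀ᶠ y in 𝓝 z, DifferentiableAt ℂ f y)
    (hr : ∀ᶠ y in 𝓝 z, (f y).im = 0) : ∀ᶠ y in 𝓝 z, f y = f z := by
  obtain ⟨ω, hω⟩ := exists_form (fun _ : E => (0 : ℝ))
  have h1 := hω z (fun y => I * f y) (hf.mono fun y hy => hy.const_mul I)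
    (hr.mono fun y hy => by simp [hy])
  have h2 := hω z (fun _ => 0) (by simp) (by simp)
  obtain ⟨ρ, hρ, h3⟩ := Metric.eventually_nhds_iff_ball.1 (hf.and (h1.symm.trans h2))
  filter_upwards [ball_mem_nhds z hρ] with y hy
  refine mul_left_cancel₀ I_ne_zero (isOpen_ball.is_const_of_fderiv_eq_zero (𝕜 := ℂ)
    (f := fun y => I * f y) (convex_ball z ρ).isPreconnected
    (fun x hx => ((h3 x hx).1.const_mul I).differentiableWithinAt) (fun x hx => ?_) hy
    (mem_ball_self hρ))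
  simpa using (h3 x hx).2

/-- Bounded extension across a hypersurface. -/
theorem rex {f j : E → ℂ} {O : Set E} {M : ℝ} (hO : IsOpen O) (hb : Bornology.IsBounded O)
    (hj : DifferentiableOn ℂ j O) (hf : ∀ w ∈ O, j w ≠ 0 → DifferentiableAt ℂ f w ∧ ‖f w‖ ≤ M)
    {x : E} (hx : x ∈ O) (h0 : ∃ᶠ w in 𝓝 x, j w ≠ 0) :
    ∃ G : E → ℂ, ∀ᶠ y in 𝓝 x, DifferentiableAt ℂ G y ∧ (j y ≠ 0 → G y = f y) := by
  borelize E
  have : ProperSpace E := FiniteDimensional.proper ℂ E
  refine H85.ext_local Measure.addHaar hO hj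
    (fun w hw => (hf w hw.1 hw.2).1.differentiableWithinAt) ?_ hx (not_eventually.2 h0)
  refine ne_top_of_le_ne_top ?_ (setLIntegral_mono (g := fun _ => ENNReal.ofReal (M ^ 2))
    measurable_const fun w hw => ENNReal.ofReal_le_ofReal
      (pow_le_pow_left₀ (norm_nonneg _) (hf w hw.1 hw.2).2 2))
  rw [setLIntegral_const]
  exact ENNReal.mul_ne_top ENNReal.ofReal_ne_top (ne_top_of_le_ne_top
    hb.measure_lt_top.ne (measure_mono fun w hw => hw.1))

end Pool.Agent.Lib.RA.LD
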