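import Pool.Agent.Lib.RA.Blue0
import Pool.Agent.Lib.RA.T_PK
import Pool.Agent.Lib.RA.T_AN

/-! Coordinates on the tube and second derivatives along real translations. -/

open scoped Classical Topology ContDiff ComplexOrder Matrix
open Set MeasureTheory Complex Metric Filter

set_option linter.unusedVariables false

noncomputable section

namespace Pool.Agent.Lib.RA

open Pool.Agent.Lib.SV (E nsq)
open Pool.Agent.Lib.HS32 Pool.Agent.Lib.PN

namespace PHK

open PK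

/-! ### Coordinates -/

section coord

variable {k j : ℕ}

@[simp] theorem fx_ap (a : E k) (b : E j) : fx (Fin.append a b) = a := by
  funext i; simp [fx]

@[simp] theorem sx_ap (a : E k) (b : E j) : sx (Fin.append a b) = b := by
  funext i; simp [sx]

theorem ext_fs {t t' : E (k + j)} (h1 : fx t = fx t') (h2 : sx t = sx t') : t = t' := by
  funext i
  induction i using Fin.addCases with
  | left i => exact congrFun h1 i
  | right i => exact congrFun h2 i

@[simp] theorem fx_add (t t' : E (k + j)) : fx (t + t') = fx t + fx t' := rfl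

@[simp] theorem sx_add (t t' : E (k + j)) : sx (t + t') = sx t + sx t' := rfl

@[simp] theorem fx_sub (t t' : E (k + j)) : fx (t - t') = fx t - fx t' := rfl

@[simp] theorem sx_sub (t t' : E (k + j)) : sx (t - t') = sx t - sx t' := rfl

@[simp] theorem fx_neg (t : E (k + j)) : fx (-t) = -fx t := rfl

@[simp] theorem sx_neg (t : E (k + j)) : sx (-t) = -sx t := rfl

@[simp] theorem fx_smul (a : ℂ) (t : E (k + j)) : fx (a • t) = a • fx t := rfl

@[simp] theorem sx_smul (a : ℂ) (t : E (k + j)) : sx (a • t) = a • sx t := rfl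

@[simp] theorem fx_rsmul (a : ℝ) (t : E (k + j)) : fx (a • t) = a • fx t := rfl

@[simp] theorem sx_rsmul (a : ℝ) (t : E (k + j)) : sx (a • t) = a • sx t := rfl

@[simp] theorem fx_star (t : E (k + j)) : fx (star t) = star (fx t) := rfl

@[simp] theorem sx_star (t : E (k + j)) : sx (star t) = star (sx t) := rfl

@[simp] theorem fx_zero : fx (0 : E (k + j)) = 0 := rfl

@[simp] theorem sx_zero : sx (0 : E (k + j)) = 0 := rfl

@[simp] theorem fx_io (a : Fin k → ℝ) : fx (io j a) = cx a := fx_ap _ _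

@[simp] theorem sx_io (a : Fin k → ℝ) : sx (io j a) = 0 := sx_ap _ _

@[simp] theorem fx_pj (t : E (k + j)) : fx (pj t) = fun i => ((fx t i).re : ℂ) := fx_ap _ _

@[simp] theorem sx_pj (t : E (k + j)) : sx (pj t) = sx t := sx_ap _ _

@[simp] theorem cx_apply (a : Fin k → ℝ) (i : Fin k) : cx a i = a i := rfl

@[simp] theorem sx_sh (t : E (k + j)) (a : Fin k → ℝ) : sx (sh t a) = sx t := by simp [sh]

theorem dot_fs (t t' : E (k + j)) : t ⬝ᵥ t' = fx t ⬝ᵥ fx t' + sx t ⬝ᵥ sx t' :=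
  Fin.sum_univ_add _

theorem norm_fx (t : E (k + j)) : ‖fx t‖ ≤ ‖t‖ :=
  (pi_norm_le_iff_of_nonneg (norm_nonneg _)).2 fun _ => norm_le_pi_norm t _

theorem norm_sx (t : E (k + j)) : ‖sx t‖ ≤ ‖t‖ :=
  (pi_norm_le_iff_of_nonneg (norm_nonneg _)).2 fun _ => norm_le_pi_norm t _

theorem norm_le_fs {t : E (k + j)} {r : ℝ} (h1 : ‖fx t‖ ≤ r) (h2 : ‖sx t‖ ≤ r) : ‖t‖ ≤ r := by
  refine (pi_norm_le_iff_of_nonneg ((norm_nonneg _).trans h1)).2 fun i => ?_
  induction i using Fin.addCases with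
  | left i => exact (norm_le_pi_norm (fx t) i).trans h1
  | right i => exact (norm_le_pi_norm (sx t) i).trans h2

theorem norm_cx (a : Fin k → ℝ) : ‖cx a‖ = ‖a‖ := by
  simp [Pi.norm_def, cx]

theorem io_add (a b : Fin k → ℝ) : io j (a + b) = io j a + io j b :=
  ext_fs (by funext i; simp) (by simp)

theorem io_smul (r : ℝ) (a : Fin k → ℝ) : io j (r • a) = r • io j a :=
  ext_fs (by funext i; simp) (by simp)

theorem io_neg (a : Fin k → ℝ) : io j (-a) = -io j a :=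
  ext_fs (by funext i; simp) (by simp)

@[simp] theorem io_zero : io j (0 : Fin k → ℝ) = 0 :=
  ext_fs (by funext i; simp) (by simp)

@[simp] theorem star_io (a : Fin k → ℝ) : star (io j a) = io j a :=
  ext_fs (by funext i; simp) (by simp)

theorem pj_add (t t' : E (k + j)) : pj (t + t') = pj t + pj t' :=
  ext_fs (by funext i; simp) (by simp)

theorem pj_smul (r : ℝ) (t : E (k + j)) : pj (r • t) = r • pj t :=
  ext_fs (by funext i; simp) (by simp)

@[simp] theorem pj_pj (t : E (k + j)) : pj (pj t) = pj t :=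
  ext_fs (by funext i; simp) (by simp)

@[simp] theorem pj_io (a : Fin k → ℝ) : pj (io j a) = io j a :=
  ext_fs (by funext i; simp) (by simp)

@[simp] theorem pj_zero : pj (0 : E (k + j)) = 0 :=
  ext_fs (by funext i; simp) (by simp)

@[simp] theorem pj_ap (s : E j) : pj (Fin.append (0 : E k) s) = Fin.append 0 s :=
  ext_fs (by funext i; simp) (by simp)

theorem pj_im (t : E (k + j)) (a : Fin k → ℝ) : pj (t + I • io j a) = pj t :=
  ext_fs (by funext i; simp) (by simp)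

theorem pj_sh (t : E (k + j)) (a : Fin k → ℝ) : pj (sh t a) = sh (pj t) a := by
  simp [sh, pj_add]

theorem norm_pj (t : E (k + j)) : ‖pj t‖ ≤ ‖t‖ := by
  refine norm_le_fs ?_ (by simpa using norm_sx t)
  refine (pi_norm_le_iff_of_nonneg (norm_nonneg _)).2 fun i => ?_
  rw [fx_pj, norm_real]
  exact (abs_re_le_norm _).trans (norm_le_pi_norm t _)

theorem dec (t : E (k + j)) : t = pj t + I • io j fun i => (fx t i).im :=
  ext_fs (by funext i; simp [mul_comm I]) (by simp)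

theorem norm_io (a : Fin k → ℝ) : ‖io j a‖ ≤ ‖a‖ :=
  norm_le_fs (by simp [norm_cx]) (by simp)

theorem norm_ap (s : E j) : ‖(Fin.append (0 : E k) s : E (k + j))‖ ≤ ‖s‖ :=
  norm_le_fs (by simp) (by simp)

theorem sh_sh (t : E (k + j)) (a b : Fin k → ℝ) : sh (sh t a) b = sh t (a + b) := by
  simp [sh, io_add, add_assoc]

@[simp] theorem sh_zero (t : E (k + j)) : sh t 0 = t := by simp [sh]

theorem sh_r2 (t : E (k + j)) : sh (Fin.append 0 (sx t)) (r2 (fx t)) = pj t :=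
  ext_fs (by funext i; simp [sh, r2]) (by simp)

/-- The projection as a real linear map. -/
def pjL (k j : ℕ) : E (k + j) →L[ℝ] E (k + j) :=
  LinearMap.toContinuousLinearMap ⟨⟨pj, pj_add⟩, pj_smul⟩

@[simp] theorem pjL_apply (t : E (k + j)) : pjL k j t = pj t := rfl

/-- The half embedding as a real linear map. -/
def ioL (k j : ℕ) : (Fin k → ℝ) →L[ℝ] E (k + j) :=
  LinearMap.toContinuousLinearMap ⟨⟨fun a => io j ((1 / 2 : ℝ) • a), fun a b => by
    rw [smul_add, io_add]⟩, fun r a => by simp only [smul_comm _ r, io_smul r]; rfl⟩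

theorem sh_eq (t : E (k + j)) (a : Fin k → ℝ) : sh t a = t + ioL k j a := rfl

theorem cont_pj : Continuous (pj : E (k + j) → E (k + j)) := (pjL k j).continuous

theorem an_pj (t : E (k + j)) : AnalyticAt ℝ (pj : E (k + j) → E (k + j)) t :=
  (pjL k j).analyticAt t

theorem an_sh (t : E (k + j)) (a : Fin k → ℝ) : AnalyticAt ℝ (sh t) a :=
  analyticAt_const.add ((ioL k j).analyticAt a)

theorem cont_sh : Continuous fun w : E (k + j) × (Fin k → ℝ) => sh w.1 w.2 :=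
  continuous_fst.add ((ioL k j).continuous.comp continuous_snd)

end coord

/-! ### Translations -/

section tr

variable {n : ℕ} {F : E n × E n → ℂ}

theorem dg_add (z w : E n) : dg (z + w) = dg z + dg w := map_add (dgL n) z w

theorem norm_dg (z : E n) : ‖dg z‖ = ‖z‖ := by simp [dg, Prod.norm_def]

theorem dg_ball {z : E n} {R : ℝ} : dg z ∈ ball (0 : E n × E n) R ↔ ‖z‖ < R := by
  rw [mem_ball_zero_iff, norm_dg]

theorem pz_tr (F : E n × E n → ℂ) (v y : E n × E n) :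
    pz (fun w => F (w + v)) y = pz F (y + v) := by
  funext l; simp only [pz, fderiv_comp_add_right]

theorem pu_tr (F : E n × E n → ℂ) (v y : E n × E n) :
    pu (fun w => F (w + v)) y = pu F (y + v) := by
  funext l; simp only [pu, fderiv_comp_add_right]

theorem Gm_tr (F : E n × E n → ℂ) (v y : E n × E n) :
    Gm (fun w => F (w + v)) y = Gm F (y + v) := by
  ext i l
  simp only [Gm, Matrix.of_apply, pz_tr]
  exact congrFun (pu_tr (fun x => pz F x l) v y) i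

theorem hn_tr {v y : E n × E n} (h : Hn F (y + v)) : Hn (fun w => F (w + v)) y :=
  hn_comp (k := fun w => w + v) h (Eventually.of_forall fun _ => by fun_prop)

theorem an_dg {z : E n} (h : Hn F (dg z)) : AnalyticAt ℝ (fun w => F (dg w)) z :=
  ((ANB.analyticAt h).restrictScalars (𝕜 := ℝ)).comp ((dgL n).analyticAt z)

end tr

/-! ### Invariance -/

section inv

variable {k j : ℕ} {Φ : E (k + j) × E (k + j) → ℂ} {δ c : ℝ} {t : E (k + j)}

theorem hn (h : Tv k j Φ δ c) {w : E (k + j) × E (k + j)} (hw : w ∈ ball 0 (2 * δ)) : Hn Φ w :=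
  hn_of_on isOpen_ball h.hol hw

theorem dot_inv (h : Tv k j Φ δ c) {w : E (k + j) × E (k + j)} (hw : w ∈ ball 0 (2 * δ))
    {v : E (k + j)} (hv : sx v = 0) : pz Φ w ⬝ᵥ v = pu Φ w ⬝ᵥ v := by
  simp [dot_fs, hv, h.inv w hw]

theorem val_inv (h : Tv k j Φ δ c) {w : E (k + j) × E (k + j)} {v : E (k + j)} (hv : sx v = 0)
    (hw : w ∈ ball 0 (2 * δ)) (hw' : w + (v, -v) ∈ ball 0 (2 * δ)) : Φ (w + (v, -v)) = Φ w := by
  have hd : ∀ s ∈ Icc (0 : ℝ) 1, HasDerivAt (fun s : ℝ => Φ (w + s • (v, -v))) 0 s := by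
    intro s hs
    have hm : w + s • (v, -v) ∈ ball 0 (2 * δ) := (convex_ball _ _).add_smul_mem hw hw' hs
    have h1 : HasDerivAt (fun s : ℝ => w + s • (v, -v)) (v, -v) s := by
      simpa using ((hasDerivAt_id s).smul_const (v, -v)).const_add w
    have h2 := ((hn_at (hn h hm)).hasFDerivAt.restrictScalars ℝ).comp_hasDerivAt s h1
    refine h2.congr_deriv ?_
    change fderiv ℂ Φ _ (v, -v) = 0
    rw [fd_zu, dotProduct_neg, dot_inv h hm hv, add_neg_cancel]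
  have := constant_of_has_deriv_right_zero
    (fun s hs => (hd s hs).continuousAt.continuousWithinAt)
    (fun s hs => (hd s (Ico_subset_Icc_self hs)).hasDerivWithinAt) 1 (by simp)
  simpa using this

theorem ev_inv (h : Tv k j Φ δ c) {w : E (k + j) × E (k + j)} {v : E (k + j)} (hv : sx v = 0)
    (hw : w ∈ ball 0 (2 * δ)) (hw' : w + (v, -v) ∈ ball 0 (2 * δ)) :
    (fun y => Φ (y + (v, -v))) =ᶠ[𝓝 w] Φ := by
  have hc : ContinuousAt (fun y : E (k + j) × E (k + j) => y + (v, -v)) w := by fun_prop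
  filter_upwards [isOpen_ball.mem_nhds hw, hc.eventually (isOpen_ball.mem_nhds hw')] with y h1 h2
  exact val_inv h hv h1 h2

theorem dg_dec (t : E (k + j)) : ∃ v, sx v = 0 ∧ dg t = dg (pj t) + (v, -v) := by
  refine ⟨I • io j fun i => (fx t i).im, by simp, ?_⟩
  conv_lhs => rw [dec t, dg_add]
  simp [dg]

theorem real_pz (h : Tv k j Φ δ c) (ht : ‖t‖ < 2 * δ) (i : Fin k) :
    ((fx (pz Φ (dg t)) i).re : ℂ) = fx (pz Φ (dg t)) i := by
  have h1 := hn h (dg_ball.2 ht)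
  have h2 : cj Φ =ᶠ[𝓝 (dg t)] Φ := cj_eq_loc h1 (by
    filter_upwards [isOpen_ball.mem_nhds (mem_ball_zero_iff.2 ht)] with w hw using h.real w hw)
  have h3 := pz_sw (by simpa using hn_at h1) h2
  rw [sw_dg] at h3
  refine conj_eq_iff_re.1 ?_
  conv_rhs => rw [h3, fx_star, ← h.inv _ (dg_ball.2 ht)]
  rfl

theorem on_ball (h : Tv k j Φ δ c) (ht : ‖t‖ < 2 * δ) : Φ (dg t) = Φ (dg (pj t)) ∧
    pz Φ (dg t) = pz Φ (dg (pj t)) ∧ Gm Φ (dg t) = Gm Φ (dg (pj t)) := by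
  obtain ⟨v, hv, e⟩ := dg_dec t
  have h1 : dg (pj t) ∈ ball 0 (2 * δ) := dg_ball.2 ((norm_pj t).trans_lt ht)
  have h2 : dg (pj t) + (v, -v) ∈ ball 0 (2 * δ) := e ▸ dg_ball.2 ht
  have h3 := ev_inv h hv h1 h2
  rw [e]
  exact ⟨h3.self_of_nhds, by rw [← pz_tr, pz_congr h3], by rw [← Gm_tr, Gm_congr h3]⟩

theorem fx_mu (h : Tv k j Φ δ c) (ht : ‖pj t‖ < 2 * δ) :
    fx (pz Φ (dg (pj t))) = cx (mu0 Φ t) := funext fun i => (real_pz h ht i).symm

theorem ph0_eq (h : Tv k j Φ δ c) (ht : ‖pj t‖ < 2 * δ) : (ph0 Φ t : ℂ) = Φ (dg (pj t)) :=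
  conj_eq_iff_re.1 (conj_eq_iff_im.2 (h.real _ (mem_ball_zero_iff.2 ht)))

/-- Near a point of the tube everything is read on a translate. -/
theorem loc (h : Tv k j Φ δ c) (ht : ‖pj t‖ < 2 * δ) : ∃ v, dg t + v = dg (pj t) ∧
    ∀ᶠ w in 𝓝 t, (ph0 Φ w : ℂ) = Φ (dg w + v) ∧ cx (mu0 Φ w) = fx (pz Φ (dg w + v)) := by
  set a : Fin k → ℝ := -fun i => (fx t i).im
  have e : t + I • io j a = pj t := by
    conv_lhs => rw [dec t]
    simp [a, io_neg]
  refine ⟨dg (I • io j a), by rw [← dg_add, e], ?_⟩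
  have hc : ContinuousAt (fun w => ‖w + I • io j a‖) t := by fun_prop
  filter_upwards [hc.eventually (gt_mem_nhds (show ‖t + I • io j a‖ < 2 * δ by rwa [e]))]
    with w hw
  obtain ⟨h1, h2, -⟩ := on_ball h hw
  have h3 := (norm_pj _).trans_lt hw
  rw [pj_im] at h1 h2 h3
  rw [← dg_add, h1, h2, fx_mu h h3, ph0_eq h h3]
  exact ⟨rfl, rfl⟩

theorem an_ph0 (h : Tv k j Φ δ c) (ht : ‖pj t‖ < 2 * δ) : AnalyticAt ℝ (ph0 Φ) t :=
  (reCLM.analyticAt _).comp ((an_dg (hn h (dg_ball.2 ht))).comp (an_pj t))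

theorem an_mu0 (h : Tv k j Φ δ c) (ht : ‖pj t‖ < 2 * δ) : AnalyticAt ℝ (mu0 Φ) t :=
  analyticAt_pi_iff.2 fun i =>
    (reCLM.analyticAt _).comp ((an_dg (hn_pz (hn h (dg_ball.2 ht)) _)).comp (an_pj t))

theorem hr_ph0 (h : Tv k j Φ δ c) (ht : ‖pj t‖ < 2 * δ) : hr (ph0 Φ) t = Gm Φ (dg (pj t)) := by
  obtain ⟨v, e, hv⟩ := loc h ht
  have h1 : Hn (fun w => Φ (w + v)) (dg t) := hn_tr (e ▸ hn h (dg_ball.2 ht))
  rw [hr, hess_congr (hv.mono fun w hw => hw.1), hess_dg h1, Gm_tr, e]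

theorem dv1_ph0 (h : Tv k j Φ δ c) (ht : ‖pj t‖ < 2 * δ) :
    dv1 (ph0 Φ) t = pz Φ (dg (pj t)) := by
  obtain ⟨v, e, hv⟩ := loc h ht
  have h1 : Hn (fun w => Φ (w + v)) (dg t) := hn_tr (e ▸ hn h (dg_ball.2 ht))
  funext l
  rw [dv1, dz_congr (hv.mono fun w hw => hw.1), dz_dg (hn_at h1), pz_tr, e]

theorem dbv_mu0 (h : Tv k j Φ δ c) (ht : ‖pj t‖ < 2 * δ) (i : Fin k) :
    dbv (fun w => mu0 Φ w i) t = Gm Φ (dg (pj t)) *ᵥ Pi.single (Fin.castAdd j i) 1 := by
  obtain ⟨v, e, hv⟩ := loc h ht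
  have h1 : Hn (fun w => pz Φ (w + v) (Fin.castAdd j i)) (dg t) :=
    hn_tr (F := fun w => pz Φ w (Fin.castAdd j i)) (e ▸ hn_pz (hn h (dg_ball.2 ht)) _)
  funext l
  have h2 : (fun w => (mu0 Φ w i : ℂ)) =ᶠ[𝓝 t] fun w => pz Φ (dg w + v) (Fin.castAdd j i) :=
    hv.mono fun w hw => congrFun hw.2 i
  rw [dbv, dzb_congr h2, dzb_dg (hn_at h1), pu_tr (fun w => pz Φ w (Fin.castAdd j i)), e]
  simp [pu_pz]

/-- Derivative of an invariant function along real translations. -/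
theorem fd_sh {F : E (k + j) × E (k + j) → ℂ} {a : Fin k → ℝ} (h : Hn F (dg (pj (sh t a))))
    (b : Fin k → ℝ) : fderiv ℝ (fun a' => (F (dg (pj (sh t a')))).re) a b =
      (pz F (dg (pj (sh t a))) ⬝ᵥ io j b + pu F (dg (pj (sh t a))) ⬝ᵥ io j b).re / 2 := by
  have h1 : HasFDerivAt (fun a' => pj (sh t a')) (ioL k j) a := by
    simp only [pj_sh]
    exact (ioL k j).hasFDerivAt.const_add _
  have h2 := reCLM.hasFDerivAt.comp a ((cd_diff (cd_dg h)).hasFDerivAt.comp a h1)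
  rw [show (fun a' => (F (dg (pj (sh t a')))).re) =
    reCLM ∘ (fun w => F (dg w)) ∘ fun a' => pj (sh t a') from rfl, h2.fderiv]
  change (fderiv ℝ (fun w => F (dg w)) (pj (sh t a)) (io j ((1 / 2 : ℝ) • b))).re = _
  rw [io_smul, map_smul, fd_dg (hn_at h), star_io, smul_re, smul_eq_mul]
  ring

theorem dot_mu (h : Tv k j Φ δ c) (ht : ‖pj t‖ < 2 * δ) (b : Fin k → ℝ) :
    pz Φ (dg (pj t)) ⬝ᵥ io j b = (mu0 Φ t ⬝ᵥ b : ℝ) := by
  rw [dot_fs, fx_mu h ht]
  simp [dotProduct]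

theorem fd_ph0 (h : Tv k j Φ δ c) {a : Fin k → ℝ} (ht : ‖pj (sh t a)‖ < 2 * δ) (b : Fin k → ℝ) :
    fderiv ℝ (fun a' => ph0 Φ (sh t a')) a b = mu0 Φ (sh t a) ⬝ᵥ b := by
  refine (fd_sh (hn h (dg_ball.2 ht)) b).trans ?_
  rw [← dot_inv h (dg_ball.2 ht) (sx_io b), dot_mu h ht]
  simp

end inv

/-! ### Strong convexity along real translations -/

section cvx

variable {k j : ℕ} {Φ : E (k + j) × E (k + j) → ℂ} {δ c : ℝ} {t : E (k + j)}

theorem pz_inv (h : Tv k j Φ δ c) {w : E (k + j) × E (k + j)} (hw : w ∈ ball 0 (2 * δ))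
    (i l : Fin k) : pz (fun x => pz Φ x (Fin.castAdd j i)) w (Fin.castAdd j l) =
      Gm Φ w (Fin.castAdd j l) (Fin.castAdd j i) := by
  have e : (fun x => pz Φ x (Fin.castAdd j l)) =ᶠ[𝓝 w] fun x => pu Φ x (Fin.castAdd j l) := by
    filter_upwards [isOpen_ball.mem_nhds hw] with x hx using congrFun (h.inv x hx) l
  rw [← pz_pu (hn h hw), ← pz_congr e]
  exact fd_symm (hn h hw) _ _

theorem fd_mu0 (h : Tv k j Φ δ c) {a : Fin k → ℝ} (ht : ‖pj (sh t a)‖ < 2 * δ) (b : Fin k → ℝ) :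
    fderiv ℝ (fun a' => mu0 Φ (sh t a') ⬝ᵥ b) a b = nq (Gm Φ (dg (pj (sh t a)))) (io j b) := by
  have hw := dg_ball.2 ht
  have hd : ∀ i, DifferentiableAt ℝ (fun a' => mu0 Φ (sh t a') i) a := fun i =>
    differentiableAt_pi.1 ((an_mu0 h ht).comp (an_sh t a)).differentiableAt i
  have e : ∀ i, fderiv ℝ (fun a' => mu0 Φ (sh t a') i) a b =
      (∑ l, Gm Φ (dg (pj (sh t a))) (Fin.castAdd j l) (Fin.castAdd j i) * b l).re := fun i => by
    refine (fd_sh (F := fun x => pz Φ x (Fin.castAdd j i)) (hn_pz (hn h hw) _) b).trans ?_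
    rw [dot_fs, dot_fs, sx_io, fx_io, dotProduct_zero, dotProduct_zero]
    simp only [dotProduct, fx, pz_inv h hw, pu_pz, cx_apply, add_zero, add_re]
    ring
  simp only [dotProduct]
  rw [fderiv_fun_sum fun i _ => (hd i).mul_const _, _root_.sum_apply, nq, star_io,
    Matrix.dotProduct_mulVec, dot_fs, sx_io, fx_io, dotProduct_zero, add_zero, dotProduct, re_sum]
  refine Finset.sum_congr rfl fun i _ => ?_
  rw [fderiv_mul_const (hd i), _root_.smul_apply, e, smul_eq_mul, cx_apply,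
    re_mul_ofReal, mul_comm]
  congr 2
  change _ = io j b ⬝ᵥ _
  rw [dot_fs, sx_io, fx_io, zero_dotProduct, add_zero]
  exact Finset.sum_congr rfl fun l _ => mul_comm _ _

theorem nq_lo (h : Tv k j Φ δ c) (ht : ‖t‖ < 2 * δ) (b : Fin k → ℝ) :
    c * ‖b‖ ^ 2 ≤ nq (Gm Φ (dg t)) (io j b) := by
  have h1 := (h.lo t (mem_ball_zero_iff.2 ht)).re_dotProduct_nonneg (io j b)
  have h2 : ‖b‖ ^ 2 ≤ b ⬝ᵥ b := by
    have h3 : 0 ≤ b ⬝ᵥ b := Finset.sum_nonneg fun i _ => mul_self_nonneg _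
    refine (Real.le_sqrt (norm_nonneg _) h3).1 ?_
    refine (pi_norm_le_iff_of_nonneg (Real.sqrt_nonneg _)).2 fun i => Real.abs_le_sqrt ?_
    rw [sq]
    exact Finset.single_le_sum (f := fun i => b i * b i) (fun _ _ => mul_self_nonneg _)
      (Finset.mem_univ i)
  have h4 : (io j b ⬝ᵥ io j b).re = b ⬝ᵥ b := by
    rw [dot_fs]
    simp [dotProduct]
  rw [Matrix.sub_mulVec, dotProduct_sub, Matrix.smul_mulVec, Matrix.one_mulVec, dotProduct_smul,
    star_io] at h1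
  simp only [RCLike.re_to_complex, sub_re, smul_eq_mul, re_ofReal_mul, h4] at h1
  rw [nq, star_io]
  nlinarith [h.c0]

theorem strong (h : Tv k j Φ δ c) {b : Fin k → ℝ}
    (ht : ∀ τ ∈ Icc (0 : ℝ) 1, ‖pj (sh t (τ • b))‖ < 2 * δ) :
    ph0 Φ t + mu0 Φ t ⬝ᵥ b + c * ‖b‖ ^ 2 / 2 ≤ ph0 Φ (sh t b) := by
  have l : ∀ τ : ℝ, HasDerivAt (fun τ : ℝ => τ • b) b τ := fun τ => by
    simpa using (hasDerivAt_id τ).smul_const b
  have d1 : ∀ τ ∈ Icc (0 : ℝ) 1, HasDerivAt (fun τ : ℝ => ph0 Φ (sh t (τ • b)))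
      (mu0 Φ (sh t (τ • b)) ⬝ᵥ b) τ := fun τ hτ => by
    have hd : DifferentiableAt ℝ (fun a' => ph0 Φ (sh t a')) (τ • b) :=
      ((an_ph0 h (ht τ hτ)).comp (an_sh t _)).differentiableAt
    exact (hd.hasFDerivAt.comp_hasDerivAt τ (l τ)).congr_deriv (fd_ph0 h (ht τ hτ) b)
  have d2 : ∀ τ ∈ Icc (0 : ℝ) 1, HasDerivAt (fun τ : ℝ => mu0 Φ (sh t (τ • b)) ⬝ᵥ b)
      (nq (Gm Φ (dg (pj (sh t (τ • b))))) (io j b)) τ := fun τ hτ => by
    have hd : DifferentiableAt ℝ (fun a' => mu0 Φ (sh t a') ⬝ᵥ b) (τ • b) :=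
      DifferentiableAt.fun_sum fun i _ => (differentiableAt_pi.1
        ((an_mu0 h (ht τ hτ)).comp (an_sh t _)).differentiableAt i).mul_const _
    exact (hd.hasFDerivAt.comp_hasDerivAt τ (l τ)).congr_deriv (fd_mu0 h (ht τ hτ) b)
  have mono : ∀ u u' : ℝ → ℝ, (∀ τ ∈ Icc (0 : ℝ) 1, HasDerivAt u (u' τ) τ ∧ 0 ≤ u' τ) →
      ∀ τ ∈ Icc (0 : ℝ) 1, u 0 ≤ u τ := fun u u' hu τ hτ =>
    monotoneOn_of_deriv_nonneg (convex_Icc 0 1)
      (fun s hs => (hu s hs).1.continuousAt.continuousWithinAt)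
      (fun s hs => (hu s (interior_subset hs)).1.differentiableAt.differentiableWithinAt)
      (fun s hs => by rw [(hu s (interior_subset hs)).1.deriv]; exact (hu s (interior_subset hs)).2)
      (by simp) hτ hτ.1
  have m1 := mono (fun τ => mu0 Φ (sh t (τ • b)) ⬝ᵥ b - c * ‖b‖ ^ 2 * τ) _ fun τ hτ =>
    ⟨(d2 τ hτ).sub ((hasDerivAt_id τ).const_mul _), by
      simpa using nq_lo h (ht τ hτ) b⟩
  have m2 := mono (fun τ => ph0 Φ (sh t (τ • b)) - mu0 Φ t ⬝ᵥ b * τ - c * ‖b‖ ^ 2 / 2 * τ ^ 2) _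
    (fun τ hτ => ⟨((d1 τ hτ).sub ((hasDerivAt_id τ).const_mul _)).sub
      ((hasDerivAt_pow 2 τ).const_mul _), by
      have := m1 τ hτ
      simp only [zero_smul, sh_zero] at this
      norm_num
      linarith⟩) 1 (by simp)
  simp only [zero_smul, sh_zero, one_smul] at m2
  linarith

end cvx

end PHK

end Pool.Agent.Lib.RA
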