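import Pool.Agent.Lib.RA.T_DV
import Pool.Agent.Lib.RA.T_PK
import Pool.Agent.Lib.RA.T_AN

/-! Second variation of a mixed Hessian of bounded rank along its kernel. -/

open scoped Classical Topology ContDiff ComplexOrder Matrix
open Set Complex Metric Filter

set_option linter.unusedVariables false
set_option linter.unusedSectionVars false

noncomputable section

namespace Pool.Agent.Lib.RA

open Pool.Agent.Lib.SV (E)
open Pool.Agent.Lib.HS32

namespace R21

/-- The twist: the derivative of the mixed Hessian in `u_i`, row `m`, applied to `v`. -/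
def al {n : ℕ} (F : E n × E n → ℂ) (y : E n × E n) (v : E n) : Mat n :=
  Matrix.of fun i m => ∑ a, pu (fun x => Gm F x m a) y i * v a

/-- The conjugate twist. -/
def al' {n : ℕ} (F : E n × E n → ℂ) (y : E n × E n) (w : E n) : Mat n :=
  Matrix.of fun j l => ∑ a, w a * pz (fun x => Gm F x a l) y j

variable {n r : ℕ} {F : E n × E n → ℂ} {y : E n × E n}

lemma an_of_hn {V W : Type} [NormedAddCommGroup V] [NormedSpace ℂ V] [FiniteDimensional ℂ V]
    [NormedAddCommGroup W] [NormedSpace ℂ W] [CompleteSpace W] {f : V → W} {x : V} (h : Hn f x) :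
    AnalyticAt ℂ f x := by
  obtain ⟨ε, hε, -, hd⟩ := PK.hn_ball h univ_mem
  exact (st_AN V W f).1 _ isOpen_ball hd x (mem_ball_self hε)

lemma hn_of_an {V W : Type} [NormedAddCommGroup V] [NormedSpace ℂ V]
    [NormedAddCommGroup W] [NormedSpace ℂ W] [CompleteSpace W] {f : V → W} {x : V}
    (h : AnalyticAt ℂ f x) : Hn f x :=
  h.eventually_analyticAt.mono fun _ hy => hy.differentiableAt

/-- Direction in `z`. -/
abbrev ez (v : E n) : E n × E n := (v, 0)

/-- Direction in `u`. -/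
abbrev eu (w : E n) : E n × E n := (0, w)

lemma form_ev (hF : AnalyticAt ℂ F y) (v w : E n) :
    (fun x => w ⬝ᵥ Gm F x *ᵥ v) =ᶠ[𝓝 y] Dv (eu w) (Dv (ez v) F) := by
  filter_upwards [hF.eventually_analyticAt] with x hx using Gm_form hx v w

lemma row_eq (G : Mat n) (v : E n) (m : Fin n) : (G *ᵥ v) m = (Pi.single m 1 : E n) ⬝ᵥ G *ᵥ v := by
  simp

lemma col_eq (G : Mat n) (w : E n) (l : Fin n) : (w ᵥ* G) l = w ⬝ᵥ G *ᵥ (Pi.single l 1 : E n) := by
  rw [Matrix.dotProduct_mulVec]; simp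

lemma row_ev (hF : AnalyticAt ℂ F y) (v : E n) (m : Fin n) :
    (fun x => (Gm F x *ᵥ v) m) =ᶠ[𝓝 y] Dv (eu (Pi.single m 1)) (Dv (ez v) F) := by
  simp only [row_eq]; exact form_ev hF v _

lemma col_ev (hF : AnalyticAt ℂ F y) (w : E n) (l : Fin n) :
    (fun x => (w ᵥ* Gm F x) l) =ᶠ[𝓝 y] Dv (eu w) (Dv (ez (Pi.single l 1)) F) := by
  simp only [col_eq]; exact form_ev hF _ w

lemma al_eq (hF : AnalyticAt ℂ F y) (v : E n) (i m : Fin n) :
    al F y v i m = Dv (eu (Pi.single i 1)) (Dv (eu (Pi.single m 1)) (Dv (ez v) F)) y := by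
  rw [← (Dv_congr _ (row_ev hF v m)).self_of_nhds]
  have : (fun x => (Gm F x *ᵥ v) m) = fun x => ∑ a, Gm F x m a * v a := rfl
  rw [this, Dv_sum _ _ fun a _ => (Gm_an hF m a).fun_mul analyticAt_const]
  simp only [al, Matrix.of_apply]
  exact Finset.sum_congr rfl fun a _ => by rw [Dv_mul_const _ _ (Gm_an hF m a)]; rfl

lemma al'_eq (hF : AnalyticAt ℂ F y) (w : E n) (j l : Fin n) :
    al' F y w j l = Dv (ez (Pi.single j 1)) (Dv (eu w) (Dv (ez (Pi.single l 1)) F)) y := by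
  rw [← (Dv_congr _ (col_ev hF w l)).self_of_nhds]
  have : (fun x => (w ᵥ* Gm F x) l) = fun x => ∑ a, w a * Gm F x a l := rfl
  rw [this, Dv_sum _ _ fun a _ => analyticAt_const.fun_mul (Gm_an hF a l)]
  simp only [al', Matrix.of_apply]
  exact Finset.sum_congr rfl fun a _ => by rw [Dv_const_mul _ _ (Gm_an hF a l)]; rfl

lemma al_symm (hF : AnalyticAt ℂ F y) (v : E n) (i m : Fin n) : al F y v i m = al F y v m i := by
  rw [al_eq hF, al_eq hF, Dv_comm _ _ (Dv_an _ hF)]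

/-- Three directional derivatives commute. -/
lemma Dv3_inner {Y : Type} [NormedAddCommGroup Y] [NormedSpace ℂ Y] {f : Y → ℂ} {y : Y}
    (a b c : Y) (hf : AnalyticAt ℂ f y) : Dv a (Dv b (Dv c f)) y = Dv a (Dv c (Dv b f)) y :=
  (Dv_congr a (Dv_comm_ev b c hf)).self_of_nhds

section core

variable (I J : Fin r → Fin n) (hF : AnalyticAt ℂ F y) (hr : ∀ᶠ x in 𝓝 y, (Gm F x).rank ≤ r)
  (hd : ((Gm F y).submatrix I J).det ≠ 0)
include hF hr hd

lemma det_ev : ∀ᶠ x in 𝓝 y, ((Gm F x).submatrix I J).det ≠ 0 :=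
  (det_an (G := fun x => (Gm F x).submatrix I J) fun i j => Gm_an hF _ _).continuousAt.eventually_ne
    hd

lemma form_schur (v w : E n) : Dv (eu w) (Dv (ez v) F) =ᶠ[𝓝 y] fun x => ∑ l, ∑ m,
    (w ᵥ* Gm F x) (J l) * ((Gm F x).submatrix I J)⁻¹ l m * (Gm F x *ᵥ v) (I m) := by
  filter_upwards [form_ev hF v w, hr, det_ev I J hF hr hd] with x h1 h2 h3
  rw [← h1]
  conv_lhs => rw [schur (Gm F x) I J h2 h3]
  rw [← Matrix.mulVec_mulVec, ← Matrix.mulVec_mulVec, Matrix.dotProduct_mulVec]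
  simp only [dotProduct, Matrix.mulVec, Finset.mul_sum, Matrix.vecMul, Matrix.submatrix_apply, id]
  exact Finset.sum_congr rfl fun _ _ => Finset.sum_congr rfl fun _ _ => by
    simp only [← Finset.mul_sum]; ring

omit hr hd in
lemma col_an (w : E n) (l : Fin n) : AnalyticAt ℂ (fun x => (w ᵥ* Gm F x) l) y :=
  (Dv_an _ (Dv_an _ hF)).congr (col_ev hF w l).symm

omit hr hd in
lemma row_an (v : E n) (m : Fin n) : AnalyticAt ℂ (fun x => (Gm F x *ᵥ v) m) y :=
  (Dv_an _ (Dv_an _ hF)).congr (row_ev hF v m).symm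

omit hr in
lemma hinv_an (l m : Fin r) : AnalyticAt ℂ (fun x => ((Gm F x).submatrix I J)⁻¹ l m) y :=
  inv_an (G := fun x => (Gm F x).submatrix I J) (fun i j => Gm_an hF _ _) hd l m

variable {v w : E n} (hv : Gm F y *ᵥ v = 0) (hw : w ᵥ* Gm F y = 0)
include hv hw

/-- First order: the form vanishes to second order on a pair of kernel vectors. -/
lemma first (a : E n × E n) : Dv a (Dv (eu w) (Dv (ez v) F)) y = 0 := by
  rw [(Dv_congr a (form_schur I J hF hr hd v w)).self_of_nhds,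
    Dv_sum _ _ fun l _ => Finset.analyticAt_fun_sum _ fun m _ =>
      ((col_an hF w _).fun_mul (hinv_an I J hF hd l m)).fun_mul (row_an hF v _)]
  refine Finset.sum_eq_zero fun l _ => ?_
  rw [Dv_sum _ _ fun m _ =>
      ((col_an hF w _).fun_mul (hinv_an I J hF hd l m)).fun_mul (row_an hF v _)]
  refine Finset.sum_eq_zero fun m _ => ?_
  rw [Dv_three a (col_an hF w _) (hinv_an I J hF hd l m) (row_an hF v _), hv, hw]
  simp

/-- Second order. -/
lemma second (a b : E n × E n) : Dv a (Dv b (Dv (eu w) (Dv (ez v) F))) y = ∑ l, ∑ m,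
    (Dv a (Dv (eu w) (Dv (ez (Pi.single (J l) 1)) F)) y * ((Gm F y).submatrix I J)⁻¹ l m
        * Dv b (Dv (eu (Pi.single (I m) 1)) (Dv (ez v) F)) y
      + Dv b (Dv (eu w) (Dv (ez (Pi.single (J l) 1)) F)) y * ((Gm F y).submatrix I J)⁻¹ l m
        * Dv a (Dv (eu (Pi.single (I m) 1)) (Dv (ez v) F)) y) := by
  have han : ∀ l m, AnalyticAt ℂ (fun x => (w ᵥ* Gm F x) (J l) * ((Gm F x).submatrix I J)⁻¹ l m
      * (Gm F x *ᵥ v) (I m)) y := fun l m =>
    ((col_an hF w _).fun_mul (hinv_an I J hF hd l m)).fun_mul (row_an hF v _)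
  have h1 : Dv b (Dv (eu w) (Dv (ez v) F)) =ᶠ[𝓝 y] fun x => ∑ l, ∑ m, Dv b (fun x =>
      (w ᵥ* Gm F x) (J l) * ((Gm F x).submatrix I J)⁻¹ l m * (Gm F x *ᵥ v) (I m)) x := by
    refine (Dv_congr b (form_schur I J hF hr hd v w)).trans ?_
    filter_upwards [eventually_all.2 fun l => eventually_all.2 fun m =>
      (han l m).eventually_analyticAt] with x hx
    rw [Dv_sum _ _ fun l _ => Finset.analyticAt_fun_sum _ fun m _ => hx l m]
    exact Finset.sum_congr rfl fun l _ => Dv_sum _ _ fun m _ => hx l m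
  rw [(Dv_congr a h1).self_of_nhds,
    Dv_sum _ _ fun l _ => Finset.analyticAt_fun_sum _ fun m _ => Dv_an b (han l m)]
  refine Finset.sum_congr rfl fun l _ => ?_
  rw [Dv_sum _ _ fun m _ => Dv_an b (han l m)]
  refine Finset.sum_congr rfl fun m _ => ?_
  rw [Dv2_three a b (col_an hF w _) (hinv_an I J hF hd l m) (row_an hF v _) (by rw [hw]; rfl)
    (by rw [hv]; rfl), (Dv_congr a (col_ev hF w _)).self_of_nhds,
    (Dv_congr b (col_ev hF w _)).self_of_nhds, (Dv_congr a (row_ev hF v _)).self_of_nhds,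
    (Dv_congr b (row_ev hF v _)).self_of_nhds]

/-- The Riccati identity in polarised form. -/
lemma ric_pol : (Matrix.of fun i j => Dv (eu w) (Dv (ez v) fun x => Gm F x (I i) (J j)) y)
    - (Matrix.of fun i j => Dv (eu w) (fun x => Gm F x (I i) (J j)) y) * ((Gm F y).submatrix I J)⁻¹
      * (Matrix.of fun i j => Dv (ez v) (fun x => Gm F x (I i) (J j)) y)
    = (al F y v).submatrix I I * (((Gm F y).submatrix I J)⁻¹)ᵀ * ((al' F y w).submatrix J J)ᵀ := by
  ext i j
  have e1 : Dv (eu w) (Dv (ez v) fun x => Gm F x (I i) (J j)) y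
      = Dv (eu (Pi.single (I i) 1)) (Dv (ez (Pi.single (J j) 1)) (Dv (eu w) (Dv (ez v) F))) y := by
    rw [Gm_eq]
    set a := eu (n := n) (Pi.single (I i) 1)
    set b := ez (n := n) (Pi.single (J j) 1)
    calc Dv (eu w) (Dv (ez v) (Dv a (Dv b F))) y = Dv (eu w) (Dv a (Dv (ez v) (Dv b F))) y :=
          Dv3_inner _ _ _ (Dv_an _ hF)
      _ = Dv a (Dv (eu w) (Dv (ez v) (Dv b F))) y := Dv_comm _ _ (Dv_an _ (Dv_an _ hF))
      _ = Dv a (Dv (eu w) (Dv b (Dv (ez v) F))) y :=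
          (Dv_congr _ (Dv_congr _ (Dv_comm_ev _ _ hF))).self_of_nhds
      _ = _ := Dv3_inner _ _ _ (Dv_an _ hF)
  have e2 : ∀ l, Dv (eu (Pi.single (I i) 1)) (Dv (eu w) (Dv (ez (Pi.single (J l) 1)) F)) y
      = Dv (eu w) (fun x => Gm F x (I i) (J l)) y := fun l => Dv_comm _ _ (Dv_an _ hF)
  have e3 : ∀ m, Dv (ez (Pi.single (J j) 1)) (Dv (eu (Pi.single (I m) 1)) (Dv (ez v) F)) y
      = Dv (ez v) (fun x => Gm F x (I m) (J j)) y := fun m => by
    rw [Gm_eq]
    set a := eu (n := n) (Pi.single (I m) 1)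
    set b := ez (n := n) (Pi.single (J j) 1)
    calc Dv b (Dv a (Dv (ez v) F)) y = Dv a (Dv b (Dv (ez v) F)) y := Dv_comm _ _ (Dv_an _ hF)
      _ = Dv a (Dv (ez v) (Dv b F)) y := Dv3_inner _ _ _ hF
      _ = _ := Dv_comm _ _ (Dv_an _ hF)
  simp only [Matrix.sub_apply, Matrix.of_apply, Matrix.mul_apply, Matrix.transpose_apply,
    Matrix.submatrix_apply]
  rw [e1, second I J hF hr hd hv hw]
  simp only [e2, e3, ← al_eq hF, ← al'_eq hF, Finset.sum_add_distrib, Finset.sum_mul]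
  rw [Finset.sum_comm, add_sub_cancel_left]
  exact Finset.sum_congr rfl fun _ _ => Finset.sum_congr rfl fun _ _ => by ring

end core

/-- On the diagonal the two twists are conjugate. -/
lemma al'_dg {z : E n} (hF : AnalyticAt ℂ F (dg z)) (hc : cj F =ᶠ[𝓝 (dg z)] F) (v : E n) :
    (al' F (dg z) (star v))ᵀ = (al F (dg z) v)ᴴ := by
  ext l j
  simp only [Matrix.transpose_apply, Matrix.conjTranspose_apply, al, al', Matrix.of_apply,
    star_sum, star_mul']
  refine Finset.sum_congr rfl fun a _ => ?_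
  have e : (fun x => Gm F x a l) =ᶠ[𝓝 (dg z)] cj fun x => Gm F x l a := by
    filter_upwards [hc.eventuallyEq_nhds,
      (PK.tendsto_sw_dg z).eventually hF.eventually_analyticAt] with x h1 h2
    rw [PK.Gm_sw (hn_of_an h2) h1]; rfl
  rw [PK.pz_congr e, PK.pz_cj (by rw [PK.sw_dg]; exact (Gm_an hF l a).differentiableAt), PK.sw_dg,
    mul_comm]
  rfl

end R21

end Pool.Agent.Lib.RA
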